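import Pool.Agent.P.MP_bb4f54_co.T3.Base

/-! Statements: the basic library. -/

set_option autoImplicit false
set_option linter.unusedSectionVars false

namespace Pool.Agent.P.MP_bb4f54_co.T3

open Finset

-- deps:
/-- Parity of cuts and the handshake identity. -/
def S_PAR : Prop := ∀ {V ι : Type} [Fintype V] [DecidableEq V] [DecidableEq ι]
  (en : ι → Sym2 V) (A : Finset ι),
    (∀ Y : Finset V, (cut en A ↑Y).card % 2 = (∑ v ∈ Y, dgr en A v) % 2) ∧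
    (Ev en A → ∀ Y : Set V, Even (cut en A Y).card) ∧
    (∀ x y, Od en A x y → ∀ Y : Set V, (Odd (cut en A Y).card ↔ ¬ (x ∈ Y ↔ y ∈ Y))) ∧
    (∀ Y : Set V, (∀ v ∈ Y, Even (dgr en A v)) → Even (cut en A Y).card) ∧
    (∀ x y, (∀ v, Odd (dgr en A v) → v = x ∨ v = y) → Ev en A ∨ Od en A x y) ∧
    (∀ x, (∀ v, Odd (dgr en A v) → v = x) → Ev en A) ∧
    (NL en A → ∀ U : Finset V,
      ∑ v ∈ U, dgr en A v = 2 * (ins en A ↑U).card + (cut en A ↑U).card)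

-- deps:
/-- Submodularity of cuts. -/
def S_SUB : Prop := ∀ {V ι : Type} [DecidableEq ι] (en : ι → Sym2 V) (Γ : Finset ι)
  (Y Y' : Set V),
    (cut en Γ (Y ∩ Y')).card + (cut en Γ (Y ∪ Y')).card ≤ (cut en Γ Y).card + (cut en Γ Y').card ∧
    (cut en Γ (Y \ Y')).card + (cut en Γ (Y' \ Y)).card ≤ (cut en Γ Y).card + (cut en Γ Y').card ∧
    (cut en Γ Y).card % 2 = ((cut en Γ (Y ∩ Y')).card + (cut en Γ (Y \ Y')).card) % 2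

-- deps:
/-- Algebra of odd sets. -/
def S_ODA : Prop := ∀ {V ι : Type} [DecidableEq V] [DecidableEq ι] (en : ι → Sym2 V),
    (∀ A B x y z, Disjoint A B → Od en A x y → Od en B y z → Od en (A ∪ B) x z) ∧
    (∀ A B x y z, B ⊆ A → Od en A x y → Od en B x z → Od en (A \ B) z y) ∧
    (∀ A B x y z, Od en A x y → Od en B y z → Od en (symmDiff A B) x z) ∧
    (∀ A B x y, B ⊆ A → Od en A x y → Ev en B → Od en (A \ B) x y) ∧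
    (∀ A B x y, B ⊆ A → Ev en A → Od en B x y → Od en (A \ B) x y) ∧
    (∀ i x y, en i = s(x, y) → Od en {i} x y) ∧
    (∀ i x y, en i = s(x, y) → x ≠ y → Pth en {i} x y) ∧
    (∀ A x y, Od en A x y → x ≠ y → x ∈ spt en A ∧ y ∈ spt en A)

-- deps: PAR ODA
/-- Reachability and paths. -/
def S_RCP : Prop := ∀ {V ι : Type} [Fintype V] [DecidableEq V] [DecidableEq ι]
  (en : ι → Sym2 V),
    (∀ A x y, Od en A x y → ∃ B ⊆ A, Pth en B x y) ∧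
    (∀ Γ x y, Rc en Γ x y → ∃ A ⊆ Γ, Pth en A x y) ∧
    (∀ A x y, Od en A x y → Rc en A x y) ∧
    (∀ A x y v, Pth en A x y → v ∈ spt en A → Rc en A x v) ∧
    (∀ Z u v, Cy en Z → u ∈ spt en Z → v ∈ spt en Z → Rc en Z u v)

-- deps: PAR ODA RCP
/-- Splitting a path at a vertex or at an edge. -/
def S_SPP : Prop := ∀ {V ι : Type} [Fintype V] [DecidableEq V] [DecidableEq ι]
  (en : ι → Sym2 V) (A : Finset ι) (x y : V), Pth en A x y →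
    (∀ v ∈ spt en A, ∃ A₁ A₂, A = A₁ ∪ A₂ ∧ Disjoint A₁ A₂ ∧ Pth en A₁ x v ∧ Pth en A₂ v y ∧
      ∀ w ∈ spt en A₁, w ∈ spt en A₂ → w = v) ∧
    (∀ i ∈ A, ∃ a b, en i = s(a, b) ∧ Rc en (A.erase i) x a ∧ Rc en (A.erase i) b y ∧
      ¬ Rc en (A.erase i) a b)

-- deps: PAR ODA
/-- Concatenating and closing paths. -/
def S_CAT : Prop := ∀ {V ι : Type} [Fintype V] [DecidableEq V] [DecidableEq ι]
  (en : ι → Sym2 V),
    (∀ A B x y z, Pth en A x y → Pth en B y z → (∀ w ∈ spt en A, w ∈ spt en B → w = y) →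
      Disjoint A B ∧ Pth en (A ∪ B) x z) ∧
    (∀ A B x y, Pth en A x y → Pth en B x y → x ≠ y → Disjoint A B →
      (∀ w ∈ spt en A, w ∈ spt en B → w = x ∨ w = y) → Cy en (A ∪ B)) ∧
    (∀ Z M x y, Cy en Z → M ⊆ Z → Od en M x y → x ≠ y → Pth en M x y ∧ Pth en (Z \ M) x y) ∧
    (∀ Z M A x y, Cy en Z → M ⊆ Z → Od en M x y → x ≠ y → Pth en A x y → Disjoint (Z \ M) A →
      (∀ w ∈ spt en (Z \ M), w ∈ spt en A → w = x ∨ w = y) → Cy en ((Z \ M) ∪ A))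

-- deps: PAR ODA RCP SPP CAT
/-- Degrees on paths and cycles. -/
def S_PD1 : Prop := ∀ {V ι : Type} [Fintype V] [DecidableEq V] [DecidableEq ι]
  (en : ι → Sym2 V),
    (∀ A x y, Pth en A x y → x ≠ y → dgr en A x = 1 ∧ dgr en A y = 1) ∧
    (∀ A x y v, Pth en A x y → v ∈ spt en A → v ≠ x → v ≠ y → dgr en A v = 2) ∧
    (∀ Z v, Cy en Z → NL en Z → v ∈ spt en Z → dgr en Z v = 2)

-- deps: ODA
/-- An acyclic set has at most as many edges as vertices. -/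
def S_FOR : Prop := ∀ {V ι : Type} [Fintype V] [DecidableEq V] [DecidableEq ι]
  (en : ι → Sym2 V) (A : Finset ι) (U : Finset V), Acy en A → spt en A ⊆ ↑U → A.card ≤ U.card

-- deps: PAR ODA RCP CAT
/-- Cycles through one edge, and forced edges. -/
def S_CY1 : Prop := ∀ {V ι : Type} [Fintype V] [DecidableEq V] [DecidableEq ι]
  (en : ι → Sym2 V),
    (∀ D i, Ev en D → i ∈ D → ∃ Z ⊆ D, Cy en Z ∧ i ∈ Z) ∧
    (∀ Γ i x y, i ∈ Γ → en i = s(x, y) → Rc en (Γ.erase i) x y → ∃ Z ⊆ Γ, Cy en Z ∧ i ∈ Z) ∧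
    (∀ Γ i, i ∈ Γ → (∀ Y : Set V, cut en Γ Y ≠ {i}) → ∃ Z ⊆ Γ, Cy en Z ∧ i ∈ Z) ∧
    (∀ Γ Z i j v, Ev en Z → Z ⊆ Γ → i ∈ Z → i ∈ cut en Γ {v} → cut en Γ {v} ⊆ {i, j} → j ∈ Z) ∧
    (∀ Γ Z i j k v, Ev en Z → Z ⊆ Γ → i ∈ Z → i ∈ cut en Γ {v} → cut en Γ {v} ⊆ {i, j, k} →
      k ∉ Z → j ∈ Z) ∧
    (∀ Γ i x y, Acy en Γ → i ∈ Γ → en i = s(x, y) → ¬ Rc en (Γ.erase i) x y)

-- deps: PAR ODA RCP CY1
/-- An ear from a cycle back to the cycle in a subcubic multigraph. -/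
def S_SPL : Prop := ∀ {V ι : Type} [Fintype V] [DecidableEq V] [DecidableEq ι]
  (en : ι → Sym2 V) (Γ Z : Finset ι) (v : V) (f : ι), NL en Γ → (∀ w, dgr en Γ w ≤ 3) →
    Z ⊆ Γ → Cy en Z → v ∈ spt en Z → f ∈ cut en Γ {v} → f ∉ Z → (∀ Y : Set V, cut en Γ Y ≠ {f}) →
      ∃ Z₁ ⊆ Γ, ∃ Z₂ ⊆ Γ, Cy en Z₁ ∧ Cy en Z₂ ∧ f ∈ Z₁ ∧ f ∈ Z₂ ∧ Z ⊆ Z₁ ∪ Z₂ ∧
        ∀ i ∈ Z, i ∈ Z₁ → i ∉ Z₂

-- deps: CY1 SPL
/-- Two edges of a connected bridgeless subcubic multigraph lie on a cycle. -/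
def S_CY2 : Prop := ∀ {V ι : Type} [Fintype V] [DecidableEq V] [DecidableEq ι]
  (en : ι → Sym2 V) (Γ : Finset ι), NL en Γ → (∀ w, dgr en Γ w ≤ 3) →
    (∀ Y : Set V, (∃ v ∈ spt en Γ, v ∈ Y) → (∃ v ∈ spt en Γ, v ∉ Y) → 2 ≤ (cut en Γ Y).card) →
      ∀ i ∈ Γ, ∀ j ∈ Γ, ∃ Z ⊆ Γ, Cy en Z ∧ i ∈ Z ∧ j ∈ Z

-- deps: PAR RCP PD1
/-- Arcs: edges at inner vertices, all or nothing, recolouring of the inner vertices. -/
def S_ARC : Prop := ∀ {V ι : Type} [Fintype V] [DecidableEq V] [DecidableEq ι]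
  (en : ι → Sym2 V) (Γ B : Finset ι) (x y : V), NL en Γ → Arc en Γ B x y →
    (∀ i ∈ Γ, ∀ v ∈ en i, v ∈ spt en B → v ≠ x → v ≠ y → i ∈ B) ∧
    (∀ D ⊆ Γ, (∀ v ∈ spt en B, v ≠ x → v ≠ y → Even (dgr en D v)) → B ⊆ D ∨ Disjoint B D) ∧
    (∀ Y : Set V, ∃ Y' : Set V, (∀ v, (v ∉ spt en B ∨ v = x ∨ v = y) → (v ∈ Y' ↔ v ∈ Y)) ∧
      (∀ v ∈ spt en B, v ≠ y → (v ∈ Y' ↔ x ∈ Y)) ∧
      cut en (Γ \ B) Y' = cut en (Γ \ B) Y ∧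
      ((x ∈ Y ↔ y ∈ Y) → cut en B Y' = ∅) ∧
      (¬ (x ∈ Y ↔ y ∈ Y) → cut en B Y' = cut en B {y} ∧ (cut en B Y').card = 1) ∧
      (cut en Γ Y').card ≤ (cut en Γ Y).card)

-- deps: ODA CAT
/-- Segments are arcs. -/
def S_SEG : Prop := ∀ {V : Type} [Fintype V] [DecidableEq V] (Γ : Finset (Sym2 V)) (v : ℕ → V)
  (n : ℕ), Seg Γ v n →
    (∀ a b, a ≤ b → b ≤ n → Pth id (ES v a b) (v a) (v b) ∧ ES v a b ⊆ Γ ∧
      (ES v a b).card = b - a ∧ ∀ w ∈ spt id (ES v a b), ∃ i, a ≤ i ∧ i ≤ b ∧ w = v i) ∧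
    (∀ a b, a < b → b ≤ n → Arc id Γ (ES v a b) (v a) (v b) ∧
      ∀ i, a ≤ i → i ≤ b → v i ∈ spt id (ES v a b)) ∧
    (∀ i, 0 < i → i < n → cut id Γ {v i} = {s(v (i - 1), v i), s(v i, v (i + 1))}) ∧
    (∀ a b c, a ≤ b → b ≤ c → c ≤ n → ES v a c = ES v a b ∪ ES v b c ∧
      Disjoint (ES v a b) (ES v b c)) ∧
    Seg Γ (fun i => v (n - i)) n ∧
    (∀ a b, a ≤ b → b ≤ n → ES (fun i => v (n - i)) (n - b) (n - a) = ES v a b)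

-- deps: ODA RCP CAT PD1
/-- Edge sets and walks of a simple graph. -/
def S_WLK : Prop := ∀ {V : Type} [Fintype V] [DecidableEq V] (G : SimpleGraph V),
    (∀ Z ⊆ EG G, Cy id Z → HasC G Z.card ∧ 3 ≤ Z.card) ∧
    (∀ (a b : V) (w : G.Walk a b), ∃ A ⊆ EG G, Pth id A a b ∧ A.card ≤ w.length ∧
      (∀ e ∈ A, e ∈ w.edges) ∧ ∀ v ∈ spt id A, v ∈ w.support) ∧
    (∀ A ⊆ EG G, ∀ a b, Pth id A a b → ∃ w : G.Walk a b, w.IsPath ∧ w.length = A.card ∧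
      (∀ e, e ∈ w.edges ↔ e ∈ A) ∧ ∀ v ∈ w.support, v = a ∨ v ∈ spt id A) ∧
    (∀ A ⊆ EG G, ∀ a b, Rc id A a b → ∃ w : G.Walk a b, ∀ v ∈ w.support, Rc id A a v)

end Pool.Agent.P.MP_bb4f54_co.T3
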