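import Pool.Agent.P.MP_bb4f54_co.T3.Iface1

/-! Statements: the weighted long cycle lemma. -/

set_option autoImplicit false
set_option linter.unusedSectionVars false

namespace Pool.Agent.P.MP_bb4f54_co.T3

open Finset

section defs

variable {V ι : Type}

/-- The exponent. -/
noncomputable def bt : ℝ := 99 / 50

/-- Weight of the half-edges of `Z` at `v`. -/
noncomputable def PP (en : ι → Sym2 V) (Z : Finset ι) (p : V → ι → ℝ) (v : V) : ℝ :=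
  ∑ i ∈ cut en Z {v}, p v i

open Classical in
/-- Contraction of `Y` to `y₀`. -/
noncomputable def pj (Y : Set V) (y₀ : V) : V → V := fun v => if v ∈ Y then y₀ else v

/-- The ends after the contraction of `Y` to `y₀`. -/
noncomputable def ctr (en : ι → Sym2 V) (Y : Set V) (y₀ : V) : ι → Sym2 V :=
  fun i => (en i).map (pj Y y₀)

/-- No nontrivial cut with at most three edges. -/
def NTF (en : ι → Sym2 V) (Γ : Finset ι) (W : Finset V) : Prop :=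
  ∀ Y : Set V, (cut en Γ Y).card ≤ 3 →
    (∀ x ∈ W, ∀ y ∈ W, x ∈ Y → y ∈ Y → x = y) ∨ ∀ x ∈ W, ∀ y ∈ W, x ∉ Y → y ∉ Y → x = y

/-- Adjacency. -/
def Ad (en : ι → Sym2 V) (Γ : Finset ι) (x y : V) : Prop := ∃ i ∈ Γ, en i = s(x, y)

variable [DecidableEq V]

/-- Weight of all half-edges of `Z` away from the root. -/
noncomputable def val (en : ι → Sym2 V) (W : Finset V) (ρ : V) (p : V → ι → ℝ) (Z : Finset ι) :
    ℝ := ∑ v ∈ W.erase ρ, PP en Z p v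

/-- The norm of the vertex weights. -/
noncomputable def NN (en : ι → Sym2 V) (Γ : Finset ι) (W : Finset V) (ρ : V) (p : V → ι → ℝ) :
    ℝ := (∑ v ∈ W.erase ρ, PP en Γ p v ^ bt) ^ (1 / bt)

/-- Three cycles through the pairs of root edges with total weight at least `S`. -/
def Tri (en : ι → Sym2 V) (Γ : Finset ι) (W : Finset V) (ρ : V) (p : V → ι → ℝ) (a b c : ι)
    (S : ℝ) : Prop :=
  ∃ Za ⊆ Γ, ∃ Zb ⊆ Γ, ∃ Zc ⊆ Γ, Cy en Za ∧ Cy en Zb ∧ Cy en Zc ∧ b ∈ Za ∧ c ∈ Za ∧ a ∈ Zb ∧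
    c ∈ Zb ∧ a ∈ Zc ∧ b ∈ Zc ∧ S ≤ val en W ρ p Za + val en W ρ p Zb + val en W ρ p Zc

variable [DecidableEq ι]

/-- A rooted weighted cubic multigraph. -/
structure Rt (en : ι → Sym2 V) (Γ : Finset ι) (W : Finset V) (ρ : V) (p : V → ι → ℝ)
    (a b c : ι) : Prop where
  cub : Cub en Γ W
  hρ : ρ ∈ W
  st : cut en Γ {ρ} = {a, b, c}
  pos : ∀ v i, 0 ≤ p v i

/-- The root edges end in `ua, ub, uc` and carry no weight. -/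
structure Rz (en : ι → Sym2 V) (Γ : Finset ι) (W : Finset V) (ρ : V) (p : V → ι → ℝ)
    (a b c : ι) (ua ub uc : V) : Prop where
  rt : Rt en Γ W ρ p a b c
  ea : en a = s(ρ, ua)
  eb : en b = s(ρ, ub)
  ec : en c = s(ρ, uc)
  za : p ua a = 0
  zb : p ub b = 0
  zc : p uc c = 0

/-- The main case: no nontrivial 3-cut and at least five vertices. -/
structure Loc (en : ι → Sym2 V) (Γ : Finset ι) (W : Finset V) (ρ : V) (p : V → ι → ℝ)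
    (a b c : ι) (ua ub uc : V) : Prop where
  rz : Rz en Γ W ρ p a b c ua ub uc
  nt : NTF en Γ W
  five : 5 ≤ W.card

/-- The edges at `u` are `e`, `g = u w` and `g' = u w'`. -/
structure Fk (en : ι → Sym2 V) (Γ : Finset ι) (u : V) (e g g' : ι) (w w' : V) : Prop where
  st : cut en Γ {u} = {e, g, g'}
  e1 : en g = s(u, w)
  e2 : en g' = s(u, w')

/-- The weights with the root edges set to zero. -/
def zr (p : V → ι → ℝ) (a b c : ι) : V → ι → ℝ :=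
  fun v i => if i = a ∨ i = b ∨ i = c then 0 else p v i

/-- The weights after the deletion step. -/
def pd (p : V → ι → ℝ) (a h₁ h₂ : ι) (w w' w₁ : V) : V → ι → ℝ :=
  fun v i => if v = w' ∧ i = a then 0 else
    if v = w₁ ∧ i = h₂ then p w₁ h₁ + p w h₁ + p w h₂ else p v i

/-- The loss in the deletion step. -/
noncomputable def dl (en : ι → Sym2 V) (Γ : Finset ι) (p : V → ι → ℝ) (g g' : ι) (u w w' : V) :
    V → ℝ :=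
  fun v => if v = u then PP en Γ p u else if v = w then p w g else if v = w' then p w' g' else 0

/-- Both deletions at `u` are blocked. -/
def Blk (x : V → ℝ) (u w w' : V) : Prop := 24 / 25 < max (x u) (x w) + max (x u) (x w')

variable {en : ι → Sym2 V} {Γ Z : Finset ι} {W : Finset V} {ρ ua ub uc u w w' v : V}
  {p : V → ι → ℝ} {a b c e g g' i j : ι} {S S' : ℝ}

lemma Tri.mono (h : Tri en Γ W ρ p a b c S) (hS : S' ≤ S) : Tri en Γ W ρ p a b c S' := by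
  obtain ⟨Za, h1, Zb, h2, Zc, h3, c1, c2, c3, m1, m2, m3, m4, m5, m6, hv⟩ := h
  exact ⟨Za, h1, Zb, h2, Zc, h3, c1, c2, c3, m1, m2, m3, m4, m5, m6, hS.trans hv⟩

lemma Tri.s12 (h : Tri en Γ W ρ p a b c S) : Tri en Γ W ρ p b a c S := by
  obtain ⟨Za, h1, Zb, h2, Zc, h3, c1, c2, c3, m1, m2, m3, m4, m5, m6, hv⟩ := h
  exact ⟨Zb, h2, Za, h1, Zc, h3, c2, c1, c3, m3, m4, m1, m2, m6, m5, by linarith⟩

lemma Tri.s23 (h : Tri en Γ W ρ p a b c S) : Tri en Γ W ρ p a c b S := by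
  obtain ⟨Za, h1, Zb, h2, Zc, h3, c1, c2, c3, m1, m2, m3, m4, m5, m6, hv⟩ := h
  exact ⟨Za, h1, Zc, h3, Zb, h2, c1, c3, c2, m2, m1, m5, m6, m3, m4, by linarith⟩

lemma Tri.s13 (h : Tri en Γ W ρ p a b c S) : Tri en Γ W ρ p c b a S := h.s12.s23.s12

lemma Rt.s12 (h : Rt en Γ W ρ p a b c) : Rt en Γ W ρ p b a c :=
  ⟨h.cub, h.hρ, by rw [h.st, insert_comm], h.pos⟩

lemma Rt.s23 (h : Rt en Γ W ρ p a b c) : Rt en Γ W ρ p a c b :=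
  ⟨h.cub, h.hρ, by rw [h.st, pair_comm], h.pos⟩

lemma Rz.s12 (h : Rz en Γ W ρ p a b c ua ub uc) : Rz en Γ W ρ p b a c ub ua uc :=
  ⟨h.rt.s12, h.eb, h.ea, h.ec, h.zb, h.za, h.zc⟩

lemma Rz.s23 (h : Rz en Γ W ρ p a b c ua ub uc) : Rz en Γ W ρ p a c b ua uc ub :=
  ⟨h.rt.s23, h.ea, h.ec, h.eb, h.za, h.zc, h.zb⟩

lemma Loc.s12 (h : Loc en Γ W ρ p a b c ua ub uc) : Loc en Γ W ρ p b a c ub ua uc :=
  ⟨h.rz.s12, h.nt, h.five⟩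

lemma Loc.s23 (h : Loc en Γ W ρ p a b c ua ub uc) : Loc en Γ W ρ p a c b ua uc ub :=
  ⟨h.rz.s23, h.nt, h.five⟩

lemma Loc.s13 (h : Loc en Γ W ρ p a b c ua ub uc) : Loc en Γ W ρ p c b a uc ub ua :=
  h.s12.s23.s12

lemma Fk.swap (h : Fk en Γ u e g g' w w') : Fk en Γ u e g' g w' w :=
  ⟨by rw [h.st, pair_comm], h.e2, h.e1⟩

lemma Blk.swap {x : V → ℝ} (h : Blk x u w w') : Blk x u w' w := by
  unfold Blk at *; linarith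

lemma Ad.symm {x y : V} (h : Ad en Γ x y) : Ad en Γ y x :=
  let ⟨i, hi, e⟩ := h; ⟨i, hi, e.trans Sym2.eq_swap⟩

/-- Three edges that form a set of size three are different. -/
lemma ne_of_card_three (h : ({a, b, c} : Finset ι).card = 3) : a ≠ b ∧ a ≠ c ∧ b ≠ c := by
  refine ⟨?_, ?_, ?_⟩ <;> rintro rfl
  · rw [insert_idem] at h; have := card_le_two (a := a) (b := c); omega
  · rw [insert_comm, pair_eq_singleton] at h; have := card_le_two (a := b) (b := a); omega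
  · rw [pair_eq_singleton] at h; have := card_le_two (a := a) (b := b); omega

lemma pp_nonneg (hp : ∀ v i, 0 ≤ p v i) : 0 ≤ PP en Z p v := sum_nonneg fun i _ => hp v i

lemma pp_ge1 (hp : ∀ v i, 0 ≤ p v i) (hi : i ∈ cut en Z {v}) : p v i ≤ PP en Z p v :=
  single_le_sum (fun i _ => hp v i) hi

lemma pp_ge2 (hp : ∀ v i, 0 ≤ p v i) (hi : i ∈ cut en Z {v}) (hj : j ∈ cut en Z {v})
    (h : i ≠ j) : p v i + p v j ≤ PP en Z p v := by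
  rw [← sum_pair h]
  exact sum_le_sum_of_subset_of_nonneg (by simp [insert_subset_iff, hi, hj]) fun i _ _ => hp v i

lemma pp_three (h : cut en Γ {v} = {a, b, c}) (h3 : dgr en Γ v = 3) :
    PP en Γ p v = p v a + p v b + p v c := by
  obtain ⟨h1, h2, h4⟩ := ne_of_card_three (a := a) (b := b) (c := c) (h ▸ h3)
  rw [PP, h, sum_insert (by simp [h1, h2]), sum_pair h4, add_assoc]

lemma val_ge (hp : ∀ v i, 0 ≤ p v i) {U : Finset V} (hU : U ⊆ W.erase ρ) :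
    ∑ v ∈ U, PP en Z p v ≤ val en W ρ p Z :=
  sum_le_sum_of_subset_of_nonneg hU fun _ _ _ => pp_nonneg hp

lemma val_nonneg (hp : ∀ v i, 0 ≤ p v i) : 0 ≤ val en W ρ p Z :=
  sum_nonneg fun _ _ => pp_nonneg hp

end defs

/-- The induction hypothesis. -/
def EH (V ι : Type) [DecidableEq V] [DecidableEq ι] (n : ℕ) : Prop :=
  ∀ (en : ι → Sym2 V) (Γ : Finset ι) (W : Finset V) (ρ : V) (p : V → ι → ℝ) (a b c : ι),
    W.card < n → Rt en Γ W ρ p a b c → Tri en Γ W ρ p a b c (2 * NN en Γ W ρ p)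

-- deps:
/-- Inequalities for the norm. -/
def S_NRM : Prop := (∀ x y : ℝ, 0 ≤ x → 0 ≤ y → x ^ bt + y ^ bt ≤ (x + y) ^ bt) ∧
  ∀ {V : Type} (s : Finset V) (x : V → ℝ), (∀ v ∈ s, 0 ≤ x v) →
    (∀ d : V → ℝ, (∀ v ∈ s, 0 ≤ d v) →
      (∑ v ∈ s, (x v + d v) ^ bt) ^ (1 / bt) ≤ (∑ v ∈ s, x v ^ bt) ^ (1 / bt) + ∑ v ∈ s, d v) ∧
    (∑ v ∈ s, x v ^ bt) ^ (1 / bt) ≤ ∑ v ∈ s, x v ∧
    ∀ N : ℝ, N = (∑ v ∈ s, x v ^ bt) ^ (1 / bt) → 0 < N →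
      ∑ v ∈ s, (x v / N) ^ 2 ≤ 1 ∧
      ∀ d : V → ℝ, (∀ v ∈ s, 0 ≤ d v ∧ d v ≤ x v) →
        N - ∑ v ∈ s, (x v / N + 1 / 50) * d v ≤ (∑ v ∈ s, (x v - d v) ^ bt) ^ (1 / bt)

-- deps: PAR CY2
/-- Local structure of a cubic multigraph without nontrivial 3-cuts. -/
def S_GIR : Prop := ∀ {V ι : Type} [Fintype V] [DecidableEq V] [DecidableEq ι]
  (en : ι → Sym2 V) (Γ : Finset ι) (W : Finset V), Cub en Γ W →
    (∀ v, dgr en Γ v ≤ 3) ∧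
    (∀ u ∈ W, ∀ e ∈ cut en Γ {u}, ∃ g g' w w', Fk en Γ u e g g' w w') ∧
    (∀ U : Set V, (∃ w ∈ W, w ∉ U) → (cut en Γ U).card ≤ 5 → ∀ x ∈ W, ∀ y ∈ W, x ∈ U → y ∈ U →
      Rc en (ins en Γ U) x y) ∧
    (3 ≤ W.card → ∀ i ∈ Γ, ∀ j ∈ Γ, en i = en j → i = j) ∧
    (NTF en Γ W →
      (5 ≤ W.card → ∀ x y z, Ad en Γ x y → Ad en Γ y z → Ad en Γ z x → False) ∧
      (∀ Y : Set V, (cut en Γ Y).card ≤ 3 → (∃ v ∈ W, v ∈ Y) → (∃ v ∈ W, v ∉ Y) →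
        ∃ v ∈ W, cut en Γ Y = cut en Γ {v}) ∧
      (∀ U : Set V, (∃ w ∈ W, ∃ w' ∈ W, w ≠ w' ∧ w ∉ U ∧ w' ∉ U) → (cut en Γ U).card ≤ 6 →
        ∀ x ∈ W, ∀ y ∈ W, x ∈ U → y ∈ U → Rc en (ins en Γ U) x y ∨
          ∀ z ∈ W, z ∈ U → z = x ∨ z = y) ∧
      (∀ i ∈ Γ, ∀ j ∈ Γ, (∀ v ∈ en i, v ∉ en j) → ∀ e ∈ Γ \ {i, j}, ∀ f ∈ Γ \ {i, j},
        ∃ Z ⊆ Γ \ {i, j}, Cy en Z ∧ e ∈ Z ∧ f ∈ Z))

-- deps: CY1
/-- The three cycles exist. -/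
def S_TR0 : Prop := ∀ {V ι : Type} [Fintype V] [DecidableEq V] [DecidableEq ι]
  {en : ι → Sym2 V} {Γ : Finset ι} {W : Finset V} {ρ : V} {p : V → ι → ℝ} {a b c : ι},
    Rt en Γ W ρ p a b c → Tri en Γ W ρ p a b c 0

-- deps: NRM
/-- The weights on the root edges are gained twice. -/
def S_E0 : Prop := ∀ {V ι : Type} [Fintype V] [DecidableEq V] [DecidableEq ι]
  {en : ι → Sym2 V} {Γ : Finset ι} {W : Finset V} {ρ : V} {p : V → ι → ℝ} {a b c : ι},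
    Rt en Γ W ρ p a b c → (∃ ua ub uc, Rz en Γ W ρ (zr p a b c) a b c ua ub uc) ∧
      (Tri en Γ W ρ (zr p a b c) a b c (2 * NN en Γ W ρ (zr p a b c)) →
        Tri en Γ W ρ p a b c (2 * NN en Γ W ρ p))

-- deps:
/-- Contraction of a side of a 3-cut. -/
def S_CON : Prop := ∀ {V ι : Type} [Fintype V] [DecidableEq V] [DecidableEq ι]
  (en : ι → Sym2 V) (Γ : Finset ι) (W W' : Finset V) (Y : Set V) (y₀ : V), Cub en Γ W →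
    y₀ ∈ W → y₀ ∈ Y → (∃ w ∈ W, w ∉ Y) → (cut en Γ Y).card = 3 →
    (∀ v, v ∈ W' ↔ v = y₀ ∨ (v ∈ W ∧ v ∉ Y)) →
      Cub (ctr en Y y₀) (tch en Γ Yᶜ) W' ∧
      (∀ Z ⊆ Γ, cut (ctr en Y y₀) Z {y₀} = cut en Z Y) ∧
      (∀ Z ⊆ Γ, ∀ v, v ∉ Y → cut (ctr en Y y₀) Z {v} = cut en Z {v}) ∧
      cut en (tch en Γ Yᶜ) Y = cut en Γ Y ∧
      ∀ v, v ∉ Y → cut en (tch en Γ Yᶜ) {v} = cut en Γ {v}

-- deps: PAR
/-- Gluing cycles of the two contractions. -/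
def S_GLU : Prop := ∀ {V ι : Type} [Fintype V] [DecidableEq V] [DecidableEq ι]
  (en : ι → Sym2 V) (Γ Z₂ : Finset ι) (Y : Set V) (x₀ y₀ : V), y₀ ∈ Y → x₀ ∉ Y →
    Z₂ ⊆ tch en Γ Yᶜ → Cy (ctr en Y y₀) Z₂ →
      (cut en Z₂ Y = ∅ → Cy en Z₂) ∧
      ∀ Z₁ ⊆ tch en Γ Y, Cy (ctr en Yᶜ x₀) Z₁ → cut en Z₁ Y = cut en Z₂ Y →
        (cut en Z₂ Y).Nonempty → Cy en (Z₁ ∪ Z₂)

-- deps: SPL GIR
/-- The best triple is metric. -/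
def S_MET : Prop := ∀ {V ι : Type} [Fintype V] [DecidableEq V] [DecidableEq ι]
  {en : ι → Sym2 V} {Γ : Finset ι} {W : Finset V} {ρ : V} {p : V → ι → ℝ} {a b c : ι} {S : ℝ},
    Rt en Γ W ρ p a b c → Tri en Γ W ρ p a b c S →
      ∃ Za ⊆ Γ, ∃ Zb ⊆ Γ, ∃ Zc ⊆ Γ, Cy en Za ∧ Cy en Zb ∧ Cy en Zc ∧
        cut en Za {ρ} = {b, c} ∧ cut en Zb {ρ} = {a, c} ∧ cut en Zc {ρ} = {a, b} ∧
        S ≤ val en W ρ p Za + val en W ρ p Zb + val en W ρ p Zc ∧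
        val en W ρ p Za ≤ val en W ρ p Zb + val en W ρ p Zc ∧
        val en W ρ p Zb ≤ val en W ρ p Za + val en W ρ p Zc ∧
        val en W ρ p Zc ≤ val en W ρ p Za + val en W ρ p Zb

-- deps: PAR CON GLU
/-- Lifting a cycle of the outer contraction. -/
def S_LFT : Prop := ∀ {V ι : Type} [Fintype V] [DecidableEq V] [DecidableEq ι]
  (en : ι → Sym2 V) (Γ : Finset ι) (W W₁ W₂ : Finset V) (ρ y₀ : V) (Y : Set V)
  (p p₂ : V → ι → ℝ) (k l m : ι) (Zk Zl Zm : Finset ι), Cub en Γ W → ρ ∈ W → ρ ∉ Y → y₀ ∈ W →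
    y₀ ∈ Y → cut en Γ Y = {k, l, m} → (cut en Γ Y).card = 3 →
    (∀ v, v ∈ W₁ ↔ v = ρ ∨ (v ∈ W ∧ v ∈ Y)) → (∀ v, v ∈ W₂ ↔ v = y₀ ∨ (v ∈ W ∧ v ∉ Y)) →
    Zk ⊆ tch en Γ Y → Zl ⊆ tch en Γ Y → Zm ⊆ tch en Γ Y →
    Cy (ctr en Yᶜ ρ) Zk → Cy (ctr en Yᶜ ρ) Zl → Cy (ctr en Yᶜ ρ) Zm →
    cut en Zk Y = {l, m} → cut en Zl Y = {k, m} → cut en Zm Y = {k, l} →
    (∀ v, v ≠ y₀ → p₂ v = p v) →
    p₂ y₀ l + p₂ y₀ m = val (ctr en Yᶜ ρ) W₁ ρ p Zk →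
    p₂ y₀ k + p₂ y₀ m = val (ctr en Yᶜ ρ) W₁ ρ p Zl →
    p₂ y₀ k + p₂ y₀ l = val (ctr en Yᶜ ρ) W₁ ρ p Zm → (∀ v i, 0 ≤ p v i) →
      ∀ Z₂ ⊆ tch en Γ Yᶜ, Cy (ctr en Y y₀) Z₂ →
        ∃ Z ⊆ Γ, Cy en Z ∧ Z₂ ⊆ Z ∧ val (ctr en Y y₀) W₂ ρ p₂ Z₂ ≤ val en W ρ p Z

-- deps: NRM CON MET LFT
/-- The step with a nontrivial 3-cut. -/
def S_E1 : Prop := ∀ {V ι : Type} [Fintype V] [DecidableEq V] [DecidableEq ι]
  {en : ι → Sym2 V} {Γ : Finset ι} {W : Finset V} {ρ : V} {p : V → ι → ℝ} {a b c : ι},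
    EH V ι W.card → Rt en Γ W ρ p a b c → ¬ NTF en Γ W → Tri en Γ W ρ p a b c (2 * NN en Γ W ρ p)

-- deps: PAR TR0
/-- The theta graph. -/
def S_THE : Prop := ∀ {V ι : Type} [Fintype V] [DecidableEq V] [DecidableEq ι]
  {en : ι → Sym2 V} {Γ : Finset ι} {W : Finset V} {ρ ua ub uc : V} {p : V → ι → ℝ} {a b c : ι},
    Rz en Γ W ρ p a b c ua ub uc → ua = ub → Tri en Γ W ρ p a b c (2 * NN en Γ W ρ p)

-- deps: CY1 GIR NRM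
/-- The complete graph on four vertices. -/
def S_K4 : Prop := ∀ {V ι : Type} [Fintype V] [DecidableEq V] [DecidableEq ι]
  {en : ι → Sym2 V} {Γ : Finset ι} {W : Finset V} {ρ ua ub uc : V} {p : V → ι → ℝ} {a b c : ι},
    Rz en Γ W ρ p a b c ua ub uc → ua ≠ ub → ua ≠ uc → ub ≠ uc → W.card ≤ 4 →
      Tri en Γ W ρ p a b c (2 * NN en Γ W ρ p)

-- deps: PAR
/-- Undoing the contraction of an edge at a vertex of degree two. -/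
def S_UNC : Prop := ∀ {V ι : Type} [Fintype V] [DecidableEq V] [DecidableEq ι]
  (en : ι → Sym2 V) (Γ : Finset ι) (u u' : V) (j k : ι), NL en Γ → cut en Γ {u} = {j, k} →
    j ≠ k → en k = s(u, u') →
      (∀ Z v, v ≠ u → v ≠ u' → cut (ctr en {u} u') Z {v} = cut en Z {v}) ∧
      (∀ Z, cut (ctr en {u} u') Z {u} = ∅ ∧ cut (ctr en {u} u') Z {u'} = cut en Z {u, u'}) ∧
      ∀ Z ⊆ Γ.erase k, Cy (ctr en {u} u') Z → (j ∈ Z → Cy en (insert k Z)) ∧ (j ∉ Z → Cy en Z)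

-- deps: GIR
/-- The graph after the deletion step. -/
def S_DL1 : Prop := ∀ {V ι : Type} [Fintype V] [DecidableEq V] [DecidableEq ι]
  {en : ι → Sym2 V} {Γ : Finset ι} {W : Finset V} {ρ u ub uc w w' w₁ w₂ : V} {p : V → ι → ℝ}
  {a b c g g' h₁ h₂ : ι}, Loc en Γ W ρ p a b c u ub uc → Fk en Γ u a g g' w w' →
    Fk en Γ w g h₁ h₂ w₁ w₂ →
      [ρ, u, w, w', w₁].Nodup ∧ [ρ, u, w, w₁, w₂].Nodup ∧ u ∈ W ∧ w ∈ W ∧ w' ∈ W ∧ w₁ ∈ W ∧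
      [a, g, g', h₁, h₂].Nodup ∧
      Rt (ctr (ctr en {u} w') {w} w₁) (Γ \ {g, g', h₁}) ((W.erase u).erase w) ρ
        (pd p a h₁ h₂ w w' w₁) a b c ∧
      cut (ctr (ctr en {u} w') {w} w₁) (Γ \ {g, g', h₁}) {w'} =
        insert a ((cut en Γ {w'}).erase g') ∧
      cut (ctr (ctr en {u} w') {w} w₁) (Γ \ {g, g', h₁}) {w₁} =
        insert h₂ ((cut en Γ {w₁}).erase h₁) ∧
      ∀ v, v ≠ u → v ≠ w → v ≠ w' → v ≠ w₁ →
        cut (ctr (ctr en {u} w') {w} w₁) (Γ \ {g, g', h₁}) {v} = cut en Γ {v}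

-- deps: GIR UNC DL1
/-- Lifting a cycle in the deletion step. -/
def S_DL2 : Prop := ∀ {V ι : Type} [Fintype V] [DecidableEq V] [DecidableEq ι]
  {en : ι → Sym2 V} {Γ : Finset ι} {W : Finset V} {ρ u ub uc w w' w₁ w₂ : V} {p : V → ι → ℝ}
  {a b c g g' h₁ h₂ : ι}, Loc en Γ W ρ p a b c u ub uc → Fk en Γ u a g g' w w' →
    Fk en Γ w g h₁ h₂ w₁ w₂ → ∀ Z' ⊆ Γ \ {g, g', h₁}, Cy (ctr (ctr en {u} w') {w} w₁) Z' →
      ∃ Z ⊆ Γ, Cy en Z ∧ Z' ⊆ Z ∧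
        val (ctr (ctr en {u} w') {w} w₁) ((W.erase u).erase w) ρ (pd p a h₁ h₂ w w' w₁) Z' +
          (if a ∈ Z' then p u g' + p w' g' else 0) ≤ val en W ρ p Z

-- deps: NRM GIR DL1 DL2
/-- The result of the deletion step. -/
def S_DL3 : Prop := ∀ {V ι : Type} [Fintype V] [DecidableEq V] [DecidableEq ι]
  {en : ι → Sym2 V} {Γ : Finset ι} {W : Finset V} {ρ u ub uc w w' : V} {p : V → ι → ℝ}
  {a b c g g' : ι}, EH V ι W.card → Loc en Γ W ρ p a b c u ub uc → Fk en Γ u a g g' w w' →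
    Tri en Γ W ρ p a b c (2 * (p u g' + p w' g') +
      2 * (∑ v ∈ W.erase ρ, (PP en Γ p v - dl en Γ p g g' u w w' v) ^ bt) ^ (1 / bt))

-- deps: NRM GIR DL1 DL3
/-- One of the two deletions works unless it is blocked. -/
def S_E3 : Prop := ∀ {V ι : Type} [Fintype V] [DecidableEq V] [DecidableEq ι]
  {en : ι → Sym2 V} {Γ : Finset ι} {W : Finset V} {ρ u ub uc w w' : V} {p : V → ι → ℝ}
  {a b c g g' : ι}, EH V ι W.card → Loc en Γ W ρ p a b c u ub uc → Fk en Γ u a g g' w w' →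
    0 < NN en Γ W ρ p → ¬ Blk (fun v => PP en Γ p v / NN en Γ W ρ p) u w w' →
      Tri en Γ W ρ p a b c (2 * NN en Γ W ρ p)

-- deps: CY1 GIR
/-- Two root neighbours are collected twice, a third of any other vertex once. -/
def S_B1 : Prop := ∀ {V ι : Type} [Fintype V] [DecidableEq V] [DecidableEq ι]
  {en : ι → Sym2 V} {Γ : Finset ι} {W : Finset V} {ρ ua ub uc : V} {p : V → ι → ℝ} {a b c : ι},
    Loc en Γ W ρ p a b c ua ub uc → ∀ y ∈ W, y ≠ ρ → y ≠ ua → y ≠ ub →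
      Tri en Γ W ρ p a b c (2 * PP en Γ p ua + 2 * PP en Γ p ub + PP en Γ p y / 3)

-- deps: PAR CY1 CY2 GIR
/-- The 4-cycle at the root: the cycles through `a b` and through `a c`. -/
def S_O1c : Prop := ∀ {V ι : Type} [Fintype V] [DecidableEq V] [DecidableEq ι]
  {en : ι → Sym2 V} {Γ : Finset ι} {W : Finset V} {ρ ua ub uc w wa wb wc wc' R : V}
  {p : V → ι → ℝ} {a b c ga ga' gb gb' gc gc' r : ι}, Loc en Γ W ρ p a b c ua ub uc →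
    Fk en Γ ua a ga ga' w wa → Fk en Γ ub b gb gb' w wb → Fk en Γ uc c gc gc' wc wc' →
    Fk en Γ w ga gb r ub R → ¬ Ad en Γ w uc →
      (∃ Z ⊆ Γ, Cy en Z ∧ a ∈ Z ∧ b ∈ Z ∧ ga' ∈ Z ∧ gb ∈ Z ∧ r ∈ Z ∧ gc ∈ Z ∧ gc' ∈ Z) ∧
      (∃ Z ⊆ Γ, Cy en Z ∧ a ∈ Z ∧ c ∈ Z ∧ ga ∈ Z ∧ r ∈ Z ∧ gc ∈ Z) ∧
      (∃ Z ⊆ Γ, Cy en Z ∧ b ∈ Z ∧ c ∈ Z ∧ gb ∈ Z ∧ ga ∈ Z ∧ ga' ∈ Z ∧ gc ∈ Z)

-- deps: PAR CY1 GIR
/-- The 4-cycle at the root: the cycle through `b c` with a prescribed exit at `wa`. -/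
def S_O1d : Prop := ∀ {V ι : Type} [Fintype V] [DecidableEq V] [DecidableEq ι]
  {en : ι → Sym2 V} {Γ : Finset ι} {W : Finset V} {ρ ua ub uc w wa wb wc wc' R H H' : V}
  {p : V → ι → ℝ} {a b c ga ga' gb gb' gc gc' r h h' : ι}, Loc en Γ W ρ p a b c ua ub uc →
    Fk en Γ ua a ga ga' w wa → Fk en Γ ub b gb gb' w wb → Fk en Γ uc c gc gc' wc wc' →
    Fk en Γ w ga gb r ub R → Fk en Γ wa ga' h h' H H' → ¬ Ad en Γ w uc → wa ≠ wb →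
    ¬ Ad en Γ wa uc → ¬ Ad en Γ wb uc →
      ∃ Z ⊆ Γ, Cy en Z ∧ b ∈ Z ∧ c ∈ Z ∧ gb ∈ Z ∧ ga ∈ Z ∧ ga' ∈ Z ∧ gc ∈ Z ∧ h ∈ Z

-- deps: GIR O1c O1d
/-- The 4-cycle at the root: the weights. -/
def S_O1 : Prop := ∀ {V ι : Type} [Fintype V] [DecidableEq V] [DecidableEq ι]
  {en : ι → Sym2 V} {Γ : Finset ι} {W : Finset V} {ρ ua ub uc w wa wb : V}
  {p : V → ι → ℝ} {a b c ga ga' gb gb' : ι}, Loc en Γ W ρ p a b c ua ub uc →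
    Fk en Γ ua a ga ga' w wa → Fk en Γ ub b gb gb' w wb → ¬ Ad en Γ w uc →
      Tri en Γ W ρ p a b c (2 * PP en Γ p w + 2 * PP en Γ p uc + 2 * PP en Γ p ua) ∧
      (wa ≠ wb → ¬ Ad en Γ wa uc → ¬ Ad en Γ wb uc →
        Tri en Γ W ρ p a b c (2 * PP en Γ p w + 2 * PP en Γ p uc + PP en Γ p wa / 2))

-- deps: PAR CY1 GIR
/-- The ladder at the root: the three cycles. -/
def S_LDc : Prop := ∀ {V ι : Type} [Fintype V] [DecidableEq V] [DecidableEq ι]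
  {en : ι → Sym2 V} {Γ : Finset ι} {W : Finset V} {ρ ua ub uc w₁ w₂ A C R₁ R₂ H H' : V}
  {p : V → ι → ℝ} {a b c ga ga' gb gb' gc gc' r₁ r₂ h h' : ι}, Loc en Γ W ρ p a b c ua ub uc →
    Fk en Γ ua a ga ga' w₁ A → Fk en Γ ub b gb gb' w₁ w₂ → Fk en Γ uc c gc gc' w₂ C →
    Fk en Γ w₁ ga gb r₁ ub R₁ → Fk en Γ w₂ gc gb' r₂ ub R₂ → Fk en Γ A ga' h h' H H' →
    A ≠ w₂ → C ≠ w₁ →
      (∃ Z ⊆ Γ, Cy en Z ∧ a ∈ Z ∧ b ∈ Z ∧ ga ∈ Z ∧ r₁ ∈ Z ∧ r₂ ∈ Z ∧ gb' ∈ Z) ∧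
      (∃ Z ⊆ Γ, Cy en Z ∧ a ∈ Z ∧ c ∈ Z ∧ ga' ∈ Z ∧ r₁ ∈ Z ∧ gb ∈ Z ∧ gb' ∈ Z ∧ gc ∈ Z) ∧
      (∃ Z ⊆ Γ, Cy en Z ∧ b ∈ Z ∧ c ∈ Z ∧ gb ∈ Z ∧ ga ∈ Z ∧ ga' ∈ Z ∧ r₂ ∈ Z ∧ gc ∈ Z) ∧
      (A ≠ C → A ≠ R₂ →
        ∃ Z ⊆ Γ, Cy en Z ∧ b ∈ Z ∧ c ∈ Z ∧ gb ∈ Z ∧ ga ∈ Z ∧ ga' ∈ Z ∧ r₂ ∈ Z ∧ gc ∈ Z ∧ h ∈ Z)

-- deps: CY1 GIR LDc
/-- The ladder at the root: the weights of one pattern. -/
def S_LD1 : Prop := ∀ {V ι : Type} [Fintype V] [DecidableEq V] [DecidableEq ι]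
  {en : ι → Sym2 V} {Γ : Finset ι} {W : Finset V} {ρ ua ub uc w₁ w₂ A C : V}
  {p : V → ι → ℝ} {a b c ga ga' gb gb' gc gc' : ι}, Loc en Γ W ρ p a b c ua ub uc →
    Fk en Γ ua a ga ga' w₁ A → Fk en Γ ub b gb gb' w₁ w₂ → Fk en Γ uc c gc gc' w₂ C →
    A ≠ w₂ → C ≠ w₁ →
      Tri en Γ W ρ p a b c (2 * PP en Γ p w₁ + 2 * PP en Γ p w₂ + 2 * PP en Γ p ua) ∧
      (A ≠ C → Tri en Γ W ρ p a b c (2 * PP en Γ p w₁ + 2 * PP en Γ p w₂ + PP en Γ p A / 2)) ∧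
      (A = C → Tri en Γ W ρ p a b c
        (2 * PP en Γ p w₁ + 2 * PP en Γ p w₂ + 2 * (PP en Γ p A - p A gc')))

-- deps: GIR LD1
/-- The ladder at the root. -/
def S_LAD : Prop := ∀ {V ι : Type} [Fintype V] [DecidableEq V] [DecidableEq ι]
  {en : ι → Sym2 V} {Γ : Finset ι} {W : Finset V} {ρ ua ub uc w₁ w₂ A C : V}
  {p : V → ι → ℝ} {a b c ga ga' gb gb' gc gc' : ι}, Loc en Γ W ρ p a b c ua ub uc →
    Fk en Γ ua a ga ga' w₁ A → Fk en Γ ub b gb gb' w₁ w₂ → Fk en Γ uc c gc gc' w₂ C →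
    A ≠ w₂ → C ≠ w₁ → ∀ y, (y = ua ∨ y = A ∨ y = uc ∨ y = C) →
      Tri en Γ W ρ p a b c (2 * PP en Γ p w₁ + 2 * PP en Γ p w₂ + PP en Γ p y / 2)

-- deps: PAR CY1 GIR NRM
/-- The complete bipartite graph. -/
def S_K33 : Prop := ∀ {V ι : Type} [Fintype V] [DecidableEq V] [DecidableEq ι]
  {en : ι → Sym2 V} {Γ : Finset ι} {W : Finset V} {ρ ua ub uc w w' : V}
  {p : V → ι → ℝ} {a b c ga ga' gb gb' gc gc' : ι}, Loc en Γ W ρ p a b c ua ub uc →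
    Fk en Γ ua a ga ga' w w' → Fk en Γ ub b gb gb' w w' → Fk en Γ uc c gc gc' w w' →
      Tri en Γ W ρ p a b c (2 * NN en Γ W ρ p)

-- deps: PAR GIR K33
/-- Two common neighbours, or a neighbour of all three, force the complete bipartite graph. -/
def S_KK : Prop := ∀ {V ι : Type} [Fintype V] [DecidableEq V] [DecidableEq ι]
  {en : ι → Sym2 V} {Γ : Finset ι} {W : Finset V} {ρ ua ub uc w wa wb : V}
  {p : V → ι → ℝ} {a b c ga ga' gb gb' : ι}, Loc en Γ W ρ p a b c ua ub uc →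
    Fk en Γ ua a ga ga' w wa → Fk en Γ ub b gb gb' w wb → (wa = wb ∨ Ad en Γ w uc) →
      Tri en Γ W ρ p a b c (2 * NN en Γ W ρ p)

-- deps: GIR NRM
/-- Bookkeeping for the blocked case. -/
def S_MAS : Prop := ∀ {V ι : Type} [Fintype V] [DecidableEq V] [DecidableEq ι]
  {en : ι → Sym2 V} {Γ : Finset ι} {W : Finset V} {ρ ua ub uc wa wa' wb wb' wc wc' : V}
  {p : V → ι → ℝ} {a b c ga ga' gb gb' gc gc' : ι}, Loc en Γ W ρ p a b c ua ub uc →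
    Fk en Γ ua a ga ga' wa wa' → Fk en Γ ub b gb gb' wb wb' → Fk en Γ uc c gc gc' wc wc' →
      [ρ, ua, ub, uc, wa, wa'].Nodup ∧ [ρ, ua, ub, uc, wb, wb'].Nodup ∧
      [ρ, ua, ub, uc, wc, wc'].Nodup ∧
      (∀ y ∈ [ua, ub, uc, wa, wa', wb, wb', wc, wc'], y ∈ W ∧ y ≠ ρ) ∧
      (∀ y, Ad en Γ y uc ↔ y = ρ ∨ y = wc ∨ y = wc') ∧
      (0 < NN en Γ W ρ p → ∀ l : List V, l.Nodup → (∀ y ∈ l, y ∈ W ∧ y ≠ ρ) →
        (l.map fun v => (PP en Γ p v / NN en Γ W ρ p) ^ 2).sum ≤ 1)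

-- deps: MAS O1 LAD KK
/-- Blocked case, `c` is the only single. -/
def S_E4b : Prop := ∀ {V ι : Type} [Fintype V] [DecidableEq V] [DecidableEq ι]
  {en : ι → Sym2 V} {Γ : Finset ι} {W : Finset V} {ρ ua ub uc wa wa' wb wb' wc wc' : V}
  {p : V → ι → ℝ} {a b c ga ga' gb gb' gc gc' : ι}, Loc en Γ W ρ p a b c ua ub uc →
    Fk en Γ ua a ga ga' wa wa' → Fk en Γ ub b gb gb' wb wb' → Fk en Γ uc c gc gc' wc wc' →
    0 < NN en Γ W ρ p → Blk (fun v => PP en Γ p v / NN en Γ W ρ p) ua wa wa' →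
    Blk (fun v => PP en Γ p v / NN en Γ W ρ p) ub wb wb' →
    PP en Γ p ua / NN en Γ W ρ p ≤ 12 / 25 → PP en Γ p ub / NN en Γ W ρ p ≤ 12 / 25 →
    12 / 25 < PP en Γ p uc / NN en Γ W ρ p → Tri en Γ W ρ p a b c (2 * NN en Γ W ρ p)

-- deps: MAS LAD KK
/-- Blocked case, no single. -/
def S_E4c : Prop := ∀ {V ι : Type} [Fintype V] [DecidableEq V] [DecidableEq ι]
  {en : ι → Sym2 V} {Γ : Finset ι} {W : Finset V} {ρ ua ub uc wa wa' wb wb' wc wc' : V}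
  {p : V → ι → ℝ} {a b c ga ga' gb gb' gc gc' : ι}, Loc en Γ W ρ p a b c ua ub uc →
    Fk en Γ ua a ga ga' wa wa' → Fk en Γ ub b gb gb' wb wb' → Fk en Γ uc c gc gc' wc wc' →
    0 < NN en Γ W ρ p → Blk (fun v => PP en Γ p v / NN en Γ W ρ p) ua wa wa' →
    Blk (fun v => PP en Γ p v / NN en Γ W ρ p) ub wb wb' →
    Blk (fun v => PP en Γ p v / NN en Γ W ρ p) uc wc wc' →
    PP en Γ p ua / NN en Γ W ρ p ≤ 12 / 25 → PP en Γ p ub / NN en Γ W ρ p ≤ 12 / 25 →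
    PP en Γ p uc / NN en Γ W ρ p ≤ 12 / 25 → Tri en Γ W ρ p a b c (2 * NN en Γ W ρ p)

-- deps: MAS B1 E4b E4c
/-- The blocked case. -/
def S_E4 : Prop := ∀ {V ι : Type} [Fintype V] [DecidableEq V] [DecidableEq ι]
  {en : ι → Sym2 V} {Γ : Finset ι} {W : Finset V} {ρ ua ub uc wa wa' wb wb' wc wc' : V}
  {p : V → ι → ℝ} {a b c ga ga' gb gb' gc gc' : ι}, Loc en Γ W ρ p a b c ua ub uc →
    Fk en Γ ua a ga ga' wa wa' → Fk en Γ ub b gb gb' wb wb' → Fk en Γ uc c gc gc' wc wc' →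
    0 < NN en Γ W ρ p → Blk (fun v => PP en Γ p v / NN en Γ W ρ p) ua wa wa' →
    Blk (fun v => PP en Γ p v / NN en Γ W ρ p) ub wb wb' →
    Blk (fun v => PP en Γ p v / NN en Γ W ρ p) uc wc wc' →
      Tri en Γ W ρ p a b c (2 * NN en Γ W ρ p)

-- deps: GIR TR0 E0 E1 THE K4 E3 E4
/-- The weighted long cycle lemma. -/
def S_EE : Prop := ∀ (V ι : Type) [Fintype V] [DecidableEq V] [DecidableEq ι] (n : ℕ), EH V ι n

-- deps: EE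
/-- Edge weights on a cubic multigraph. -/
def S_EW0 : Prop := ∀ {V ι : Type} [Fintype V] [DecidableEq V] [DecidableEq ι]
  (en : ι → Sym2 V) (Γ : Finset ι) (W : Finset V) (ω : ι → ℕ), Cub en Γ W → W.Nonempty →
    ∃ Z ⊆ Γ, Cy en Z ∧ 2 / 3 * ((∑ i ∈ Γ, ω i : ℕ) : ℝ) ^ (1 / bt) ≤ ((∑ i ∈ Z, ω i : ℕ) : ℝ)

-- deps: PAR UNC
/-- Contraction of an edge at a vertex of degree two. -/
def S_SUP : Prop := ∀ {V ι : Type} [Fintype V] [DecidableEq V] [DecidableEq ι]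
  (en : ι → Sym2 V) (Γ : Finset ι) (u u' : V) (j k : ι), TC en Γ → cut en Γ {u} = {j, k} →
    j ≠ k → en k = s(u, u') → TC (ctr en {u} u') (Γ.erase k)

-- deps: UNC SUP EW0
/-- Edge weights on a subdivision. -/
def S_EW : Prop := ∀ {V ι : Type} [Fintype V] [DecidableEq V] [DecidableEq ι]
  (en : ι → Sym2 V) (Γ : Finset ι) (ω : ι → ℕ), TC en Γ →
    ∃ Z ⊆ Γ, Cy en Z ∧ 2 / 3 * ((∑ i ∈ Γ, ω i : ℕ) : ℝ) ^ (1 / bt) ≤ ((∑ i ∈ Z, ω i : ℕ) : ℝ)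

end Pool.Agent.P.MP_bb4f54_co.T3
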