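import Pool.Agent.P.MP_bb4f54_co.T3.Iface1

/-! Statements: operations on subdivisions, threads. -/

set_option autoImplicit false
set_option linter.unusedSectionVars false

namespace Pool.Agent.P.MP_bb4f54_co.T3

open Finset

section defs

variable {V ι : Type}

/-- `x` and `y` are not inner vertices of one thread. -/
def Dif (en : ι → Sym2 V) (Γ : Finset ι) (x y : V) : Prop :=
  ∀ Y : Set V, x ∈ Y → y ∈ Y → (∀ v ∈ Y, dgr en Γ v ≠ 3) → 4 ≤ (cut en Γ Y).card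

/-- `A` is a path from `x` to `y` that meets `Γ` only in its ends. -/
structure Ear (en : ι → Sym2 V) (Γ A : Finset ι) (x y : V) : Prop where
  pth : Pth en A x y
  ne : x ≠ y
  dj : Disjoint A Γ
  sp : ∀ w ∈ spt en A, w ∈ spt en Γ → w = x ∨ w = y

/-- A whole thread: a segment between two branch vertices. -/
structure Thr (Γ : Finset (Sym2 V)) (v : ℕ → V) (n : ℕ) : Prop where
  sg : Seg Γ v n
  pos : 0 < n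
  d0 : dgr id Γ (v 0) = 3
  d1 : dgr id Γ (v n) = 3

/-- Every vertex `x` of degree two has the position `pos x` on its thread `v x` of length `n x`. -/
structure TDS (Γ : Finset (Sym2 V)) (v : V → ℕ → V) (n pos : V → ℕ) : Prop where
  sg : ∀ x, dgr id Γ x = 2 → Seg Γ (v x) (n x)
  p0 : ∀ x, dgr id Γ x = 2 → 0 < pos x
  pn : ∀ x, dgr id Γ x = 2 → pos x < n x
  vx : ∀ x, dgr id Γ x = 2 → v x (pos x) = x
  e0 : ∀ x, dgr id Γ x = 2 → dgr id Γ (v x 0) ≠ 2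
  e1 : ∀ x, dgr id Γ x = 2 → dgr id Γ (v x (n x)) ≠ 2
  co : ∀ x, dgr id Γ x = 2 → ∀ i, 0 < i → i < n x →
    v (v x i) = v x ∧ n (v x i) = n x ∧ pos (v x i) = i

lemma Ear.symm {en : ι → Sym2 V} {Γ A : Finset ι} {x y : V} (h : Ear en Γ A x y) :
    Ear en Γ A y x := ⟨h.pth.symm, h.ne.symm, h.dj, fun w h1 h2 => (h.sp w h1 h2).symm⟩

lemma Dif.symm {en : ι → Sym2 V} {Γ : Finset ι} {x y : V} (h : Dif en Γ x y) : Dif en Γ y x :=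
  fun Y h1 h2 h3 => h Y h2 h1 h3

end defs

-- deps: PAR PD1
/-- First facts on subdivisions. -/
def S_TCB : Prop := ∀ {V ι : Type} [Fintype V] [DecidableEq V] [DecidableEq ι]
  (en : ι → Sym2 V) (Γ : Finset ι), TC en Γ →
    (∀ v, dgr en Γ v ≤ 3) ∧
    (∀ Y : Set V, (∃ v ∈ Y, dgr en Γ v ≠ 0) → (∃ v ∉ Y, dgr en Γ v ≠ 0) →
      2 ≤ (cut en Γ Y).card) ∧
    (∀ Y : Set V, Odd (cut en Γ Y).card → ∃ v ∈ Y, dgr en Γ v = 3) ∧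
    (∀ Z ⊆ Γ, Cy en Z → ∃ a ∈ spt en Z, ∃ b ∈ spt en Z, a ≠ b ∧ dgr en Γ a = 3 ∧ dgr en Γ b = 3) ∧
    (∀ Γ₀ ⊆ Γ, ∀ x y, Dif en Γ₀ x y → Dif en Γ x y)

-- deps: SUB
/-- Two 3-cuts do not cross. -/
def S_NCR : Prop := ∀ {V ι : Type} [Fintype V] [DecidableEq V] [DecidableEq ι]
  (en : ι → Sym2 V) (Γ : Finset ι) (Y Y' : Set V) (a b c d : V), TC en Γ →
    (cut en Γ Y).card ≤ 3 → (cut en Γ Y').card ≤ 3 → dgr en Γ a = 3 → dgr en Γ b = 3 →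
    dgr en Γ c = 3 → dgr en Γ d = 3 → a ∈ Y → a ∈ Y' → b ∈ Y → b ∉ Y' → c ∉ Y → c ∈ Y' →
    d ∉ Y → d ∉ Y' → False

-- deps: PAR RCP ARC
/-- A 3-cut meets an arc in at most one edge. -/
def S_SPT : Prop := ∀ {V ι : Type} [Fintype V] [DecidableEq V] [DecidableEq ι]
  (en : ι → Sym2 V) (Γ B : Finset ι) (Y : Set V) (x y : V), TC en Γ → (cut en Γ Y).card ≤ 3 →
    (∃ v ∈ Y, dgr en Γ v = 3) → (∃ v ∉ Y, dgr en Γ v = 3) → Arc en Γ B x y →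
      ((x ∈ Y ↔ y ∈ Y) → cut en B Y = ∅ ∧ ∀ w ∈ spt en B, (w ∈ Y ↔ x ∈ Y)) ∧
      (¬ (x ∈ Y ↔ y ∈ Y) → (cut en B Y).card = 1)

-- deps: SEG SPT
/-- A 3-cut cuts a segment at most once. -/
def S_SGC : Prop := ∀ {V : Type} [Fintype V] [DecidableEq V] (Γ : Finset (Sym2 V)) (v : ℕ → V)
  (n : ℕ) (Y : Set V), TC id Γ → (cut id Γ Y).card ≤ 3 → (∃ u ∈ Y, dgr id Γ u = 3) →
    (∃ u ∉ Y, dgr id Γ u = 3) → Seg Γ v n →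
      ((v 0 ∈ Y ↔ v n ∈ Y) → ∀ i, i ≤ n → (v i ∈ Y ↔ v 0 ∈ Y)) ∧
      (v 0 ∈ Y → v n ∉ Y → ∃ t, t < n ∧ (∀ i, i ≤ n → (v i ∈ Y ↔ i ≤ t)) ∧
        cut id (ES v 0 n) Y = {s(v t, v (t + 1))})

-- deps: ODA ARC
/-- Two 3-cuts that split two arcs in the same way have the same branch vertices. -/
def S_UNQ : Prop := ∀ {V ι : Type} [Fintype V] [DecidableEq V] [DecidableEq ι]
  (en : ι → Sym2 V) (Γ B₁ B₂ : Finset ι) (Y Y' : Set V) (a₁ b₁ a₂ b₂ u : V), TC en Γ →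
    (cut en Γ Y).card ≤ 3 → (cut en Γ Y').card ≤ 3 → Arc en Γ B₁ a₁ b₁ → Arc en Γ B₂ a₂ b₂ →
    Disjoint B₁ B₂ → a₁ ∈ Y → a₁ ∈ Y' → a₂ ∈ Y → a₂ ∈ Y' → b₁ ∉ Y → b₁ ∉ Y' → b₂ ∉ Y → b₂ ∉ Y' →
    dgr en Γ u = 3 → (u ∈ Y ↔ u ∈ Y') → ∀ w, dgr en Γ w = 3 → (w ∈ Y ↔ w ∈ Y')

-- deps: ODA ARC
/-- Two arcs that leave a nontrivial side of a 3-cut start at different vertices. -/
def S_MAT : Prop := ∀ {V ι : Type} [Fintype V] [DecidableEq V] [DecidableEq ι]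
  (en : ι → Sym2 V) (Γ B₁ B₂ : Finset ι) (Y : Set V) (u w a₁ a₂ : V), TC en Γ →
    (cut en Γ Y).card ≤ 3 → u ∈ Y → w ∈ Y → u ≠ w → dgr en Γ u = 3 → dgr en Γ w = 3 →
    Arc en Γ B₁ u a₁ → Arc en Γ B₂ u a₂ → Disjoint B₁ B₂ → a₁ ∉ Y → a₂ ∉ Y → False

-- deps: PAR RCP PD1 TCB
/-- Adding an ear between different threads. -/
def S_ADD : Prop := ∀ {V ι : Type} [Fintype V] [DecidableEq V] [DecidableEq ι]
  (en : ι → Sym2 V) (Γ A : Finset ι) (x y : V), TC en Γ → Ear en Γ A x y → dgr en Γ x = 2 →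
    dgr en Γ y = 2 → Dif en Γ x y →
      TC en (Γ ∪ A) ∧ Arc en (Γ ∪ A) A x y ∧ dgr en (Γ ∪ A) x = 3 ∧ dgr en (Γ ∪ A) y = 3 ∧
      ∀ v, v ∉ spt en A → cut en (Γ ∪ A) {v} = cut en Γ {v}

-- deps: PD1 ARC TCB
/-- Deleting a thread. -/
def S_DEL : Prop := ∀ {V ι : Type} [Fintype V] [DecidableEq V] [DecidableEq ι]
  (en : ι → Sym2 V) (Γ B : Finset ι) (x y w : V), TC en Γ → Arc en Γ B x y → dgr en Γ x = 3 →
    dgr en Γ y = 3 → dgr en Γ w = 3 → w ≠ x → w ≠ y →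
      TC en (Γ \ B) ∨ ∃ Y : Set V, x ∈ Y ∧ y ∉ Y ∧ (cut en Γ Y).card ≤ 3 ∧
        (∃ u ∈ Y, u ≠ x ∧ dgr en Γ u = 3) ∧ ∃ u ∉ Y, u ≠ y ∧ dgr en Γ u = 3

-- deps: PAR ODA RCP PD1 ARC
/-- Rerouting an arc. -/
def S_RER : Prop := ∀ {V ι : Type} [Fintype V] [DecidableEq V] [DecidableEq ι]
  (en : ι → Sym2 V) (Γ A B : Finset ι) (x y : V), TC en Γ → Arc en Γ B x y → Ear en Γ A x y →
    TC en ((Γ \ B) ∪ A)

-- deps: PAR ODA RCP CAT PD1 TCB ADD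
/-- Adding a claw. -/
def S_ADC : Prop := ∀ {V : Type} [Fintype V] [DecidableEq V] (Γ A B : Finset (Sym2 V))
  (x k y z : V), TC id Γ → dgr id Γ x = 2 → dgr id Γ y = 2 → dgr id Γ z = 2 → dgr id Γ k = 0 →
    x ≠ y → x ≠ z → y ≠ z → Dif id Γ y z → Pth id A k y → Pth id B k z →
    (∀ w ∈ spt id A, w ∈ spt id B → w = k) → (∀ w ∈ spt id A, w ∈ spt id Γ → w = y) →
    (∀ w ∈ spt id B, w ∈ spt id Γ → w = z) →
      TC id (Γ ∪ ({s(x, k)} ∪ A ∪ B)) ∧ Disjoint Γ ({s(x, k)} ∪ A ∪ B)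

-- deps: ODA CAT SEG
/-- A maximal segment through a vertex of degree two. -/
def S_TD0 : Prop := ∀ {V : Type} [Fintype V] [DecidableEq V] (Γ : Finset (Sym2 V)) (x : V),
    NL id Γ → (∀ Z ⊆ Γ, Cy id Z → ∃ a ∈ spt id Z, ∃ b ∈ spt id Z, a ≠ b ∧ dgr id Γ a ≠ 2 ∧
      dgr id Γ b ≠ 2) → dgr id Γ x = 2 →
      ∃ (v : ℕ → V) (n p : ℕ), Seg Γ v n ∧ 0 < p ∧ p < n ∧ v p = x ∧ dgr id Γ (v 0) ≠ 2 ∧
        dgr id Γ (v n) ≠ 2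

-- deps: SEG TD0
/-- The thread decomposition. -/
def S_TD : Prop := ∀ {V : Type} [Fintype V] [DecidableEq V] (Γ : Finset (Sym2 V)),
    NL id Γ → (∀ Z ⊆ Γ, Cy id Z → ∃ a ∈ spt id Z, ∃ b ∈ spt id Z, a ≠ b ∧ dgr id Γ a ≠ 2 ∧
      dgr id Γ b ≠ 2) → ∃ (v : V → ℕ → V) (n pos : V → ℕ), TDS Γ v n pos

-- deps: SEG
/-- Same thread, different threads. -/
def S_TDF : Prop := ∀ {V : Type} [Fintype V] [DecidableEq V] (Γ : Finset (Sym2 V))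
  (v : V → ℕ → V) (n pos : V → ℕ), TDS Γ v n pos → ∀ x y, dgr id Γ x = 2 → dgr id Γ y = 2 →
    (v y = v x → n y = n x ∧ (pos y = pos x → y = x)) ∧ (v y 1 = v x 1 → v y = v x) ∧
    (v y ≠ v x → Disjoint (ES (v x) 0 (n x)) (ES (v y) 0 (n y)) ∧
      ∀ i j, 0 < i → i < n x → j ≤ n y → v x i ≠ v y j)

-- deps: PAR SEG TDF
/-- Counting threads. -/
def S_TDC : Prop := ∀ {V : Type} [Fintype V] [DecidableEq V] (Γ : Finset (Sym2 V))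
  (v : V → ℕ → V) (n pos : V → ℕ) (T : Finset V), TDS Γ v n pos → (∀ x ∈ T, dgr id Γ x = 2) →
    (∀ E : Finset V, (∀ x ∈ T, v x 0 ∈ E) →
      (T.image fun x => v x 1).card ≤ ∑ a ∈ E, dgr id Γ a) ∧
    (∀ Y : Set V, (∀ x ∈ T, ¬ (v x 0 ∈ Y ↔ v x (n x) ∈ Y)) →
      (T.image fun x => v x 1).card ≤ (cut id Γ Y).card) ∧
    ∀ D : ℕ, (∀ x ∈ T, pos x < D ∨ n x < pos x + D) →
      T.card ≤ 2 * D * (T.image fun x => v x 1).card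

-- deps: PAR SEG TDF
/-- Vertices on different threads. -/
def S_DIF : Prop := ∀ {V : Type} [Fintype V] [DecidableEq V] (Γ : Finset (Sym2 V)), TC id Γ →
    (∀ (v w : ℕ → V) (n m a b : ℕ), Thr Γ v n → Thr Γ w m → Disjoint (ES v 0 n) (ES w 0 m) →
      0 < a → a < n → 0 < b → b < m → Dif id Γ (v a) (w b)) ∧
    ∀ (v : V → ℕ → V) (n pos : V → ℕ), TDS Γ v n pos → ∀ x, dgr id Γ x = 2 →
      Thr Γ (v x) (n x) ∧ ∀ y, dgr id Γ y = 2 → v y ≠ v x → Dif id Γ x y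

-- deps: ODA SEG TCB TD0
/-- The thread through an edge at a branch vertex. -/
def S_THA : Prop := ∀ {V : Type} [Fintype V] [DecidableEq V] (Γ : Finset (Sym2 V)) (u : V)
  (j : Sym2 V), TC id Γ → dgr id Γ u = 3 → j ∈ cut id Γ {u} →
    ∃ B u', Arc id Γ B u u' ∧ j ∈ B ∧ dgr id Γ u' = 3

-- deps: ODA PD1 CY1 ARC TCB NCR MAT DEL THA
/-- If no thread inside `S` can be deleted, there is no cycle inside `S`. -/
def S_FST : Prop := ∀ {V : Type} [Fintype V] [DecidableEq V] (Γ : Finset (Sym2 V)) (S : Set V)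
  (b : V), TC id Γ → b ∉ S → dgr id Γ b = 3 →
    (∀ B x y, Arc id Γ B x y → B ⊆ ins id Γ S → dgr id Γ x = 3 → dgr id Γ y = 3 →
      ¬ TC id (Γ \ B)) → Acy id (ins id Γ S)

-- deps: ODA SEG TCB MAT ADD DEL
/-- Two ears and the sacrifice of a segment. -/
def S_SAC : Prop := ∀ {V : Type} [Fintype V] [DecidableEq V] (Γ A₁ A₂ : Finset (Sym2 V))
  (v : ℕ → V) (n a b : ℕ) (y₁ y₂ : V), TC id Γ → Thr Γ v n → 0 < a → a < b → b < n →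
    Ear id Γ A₁ (v a) y₁ → Ear id Γ A₂ (v b) y₂ → dgr id Γ y₁ = 2 → dgr id Γ y₂ = 2 →
    (∀ i, i ≤ n → v i ≠ y₁ ∧ v i ≠ y₂) → Dif id Γ (v a) y₁ → Dif id Γ (v b) y₂ →
    (∀ w ∈ spt id A₁, w ∉ spt id A₂) →
      TC id ((Γ ∪ A₁ ∪ A₂) \ ES v a b) ∨ ∃ Y : Set V, (cut id Γ Y).card ≤ 3 ∧ v 0 ∈ Y ∧
        v a ∈ Y ∧ y₁ ∈ Y ∧ v n ∉ Y ∧ v b ∉ Y ∧ y₂ ∉ Y

-- deps: NCR SGC
/-- Two 3-cuts orient a thread in the same way. -/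
def S_MON : Prop := ∀ {V : Type} [Fintype V] [DecidableEq V] (Γ : Finset (Sym2 V)) (w : ℕ → V)
  (m a b : ℕ) (p q : V) (Y Y' : Set V), TC id Γ → Thr Γ w m → dgr id Γ p = 3 → dgr id Γ q = 3 →
    (cut id Γ Y).card ≤ 3 → (cut id Γ Y').card ≤ 3 → p ∈ Y → p ∈ Y' → q ∉ Y → q ∉ Y' →
    w 0 ∈ Y → w m ∉ Y → a ≤ m → b ≤ m → w a ∈ Y' → w b ∉ Y' → a < b ∧ w 0 ∈ Y' ∧ w m ∉ Y'

-- deps: SEG NCR SGC UNQ
/-- Consecutive sacrifice cuts are nested. -/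
def S_NEST : Prop := ∀ {V : Type} [Fintype V] [DecidableEq V] (Γ : Finset (Sym2 V))
  (v w : ℕ → V) (n m i : ℕ) (Y Y' : Set V), TC id Γ → Thr Γ v n → Thr Γ w m →
    Disjoint (ES v 0 n) (ES w 0 m) → (cut id Γ Y).card ≤ 3 → (cut id Γ Y').card ≤ 3 →
    v 0 ∈ Y → v 0 ∈ Y' → v n ∉ Y → v n ∉ Y' → i ≤ m → w i ∉ Y → w i ∈ Y' →
      (∀ u, dgr id Γ u = 3 → u ∈ Y → u ∈ Y') ∧
      (((∀ u, dgr id Γ u = 3 → (u ∈ Y ↔ u ∈ Y')) ∧ ¬ (w 0 ∈ Y ↔ w m ∈ Y)) ∨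
        (w 0 ∈ Y' ∧ w 0 ∉ Y) ∨ (w m ∈ Y' ∧ w m ∉ Y))

-- deps: SEG NCR SGC UNQ
/-- The third thread is split by the same cut. -/
def S_THR3 : Prop := ∀ {V : Type} [Fintype V] [DecidableEq V] (Γ : Finset (Sym2 V))
  (v w u : ℕ → V) (n m r a b c : ℕ) (Ys Y Y' : Set V), TC id Γ → Thr Γ v n → Thr Γ w m →
    Thr Γ u r → Disjoint (ES v 0 n) (ES w 0 m) → (cut id Γ Ys).card ≤ 3 →
    (cut id Γ Y).card ≤ 3 → (cut id Γ Y').card ≤ 3 → v 0 ∈ Ys → w 0 ∈ Ys → v n ∉ Ys → w m ∉ Ys →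
    v 0 ∈ Y → v n ∉ Y → v 0 ∈ Y' → v n ∉ Y' → a ≤ m → b ≤ m → c ≤ r → w a ∈ Y → w b ∉ Y' →
    u c ∉ Y → u c ∈ Y' → ¬ (u 0 ∈ Ys ↔ u r ∈ Ys)

-- deps: RCP SEG WLK
/-- Walks through prescribed sets. -/
def S_VIA : Prop := ∀ {V : Type} [Fintype V] [DecidableEq V] (G : SimpleGraph V),
    (∀ X a, Via G X a a) ∧ (∀ X a b, G.Adj a b → Via G X a b) ∧
    (∀ X a b, Via G X a b → Via G X b a) ∧
    (∀ X X' a b, Via G X a b → (∀ w ∈ X, w = a ∨ w = b ∨ w ∈ X') → Via G X' a b) ∧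
    (∀ X a b c, Via G X a b → Via G X b c → (b = a ∨ b = c ∨ b ∈ X) → Via G X a c) ∧
    (∀ Γ ⊆ EG G, ∀ (v : ℕ → V) (n a b : ℕ) (X : Set V), Seg Γ v n → a ≤ b → b ≤ n →
      (∀ i, a < i → i < b → v i ∈ X) → Via G X (v a) (v b)) ∧
    (∀ A ⊆ EG G, ∀ a b (X : Set V), Pth id A a b →
      (∀ w ∈ spt id A, w = a ∨ w = b ∨ w ∈ X) → Via G X a b) ∧
    (∀ A ⊆ EG G, ∀ a b (X : Set V), Rc id A a b → (∀ w, Rc id A a w → w ∈ X) → Via G X a b)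

-- deps:
/-- A cross-free family of sets is small. -/
def S_LAM0 : Prop := ∀ {V : Type} [DecidableEq V] (E : Finset V) (𝓕 : Finset (Finset V)),
    (∀ τ ∈ 𝓕, τ ⊆ E) →
    (∀ τ ∈ 𝓕, ∀ τ' ∈ 𝓕, ∀ a b c d, a ∈ τ → a ∈ τ' → b ∈ τ → b ∉ τ' → c ∉ τ → c ∈ τ' → d ∈ E →
      d ∉ τ → d ∉ τ' → False) → 𝓕.card ≤ 4 * E.card + 2

-- deps:
/-- A well spaced subsequence. -/
def S_SPC : Prop := ∀ (P : Finset ℕ) (L : ℕ), 0 < L → ∃ (N : ℕ) (p : ℕ → ℕ), P.card ≤ L * N ∧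
    (∀ i, i < N → p i ∈ P) ∧ ∀ i j, i < j → j < N → p i + L ≤ p j

-- deps: ARC
/-- An arc can be replaced by any connection of its ends. -/
def S_SWP : Prop := ∀ {V ι : Type} [Fintype V] [DecidableEq V] [DecidableEq ι]
  (en : ι → Sym2 V) (Φ Φ' B : Finset ι) (x y a b : V), NL en Φ → Arc en Φ B x y → Φ \ B ⊆ Φ' →
    Rc en Φ' x y → (a ∉ spt en B ∨ a = x ∨ a = y) → (b ∉ spt en B ∨ b = x ∨ b = y) →
    Rc en Φ a b → Rc en Φ' a b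

end Pool.Agent.P.MP_bb4f54_co.T3
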