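import Pool.Agent.P.MP_bb4f54_co.T3.Iface6

/-! Statements: gadgets and windows. -/

set_option autoImplicit false
set_option linter.unusedSectionVars false

namespace Pool.Agent.P.MP_bb4f54_co.T3

open Finset

section defs

variable {V : Type} [DecidableEq V]

/-- Every cycle of `Γ` through `c` has four replacements inside `F`. -/
def Gad (Ω Γ F : Finset (Sym2 V)) (c : Sym2 V) : Prop :=
  ∀ Z ⊆ Γ, Cy id Z → c ∈ Z → ∃ R : Fin 4 → Finset (Sym2 V), (∀ j, R j ⊆ F ∩ Ω) ∧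
    (R 0).card + (R 1).card = (R 2).card + (R 3).card + 2 ∧
    ∀ Z' ⊆ Ω, Cy id Z' → Z' ∩ F = Z ∩ F → ∀ j, Cy id ((Z' \ F) ∪ R j)

/-- A gadget that is used after the removal of `X`. -/
structure KB (Γ F X : Finset (Sym2 V)) (c : Sym2 V) : Prop where
  sub : X ⊆ F ∩ Γ
  cF : c ∈ F
  cX : c ∉ X
  rm : ∀ Γ' ⊆ Γ, TC id Γ' → Γ ∩ F ⊆ Γ' → TC id (Γ' \ X)
  gd : Gad Γ (Γ \ X) F c

/-- The result of the local surgery. -/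
def Res (Ω F Γ₀ : Finset (Sym2 V)) : Prop :=
  ∃ Γ c, Γ \ F = Γ₀ \ F ∧ TC id Γ ∧ c ∈ Γ ∧ (Gad Ω Γ F c ∨ ∃ X, KB Γ F X c)

/-- A thread with inner vertices in `T`. -/
structure Rail (Γ : Finset (Sym2 V)) (T : Finset V) (w : ℕ → V) (m : ℕ) : Prop where
  th : Thr Γ w m
  int : ∀ i, 0 < i → i < m → w i ∈ T

/-- A window `D` with three rails `M` from the left side `L` to the right side. -/
structure Win3 (Γ X : Finset (Sym2 V)) (L D : Set V) (l r : Fin 3 → V)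
    (M : Fin 3 → Finset (Sym2 V)) : Prop where
  dLD : Disjoint L D
  hl : ∀ ρ, l ρ ∈ L
  hr : ∀ ρ, r ρ ∉ L ∧ r ρ ∉ D
  pth : ∀ ρ, Pth id (M ρ) (l ρ) (r ρ)
  sp : ∀ ρ, ∀ w ∈ spt id (M ρ), w ∈ D ∨ w = l ρ ∨ w = r ρ
  dj : ∀ ρ ρ', ρ ≠ ρ' → ∀ w ∈ spt id (M ρ), w ∉ spt id (M ρ')
  sub : ∀ ρ, M ρ ⊆ Γ
  xs : X ⊆ Γ
  xD : ∀ e ∈ X, ∀ w ∈ e, w ∈ D
  xM : ∀ ρ, Disjoint X (M ρ)
  cov : ∀ e ∈ Γ, (∀ w ∈ e, w ∈ L) ∨ (∀ w ∈ e, w ∉ L ∧ w ∉ D) ∨ e ∈ X ∨ ∃ ρ, e ∈ M ρ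

lemma Win3.mono {Γ Γ' X : Finset (Sym2 V)} {L D : Set V} {l r : Fin 3 → V}
    {M : Fin 3 → Finset (Sym2 V)} (h : Win3 Γ X L D l r M) (h1 : Γ' ⊆ Γ) (h2 : X ⊆ Γ')
    (h3 : ∀ ρ, M ρ ⊆ Γ') : Win3 Γ' X L D l r M :=
  { h with sub := h3, xs := h2, cov := fun e he => h.cov e (h1 he) }

/-- Two disjoint paths through `D`; the rail `h` is free on the left, `h'` on the right. -/
def LH (l r : Fin 3 → V) (D : Set V) (h h' : Fin 3) (Q : Finset (Sym2 V)) : Prop :=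
  ∃ (ρ₁ ρ₂ π₁ π₂ : Fin 3) (P₁ P₂ : Finset (Sym2 V)), ρ₁ ≠ ρ₂ ∧ ρ₁ ≠ h ∧ ρ₂ ≠ h ∧ π₁ ≠ π₂ ∧
    π₁ ≠ h' ∧ π₂ ≠ h' ∧ Pth id P₁ (l ρ₁) (r π₁) ∧ Pth id P₂ (l ρ₂) (r π₂) ∧ Q = P₁ ∪ P₂ ∧
    (∀ w ∈ spt id P₁, w ∈ D ∨ w = l ρ₁ ∨ w = r π₁) ∧
    (∀ w ∈ spt id P₂, w ∈ D ∨ w = l ρ₂ ∨ w = r π₂) ∧ ∀ w ∈ spt id P₁, w ∉ spt id P₂

lemma LH.mono {l r : Fin 3 → V} {D D' : Set V} {h h' : Fin 3} {Q : Finset (Sym2 V)}
    (H : LH l r D h h' Q) (hD : D ⊆ D') : LH l r D' h h' Q :=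
  let ⟨a, b, c, d, P₁, P₂, h1, h2, h3, h4, h5, h6, h7, h8, h9, h10, h11, h12⟩ := H
  ⟨a, b, c, d, P₁, P₂, h1, h2, h3, h4, h5, h6, h7, h8, h9,
    fun w hw => (h10 w hw).imp (fun x => hD x) id, fun w hw => (h11 w hw).imp (fun x => hD x) id,
    h12⟩

/-- The three claws. -/
def XX (Λ : ℕ → Fin 3 → Finset (Sym2 V)) : Finset (Sym2 V) :=
  (Λ 1 0 ∪ Λ 1 1 ∪ Λ 1 2) ∪ (Λ 3 0 ∪ Λ 3 1 ∪ Λ 3 2) ∪ (Λ 5 0 ∪ Λ 5 1 ∪ Λ 5 2)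

/-- The vertices at level `i`. -/
def lv (r : Fin 3 → ℕ → V) (P : Fin 3 → ℕ → ℕ) (i : ℕ) : Fin 3 → V := fun ρ => r ρ (P ρ i)

/-- The rails between the levels `i` and `j`. -/
def MM (r : Fin 3 → ℕ → V) (P : Fin 3 → ℕ → ℕ) (i j : ℕ) : Fin 3 → Finset (Sym2 V) :=
  fun ρ => ES (r ρ) (P ρ i) (P ρ j)

/-- The vertices of `O'` and the rail vertices strictly between the levels `i` and `j`. -/
def DD (O' : Set V) (r : Fin 3 → ℕ → V) (P : Fin 3 → ℕ → ℕ) (i j : ℕ) : Set V :=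
  {u | u ∈ O' ∨ ∃ ρ a, P ρ i < a ∧ a < P ρ j ∧ u = r ρ a}

open Classical in
/-- The traces on `E` of the 3-cuts that separate `a` from `b`. -/
noncomputable def Trc (Γ : Finset (Sym2 V)) (E : Finset V) (a b : V) : Finset (Finset V) :=
  E.powerset.filter (fun τ => ∃ Y : Set V, (cut id Γ Y).card ≤ 3 ∧ a ∈ Y ∧ b ∉ Y ∧
    ∀ u ∈ E, (u ∈ τ ↔ u ∈ Y))

variable [Fintype V]

/-- The edges inside `S`. -/
noncomputable def Fi (G : SimpleGraph V) (S : Finset V) : Finset (Sym2 V) := ins id (EG G) ↑S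

/-- The setting of the local surgery. -/
structure C0 (G : SimpleGraph V) (S T O : Finset V) (Γ : Finset (Sym2 V)) (v : V → ℕ → V)
    (n pos : V → ℕ) : Prop where
  g3 : G3 G
  tc : TC id Γ
  sk : Sk G Γ T O
  td : TDS Γ v n pos
  tS : T ⊆ S
  oS : O ⊆ S
  int : ∀ x ∈ T, ∀ i, 0 < i → i < n x → v x i ∈ T

/-- A rung along a thread is not shorter than the thread. -/
def K1 (G : SimpleGraph V) (T O : Finset V) (Γ : Finset (Sym2 V)) (v : V → ℕ → V)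
    (pos : V → ℕ) : Prop :=
  ∀ x ∈ T, ∀ y ∈ T, v y = v x → ∀ A, Rung G Γ O A x y → pos y ≤ pos x + A.card

/-- Two short rungs from a thread give a 3-cut. -/
def K2 (G : SimpleGraph V) (T O : Finset V) (Γ : Finset (Sym2 V)) (v : V → ℕ → V)
    (n pos : V → ℕ) : Prop :=
  ∀ x ∈ T, ∀ x' ∈ T, v x' = v x → ∀ y ∈ T, v y ≠ v x → ∀ y' ∈ T, v y' ≠ v x → ∀ A A',
    Rung G Γ O A x y → Rung G Γ O A' x' y' → (∀ w ∈ spt id A, w ∉ spt id A') →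
    pos x + A.card + A'.card < pos x' → ∃ Y : Set V, (cut id Γ Y).card ≤ 3 ∧ v x 0 ∈ Y ∧ y ∈ Y ∧
      v x (n x) ∉ Y ∧ y' ∉ Y

/-- The setting with the consequences of minimality. -/
structure Cx (G : SimpleGraph V) (S T O : Finset V) (Γ : Finset (Sym2 V)) (v : V → ℕ → V)
    (n pos : V → ℕ) : Prop where
  c0 : C0 G S T O Γ v n pos
  k1 : K1 G T O Γ v pos
  k2 : K2 G T O Γ v n pos

/-- A well spaced sequence of structures on the thread `e` with ends on other threads. -/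
structure Sq (G : SimpleGraph V) (T O : Finset V) (Γ : Finset (Sym2 V)) (v : V → ℕ → V)
    (n pos : V → ℕ) (R : ℕ) (σ : ℕ → St V) (N : ℕ) (e : ℕ → V) (m : ℕ) : Prop where
  uc : ∀ i, i < N → Ucl G Γ T O R (σ i)
  on : ∀ i, i < N → v (σ i).x = e
  nn : ∀ i, i < N → n (σ i).x = m
  off : ∀ i, i < N → v (σ i).y ≠ e
  gap : ∀ i j, i < j → j < N → pos (σ i).x + (2 * R + 2) < pos (σ j).x

/-- Nine rungs between two rails. -/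
structure Wd (T : Finset V) (Γ : Finset (Sym2 V)) (v : V → ℕ → V) (n : V → ℕ) (σ : ℕ → St V)
    (e : ℕ → V) (m : ℕ) (w : ℕ → V) (mw : ℕ) (Ys : Set V) (q : ℕ → ℕ) : Prop where
  c3 : (cut id Γ Ys).card ≤ 3
  e0 : e 0 ∈ Ys
  em : e m ∉ Ys
  w0 : w 0 ∈ Ys
  wm : w mw ∉ Ys
  re : Rail Γ T e m
  rw : Rail Γ T w mw
  dj : Disjoint (ES e 0 m) (ES w 0 mw)
  es : ES w 0 mw = ES (v (σ 0).y) 0 (n (σ 0).y)
  sp : ¬ (v (σ 0).y 0 ∈ Ys ↔ v (σ 0).y (n (σ 0).y) ∈ Ys)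
  hq : ∀ i, i < 9 → 0 < q i ∧ q i < mw ∧ w (q i) = (σ i).y
  mo : ∀ i j, i < j → j < 9 → q i < q j
  on : ∀ t ∈ T, v t = v (σ 0).y → ∃ i, 0 < i ∧ i < mw ∧ w i = t

/-- Seven claws between three rails. -/
structure W3 (G : SimpleGraph V) (T O : Finset V) (Γ : Finset (Sym2 V)) (r : Fin 3 → ℕ → V)
    (m : Fin 3 → ℕ) (P : Fin 3 → ℕ → ℕ) (k : ℕ → V) (Λ : ℕ → Fin 3 → Finset (Sym2 V))
    (Ys : Set V) : Prop where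
  rl : ∀ ρ, Rail Γ T (r ρ) (m ρ)
  dj : ∀ ρ ρ', ρ ≠ ρ' → Disjoint (ES (r ρ) 0 (m ρ)) (ES (r ρ') 0 (m ρ'))
  c3 : (cut id Γ Ys).card ≤ 3
  y0 : ∀ ρ, r ρ 0 ∈ Ys
  y1 : ∀ ρ, r ρ (m ρ) ∉ Ys
  pp : ∀ ρ i, i < 7 → 0 < P ρ i ∧ P ρ i < m ρ
  mo : ∀ ρ i j, i < j → j < 7 → P ρ i < P ρ j
  kO : ∀ i, i < 7 → k i ∈ O
  lg : ∀ i, i < 7 → ∀ ρ, Pth id (Λ i ρ) (k i) (r ρ (P ρ i)) ∧ Λ i ρ ⊆ EG G ∧
    ∀ w ∈ spt id (Λ i ρ), w ∈ O ∨ w = r ρ (P ρ i)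
  l1 : ∀ i, i < 7 → Λ i 0 = {s(r 0 (P 0 i), k i)}
  ld : ∀ i, i < 7 → ∀ ρ ρ', ρ ≠ ρ' → ∀ w ∈ spt id (Λ i ρ), w ∈ spt id (Λ i ρ') → w = k i
  zd : ∀ i j, i < 7 → j < 7 → i ≠ j → ∀ ρ ρ', ∀ w ∈ spt id (Λ i ρ), w ∉ spt id (Λ j ρ')

/-- A smallest subdivision that agrees with the given one outside `S`. -/
structure Mn (G : SimpleGraph V) (S : Finset V) (Γ : Finset (Sym2 V)) : Prop where
  g3 : G3 G
  tc : TC id Γ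
  sub : Γ ⊆ EG G
  out : cut id (EG G) ↑S ⊆ Γ
  nb : ∀ u ∈ S, ∀ w, w ∉ S → G.Adj u w → dgr id Γ w = 3
  ne : (cut id (EG G) ↑S).Nonempty
  mn : ∀ Γ', TC id Γ' → Γ' \ Fi G S = Γ \ Fi G S → Γ.card ≤ Γ'.card

end defs

-- deps: CAT
/-- Diamonds give gadgets. -/
def S_KA : Prop := ∀ {V : Type} [Fintype V] [DecidableEq V] (G : SimpleGraph V) (S : Finset V)
  (Γ : Finset (Sym2 V)) (c : Sym2 V),
    (∀ Z ⊆ Γ, Cy id Z → c ∈ Z → ∃ (s t : V) (U : Set V) (M : Finset (Sym2 V)), s ∈ S ∧ t ∈ S ∧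
      U ⊆ ↑S ∧ Dia G U s t ∧ M ⊆ Z ∩ Fi G S ∧ Od id M s t ∧ ∀ u ∈ U, u ≠ s → u ≠ t →
        dgr id (EG G \ Fi G S) u ≤ 1 ∧ u ∉ spt id ((Z ∩ Fi G S) \ M)) →
    Gad (EG G) Γ (Fi G S) c

-- deps: SEG DIF FRE
/-- First facts in the setting. -/
def S_CXB : Prop := ∀ {V : Type} [Fintype V] [DecidableEq V] {G : SimpleGraph V}
  {S T O : Finset V} {Γ : Finset (Sym2 V)} {v : V → ℕ → V} {n pos : V → ℕ},
    C0 G S T O Γ v n pos →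
      (∀ x ∈ T, Rail Γ T (v x) (n x)) ∧ (∀ u ∈ O, dgr id (EG G \ Fi G S) u = 0) ∧
      (∀ w m a b, Rail Γ T w m → 0 < a → a < b → b < m → ES w a b ⊆ Fi G S ∧
        ∀ i, a ≤ i → i ≤ b → dgr id (EG G \ Fi G S) (w i) ≤ 1) ∧
      (∀ A, ∀ x ∈ T, ∀ y ∈ T, Rung G Γ O A x y → A ⊆ Fi G S ∧ Ear id Γ A x y) ∧
      (∀ w m, Rail Γ T w m → Rail Γ T (fun i => w (m - i)) m) ∧
      ∀ w m w' m', Rail Γ T w m → Rail Γ T w' m' → Disjoint (ES w 0 m) (ES w' 0 m') →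
        ∀ i j, 0 < i → i < m → j ≤ m' → w i ≠ w' j

-- deps: ARC SEG FRE KA CXB
/-- A diamond along a segment. -/
def S_GS : Prop := ∀ {V : Type} [Fintype V] [DecidableEq V] {G : SimpleGraph V}
  {S T O : Finset V} {Γ : Finset (Sym2 V)} {v : V → ℕ → V} {n pos : V → ℕ} (w : ℕ → V)
  (m a b : ℕ) (U : Set V), C0 G S T O Γ v n pos → Rail Γ T w m → 0 < a → a < b → b < m →
    Dia G U (w a) (w b) → (∀ u ∈ U, u ∈ O ∨ ∃ i, a ≤ i ∧ i ≤ b ∧ u = w i) →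
      Res (EG G) (Fi G S) Γ

-- deps: ODA ARC TDF ADD DIF FRE KA CXB GS
/-- A diamond in the unused part. -/
def S_GE : Prop := ∀ {V : Type} [Fintype V] [DecidableEq V] {G : SimpleGraph V}
  {S T O : Finset V} {Γ : Finset (Sym2 V)} {v : V → ℕ → V} {n pos : V → ℕ} (s t : V),
    C0 G S T O Γ v n pos → s ∈ T → t ∈ T → Dia G ↑O s t → Res (EG G) (Fi G S) Γ

-- deps: TDF VIA FRE DIA CXB GS
/-- A claw with ends on both sides of its port. -/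
def S_GL : Prop := ∀ {V : Type} [Fintype V] [DecidableEq V] {G : SimpleGraph V}
  {S T O : Finset V} {Γ : Finset (Sym2 V)} {v : V → ℕ → V} {n pos : V → ℕ} {R : ℕ} (σ : St V),
    C0 G S T O Γ v n pos → Ucl G Γ T O R σ → σ.k ∈ O → Aft v pos σ.y σ.x → Aft v pos σ.x σ.z →
      Res (EG G) (Fi G S) Γ

-- deps: ODA RCP SPP PD1 TDF FRE RG0
/-- Structures at distant ports are disjoint. -/
def S_RG : Prop := ∀ {V : Type} [Fintype V] [DecidableEq V] {G : SimpleGraph V}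
  {S T O : Finset V} {Γ : Finset (Sym2 V)} {v : V → ℕ → V} {n pos : V → ℕ} {R : ℕ} (σ : St V),
    Cx G S T O Γ v n pos → Ucl G Γ T O R σ →
      (v σ.y = v σ.x → pos σ.y ≤ pos σ.x + (R + 1) ∧ pos σ.x ≤ pos σ.y + (R + 1) ∧ σ.y ≠ σ.z) ∧
      ∀ σ' : St V, Ucl G Γ T O R σ' → v σ'.x = v σ.x → pos σ.x + (2 * R + 2) < pos σ'.x →
        ∀ w ∈ σ.zn, w ∉ σ'.zn

-- deps: RG0 RG
/-- The sacrifice cut of two structures. -/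
def S_K2S : Prop := ∀ {V : Type} [Fintype V] [DecidableEq V] {G : SimpleGraph V}
  {S T O : Finset V} {Γ : Finset (Sym2 V)} {v : V → ℕ → V} {n pos : V → ℕ} {R N m : ℕ}
  {σ : ℕ → St V} {e : ℕ → V} (i j : ℕ) (t t' : V), Cx G S T O Γ v n pos →
    Sq G T O Γ v n pos R σ N e m → i < j → j < N → (t = (σ i).y ∨ t = (σ i).z) → v t ≠ e →
    (t' = (σ j).y ∨ t' = (σ j).z) → v t' ≠ e →
      ∃ Y : Set V, (cut id Γ Y).card ≤ 3 ∧ e 0 ∈ Y ∧ t ∈ Y ∧ e m ∉ Y ∧ t' ∉ Y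

-- deps: TDF TDC NEST CXB K2S
/-- If no thread receives nine rungs, the sequence is short. -/
def S_LVL : Prop := ∀ {V : Type} [Fintype V] [DecidableEq V] {G : SimpleGraph V}
  {S T O : Finset V} {Γ : Finset (Sym2 V)} {v : V → ℕ → V} {n pos : V → ℕ} {R N m : ℕ}
  {σ : ℕ → St V} {e : ℕ → V} (E : Finset V), Cx G S T O Γ v n pos →
    Sq G T O Γ v n pos R σ N e m → (∀ a ∈ E, dgr id Γ a = 3) →
    (∀ x ∈ T, v x 0 ∈ E ∧ v x (n x) ∈ E) →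
    (∀ I : Finset ℕ, (∀ i ∈ I, i < N) → (∀ i ∈ I, ∀ j ∈ I, v (σ i).y = v (σ j).y) → I.card ≤ 8) →
      N ≤ 17 * (Trc Γ E (e 0) (e m)).card + 1

-- deps: NCR TDF TDC LAM0
/-- The number of pairs of a thread and a trace. -/
def S_LAM : Prop := ∀ {V : Type} [Fintype V] [DecidableEq V] {Γ : Finset (Sym2 V)}
  {v : V → ℕ → V} {n pos : V → ℕ} (T E : Finset V), TC id Γ → TDS Γ v n pos →
    (∀ x ∈ T, dgr id Γ x = 2) → (∀ x ∈ T, ∀ y ∈ T, v x = v y → x = y) →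
    (∀ a ∈ E, dgr id Γ a = 3) → (∀ x ∈ T, v x 0 ∈ E ∧ v x (n x) ∈ E) →
      ∑ x ∈ T, (Trc Γ E (v x 0) (v x (n x))).card ≤ 3 * (4 * E.card + 2)

-- deps: SEG TDF CXB
/-- Orientation of a thread along a cut. -/
def S_ORI : Prop := ∀ {V : Type} [Fintype V] [DecidableEq V] {G : SimpleGraph V}
  {S T O : Finset V} {Γ : Finset (Sym2 V)} {v : V → ℕ → V} {n pos : V → ℕ} (y : V) (Ys : Set V),
    C0 G S T O Γ v n pos → y ∈ T → ¬ (v y 0 ∈ Ys ↔ v y (n y) ∈ Ys) →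
      ∃ (w : ℕ → V) (m : ℕ), Rail Γ T w m ∧ w 0 ∈ Ys ∧ w m ∉ Ys ∧ ES w 0 m = ES (v y) 0 (n y) ∧
        ∀ t ∈ T, v t = v y → ∃ i, 0 < i ∧ i < m ∧ w i = t

-- deps: SGC MON TDF CXB K2S ORI
/-- Nine rungs to one thread. -/
def S_W1 : Prop := ∀ {V : Type} [Fintype V] [DecidableEq V] {G : SimpleGraph V}
  {S T O : Finset V} {Γ : Finset (Sym2 V)} {v : V → ℕ → V} {n pos : V → ℕ} {R m : ℕ}
  {σ : ℕ → St V} {e : ℕ → V}, Cx G S T O Γ v n pos → Sq G T O Γ v n pos R σ 9 e m →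
    (∀ i, i < 9 → v (σ i).y = v (σ 0).y) → ∃ w mw Ys q, Wd T Γ v n σ e m w mw Ys q

-- deps: MON THR3 CXB RG K2S
/-- Where the second end of a middle structure lies. -/
def S_CLS : Prop := ∀ {V : Type} [Fintype V] [DecidableEq V] {G : SimpleGraph V}
  {S T O : Finset V} {Γ : Finset (Sym2 V)} {v : V → ℕ → V} {n pos : V → ℕ} {R m mw : ℕ}
  {σ : ℕ → St V} {e w : ℕ → V} {Ys : Set V} {q : ℕ → ℕ} (i : ℕ), Cx G S T O Γ v n pos →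
    Sq G T O Γ v n pos R σ 9 e m → Wd T Γ v n σ e m w mw Ys q → 0 < i → i < 8 →
      (∃ a, pos (σ 0).x < a ∧ a < pos (σ 8).x ∧ (σ i).z = e a) ∨
      (∃ b, q 0 < b ∧ b < q 8 ∧ (σ i).z = w b) ∨
      (v (σ i).z ≠ e ∧ v (σ i).z ≠ v (σ 0).y ∧
        ¬ (v (σ i).z 0 ∈ Ys ↔ v (σ i).z (n (σ i).z) ∈ Ys))

-- deps: ODA VIA FRE DIA CXB
/-- The diamond between two rails. -/
def S_G2c : Prop := ∀ {V : Type} [Fintype V] [DecidableEq V] {G : SimpleGraph V}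
  {S T O : Finset V} {Γ : Finset (Sym2 V)} {v : V → ℕ → V} {n pos : V → ℕ} (e w : ℕ → V)
  (m mw a p b a' α β b' : ℕ) (A₀ A₁ : Finset (Sym2 V)) (k u u' : V) (KA KB : Set V),
    C0 G S T O Γ v n pos → Rail Γ T e m → Rail Γ T w mw → Disjoint (ES e 0 m) (ES w 0 mw) →
    0 < a → a < p → p < b → b < m → 0 < a' → a' ≤ α → α < β → β ≤ b' → b' < mw →
    Rung G Γ O A₀ (e a) (w a') → Rung G Γ O A₁ (e b) (w b') →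
    (∀ x ∈ spt id A₀, x ∉ spt id A₁) → G.Adj (e p) k → KA ⊆ ↑O → KB ⊆ ↑O → Disjoint KA KB →
    (∀ x, x ∈ KA ∨ x ∈ KB ∨ x = k → x ∉ spt id A₀ ∧ x ∉ spt id A₁) → k ∉ KA → k ∉ KB →
    (∀ i, a ≤ i → i ≤ b → k ≠ e i) → (∀ j, a' ≤ j → j ≤ α → k ≠ w j) →
    (∀ j, β ≤ j → j ≤ b' → k ≠ w j) →
    ((∃ i, a ≤ i ∧ i < p ∧ u = e i) ∨ ∃ j, a' ≤ j ∧ j ≤ α ∧ u = w j) → Via G KA k u →
    ((∃ i, p < i ∧ i ≤ b ∧ u' = e i) ∨ ∃ j, β ≤ j ∧ j ≤ b' ∧ u' = w j) → Via G KB k u' →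
      ∃ U : Set V, (∀ x ∈ U, x = k ∨ x ∈ O ∨ (∃ i, a ≤ i ∧ i ≤ b ∧ x = e i) ∨
        ∃ j, a' ≤ j ∧ j ≤ b' ∧ x = w j) ∧ Dia G U (e a) (e b) ∧ Dia G U (w a') (w b')

-- deps: VIA FRE CXB G2c
/-- The four shapes of the middle structure. -/
def S_G2a : Prop := ∀ {V : Type} [Fintype V] [DecidableEq V] {G : SimpleGraph V}
  {S T O : Finset V} {Γ : Finset (Sym2 V)} {v : V → ℕ → V} {n pos : V → ℕ} {R : ℕ} (e w : ℕ → V)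
  (m mw a p b a' q b' : ℕ) (A₀ A₁ : Finset (Sym2 V)) (σ : St V),
    C0 G S T O Γ v n pos → Rail Γ T e m → Rail Γ T w mw → Disjoint (ES e 0 m) (ES w 0 mw) →
    0 < a → a < p → p < b → b < m → 0 < a' → a' < q → q < b' → b' < mw →
    Rung G Γ O A₀ (e a) (w a') → Rung G Γ O A₁ (e b) (w b') →
    (∀ x ∈ spt id A₀, x ∉ spt id A₁) → Ucl G Γ T O R σ → σ.x = e p → σ.y = w q →
    (∀ x ∈ σ.zn, x ∉ spt id A₀ ∧ x ∉ spt id A₁) →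
    ((∃ i, a < i ∧ i < b ∧ σ.z = e i) ∨ ∃ j, a' < j ∧ j < b' ∧ σ.z = w j) →
      ∃ U : Set V, (∀ x ∈ U, x ∈ O ∨ (∃ i, a ≤ i ∧ i ≤ b ∧ x = e i) ∨
        ∃ j, a' ≤ j ∧ j ≤ b' ∧ x = w j) ∧ Dia G U (e a) (e b) ∧ Dia G U (w a') (w b')

-- deps: PAR ARC SEG SGC FRE KA CXB
/-- A cycle through the third edge of the cut uses exactly one rail. -/
def S_G2b : Prop := ∀ {V : Type} [Fintype V] [DecidableEq V] {G : SimpleGraph V}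
  {S T O : Finset V} {Γ : Finset (Sym2 V)} {v : V → ℕ → V} {n pos : V → ℕ} (e w : ℕ → V)
  (m mw a b a' b' : ℕ) (Ys U : Set V), C0 G S T O Γ v n pos → Rail Γ T e m → Rail Γ T w mw →
    Disjoint (ES e 0 m) (ES w 0 mw) → (cut id Γ Ys).card ≤ 3 → e 0 ∈ Ys → e m ∉ Ys → w 0 ∈ Ys →
    w mw ∉ Ys → 0 < a → a < b → b < m → 0 < a' → a' < b' → b' < mw →
    (∀ x ∈ U, x ∈ O ∨ (∃ i, a ≤ i ∧ i ≤ b ∧ x = e i) ∨ ∃ j, a' ≤ j ∧ j ≤ b' ∧ x = w j) →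
    Dia G U (e a) (e b) → Dia G U (w a') (w b') → Res (EG G) (Fi G S) Γ

-- deps: RG0 RG G2a G2b
/-- The window with two rails. -/
def S_G2 : Prop := ∀ {V : Type} [Fintype V] [DecidableEq V] {G : SimpleGraph V}
  {S T O : Finset V} {Γ : Finset (Sym2 V)} {v : V → ℕ → V} {n pos : V → ℕ} {R m mw : ℕ}
  {σ : ℕ → St V} {e w : ℕ → V} {Ys : Set V} {q : ℕ → ℕ} (i : ℕ), Cx G S T O Γ v n pos →
    Sq G T O Γ v n pos R σ 9 e m → Wd T Γ v n σ e m w mw Ys q → 0 < i → i < 8 →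
    ((∃ a, pos (σ 0).x < a ∧ a < pos (σ 8).x ∧ (σ i).z = e a) ∨
      ∃ b, q 0 < b ∧ b < q 8 ∧ (σ i).z = w b) → Res (EG G) (Fi G S) Γ

-- deps: MON TDF TDC CXB K2S ORI
/-- The third rail. -/
def S_W3a : Prop := ∀ {V : Type} [Fintype V] [DecidableEq V] {G : SimpleGraph V}
  {S T O : Finset V} {Γ : Finset (Sym2 V)} {v : V → ℕ → V} {n pos : V → ℕ} {R m mw : ℕ}
  {σ : ℕ → St V} {e w : ℕ → V} {Ys : Set V} {q : ℕ → ℕ}, Cx G S T O Γ v n pos →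
    Sq G T O Γ v n pos R σ 9 e m → Wd T Γ v n σ e m w mw Ys q →
    (∀ i, 0 < i → i < 8 → v (σ i).z ≠ e ∧ v (σ i).z ≠ v (σ 0).y ∧
      ¬ (v (σ i).z 0 ∈ Ys ↔ v (σ i).z (n (σ i).z) ∈ Ys)) →
      ∃ (u : ℕ → V) (mu : ℕ) (c : ℕ → ℕ), Rail Γ T u mu ∧ u 0 ∈ Ys ∧ u mu ∉ Ys ∧
        Disjoint (ES e 0 m) (ES u 0 mu) ∧ Disjoint (ES w 0 mw) (ES u 0 mu) ∧
        (∀ i, 0 < i → i < 8 → 0 < c i ∧ c i < mu ∧ u (c i) = (σ i).z) ∧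
        ∀ i j, 0 < i → i < j → j < 8 → c i < c j

-- deps: ODA FRE CXB RG W3a
/-- The window with three rails. -/
def S_W3E : Prop := ∀ {V : Type} [Fintype V] [DecidableEq V] {G : SimpleGraph V}
  {S T O : Finset V} {Γ : Finset (Sym2 V)} {v : V → ℕ → V} {n pos : V → ℕ} {R m mw : ℕ}
  {σ : ℕ → St V} {e w : ℕ → V} {Ys : Set V} {q : ℕ → ℕ}, Cx G S T O Γ v n pos →
    Sq G T O Γ v n pos R σ 9 e m → Wd T Γ v n σ e m w mw Ys q →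
    (∀ i, 0 < i → i < 8 → v (σ i).z ≠ e ∧ v (σ i).z ≠ v (σ 0).y ∧
      ¬ (v (σ i).z 0 ∈ Ys ↔ v (σ i).z (n (σ i).z) ∈ Ys)) →
      ∃ r mm P k Λ, W3 G T O Γ r mm P k Λ Ys

-- deps: PAR ODA PD1
/-- The rails of a window. -/
def S_WAR : Prop := ∀ {V : Type} [Fintype V] [DecidableEq V] {Γ X : Finset (Sym2 V)}
  {L D : Set V} {l r : Fin 3 → V} {M : Fin 3 → Finset (Sym2 V)}, Win3 Γ X L D l r M →
    Function.Injective l ∧ Function.Injective r ∧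
    (∀ ρ ρ', ρ ≠ ρ' → Disjoint (M ρ) (M ρ')) ∧
    (∀ ρ, Arc id (Γ \ X) (M ρ) (l ρ) (r ρ)) ∧
    (∀ ρ, cut id (M ρ) L = cut id (M ρ) {l ρ} ∧ (cut id (M ρ) {l ρ}).card = 1 ∧
      (cut id (M ρ) {r ρ}).card = 1) ∧
    (∀ w ∈ D, (∀ ρ, w ∉ spt id (M ρ)) → dgr id (Γ \ X) w = 0) ∧
    (∀ w, w ∉ D → cut id (Γ \ X) {w} = cut id Γ {w}) ∧
    ∀ e ∈ cut id Γ L, ∃ ρ, e ∈ M ρ

-- deps: PAR WAR
/-- Cuts on the two sides of a window. -/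
def S_WAC : Prop := ∀ {V : Type} [Fintype V] [DecidableEq V] {Γ X : Finset (Sym2 V)}
  {L D : Set V} {l r : Fin 3 → V} {M : Fin 3 → Finset (Sym2 V)} (Y : Set V) (a b : Finset (Fin 3)),
    Win3 Γ X L D l r M → (∀ ρ, ρ ∈ a ↔ l ρ ∈ Y) → (∀ ρ, ρ ∈ b ↔ r ρ ∈ Y) →
      (cut id Γ (L ∩ Y)).card = (cut id (ins id Γ L) Y).card + a.card ∧
      (cut id Γ ((L ∪ D)ᶜ ∩ Y)).card = (cut id (ins id Γ (L ∪ D)ᶜ) Y).card + b.card ∧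
      (cut id (ins id Γ L) Y).card + (cut id (ins id Γ (L ∪ D)ᶜ) Y).card + (a \ b).card +
        (b \ a).card ≤ (cut id (Γ \ X) Y).card

-- deps: TCB WAR WAC
/-- Three edges leave every set after the removal of the claws. -/
def S_RM3a : Prop := ∀ {V : Type} [Fintype V] [DecidableEq V] {Γ X : Finset (Sym2 V)}
  {L D : Set V} {l r : Fin 3 → V} {M : Fin 3 → Finset (Sym2 V)}, Win3 Γ X L D l r M → TC id Γ →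
    (∃ u ∈ L, dgr id Γ u = 3) ∧ ∀ (Y : Set V) (u u' : V), u ∈ Y → u' ∉ Y → u ∉ D → u' ∉ D →
      dgr id Γ u = 3 → dgr id Γ u' = 3 → 3 ≤ (cut id (Γ \ X) Y).card

-- deps: RCP TCB WAR WAC RM3a
/-- Removal of the claws. -/
def S_RM3 : Prop := ∀ {V : Type} [Fintype V] [DecidableEq V] {Γ X : Finset (Sym2 V)}
  {L D : Set V} {l r : Fin 3 → V} {M : Fin 3 → Finset (Sym2 V)}, Win3 Γ X L D l r M → TC id Γ →
    TC id (Γ \ X)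

-- deps: PAR ARC WAR
/-- A cycle uses two of the three rails. -/
def S_THRU : Prop := ∀ {V : Type} [Fintype V] [DecidableEq V] {Γ X : Finset (Sym2 V)}
  {L D : Set V} {l r : Fin 3 → V} {M : Fin 3 → Finset (Sym2 V)} (Z : Finset (Sym2 V))
  (c : Sym2 V), Win3 Γ X L D l r M → NL id Γ → Z ⊆ Γ \ X → Ev id Z → c ∈ Z → c ∈ M 0 →
    ∃ h, (∀ ρ, ρ ≠ h → M ρ ⊆ Z) ∧ Disjoint (M h) Z

-- deps: ODA CAT WAR
/-- Two strands close up to a cycle. -/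
def S_TWO : Prop := ∀ {V : Type} [Fintype V] [DecidableEq V] {Γ X : Finset (Sym2 V)}
  {L D : Set V} {l r : Fin 3 → V} {M : Fin 3 → Finset (Sym2 V)} (Z Q : Finset (Sym2 V))
  (h : Fin 3), Win3 Γ X L D l r M → Z ⊆ Γ \ X → Cy id Z → (∀ ρ, ρ ≠ h → M ρ ⊆ Z) →
    Disjoint (M h) Z → LH l r D h h Q → Cy id ((Z \ (M 0 ∪ M 1 ∪ M 2)) ∪ Q)

-- deps: CAT
/-- Composition of linkages. -/
def S_LHC : Prop := ∀ {V : Type} [Fintype V] [DecidableEq V] (l c r : Fin 3 → V) (D D' D'' : Set V)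
  (h h' h'' : Fin 3) (Q Q' : Finset (Sym2 V)), LH l c D h h' Q → LH c r D' h' h'' Q' →
    Disjoint D D' → Function.Injective c → (∀ ρ, c ρ ∉ D ∧ c ρ ∉ D' ∧ l ρ ∉ D' ∧ r ρ ∉ D) →
    (∀ ρ ρ', l ρ ≠ c ρ' ∧ l ρ ≠ r ρ' ∧ c ρ ≠ r ρ') → D ⊆ D'' → D' ⊆ D'' → (∀ ρ, c ρ ∈ D'') →
      LH l r D'' h h'' (Q ∪ Q') ∧ Disjoint Q Q'

-- deps: CAT
/-- One claw moves the free rail. -/
def S_STG : Prop := ∀ {V : Type} [Fintype V] [DecidableEq V] (l t r : Fin 3 → V)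
  (A B Λ : Fin 3 → Finset (Sym2 V)) (U : Fin 3 → Set V) (O D : Set V) (k : V), k ∈ O → O ⊆ D →
    (∀ ρ ρ', ρ ≠ ρ' → Disjoint (U ρ) (U ρ')) → (∀ ρ, Disjoint O (U ρ)) →
    (∀ ρ, t ρ ∈ U ρ ∧ t ρ ∈ D ∧ Pth id (A ρ) (l ρ) (t ρ) ∧ Pth id (B ρ) (t ρ) (r ρ) ∧
      Pth id (Λ ρ) k (t ρ) ∧ (∀ w ∈ spt id (A ρ), w ∈ U ρ ∧ (w ∈ D ∨ w = l ρ)) ∧
      (∀ w ∈ spt id (B ρ), w ∈ U ρ ∧ (w ∈ D ∨ w = r ρ)) ∧
      (∀ w ∈ spt id (A ρ), w ∈ spt id (B ρ) → w = t ρ) ∧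
      ∀ w ∈ spt id (Λ ρ), w ∈ O ∨ w = t ρ) →
    (∀ ρ ρ', ρ ≠ ρ' → ∀ w ∈ spt id (Λ ρ), w ∈ spt id (Λ ρ') → w = k) →
      ∀ h h' : Fin 3, ∃ Q, LH l r D h h' Q ∧ (∀ e ∈ Q, ∃ ρ, e ∈ A ρ ∨ e ∈ B ρ ∨ e ∈ Λ ρ) ∧
        Q.card + (A h).card + (B h').card = ∑ ρ, (A ρ).card + ∑ ρ, (B ρ).card +
          if h = h' then 0 else (Λ h).card + (Λ h').card

-- deps: ODA FRE CXB
/-- First facts on the three rails. -/
def S_W3B : Prop := ∀ {V : Type} [Fintype V] [DecidableEq V] {G : SimpleGraph V}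
  {S T O : Finset V} {Γ : Finset (Sym2 V)} {v : V → ℕ → V} {n pos : V → ℕ} {r : Fin 3 → ℕ → V}
  {m : Fin 3 → ℕ} {P : Fin 3 → ℕ → ℕ} {k : ℕ → V} {Λ : ℕ → Fin 3 → Finset (Sym2 V)}
  {Ys : Set V}, C0 G S T O Γ v n pos → W3 G T O Γ r m P k Λ Ys →
    (∀ ρ ρ' i j, 0 < i → i < m ρ → j ≤ m ρ' → r ρ i = r ρ' j → ρ = ρ' ∧ i = j) ∧
    (∀ ρ i, i ≤ m ρ → r ρ i ∉ O) ∧
    (∀ i, i < 7 → ∀ ρ, k i ∈ spt id (Λ i ρ) ∧ r ρ (P ρ i) ∈ spt id (Λ i ρ) ∧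
      Disjoint Γ (Λ i ρ) ∧ Λ i ρ ⊆ Fi G S) ∧
    ∀ ρ, MM r P 0 6 ρ ⊆ Fi G S ∧ (MM r P 0 6 ρ).Nonempty

-- deps: TCB ADC DIF FRE W3B
/-- The three claws are added. -/
def S_G3t : Prop := ∀ {V : Type} [Fintype V] [DecidableEq V] {G : SimpleGraph V}
  {S T O : Finset V} {Γ : Finset (Sym2 V)} {v : V → ℕ → V} {n pos : V → ℕ} {r : Fin 3 → ℕ → V}
  {m : Fin 3 → ℕ} {P : Fin 3 → ℕ → ℕ} {k : ℕ → V} {Λ : ℕ → Fin 3 → Finset (Sym2 V)}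
  {Ys : Set V}, C0 G S T O Γ v n pos → W3 G T O Γ r m P k Λ Ys → TC id (Γ ∪ XX Λ)

-- deps: PAR SEG FRE W3B
/-- The window. -/
def S_G3w : Prop := ∀ {V : Type} [Fintype V] [DecidableEq V] {G : SimpleGraph V}
  {S T O : Finset V} {Γ : Finset (Sym2 V)} {v : V → ℕ → V} {n pos : V → ℕ} {r : Fin 3 → ℕ → V}
  {m : Fin 3 → ℕ} {P : Fin 3 → ℕ → ℕ} {k : ℕ → V} {Λ : ℕ → Fin 3 → Finset (Sym2 V)}
  {Ys : Set V}, C0 G S T O Γ v n pos → W3 G T O Γ r m P k Λ Ys →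
    ∃ L, Win3 (Γ ∪ XX Λ) (XX Λ) L (DD ↑O r P 0 6) (lv r P 0) (lv r P 6) (MM r P 0 6)

-- deps: SEG STG W3B
/-- One stage of the window. -/
def S_G3u : Prop := ∀ {V : Type} [Fintype V] [DecidableEq V] {G : SimpleGraph V}
  {S T O : Finset V} {Γ : Finset (Sym2 V)} {v : V → ℕ → V} {n pos : V → ℕ} {r : Fin 3 → ℕ → V}
  {m : Fin 3 → ℕ} {P : Fin 3 → ℕ → ℕ} {k : ℕ → V} {Λ : ℕ → Fin 3 → Finset (Sym2 V)}
  {Ys : Set V} (i : ℕ), C0 G S T O Γ v n pos → W3 G T O Γ r m P k Λ Ys → i + 2 < 7 →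
    ∃ (α β : Fin 3 → ℕ) (c : ℕ), ∀ h h' : Fin 3, ∃ Q,
      LH (lv r P i) (lv r P (i + 2))
        (DD {u | u ∈ O ∧ ∃ ρ, u ∈ spt id (Λ (i + 1) ρ)} r P i (i + 2)) h h' Q ∧
      (∀ e ∈ Q, ∃ ρ, e ∈ Λ (i + 1) ρ ∨ e ∈ MM r P 0 6 ρ) ∧
      Q.card + α h + β h' = c + if h = h' then 0 else (Λ (i + 1) h).card + (Λ (i + 1) h').card

-- deps: LHC W3B G3u
/-- The four linkages. -/
def S_G3s : Prop := ∀ {V : Type} [Fintype V] [DecidableEq V] {G : SimpleGraph V}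
  {S T O : Finset V} {Γ : Finset (Sym2 V)} {v : V → ℕ → V} {n pos : V → ℕ} {r : Fin 3 → ℕ → V}
  {m : Fin 3 → ℕ} {P : Fin 3 → ℕ → ℕ} {k : ℕ → V} {Λ : ℕ → Fin 3 → Finset (Sym2 V)}
  {Ys : Set V}, C0 G S T O Γ v n pos → W3 G T O Γ r m P k Λ Ys → ∀ h : Fin 3,
    ∃ Q : Fin 4 → Finset (Sym2 V),
      (∀ j, LH (lv r P 0) (lv r P 6) (DD ↑O r P 0 6) h h (Q j) ∧
        ∀ e ∈ Q j, e ∈ XX Λ ∨ ∃ ρ, e ∈ MM r P 0 6 ρ) ∧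
      (Q 0).card + (Q 1).card = (Q 2).card + (Q 3).card + 2

-- deps: THRU TWO
/-- The gadget of a window. -/
def S_G3g : Prop := ∀ {V : Type} [Fintype V] [DecidableEq V] {Γ X : Finset (Sym2 V)}
  {L D : Set V} {l r : Fin 3 → V} {M : Fin 3 → Finset (Sym2 V)} (F : Finset (Sym2 V))
  (c : Sym2 V), Win3 Γ X L D l r M → NL id Γ → X ⊆ F → (∀ ρ, M ρ ⊆ F) → c ∈ M 0 →
    (∀ h : Fin 3, ∃ Q : Fin 4 → Finset (Sym2 V),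
      (∀ j, LH l r D h h (Q j) ∧ ∀ e ∈ Q j, e ∈ X ∨ ∃ ρ, e ∈ M ρ) ∧
      (Q 0).card + (Q 1).card = (Q 2).card + (Q 3).card + 2) → Gad Γ (Γ \ X) F c

-- deps: RM3 W3B G3t G3w G3s G3g
/-- The result for three rails. -/
def S_G3r : Prop := ∀ {V : Type} [Fintype V] [DecidableEq V] {G : SimpleGraph V}
  {S T O : Finset V} {Γ : Finset (Sym2 V)} {v : V → ℕ → V} {n pos : V → ℕ} {r : Fin 3 → ℕ → V}
  {m : Fin 3 → ℕ} {P : Fin 3 → ℕ → ℕ} {k : ℕ → V} {Λ : ℕ → Fin 3 → Finset (Sym2 V)}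
  {Ys : Set V}, C0 G S T O Γ v n pos → W3 G T O Γ r m P k Λ Ys → Res (EG G) (Fi G S) Γ

-- deps: W1 CLS G2 W3E G3r
/-- Nine rungs to one thread give the result. -/
def S_WN9 : Prop := ∀ {V : Type} [Fintype V] [DecidableEq V] {G : SimpleGraph V}
  {S T O : Finset V} {Γ : Finset (Sym2 V)} {v : V → ℕ → V} {n pos : V → ℕ} {R m : ℕ}
  {σ : ℕ → St V} {e : ℕ → V}, Cx G S T O Γ v n pos → Sq G T O Γ v n pos R σ 9 e m →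
    (∀ i, i < 9 → v (σ i).y = v (σ 0).y) → Res (EG G) (Fi G S) Γ

-- deps: TDF SPC RG0 GL RG LVL WN9
/-- Valid ports on one thread. -/
def S_F2a : Prop := ∀ {V : Type} [Fintype V] [DecidableEq V] {G : SimpleGraph V}
  {S T O : Finset V} {Γ : Finset (Sym2 V)} {v : V → ℕ → V} {n pos : V → ℕ} (R : ℕ)
  (P E : Finset V) (x₀ : V), Cx G S T O Γ v n pos → x₀ ∈ T → (∀ a ∈ E, dgr id Γ a = 3) →
    (∀ x ∈ T, v x 0 ∈ E ∧ v x (n x) ∈ E) → (∀ x ∈ P, v x = v x₀ ∧ Val G Γ T O v pos R x) →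
      Res (EG G) (Fi G S) Γ ∨
        P.card ≤ (2 * R + 3) * (17 * (Trc Γ E (v x₀ 0) (v x₀ (n x₀))).card + 1)

-- deps: TDF TDC LAM F2a
/-- Valid ports on all threads. -/
def S_F2b : Prop := ∀ {V : Type} [Fintype V] [DecidableEq V] {G : SimpleGraph V}
  {S T O : Finset V} {Γ : Finset (Sym2 V)} {v : V → ℕ → V} {n pos : V → ℕ} (R : ℕ)
  (P E : Finset V), Cx G S T O Γ v n pos → (∀ a ∈ E, dgr id Γ a = 3) →
    (∀ x ∈ T, v x 0 ∈ E ∧ v x (n x) ∈ E) → P ⊆ T → (∀ x ∈ P, Val G Γ T O v pos R x) →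
      Res (EG G) (Fi G S) Γ ∨
        P.card ≤ (2 * R + 3) * (17 * (3 * (4 * E.card + 2)) + 3 * E.card)

-- deps:
/-- The smallest subdivision. -/
def S_MN0 : Prop := ∀ {V : Type} [Fintype V] [DecidableEq V] (G : SimpleGraph V) (S : Finset V)
  (Γ : Finset (Sym2 V)), G3 G → TC id Γ → Γ ⊆ EG G → (∀ u ∈ S, dgr id Γ u = 3) →
    (∀ u ∈ S, ∀ w, G.Adj u w → dgr id Γ w = 3) → (cut id (EG G) ↑S).Nonempty →
      ∃ Γ₀, Mn G S Γ₀ ∧ Γ₀ \ Fi G S = Γ \ Fi G S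

-- deps: PAR FOR FST
/-- Few branch vertices. -/
def S_MIN1 : Prop := ∀ {V : Type} [Fintype V] [DecidableEq V] {G : SimpleGraph V}
  {S B : Finset V} {Γ : Finset (Sym2 V)}, Mn G S Γ → (∀ u, u ∈ B ↔ u ∈ S ∧ dgr id Γ u = 3) →
    B.card ≤ (cut id (EG G) ↑S).card

-- deps: DIF FRE
/-- The setting. -/
def S_MIN2 : Prop := ∀ {V : Type} [Fintype V] [DecidableEq V] {G : SimpleGraph V}
  {S B T O : Finset V} {Γ : Finset (Sym2 V)} {v : V → ℕ → V} {n pos : V → ℕ}, Mn G S Γ →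
    TDS Γ v n pos → (∀ u, u ∈ B ↔ u ∈ S ∧ dgr id Γ u = 3) → (∀ u, u ∈ T ↔ u ∈ S ∧ dgr id Γ u = 2) →
    (∀ u, u ∈ O ↔ u ∈ S ∧ dgr id Γ u = 0) →
      C0 G S T O Γ v n pos ∧
      (∃ E : Finset V, (∀ a ∈ E, dgr id Γ a = 3) ∧ (∀ x ∈ T, v x 0 ∈ E ∧ v x (n x) ∈ E) ∧
        E.card ≤ B.card + (cut id (EG G) ↑S).card) ∧
      (∀ t, t ∉ O → dgr id (cut id (EG G) ↑O) t ≤ 1) ∧ (cut id (EG G) ↑O).card ≤ T.card ∧
      (∃ t, t ∉ O) ∧ S.card ≤ B.card + T.card + O.card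

-- deps: SEG RER TDF CXB
/-- Rerouting does not pay. -/
def S_MIN3 : Prop := ∀ {V : Type} [Fintype V] [DecidableEq V] {G : SimpleGraph V}
  {S T O : Finset V} {Γ : Finset (Sym2 V)} {v : V → ℕ → V} {n pos : V → ℕ}, Mn G S Γ →
    C0 G S T O Γ v n pos → K1 G T O Γ v pos

-- deps: SEG TDF DIF SAC CXB
/-- The sacrifice does not pay. -/
def S_MIN4 : Prop := ∀ {V : Type} [Fintype V] [DecidableEq V] {G : SimpleGraph V}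
  {S T O : Finset V} {Γ : Finset (Sym2 V)} {v : V → ℕ → V} {n pos : V → ℕ}, Mn G S Γ →
    C0 G S T O Γ v n pos → K2 G T O Γ v n pos

-- deps: TCB TD FRE F1 ALP GE F2b MN0 MIN1 MIN2 MIN3 MIN4
/-- The local surgery. -/
def S_LSL : Prop := ∃ K : ℕ, 0 < K ∧ ∀ {V : Type} [Fintype V] [DecidableEq V] (G : SimpleGraph V)
  (S : Finset V) (Γ : Finset (Sym2 V)), G3 G → TC id Γ → Γ ⊆ EG G → (∀ u ∈ S, dgr id Γ u = 3) →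
    (∀ u ∈ S, ∀ w, G.Adj u w → dgr id Γ w = 3) → (cut id (EG G) ↑S).Nonempty →
    K * (cut id (EG G) ↑S).card ≤ S.card → Res (EG G) (Fi G S) Γ

end Pool.Agent.P.MP_bb4f54_co.T3
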