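import Pool.Agent.P.MP_bb4f54_co.T3.Iface6
import Pool.Agent.P.MP_bb4f54_co.T3.Iface1
import Pool.Agent.P.MP_bb4f54_co.T3.Iface3
import Pool.Agent.P.MP_bb4f54_co.T3.Iface2
import Pool.Agent.P.MP_bb4f54_co.T3.Iface7

section sA8
/-! Step A8. -/

set_option autoImplicit false
set_option linter.unusedSectionVars false

namespace Pool.Agent.P.MP_bb4f54_co.T3

open Finset

namespace A8x

variable {V : Type} [Fintype V] [DecidableEq V]

theorem rc_spt {A : Finset (Sym2 V)} {a u : V} (h : Rc id A a u) : u = a ∨ u ∈ spt id A := by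
  induction h with
  | refl => exact Or.inl rfl
  | tail _ h _ =>
    obtain ⟨i, hi, e⟩ := h
    exact Or.inr ⟨i, hi, by rw [e]; exact Sym2.mem_mk_right _ _⟩

theorem rc_avoid {Φ : Finset (Sym2 V)} {e e' : Sym2 V} {x a u : V} (hx : x ∈ e')
    (hn : ¬ Rc id (Φ.erase e) a x) (h : Rc id (Φ.erase e) a u) : Rc id (Φ.erase e') a u := by
  induction h with
  | refl => exact Rc.refl'
  | @tail b c h1 h2 ih =>
    obtain ⟨i, hi, ei⟩ := h2
    refine ih.trans' (Rc.step (mem_erase.2 ⟨?_, mem_of_mem_erase hi⟩) ei)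
    rintro rfl
    have hx' : x ∈ s(b, c) := by rw [← ei]; exact hx
    rcases Sym2.mem_iff.1 hx' with rfl | rfl
    · exact hn h1
    · exact hn (Rc.trans' h1 (Rc.step hi ei))

theorem rc_seg {Φ : Finset (Sym2 V)} {e : Sym2 V} {x : V} (hx : x ∈ e) (w : ℕ → V) (a b : ℕ)
    (hab : a ≤ b) (h1 : ∀ i, a ≤ i → i < b → s(w i, w (i + 1)) ∈ Φ)
    (h2 : ∀ i, a ≤ i → i ≤ b → w i ≠ x) : Rc id (Φ.erase e) (w a) (w b) := by
  induction b, hab using Nat.le_induction with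
  | base => exact Rc.refl'
  | succ b hb ih =>
    refine (ih (fun i c1 c2 => h1 i c1 (by omega)) fun i c1 c2 => h2 i c1 (by omega)).trans'
      (Rc.step (i := s(w b, w (b + 1))) (mem_erase.2 ⟨?_, h1 b hb (by omega)⟩) rfl)
    rintro rfl
    rcases Sym2.mem_iff.1 hx with h | h
    · exact h2 b hb (by omega) h.symm
    · exact h2 (b + 1) (by omega) le_rfl h.symm

theorem side (hCY1 : S_CY1) (hVIA : S_VIA) (hA1a : S_A1a) {G : SimpleGraph V} {O T R : Finset V}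
    {Φ A : Finset (Sym2 V)} {x k a y : V} (hAl : Al G O Φ) (hSk : Sk G (Sg G O Φ) T R)
    (hRO : R ⊆ O) (hx : x ∈ T) (hk : k ∈ R) (ha : a ∈ O) (he : s(a, x) ∈ Φ)
    (hy : Rc id (Φ.erase s(a, x)) a y) (hyx : y ≠ x) (pA : Pth id A k y) (sA : A ⊆ EG G)
    (iA : ∀ w ∈ spt id A, w ∈ R ∨ w = y) (L : Set V)
    (hL : ∀ u, u ∈ L ↔ Rc id (Φ.erase s(a, x)) a u ∨ (u ∈ spt id A ∧ u ≠ k)) :
    ¬ Rc id (Φ.erase s(a, x)) a x ∧ (∀ u, Rc id (Φ.erase s(a, x)) a u → u ∉ R) ∧ L ⊆ ↑O ∧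
      x ∉ L ∧ k ∉ L ∧ ∃ p ∈ L, Po G O p ∧ Via G L x p ∧ Via G L k p := by
  obtain ⟨a1, a2, a3, -, -, a6, -⟩ := hA1a hAl
  obtain ⟨-, v2, -, -, v5, -, v7, v8⟩ := hVIA G
  have hΦ : Φ ⊆ Sg G O Φ := subset_union_left
  have hΦe : Φ.erase s(a, x) ⊆ EG G := ((erase_subset _ _).trans hΦ).trans a3
  have b1 : ¬ Rc id (Φ.erase s(a, x)) a x :=
    (hCY1 id).2.2.2.2.2 Φ s(a, x) a x (a1.mono hΦ) he rfl
  have b2 : ∀ u, Rc id (Φ.erase s(a, x)) a u → u ∉ R := fun u hu hR => by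
    refine a1.nl.dgr_ne (v := u) ?_ (hSk.dO u hR)
    rcases rc_spt hu with rfl | h
    · exact ⟨_, hΦ he, Sym2.mem_mk_left _ _⟩
    · exact spt_mono ((erase_subset _ _).trans hΦ) h
  have b3 : ∀ u, Rc id (Φ.erase s(a, x)) a u → u ∈ O := fun u hu =>
    a6 a u ha (hu.mono' (erase_subset _ _))
  refine ⟨b1, b2, fun u hu => ?_, fun h => ?_, fun h => ?_, ?_⟩
  · rcases (hL u).1 hu with h | ⟨h, -⟩
    · exact b3 u h
    · rcases iA u h with h | rfl
      · exact hRO h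
      · exact b3 u hy
  · rcases (hL x).1 h with h | ⟨h, -⟩
    · exact b1 h
    · rcases iA x h with h | h
      · have := hSk.dO x h
        have := hSk.dT x hx
        omega
      · exact hyx h.symm
  · rcases (hL k).1 h with h | ⟨-, h⟩
    · exact b2 k h hk
    · exact h rfl
  · obtain ⟨p, p1, p2⟩ := a2 a x he
    refine ⟨p, (hL p).2 (Or.inl p2), p1, ?_, ?_⟩
    · refine v5 L x a p (v2 L x a (mk_mem_EG.1 (a3 (hΦ he))).symm)
        (v8 _ hΦe a p L p2 fun u hu => (hL u).2 (Or.inl hu))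
        (Or.inr (Or.inr ((hL a).2 (Or.inl Rc.refl'))))
    · refine v5 L k y p (v7 A sA k y L pA fun u hu => ?_)
        (v8 _ hΦe y p L (hy.symm'.trans' p2) fun u hu => (hL u).2 (Or.inl (hy.trans' hu)))
        (Or.inr (Or.inr ((hL y).2 (Or.inl hy))))
      by_cases h : u = k
      · exact Or.inl h
      · exact Or.inr (Or.inr ((hL u).2 (Or.inr ⟨hu, h⟩)))

end A8x

theorem p_A8 (hODA : S_ODA) (hCY1 : S_CY1) (hSEG : S_SEG) (hTDF : S_TDF) (hVIA : S_VIA) (hA1a : S_A1a) (hA9 : S_A9) :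
    S_A8 := by
  intro V _ _ G O T R Φ v n pos D σ hAl hT hSk hRO hU hk ⟨e1, l1⟩ ⟨e2, l2⟩
  obtain ⟨-, -, -, -, a5, -, a7⟩ := hA1a hAl
  have dx := hSk.dT _ hU.hx
  have dy := hSk.dT _ hU.hy
  have dz := hSk.dT _ hU.hz
  have nz : n σ.z = n σ.x := ((hTDF _ v n pos hT σ.x σ.z dx dz).1 e2).1
  have y0 := hT.p0 _ dy
  have zn := hT.pn _ dz
  have sg := hT.sg _ dx
  have wx : v σ.x (pos σ.x) = σ.x := hT.vx _ dx
  have wy : v σ.x (pos σ.y) = σ.y := by rw [e1]; exact hT.vx _ dy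
  have wz : v σ.x (pos σ.z) = σ.z := by rw [← e2]; exact hT.vx _ dz
  set w := v σ.x with hw
  obtain ⟨q, hq⟩ : ∃ q, pos σ.x = q + 1 := ⟨pos σ.x - 1, by omega⟩
  rw [hq] at wx
  have hO : ∀ i, 0 < i → i < n σ.x → w i ∈ O := fun i c1 c2 => by
    by_contra h
    have := a7 _ h
    have := sg.dg i c1 c2
    omega
  have hE : ∀ i, 0 < i → i + 1 < n σ.x → s(w i, w (i + 1)) ∈ Φ := fun i c1 c2 =>
    a5 _ (hO i c1 (by omega)) _ (hO (i + 1) (by omega) c2) (sg.ed i (by omega))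
  have hne : ∀ i, i ≤ n σ.x → i ≠ q + 1 → w i ≠ σ.x := fun i c1 c2 h =>
    c2 (sg.inj i (q + 1) c1 (by omega) (h.trans wx.symm))
  have E1 : s(w q, σ.x) ∈ Φ := by rw [← wx]; exact hE q (by omega) (by omega)
  have E2 : s(w (q + 1 + 1), σ.x) ∈ Φ := by
    rw [Sym2.eq_swap, ← wx]; exact hE (q + 1) (by omega) (by omega)
  have Y1 : Rc id (Φ.erase s(w q, σ.x)) (w q) σ.y := by
    rw [← wy]
    exact (A8x.rc_seg (Sym2.mem_mk_right _ _) w (pos σ.y) q (by omega)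
      (fun i c1 c2 => hE i (by omega) (by omega))
      fun i c1 c2 => hne i (by omega) (by omega)).symm'
  have Y2 : Rc id (Φ.erase s(w (q + 1 + 1), σ.x)) (w (q + 1 + 1)) σ.z := by
    rw [← wz]
    exact A8x.rc_seg (Sym2.mem_mk_right _ _) w (q + 1 + 1) (pos σ.z) (by omega)
      (fun i c1 c2 => hE i (by omega) (by omega)) fun i c1 c2 => hne i (by omega) (by omega)
  obtain ⟨b1, b2, b3, b4, b5, p, b6, b7, b8, b9⟩ := A8x.side hCY1 hVIA hA1a hAl hSk hRO hU.hx hk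
    (hO q (by omega) (by omega)) E1 Y1 hU.yx hU.pA hU.sA hU.iA
    {u | Rc id (Φ.erase s(w q, σ.x)) (w q) u ∨ (u ∈ spt id σ.A ∧ u ≠ σ.k)} fun _ => Iff.rfl
  obtain ⟨c1, c2, c3, c4, c5, p', c6, c7, c8, c9⟩ := A8x.side hCY1 hVIA hA1a hAl hSk hRO hU.hx hk
    (hO (q + 1 + 1) (by omega) (by omega)) E2 Y2 hU.zx hU.pB hU.sB hU.iB
    {u | Rc id (Φ.erase s(w (q + 1 + 1), σ.x)) (w (q + 1 + 1)) u ∨ (u ∈ spt id σ.B ∧ u ≠ σ.k)}
    fun _ => Iff.rfl
  have hd : ∀ u, Rc id (Φ.erase s(w q, σ.x)) (w q) u →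
      Rc id (Φ.erase s(w (q + 1 + 1), σ.x)) (w (q + 1 + 1)) u → False := fun u h1 h2 => by
    have h3 := A8x.rc_avoid (e' := s(w q, σ.x)) (Sym2.mem_mk_right _ _) c1 h2
    refine b1 ((h1.trans' h3.symm').trans'
      (Rc.step (i := s(w (q + 1 + 1), σ.x)) (mem_erase.2 ⟨fun h => ?_, E2⟩) rfl))
    have := sg.inj _ _ (by omega) (by omega) (Sym2.congr_left.1 h)
    omega
  have hO' : σ.x ∈ O := by rw [← wx]; exact hO _ (by omega) (by omega)
  refine hA9 _ _ σ.x σ.k p p' hAl hO' (hRO hk) hU.adj b3 c3 (Set.disjoint_left.2 ?_) b4 c4 b5 c5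
    b6 c6 b7 c7 b8 b9 c8 c9
  rintro u (h1 | ⟨h1, h1'⟩) (h2 | ⟨h2, -⟩)
  · exact hd u h1 h2
  · rcases hU.iB u h2 with h | rfl
    · exact b2 u h1 h
    · exact hd _ h1 Y2
  · rcases hU.iA u h1 with h | rfl
    · exact c2 u h2 h
    · exact hd _ Y1 h2
  · rcases hU.kind with ⟨-, -, h⟩ | ⟨h, -⟩
    · exact h1' (h u h1 h2)
    · have := hSk.dO _ hk
      rw [h] at this
      omega

end Pool.Agent.P.MP_bb4f54_co.T3

end sA8

section sE4b
/-! Step E4b. -/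

set_option autoImplicit false
set_option linter.unusedSectionVars false

namespace Pool.Agent.P.MP_bb4f54_co.T3

open Finset

namespace E4bx

lemma mass5 {x1 x2 x3 x4 x5 : ℝ} (h1 : 24 / 25 < x1 + x2) (h2 : 24 / 25 < x3 + x4)
    (h3 : 12 / 25 < x5) (h : x1 ^ 2 + (x2 ^ 2 + (x3 ^ 2 + (x4 ^ 2 + x5 ^ 2))) ≤ 1) : False := by
  nlinarith [sq_nonneg (x1 - 12 / 25), sq_nonneg (x2 - 12 / 25), sq_nonneg (x3 - 12 / 25),
    sq_nonneg (x4 - 12 / 25), sq_nonneg (x5 - 12 / 25)]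

lemma mass4 {s ya yb z : ℝ} (h1 : 24 / 25 < s + ya) (h2 : 24 / 25 < s + yb) (h3 : 12 / 25 < z)
    (h4 : 2 * s + 2 * z + ya / 2 < 2) (h : s ^ 2 + (ya ^ 2 + (yb ^ 2 + z ^ 2)) ≤ 1) : False := by
  nlinarith [sq_nonneg (s - 37 / 100), sq_nonneg (ya - 59 / 100), sq_nonneg (yb - 59 / 100),
    sq_nonneg (z - 12 / 25)]

lemma pair {u w w' : ℝ} (h : 24 / 25 < max u w + max u w') (hu : u ≤ 12 / 25) :
    24 / 25 < w + u ∨ 24 / 25 < w' + u ∨ 24 / 25 < w + w' := by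
  rcases max_cases u w with ⟨h1, -⟩ | ⟨h1, -⟩ <;> rcases max_cases u w' with ⟨h2, -⟩ | ⟨h2, -⟩ <;>
    rw [h1, h2] at h
  · linarith
  · exact Or.inr (Or.inl (by linarith))
  · exact Or.inl h
  · exact Or.inr (Or.inr h)

lemma sc {N α S : ℝ} (hN : 0 < N) (h : 2 ≤ α) (e : S = α * N) : 2 * N ≤ S :=
  e ▸ mul_le_mul_of_nonneg_right h hN.le

variable {V ι : Type} [Fintype V] [DecidableEq V] [DecidableEq ι]
  {en : ι → Sym2 V} {Γ : Finset ι} {W : Finset V} {ρ ua ub uc s wa wa' wb wb' wc wc' : V}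
  {p : V → ι → ℝ} {a b c ga ga' gb gb' gc gc' : ι}

lemma core (hMAS : S_MAS) (hO1 : S_O1) (hLAD : S_LAD) (hKK : S_KK) (x : V → ℝ)
    (hx : ∀ v, x v = PP en Γ p v / NN en Γ W ρ p)
    (L : Loc en Γ W ρ p a b c ua ub uc) (Fa : Fk en Γ ua a ga ga' s wa')
    (Fb : Fk en Γ ub b gb gb' s wb') (Fc : Fk en Γ uc c gc gc' wc wc')
    (hN : 0 < NN en Γ W ρ p) (ha : 24 / 25 < x s + x ua ∨ 24 / 25 < x s + x wa')
    (hb : 24 / 25 < x s + x ub ∨ 24 / 25 < x s + x wb') (hc : 12 / 25 < x uc) :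
    Tri en Γ W ρ p a b c (2 * NN en Γ W ρ p) := by
  obtain ⟨n1, n2, n3, hW, hAd, hM⟩ := hMAS L Fa Fb Fc
  have hP : ∀ v, PP en Γ p v = x v * NN en Γ W ρ p := fun v => by
    rw [hx, div_mul_cancel₀ _ hN.ne']
  by_cases k : wa' = wb' ∨ Ad en Γ s uc
  · exact hKK L Fa Fb k
  obtain ⟨k1, k2⟩ := not_or.1 k
  rcases ha with ha | ha
  · exact (hO1 L Fa Fb k2).1.mono (sc hN (α := 2 * x s + 2 * x uc + 2 * x ua) (by linarith)
      (by rw [hP, hP, hP]; ring))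
  rcases hb with hb | hb
  · exact (hO1 L.s12 Fb Fa k2).1.s12.mono (sc hN (α := 2 * x s + 2 * x uc + 2 * x ub)
      (by linarith) (by rw [hP, hP, hP]; ring))
  have s1 : wc ≠ s := fun e => k2 ((hAd s).2 (Or.inr (Or.inl e.symm)))
  have s2 : wc' ≠ s := fun e => k2 ((hAd s).2 (Or.inr (Or.inr e.symm)))
  by_cases q1 : Ad en Γ wa' uc
  · refine Tri.mono (S := 2 * PP en Γ p s + 2 * PP en Γ p wa' + PP en Γ p uc / 2) ?_
      (sc hN (α := 2 * x s + 2 * x wa' + x uc / 2) (by linarith) (by rw [hP, hP, hP]; ring))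
    rcases (hAd wa').1 q1 with e | e | e
    · exact absurd e (hW wa' (by simp)).2
    · subst e
      exact (hLAD L.s12 Fb Fa Fc (Ne.symm k1) s2 uc (by simp)).s12
    · subst e
      exact (hLAD L.s12 Fb Fa Fc.swap (Ne.symm k1) s1 uc (by simp)).s12
  by_cases q2 : Ad en Γ wb' uc
  · refine Tri.mono (S := 2 * PP en Γ p s + 2 * PP en Γ p wb' + PP en Γ p uc / 2) ?_
      (sc hN (α := 2 * x s + 2 * x wb' + x uc / 2) (by linarith) (by rw [hP, hP, hP]; ring))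
    rcases (hAd wb').1 q2 with e | e | e
    · exact absurd e (hW wb' (by simp)).2
    · subst e
      exact hLAD L Fa Fb Fc k1 s2 uc (by simp)
    · subst e
      exact hLAD L Fa Fb Fc.swap k1 s1 uc (by simp)
  refine ((hO1 L Fa Fb k2).2 k1 q1 q2).mono (sc hN (α := 2 * x s + 2 * x uc + x wa' / 2) ?_
    (by rw [hP, hP, hP]; ring))
  by_contra hlt
  have := hM hN [s, wa', wb', uc] (by
    simp only [List.nodup_cons, List.mem_cons, List.not_mem_nil, List.nodup_nil] at n1 n2 ⊢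
    grind) (fun y hy => hW y (by
    simp only [List.mem_cons, List.not_mem_nil] at hy ⊢
    grind))
  simp only [List.map_cons, List.map_nil, List.sum_cons, List.sum_nil, add_zero, ← hx] at this
  exact mass4 ha hb hc (not_le.1 hlt) this

lemma mid (hMAS : S_MAS) (hO1 : S_O1) (hLAD : S_LAD) (hKK : S_KK) (x : V → ℝ)
    (hx : ∀ v, x v = PP en Γ p v / NN en Γ W ρ p)
    (L : Loc en Γ W ρ p a b c ua ub uc) (Fa : Fk en Γ ua a ga ga' wa wa')
    (Fb : Fk en Γ ub b gb gb' wb wb') (Fc : Fk en Γ uc c gc gc' wc wc')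
    (hN : 0 < NN en Γ W ρ p) (ha : 24 / 25 < x wa + x ua ∨ 24 / 25 < x wa + x wa')
    (hb : 24 / 25 < x wb + x ub ∨ 24 / 25 < x wb + x wb') (hc : 12 / 25 < x uc) :
    Tri en Γ W ρ p a b c (2 * NN en Γ W ρ p) := by
  by_cases e0 : wa = wb
  · subst e0
    exact core hMAS hO1 hLAD hKK x hx L Fa Fb Fc hN ha hb hc
  obtain ⟨n1, n2, -, hW, -, hM⟩ := hMAS L Fa Fb Fc
  simp only [List.nodup_cons, List.mem_cons, List.not_mem_nil, List.nodup_nil] at n1 n2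
  have fin : ∀ ya yb, (ya = ua ∨ ya = wa') → (yb = ub ∨ yb = wb') → wa ≠ yb → ya ≠ wb →
      ya ≠ yb → 24 / 25 < x wa + x ya → 24 / 25 < x wb + x yb → False := by
    intro ya yb h1 h2 h3 h4 h5 h6 h7
    have := hM hN [wa, ya, wb, yb, uc] (by
      simp only [List.nodup_cons, List.mem_cons, List.not_mem_nil, List.nodup_nil]
      grind) (fun y hy => hW y (by
      simp only [List.mem_cons, List.not_mem_nil] at hy ⊢
      grind))
    simp only [List.map_cons, List.map_nil, List.sum_cons, List.sum_nil, add_zero, ← hx] at this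
    exact mass5 h6 h7 hc this
  rcases ha with ha | ha <;> rcases hb with hb | hb
  · exact (fin ua ub (Or.inl rfl) (Or.inl rfl) (by grind) (by grind) (by grind) ha hb).elim
  · by_cases e1 : wa = wb'
    · subst e1
      exact core hMAS hO1 hLAD hKK x hx L Fa Fb.swap Fc hN (Or.inl ha) (Or.inr (by linarith)) hc
    · exact (fin ua wb' (Or.inl rfl) (Or.inr rfl) e1 (by grind) (by grind) ha hb).elim
  · by_cases e1 : wa' = wb
    · subst e1
      exact core hMAS hO1 hLAD hKK x hx L Fa.swap Fb Fc hN (Or.inr (by linarith)) (Or.inl hb) hc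
    · exact (fin wa' ub (Or.inr rfl) (Or.inl rfl) (by grind) e1 (by grind) ha hb).elim
  · by_cases e1 : wa = wb'
    · subst e1
      exact core hMAS hO1 hLAD hKK x hx L Fa Fb.swap Fc hN (Or.inr ha) (Or.inr (by linarith)) hc
    by_cases e2 : wa' = wb
    · subst e2
      exact core hMAS hO1 hLAD hKK x hx L Fa.swap Fb Fc hN (Or.inr (by linarith)) (Or.inr hb) hc
    by_cases e3 : wa' = wb'
    · subst e3
      exact core hMAS hO1 hLAD hKK x hx L Fa.swap Fb.swap Fc hN (Or.inr (by linarith))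
        (Or.inr (by linarith)) hc
    exact (fin wa' wb' (Or.inr rfl) (Or.inr rfl) e1 e2 e3 ha hb).elim

end E4bx

theorem p_E4b (hMAS : S_MAS) (hO1 : S_O1) (hLAD : S_LAD) (hKK : S_KK) :
    S_E4b := by
  intro V ι _ _ _ en Γ W ρ ua ub uc wa wa' wb wb' wc wc' p a b c ga ga' gb gb' gc gc' L Fa Fb Fc
    hN ba bb ha hb hc
  have M := fun {wa wa' wb wb' : V} {ga ga' gb gb' : ι} (Fa : Fk en Γ ua a ga ga' wa wa')
    (Fb : Fk en Γ ub b gb gb' wb wb') h1 h2 =>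
    E4bx.mid hMAS hO1 hLAD hKK (fun v => PP en Γ p v / NN en Γ W ρ p) (fun _ => rfl) L Fa Fb Fc
      hN h1 h2 hc
  rcases E4bx.pair ba ha with h1 | h1 | h1 <;> rcases E4bx.pair bb hb with h2 | h2 | h2
  · exact M Fa Fb (Or.inl h1) (Or.inl h2)
  · exact M Fa Fb.swap (Or.inl h1) (Or.inl h2)
  · exact M Fa Fb (Or.inl h1) (Or.inr h2)
  · exact M Fa.swap Fb (Or.inl h1) (Or.inl h2)
  · exact M Fa.swap Fb.swap (Or.inl h1) (Or.inl h2)
  · exact M Fa.swap Fb (Or.inl h1) (Or.inr h2)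
  · exact M Fa Fb (Or.inr h1) (Or.inl h2)
  · exact M Fa Fb.swap (Or.inr h1) (Or.inl h2)
  · exact M Fa Fb (Or.inr h1) (Or.inr h2)

end Pool.Agent.P.MP_bb4f54_co.T3

end sE4b

section sE1
/-! Step E1. -/

set_option autoImplicit false
set_option linter.unusedSectionVars false

namespace Pool.Agent.P.MP_bb4f54_co.T3

open Finset

namespace E1x

lemma bt_pos : 0 < bt := by unfold bt; norm_num

lemma rp {s : ℝ} (h : 0 ≤ s) : (s ^ (1 / bt)) ^ bt = s := by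
  rw [one_div, Real.rpow_inv_rpow h bt_pos.ne']

theorem core (hCON : S_CON) (hMET : S_MET) (hLFT : S_LFT) {V ι : Type} [Fintype V]
    [DecidableEq V] [DecidableEq ι] {en : ι → Sym2 V} {Γ : Finset ι} {W : Finset V} {ρ : V}
    {p : V → ι → ℝ} {a b c : ι} (hE : EH V ι W.card) (hR : Rt en Γ W ρ p a b c) {Y : Set V}
    (hρ : ρ ∉ Y) (hc : (cut en Γ Y).card ≤ 3) {y₀ y x : V} (hy₀ : y₀ ∈ W) (hy₀' : y₀ ∈ Y)
    (hy : y ∈ W) (hy' : y ∈ Y) (hyy : y ≠ y₀) (hx : x ∈ W) (hx' : x ∉ Y) (hxρ : x ≠ ρ) :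
    Tri en Γ W ρ p a b c (2 * NN en Γ W ρ p) := by
  classical
  have h3 : (cut en Γ Y).card = 3 := le_antisymm hc (hR.cub.c3 Y ⟨y, hy, hy'⟩ ⟨x, hx, hx'⟩)
  obtain ⟨k, l, m, hkl, hkm, hlm, hklm⟩ := card_eq_three.1 h3
  obtain ⟨W₁, hW₁, hc₁⟩ : ∃ W₁ : Finset V, (∀ v, v ∈ W₁ ↔ v = ρ ∨ (v ∈ W ∧ v ∈ Y)) ∧
      W₁.card < W.card := by
    refine ⟨W.filter fun v => v = ρ ∨ v ∈ Y, fun v => ?_, card_lt_card
      (filter_ssubset.2 ⟨x, hx, by simp [hxρ, hx']⟩)⟩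
    rw [mem_filter]
    exact ⟨fun h => h.2.imp id fun h' => ⟨h.1, h'⟩,
      fun h => h.elim (fun e => ⟨e ▸ hR.hρ, Or.inl e⟩) fun e => ⟨e.1, Or.inr e.2⟩⟩
  obtain ⟨W₂, hW₂, hc₂⟩ : ∃ W₂ : Finset V, (∀ v, v ∈ W₂ ↔ v = y₀ ∨ (v ∈ W ∧ v ∉ Y)) ∧
      W₂.card < W.card := by
    refine ⟨W.filter fun v => v = y₀ ∨ v ∉ Y, fun v => ?_, card_lt_card
      (filter_ssubset.2 ⟨y, hy, by simp [hyy, hy']⟩)⟩
    rw [mem_filter]
    exact ⟨fun h => h.2.imp id fun h' => ⟨h.1, h'⟩,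
      fun h => h.elim (fun e => ⟨e ▸ hy₀, Or.inl e⟩) fun e => ⟨e.1, Or.inr e.2⟩⟩
  obtain ⟨c1, c2, c3, c4, c5⟩ := hCON en Γ W W₁ Yᶜ ρ hR.cub hR.hρ hρ
    ⟨y, hy, fun h => h hy'⟩ (by rw [cut_compl, h3]) (by simpa using hW₁)
  simp only [compl_compl, cut_compl, Set.mem_compl_iff, not_not] at c1 c2 c3 c4 c5
  have R₁ : Rt (ctr en Yᶜ ρ) (tch en Γ Y) W₁ ρ p k l m :=
    ⟨c1, (hW₁ ρ).2 (Or.inl rfl), by rw [c2 _ tch_subset, c4, hklm], hR.pos⟩
  obtain ⟨Zk, sk, Zl, sl, Zm, sm, yk, yl, ym, uk, ul, um, hS, mk, ml, mm⟩ :=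
    hMET R₁ (hE _ _ _ _ _ _ _ _ hc₁ R₁)
  rw [c2 _ (sk.trans tch_subset)] at uk
  rw [c2 _ (sl.trans tch_subset)] at ul
  rw [c2 _ (sm.trans tch_subset)] at um
  set fk := val (ctr en Yᶜ ρ) W₁ ρ p Zk with hfk
  set fl := val (ctr en Yᶜ ρ) W₁ ρ p Zl with hfl
  set fm := val (ctr en Yᶜ ρ) W₁ ρ p Zm with hfm
  obtain ⟨p₂, q0, qk, ql, qm, qp⟩ : ∃ p₂ : V → ι → ℝ, (∀ v, v ≠ y₀ → p₂ v = p v) ∧
      p₂ y₀ k = (fl + fm - fk) / 2 ∧ p₂ y₀ l = (fk + fm - fl) / 2 ∧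
      p₂ y₀ m = (fk + fl - fm) / 2 ∧ ∀ v i, 0 ≤ p₂ v i := by
    refine ⟨fun v i => if v = y₀ then (if i = k then (fl + fm - fk) / 2 else
      if i = l then (fk + fm - fl) / 2 else if i = m then (fk + fl - fm) / 2 else 0) else p v i,
      fun v hv => by funext i; simp [hv], by simp, by simp [hkl.symm],
      by simp [hkm.symm, hlm.symm], fun v i => ?_⟩
    dsimp only
    split_ifs
    · linarith
    · linarith
    · linarith
    · exact le_rfl
    · exact hR.pos v i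
  obtain ⟨d1, d2, d3, d4, d5⟩ := hCON en Γ W W₂ Y y₀ hR.cub hy₀ hy₀' ⟨x, hx, hx'⟩ h3 hW₂
  have R₂ : Rt (ctr en Y y₀) (tch en Γ Yᶜ) W₂ ρ p₂ a b c :=
    ⟨d1, (hW₂ ρ).2 (Or.inr ⟨hR.hρ, hρ⟩), by rw [d3 _ tch_subset ρ hρ, d5 ρ hρ, hR.st], qp⟩
  obtain ⟨Za, sa, Zb, sb, Zc, sc, ya, yb, yc, m1, m2, m3, m4, m5, m6, hT⟩ :=
    hE _ _ _ _ _ _ _ _ hc₂ R₂
  have L := hLFT en Γ W W₁ W₂ ρ y₀ Y p p₂ k l m Zk Zl Zm hR.cub hR.hρ hρ hy₀ hy₀' hklm h3 hW₁ hW₂
    sk sl sm yk yl ym uk ul um q0 (by rw [ql, qm, ← hfk]; ring) (by rw [qk, qm, ← hfl]; ring)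
    (by rw [qk, ql, ← hfm]; ring) hR.pos
  obtain ⟨Xa, ta, za, ia, va⟩ := L Za sa ya
  obtain ⟨Xb, tb, zb, ib, vb⟩ := L Zb sb yb
  obtain ⟨Xc, tc, zc, ic, vc⟩ := L Zc sc yc
  refine ⟨Xa, ta, Xb, tb, Xc, tc, za, zb, zc, ia m1, ia m2, ib m3, ib m4, ic m5, ic m6, ?_⟩
  suffices h : NN en Γ W ρ p ≤ NN (ctr en Y y₀) (tch en Γ Yᶜ) W₂ ρ p₂ by linarith
  have pw : ∀ (e : ι → Sym2 V) (Z : Finset ι) (q : V → ι → ℝ), (∀ v i, 0 ≤ q v i) → ∀ v,
      0 ≤ PP e Z q v ^ bt := fun e Z q hq v => Real.rpow_nonneg (pp_nonneg hq) _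
  refine Real.rpow_le_rpow (sum_nonneg fun v _ => pw _ _ _ hR.pos v) ?_
    (one_div_pos.2 bt_pos).le
  have e1 : W₁.erase ρ = (W.erase ρ).filter fun v => v ∈ Y := by
    ext v
    simp only [mem_erase, mem_filter, hW₁]
    tauto
  have e2 : W₂.erase ρ = insert y₀ ((W.erase ρ).filter fun v => v ∉ Y) := by
    ext v
    simp only [mem_erase, mem_filter, hW₂, mem_insert]
    constructor
    · tauto
    · rintro (rfl | h)
      · exact ⟨fun e => hρ (e ▸ hy₀'), Or.inl rfl⟩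
      · tauto
  rw [e2, sum_insert (by simp [hy₀']), ← sum_filter_add_sum_filter_not _ fun v => v ∈ Y]
  refine add_le_add ?_ (le_of_eq (sum_congr rfl fun v hv => ?_))
  · have e3 : ∑ v ∈ (W.erase ρ).filter (fun v => v ∈ Y), PP en Γ p v ^ bt =
        NN (ctr en Yᶜ ρ) (tch en Γ Y) W₁ ρ p ^ bt := by
      rw [NN, rp (sum_nonneg fun v _ => pw _ _ _ hR.pos v), e1]
      refine sum_congr rfl fun v hv => ?_
      have hv' := (mem_filter.1 hv).2
      rw [PP, PP, c3 _ tch_subset v hv', c5 v hv']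
    have e4 : PP (ctr en Y y₀) (tch en Γ Yᶜ) p₂ y₀ = (fk + fl + fm) / 2 := by
      rw [PP, d2 _ tch_subset, d4, hklm, sum_insert (by simp [hkl, hkm]), sum_pair hlm, qk, ql, qm]
      ring
    rw [e3, e4]
    exact Real.rpow_le_rpow (Real.rpow_nonneg (sum_nonneg fun v _ => pw _ _ _ hR.pos v) _)
      (by linarith) bt_pos.le
  · have hv' := (mem_filter.1 hv).2
    rw [PP, PP, d3 _ tch_subset v hv', d5 v hv', q0 v fun e => hv' (e ▸ hy₀')]

end E1x

theorem p_E1 (hNRM : S_NRM) (hCON : S_CON) (hMET : S_MET) (hLFT : S_LFT) :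
    S_E1 := by
  intro V ι _ _ _ en Γ W ρ p a b c hE hR hN
  have _ := hNRM
  unfold NTF at hN
  push Not at hN
  obtain ⟨Y, hc, ⟨x, hx, y, hy, hx', hy', hxy⟩, ⟨u, hu, v, hv, hu', hv', huv⟩⟩ := hN
  by_cases hρ : ρ ∈ Y
  · have hc' : (cut en Γ Yᶜ).card ≤ 3 := by rwa [cut_compl]
    by_cases e : x = ρ
    · exact E1x.core hCON hMET hLFT hE hR (Y := Yᶜ) (fun h => h hρ) hc' hv hv' hu hu' huv hy
        (fun h => h hy') fun e' => hxy (e.trans e'.symm)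
    · exact E1x.core hCON hMET hLFT hE hR (Y := Yᶜ) (fun h => h hρ) hc' hv hv' hu hu' huv hx
        (fun h => h hx') e
  · by_cases e : u = ρ
    · exact E1x.core hCON hMET hLFT hE hR hρ hc hy hy' hx hx' hxy hv hv'
        fun e' => huv (e.trans e'.symm)
    · exact E1x.core hCON hMET hLFT hE hR hρ hc hy hy' hx hx' hxy hu hu' e

end Pool.Agent.P.MP_bb4f54_co.T3

end sE1

section sF1a1
/-! Step F1a1. -/

set_option autoImplicit false
set_option linter.unusedSectionVars false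

namespace Pool.Agent.P.MP_bb4f54_co.T3

open Finset

namespace F1a1x

variable {V : Type} [Fintype V] [DecidableEq V] {G : SimpleGraph V}

lemma mem_Bl {O : Finset V} {z k w : V} {r : ℕ} :
    w ∈ Bl G O z r k ↔ w ∈ O ∧ w ≠ z ∧ OW G (↑O \ {z}) r k w := by
  simp [Bl]

lemma closed (h3 : G3 G) {Y : Set V} {x z : V} (hY : Y.Nonempty) (hx : x ∉ Y) (hz : z ∉ Y)
    (h1 : ∀ a ∈ Y, ∀ a' ∈ Y, G.Adj a x → G.Adj a' x → a = a')
    (h2 : ∀ a ∈ Y, ∀ b, b ∉ Y → G.Adj a b → b = x ∨ b = z) : False := by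
  classical
  obtain ⟨Ex, hEx⟩ : ∃ E, E = (cut id (EG G) Y).filter fun e => x ∈ e := ⟨_, rfl⟩
  obtain ⟨Ez, hEz⟩ : ∃ E, E = cut id (EG G) {z} ∩ cut id (EG G) Y := ⟨_, rfl⟩
  have form : ∀ e ∈ Ex, ∃ a ∈ Y, G.Adj a x ∧ e = s(a, x) := by
    intro e he
    rw [hEx, mem_filter, mem_cut] at he
    obtain ⟨⟨g1, a, b, g2, g3, g4⟩, g5⟩ := he
    obtain rfl : e = s(a, b) := g2
    rcases Sym2.mem_iff.1 g5 with rfl | rfl
    · exact absurd g3 hx
    · exact ⟨a, g3, mk_mem_EG.1 g1, rfl⟩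
  have c1 : Ex.card ≤ 1 := card_le_one.2 fun e he e' he' => by
    obtain ⟨a, g1, g2, rfl⟩ := form e he
    obtain ⟨a', g3, g4, rfl⟩ := form e' he'
    rw [h1 a g1 a' g3 g2 g4]
  have inx : ∀ a ∈ Y, G.Adj a x → s(a, x) ∈ Ex := fun a ha h => by
    rw [hEx, mem_filter]
    exact ⟨mem_cut.2 ⟨mk_mem_EG.2 h, a, x, rfl, ha, hx⟩, by simp⟩
  have c2 := h3.c3 Y hY ⟨x, hx⟩
  by_cases hzx : z = x
  · subst hzx
    have : cut id (EG G) Y ⊆ Ex := fun e he => by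
      obtain ⟨g1, a, b, g2, g3, g4⟩ := mem_cut.1 he
      obtain rfl : e = s(a, b) := g2
      obtain rfl : b = z := by simpa using h2 a g3 b g4 (mk_mem_EG.1 g1)
      exact inx a g3 (mk_mem_EG.1 g1)
    have := card_le_card this
    omega
  have s1 : cut id (EG G) Y ⊆ Ex ∪ Ez := fun e he => by
    obtain ⟨g1, a, b, g2, g3, g4⟩ := mem_cut.1 he
    obtain rfl : e = s(a, b) := g2
    rcases h2 a g3 b g4 (mk_mem_EG.1 g1) with rfl | rfl
    · exact mem_union_left _ (inx a g3 (mk_mem_EG.1 g1))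
    · refine mem_union_right _ ?_
      rw [hEz, mem_inter]
      exact ⟨mem_cut_single.2 ⟨g1, by simp, nl_EG _ g1⟩, he⟩
  have s2 : cut id (EG G) (insert z Y) ⊆ Ex ∪ (cut id (EG G) {z} \ Ez) := fun e he => by
    obtain ⟨g1, a, b, g2, g3, g4⟩ := mem_cut.1 he
    obtain rfl : e = s(a, b) := g2
    have g5 : b ≠ z := fun h => g4 (Or.inl h)
    have g6 : b ∉ Y := fun h => g4 (Or.inr h)
    rcases g3 with rfl | g3
    · refine mem_union_right _ (mem_sdiff.2 ⟨mem_cut_single.2 ⟨g1, by simp, nl_EG _ g1⟩, ?_⟩)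
      rw [hEz, mem_inter]
      rintro ⟨-, h⟩
      rcases cr_mk.1 (mem_cut.1 h).2 with h | h
      · exact hz h.1
      · exact g6 h.1
    · obtain rfl : b = x := (h2 a g3 b g6 (mk_mem_EG.1 g1)).resolve_right g5
      exact mem_union_left _ (inx a g3 (mk_mem_EG.1 g1))
  have c3 := h3.c3 (insert z Y) ⟨z, Or.inl rfl⟩ ⟨x, fun h => h.elim (fun h => hzx h.symm) hx⟩
  have c4 := (card_le_card s1).trans (card_union_le _ _)
  have c5 := (card_le_card s2).trans (card_union_le _ _)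
  have c6 := card_sdiff_add_card_eq_card (s := Ez) (t := cut id (EG G) {z})
    (hEz ▸ inter_subset_left)
  have c7 : (cut id (EG G) {z}).card = 3 := h3.dg z
  omega

end F1a1x

open F1a1x in
theorem p_F1a1 (hFRE : S_FRE) :
    S_F1a1 := by
  intro V _ _ G Γ T O r x k z h3 hS hx hk hzk hbad
  obtain ⟨-, f2, f3, f4, -, f6⟩ := hFRE h3 hS
  have k0 : ∀ j, k ∈ Bl G O z j k := fun j =>
    mem_Bl.2 ⟨hk, hzk.symm, SimpleGraph.Walk.nil, by simp, by simp⟩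
  have key : ∀ j, j ≤ r → j + 1 ≤ (Bl G O z j k).card := by
    intro j
    induction j with
    | zero => exact fun _ => card_pos.2 ⟨k, k0 0⟩
    | succ j ih =>
      intro hj
      refine lt_of_le_of_lt (ih (by omega)) (card_lt_card ⟨fun w hw => ?_, fun hsub => ?_⟩)
      · obtain ⟨g1, g2, g3⟩ := mem_Bl.1 hw
        exact mem_Bl.2 ⟨g1, g2, g3.mono subset_rfl (by omega)⟩
      · refine closed h3 (Y := ↑(Bl G O z j k)) (x := x) (z := z) ⟨k, k0 j⟩
          (fun h => f3 x hx (mem_Bl.1 h).1) (fun h => (mem_Bl.1 h).2.1 rfl)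
          (fun a ha a' ha' g g' => f2 x hx a a' g.symm (f4 a (mem_Bl.1 ha).1 x).2 g'.symm
            (f4 a' (mem_Bl.1 ha').1 x).2) fun a ha b hb g => ?_
        obtain ⟨g1, g2, g3⟩ := mem_Bl.1 ha
        have g4 : OW G (↑O \ {z}) (j + 1) k b :=
          g3.trans ⟨g.toWalk, by simp, fun u hu => by
            simp only [SimpleGraph.Adj.toWalk, SimpleGraph.Walk.support_cons,
              SimpleGraph.Walk.support_nil, List.mem_cons, List.not_mem_nil, or_false] at hu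
            rcases hu with rfl | rfl
            · exact Or.inl ⟨g1, g2⟩
            · exact Or.inr rfl⟩ ⟨g1, g2⟩
        by_contra hcon
        rw [not_or] at hcon
        rcases f6 a g1 b g with h | h
        · exact hbad b h hcon.1 hcon.2 (g4.mono subset_rfl (by omega))
        · exact hb (hsub (mem_Bl.2 ⟨h, hcon.2, g4⟩))
  exact key r le_rfl

end Pool.Agent.P.MP_bb4f54_co.T3

end sF1a1

section sODA
/-! Step ODA. -/

set_option autoImplicit false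
set_option linter.unusedSectionVars false

namespace Pool.Agent.P.MP_bb4f54_co.T3

open Finset

namespace ODAx

variable {V ι : Type} [DecidableEq V] [DecidableEq ι] {en : ι → Sym2 V}

lemma odd_sdiff {A B : Finset ι} (h : B ⊆ A) (v : V) :
    Odd (dgr en (A \ B) v) ↔ ¬ (Odd (dgr en A v) ↔ Odd (dgr en B v)) := by
  have h1 := dgr_sdiff (en := en) h v
  simp only [Nat.odd_iff]
  omega

lemma odd_union {A B : Finset ι} (h : Disjoint A B) (v : V) :
    Odd (dgr en (A ∪ B) v) ↔ ¬ (Odd (dgr en A v) ↔ Odd (dgr en B v)) := by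
  rw [dgr_union h]
  simp only [Nat.odd_iff]
  omega

lemma odd_symm (A B : Finset ι) (v : V) :
    Odd (dgr en (symmDiff A B) v) ↔ ¬ (Odd (dgr en A v) ↔ Odd (dgr en B v)) := by
  have e : symmDiff A B = (A \ (A ∩ B)) ∪ (B \ (A ∩ B)) := by
    ext i; simp only [mem_symmDiff, mem_union, mem_sdiff, mem_inter]; tauto
  have hd : Disjoint (A \ (A ∩ B)) (B \ (A ∩ B)) := by
    rw [disjoint_left]
    intro i h1 h2
    simp only [mem_sdiff, mem_inter] at h1 h2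
    tauto
  rw [e, odd_union hd, odd_sdiff inter_subset_left, odd_sdiff inter_subset_right]
  tauto

lemma od_single {i : ι} {x y : V} (h : en i = s(x, y)) : Od en {i} x y := by
  intro v
  by_cases hc : v ∈ en i ∧ ¬ (en i).IsDiag
  · have e : cut en {i} {v} = {i} := by
      ext j
      simp only [mem_cut_single, mem_singleton]
      exact ⟨fun h' => h'.1, fun h' => ⟨h', h'.symm ▸ hc⟩⟩
    rw [h, Sym2.mem_iff, Sym2.mk_isDiag_iff] at hc
    simp only [dgr, e, card_singleton, odd_one, true_iff]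
    rintro ⟨h1, h2⟩
    rcases hc.1 with h3 | h3
    · exact hc.2 (h3.symm.trans (h1 h3))
    · exact hc.2 ((h2 h3).symm.trans h3)
  · have e : cut en {i} {v} = ∅ := by
      ext j
      simp only [mem_cut_single, mem_singleton, notMem_empty, iff_false]
      rintro ⟨rfl, h'⟩
      exact hc h'
    rw [h, Sym2.mem_iff, Sym2.mk_isDiag_iff] at hc
    simp only [dgr, e, card_empty, Nat.not_odd_zero, false_iff, not_not]
    constructor
    · intro h1
      by_contra h2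
      exact hc ⟨Or.inl h1, fun h3 => h2 (h1.trans h3)⟩
    · intro h1
      by_contra h2
      exact hc ⟨Or.inr h1, fun h3 => h2 (h1.trans h3.symm)⟩

lemma spt_left {A : Finset ι} {x y : V} (h : Od en A x y) (hxy : x ≠ y) : x ∈ spt en A := by
  refine mem_spt_of_dgr fun h0 => ?_
  have := (h x).2 (by simp [hxy])
  rw [h0] at this
  exact Nat.not_odd_zero this

end ODAx

open ODAx in
theorem p_ODA :
    S_ODA := by
  intro V ι _ _ en
  refine ⟨?_, ?_, ?_, ?_, ?_, fun i x y h => od_single h, ?_, ?_⟩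
  · intro A B x y z hd h1 h2 v
    rw [odd_union hd, h1 v, h2 v]; tauto
  · intro A B x y z hs h1 h2 v
    rw [odd_sdiff hs, h1 v, h2 v]; tauto
  · intro A B x y z h1 h2 v
    rw [odd_symm, h1 v, h2 v]; tauto
  · intro A B x y hs h1 h2 v
    have := Nat.not_odd_iff_even.2 (h2 v)
    rw [odd_sdiff hs, h1 v]; tauto
  · intro A B x y hs h1 h2 v
    have := Nat.not_odd_iff_even.2 (h1 v)
    rw [odd_sdiff hs, h2 v]; tauto
  · intro i x y h hxy
    refine ⟨od_single h, fun D hD hE => ?_⟩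
    rcases subset_singleton_iff.1 hD with rfl | rfl
    · rfl
    · exact absurd ((od_single h x).2 (by simp [hxy])) (Nat.not_odd_iff_even.2 (hE x))
  · intro A x y h hxy
    exact ⟨spt_left h hxy, spt_left h.symm hxy.symm⟩

end Pool.Agent.P.MP_bb4f54_co.T3

end sODA

section sRER
/-! Step RER. -/

set_option autoImplicit false
set_option linter.unusedSectionVars false

namespace Pool.Agent.P.MP_bb4f54_co.T3

open Finset

theorem p_RER (hPAR : S_PAR) (hODA : S_ODA) (hRCP : S_RCP) (hPD1 : S_PD1) (hARC : S_ARC) :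
    S_RER := by
  intro V ι _ _ _ en Γ A B x y hT hB hA
  obtain ⟨p1, p2, -⟩ := hPD1 en
  have hd : Disjoint (Γ \ B) A := (hA.dj.mono_right sdiff_subset).symm
  have e1 := fun v => dgr_union (en := en) hd v
  have e2 := fun v => dgr_sdiff (en := en) hB.2.1 v
  have a1 := p1 A x y hA.pth hA.ne
  have b1 := p1 B x y hB.1 hA.ne
  have hdeg : ∀ v, ((v ∉ spt en B ∨ v = x ∨ v = y) ∧ dgr en (Γ \ B ∪ A) v = dgr en Γ v) ∨
      (dgr en (Γ \ B ∪ A) v = 0 ∧ dgr en Γ v = 2) ∨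
      (dgr en (Γ \ B ∪ A) v = 2 ∧ dgr en Γ v = 0 ∧ v ∈ spt en A) := fun v => by
    have f1 := e1 v
    have f2 := e2 v
    by_cases hx : v = x
    · subst hx; exact Or.inl ⟨by simp, by omega⟩
    by_cases hy : v = y
    · subst hy; exact Or.inl ⟨by simp, by omega⟩
    by_cases hb : v ∈ spt en B
    · have g1 := p2 B x y v hB.1 hb hx hy
      have g2 := hB.2.2.2 v hb hx hy
      have g3 : dgr en A v = 0 := dgr_eq_zero fun ha =>
        (hA.sp v ha (spt_mono hB.2.1 hb)).elim hx hy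
      exact Or.inr (Or.inl ⟨by omega, g2⟩)
    have g1 := dgr_eq_zero hb
    by_cases ha : v ∈ spt en A
    · have g2 := p2 A x y v hA.pth ha hx hy
      have g3 : dgr en Γ v = 0 := dgr_eq_zero fun hg => (hA.sp v ha hg).elim hx hy
      exact Or.inr (Or.inr ⟨by omega, g3, ha⟩)
    · have g2 := dgr_eq_zero ha
      exact Or.inl ⟨Or.inl hb, by omega⟩
  have key : ∀ Y : Set V, ∃ Y' : Set V,
      (∀ v, (v ∉ spt en B ∨ v = x ∨ v = y) → (v ∈ Y' ↔ v ∈ Y)) ∧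
      (cut en Γ Y').card ≤ (cut en (Γ \ B ∪ A) Y).card := fun Y => by
    obtain ⟨Y', h1, -, h3, h4, h5, -⟩ := (hARC en Γ B x y hT.nl hB).2.2 Y
    refine ⟨Y', h1, ?_⟩
    rw [card_cut_union hd, ← card_cut_sdiff hB.2.1, h3]
    refine Nat.add_le_add_left ?_ _
    by_cases hxy : x ∈ Y ↔ y ∈ Y
    · simp [h4 hxy]
    · rw [(h5 hxy).2]
      exact (((hPAR en A).2.2.1 x y hA.pth.1 Y).2 hxy).pos
  refine ⟨fun i hi => ?_, fun v => ?_, ?_, fun Y ⟨u, hu, du⟩ ⟨w, hw, dw⟩ => ?_,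
    fun Y ⟨u, hu, du⟩ ⟨w, hw, dw⟩ => ?_⟩
  · exact (mem_union.1 hi).elim (fun h => hT.nl i (mem_sdiff.1 h).1) (hA.pth.2.nl i)
  · have := hT.dg v
    rcases hdeg v with h | h | h <;> omega
  · obtain ⟨v, hv⟩ := hT.br
    refine ⟨v, ?_⟩
    rcases hdeg v with h | h | h <;> omega
  · obtain ⟨Y', h1, h2⟩ := key Y
    have q : ∀ v, dgr en (Γ \ B ∪ A) v = 3 → (v ∈ Y' ↔ v ∈ Y) ∧ dgr en Γ v = 3 := fun v hv => by
      rcases hdeg v with h | h | h
      · exact ⟨h1 v h.1, by omega⟩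
      · omega
      · omega
    exact (hT.c3 Y' ⟨u, (q u du).1.2 hu, (q u du).2⟩
      ⟨w, fun h => hw ((q w dw).1.1 h), (q w dw).2⟩).trans h2
  · obtain ⟨Y', h1, h2⟩ := key Y
    by_contra hc
    rw [not_nonempty_iff_eq_empty] at hc
    have hcA : cut en A Y = ∅ := subset_empty.1 (hc ▸ cut_mono subset_union_right)
    have q : ∀ v, dgr en (Γ \ B ∪ A) v ≠ 0 → ∃ v', (v' ∈ Y' ↔ v ∈ Y) ∧ dgr en Γ v' ≠ 0 :=
      fun v hv => by
      rcases hdeg v with h | h | h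
      · exact ⟨v, h1 v h.1, by omega⟩
      · omega
      · have r := (hRCP en).2.2.2.1 A x y v hA.pth h.2.2
        refine ⟨x, (h1 x (by simp)).trans ⟨r.mem_of_cut hcA, r.symm'.mem_of_cut hcA⟩, ?_⟩
        have := e2 x
        omega
    obtain ⟨u', hu1, hu2⟩ := q u du
    obtain ⟨w', hw1, hw2⟩ := q w dw
    have := card_pos.2 (hT.c1 Y' ⟨u', hu1.2 hu, hu2⟩ ⟨w', fun h => hw (hw1.1 h), hw2⟩)
    rw [hc, card_empty] at h2
    omega

end Pool.Agent.P.MP_bb4f54_co.T3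

end sRER

section sRG0
/-! Step RG0. -/

set_option autoImplicit false
set_option linter.unusedSectionVars false

namespace Pool.Agent.P.MP_bb4f54_co.T3

open Finset

namespace RG0x

variable {V : Type} [Fintype V] [DecidableEq V] {G : SimpleGraph V} {Γ : Finset (Sym2 V)}
  {T O : Finset V} {R : ℕ} {σ : St V}

lemma spt_ins {A : Finset (Sym2 V)} {a b w : V} :
    w ∈ spt id (insert s(a, b) A) ↔ w = a ∨ w = b ∨ w ∈ spt id A := by
  simp [mem_spt, or_assoc]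

lemma rung (hODA : S_ODA) (hCAT : S_CAT) (hFRE : S_FRE) (hG : G3 G) (hS : Sk G Γ T O)
    (h : Ucl G Γ T O R σ) : Rung G Γ O σ.ry σ.x σ.y := by
  obtain ⟨-, -, h3, h4, -⟩ := hFRE hG hS
  refine ⟨?_, h.yx.symm, insert_subset (mk_mem_EG.2 h.adj) h.sA,
    disjoint_insert_left.2 ⟨h.fr, disjoint_left.2 fun e he => ?_⟩, fun w hw => ?_⟩
  · rw [St.ry, insert_eq]
    refine ((hCAT id).1 _ _ _ _ _ ((hODA id).2.2.2.2.2.2.1 _ _ _ rfl h.adj.ne) h.pA
      fun w hw hw' => ?_).2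
    rcases spt_ins.1 (show w ∈ spt id (insert s(σ.x, σ.k) ∅) from hw) with rfl | h1 | h1
    · exact ((h.iA _ hw').elim (h3 _ h.hx) h.yx.symm).elim
    · exact h1
    · simp at h1
  · induction e using Sym2.ind with
    | _ a b =>
      rcases h.iA a ⟨_, he, by simp⟩ with h1 | rfl
      · exact (h4 a h1 b).1
      rcases h.iA b ⟨_, he, by simp⟩ with h1 | rfl
      · exact (h4 b h1 _).2
      · exact (h.pA.2.nl _ he (by simp)).elim
  · rcases spt_ins.1 hw with h1 | rfl | h1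
    · exact .inr (.inl h1)
    · exact h.kind.imp (·.1) fun h1 => .inr h1.1
    · exact (h.iA w h1).imp_right .inr

end RG0x

open RG0x in
theorem p_RG0 (hODA : S_ODA) (hCAT : S_CAT) (hFRE : S_FRE) :
    S_RG0 := by
  intro V _ _ G Γ T O R σ hG hS h
  have h1 := rung hODA hCAT hFRE hG hS h
  have h2 : Rung G Γ O σ.rz σ.x σ.z := rung hODA hCAT hFRE hG hS h.sw
  have h3 : ∀ w ∈ σ.zn, w ∈ spt id σ.ry ∨ w ∈ spt id σ.rz := by
    rintro w (rfl | rfl | rfl | rfl | h3 | h3)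
    · exact .inl (spt_ins.2 (.inl rfl))
    · exact .inl (spt_ins.2 (.inr (.inl rfl)))
    · exact .inl ((hODA id).2.2.2.2.2.2.2 _ _ _ h1.pth.1 h1.ne).2
    · exact .inr ((hODA id).2.2.2.2.2.2.2 _ _ _ h2.pth.1 h2.ne).2
    · exact .inl (spt_ins.2 (.inr (.inr h3)))
    · exact .inr (spt_ins.2 (.inr (.inr h3)))
  refine ⟨h1, (card_insert_le _ _).trans (Nat.succ_le_succ h.cA), fun w hw => ?_, fun w hw => ?_,
    h3, fun e => ?_, fun e => h.kind.elim (·.1) fun h4 => (e (h4.1.symm.trans h4.2)).elim⟩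
  · have := spt_ins.1 hw
    simp only [St.zn, Set.mem_ofPred_eq]
    tauto
  · rcases h3 w hw with h4 | h4
    · have := h1.sp w h4
      tauto
    · have := h2.sp w h4
      tauto
  · have h4 := (h.kind.resolve_left fun h4 => h4.2.1 e).1
    have h5 := h.pA
    rw [h4] at h5
    exact ⟨h4, by rw [St.ry, h5.eq_empty, h4]; rfl⟩

end Pool.Agent.P.MP_bb4f54_co.T3

end sRG0

section sLAD
/-! Step LAD. -/

set_option autoImplicit false
set_option linter.unusedSectionVars false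

namespace Pool.Agent.P.MP_bb4f54_co.T3

open Finset

namespace LADx

variable {V ι : Type} [DecidableEq V] [DecidableEq ι] {en : ι → Sym2 V} {Γ : Finset ι}

theorem far {u w w' : V} {e g g' : ι} (h : Fk en Γ u e g g' w w') : g' ∈ cut en Γ {w'} := by
  have h1 : g' ∈ cut en Γ {u} := by rw [h.st]; simp
  obtain ⟨h2, -, h3⟩ := mem_cut_single.1 h1
  exact mem_cut_single.2 ⟨h2, by rw [h.e2]; simp, h3⟩

end LADx

theorem p_LAD (hGIR : S_GIR) (hLD1 : S_LD1) :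
    S_LAD := by
  intro V ι _ _ _ en Γ W ρ ua ub uc w₁ w₂ A C p a b c ga ga' gb gb' gc gc' hL fa fb fc hA hC y hy
  obtain ⟨l1, l2, l3⟩ := hLD1 hL fa fb fc hA hC
  obtain ⟨m1, m2, m3⟩ := hLD1 hL.s13 fc fb.swap fa hC hA
  have hp := hL.rz.rt.pos
  have hn : ∀ v, 0 ≤ PP en Γ p v := fun v => pp_nonneg hp
  have key : A = C →
      Tri en Γ W ρ p a b c (2 * PP en Γ p w₁ + 2 * PP en Γ p w₂ + PP en Γ p A / 2) := by
    rintro rfl
    have h3 : ({a, b, c} : Finset ι).card = 3 := by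
      rw [← hL.rz.rt.st]; exact hL.rz.rt.cub.dg ρ hL.rz.rt.hρ
    have ha : a ∈ Γ := cut_subset (show a ∈ cut en Γ {ρ} by rw [hL.rz.rt.st]; simp)
    have hc : c ∈ Γ := cut_subset (show c ∈ cut en Γ {ρ} by rw [hL.rz.rt.st]; simp)
    have hne : gc' ≠ ga' := by
      intro h
      have h1 : s(uc, A) = s(ua, A) := by rw [← fc.e2, h, fa.e2]
      have h2 : uc = ua := Sym2.congr_left.1 h1
      have h4 := (hGIR en Γ W hL.rz.rt.cub).2.2.2.1 (by have := hL.five; omega) a ha c hc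
        (by rw [hL.rz.ea, hL.rz.ec, h2])
      exact (ne_of_card_three h3).2.1 h4
    have h5 := pp_ge2 hp (LADx.far fc) (LADx.far fa) hne
    have h6 := hn A
    rcases le_total (p A gc') (p A ga') with h | h
    · exact (l3 rfl).mono (by linarith)
    · exact (m3 rfl).s13.mono (by linarith)
  rcases hy with rfl | rfl | rfl | rfl
  · exact l1.mono (by have := hn y; linarith)
  · by_cases h : y = C
    · exact key h
    · exact l2 h
  · exact m1.s13.mono (by have := hn y; linarith)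
  · by_cases h : A = y
    · rw [← h]; exact key h
    · exact (m2 (Ne.symm h)).s13.mono (by linarith)

end Pool.Agent.P.MP_bb4f54_co.T3

end sLAD

section sNEST
/-! Step NEST. -/

set_option autoImplicit false
set_option linter.unusedSectionVars false

namespace Pool.Agent.P.MP_bb4f54_co.T3

open Finset

theorem p_NEST (hSEG : S_SEG) (hNCR : S_NCR) (hSGC : S_SGC) (hUNQ : S_UNQ) :
    S_NEST := by
  intro V _ _ Γ v w n m i Y Y' hT hv hw hd hY hY' h0 h0' hn hn' hi h1 h2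
  have s1 := (hSGC Γ w m Y hT hY ⟨_, h0, hv.d0⟩ ⟨_, hn, hv.d1⟩ hw.sg).1
  have s2 := (hSGC Γ w m Y' hT hY' ⟨_, h0', hv.d0⟩ ⟨_, hn', hv.d1⟩ hw.sg).1
  have E1 : w 0 ∉ Y ∨ w m ∉ Y := by
    by_contra h
    push Not at h
    exact h1 ((s1 (iff_of_true h.1 h.2) i hi).2 h.1)
  have E2 : w 0 ∈ Y' ∨ w m ∈ Y' := by
    by_contra h
    push Not at h
    exact h.1 ((s2 (iff_of_false h.1 h.2) i hi).1 h2)
  have Av := ((hSEG Γ v n hv.sg).2.1 0 n hv.pos le_rfl).1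
  have Aw := ((hSEG Γ w m hw.sg).2.1 0 m hw.pos le_rfl).1
  by_cases hc : (w 0 ∈ Y' ∧ w 0 ∉ Y) ∨ (w m ∈ Y' ∧ w m ∉ Y)
  · refine ⟨fun u hu huY => ?_, Or.inr hc⟩
    by_contra hu'
    rcases hc with h | h
    · exact hNCR id Γ Y Y' _ u _ _ hT hY hY' hv.d0 hu hw.d0 hv.d1 h0 h0' huY hu' h.2 h.1 hn hn'
    · exact hNCR id Γ Y Y' _ u _ _ hT hY hY' hv.d0 hu hw.d1 hv.d1 h0 h0' huY hu' h.2 h.1 hn hn'
  · push Not at hc
    have key : (∀ u, dgr id Γ u = 3 → (u ∈ Y ↔ u ∈ Y')) ∧ ¬ (w 0 ∈ Y ↔ w m ∈ Y) := by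
      rcases E2 with h | h
      · have a1 := hc.1 h
        have a2 : w m ∉ Y := E1.resolve_left (not_not.2 a1)
        exact ⟨hUNQ id Γ _ _ Y Y' _ _ _ _ _ hT hY hY' Av Aw hd h0 h0' a1 h hn hn' a2
          (fun e => a2 (hc.2 e)) hv.d0 (iff_of_true h0 h0'), fun e => a2 (e.1 a1)⟩
      · have a1 := hc.2 h
        have a2 : w 0 ∉ Y := E1.resolve_right (not_not.2 a1)
        exact ⟨hUNQ id Γ _ _ Y Y' _ _ _ _ _ hT hY hY' Av Aw.symm hd h0 h0' a1 h hn hn' a2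
          (fun e => a2 (hc.1 e)) hv.d0 (iff_of_true h0 h0'), fun e => a2 (e.2 a1)⟩
    exact ⟨fun u hu => (key.1 u hu).1, Or.inl key⟩

end Pool.Agent.P.MP_bb4f54_co.T3

end sNEST

section sMN0
/-! Step MN0. -/

set_option autoImplicit false
set_option linter.unusedSectionVars false

namespace Pool.Agent.P.MP_bb4f54_co.T3

open Finset

theorem p_MN0 :
    S_MN0 := by
  intro V _ _ G S Γ g3 tc sub h1 h2 hne
  classical
  obtain ⟨Γ₀, m1, m2⟩ := Finset.exists_min_image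
    (univ.filter fun Γ' : Finset (Sym2 V) => TC id Γ' ∧ Γ' \ Fi G S = Γ \ Fi G S) card
    ⟨Γ, by simp [tc]⟩
  simp only [mem_filter, mem_univ, true_and] at m1 m2
  have keep : ∀ e, e ∉ Fi G S → (e ∈ Γ₀ ↔ e ∈ Γ) := fun e he => by
    have := congrArg (e ∈ ·) m1.2
    simpa [he] using this
  have out : ∀ e w, w ∈ e → w ∉ S → e ∉ Fi G S := fun e w a b c =>
    b ((mem_ins.1 c).2 w a)
  refine ⟨Γ₀, ⟨g3, m1.1, fun e he => ?_, fun e he => ?_, fun u hu w hw a => ?_, hne,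
    fun Γ' a b => m2 Γ' ⟨a, b.trans m1.2⟩⟩, m1.2⟩
  · by_cases c : e ∈ Fi G S
    · exact ins_subset c
    · exact sub ((keep e c).1 he)
  · obtain ⟨a, x, y, e1, hx, hy⟩ := mem_cut.1 he
    simp only [id] at e1
    have c : cut id Γ {x} = cut id (EG G) {x} :=
      eq_of_subset_of_card_le (cut_mono sub) (le_of_eq ((g3.dg x).trans (h1 x hx).symm))
    have d : e ∈ cut id (EG G) {x} := mem_cut_single.2 ⟨a, by simp [e1], nl_EG e a⟩
    exact (keep e (out e y (by simp [e1]) hy)).2 (cut_subset (c ▸ d))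
  · have c : cut id Γ₀ {w} = cut id Γ {w} := by
      ext e
      simp only [mem_cut_single]
      exact ⟨fun x => ⟨(keep e (out e w x.2.1 hw)).1 x.1, x.2⟩,
        fun x => ⟨(keep e (out e w x.2.1 hw)).2 x.1, x.2⟩⟩
    rw [dgr, c]
    exact h2 u hu w a

end Pool.Agent.P.MP_bb4f54_co.T3

end sMN0
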