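import Pool.Agent.P.MP_bb4f54_co.T3.Iface3

/-! Statements: valid ports, diamonds, the unused part of a region. -/

set_option autoImplicit false
set_option linter.unusedSectionVars false

namespace Pool.Agent.P.MP_bb4f54_co.T3

open Finset

section defs

variable {V : Type}

/-- A port `x`, its free neighbour `k`, and two legs from `k` to `y` and `z`. -/
structure St (V : Type) where
  x : V
  k : V
  y : V
  z : V
  A : Finset (Sym2 V)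
  B : Finset (Sym2 V)

/-- The two legs exchanged. -/
def St.sw (σ : St V) : St V := ⟨σ.x, σ.k, σ.z, σ.y, σ.B, σ.A⟩

/-- The vertices of the structure. -/
def St.zn (σ : St V) : Set V :=
  {w | w = σ.x ∨ w = σ.k ∨ w = σ.y ∨ w = σ.z ∨ w ∈ spt id σ.A ∨ w ∈ spt id σ.B}

/-- A walk of length at most `l` from `a` to `b` with all vertices but `b` in `X`. -/
def OW (G : SimpleGraph V) (X : Set V) (l : ℕ) (a b : V) : Prop :=
  ∃ w : G.Walk a b, w.length ≤ l ∧ ∀ u ∈ w.support, u ∈ X ∨ u = b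

/-- One vertex meets all short walks from `k` to the other ports. -/
def Bad (G : SimpleGraph V) (T O : Finset V) (l : ℕ) (x k : V) : Prop :=
  ∃ z, z ≠ k ∧ ∀ y ∈ T, y ≠ x → y ≠ z → ¬ OW G (↑O \ {z}) l k y

/-- `y` comes after `x` on the same thread. -/
def Aft (v : V → ℕ → V) (pos : V → ℕ) (x y : V) : Prop := v y = v x ∧ pos x < pos y

lemma OW.mono {G : SimpleGraph V} {X X' : Set V} {l l' : ℕ} {a b : V} (h : OW G X l a b)
    (hX : X ⊆ X') (hl : l ≤ l') : OW G X' l' a b :=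
  let ⟨w, h1, h2⟩ := h
  ⟨w, h1.trans hl, fun u hu => (h2 u hu).imp (fun h => hX h) id⟩

lemma OW.trans {G : SimpleGraph V} {X : Set V} {l l' : ℕ} {a b c : V} (h : OW G X l a b)
    (h' : OW G X l' b c) (hb : b ∈ X) : OW G X (l + l') a c := by
  obtain ⟨w, h1, h2⟩ := h
  obtain ⟨w', h3, h4⟩ := h'
  refine ⟨w.append w', by rw [SimpleGraph.Walk.length_append]; omega, fun u hu => ?_⟩
  rcases (SimpleGraph.Walk.mem_support_append_iff _ _).1 hu with hu | hu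
  · rcases h2 u hu with h | h
    · exact Or.inl h
    · exact Or.inl (h ▸ hb)
  · exact h4 u hu

variable [DecidableEq V]

/-- The rung from `x` to `y`. -/
def St.ry (σ : St V) : Finset (Sym2 V) := insert s(σ.x, σ.k) σ.A

/-- The rung from `x` to `z`. -/
def St.rz (σ : St V) : Finset (Sym2 V) := insert s(σ.x, σ.k) σ.B

variable [Fintype V]

/-- A skeleton `Γ` with vertices `T` of degree two and unused vertices `O`. -/
structure Sk (G : SimpleGraph V) (Γ : Finset (Sym2 V)) (T O : Finset V) : Prop where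
  sub : Γ ⊆ EG G
  dT : ∀ x ∈ T, dgr id Γ x = 2
  dO : ∀ k ∈ O, dgr id Γ k = 0
  cl : ∀ x, x ∈ T ∨ x ∈ O → ∀ y, G.Adj x y → s(x, y) ∉ Γ → y ∈ T ∨ y ∈ O

/-- A path outside the skeleton through unused vertices. -/
structure Rung (G : SimpleGraph V) (Γ : Finset (Sym2 V)) (O : Finset V) (A : Finset (Sym2 V))
    (x y : V) : Prop where
  pth : Pth id A x y
  ne : x ≠ y
  sub : A ⊆ EG G
  dj : Disjoint A Γ
  sp : ∀ w ∈ spt id A, w ∈ O ∨ w = x ∨ w = y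

/-- A short claw, or a chord. -/
structure Ucl (G : SimpleGraph V) (Γ : Finset (Sym2 V)) (T O : Finset V) (R : ℕ) (σ : St V) :
    Prop where
  hx : σ.x ∈ T
  hy : σ.y ∈ T
  hz : σ.z ∈ T
  yx : σ.y ≠ σ.x
  zx : σ.z ≠ σ.x
  adj : G.Adj σ.x σ.k
  fr : s(σ.x, σ.k) ∉ Γ
  pA : Pth id σ.A σ.k σ.y
  pB : Pth id σ.B σ.k σ.z
  sA : σ.A ⊆ EG G
  sB : σ.B ⊆ EG G
  cA : σ.A.card ≤ R
  cB : σ.B.card ≤ R
  iA : ∀ w ∈ spt id σ.A, w ∈ O ∨ w = σ.y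
  iB : ∀ w ∈ spt id σ.B, w ∈ O ∨ w = σ.z
  kind : (σ.k ∈ O ∧ σ.y ≠ σ.z ∧ ∀ w ∈ spt id σ.A, w ∈ spt id σ.B → w = σ.k) ∨
    (σ.k = σ.y ∧ σ.k = σ.z)

/-- A valid port. -/
def Val (G : SimpleGraph V) (Γ : Finset (Sym2 V)) (T O : Finset V) (v : V → ℕ → V) (pos : V → ℕ)
    (R : ℕ) (x : V) : Prop :=
  ∃ σ : St V, Ucl G Γ T O R σ ∧ σ.x = x ∧ (σ.y = σ.z ∨
    (¬ (Aft v pos x σ.y ∧ Aft v pos x σ.z) ∧ ¬ (Aft v pos σ.y x ∧ Aft v pos σ.z x)))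

open Classical in
/-- The ball of radius `r` around `k` in `O` without `z`. -/
noncomputable def Bl (G : SimpleGraph V) (O : Finset V) (z : V) (r : ℕ) (k : V) : Finset V :=
  O.filter (fun w => w ≠ z ∧ OW G (↑O \ {z}) r k w)

/-- Four routes from `s` to `t` through `U` whose lengths satisfy the identity. -/
def Dia (G : SimpleGraph V) (U : Set V) (s t : V) : Prop :=
  s ≠ t ∧ ∃ R : Fin 4 → Finset (Sym2 V),
    (∀ j, Pth id (R j) s t ∧ R j ⊆ EG G ∧ s(s, t) ∉ R j ∧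
      ∀ w ∈ spt id (R j), w ∈ U ∨ w = s ∨ w = t) ∧
    (R 0).card + (R 1).card = (R 2).card + (R 3).card + 2

/-- A port of `O`. -/
def Po (G : SimpleGraph V) (O : Finset V) (a : V) : Prop := a ∈ O ∧ ∃ t, t ∉ O ∧ G.Adj a t

/-- A diamond inside `O`. -/
def DO (G : SimpleGraph V) (O : Finset V) : Prop :=
  ∃ s t, s ∉ O ∧ t ∉ O ∧ (∃ a ∈ O, G.Adj a s) ∧ (∃ b ∈ O, G.Adj b t) ∧ Dia G ↑O s t

/-- `Φ` with the edges that leave `O`. -/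
noncomputable def Sg (G : SimpleGraph V) (O : Finset V) (Φ : Finset (Sym2 V)) :
    Finset (Sym2 V) := Φ ∪ cut id (EG G) ↑O

/-- `Φ` is a smallest set of edges inside `O` that joins the ports. -/
structure Al (G : SimpleGraph V) (O : Finset V) (Φ : Finset (Sym2 V)) : Prop where
  g3 : G3 G
  un : ∀ t, t ∉ O → dgr id (cut id (EG G) ↑O) t ≤ 1
  ne : ∃ t, t ∉ O
  sub : Φ ⊆ ins id (EG G) ↑O
  con : ∀ a b, Po G O a → Po G O b → Rc id (ins id (EG G) ↑O) a b → Rc id Φ a b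
  mn : ∀ Φ' ⊆ ins id (EG G) ↑O,
    (∀ a b, Po G O a → Po G O b → Rc id (ins id (EG G) ↑O) a b → Rc id Φ' a b) →
      Φ.card ≤ Φ'.card

variable {G : SimpleGraph V} {Γ A : Finset (Sym2 V)} {T O : Finset V} {R R' : ℕ} {σ : St V}
  {U U' : Set V} {s t x y : V}

lemma Ucl.sw (h : Ucl G Γ T O R σ) : Ucl G Γ T O R σ.sw :=
  ⟨h.hx, h.hz, h.hy, h.zx, h.yx, h.adj, h.fr, h.pB, h.pA, h.sB, h.sA, h.cB, h.cA, h.iB, h.iA,
    h.kind.imp (fun ⟨a, b, c⟩ => ⟨a, b.symm, fun w h1 h2 => c w h2 h1⟩) And.symm⟩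

lemma Ucl.mono (h : Ucl G Γ T O R σ) (hR : R ≤ R') : Ucl G Γ T O R' σ :=
  { h with cA := h.cA.trans hR, cB := h.cB.trans hR }

lemma St.zn_sw : σ.sw.zn = σ.zn := by
  ext w; simp only [St.zn, St.sw, Set.mem_ofPred_eq]; tauto

lemma St.ry_sw : σ.sw.ry = σ.rz := rfl

lemma St.rz_sw : σ.sw.rz = σ.ry := rfl

lemma Rung.symm (h : Rung G Γ O A x y) : Rung G Γ O A y x :=
  ⟨h.pth.symm, h.ne.symm, h.sub, h.dj, fun w hw => (h.sp w hw).imp id Or.symm⟩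

lemma Dia.mono (h : Dia G U s t) (hU : ∀ w ∈ U, w ∈ U' ∨ w = s ∨ w = t) : Dia G U' s t :=
  let ⟨h0, R, h1, h2⟩ := h
  ⟨h0, R, fun j => ⟨(h1 j).1, (h1 j).2.1, (h1 j).2.2.1, fun w hw =>
    ((h1 j).2.2.2 w hw).elim (hU w) Or.inr⟩, h2⟩

lemma Dia.symm (h : Dia G U s t) : Dia G U t s :=
  let ⟨h0, R, h1, h2⟩ := h
  ⟨h0.symm, R, fun j => ⟨(h1 j).1.symm, (h1 j).2.1, Sym2.eq_swap ▸ (h1 j).2.2.1, fun w hw =>
    ((h1 j).2.2.2 w hw).imp id Or.symm⟩, h2⟩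

end defs

-- deps:
/-- The free edge at a port. -/
def S_FRE : Prop := ∀ {V : Type} [Fintype V] [DecidableEq V] {G : SimpleGraph V}
  {Γ : Finset (Sym2 V)} {T O : Finset V}, G3 G → Sk G Γ T O →
    (∀ x ∈ T, ∃ k, G.Adj x k ∧ s(x, k) ∉ Γ) ∧
    (∀ x ∈ T, ∀ k k', G.Adj x k → s(x, k) ∉ Γ → G.Adj x k' → s(x, k') ∉ Γ → k = k') ∧
    (∀ x ∈ T, x ∉ O) ∧ (∀ a ∈ O, ∀ b, s(a, b) ∉ Γ ∧ s(b, a) ∉ Γ) ∧
    (∀ a ∈ O, a ∉ spt id Γ) ∧ ∀ a ∈ O, ∀ b, G.Adj a b → b ∈ T ∨ b ∈ O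

-- deps: ODA CAT FRE
/-- The rungs of a structure. -/
def S_RG0 : Prop := ∀ {V : Type} [Fintype V] [DecidableEq V] {G : SimpleGraph V}
  {Γ : Finset (Sym2 V)} {T O : Finset V} {R : ℕ} {σ : St V}, G3 G → Sk G Γ T O →
    Ucl G Γ T O R σ → Rung G Γ O σ.ry σ.x σ.y ∧ σ.ry.card ≤ R + 1 ∧
      (∀ w ∈ spt id σ.ry, w ∈ σ.zn) ∧ (∀ w ∈ σ.zn, w ∈ O ∨ w = σ.x ∨ w = σ.y ∨ w = σ.z) ∧
      (∀ w ∈ σ.zn, w ∈ spt id σ.ry ∨ w ∈ spt id σ.rz) ∧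
      (σ.y = σ.z → σ.k = σ.y ∧ σ.ry = {s(σ.x, σ.y)}) ∧ (σ.y ≠ σ.z → σ.k ∈ O)

-- deps: FRE
/-- The ball of a bad port is large. -/
def S_F1a1 : Prop := ∀ {V : Type} [Fintype V] [DecidableEq V] {G : SimpleGraph V}
  {Γ : Finset (Sym2 V)} {T O : Finset V} (r : ℕ) (x k z : V), G3 G → Sk G Γ T O → x ∈ T → k ∈ O →
    z ≠ k → (∀ y ∈ T, y ≠ x → y ≠ z → ¬ OW G (↑O \ {z}) (2 * r + 1) k y) →
      r + 1 ≤ (Bl G O z r k).card

-- deps: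
/-- No vertex lies in three balls. -/
def S_F1a2 : Prop := ∀ {V : Type} [Fintype V] [DecidableEq V] {G : SimpleGraph V}
  {T O : Finset V} (r : ℕ) (x k z : Fin 3 → V) (w : V), (∀ u ∈ T, u ∉ O) →
    Function.Injective x → (∀ i, x i ∈ T ∧ k i ∈ O ∧ G.Adj (x i) (k i) ∧
      (∀ y ∈ T, y ≠ x i → y ≠ z i → ¬ OW G (↑O \ {z i}) (2 * r + 1) (k i) y) ∧
      w ∈ Bl G O (z i) r (k i)) → False

-- deps: FRE F1a1 F1a2
/-- Few ports are bad. -/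
def S_F1a : Prop := ∀ {V : Type} [Fintype V] [DecidableEq V] {G : SimpleGraph V}
  {Γ : Finset (Sym2 V)} {T O : Finset V} (r : ℕ) (P : Finset V), G3 G → Sk G Γ T O →
    (∀ x ∈ P, x ∈ T ∧ ∃ k ∈ O, G.Adj x k ∧ Bad G T O (2 * r + 1) x k) →
      (r + 1) * P.card ≤ 2 * O.card

-- deps: SM WLK ODA CAT FRE
/-- A port that is not bad has a short claw. -/
def S_F1b : Prop := ∀ {V : Type} [Fintype V] [DecidableEq V] {G : SimpleGraph V}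
  {Γ : Finset (Sym2 V)} {T O : Finset V} (l : ℕ) (x k : V), G3 G → Sk G Γ T O → x ∈ T → k ∈ O →
    G.Adj x k → ¬ Bad G T O l x k →
      ∃ σ : St V, Ucl G Γ T O ((l + 1) ^ 2) σ ∧ σ.x = x ∧ σ.k = k

-- deps: ODA SPP CAT WLK
/-- A new end for a claw. -/
def S_F1c : Prop := ∀ {V : Type} [Fintype V] [DecidableEq V] {G : SimpleGraph V}
  {Γ : Finset (Sym2 V)} {T O : Finset V} (R L : ℕ) (σ : St V) (t : V), (∀ u ∈ T, u ∉ O) →
    Ucl G Γ T O R σ → σ.k ∈ O → t ∈ T → t ≠ σ.x → OW G ↑O L σ.k t →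
      t = σ.y ∨ t = σ.z ∨ ∃ σ' : St V, Ucl G Γ T O (R + L) σ' ∧ σ'.x = σ.x ∧ σ'.k = σ.k ∧
        ((σ'.y = t ∧ σ'.z = σ.z) ∨ (σ'.y = σ.y ∧ σ'.z = t))

-- deps: WLK
/-- Short walks inside a claw. -/
def S_F1d : Prop := ∀ {V : Type} [Fintype V] [DecidableEq V] {G : SimpleGraph V}
  {Γ : Finset (Sym2 V)} {T O : Finset V} (R : ℕ) (σ : St V), (∀ u ∈ T, u ∉ O) →
    Ucl G Γ T O R σ → σ.k ∈ O → ∃ a ∈ O, G.Adj σ.y a ∧ OW G ↑O R a σ.x ∧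
      OW G ↑O (2 * R) a σ.z ∧ OW G ↑O R σ.k a ∧ OW G ↑O R σ.k σ.y ∧ OW G ↑O R σ.k σ.z

-- deps: FRE F1d
/-- One-sided ports inject into two-sided ports. -/
def S_F1e : Prop := ∀ {V β : Type} [Fintype V] [DecidableEq V] {G : SimpleGraph V}
  {Γ : Finset (Sym2 V)} {T O : Finset V} (R : ℕ) (th : V → β) (p : V → ℤ) (Q W : Finset V),
    G3 G → Sk G Γ T O → (∀ x ∈ T, ∀ y ∈ T, th x = th y → p x = p y → x = y) →
    (∀ x ∈ Q, ∃ σ : St V, Ucl G Γ T O R σ ∧ σ.x = x ∧ σ.k ∈ O ∧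
      ∀ t ∈ T, t ≠ x → OW G ↑O (2 * R) σ.k t → th t = th x ∧ p x < p t) →
    (∀ y ∈ T, ∀ a ∈ O, ∀ t ∈ T, ∀ t' ∈ T, G.Adj y a → OW G ↑O (2 * R) a t →
      OW G ↑O (2 * R) a t' → th t = th y → th t' = th y → p t < p y → p y < p t' → y ∈ W) →
      Q.card ≤ W.card

-- deps: TDF FRE F1a F1b F1c F1e
/-- Many ports are valid. -/
def S_F1 : Prop := ∀ r : ℕ, ∃ R : ℕ, ∀ {V : Type} [Fintype V] [DecidableEq V] {G : SimpleGraph V}
  {Γ : Finset (Sym2 V)} {T O : Finset V} {v : V → ℕ → V} {n pos : V → ℕ}, G3 G → Sk G Γ T O →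
    TDS Γ v n pos → ∃ P ⊆ T, (∀ x ∈ P, Val G Γ T O v pos R x) ∧
      (r + 1) * T.card ≤ 3 * (r + 1) * P.card + 6 * O.card

-- deps: ODA CAT WLK
/-- An edge between two connected sets gives a diamond. -/
def S_DIA : Prop := ∀ {V : Type} [Fintype V] [DecidableEq V] (G : SimpleGraph V) (LA LB : Set V)
  (x k s t : V), G.Adj x k → Disjoint LA LB → x ∉ LA → x ∉ LB → k ∉ LA → k ∉ LB → s ∉ LB →
    t ∉ LA → s ≠ t → s ≠ x → s ≠ k → t ≠ x → t ≠ k → Via G LA x s → Via G LA k s → Via G LB x t →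
    Via G LB k t → Dia G {w | w ∈ LA ∨ w ∈ LB ∨ w = x ∨ w = k} s t

-- deps: ODA RCP CY1
/-- The joining set is a forest and every side of an edge has a port. -/
def S_A1a : Prop := ∀ {V : Type} [Fintype V] [DecidableEq V] {G : SimpleGraph V} {O : Finset V}
  {Φ : Finset (Sym2 V)}, Al G O Φ → Acy id (Sg G O Φ) ∧
    (∀ a b, s(a, b) ∈ Φ → ∃ p, Po G O p ∧ Rc id (Φ.erase s(a, b)) a p) ∧
    Sg G O Φ ⊆ EG G ∧ Disjoint Φ (cut id (EG G) ↑O) ∧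
    (∀ a ∈ O, ∀ b ∈ O, s(a, b) ∈ Sg G O Φ → s(a, b) ∈ Φ) ∧
    (∀ a b, a ∈ O → Rc id Φ a b → b ∈ O) ∧
    ∀ t, t ∉ O → dgr id (Sg G O Φ) t ≤ 1

-- deps: A1a
/-- Degrees and connections in the forest. -/
def S_A1b : Prop := ∀ {V : Type} [Fintype V] [DecidableEq V] {G : SimpleGraph V} {O : Finset V}
  {Φ : Finset (Sym2 V)}, Al G O Φ → (∀ u ∈ O, dgr id (Sg G O Φ) u ≠ 1) ∧
    ∀ a ∈ O, ∀ b ∈ O, dgr id (Sg G O Φ) a ≠ 0 → dgr id (Sg G O Φ) b ≠ 0 →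
      Rc id (ins id (EG G) ↑O) a b → Rc id Φ a b

-- deps: VIA DIA
/-- From ports to the outside. -/
def S_A9 : Prop := ∀ {V : Type} [Fintype V] [DecidableEq V] {G : SimpleGraph V} {O : Finset V}
  {Φ : Finset (Sym2 V)} (LA LB : Set V) (x k a b : V), Al G O Φ → x ∈ O → k ∈ O → G.Adj x k →
    LA ⊆ ↑O → LB ⊆ ↑O → Disjoint LA LB → x ∉ LA → x ∉ LB → k ∉ LA → k ∉ LB → a ∈ LA → b ∈ LB →
    Po G O a → Po G O b → Via G LA x a → Via G LA k a → Via G LB x b → Via G LB k b → DO G O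

-- deps: RCP SPP PD1 CY1 VIA A1a A1b A9
-- imports: Pool.Agent.P.MP_bb4f54_co.Tr.St
/-- A cycle among the vertices that the forest does not use gives a diamond. -/
def S_A4 : Prop := ∀ {V : Type} [Fintype V] [DecidableEq V] {G : SimpleGraph V} {O R : Finset V}
  {Φ : Finset (Sym2 V)}, Al G O Φ → (∀ u, u ∈ R ↔ u ∈ O ∧ dgr id (Sg G O Φ) u = 0) →
    Acy id (ins id (EG G) ↑R) ∨ DO G O

-- deps: PAR FOR A1a A1b
/-- Counting in the forest. -/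
def S_A5 : Prop := ∀ {V : Type} [Fintype V] [DecidableEq V] {G : SimpleGraph V}
  {O T R : Finset V} {Φ : Finset (Sym2 V)}, Al G O Φ →
    (∀ u, u ∈ T ↔ u ∈ O ∧ dgr id (Sg G O Φ) u = 2) →
    (∀ u, u ∈ R ↔ u ∈ O ∧ dgr id (Sg G O Φ) u = 0) →
      Sk G (Sg G O Φ) T R ∧ O.card ≤ (cut id (EG G) ↑O).card + T.card + R.card ∧
      (Acy id (ins id (EG G) ↑R) → R.card ≤ T.card) ∧
      ∃ E : Finset V, (∀ a, dgr id (Sg G O Φ) a ≠ 0 → dgr id (Sg G O Φ) a ≠ 2 → a ∈ E) ∧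
        ∑ a ∈ E, dgr id (Sg G O Φ) a ≤ 4 * (cut id (EG G) ↑O).card

-- deps: ODA RCP PD1 ARC SEG SWP A1a A1b
/-- Short rungs at deep vertices of the forest are local. -/
def S_A7 : Prop := ∀ {V : Type} [Fintype V] [DecidableEq V] {G : SimpleGraph V}
  {O R : Finset V} {Φ A : Finset (Sym2 V)} {v : V → ℕ → V} {n pos : V → ℕ} (x y : V), Al G O Φ →
    TDS (Sg G O Φ) v n pos → R ⊆ O → dgr id (Sg G O Φ) x = 2 → dgr id (Sg G O Φ) y = 2 →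
    Rung G (Sg G O Φ) R A x y → A.card + 1 ≤ pos x → pos x + A.card + 1 ≤ n x →
      v y = v x ∧ pos y ≤ pos x + A.card ∧ pos x ≤ pos y + A.card

-- deps: ODA CY1 SEG TDF VIA A1a A9
/-- A claw with ends on both sides of its port gives a diamond. -/
def S_A8 : Prop := ∀ {V : Type} [Fintype V] [DecidableEq V] {G : SimpleGraph V}
  {O T R : Finset V} {Φ : Finset (Sym2 V)} {v : V → ℕ → V} {n pos : V → ℕ} {D : ℕ} (σ : St V),
    Al G O Φ → TDS (Sg G O Φ) v n pos → Sk G (Sg G O Φ) T R → R ⊆ O →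
    Ucl G (Sg G O Φ) T R D σ → σ.k ∈ R → Aft v pos σ.y σ.x → Aft v pos σ.x σ.z → DO G O

-- deps: SEG TD TDF TDC RG0 F1 A1a A4 A5 A7 A8
/-- The unused part contains a diamond or is small. -/
def S_ALP : Prop := ∃ C : ℕ, ∀ {V : Type} [Fintype V] [DecidableEq V] (G : SimpleGraph V)
  (O : Finset V), G3 G → (∀ t, t ∉ O → dgr id (cut id (EG G) ↑O) t ≤ 1) → (∃ t, t ∉ O) →
    DO G O ∨ O.card ≤ C * (cut id (EG G) ↑O).card

end Pool.Agent.P.MP_bb4f54_co.T3
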