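import Pool.Agent.P.MP_bb4f54_co.T3.Iface2
import Pool.Agent.P.MP_bb4f54_co.T3.Iface1
import Pool.Agent.P.MP_bb4f54_co.T3.Iface6
import Pool.Agent.P.MP_bb4f54_co.T3.Iface3
import Pool.Agent.P.MP_bb4f54_co.T3.Iface7

section sK4
/-! Step K4. -/

set_option autoImplicit false
set_option linter.unusedSectionVars false

namespace Pool.Agent.P.MP_bb4f54_co.T3

open Finset

namespace K4x

variable {V ι : Type} [Fintype V] [DecidableEq V] [DecidableEq ι] {en : ι → Sym2 V}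
  {Γ Z : Finset ι} {W : Finset V} {ρ ua ub uc : V} {p : V → ι → ℝ} {a b c : ι}

lemma mem_star {i : ι} {x y : V} (hi : i ∈ Z) (e : en i = s(x, y)) (h : x ≠ y) :
    i ∈ cut en Z {x} ∧ i ∈ cut en Z {y} := by
  constructor <;> rw [mem_cut_single, e] <;> simp [hi, h]

lemma four (hCY1 : S_CY1) {i j k l : ι} {v₀ v₁ v₂ v₃ : V} (ei : en i = s(v₀, v₁))
    (ej : en j = s(v₁, v₂)) (ek : en k = s(v₂, v₃)) (el : en l = s(v₀, v₃))
    (h01 : v₀ ≠ v₁) (h02 : v₀ ≠ v₂) (h03 : v₀ ≠ v₃) (h12 : v₁ ≠ v₂) (h13 : v₁ ≠ v₃)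
    (h23 : v₂ ≠ v₃) (hi : i ∈ Γ) (hj : j ∈ Γ) (hk : k ∈ Γ) (hl : l ∈ Γ) :
    ∃ Z ⊆ Γ, Cy en Z ∧ i ∈ Z ∧ j ∈ Z ∧ k ∈ Z ∧ l ∈ Z := by
  have nj : j ≠ i := by
    rintro rfl
    have := ei.symm.trans ej
    simp [h01, h02] at this
  have nk : k ≠ i := by
    rintro rfl
    have := ei.symm.trans ek
    simp [h02, h03] at this
  have nl : l ≠ i := by
    rintro rfl
    have := ei.symm.trans el
    simp [h13, h03] at this
  have hr : Rc en (({i, j, k, l} : Finset ι).erase i) v₀ v₁ :=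
    ((Rc.step (i := l) (by simp [nl]) el).trans'
      (Rc.step (i := k) (by simp [nk]) ek).symm').trans'
      (Rc.step (i := j) (by simp [nj]) ej).symm'
  obtain ⟨Z, hZ, hc, m1⟩ := (hCY1 en).2.1 {i, j, k, l} i v₀ v₁ (by simp) ei hr
  have force := fun i' j' v => (hCY1 en).2.2.2.1 {i, j, k, l} Z i' j' v hc.2.1 hZ
  have m2 : j ∈ Z := force i j v₁ m1 (mem_star (by simp) ei h01).2 fun t ht => by
    rw [mem_cut_single] at ht
    obtain ⟨h1, h2, -⟩ := ht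
    simp only [mem_insert, mem_singleton] at h1 ⊢
    rcases h1 with rfl | rfl | rfl | rfl
    · exact Or.inl rfl
    · exact Or.inr rfl
    · rw [ek] at h2; simp [h12, h13] at h2
    · rw [el] at h2; simp [h01.symm, h13] at h2
  have m3 : k ∈ Z := force j k v₂ m2 (mem_star (by simp) ej h12).2 fun t ht => by
    rw [mem_cut_single] at ht
    obtain ⟨h1, h2, -⟩ := ht
    simp only [mem_insert, mem_singleton] at h1 ⊢
    rcases h1 with rfl | rfl | rfl | rfl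
    · rw [ei] at h2; simp [h02.symm, h12.symm] at h2
    · exact Or.inl rfl
    · exact Or.inr rfl
    · rw [el] at h2; simp [h02.symm, h23] at h2
  have m4 : l ∈ Z := force i l v₀ m1 (mem_star (by simp) ei h01).1 fun t ht => by
    rw [mem_cut_single] at ht
    obtain ⟨h1, h2, -⟩ := ht
    simp only [mem_insert, mem_singleton] at h1 ⊢
    rcases h1 with rfl | rfl | rfl | rfl
    · exact Or.inl rfl
    · rw [ej] at h2; simp [h01, h02] at h2
    · rw [ek] at h2; simp [h02, h03] at h2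
    · exact Or.inr rfl
  exact ⟨Z, hZ.trans (by simp [insert_subset_iff, hi, hj, hk, hl]), hc, m1, m2, m3, m4⟩

lemma val4 (hp : ∀ v i, 0 ≤ p v i) {j k : ι} {v₁ v₂ v₃ : V} (ej : en j = s(v₁, v₂))
    (ek : en k = s(v₂, v₃)) (h12 : v₁ ≠ v₂) (h13 : v₁ ≠ v₃) (h23 : v₂ ≠ v₃) (hj : j ∈ Z)
    (hk : k ∈ Z) (hU : ({v₁, v₂, v₃} : Finset V) ⊆ W.erase ρ) :
    p v₁ j + (p v₂ j + p v₂ k) + p v₃ k ≤ val en W ρ p Z := by
  have n : j ≠ k := by
    rintro rfl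
    have := ej.symm.trans ek
    simp [h12, h13] at this
  have h := val_ge (en := en) (Z := Z) hp hU
  rw [sum_insert (by simp [h12, h13]), sum_pair h23] at h
  have h1 := pp_ge1 hp (mem_star hj ej h12).1
  have h2 := pp_ge2 hp (mem_star hj ej h12).2 (mem_star hk ek h23).1 n
  have h3 := pp_ge1 hp (mem_star hk ek h23).2
  linarith

lemma root (h : Rz en Γ W ρ p a b c ua ub uc) : a ∈ Γ ∧ ρ ≠ ua ∧ ua ∈ W := by
  have h1 : a ∈ cut en Γ {ρ} := by rw [h.rt.st]; simp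
  rw [mem_cut_single, h.ea] at h1
  exact ⟨h1.1, by simpa using h1.2.2, h.rt.cub.sp a h1.1 ua (by rw [h.ea]; simp)⟩

lemma star (hGIR : S_GIR) (h : Rz en Γ W ρ p a b c ua ub uc) (h3 : 3 ≤ W.card)
    (hW : ∀ v ∈ W, v = ρ ∨ v = ua ∨ v = ub ∨ v = uc) :
    ∃ x ∈ Γ, ∃ z ∈ Γ, en x = s(ua, ub) ∧ en z = s(ua, uc) ∧ PP en Γ p ua = p ua x + p ua z := by
  obtain ⟨ha, hρ, hu⟩ := root h
  have hG := hGIR en Γ W h.rt.cub
  obtain ⟨g, g', w, w', hF⟩ := hG.2.1 ua hu a (mem_star ha h.ea hρ).2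
  have hd := h.rt.cub.dg ua hu
  obtain ⟨n1, n2, n3⟩ := ne_of_card_three (a := a) (b := g) (c := g') (hF.st ▸ hd)
  have hP := pp_three (p := p) hF.st hd
  rw [h.za, zero_add] at hP
  have key : ∀ t v, t ∈ cut en Γ {ua} → en t = s(ua, v) → a ≠ t → t ∈ Γ ∧ (v = ub ∨ v = uc) := by
    intro t v ht e n
    rw [mem_cut_single, e] at ht
    refine ⟨ht.1, ?_⟩
    rcases hW v (h.rt.cub.sp t ht.1 v (by rw [e]; simp)) with h1 | h1 | h1
    · exact absurd (hG.2.2.2.1 h3 a ha t ht.1 (by rw [h.ea, e, h1, Sym2.eq_swap])) n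
    · exact absurd (by simp [h1]) ht.2.2
    · exact h1
  obtain ⟨m1, k1⟩ := key g w (by rw [hF.st]; simp) hF.e1 n1
  obtain ⟨m2, k2⟩ := key g' w' (by rw [hF.st]; simp) hF.e2 n2
  have nw : w ≠ w' := fun e => n3 (hG.2.2.2.1 h3 g m1 g' m2 (by rw [hF.e1, hF.e2, e]))
  rcases k1 with k1 | k1 <;> rcases k2 with k2 | k2
  · exact absurd (k1.trans k2.symm) nw
  · exact ⟨g, m1, g', m2, k1 ▸ hF.e1, k2 ▸ hF.e2, hP⟩
  · exact ⟨g', m2, g, m1, k2 ▸ hF.e2, k1 ▸ hF.e1, by rw [hP, add_comm]⟩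
  · exact absurd (k1.trans k2.symm) nw

end K4x

open K4x in
theorem p_K4 (hCY1 : S_CY1) (hGIR : S_GIR) (hNRM : S_NRM) :
    S_K4 := by
  intro V ι _ _ _ en Γ W ρ ua ub uc p a b c h nab nac nbc h4
  obtain ⟨ha, ra, wa⟩ := root h
  obtain ⟨hb, rb, wb⟩ := root h.s12
  obtain ⟨hc, rc, wc⟩ := root h.s23.s12
  have hcard : ({ρ, ua, ub, uc} : Finset V).card = 4 := by
    rw [card_insert_of_notMem (by simp [ra, rb, rc]), card_insert_of_notMem (by simp [nab, nac]),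
      card_pair nbc]
  have hWe : ({ρ, ua, ub, uc} : Finset V) = W :=
    eq_of_subset_of_card_le (by simp [insert_subset_iff, h.rt.hρ, wa, wb, wc]) (by omega)
  have h3 : 3 ≤ W.card := by rw [← hWe]; omega
  have hW : ∀ v ∈ W, v = ρ ∨ v = ua ∨ v = ub ∨ v = uc := fun v hv => by
    rw [← hWe] at hv
    simpa using hv
  have hE : W.erase ρ = {ua, ub, uc} := by
    rw [← hWe, erase_insert (by simp [ra, rb, rc])]
  have par := (hGIR en Γ W h.rt.cub).2.2.2.1 h3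
  obtain ⟨x, hx, z, hz, ex, ez, Pa⟩ := star hGIR h h3 hW
  obtain ⟨x', hx', y, hy, ex', ey, Pb⟩ := star hGIR h.s12 h3 fun v hv => by
    have := hW v hv; tauto
  obtain ⟨z', hz', y', hy', ez', ey', Pc⟩ := star hGIR h.s23.s12 h3 fun v hv => by
    have := hW v hv; tauto
  obtain rfl : x = x' := par x hx x' hx' (by rw [ex, ex', Sym2.eq_swap])
  obtain rfl : z = z' := par z hz z' hz' (by rw [ez, ez', Sym2.eq_swap])
  obtain rfl : y = y' := par y hy y' hy' (by rw [ey, ey', Sym2.eq_swap])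
  obtain ⟨Za, s1, c1, a1, a2, a3, a4⟩ :=
    four hCY1 h.eb ex' ez h.ec rb ra rc nab.symm nbc nac hb hx hz hc
  obtain ⟨Zb, s2, c2, b1, b2, b3, b4⟩ :=
    four hCY1 h.ea ex ey h.ec ra rb rc nab nac nbc ha hx hy hc
  obtain ⟨Zc, s3, c3, d1, d2, d3, d4⟩ :=
    four hCY1 h.ea ez ey' h.eb ra rc rb nac nab nbc.symm ha hz hy hb
  have v1 := val4 (W := W) (ρ := ρ) h.rt.pos ex' ez nab.symm nbc nac a2 a3
    (by rw [hE, insert_comm])
  have v2 := val4 (W := W) (ρ := ρ) h.rt.pos ex ey nab nac nbc b2 b3 (by rw [hE])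
  have v3 := val4 (W := W) (ρ := ρ) h.rt.pos ez ey' nac nab nbc.symm d2 d3
    (by rw [hE, pair_comm uc ub])
  have hN : NN en Γ W ρ p ≤ ∑ v ∈ W.erase ρ, PP en Γ p v :=
    (hNRM.2 (W.erase ρ) (PP en Γ p) fun _ _ => pp_nonneg h.rt.pos).2.1
  rw [hE, sum_insert (by simp [nab, nac]), sum_pair nbc] at hN
  exact ⟨Za, s1, Zb, s2, Zc, s3, c1, c2, c3, a1, a4, b1, b4, d1, d4, by linarith⟩

end Pool.Agent.P.MP_bb4f54_co.T3

end sK4

section sO1
/-! Step O1. -/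

set_option autoImplicit false
set_option linter.unusedSectionVars false

namespace Pool.Agent.P.MP_bb4f54_co.T3

open Finset

namespace O1x

variable {V ι : Type} [DecidableEq V] [DecidableEq ι] {en : ι → Sym2 V} {Γ Z : Finset ι}
  {W : Finset V} {ρ x y z u w w' : V} {p : V → ι → ℝ} {i e g g' : ι}

lemma mc (hi : i ∈ Z) (h : i ∈ cut en Γ {x}) : i ∈ cut en Z {x} :=
  mem_cut.2 ⟨hi, (mem_cut.1 h).2⟩

lemma val3 (hp : ∀ v i, 0 ≤ p v i) (hx : x ∈ W) (hy : y ∈ W) (hz : z ∈ W) (h1 : x ≠ ρ)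
    (h2 : y ≠ ρ) (h3 : z ≠ ρ) (hxy : x ≠ y) (hxz : x ≠ z) (hyz : y ≠ z) :
    PP en Z p x + PP en Z p y + PP en Z p z ≤ val en W ρ p Z := by
  have h := val_ge (en := en) (Z := Z) (W := W) (ρ := ρ) hp (U := {x, y, z})
    (by simp [insert_subset_iff, hx, hy, hz, h1, h2, h3])
  rw [sum_insert (by simp [hxy, hxz]), sum_pair hyz] at h
  linarith

lemma f0 (h : Fk en Γ u e g g' w w') : e ∈ cut en Γ {u} := by rw [h.st]; simp

lemma f1 (h : Fk en Γ u e g g' w w') : g ∈ cut en Γ {u} := by rw [h.st]; simp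

lemma f2 (h : Fk en Γ u e g g' w w') : g' ∈ cut en Γ {u} := by rw [h.st]; simp

lemma far (hi : i ∈ cut en Γ {x}) (h : en i = s(x, y)) : i ∈ cut en Γ {y} := by
  rw [mem_cut_single] at hi ⊢
  exact ⟨hi.1, by simp [h], hi.2.2⟩

lemma ne1 (hi : i ∈ cut en Γ {x}) (h : en i = s(x, y)) : x ≠ y := by
  have := (mem_cut_single.1 hi).2.2
  rwa [h, Sym2.mk_isDiag_iff] at this

lemma heavy (p : V → ι → ℝ) (h : ∃ g g' w w', Fk en Γ u e g g' w w') :
    ∃ g g' w w', Fk en Γ u e g g' w w' ∧ p u g' ≤ p u g := by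
  obtain ⟨g, g', w, w', h⟩ := h
  rcases le_total (p u g') (p u g) with h' | h'
  · exact ⟨g, g', w, w', h, h'⟩
  · exact ⟨g', g, w', w, h.swap, h'⟩

end O1x

open O1x in
theorem p_O1 (hGIR : S_GIR) (hO1c : S_O1c) (hO1d : S_O1d) :
    S_O1 := by
  intro V ι _ _ _ en Γ W ρ ua ub uc w wa wb p a b c ga ga' gb gb' hL ha hb hn
  have hc3 := hL.rz.rt.cub
  have hp := hL.rz.rt.pos
  have hρ := hL.rz.rt.hρ
  obtain ⟨-, hfk, -, hpar, hnt⟩ := hGIR en Γ W hc3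
  have hpar := hpar (by have := hL.five; omega)
  have htri := (hnt hL.nt).1 hL.five
  have hst := hL.rz.rt.st
  have aρ : a ∈ cut en Γ {ρ} := by rw [hst]; simp
  have bρ : b ∈ cut en Γ {ρ} := by rw [hst]; simp
  have cρ : c ∈ cut en Γ {ρ} := by rw [hst]; simp
  obtain ⟨nab, nac, -⟩ := ne_of_card_three (a := a) (b := b) (c := c) (hst ▸ hc3.dg ρ hρ)
  have memW : ∀ {i x y}, i ∈ cut en Γ {x} → en i = s(x, y) → y ∈ W := fun {i x y} hi h =>
    hc3.sp i (cut_subset hi) y (by simp [h])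
  have hua : ua ∈ W := memW aρ hL.rz.ea
  have huc : uc ∈ W := memW cρ hL.rz.ec
  have hw : w ∈ W := memW (f1 ha) ha.e1
  have hwa : wa ∈ W := memW (f2 ha) ha.e2
  obtain ⟨naa, naa', ngg⟩ :=
    ne_of_card_three (a := a) (b := ga) (c := ga') (ha.st ▸ hc3.dg ua hua)
  have uaρ : ua ≠ ρ := (ne1 aρ hL.rz.ea).symm
  have ucρ : uc ≠ ρ := (ne1 cρ hL.rz.ec).symm
  have wρ : w ≠ ρ := by
    rintro rfl
    exact naa (hpar a (cut_subset aρ) ga (cut_subset (f1 ha))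
      (by rw [hL.rz.ea, ha.e1, Sym2.eq_swap]))
  have waρ : wa ≠ ρ := by
    rintro rfl
    exact naa' (hpar a (cut_subset aρ) ga' (cut_subset (f2 ha))
      (by rw [hL.rz.ea, ha.e2, Sym2.eq_swap]))
  have uab : ua ≠ ub := by
    rintro rfl
    exact nab (hpar a (cut_subset aρ) b (cut_subset bρ) (by rw [hL.rz.ea, hL.rz.eb]))
  have uac : ua ≠ uc := by
    rintro rfl
    exact nac (hpar a (cut_subset aρ) c (cut_subset cρ) (by rw [hL.rz.ea, hL.rz.ec]))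
  have uaw : ua ≠ w := ne1 (f1 ha) ha.e1
  have adA : Ad en Γ ρ ua := ⟨a, cut_subset aρ, hL.rz.ea⟩
  have adC : Ad en Γ uc ρ := Ad.symm ⟨c, cut_subset cρ, hL.rz.ec⟩
  have wuc : w ≠ uc := by
    rintro rfl
    exact htri _ _ _ adA ⟨ga, cut_subset (f1 ha), ha.e1⟩ adC
  have ucwa : uc ≠ wa := by
    rintro rfl
    exact htri _ _ _ adA ⟨ga', cut_subset (f2 ha), ha.e2⟩ adC
  have wwa : w ≠ wa := by
    rintro rfl
    exact ngg (hpar ga (cut_subset (f1 ha)) ga' (cut_subset (f2 ha)) (by rw [ha.e1, ha.e2]))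
  have gab : ga ≠ gb := by
    rintro rfl
    have h := ha.e1.symm.trans hb.e1
    rcases Sym2.eq_iff.1 h with h | h
    · exact uab h.1
    · exact uaw h.1
  have gaw : ga ∈ cut en Γ {w} := far (f1 ha) ha.e1
  have gbw : gb ∈ cut en Γ {w} := far (f1 hb) hb.e1
  obtain ⟨r, R, hw'⟩ : ∃ r R, Fk en Γ w ga gb r ub R := by
    obtain ⟨g, g', x, x', h⟩ := hfk w hw ga gaw
    have hm := gbw
    rw [h.st] at hm
    simp only [mem_insert, mem_singleton] at hm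
    rcases hm with hm | rfl | rfl
    · exact absurd hm.symm gab
    · exact ⟨g', x', h.st, hb.e1.trans Sym2.eq_swap, h.e2⟩
    · exact ⟨g, x, h.swap.st, hb.e1.trans Sym2.eq_swap, h.e1⟩
  obtain ⟨gc, gc', wc, wc', hc, hvc⟩ := heavy p (hfk uc huc c (far cρ hL.rz.ec))
  obtain ⟨-, ngr, nbr⟩ := ne_of_card_three (a := ga) (b := gb) (c := r) (hw'.st ▸ hc3.dg w hw)
  obtain ⟨-, -, ncc⟩ := ne_of_card_three (a := c) (b := gc) (c := gc') (hc.st ▸ hc3.dg uc huc)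
  have Pa := pp_three (p := p) ha.st (hc3.dg ua hua)
  have Pw := pp_three (p := p) hw'.st (hc3.dg w hw)
  have Pc := pp_three (p := p) hc.st (hc3.dg uc huc)
  have za := hL.rz.za
  have zc := hL.rz.zc
  obtain ⟨⟨Zc, sc, cc, c1, c2, c3, c4, c5, c6, c7⟩, ⟨Zb, sb, cb, b1, b2, b3, b4, b5⟩,
    ⟨Za, sa, ca, a1, a2, a3, a4, a5, a6⟩⟩ := hO1c hL ha hb hc hw' hn
  have vc := val3 (en := en) (Z := Zc) hp hua hw huc uaρ wρ ucρ uaw uac wuc
  have vb := val3 (en := en) (Z := Zb) hp hua hw huc uaρ wρ ucρ uaw uac wuc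
  have va := val3 (en := en) (Z := Za) hp hua hw huc uaρ wρ ucρ uaw uac wuc
  have k1 := pp_ge1 hp (mc c3 (f2 ha))
  have k2 := pp_ge2 hp (mc c4 gbw) (mc c5 (f2 hw')) nbr
  have k3 := pp_ge2 hp (mc c6 (f1 hc)) (mc c7 (f2 hc)) ncc
  have k4 := pp_ge1 hp (mc b3 (f1 ha))
  have k5 := pp_ge2 hp (mc b3 gaw) (mc b4 (f2 hw')) ngr
  have k6 := pp_ge1 hp (mc b5 (f1 hc))
  have k7 := pp_ge2 hp (mc a4 (f1 ha)) (mc a5 (f2 ha)) ngg
  have k8 := pp_ge2 hp (mc a4 gaw) (mc a3 gbw) gab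
  have k9 := pp_ge1 hp (mc a6 (f1 hc))
  refine ⟨⟨Za, sa, Zb, sb, Zc, sc, ca, cb, cc, a1, a2, b1, b2, c1, c2, by linarith⟩, ?_⟩
  intro h1 h2 h3
  obtain ⟨h, h', H, H', hh, hvh⟩ := heavy p (hfk wa hwa ga' (far (f2 ha) ha.e2))
  obtain ⟨Zd, sd, cd, d1, d2, d3, d4, d5, d6, d7⟩ := hO1d hL ha hb hc hw' hh hn h1 h2 h3
  obtain ⟨ngh, -, -⟩ := ne_of_card_three (a := ga') (b := h) (c := h') (hh.st ▸ hc3.dg wa hwa)
  have Ph := pp_three (p := p) hh.st (hc3.dg wa hwa)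
  have vd := val3 (en := en) (Z := Zd) hp hw huc hwa wρ ucρ waρ wuc wwa ucwa
  have l1 := pp_ge2 hp (mc d4 gaw) (mc d3 gbw) gab
  have l2 := pp_ge1 hp (mc d6 (f1 hc))
  have l3 := pp_ge2 hp (mc d5 (f0 hh)) (mc d7 (f1 hh)) ngh
  have n1 := hp ua ga
  have n2 := hp ua ga'
  have n3 := hp wa ga'
  exact ⟨Zd, sd, Zb, sb, Zc, sc, cd, cb, cc, d1, d2, b1, b2, c1, c2, by linarith⟩

end Pool.Agent.P.MP_bb4f54_co.T3

end sO1

section sDIA
/-! Step DIA. -/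

set_option autoImplicit false
set_option linter.unusedSectionVars false

namespace Pool.Agent.P.MP_bb4f54_co.T3

open Finset

namespace DIAx

variable {V : Type} [Fintype V] [DecidableEq V] {G : SimpleGraph V}

lemma via_pth (hWLK : S_WLK) {X : Set V} {a b : V} (h : Via G X a b) :
    ∃ A ⊆ EG G, Pth id A a b ∧ ∀ w ∈ spt id A, w = a ∨ w = b ∨ w ∈ X := by
  obtain ⟨w, hw⟩ := h
  obtain ⟨A, h1, h2, -, -, h3⟩ := (hWLK G).2.1 a b w
  exact ⟨A, h1, h2, fun v hv => hw v (h3 v hv)⟩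

lemma spt_l {A : Finset (Sym2 V)} {a b : V} (h : s(a, b) ∈ A) : a ∈ spt id A :=
  ⟨_, h, Sym2.mem_mk_left a b⟩

lemma spt_r {A : Finset (Sym2 V)} {a b : V} (h : s(a, b) ∈ A) : b ∈ spt id A :=
  ⟨_, h, Sym2.mem_mk_right a b⟩

lemma spt_one {a b w : V} (h : w ∈ spt id ({s(a, b)} : Finset (Sym2 V))) : w = a ∨ w = b := by
  obtain ⟨e, he, hw⟩ := h
  rw [mem_singleton] at he
  subst he
  exact Sym2.mem_iff.1 hw

lemma two (hCAT : S_CAT) {LA LB : Set V} {u s t : V} {A B : Finset (Sym2 V)}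
    (hd : Disjoint LA LB) (hs : s ∉ LB) (ht : t ∉ LA) (hst : s ≠ t) (hsu : s ≠ u) (htu : t ≠ u)
    (hA : Pth id A u s) (hB : Pth id B u t) (sA : ∀ w ∈ spt id A, w = u ∨ w = s ∨ w ∈ LA)
    (sB : ∀ w ∈ spt id B, w = u ∨ w = t ∨ w ∈ LB) :
    Pth id (A ∪ B) s t ∧ s(s, t) ∉ A ∪ B ∧ (A ∪ B).card = A.card + B.card := by
  have tA : t ∉ spt id A := fun h => by
    rcases sA t h with e | e | e
    exacts [htu e, hst e.symm, ht e]
  have sB' : s ∉ spt id B := fun h => by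
    rcases sB s h with e | e | e
    exacts [hsu e, hst e, hs e]
  obtain ⟨h1, h2⟩ := (hCAT (id : Sym2 V → Sym2 V)).1 A B s u t hA.symm hB (fun w wa wb => by
    rcases sA w wa with e | e | e
    · exact e
    · exact absurd (e ▸ wb) sB'
    · rcases sB w wb with f | f | f
      · exact f
      · exact absurd (f ▸ wa) tA
      · exact absurd f (Set.disjoint_left.1 hd e))
  refine ⟨h2, fun h => ?_, card_union_of_disjoint h1⟩
  rcases mem_union.1 h with h | h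
  · exact tA (spt_r h)
  · exact sB' (spt_l h)

lemma three (hODA : S_ODA) (hCAT : S_CAT) {LA LB : Set V} {x k s t : V} {A B : Finset (Sym2 V)}
    (hxk : x ≠ k) (hd : Disjoint LA LB) (xB : x ∉ LB) (kA : k ∉ LA) (hs : s ∉ LB)
    (ht : t ∉ LA) (hst : s ≠ t) (hsx : s ≠ x) (hsk : s ≠ k) (htx : t ≠ x) (htk : t ≠ k)
    (hA : Pth id A x s) (hB : Pth id B k t) (sA : ∀ w ∈ spt id A, w = x ∨ w = s ∨ w ∈ LA)
    (sB : ∀ w ∈ spt id B, w = k ∨ w = t ∨ w ∈ LB) :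
    Pth id (A ∪ {s(x, k)} ∪ B) s t ∧ s(s, t) ∉ A ∪ {s(x, k)} ∪ B ∧
      (A ∪ {s(x, k)} ∪ B).card = A.card + 1 + B.card := by
  have hE : Pth id ({s(x, k)} : Finset (Sym2 V)) x k :=
    (hODA (id : Sym2 V → Sym2 V)).2.2.2.2.2.2.1 _ x k rfl hxk
  obtain ⟨h1, h2⟩ := (hCAT (id : Sym2 V → Sym2 V)).1 A {s(x, k)} s x k hA.symm hE
    (fun w wa we => by
      rcases spt_one we with e | e
      · exact e
      · subst e
        rcases sA w wa with f | f | f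
        exacts [f, absurd f.symm hsk, absurd f kA])
  have sA' : ∀ w ∈ spt id (A ∪ {s(x, k)}), w = k ∨ w = s ∨ w ∈ insert x LA := by
    intro w hw
    rw [spt_union] at hw
    rcases hw with hw | hw
    · rcases sA w hw with f | f | f
      exacts [Or.inr (Or.inr (Or.inl f)), Or.inr (Or.inl f), Or.inr (Or.inr (Or.inr f))]
    · rcases spt_one hw with f | f
      exacts [Or.inr (Or.inr (Or.inl f)), Or.inl f]
  have hd' : Disjoint (insert x LA) LB := Set.disjoint_insert_left.2 ⟨xB, hd⟩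
  have ht' : t ∉ insert x LA := fun h => by
    rcases h with h | h
    exacts [htx h, ht h]
  obtain ⟨g1, g2, g3⟩ := two hCAT hd' hs ht' hst hsk htk h2.symm hB sA' sB
  refine ⟨g1, g2, ?_⟩
  rw [g3, card_union_of_disjoint h1, card_singleton]

end DIAx

theorem p_DIA (hODA : S_ODA) (hCAT : S_CAT) (hWLK : S_WLK) :
    S_DIA := by
  intro V _ _ G LA LB x k s t hadj hd xA xB kA kB hs ht hst hsx hsk htx htk v1 v2 v3 v4
  obtain ⟨a, ea, pa, sa⟩ := DIAx.via_pth hWLK v1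
  obtain ⟨a', ea', pa', sa'⟩ := DIAx.via_pth hWLK v2
  obtain ⟨b, eb, pb, sb⟩ := DIAx.via_pth hWLK v3
  obtain ⟨b', eb', pb', sb'⟩ := DIAx.via_pth hWLK v4
  obtain ⟨p0, n0, c0⟩ := DIAx.three hODA hCAT hadj.ne hd xB kA hs ht hst hsx hsk htx htk pa pb'
    sa sb'
  obtain ⟨p1, n1, c1⟩ := DIAx.three hODA hCAT hadj.ne' hd kB xA hs ht hst hsk hsx htk htx pa' pb
    sa' sb
  obtain ⟨p2, n2, c2⟩ := DIAx.two hCAT hd hs ht hst hsx htx pa pb sa sb
  obtain ⟨p3, n3, c3⟩ := DIAx.two hCAT hd hs ht hst hsk htk pa' pb' sa' sb'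
  have e1 : ({s(x, k)} : Finset (Sym2 V)) ⊆ EG G := by
    rw [singleton_subset_iff]; exact mk_mem_EG.2 hadj
  have e2 : ({s(k, x)} : Finset (Sym2 V)) ⊆ EG G := by
    rw [singleton_subset_iff]; exact mk_mem_EG.2 hadj.symm
  have ua : ∀ w ∈ spt id a, w ∈ {w | w ∈ LA ∨ w ∈ LB ∨ w = x ∨ w = k} ∨ w = s ∨ w = t :=
    fun w hw => by have := sa w hw; simp only [Set.mem_ofPred_eq]; tauto
  have ua' : ∀ w ∈ spt id a', w ∈ {w | w ∈ LA ∨ w ∈ LB ∨ w = x ∨ w = k} ∨ w = s ∨ w = t :=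
    fun w hw => by have := sa' w hw; simp only [Set.mem_ofPred_eq]; tauto
  have ub : ∀ w ∈ spt id b, w ∈ {w | w ∈ LA ∨ w ∈ LB ∨ w = x ∨ w = k} ∨ w = s ∨ w = t :=
    fun w hw => by have := sb w hw; simp only [Set.mem_ofPred_eq]; tauto
  have ub' : ∀ w ∈ spt id b', w ∈ {w | w ∈ LA ∨ w ∈ LB ∨ w = x ∨ w = k} ∨ w = s ∨ w = t :=
    fun w hw => by have := sb' w hw; simp only [Set.mem_ofPred_eq]; tauto
  have u1 : ∀ w ∈ spt id ({s(x, k)} : Finset (Sym2 V)),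
      w ∈ {w | w ∈ LA ∨ w ∈ LB ∨ w = x ∨ w = k} ∨ w = s ∨ w = t :=
    fun w hw => by have := DIAx.spt_one hw; simp only [Set.mem_ofPred_eq]; tauto
  have u2 : ∀ w ∈ spt id ({s(k, x)} : Finset (Sym2 V)),
      w ∈ {w | w ∈ LA ∨ w ∈ LB ∨ w = x ∨ w = k} ∨ w = s ∨ w = t :=
    fun w hw => by have := DIAx.spt_one hw; simp only [Set.mem_ofPred_eq]; tauto
  have un : ∀ (P : V → Prop) (A B : Finset (Sym2 V)), (∀ w ∈ spt id A, P w) →
      (∀ w ∈ spt id B, P w) → ∀ w ∈ spt id (A ∪ B), P w := by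
    intro P A B h1 h2 w hw
    rw [spt_union] at hw
    exact hw.elim (h1 w) (h2 w)
  refine ⟨hst, ![a ∪ {s(x, k)} ∪ b', a' ∪ {s(k, x)} ∪ b, a ∪ b, a' ∪ b'], fun j => ?_, ?_⟩
  · fin_cases j
    · exact ⟨p0, union_subset (union_subset ea e1) eb', n0, un _ _ _ (un _ _ _ ua u1) ub'⟩
    · exact ⟨p1, union_subset (union_subset ea' e2) eb, n1, un _ _ _ (un _ _ _ ua' u2) ub⟩
    · exact ⟨p2, union_subset ea eb, n2, un _ _ _ ua ub⟩
    · exact ⟨p3, union_subset ea' eb', n3, un _ _ _ ua' ub'⟩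
  · change (a ∪ {s(x, k)} ∪ b').card + (a' ∪ {s(k, x)} ∪ b).card =
      (a ∪ b).card + (a' ∪ b').card + 2
    omega

end Pool.Agent.P.MP_bb4f54_co.T3

end sDIA

section sF1
/-! Step F1. -/

set_option autoImplicit false
set_option linter.unusedSectionVars false

namespace Pool.Agent.P.MP_bb4f54_co.T3

open Finset

theorem p_F1 (hTDF : S_TDF) (hFRE : S_FRE) (hF1a : S_F1a) (hF1b : S_F1b) (hF1c : S_F1c) (hF1e : S_F1e) :
    S_F1 := by
  classical
  intro r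
  set R0 := (2 * r + 1 + 1) ^ 2 with hR0
  refine ⟨R0 + 2 * R0, ?_⟩
  intro V _ _ G Γ T O v n pos hG hS hT
  obtain ⟨f1, f2, f3, f4, -, -⟩ := hFRE hG hS
  set P := T.filter fun x => Val G Γ T O v pos (R0 + 2 * R0) x with hP
  set Bd := T.filter fun x => ∃ k ∈ O, G.Adj x k ∧ Bad G T O (2 * r + 1) x k with hBd
  set W := P ∪ Bd with hW
  set Qa := T.filter fun x => ∃ σ : St V, Ucl G Γ T O R0 σ ∧ σ.x = x ∧ σ.k ∈ O ∧
    ∀ t ∈ T, t ≠ x → OW G ↑O (2 * R0) σ.k t → Aft v pos x t with hQa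
  set Qb := T.filter fun x => ∃ σ : St V, Ucl G Γ T O R0 σ ∧ σ.x = x ∧ σ.k ∈ O ∧
    ∀ t ∈ T, t ≠ x → OW G ↑O (2 * R0) σ.k t → Aft v pos t x with hQb
  have asy : ∀ x y, Aft v pos x y → Aft v pos y x → False := fun x y h h' =>
    lt_asymm h.2 h'.2
  have key : ∀ x ∈ T, x ∉ W → x ∈ Qa ∨ x ∈ Qb := by
    intro x hx hxW
    have nv : ∀ σ : St V, Ucl G Γ T O (R0 + 2 * R0) σ → σ.x = x → σ.y ≠ σ.z ∧
        ((Aft v pos x σ.y ∧ Aft v pos x σ.z) ∨ (Aft v pos σ.y x ∧ Aft v pos σ.z x)) := by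
      intro σ hσ e
      by_contra hc
      refine hxW (mem_union_left _ (mem_filter.2 ⟨hx, σ, hσ, e, ?_⟩))
      tauto
    obtain ⟨k, hk, hf⟩ := f1 x hx
    rcases hS.cl x (Or.inl hx) k hk hf with hkT | hkO
    · exact absurd rfl (nv ⟨x, k, k, k, ∅, ∅⟩ ⟨hx, hkT, hkT, hk.ne', hk.ne', hk, hf, pth_self,
        pth_self, empty_subset _, empty_subset _, Nat.zero_le _, Nat.zero_le _, by simp, by simp,
        Or.inr ⟨rfl, rfl⟩⟩ rfl).1
    have hnb : ¬ Bad G T O (2 * r + 1) x k := fun h =>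
      hxW (mem_union_right _ (mem_filter.2 ⟨hx, k, hkO, hk, h⟩))
    obtain ⟨σ, hσ, e1, e2⟩ := hF1b (2 * r + 1) x k hG hS hx hkO hk hnb
    have hk' : σ.k ∈ O := e2 ▸ hkO
    have ext : ∀ t ∈ T, t ≠ x → OW G ↑O (2 * R0) σ.k t → t = σ.y ∨ t = σ.z ∨
        ((Aft v pos x t ∧ Aft v pos x σ.z) ∨ (Aft v pos t x ∧ Aft v pos σ.z x)) ∨
        ((Aft v pos x σ.y ∧ Aft v pos x t) ∨ (Aft v pos σ.y x ∧ Aft v pos t x)) := by
      intro t ht htx hw
      rcases hF1c R0 (2 * R0) σ t f3 hσ hk' ht (e1 ▸ htx) hw with h | h | ⟨σ', h1, h2, -, h3⟩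
      · exact Or.inl h
      · exact Or.inr (Or.inl h)
      · have := (nv σ' h1 (h2.trans e1)).2
        rcases h3 with ⟨a, b⟩ | ⟨a, b⟩
        · rw [a, b] at this; exact Or.inr (Or.inr (Or.inl this))
        · rw [a, b] at this; exact Or.inr (Or.inr (Or.inr this))
    rcases (nv σ (hσ.mono (Nat.le_add_right _ _)) e1).2 with ⟨a, b⟩ | ⟨a, b⟩
    · refine Or.inl (mem_filter.2 ⟨hx, σ, hσ, e1, hk', fun t ht htx hw => ?_⟩)
      rcases ext t ht htx hw with h | h | (h | h) | (h | h)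
      · exact h ▸ a
      · exact h ▸ b
      · exact h.1
      · exact (asy _ _ b h.2).elim
      · exact h.2
      · exact (asy _ _ a h.1).elim
    · refine Or.inr (mem_filter.2 ⟨hx, σ, hσ, e1, hk', fun t ht htx hw => ?_⟩)
      rcases ext t ht htx hw with h | h | (h | h) | (h | h)
      · exact h ▸ a
      · exact h ▸ b
      · exact (asy _ _ b h.2).elim
      · exact h.1
      · exact (asy _ _ a h.1).elim
      · exact h.2
  have two : ∀ y ∈ T, ∀ a ∈ O, ∀ t ∈ T, ∀ t' ∈ T, G.Adj y a → OW G ↑O (2 * R0) a t →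
      OW G ↑O (2 * R0) a t' → pos t < pos y → pos y < pos t' → y ∈ W := by
    intro y hy a ha t ht t' ht' hadj w1 w2 l1 l2
    by_contra hc
    have hk : ∀ σ : St V, Ucl G Γ T O R0 σ → σ.x = y → σ.k = a := fun σ hσ e =>
      f2 y hy σ.k a (e ▸ hσ.adj) (e ▸ hσ.fr) hadj (f4 a ha y).2
    rcases key y hy hc with h | h
    · obtain ⟨-, σ, hσ, e, -, h⟩ := mem_filter.1 h
      exact lt_asymm l1 (h t ht (fun e => l1.ne (e ▸ rfl)) (hk σ hσ e ▸ w1)).2
    · obtain ⟨-, σ, hσ, e, -, h⟩ := mem_filter.1 h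
      exact lt_asymm l2 (h t' ht' (fun e => l2.ne (e ▸ rfl)) (hk σ hσ e ▸ w2)).2
  have inj : ∀ x ∈ T, ∀ y ∈ T, v x = v y → pos x = pos y → x = y := fun x hx y hy h1 h2 =>
    ((hTDF Γ v n pos hT y x (hS.dT y hy) (hS.dT x hx)).1 h1).2 h2
  have ca : Qa.card ≤ W.card := by
    refine hF1e R0 v (fun x => (pos x : ℤ)) Qa W hG hS
      (fun x hx y hy h1 h2 => inj x hx y hy h1 (by exact_mod_cast h2)) (fun x hx => ?_)
      fun y hy a ha t ht t' ht' hadj w1 w2 _ _ l1 l2 =>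
        two y hy a ha t ht t' ht' hadj w1 w2 (by exact_mod_cast l1) (by exact_mod_cast l2)
    obtain ⟨-, σ, hσ, e, hk, h⟩ := mem_filter.1 hx
    exact ⟨σ, hσ, e, hk, fun t ht htx hw =>
      ⟨(h t ht htx hw).1, by exact_mod_cast (h t ht htx hw).2⟩⟩
  have cb : Qb.card ≤ W.card := by
    refine hF1e R0 v (fun x => -(pos x : ℤ)) Qb W hG hS
      (fun x hx y hy h1 h2 => inj x hx y hy h1 (by omega)) (fun x hx => ?_)
      fun y hy a ha t ht t' ht' hadj w1 w2 _ _ l1 l2 =>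
        two y hy a ha t' ht' t ht hadj w2 w1 (by omega) (by omega)
    obtain ⟨-, σ, hσ, e, hk, h⟩ := mem_filter.1 hx
    refine ⟨σ, hσ, e, hk, fun t ht htx hw => ⟨(h t ht htx hw).1.symm, ?_⟩⟩
    have := (h t ht htx hw).2
    omega
  have c1 : T.card ≤ W.card + (Qa.card + Qb.card) := by
    refine (card_le_card (t := W ∪ (Qa ∪ Qb)) fun x hx => ?_).trans
      ((card_union_le _ _).trans (Nat.add_le_add_left (card_union_le _ _) _))
    by_cases h : x ∈ W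
    · exact mem_union_left _ h
    · exact mem_union_right _ (mem_union.2 (key x hx h))
  have c2 : W.card ≤ P.card + Bd.card := card_union_le _ _
  have c3 := hF1a r Bd hG hS fun x hx => mem_filter.1 hx
  refine ⟨P, filter_subset _ _, fun x hx => (mem_filter.1 hx).2, ?_⟩
  have c4 : T.card ≤ 3 * (P.card + Bd.card) := by omega
  calc (r + 1) * T.card ≤ (r + 1) * (3 * (P.card + Bd.card)) := Nat.mul_le_mul_left _ c4
    _ = 3 * (r + 1) * P.card + 3 * ((r + 1) * Bd.card) := by ring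
    _ ≤ _ := by omega

end Pool.Agent.P.MP_bb4f54_co.T3

end sF1

section sKA
/-! Step KA. -/

set_option autoImplicit false
set_option linter.unusedSectionVars false

namespace Pool.Agent.P.MP_bb4f54_co.T3

open Finset

theorem p_KA (hCAT : S_CAT) :
    S_KA := by
  intro V _ _ G S Γ c h Z hZ hc hcZ
  obtain ⟨s, t, U, M, hs, ht, hU, ⟨hst, R0, hR, hcard⟩, hM, hod, hu⟩ := h Z hZ hc hcZ
  have hF : Fi G S ⊆ EG G := ins_subset
  have edge : ∀ j, ∀ e ∈ R0 j, ∃ u ∈ e, u ∈ U ∧ u ≠ s ∧ u ≠ t := by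
    intro j e he
    obtain ⟨-, h2, h3, h4⟩ := hR j
    induction e using Sym2.ind with
    | _ a b =>
      have hab : a ≠ b := fun e' => nl_EG _ (h2 he) (by simp [e'])
      have ha := h4 a ⟨_, he, by simp⟩
      have hb := h4 b ⟨_, he, by simp⟩
      by_cases a1 : a = s ∨ a = t
      · by_cases b1 : b = s ∨ b = t
        · exfalso
          rcases a1 with rfl | rfl <;> rcases b1 with rfl | rfl
          · exact hab rfl
          · exact h3 he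
          · exact h3 (Sym2.eq_swap ▸ he)
          · exact hab rfl
        · rw [not_or] at b1
          exact ⟨b, by simp, (hb.resolve_right (not_or.2 b1)), b1.1, b1.2⟩
      · rw [not_or] at a1
        exact ⟨a, by simp, (ha.resolve_right (not_or.2 a1)), a1.1, a1.2⟩
  have hRF : ∀ j, R0 j ⊆ Fi G S := by
    intro j e he
    refine mem_ins.2 ⟨(hR j).2.1 he, fun v hv => ?_⟩
    rcases (hR j).2.2.2 v ⟨e, he, hv⟩ with h1 | rfl | rfl
    · exact hU h1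
    · exact hs
    · exact ht
  have hd : ∀ j, Disjoint ((Z ∩ Fi G S) \ M) (R0 j) := by
    intro j
    rw [disjoint_left]
    intro e h1 h2
    obtain ⟨u, hue, u1, u2, u3⟩ := edge j e h2
    exact (hu u u1 u2 u3).2 ⟨e, h1, hue⟩
  refine ⟨fun j => ((Z ∩ Fi G S) \ M) ∪ R0 j, fun j => ?_, ?_, ?_⟩
  · have : ((Z ∩ Fi G S) \ M) ∪ R0 j ⊆ Fi G S :=
      union_subset (sdiff_subset.trans inter_subset_right) (hRF j)
    exact subset_inter this (this.trans hF)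
  · simp only [card_union_of_disjoint (hd _)]
    omega
  · intro Z' hZ' hc' hE j
    have hM' : M ⊆ Z' ∩ Fi G S := hE ▸ hM
    have hMZ : M ⊆ Z' := hM'.trans inter_subset_left
    have key : ∀ u ∈ U, u ≠ s → u ≠ t → u ∉ spt id (Z' \ M) := by
      rintro u u1 u2 u3 ⟨e, he, hue⟩
      obtain ⟨k1, k2⟩ := hu u u1 u2 u3
      rw [mem_sdiff] at he
      by_cases heF : e ∈ Fi G S
      · exact k2 ⟨e, mem_sdiff.2 ⟨hE ▸ mem_inter.2 ⟨he.1, heF⟩, he.2⟩, hue⟩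
      · have d1 := dgr_sdiff (en := id) (inter_subset_left (s₁ := Z') (s₂ := Fi G S)) u
        have d2 := dgr_sdiff (en := id) hM' u
        have d3 : dgr id ((Z' ∩ Fi G S) \ M) u = 0 := dgr_eq_zero (hE ▸ k2)
        rw [sdiff_inter_self_left] at d1
        have d4 : dgr id (Z' \ Fi G S) u ≤ dgr id (EG G \ Fi G S) u :=
          dgr_mono (sdiff_subset_sdiff hZ' subset_rfl) u
        have d5 : dgr id (Z' \ Fi G S) u ≠ 0 :=
          (nl_EG.mono (sdiff_subset.trans hZ')).dgr_ne ⟨e, mem_sdiff.2 ⟨he.1, heF⟩, hue⟩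
        have d6 : ¬ Odd (dgr id M u) := fun h' => (hod u).1 h' (iff_of_false u2 u3)
        have d7 := hc'.2.1 u
        rw [Nat.odd_iff] at d6
        rw [Nat.even_iff] at d7
        omega
    have e1 : (Z' \ Fi G S) ∪ (((Z ∩ Fi G S) \ M) ∪ R0 j) = (Z' \ M) ∪ R0 j := by
      rw [← hE, ← union_assoc]
      congr 1
      ext e
      have := @hM' e
      simp only [mem_union, mem_sdiff, mem_inter] at this ⊢
      by_cases h1 : e ∈ Fi G S <;> by_cases h2 : e ∈ M <;> simp_all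
    rw [e1]
    refine (hCAT id).2.2.2 Z' M (R0 j) s t hc' hMZ hod hst (hR j).1 ?_ ?_
    · rw [disjoint_left]
      intro e h1 h2
      obtain ⟨u, hue, u1, u2, u3⟩ := edge j e h2
      exact key u u1 u2 u3 ⟨e, h1, hue⟩
    · intro w h1 h2
      by_contra hw
      rw [not_or] at hw
      rcases (hR j).2.2.2 w h2 with h3 | h3 | h3
      · exact key w h3 hw.1 hw.2 h1
      · exact hw.1 h3
      · exact hw.2 h3

end Pool.Agent.P.MP_bb4f54_co.T3

end sKA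

section sLAM0
/-! Step LAM0. -/

set_option autoImplicit false
set_option linter.unusedSectionVars false

namespace Pool.Agent.P.MP_bb4f54_co.T3

open Finset

namespace LAM0x

theorem lam {V : Type} [DecidableEq V] (E : Finset V) : ∀ 𝓛 : Finset (Finset V),
    (∀ τ ∈ 𝓛, τ ⊆ E) → (∀ τ ∈ 𝓛, ∀ τ' ∈ 𝓛, ∀ a b c, a ∈ τ → a ∈ τ' → b ∈ τ → b ∉ τ' → c ∉ τ →
      c ∈ τ' → False) → 𝓛.card ≤ 2 * E.card + 1 := by
  induction E using Finset.induction_on with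
  | empty =>
    intro 𝓛 h _
    exact (card_le_one.2 fun a ha b hb => by
      rw [subset_empty.1 (h a ha), subset_empty.1 (h b hb)]).trans (by simp)
  | insert x E hx ih =>
    intro 𝓛 h hl
    have h1 := card_memberSubfamily_add_card_nonMemberSubfamily x 𝓛
    have h2 := card_union_add_card_inter (𝓛.memberSubfamily x) (𝓛.nonMemberSubfamily x)
    have h3 : ∀ τ ∈ 𝓛.memberSubfamily x ∪ 𝓛.nonMemberSubfamily x,
        x ∉ τ ∧ ∃ σ ∈ 𝓛, ∀ y, y ≠ x → (y ∈ τ ↔ y ∈ σ) := fun τ hτ => by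
      rcases mem_union.1 hτ with e | e
      · rw [mem_memberSubfamily] at e
        exact ⟨e.2, _, e.1, fun y hy => by simp [hy]⟩
      · rw [mem_nonMemberSubfamily] at e
        exact ⟨e.2, _, e.1, fun y _ => Iff.rfl⟩
    have h4 := ih (𝓛.memberSubfamily x ∪ 𝓛.nonMemberSubfamily x) (fun τ hτ y hy => by
      obtain ⟨e, σ, hσ, e'⟩ := h3 τ hτ
      have hne : y ≠ x := fun c => e (c ▸ hy)
      exact (mem_insert.1 (h σ hσ ((e' y hne).1 hy))).resolve_left hne)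
      fun τ hτ τ' hτ' a b c a1 a2 b1 b2 c1 c2 => by
        obtain ⟨e, σ, hσ, f⟩ := h3 τ hτ
        obtain ⟨e', σ', hσ', f'⟩ := h3 τ' hτ'
        have ha : a ≠ x := fun c => e (c ▸ a1)
        have hb : b ≠ x := fun c => e (c ▸ b1)
        have hc : c ≠ x := fun c => e' (c ▸ c2)
        exact hl σ hσ σ' hσ' a b c ((f a ha).1 a1) ((f' a ha).1 a2) ((f b hb).1 b1)
          (fun z => b2 ((f' b hb).2 z)) (fun z => c1 ((f c hc).2 z)) ((f' c hc).1 c2)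
    have h5 : ∀ τ ∈ (𝓛.memberSubfamily x ∩ 𝓛.nonMemberSubfamily x).erase ∅,
        ∀ τ' ∈ (𝓛.memberSubfamily x ∩ 𝓛.nonMemberSubfamily x).erase ∅, τ' ⊆ τ := by
      intro τ hτ τ' hτ' c hc
      by_contra hn
      simp only [mem_erase, mem_inter, mem_memberSubfamily, mem_nonMemberSubfamily] at hτ hτ'
      obtain ⟨n, ⟨m1, x1⟩, m2, -⟩ := hτ
      obtain ⟨-, ⟨m1', x2⟩, m2', -⟩ := hτ'
      have hc' : c ∉ insert x τ := fun z => (mem_insert.1 z).elim (fun e => x2 (e ▸ hc)) hn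
      obtain ⟨a, ha⟩ := nonempty_iff_ne_empty.2 n
      by_cases e : a ∈ τ'
      · exact hl _ m1 _ m2' a x c (mem_insert_of_mem ha) e (mem_insert_self _ _) x2 hc' hc
      · exact hl _ m1 _ m1' x a c (mem_insert_self _ _) (mem_insert_self _ _)
          (mem_insert_of_mem ha) (fun z => (mem_insert.1 z).elim (fun e => x1 (e ▸ ha)) e) hc'
          (mem_insert_of_mem hc)
    have h6 := card_le_one.2 fun τ hτ τ' hτ' => Subset.antisymm (h5 τ' hτ' τ hτ) (h5 τ hτ τ' hτ')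
    have h7 := pred_card_le_card_erase (s := 𝓛.memberSubfamily x ∩ 𝓛.nonMemberSubfamily x)
      (a := ∅)
    rw [card_insert_of_notMem hx]
    omega

end LAM0x

theorem p_LAM0 :
    S_LAM0 := by
  intro V _ E 𝓕 h hc
  rcases E.eq_empty_or_nonempty with rfl | ⟨r, hr⟩
  · exact (card_le_one.2 fun a ha b hb => by
      rw [subset_empty.1 (h a ha), subset_empty.1 (h b hb)]).trans (by simp)
  have h1 := card_filter_add_card_filter_not (s := 𝓕) fun τ => r ∈ τ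
  have h2 := LAM0x.lam E (𝓕.filter fun τ => ¬ r ∈ τ) (fun τ hτ => h τ (mem_filter.1 hτ).1)
    fun τ hτ τ' hτ' a b c a1 a2 b1 b2 c1 c2 => hc τ (mem_filter.1 hτ).1 τ' (mem_filter.1 hτ').1
      a b c r a1 a2 b1 b2 c1 c2 hr (mem_filter.1 hτ).2 (mem_filter.1 hτ').2
  have h3 := LAM0x.lam E ((𝓕.filter fun τ => r ∈ τ).image fun τ => E \ τ)
    (fun τ hτ => by
      obtain ⟨σ, -, rfl⟩ := mem_image.1 hτ
      exact sdiff_subset)
    fun τ hτ τ' hτ' a b c a1 a2 b1 b2 c1 c2 => by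
      obtain ⟨σ, hσ, rfl⟩ := mem_image.1 hτ
      obtain ⟨σ', hσ', rfl⟩ := mem_image.1 hτ'
      simp only [mem_sdiff, not_and, not_not] at a1 a2 b1 b2 c1 c2
      exact hc σ (mem_filter.1 hσ).1 σ' (mem_filter.1 hσ').1 r c b a (mem_filter.1 hσ).2
        (mem_filter.1 hσ').2 (c1 c2.1) c2.2 b1.2 (b2 b1.1) a1.1 a1.2 a2.2
  rw [card_image_of_injOn fun σ hσ σ' hσ' e => by
    rw [← Finset.sdiff_sdiff_eq_self (h σ (mem_filter.1 hσ).1), e,
      Finset.sdiff_sdiff_eq_self (h σ' (mem_filter.1 hσ').1)]] at h3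
  omega

end Pool.Agent.P.MP_bb4f54_co.T3

end sLAM0

section sG2a
/-! Step G2a. -/

set_option autoImplicit false
set_option linter.unusedSectionVars false

namespace Pool.Agent.P.MP_bb4f54_co.T3

open Finset

theorem p_G2a (hVIA : S_VIA) (hFRE : S_FRE) (hCXB : S_CXB) (hG2c : S_G2c) :
    S_G2a := by
  intro V _ _ G S T O Γ v n pos R e w m mw a p b a' q b' A₀ A₁ σ hC he hw hd h1 h2 h3 h4 h5 h6 h7
    h8 hA₀ hA₁ hA hσ hx hy hz hz'
  obtain ⟨-, v2, v3, -, -, -, v7, -⟩ := hVIA G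
  have hTO := (hFRE hC.g3 hC.sk).2.2.1
  have hk := hz σ.k (.inr (.inl rfl))
  have main := fun α β u u' KA KB a1 a2 a3 => hG2c e w m mw a p b a' α β b' A₀ A₁ σ.k u u' KA KB
    hC he hw hd h1 h2 h3 h4 h5 a1 a2 a3 h8 hA₀ hA₁ hA (hx ▸ hσ.adj)
  rcases hσ.kind with ⟨hO, hyz, hAB⟩ | ⟨hky, -⟩
  · have k1 : ∀ i, a ≤ i → i ≤ b → σ.k ≠ e i := fun i a1 a2 h =>
      hTO _ (he.int i (by omega) (by omega)) (h ▸ hO)
    have k2 : ∀ j, a' ≤ j → j ≤ b' → σ.k ≠ w j := fun j a1 a2 h =>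
      hTO _ (hw.int j (by omega) (by omega)) (h ▸ hO)
    set KY : Set V := {x | x ∈ spt id σ.A ∧ x ≠ σ.k ∧ x ≠ σ.y}
    set KZ : Set V := {x | x ∈ spt id σ.B ∧ x ≠ σ.k ∧ x ≠ σ.z}
    have y1 : KY ⊆ ↑O := fun x h => (hσ.iA x h.1).resolve_right h.2.2
    have z1 : KZ ⊆ ↑O := fun x h => (hσ.iB x h.1).resolve_right h.2.2
    have y2 : Via G KY σ.k σ.y := v7 _ hσ.sA _ _ _ hσ.pA fun x h => by
      simp only [KY, Set.mem_ofPred_eq]; tauto
    have z2 : Via G KZ σ.k σ.z := v7 _ hσ.sB _ _ _ hσ.pB fun x h => by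
      simp only [KZ, Set.mem_ofPred_eq]; tauto
    have yz : Disjoint KY KZ := Set.disjoint_left.2 fun x h h' => h.2.1 (hAB x h.1 h'.1)
    have y3 : ∀ x, x ∈ KY ∨ x ∈ KZ ∨ x = σ.k → x ∉ spt id A₀ ∧ x ∉ spt id A₁ := fun x h =>
      hz x (by simp only [KY, KZ, St.zn, Set.mem_ofPred_eq] at h ⊢; tauto)
    have ky : σ.k ∉ KY := fun h => h.2.1 rfl
    have kz : σ.k ∉ KZ := fun h => h.2.1 rfl
    suffices h : ∃ U : Set V, (∀ x ∈ U, x = σ.k ∨ x ∈ O ∨ (∃ i, a ≤ i ∧ i ≤ b ∧ x = e i) ∨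
        ∃ j, a' ≤ j ∧ j ≤ b' ∧ x = w j) ∧ Dia G U (e a) (e b) ∧ Dia G U (w a') (w b') from
      h.imp fun U h => ⟨fun x hx => (h.1 x hx).elim (fun h => .inl (h ▸ hO)) id, h.2⟩
    have m1 := fun α β a1 a2 a3 a4 a5 => main α β _ _ _ _ a1 a2 a3 y1 z1 yz y3 ky kz k1
      (fun j b1 b2 => k2 j b1 (by omega)) (fun j b1 b2 => k2 j (by omega) b2) a4 y2 a5 z2
    have m2 := fun α β a1 a2 a3 a4 a5 => main α β _ _ _ _ a1 a2 a3 z1 y1 yz.symm
      (fun x h => y3 x (or_left_comm.1 h)) kz ky k1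
      (fun j b1 b2 => k2 j b1 (by omega)) (fun j b1 b2 => k2 j (by omega) b2) a4 z2 a5 y2
    rcases hz' with ⟨i, i1, i2, hi⟩ | ⟨j, j1, j2, hj⟩
    · rcases lt_trichotomy i p with c | rfl | c
      · exact m2 a' q le_rfl h6 h7.le (.inl ⟨i, i1.le, c, hi⟩) (.inr ⟨q, le_rfl, h7.le, hy⟩)
      · exact (hσ.zx (hi.trans hx.symm)).elim
      · exact m1 q b' h6.le h7 le_rfl (.inr ⟨q, h6.le, le_rfl, hy⟩) (.inl ⟨i, c, i2.le, hi⟩)
    · rcases lt_trichotomy j q with c | rfl | c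
      · exact m2 j q j1.le c h7.le (.inr ⟨j, j1.le, le_rfl, hj⟩) (.inr ⟨q, le_rfl, h7.le, hy⟩)
      · exact (hyz (hy.trans hj.symm)).elim
      · exact m1 q j h6.le c j2.le (.inr ⟨q, h6.le, le_rfl, hy⟩) (.inr ⟨j, le_rfl, j2.le, hj⟩)
  · obtain ⟨q, rfl⟩ : ∃ r, q = r + 1 := ⟨q - 1, by omega⟩
    have hkq := hky.trans hy
    have k2 : ∀ j, j ≤ mw → j ≠ q + 1 → σ.k ≠ w j := fun j a1 a2 h =>
      a2 (hw.th.sg.inj _ _ a1 (by omega) (h.symm.trans hkq))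
    have ad : ∀ j, j < mw → Via G ∅ (w j) (w (j + 1)) := fun j hj =>
      v2 _ _ _ (mk_mem_EG.1 (hC.sk.sub (hw.th.sg.ed j hj)))
    obtain ⟨U, h9, h10⟩ := main q (q + 1 + 1) (w q) (w (q + 1 + 1)) ∅ ∅ (by omega) (by omega) h7
      (Set.empty_subset _) (Set.empty_subset _) disjoint_bot_left (by simpa using hk) id id
      (fun i a1 a2 h => (hCXB hC).2.2.2.2.2 e m w mw he hw hd i (q + 1) (by omega) (by omega)
        (by omega) (h.symm.trans hkq))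
      (fun j a1 a2 => k2 j (by omega) (by omega)) (fun j a1 a2 => k2 j (by omega) (by omega))
      (.inr ⟨q, by omega, le_rfl, rfl⟩) (hkq ▸ v3 _ _ _ (ad q (by omega)))
      (.inr ⟨_, le_rfl, h7, rfl⟩) (hkq ▸ ad _ (by omega))
    exact ⟨U, fun x hx => (h9 x hx).elim
      (fun h => .inr (.inr ⟨q + 1, h6.le, h7.le, h.trans hkq⟩)) id, h10⟩

end Pool.Agent.P.MP_bb4f54_co.T3

end sG2a

section sPD1
/-! Step PD1. -/

set_option autoImplicit false
set_option linter.unusedSectionVars false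

namespace Pool.Agent.P.MP_bb4f54_co.T3

open Finset

namespace PD1x

variable {V ι : Type} [Fintype V] [DecidableEq V] [DecidableEq ι] {en : ι → Sym2 V}
  {A : Finset ι} {x y : V}

theorem first (hSPP : S_SPP) (h : Pth en A x y) {i : ι} (hi : i ∈ cut en A {x}) :
    ∃ b, en i = s(x, b) ∧ Rc en (A.erase i) b y ∧ ¬ Rc en (A.erase i) x b := by
  obtain ⟨h1, h2, -⟩ := mem_cut_single.1 hi
  obtain ⟨a, b, e, h3, h4, h5⟩ := (hSPP en A x y h).2 i h1
  rw [e, Sym2.mem_iff] at h2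
  rcases h2 with rfl | rfl
  · exact ⟨b, e, h4, h5⟩
  · exact (h5 h3.symm').elim

theorem one (hRCP : S_RCP) (hSPP : S_SPP) (h : Pth en A x y) (hxy : x ≠ y) : dgr en A x = 1 := by
  have h1 : Odd (dgr en A x) := (h.1 x).2 (by simp [hxy])
  have h2 : dgr en A x ≤ 1 := by
    refine card_le_one.2 fun i hi j hj => by_contra fun hij => ?_
    obtain ⟨b, -, h3, h4⟩ := first hSPP h hi
    obtain ⟨c, e, h5, h6⟩ := first hSPP h hj
    obtain ⟨B, hB, hP⟩ := (hRCP en).2.1 _ _ _ h5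
    by_cases hiB : i ∈ B
    · exact h6 (((hRCP en).2.2.2.1 B c y x hP ⟨i, hiB, (mem_cut_single.1 hi).2.1⟩).mono' hB).symm'
    · have h7 : B ⊆ A.erase i := fun k hk =>
        mem_erase.2 ⟨fun e => hiB (e ▸ hk), mem_of_mem_erase (hB hk)⟩
      exact h4 (((Rc.step (mem_erase.2 ⟨Ne.symm hij, cut_subset hj⟩) e).trans'
        (((hRCP en).2.2.1 B c y hP.1).mono' h7)).trans' h3.symm')
  rw [Nat.odd_iff] at h1
  omega

end PD1x

open PD1x in
theorem p_PD1 (hPAR : S_PAR) (hODA : S_ODA) (hRCP : S_RCP) (hSPP : S_SPP) (hCAT : S_CAT) :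
    S_PD1 := by
  intro V ι _ _ _ en
  refine ⟨fun A x y h hxy => ⟨one hRCP hSPP h hxy, one hRCP hSPP h.symm hxy.symm⟩,
    fun A x y v h hv h1 h2 => ?_, fun Z v hZ hN hv => ?_⟩
  · obtain ⟨A₁, A₂, rfl, hd, h3, h4, -⟩ := (hSPP en A x y h).1 v hv
    rw [dgr_union hd, one hRCP hSPP h3.symm h1, one hRCP hSPP h4 h2]
  · obtain ⟨i, hi, hv⟩ := hv
    obtain ⟨w, e⟩ := Sym2.mem_iff_exists.1 hv
    have hvw : v ≠ w := fun h => hN i hi (by rw [e]; exact Sym2.mk_isDiag_iff.2 h)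
    have hs : {i} ⊆ Z := singleton_subset_iff.2 hi
    obtain ⟨h1, h2⟩ := (hCAT en).2.2.1 Z {i} v w hZ hs ((hODA en).2.2.2.2.2.1 i v w e) hvw
    rw [← dgr_sdiff hs, one hRCP hSPP h1 hvw, one hRCP hSPP h2 hvw]

end Pool.Agent.P.MP_bb4f54_co.T3

end sPD1

section sE4
/-! Step E4. -/

set_option autoImplicit false
set_option linter.unusedSectionVars false

namespace Pool.Agent.P.MP_bb4f54_co.T3

open Finset

theorem E4x.two (hMAS : S_MAS) (hB1 : S_B1) {V ι : Type} [Fintype V] [DecidableEq V]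
    [DecidableEq ι] {en : ι → Sym2 V} {Γ : Finset ι} {W : Finset V}
    {ρ ua ub uc wa wa' wb wb' wc wc' : V} {p : V → ι → ℝ} {a b c ga ga' gb gb' gc gc' : ι}
    (h : Loc en Γ W ρ p a b c ua ub uc) (fa : Fk en Γ ua a ga ga' wa wa')
    (fb : Fk en Γ ub b gb gb' wb wb') (fc : Fk en Γ uc c gc gc' wc wc') (hN : 0 < NN en Γ W ρ p)
    (bc : Blk (fun v => PP en Γ p v / NN en Γ W ρ p) uc wc wc')
    (ha : 12 / 25 < PP en Γ p ua / NN en Γ W ρ p) (hb : 12 / 25 < PP en Γ p ub / NN en Γ W ρ p) :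
    Tri en Γ W ρ p a b c (2 * NN en Γ W ρ p) := by
  obtain ⟨-, -, h1, h2, -⟩ := hMAS h fa fb fc
  obtain ⟨y, hy, h3⟩ : ∃ y, (y = uc ∨ y = wc ∨ y = wc') ∧
      12 / 25 < PP en Γ p y / NN en Γ W ρ p := by
    by_contra hn
    push Not at hn
    have e1 := hn uc (by simp)
    have e2 := hn wc (by simp)
    have e3 := hn wc' (by simp)
    have e4 := add_le_add (max_le e1 e2) (max_le e1 e3)
    unfold Blk at bc
    linarith
  have h4 := h2 y (by rcases hy with rfl | rfl | rfl <;> simp)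
  simp only [List.nodup_cons, List.mem_cons, not_or] at h1
  refine (hB1 h y h4.1 h4.2 ?_ ?_).mono ?_
  · rcases hy with rfl | rfl | rfl <;> exact Ne.symm (by tauto)
  · rcases hy with rfl | rfl | rfl <;> exact Ne.symm (by tauto)
  · rw [lt_div_iff₀ hN] at ha hb h3
    linarith

theorem p_E4 (hMAS : S_MAS) (hB1 : S_B1) (hE4b : S_E4b) (hE4c : S_E4c) :
    S_E4 := by
  intro V ι _ _ _ en Γ W ρ ua ub uc wa wa' wb wb' wc wc' p a b c ga ga' gb gb' gc gc' h fa fb fc hN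
    ba bb bc
  rcases lt_or_ge (12 / 25) (PP en Γ p ua / NN en Γ W ρ p) with ha | ha <;>
  rcases lt_or_ge (12 / 25) (PP en Γ p ub / NN en Γ W ρ p) with hb | hb <;>
  rcases lt_or_ge (12 / 25) (PP en Γ p uc / NN en Γ W ρ p) with hc | hc
  · exact E4x.two hMAS hB1 h fa fb fc hN bc ha hb
  · exact E4x.two hMAS hB1 h fa fb fc hN bc ha hb
  · exact (E4x.two hMAS hB1 h.s23 fa fc fb hN bb ha hc).s23
  · exact (hE4b h.s13 fc fb fa hN bc bb hc hb ha).s13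
  · exact (E4x.two hMAS hB1 h.s13 fc fb fa hN ba hc hb).s13
  · exact (hE4b h.s23 fa fc fb hN ba bc ha hc hb).s23
  · exact hE4b h fa fb fc hN ba bb ha hb hc
  · exact hE4c h fa fb fc hN ba bb bc ha hb hc

end Pool.Agent.P.MP_bb4f54_co.T3

end sE4

section sSPC
/-! Step SPC. -/

set_option autoImplicit false
set_option linter.unusedSectionVars false

namespace Pool.Agent.P.MP_bb4f54_co.T3

open Finset

theorem p_SPC :
    S_SPC := by
  intro P L hL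
  obtain ⟨r, -, hr⟩ := exists_max_image (range L) (fun r => (P.filter fun x => x % L = r).card)
    ⟨0, mem_range.2 hL⟩
  set Q := P.filter fun x => x % L = r with hQ
  let e := Q.orderEmbOfFin rfl
  refine ⟨Q.card, fun i => if h : i < Q.card then e ⟨i, h⟩ else 0, ?_, fun i hi => ?_,
    fun i j hij hj => ?_⟩
  · rw [card_eq_sum_card_fiberwise (f := fun x => x % L) (t := range L)
      fun x _ => mem_coe.2 (mem_range.2 (Nat.mod_lt x hL))]
    simpa using sum_le_card_nsmul _ _ _ hr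
  · simp only [dif_pos hi]
    exact (mem_filter.1 (Q.orderEmbOfFin_mem rfl ⟨i, hi⟩)).1
  · simp only [dif_pos hj, dif_pos (hij.trans hj)]
    have h1 := (mem_filter.1 (Q.orderEmbOfFin_mem rfl ⟨i, hij.trans hj⟩)).2
    have h2 := (mem_filter.1 (Q.orderEmbOfFin_mem rfl ⟨j, hj⟩)).2
    have h3 : e ⟨i, hij.trans hj⟩ < e ⟨j, hj⟩ := e.strictMono hij
    have h4 := Nat.le_of_dvd (Nat.sub_pos_of_lt h3)
      ((Nat.modEq_iff_dvd' h3.le).1 (h1.trans h2.symm))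
    omega

end Pool.Agent.P.MP_bb4f54_co.T3

end sSPC

section sWN9
/-! Step WN9. -/

set_option autoImplicit false
set_option linter.unusedSectionVars false

namespace Pool.Agent.P.MP_bb4f54_co.T3

open Finset

theorem p_WN9 (hW1 : S_W1) (hCLS : S_CLS) (hG2 : S_G2) (hW3E : S_W3E) (hG3r : S_G3r) :
    S_WN9 := by
  intro V _ _ G S T O Γ v n pos R m σ e C H h
  obtain ⟨w, mw, Ys, q, W⟩ := hW1 C H h
  by_cases k : ∀ i, 0 < i → i < 8 → v (σ i).z ≠ e ∧ v (σ i).z ≠ v (σ 0).y ∧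
      ¬ (v (σ i).z 0 ∈ Ys ↔ v (σ i).z (n (σ i).z) ∈ Ys)
  · obtain ⟨r, mm, P, k', Λ, W'⟩ := hW3E C H W k
    exact hG3r C.c0 W'
  · rw [not_forall] at k
    obtain ⟨i, k⟩ := k
    have a : 0 < i := by_contra fun a => k fun c => (a c).elim
    have c : i < 8 := by_contra fun a => k fun _ c => (a c).elim
    rcases hCLS i C H W a c with u | u | u
    exacts [hG2 i C H W a c (.inl u), hG2 i C H W a c (.inr u), (k fun _ _ => u).elim]

end Pool.Agent.P.MP_bb4f54_co.T3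

end sWN9
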