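import Pool.Agent.P.MP_bb4f54_co.T3.Iface1
import Pool.Agent.P.MP_bb4f54_co.T3.Iface2
import Pool.Agent.P.MP_bb4f54_co.T3.Iface6
import Pool.Agent.P.MP_bb4f54_co.T3.Iface3

section sSPL
/-! Step SPL. -/

set_option autoImplicit false
set_option linter.unusedSectionVars false

namespace Pool.Agent.P.MP_bb4f54_co.T3

open Finset

namespace SPLx

variable {V ι : Type} [Fintype V] [DecidableEq V] [DecidableEq ι]

lemma out_le {en : ι → Sym2 V} {Γ Z : Finset ι} (hnl : NL en Γ) (hdg : ∀ w, dgr en Γ w ≤ 3)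
    (hZ : Z ⊆ Γ) (hev : Ev en Z) {q : V} (hq : q ∈ spt en Z) : dgr en (Γ \ Z) q ≤ 1 := by
  have h1 := dgr_sdiff (en := en) hZ q
  have h2 := (hnl.mono hZ).dgr_ne hq
  have h3 := hev q
  have h4 := hdg q
  rw [Nat.even_iff] at h3
  omega

lemma dgr_pos {en : ι → Sym2 V} {A : Finset ι} {v : V} {f : ι} (h : f ∈ cut en A {v}) :
    1 ≤ dgr en A v := card_pos.2 ⟨f, h⟩

lemma ear (hPAR : S_PAR) (hODA : S_ODA) (hCY1 : S_CY1) {en : ι → Sym2 V} {Γ Z P B : Finset ι}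
    {v z : V} {f : ι} (hnl : NL en Γ) (hdg : ∀ w, dgr en Γ w ≤ 3) (hZ : Z ⊆ Γ) (hc : Cy en Z)
    (hv : v ∈ spt en Z) (hf : f ∈ cut en Γ {v}) (hvz : v ≠ z) (hP : P ⊆ Γ \ Z) (hfP : f ∈ P)
    (hPo : Od en P v z) (hB : B ⊆ Z) (hBo : Od en B v z) :
    ∃ Z' ⊆ Γ, Cy en Z' ∧ f ∈ Z' ∧ Z' ∩ Z = B := by
  have hd : Disjoint B P := by
    rw [disjoint_left]
    intro i h1 h2
    exact (mem_sdiff.1 (hP h2)).2 (hB h1)
  have hD : Ev en (B ∪ P) := od_self.1 ((hODA en).1 B P v z v hd hBo hPo.symm)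
  obtain ⟨Z', hs, hc', hf'⟩ := (hCY1 en).1 (B ∪ P) f hD (mem_union_right _ hfP)
  have hCB : Z' ∩ Z ⊆ B := by
    intro i hi
    rcases mem_union.1 (hs (mem_inter.1 hi).1) with h | h
    · exact h
    · exact absurd (mem_inter.1 hi).2 (mem_sdiff.1 (hP h)).2
  have hEP : Z' \ (Z' ∩ Z) ⊆ P := by
    intro i hi
    rcases mem_union.1 (hs (mem_sdiff.1 hi).1) with h | h
    · exact absurd (mem_inter.2 ⟨(mem_sdiff.1 hi).1, hB h⟩) (mem_sdiff.1 hi).2
    · exact h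
  have hsum : ∀ q, dgr en (Z' \ (Z' ∩ Z)) q + dgr en (Z' ∩ Z) q = dgr en Z' q :=
    fun q => dgr_sdiff inter_subset_left q
  have hodd : ∀ q, Odd (dgr en (Z' ∩ Z) q) → q = v ∨ q = z := by
    intro q hq
    have h0 : dgr en (Z' ∩ Z) q ≠ 0 := by
      intro h; rw [h] at hq; simp at hq
    have h1 : q ∈ spt en Z := spt_mono inter_subset_right (mem_spt_of_dgr h0)
    have h2 := out_le hnl hdg hZ hc.2.1 h1
    have h3 := dgr_mono (en := en) hP q
    have h4 := dgr_mono (en := en) hEP q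
    have h5 := hsum q
    have h6 := hc'.2.1 q
    rw [Nat.even_iff] at h6
    rw [Nat.odd_iff] at hq
    have h7 : Odd (dgr en P q) := by rw [Nat.odd_iff]; omega
    have h8 := (hPo q).1 h7
    tauto
  have hfZ : f ∉ Z := (mem_sdiff.1 (hP hfP)).2
  have hvo : Odd (dgr en (Z' ∩ Z) v) := by
    have h1 : f ∈ cut en (Z' \ (Z' ∩ Z)) {v} :=
      mem_cut.2 ⟨mem_sdiff.2 ⟨hf', fun h => hfZ (mem_inter.1 h).2⟩, (mem_cut.1 hf).2⟩
    have h2 := dgr_pos h1
    have h3 := out_le hnl hdg hZ hc.2.1 hv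
    have h4 := dgr_mono (en := en) (hEP.trans hP) v
    have h5 := hsum v
    have h6 := hc'.2.1 v
    rw [Nat.even_iff] at h6
    rw [Nat.odd_iff]
    omega
  have hCo : Od en (Z' ∩ Z) v z := by
    rcases (hPAR en (Z' ∩ Z)).2.2.2.2.1 v z hodd with h | h
    · exact absurd (h v) (Nat.not_even_iff_odd.2 hvo)
    · exact h
  have hev : Ev en (B \ (Z' ∩ Z)) := od_self.1 ((hODA en).2.1 B (Z' ∩ Z) v z z hCB hBo hCo)
  refine ⟨Z', hs.trans (union_subset (hB.trans hZ) (hP.trans sdiff_subset)), hc', hf', ?_⟩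
  rcases hc.2.2 _ (sdiff_subset.trans hB) hev with h | h
  · exact Subset.antisymm hCB (sdiff_eq_empty_iff_subset.1 h)
  · obtain ⟨i, hi, -⟩ := ((hODA en).2.2.2.2.2.2.2 _ v z hCo hvz).1
    have h1 : i ∈ B \ (Z' ∩ Z) := by rw [h]; exact (mem_inter.1 hi).2
    exact absurd hi (mem_sdiff.1 h1).2

end SPLx

theorem p_SPL (hPAR : S_PAR) (hODA : S_ODA) (hRCP : S_RCP) (hCY1 : S_CY1) :
    S_SPL := by
  intro V ι _ _ _ en Γ Z v f hnl hdg hZ hc hv hf hfZ hcut
  obtain ⟨hfΓ, x, y, hxy, hx, hy⟩ := mem_cut.1 hf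
  have hx' : x = v := hx
  subst hx'
  have hyv : y ≠ x := hy
  have hfs : f ∈ Γ \ Z := mem_sdiff.2 ⟨hfΓ, hfZ⟩
  have hsub : (Γ \ Z).erase f ⊆ Γ \ Z := erase_subset _ _
  have hdis : ∀ P' ⊆ (Γ \ Z).erase f, Disjoint ({f} : Finset ι) P' := by
    intro P' hP'
    rw [disjoint_singleton_left]
    exact fun h => (mem_erase.1 (hP' h)).1 rfl
  have hun : ∀ P' ⊆ (Γ \ Z).erase f, {f} ∪ P' ⊆ Γ \ Z := fun P' hP' =>
    union_subset (singleton_subset_iff.2 hfs) (hP'.trans hsub)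
  have hvR : ¬ Rc en ((Γ \ Z).erase f) y x := by
    intro h
    obtain ⟨A, hA, hp⟩ := (hRCP en).2.1 _ _ _ h
    have h1 : Odd (dgr en A x) := (hp.1 x).2 (by simp [hyv.symm])
    have h2 := SPLx.out_le hnl hdg hZ hc.2.1 hv
    have h3 := dgr_mono (en := en) (hun A hA) x
    rw [dgr_union (hdis A hA)] at h3
    have h4 : f ∈ cut en {f} {x} := mem_cut.2 ⟨mem_singleton_self _, (mem_cut.1 hf).2⟩
    have h5 := SPLx.dgr_pos h4
    rw [Nat.odd_iff] at h1
    omega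
  have hz : ∃ z ∈ spt en Z, Rc en ((Γ \ Z).erase f) y z := by
    by_contra hno
    apply hcut {w | Rc en ((Γ \ Z).erase f) y w}
    ext i
    rw [mem_singleton]
    constructor
    · intro hi
      by_contra hne
      obtain ⟨hiΓ, a, b, e, ha, hb⟩ := mem_cut.1 hi
      have h1 : i ∉ Z := fun h => hno ⟨a, ⟨i, h, by rw [e]; exact Sym2.mem_mk_left a b⟩, ha⟩
      exact hb (Rc.trans' ha (Rc.step (mem_erase.2 ⟨hne, mem_sdiff.2 ⟨hiΓ, h1⟩⟩) e))
    · rintro rfl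
      exact (mem_cut_mk hxy).2 ⟨hfΓ, Or.inr ⟨Rc.refl', hvR⟩⟩
  obtain ⟨z, hzZ, hzR⟩ := hz
  have hvz : x ≠ z := by
    rintro rfl
    exact hvR hzR
  obtain ⟨P', hP', hp'⟩ := (hRCP en).2.1 _ _ _ hzR
  have hPo : Od en ({f} ∪ P') x z :=
    (hODA en).1 _ _ x y z (hdis P' hP') ((hODA en).2.2.2.2.2.1 f x y hxy) hp'.1
  have hfP : f ∈ ({f} ∪ P' : Finset ι) := mem_union_left _ (mem_singleton_self _)
  obtain ⟨A, hA, hp⟩ := (hRCP en).2.1 _ _ _ ((hRCP en).2.2.2.2 Z x z hc hv hzZ)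
  have hA' : Od en (Z \ A) x z := (hODA en).2.2.2.2.1 Z A x z hA hc.2.1 hp.1
  obtain ⟨Z₁, s1, c1, f1, e1⟩ :=
    SPLx.ear hPAR hODA hCY1 hnl hdg hZ hc hv hf hvz (hun P' hP') hfP hPo hA hp.1
  obtain ⟨Z₂, s2, c2, f2, e2⟩ :=
    SPLx.ear hPAR hODA hCY1 hnl hdg hZ hc hv hf hvz (hun P' hP') hfP hPo sdiff_subset hA'
  refine ⟨Z₁, s1, Z₂, s2, c1, c2, f1, f2, ?_, ?_⟩
  · intro i hi
    by_cases h : i ∈ A
    · rw [← e1] at h
      exact mem_union_left _ (mem_inter.1 h).1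
    · have h' : i ∈ Z \ A := mem_sdiff.2 ⟨hi, h⟩
      rw [← e2] at h'
      exact mem_union_right _ (mem_inter.1 h').1
  · intro i hi h1 h2
    have h3 : i ∈ A := by rw [← e1]; exact mem_inter.2 ⟨h1, hi⟩
    have h4 : i ∈ Z \ A := by rw [← e2]; exact mem_inter.2 ⟨h2, hi⟩
    exact (mem_sdiff.1 h4).2 h3

end Pool.Agent.P.MP_bb4f54_co.T3

end sSPL

section sSEG
/-! Step SEG. -/

set_option autoImplicit false
set_option linter.unusedSectionVars false

namespace Pool.Agent.P.MP_bb4f54_co.T3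

open Finset

namespace SEGx

variable {V : Type} [DecidableEq V] {Γ : Finset (Sym2 V)} {v : ℕ → V} {n : ℕ}

lemma einj (h : Seg Γ v n) {i j : ℕ} (hi : i < n) (hj : j < n)
    (e : s(v i, v (i + 1)) = s(v j, v (j + 1))) : i = j := by
  rcases Sym2.eq_iff.1 e with ⟨h1, -⟩ | ⟨h1, h2⟩
  · exact h.inj _ _ hi.le hj.le h1
  · have a := h.inj _ _ hi.le hj h1
    have b := h.inj _ _ hi hj.le h2
    omega

lemma spt_ES {a b : ℕ} {w : V} (hw : w ∈ spt id (ES v a b)) :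
    ∃ i, a ≤ i ∧ i ≤ b ∧ w = v i := by
  obtain ⟨e, he, hw⟩ := hw
  obtain ⟨i, h1, h2, rfl⟩ := mem_ES.1 he
  rcases Sym2.mem_iff.1 hw with rfl | rfl
  · exact ⟨i, h1, h2.le, rfl⟩
  · exact ⟨i + 1, by omega, h2, rfl⟩

lemma ES_succ {a b : ℕ} (hab : a ≤ b) :
    ES v a (b + 1) = ES v a b ∪ {s(v b, v (b + 1))} := by
  ext e
  simp only [mem_ES, mem_union, mem_singleton]
  constructor
  · rintro ⟨i, h1, h2, rfl⟩
    rcases Nat.lt_succ_iff_lt_or_eq.1 h2 with h | rfl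
    · exact Or.inl ⟨i, h1, h, rfl⟩
    · exact Or.inr rfl
  · rintro (⟨i, h1, h2, rfl⟩ | rfl)
    · exact ⟨i, h1, by omega, rfl⟩
    · exact ⟨b, hab, by omega, rfl⟩

lemma pth [Fintype V] (hODA : S_ODA) (hCAT : S_CAT) (h : Seg Γ v n) {a b : ℕ} (hab : a ≤ b)
    (hb : b ≤ n) : Pth id (ES v a b) (v a) (v b) := by
  induction b, hab using Nat.le_induction with
  | base =>
    have : ES v a a = ∅ := by simp [ES]
    rw [this]; exact pth_self
  | succ b hab ih =>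
    rw [ES_succ hab]
    have hne : v b ≠ v (b + 1) := fun e => by
      have := h.inj _ _ (by omega) hb e
      omega
    refine ((hCAT (id : Sym2 V → Sym2 V)).1 _ _ _ (v b) _ (ih (by omega))
      ((hODA (id : Sym2 V → Sym2 V)).2.2.2.2.2.2.1 _ _ _ rfl hne) ?_).2
    intro w hw hw'
    obtain ⟨i, h1, h2, rfl⟩ := spt_ES hw
    obtain ⟨e, he, hw'⟩ := hw'
    rw [mem_singleton.1 he] at hw'
    rcases Sym2.mem_iff.1 hw' with e1 | e1
    · exact e1
    · have := h.inj _ _ (by omega) hb e1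
      omega

end SEGx

open SEGx in
theorem p_SEG (hODA : S_ODA) (hCAT : S_CAT) :
    S_SEG := by
  intro V _ _ Γ v n h
  have hsub : ∀ a b, b ≤ n → ES v a b ⊆ Γ := by
    intro a b hb e he
    obtain ⟨i, -, h2, rfl⟩ := mem_ES.1 he
    exact h.ed i (by omega)
  refine ⟨fun a b hab hb => ⟨pth hODA hCAT h hab hb, hsub a b hb, ?_, fun w hw => spt_ES hw⟩,
    fun a b hab hb => ⟨⟨pth hODA hCAT h hab.le hb, hsub a b hb, ?_, ?_⟩, ?_⟩, ?_, ?_, ?_, ?_⟩
  · rw [ES, card_image_of_injOn, Nat.card_Ico]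
    intro i hi j hj e
    simp only [coe_Ico, Set.mem_Ico] at hi hj
    exact einj h (by omega) (by omega) e
  · intro e
    have := h.inj _ _ (by omega) hb e
    omega
  · intro w hw h1 h2
    obtain ⟨i, h3, h4, rfl⟩ := spt_ES hw
    have a1 : i ≠ a := fun e => h1 (by rw [e])
    have a2 : i ≠ b := fun e => h2 (by rw [e])
    exact h.dg i (by omega) (by omega)
  · intro i h1 h2
    rcases Nat.lt_or_ge i b with h3 | h3
    · exact ⟨_, mem_ES.2 ⟨i, h1, h3, rfl⟩, Sym2.mem_mk_left _ _⟩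
    · obtain ⟨j, rfl⟩ : ∃ j, i = j + 1 := ⟨i - 1, by omega⟩
      exact ⟨_, mem_ES.2 ⟨j, by omega, by omega, rfl⟩, Sym2.mem_mk_right _ _⟩
  · intro i h0 hi
    obtain ⟨j, rfl⟩ : ∃ j, i = j + 1 := ⟨i - 1, by omega⟩
    simp only [Nat.add_sub_cancel]
    have hd := h.dg _ h0 hi
    symm
    apply eq_of_subset_of_card_le
    · intro e he
      simp only [mem_insert, mem_singleton] at he
      rcases he with rfl | rfl
      · refine mem_cut_single.2 ⟨h.ed j (by omega), Sym2.mem_mk_right _ _, ?_⟩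
        simp only [id, Sym2.mk_isDiag_iff]
        intro e
        have := h.inj _ _ (by omega) hi.le e
        omega
      · refine mem_cut_single.2 ⟨h.ed _ hi, Sym2.mem_mk_left _ _, ?_⟩
        simp only [id, Sym2.mk_isDiag_iff]
        intro e
        have := h.inj _ _ (by omega) hi e
        omega
    · rw [card_pair]
      · exact hd.le
      · intro e
        have := einj h (by omega) hi e
        omega
  · intro a b c hab hbc hc
    constructor
    · ext e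
      simp only [mem_ES, mem_union]
      constructor
      · rintro ⟨i, h1, h2, rfl⟩
        rcases Nat.lt_or_ge i b with h3 | h3
        · exact Or.inl ⟨i, h1, h3, rfl⟩
        · exact Or.inr ⟨i, h3, h2, rfl⟩
      · rintro (⟨i, h1, h2, rfl⟩ | ⟨i, h1, h2, rfl⟩)
        · exact ⟨i, h1, by omega, rfl⟩
        · exact ⟨i, by omega, h2, rfl⟩
    · rw [disjoint_left]
      intro e he he'
      obtain ⟨i, h1, h2, rfl⟩ := mem_ES.1 he
      obtain ⟨j, h3, h4, e⟩ := mem_ES.1 he'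
      have := einj h (by omega) (by omega) e
      omega
  · refine ⟨fun i hi => ?_, fun i j hi hj e => ?_, fun i h0 hi => h.dg _ (by omega) (by omega)⟩
    · have := h.ed (n - (i + 1)) (by omega)
      rw [show n - (i + 1) + 1 = n - i by omega, Sym2.eq_swap] at this
      exact this
    · have := h.inj _ _ (by omega) (by omega) e
      omega
  · intro a b hab hb
    ext e
    simp only [mem_ES]
    constructor
    · rintro ⟨i, h1, h2, rfl⟩
      refine ⟨n - (i + 1), by omega, by omega, ?_⟩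
      rw [show n - (i + 1) + 1 = n - i by omega, Sym2.eq_swap]
    · rintro ⟨i, h1, h2, rfl⟩
      refine ⟨n - (i + 1), by omega, by omega, ?_⟩
      rw [show n - (n - (i + 1)) = i + 1 by omega, show n - (n - (i + 1) + 1) = i by omega,
        Sym2.eq_swap]

end Pool.Agent.P.MP_bb4f54_co.T3

end sSEG

section sKK
/-! Step KK. -/

set_option autoImplicit false
set_option linter.unusedSectionVars false

namespace Pool.Agent.P.MP_bb4f54_co.T3

open Finset

namespace KKx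

variable {V ι : Type} [Fintype V] [DecidableEq V] [DecidableEq ι] {en : ι → Sym2 V}
  {Γ : Finset ι} {W : Finset V} {ρ ua ub uc u w w' x y : V} {p : V → ι → ℝ} {a b c e g g' i : ι}

theorem star (h : Cub en Γ W) (hi : i ∈ Γ) (e : en i = s(x, y)) :
    x ≠ y ∧ x ∈ W ∧ y ∈ W ∧ i ∈ cut en Γ {x} ∧ i ∈ cut en Γ {y} := by
  have h1 := h.nl i hi
  refine ⟨fun h2 => h1 (by rw [e, h2]; simp), h.sp i hi x (by simp [e]), h.sp i hi y (by simp [e]),
    mem_cut_single.2 ⟨hi, by simp [e], h1⟩, mem_cut_single.2 ⟨hi, by simp [e], h1⟩⟩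

theorem third (hGIR : S_GIR) (h : Cub en Γ W) (hu : u ∈ W) (he : e ∈ cut en Γ {u})
    (hg : g ∈ cut en Γ {u}) (hne : g ≠ e) :
    ∃ r R, cut en Γ {u} = {e, g, r} ∧ en r = s(u, R) := by
  obtain ⟨g₁, g₂, w₁, w₂, hF⟩ := (hGIR en Γ W h).2.1 u hu e he
  rw [hF.st] at hg
  simp only [mem_insert, mem_singleton, hne, false_or] at hg
  rcases hg with rfl | rfl
  · exact ⟨_, _, hF.st, hF.e2⟩
  · exact ⟨_, _, hF.swap.st, hF.e1⟩

theorem mem3 (h : cut en Γ {u} = {e, g, g'}) : e ∈ Γ ∧ g ∈ Γ ∧ g' ∈ Γ := by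
  have h1 : ({e, g, g'} : Finset ι) ⊆ Γ := h ▸ cut_subset
  exact ⟨h1 (by simp), h1 (by simp), h1 (by simp)⟩

theorem ne3 (hc : Cub en Γ W) (hu : u ∈ W) (h : cut en Γ {u} = {e, g, g'}) :
    e ≠ g ∧ e ≠ g' ∧ g ≠ g' := ne_of_card_three (by rw [← h]; exact hc.dg u hu)

theorem out (hGIR : S_GIR) (h : Loc en Γ W ρ p a b c ua ub uc) (hF : Fk en Γ ua a g g' w w') :
    ρ ≠ ua ∧ ua ≠ ub ∧ ua ∈ W ∧ w' ∈ W ∧ w' ≠ ρ ∧ w' ≠ ua ∧ w' ≠ ub ∧ w' ≠ uc ∧ w' ≠ w := by
  have hc := h.rz.rt.cub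
  obtain ⟨-, -, -, hs, ht⟩ := hGIR en Γ W hc
  have hs := hs (by have := h.five; omega)
  have ht := (ht h.nt).1 h.five
  obtain ⟨ha, hb, hc'⟩ := mem3 h.rz.rt.st
  obtain ⟨-, hg, hg'⟩ := mem3 hF.st
  obtain ⟨h1, -, h2, -⟩ := star hc ha h.rz.ea
  obtain ⟨h3, -, h4, -⟩ := star hc hg' hF.e2
  obtain ⟨n1, -, -⟩ := ne3 hc h.rz.rt.hρ h.rz.rt.st
  obtain ⟨-, n2, n3⟩ := ne3 hc h2 hF.st
  refine ⟨h1, fun e => n1 (hs _ ha _ hb ?_), h2, h4, fun e => n2 (hs _ ha _ hg' ?_), h3.symm,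
    fun e => ht ρ ua ub ⟨a, ha, h.rz.ea⟩ ⟨g', hg', e ▸ hF.e2⟩ (Ad.symm ⟨b, hb, h.rz.eb⟩),
    fun e => ht ρ ua uc ⟨a, ha, h.rz.ea⟩ ⟨g', hg', e ▸ hF.e2⟩ (Ad.symm ⟨c, hc', h.rz.ec⟩),
    fun e => n3 (hs _ hg _ hg' ?_)⟩
  · rw [h.rz.ea, h.rz.eb, e]
  · rw [h.rz.ea, hF.e2, e, Sym2.eq_swap]
  · rw [hF.e1, hF.e2, e]

theorem outside (h : Loc en Γ W ρ p a b c ua ub uc) (hne : ρ ≠ ua) (hu : ua ∈ W) (Y : Set V)
    (h1 : ρ ∈ Y) (h2 : ua ∈ Y) {k l m : ι}
    (hY : ∀ i ∈ Γ, ∀ x ∈ Y, i ∈ cut en Γ {x} → ¬ (∀ v ∈ en i, v ∈ Y) → i ∈ ({k, l, m} : Finset ι)) :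
    ∀ x ∈ W, ∀ y ∈ W, x ∉ Y → y ∉ Y → x = y := by
  refine (h.nt Y ((card_le_card fun i hi => ?_).trans (card_le_three (a := k) (b := l)
    (c := m)))).resolve_left fun h3 => hne (h3 ρ h.rz.rt.hρ ua hu h1 h2)
  obtain ⟨hi, x, y, e, hx, hy⟩ := mem_cut.1 hi
  exact hY i hi x hx (star h.rz.rt.cub hi e).2.2.2.1 fun h3 => hy (h3 y (by simp [e]))

end KKx

open KKx in
theorem p_KK (hPAR : S_PAR) (hGIR : S_GIR) (hK33 : S_K33) :
    S_KK := by
  intro V ι _ _ _ en Γ W ρ ua ub uc w wa wb p a b c ga ga' gb gb' h hA hB hor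
  have hc := h.rz.rt.cub
  obtain ⟨ha, hb, hc'⟩ := mem3 h.rz.rt.st
  obtain ⟨-, hga, hga'⟩ := mem3 hA.st
  obtain ⟨-, hgb, hgb'⟩ := mem3 hB.st
  obtain ⟨a1, a2, a3, a4, a5, a6, a7, a8, a9⟩ := out hGIR h hA
  obtain ⟨b1, -, b3, b4, b5, b6, b7, b8, b9⟩ := out hGIR h.s12 hB
  obtain ⟨-, a2', -, w4, w5, w6, w8, w7, -⟩ := out hGIR h.s23 hA.swap
  obtain ⟨-, b2', -⟩ := out hGIR h.s12.s23 hB
  have hab : gb ≠ ga := fun e => a2 (Sym2.congr_left.1 (hA.e1.symm.trans (e ▸ hB.e1)))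
  obtain ⟨r, R, hr, er⟩ := third hGIR hc w4 (star hc hga hA.e1).2.2.2.2
    (star hc hgb hB.e1).2.2.2.2 hab
  obtain ⟨c1, -, c3, -, c5⟩ := star hc hc' h.rz.ec
  have hr' := (mem3 hr).2.2
  have had : Ad en Γ w uc := by
    rcases hor with rfl | hor
    swap
    · exact hor
    obtain ⟨r', R', hr2, -⟩ := third hGIR hc a4 (star hc hga' hA.e2).2.2.2.2
      (star hc hgb' hB.e2).2.2.2.2 fun e => a2 (Sym2.congr_left.1 (hA.e2.symm.trans (e ▸ hB.e2)))
    obtain ⟨-, -, -, hs, ht⟩ := hGIR en Γ W hc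
    have hs := hs (by have := h.five; omega)
    obtain ⟨r1, -, r3, -, r5⟩ := star hc hr' er
    obtain ⟨-, n1, n2⟩ := ne3 hc w4 hr
    refine ⟨r, hr', er.trans (congrArg _ ((outside h a1 a3 {ρ, ua, ub, w, wa}
      (by simp) (by simp) (k := c) (l := r) (m := r') (fun i _ x hx hi hv => ?_) R r3 uc c3 ?_ ?_)))⟩
    · simp only [Set.mem_insert_iff, Set.mem_singleton_iff] at hx
      rcases hx with rfl | rfl | rfl | rfl | rfl <;>
        simp only [h.rz.rt.st, hA.st, hB.st, hr, hr2, mem_insert, mem_singleton] at hi <;>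
        rcases hi with rfl | rfl | rfl <;>
        simp [h.rz.ea, h.rz.eb, hA.e1, hA.e2, hB.e1, hB.e2] at hv ⊢
    · simp only [Set.mem_insert_iff, Set.mem_singleton_iff, not_or]
      refine ⟨?_, ?_, ?_, r1.symm, ?_⟩ <;> rintro rfl
      · simp only [h.rz.rt.st, mem_insert, mem_singleton] at r5
        rcases r5 with rfl | rfl | rfl
        · exact w6 (Sym2.congr_right.1 (Sym2.eq_swap.trans (er.symm.trans h.rz.ea)))
        · exact w7 (Sym2.congr_right.1 (Sym2.eq_swap.trans (er.symm.trans h.rz.eb)))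
        · exact w8 (Sym2.congr_right.1 (Sym2.eq_swap.trans (er.symm.trans h.rz.ec)))
      · exact n1 (hs _ hga _ hr' (by rw [hA.e1, er, Sym2.eq_swap]))
      · exact n2 (hs _ hgb _ hr' (by rw [hB.e1, er, Sym2.eq_swap]))
      · exact (ht h.nt).1 h.five _ _ _ ⟨ga, hga, hA.e1⟩ ⟨r, hr', er⟩ (Ad.symm ⟨ga', hga', hA.e2⟩)
    · simp [c1.symm, a2'.symm, b2'.symm, w8.symm, a8.symm]
  obtain ⟨j, hj, ej⟩ := had
  obtain ⟨-, -, -, j4, j5⟩ := star hc hj ej
  obtain ⟨gc', wc', hC, eC⟩ := third hGIR hc c3 c5 j5 fun e =>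
    w5 (Sym2.congr_left.1 (ej.symm.trans (e ▸ h.rz.ec)))
  have hF : Fk en Γ uc c j gc' w wc' := ⟨hC, ej.trans Sym2.eq_swap, eC⟩
  obtain ⟨-, -, -, d4, d5, d6, d7, d8, d9⟩ := out hGIR h.s13 hF
  obtain rfl : j = r := by
    simp only [hr, mem_insert, mem_singleton] at j4
    rcases j4 with rfl | rfl | rfl
    · exact absurd (Sym2.congr_left.1 (hA.e1.symm.trans hF.e1)) a2'
    · exact absurd (Sym2.congr_left.1 (hB.e1.symm.trans hF.e1)) b2'
    · rfl
  have key := outside h a1 a3 {ρ, ua, ub, uc, w} (by simp) (by simp) (k := ga') (l := gb')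
    (m := gc') fun i _ x hx hi hv => by
      simp only [Set.mem_insert_iff, Set.mem_singleton_iff] at hx
      rcases hx with rfl | rfl | rfl | rfl | rfl <;>
        simp only [h.rz.rt.st, hA.st, hB.st, hr, hC, mem_insert, mem_singleton] at hi <;>
        rcases hi with rfl | rfl | rfl <;>
        simp [h.rz.ea, h.rz.eb, h.rz.ec, hA.e1, hB.e1, hF.e1] at hv ⊢
  obtain rfl := key wa a4 wb b4 (by simp [*]) (by simp [*])
  obtain rfl := key wa a4 wc' d4 (by simp [*]) (by simp [*])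
  exact hK33 h hA hB hF

end Pool.Agent.P.MP_bb4f54_co.T3

end sKK

section sA1a
/-! Step A1a. -/

set_option autoImplicit false
set_option linter.unusedSectionVars false

namespace Pool.Agent.P.MP_bb4f54_co.T3

open Finset

namespace A1ax

variable {V : Type} [Fintype V] [DecidableEq V] {G : SimpleGraph V} {O : Finset V}
  {Φ : Finset (Sym2 V)}

lemma inO (h : Al G O Φ) {e : Sym2 V} (he : e ∈ Φ) {v : V} (hv : v ∈ e) : v ∈ O :=
  (mem_ins.1 (h.sub he)).2 v hv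

lemma er (h : Al G O Φ) {e : Sym2 V} (he : e ∈ Φ)
    (H : ∀ p q, Po G O p → Po G O q → Rc id Φ p q → Rc id (Φ.erase e) p q) : False := by
  have h1 := h.mn (Φ.erase e) ((erase_subset _ _).trans h.sub)
    (fun a b ha hb hr => H a b ha hb (h.con a b ha hb hr))
  have h2 := card_erase_lt_of_mem he
  omega

lemma spl {a b p w : V} (hp : ¬ Rc id (Φ.erase s(a, b)) a p) (hr : Rc id Φ p w) :
    Rc id (Φ.erase s(a, b)) p w ∨
      (Rc id (Φ.erase s(a, b)) a w ∧ Rc id (Φ.erase s(a, b)) p b) := by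
  induction hr with
  | refl => exact Or.inl Rc.refl'
  | @tail u u' _ hs ih =>
    obtain ⟨i, hi, e⟩ := hs
    by_cases hie : i = s(a, b)
    · have e' : s(u, u') = s(a, b) := e.symm.trans hie
      rcases Sym2.eq_iff.1 e' with ⟨rfl, rfl⟩ | ⟨rfl, rfl⟩
      · rcases ih with h1 | h1
        · exact absurd h1.symm' hp
        · exact Or.inl h1.2
      · rcases ih with h1 | h1
        · exact Or.inr ⟨Rc.refl', h1⟩
        · exact Or.inr ⟨Rc.refl', h1.2⟩
    · have hs : Rc id (Φ.erase s(a, b)) u u' := Rc.step (mem_erase.2 ⟨hie, hi⟩) e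
      exact ih.imp (fun h1 => h1.trans' hs) (fun h1 => ⟨h1.1.trans' hs, h1.2⟩)

lemma byp {a b p w : V} (hab : Rc id (Φ.erase s(a, b)) a b) (hr : Rc id Φ p w) :
    Rc id (Φ.erase s(a, b)) p w := by
  induction hr with
  | refl => exact Rc.refl'
  | @tail u u' _ hs ih =>
    obtain ⟨i, hi, e⟩ := hs
    by_cases hie : i = s(a, b)
    · have e' : s(u, u') = s(a, b) := e.symm.trans hie
      rcases Sym2.eq_iff.1 e' with ⟨rfl, rfl⟩ | ⟨rfl, rfl⟩
      · exact ih.trans' hab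
      · exact ih.trans' hab.symm'
    · exact ih.trans' (Rc.step (mem_erase.2 ⟨hie, hi⟩) e)

lemma sEG (h : Al G O Φ) : Sg G O Φ ⊆ EG G :=
  union_subset (h.sub.trans ins_subset) cut_subset

lemma dg1 (h : Al G O Φ) {t : V} (ht : t ∉ O) : dgr id (Sg G O Φ) t ≤ 1 := by
  refine le_trans (card_le_card fun e he => ?_) (h.un t ht)
  obtain ⟨h1, h2, h3⟩ := mem_cut_single.1 he
  rcases mem_union.1 h1 with h4 | h4
  · exact absurd (inO h h4 h2) ht
  · exact mem_cut_single.2 ⟨h4, h2, h3⟩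

lemma acy (hODA : S_ODA) (hRCP : S_RCP) (h : Al G O Φ) : Acy id (Sg G O Φ) := by
  intro D hD hE
  by_contra hne
  have hs : D ⊆ Φ := by
    intro e he
    rcases mem_union.1 (hD he) with h1 | h1
    · exact h1
    · obtain ⟨h2, x, y, hxy, -, hy⟩ := mem_cut.1 h1
      have h3 : dgr id D y ≤ 1 := (dgr_mono hD y).trans (dg1 h hy)
      have h4 : dgr id D y ≠ 0 := ((nl_EG (G := G)).mono (hD.trans (sEG h))).dgr_ne
        ⟨e, he, by rw [hxy]; exact Sym2.mem_mk_right _ _⟩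
      have h5 := Nat.even_iff.1 (hE y)
      omega
  obtain ⟨e, he⟩ := nonempty_iff_ne_empty.2 hne
  induction e using Sym2.ind with
  | _ a b =>
    have h1 : Od id (D \ {s(a, b)}) a b :=
      (hODA id).2.2.2.2.1 D {s(a, b)} a b (singleton_subset_iff.2 he) hE
        ((hODA id).2.2.2.2.2.1 _ a b rfl)
    have h2 : Rc id (Φ.erase s(a, b)) a b :=
      ((hRCP id).2.2.1 _ a b h1).mono' (by
        rw [sdiff_singleton_eq_erase]; exact erase_subset_erase _ hs)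
    exact er h (hs he) fun p q _ _ hr => byp h2 hr

end A1ax

open A1ax in
theorem p_A1a (hODA : S_ODA) (hRCP : S_RCP) (hCY1 : S_CY1) :
    S_A1a := by
  intro V _ _ G O Φ h
  have _ : S_CY1 := hCY1
  refine ⟨acy hODA hRCP h, fun a b he => ?_, sEG h, ?_, fun a ha b hb he => ?_,
    fun a b ha hr => ?_, fun t ht => dg1 h ht⟩
  · by_contra hc
    refine er h he fun p q hp hq hr => ?_
    rcases spl (fun h1 => hc ⟨p, hp, h1⟩) hr with h1 | h1
    · exact h1
    · exact absurd ⟨q, hq, h1.1⟩ hc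
  · refine disjoint_left.2 fun e he h1 => ?_
    obtain ⟨-, x, y, hxy, -, hy⟩ := mem_cut.1 h1
    exact hy (inO h he (show y ∈ id e by rw [hxy]; exact Sym2.mem_mk_right _ _))
  · rcases mem_union.1 he with h1 | h1
    · exact h1
    · rcases cr_mk.1 (mem_cut.1 h1).2 with h2 | h2
      · exact absurd hb h2.2
      · exact absurd ha h2.2
  · induction hr with
    | refl => exact ha
    | @tail u u' _ hs _ =>
      obtain ⟨i, hi, e⟩ := hs
      exact inO h hi (show u' ∈ id i by rw [e]; exact Sym2.mem_mk_right _ _)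

end Pool.Agent.P.MP_bb4f54_co.T3

end sA1a

section sCAT
/-! Step CAT. -/

set_option autoImplicit false
set_option linter.unusedSectionVars false

namespace Pool.Agent.P.MP_bb4f54_co.T3

open Finset

namespace CATx

variable {V ι : Type} [DecidableEq ι] {en : ι → Sym2 V}

/-- A vertex of odd degree in the `A`-part of an even set lies on both `A` and `B`. -/
lemma odd_mem {A B D : Finset ι} (hD : D ⊆ A ∪ B) (he : Ev en D) {v : V}
    (hv : Odd (dgr en (D ∩ A) v)) : v ∈ spt en A ∧ v ∈ spt en B := by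
  have h1 := dgr_sdiff (en := en) (inter_subset_left (s₁ := D) (s₂ := A)) v
  have h2 := he v
  rw [Nat.even_iff] at h2
  rw [Nat.odd_iff] at hv
  refine ⟨spt_mono (A := D ∩ A) inter_subset_right (mem_spt_of_dgr (by omega)),
    spt_mono (A := D \ (D ∩ A)) ?_ (mem_spt_of_dgr (by omega))⟩
  intro i hi
  have := hD (mem_sdiff.1 hi).1
  simp only [mem_sdiff, mem_inter, mem_union] at hi this
  tauto

lemma sub_of_inter {A B D : Finset ι} (hD : D ⊆ A ∪ B) (h : D ∩ A = ∅) : D ⊆ B := by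
  intro i hi
  rcases mem_union.1 (hD hi) with h' | h'
  · have : i ∈ D ∩ A := mem_inter.2 ⟨hi, h'⟩
    simp [h] at this
  · exact h'

lemma acy_of_cy {Z M : Finset ι} {x y : V} (hZ : Cy en Z) (hM : M ⊆ Z) (ho : Od en M x y)
    (hxy : x ≠ y) : Acy en M := by
  intro D hD he
  rcases hZ.2.2 D (hD.trans hM) he with h | h
  · exact h
  · have hMD : M = D := subset_antisymm (h ▸ hM) hD
    have h1 := (ho x).2 (by simpa using hxy)
    rw [hMD] at h1
    exact absurd (he x) (Nat.not_even_iff_odd.2 h1)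

end CATx

open CATx in
theorem p_CAT (hPAR : S_PAR) (hODA : S_ODA) :
    S_CAT := by
  intro V ι _ _ _ en
  obtain ⟨o1, o2, -, -, o5, -, -, o8⟩ := hODA en
  have c2 : ∀ A B x y, Pth en A x y → Pth en B x y → x ≠ y → Disjoint A B →
      (∀ w ∈ spt en A, w ∈ spt en B → w = x ∨ w = y) → Cy en (A ∪ B) := by
    intro A B x y hA hB hxy hd hc
    refine ⟨?_, od_self.1 (o1 A B x y x hd hA.1 hB.1.symm), fun D hD he => ?_⟩
    · obtain ⟨i, hi, -⟩ := (o8 A x y hA.1 hxy).1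
      exact ⟨i, mem_union_left _ hi⟩
    · rcases (hPAR en (D ∩ A)).2.2.2.2.1 x y (fun v hv =>
        hc v (odd_mem hD he hv).1 (odd_mem hD he hv).2) with h | h
      · exact Or.inl (hB.2 D (sub_of_inter hD (hA.2 _ inter_subset_right h)) he)
      · right
        have e1 : A \ (D ∩ A) = ∅ :=
          hA.2 _ sdiff_subset (od_self.1 (o2 A (D ∩ A) x y y inter_subset_right hA.1 h))
        have hs : D \ (D ∩ A) ⊆ B := by
          intro i hi
          have := hD (mem_sdiff.1 hi).1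
          simp only [mem_sdiff, mem_inter, mem_union] at hi this
          tauto
        have e2 : B \ (D \ (D ∩ A)) = ∅ :=
          hB.2 _ sdiff_subset (od_self.1 (o2 B _ x y y hs hB.1
            (o5 D (D ∩ A) x y inter_subset_left he h)))
        refine subset_antisymm hD (union_subset ?_ ?_)
        · exact (sdiff_eq_empty_iff_subset.1 e1).trans inter_subset_left
        · exact (sdiff_eq_empty_iff_subset.1 e2).trans sdiff_subset
  have c3 : ∀ Z M x y, Cy en Z → M ⊆ Z → Od en M x y → x ≠ y →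
      Pth en M x y ∧ Pth en (Z \ M) x y := by
    intro Z M x y hZ hM ho hxy
    have ho' := o5 Z M x y hM hZ.2.1 ho
    exact ⟨⟨ho, acy_of_cy hZ hM ho hxy⟩, ho', acy_of_cy hZ sdiff_subset ho' hxy⟩
  refine ⟨?_, c2, c3, ?_⟩
  · intro A B x y z hA hB hc
    have hd : Disjoint A B := by
      rw [disjoint_left]
      intro i hi hi'
      have hn := hA.2.nl i hi
      have hv : ∀ v ∈ en i, v = y := fun v hv => hc v ⟨i, hi, hv⟩ ⟨i, hi', hv⟩
      revert hn hv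
      induction en i using Sym2.ind with
      | _ a b =>
        intro hn hv
        exact hn (Sym2.mk_isDiag_iff.2
          ((hv a (Sym2.mem_mk_left a b)).trans (hv b (Sym2.mem_mk_right a b)).symm))
    refine ⟨hd, o1 A B x y z hd hA.1 hB.1, fun D hD he => ?_⟩
    have h := (hPAR en (D ∩ A)).2.2.2.2.2.1 y (fun v hv =>
      hc v (odd_mem hD he hv).1 (odd_mem hD he hv).2)
    exact hB.2 D (sub_of_inter hD (hA.2 _ inter_subset_right h)) he
  · intro Z M A x y hZ hM ho hxy hA hd hc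
    exact c2 _ A x y (c3 Z M x y hZ hM ho hxy).2 hA hxy hd hc

end Pool.Agent.P.MP_bb4f54_co.T3

end sCAT

section sCY1
/-! Step CY1. -/

set_option autoImplicit false
set_option linter.unusedSectionVars false

namespace Pool.Agent.P.MP_bb4f54_co.T3

open Finset

namespace CY1x

variable {V ι : Type} [DecidableEq ι] {en : ι → Sym2 V}

theorem one (D : Finset ι) (i : ι) (hD : Ev en D) (hi : i ∈ D) :
    ∃ Z ⊆ D, Cy en Z ∧ i ∈ Z := by
  classical
  obtain ⟨Z, hZ, hmin⟩ := exists_min_image (D.powerset.filter fun Z => Ev en Z ∧ i ∈ Z) card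
    ⟨D, mem_filter.2 ⟨mem_powerset_self _, hD, hi⟩⟩
  obtain ⟨h1, h2, h3⟩ := mem_filter.1 hZ
  have h1 := mem_powerset.1 h1
  refine ⟨Z, h1, ⟨⟨i, h3⟩, h2, fun E hE hev => ?_⟩, h3⟩
  by_cases hiE : i ∈ E
  · exact Or.inr (eq_of_subset_of_card_le hE
      (hmin E (mem_filter.2 ⟨mem_powerset.2 (hE.trans h1), hev, hiE⟩)))
  · left
    have h4 := hmin (Z \ E) (mem_filter.2 ⟨mem_powerset.2 (sdiff_subset.trans h1),
      h2.sdiff hev hE, mem_sdiff.2 ⟨h3, hiE⟩⟩)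
    have h5 := card_sdiff_add_card_eq_card hE
    exact card_eq_zero.1 (by omega)

theorem other {Γ Z : Finset ι} {i : ι} {v : V} (hZ : Ev en Z) (hi : i ∈ Z)
    (hc : i ∈ cut en Γ {v}) : ∃ j ∈ cut en Z {v}, j ≠ i := by
  by_contra h
  push Not at h
  have e : cut en Z {v} = {i} := eq_singleton_iff_unique_mem.2
    ⟨mem_cut.2 ⟨hi, (mem_cut.1 hc).2⟩, h⟩
  have := hZ v
  rw [dgr, e, card_singleton] at this
  exact absurd this (by decide)

end CY1x

open CY1x in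
theorem p_CY1 (hPAR : S_PAR) (hODA : S_ODA) (hRCP : S_RCP) (hCAT : S_CAT) :
    S_CY1 := by
  intro V ι _ _ _ en
  have h2 : ∀ Γ i x y, i ∈ Γ → en i = s(x, y) → Rc en (Γ.erase i) x y →
      ∃ Z ⊆ Γ, Cy en Z ∧ i ∈ Z := by
    intro Γ i x y hi e hr
    obtain ⟨A, hA, hp⟩ := (hRCP en).2.1 _ x y hr
    have hiA : i ∉ A := fun h => notMem_erase i Γ (hA h)
    have hev : Ev en (A ∪ {i}) := od_self.1 ((hODA en).1 A {i} x y x
      (disjoint_singleton_right.2 hiA) hp.1 ((hODA en).2.2.2.2.2.1 i x y e).symm)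
    obtain ⟨Z, hZ, hc, hiZ⟩ := one _ i hev (mem_union_right _ (mem_singleton_self i))
    exact ⟨Z, hZ.trans (union_subset (hA.trans (erase_subset _ _)) (singleton_subset_iff.2 hi)),
      hc, hiZ⟩
  refine ⟨one, h2, ?_, ?_, ?_, ?_⟩
  · intro Γ i hi hc
    obtain ⟨⟨x, y⟩, e⟩ := Quot.exists_rep (en i)
    have e : en i = s(x, y) := e.symm
    refine h2 Γ i x y hi e ?_
    by_contra hn
    refine hc {v | Rc en (Γ.erase i) x v} (eq_singleton_iff_unique_mem.2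
      ⟨(mem_cut_mk e).2 ⟨hi, Or.inl ⟨Rc.refl', hn⟩⟩, fun j hj => ?_⟩)
    by_contra hji
    have : j ∈ cut en (Γ.erase i) {v | Rc en (Γ.erase i) x v} :=
      mem_cut.2 ⟨mem_erase.2 ⟨hji, (mem_cut.1 hj).1⟩, (mem_cut.1 hj).2⟩
    rw [cut_rc] at this
    exact notMem_empty _ this
  · intro Γ Z i j v hZ hs hi hc hsub
    obtain ⟨l, hl, hne⟩ := other hZ hi hc
    have := hsub (cut_mono hs hl)
    simp only [mem_insert, mem_singleton] at this
    rcases this with rfl | rfl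
    · exact absurd rfl hne
    · exact cut_subset hl
  · intro Γ Z i j k v hZ hs hi hc hsub hk
    obtain ⟨l, hl, hne⟩ := other hZ hi hc
    have := hsub (cut_mono hs hl)
    simp only [mem_insert, mem_singleton] at this
    rcases this with rfl | rfl | rfl
    · exact absurd rfl hne
    · exact cut_subset hl
    · exact absurd (cut_subset hl) hk
  · intro Γ i x y hA hi e hr
    obtain ⟨Z, hZ, hc, hiZ⟩ := h2 Γ i x y hi e hr
    rw [hA Z hZ hc.2.1] at hiZ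
    exact notMem_empty _ hiZ

end Pool.Agent.P.MP_bb4f54_co.T3

end sCY1

section sTDC
/-! Step TDC. -/

set_option autoImplicit false
set_option linter.unusedSectionVars false

namespace Pool.Agent.P.MP_bb4f54_co.T3

open Finset

namespace TDCx

theorem key (hTDF : S_TDF) {V : Type} [Fintype V] [DecidableEq V] {Γ : Finset (Sym2 V)}
    {v : V → ℕ → V} {n pos : V → ℕ} {T : Finset V} (h : TDS Γ v n pos)
    (hT : ∀ x ∈ T, dgr id Γ x = 2) (S : Finset (Sym2 V))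
    (hS : ∀ x ∈ T, ∃ e ∈ ES (v x) 0 (n x), e ∈ S) :
    (T.image fun x => v x 1).card ≤ S.card := by
  have h1 : ∀ t : V, ∃ e : Sym2 V, t ∈ (T.image fun x => v x 1) →
      ∃ x ∈ T, v x 1 = t ∧ e ∈ ES (v x) 0 (n x) ∧ e ∈ S := fun t => by
    by_cases ht : t ∈ (T.image fun x => v x 1)
    · obtain ⟨x, hx, e⟩ := mem_image.1 ht
      obtain ⟨a, a1, a2⟩ := hS x hx
      exact ⟨a, fun _ => ⟨x, hx, e, a1, a2⟩⟩
    · exact ⟨s(t, t), fun h => absurd h ht⟩
  choose f hf using h1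
  refine card_le_card_of_injOn f (fun t ht => ?_) fun t ht t' ht' e => ?_
  · obtain ⟨x, -, -, -, a⟩ := hf t ht
    exact a
  · obtain ⟨x, hx, x1, x2, -⟩ := hf t ht
    obtain ⟨y, hy, y1, y2, -⟩ := hf t' ht'
    by_contra hne
    have h2 : v y ≠ v x := fun e' => hne (by rw [← x1, ← y1, e'])
    exact disjoint_left.1 ((hTDF Γ v n pos h x y (hT x hx) (hT y hy)).2.2 h2).1 x2 (e ▸ y2)

end TDCx

theorem p_TDC (hPAR : S_PAR) (hSEG : S_SEG) (hTDF : S_TDF) :
    S_TDC := by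
  intro V _ _ Γ v n pos T h hT
  refine ⟨fun E hE => ?_, fun Y hY => ?_, fun D hD => ?_⟩
  · refine (TDCx.key hTDF h hT (E.biUnion fun a => cut id Γ {a}) fun x hx => ?_).trans
      card_biUnion_le
    have h2 := hT x hx
    have p0 := h.p0 x h2
    have pn := h.pn x h2
    refine ⟨s(v x 0, v x (0 + 1)), mem_ES.2 ⟨0, le_rfl, by omega, rfl⟩,
      mem_biUnion.2 ⟨v x 0, hE x hx, mem_cut_single.2 ⟨(h.sg x h2).ed 0 (by omega), ?_, ?_⟩⟩⟩
    · exact Sym2.mem_mk_left _ _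
    · intro hd
      have := (h.sg x h2).inj 0 (0 + 1) (by omega) (by omega) (Sym2.mk_isDiag_iff.1 hd)
      omega
  · refine TDCx.key hTDF h hT _ fun x hx => ?_
    have h2 := hT x hx
    obtain ⟨a1, a2, -⟩ := (hSEG Γ (v x) (n x) (h.sg x h2)).1 0 (n x) (Nat.zero_le _) le_rfl
    have h3 := ((hPAR id (ES (v x) 0 (n x))).2.2.1 _ _ a1.1 Y).2 (hY x hx)
    obtain ⟨e, he⟩ := card_pos.1 h3.pos
    exact ⟨e, cut_subset he, cut_mono a2 he⟩
  · have : T.card ≤ ((T.image fun x => v x 1) ×ˢ range (2 * D)).card := by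
      refine card_le_card_of_injOn
        (fun x => (v x 1, if pos x < D then pos x else D + (n x - pos x))) (fun x hx => ?_)
        fun x hx y hy e => ?_
      · have h1 := hD x hx
        have h2 := h.pn x (hT x hx)
        refine mem_coe.2 (mem_product.2 ⟨mem_image_of_mem _ hx, mem_range.2 ?_⟩)
        dsimp only
        split_ifs <;> omega
      · obtain ⟨e1, e2⟩ := Prod.mk.inj e
        obtain ⟨b1, b2, -⟩ := hTDF Γ v n pos h y x (hT y hy) (hT x hx)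
        obtain ⟨b3, b4⟩ := b1 (b2 e1)
        have h1 := h.pn x (hT x hx)
        have h2 := h.pn y (hT y hy)
        refine b4 ?_
        split_ifs at e2 <;> omega
    rwa [card_product, card_range, mul_comm] at this

end Pool.Agent.P.MP_bb4f54_co.T3

end sTDC

section sSGC
/-! Step SGC. -/

set_option autoImplicit false
set_option linter.unusedSectionVars false

namespace Pool.Agent.P.MP_bb4f54_co.T3

open Finset

theorem p_SGC (hSEG : S_SEG) (hSPT : S_SPT) :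
    S_SGC := by
  intro V _ _ Γ v n Y hT h3 hu hw hs
  rcases Nat.eq_zero_or_pos n with rfl | hn
  · refine ⟨fun _ i hi => by rw [Nat.le_zero.1 hi], fun h1 h2 => absurd h1 h2⟩
  obtain ⟨hA, hsp⟩ := (hSEG Γ v n hs).2.1 0 n hn le_rfl
  obtain ⟨g1, g2⟩ := hSPT id Γ _ Y _ _ hT h3 hu hw hA
  refine ⟨fun h i hi => (g1 h).2 _ (hsp i (Nat.zero_le _) hi), fun h0 h1 => ?_⟩
  obtain ⟨e, he⟩ := card_eq_one.1 (g2 fun h => h1 (h.1 h0))
  have hc : ∀ i, i < n → ¬ (v i ∈ Y ↔ v (i + 1) ∈ Y) → s(v i, v (i + 1)) = e := by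
    intro i hi h
    rw [← mem_singleton, ← he, mem_cut_mk (en := id) (i := s(v i, v (i + 1))) (x := v i)
      (y := v (i + 1)) rfl]
    exact ⟨mem_ES.2 ⟨i, Nat.zero_le _, hi, rfl⟩, by tauto⟩
  obtain ⟨t, ht, hc1⟩ : ∃ t, t < n ∧ ¬ (v t ∈ Y ↔ v (t + 1) ∈ Y) := by
    by_contra hcon
    have : ∀ i, i ≤ n → v i ∈ Y := by
      intro i
      induction i with
      | zero => exact fun _ => h0
      | succ i ih =>
        intro hi
        by_contra hc2
        exact hcon ⟨i, hi, fun h => hc2 (h.1 (ih (by omega)))⟩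
    exact h1 (this n le_rfl)
  refine ⟨t, ht, fun i => ?_, by rw [he, hc t ht hc1]⟩
  induction i with
  | zero => exact fun _ => ⟨fun _ => Nat.zero_le _, fun _ => h0⟩
  | succ i ih =>
    intro hi
    have ih := ih (by omega)
    by_cases hit : i = t
    · subst hit
      have : v i ∈ Y := ih.2 le_rfl
      exact ⟨fun h => absurd ⟨fun _ => h, fun _ => this⟩ hc1, fun h => by omega⟩
    · have : v i ∈ Y ↔ v (i + 1) ∈ Y := by
        by_contra hcon
        rcases Sym2.eq_iff.1 ((hc i hi hcon).trans (hc t ht hc1).symm) with h | h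
        · exact hit (hs.inj i t (by omega) ht.le h.1)
        · have a1 := hs.inj i (t + 1) (by omega) ht h.1
          have a2 := hs.inj (i + 1) t hi ht.le h.2
          omega
      rw [← this, ih]
      omega

end Pool.Agent.P.MP_bb4f54_co.T3

end sSGC

section sCY2
/-! Step CY2. -/

set_option autoImplicit false
set_option linter.unusedSectionVars false

namespace Pool.Agent.P.MP_bb4f54_co.T3

open Finset

theorem p_CY2 (hCY1 : S_CY1) (hSPL : S_SPL) :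
    S_CY2 := by
  intro V ι _ _ _ en Γ hnl hdg h2 i hi j hj
  have hbr : ∀ (f : ι) (Y : Set V), cut en Γ Y ≠ {f} := fun f Y e => by
    have hf : f ∈ cut en Γ Y := by rw [e]; exact mem_singleton_self f
    obtain ⟨hfΓ, hc⟩ := mem_cut.1 hf
    obtain ⟨⟨x, hx, hxY⟩, y, hy, hyY⟩ := cr_iff.1 hc
    have := h2 Y ⟨x, ⟨f, hfΓ, hx⟩, hxY⟩ ⟨y, ⟨f, hfΓ, hy⟩, hyY⟩
    rw [e, card_singleton] at this
    omega
  -- an edge with an end on a cycle through `i` lies on a cycle through `i`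
  have key : ∀ f ∈ Γ, ∀ v ∈ en f, (∃ Z ⊆ Γ, Cy en Z ∧ i ∈ Z ∧ v ∈ spt en Z) →
      ∃ Z ⊆ Γ, Cy en Z ∧ i ∈ Z ∧ f ∈ Z := by
    rintro f hf v hv ⟨Z, hZ, hc, hiZ, hvZ⟩
    by_cases hfZ : f ∈ Z
    · exact ⟨Z, hZ, hc, hiZ, hfZ⟩
    obtain ⟨Z₁, h1, Z₂, h2', c1, c2, f1, f2, hs, -⟩ := hSPL en Γ Z v f hnl hdg hZ hc hvZ
      (mem_cut_single.2 ⟨hf, hv, hnl f hf⟩) hfZ (hbr f)
    rcases mem_union.1 (hs hiZ) with h | h
    · exact ⟨Z₁, h1, c1, h, f1⟩
    · exact ⟨Z₂, h2', c2, h, f2⟩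
  have hex : ∀ e : Sym2 V, ∃ v, v ∈ e := fun e => by
    induction e using Sym2.ind with
    | _ a b => exact ⟨a, Sym2.mem_mk_left a b⟩
  obtain ⟨w, hw⟩ := hex (en j)
  refine key j hj w hw ?_
  by_contra hn
  obtain ⟨Z, hZ, hc, hiZ⟩ := (hCY1 en).2.2.1 Γ i hi (hbr i)
  obtain ⟨u, hu⟩ := hex (en i)
  have := h2 {v | ∃ Z ⊆ Γ, Cy en Z ∧ i ∈ Z ∧ v ∈ spt en Z}
    ⟨u, ⟨i, hi, hu⟩, Z, hZ, hc, hiZ, i, hiZ, hu⟩ ⟨w, ⟨j, hj, hw⟩, hn⟩
  obtain ⟨f, hf⟩ := card_pos.1 (lt_of_lt_of_le two_pos this)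
  obtain ⟨hfΓ, hcr⟩ := mem_cut.1 hf
  obtain ⟨⟨x, hx, hxY⟩, y, hy, hyY⟩ := cr_iff.1 hcr
  obtain ⟨Z', hZ', hc', hi', hf'⟩ := key f hfΓ x hx hxY
  exact hyY ⟨Z', hZ', hc', hi', f, hf', hy⟩

end Pool.Agent.P.MP_bb4f54_co.T3

end sCY2

section sSPT
/-! Step SPT. -/

set_option autoImplicit false
set_option linter.unusedSectionVars false

namespace Pool.Agent.P.MP_bb4f54_co.T3

open Finset

theorem p_SPT (hPAR : S_PAR) (hRCP : S_RCP) (hARC : S_ARC) :
    S_SPT := by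
  intro V ι _ _ _ en Γ B Y x y hT h3 hin hout hA
  obtain ⟨Y', a1, -, a3, a4, a5, -⟩ := (hARC en Γ B x y hT.nl hA).2.2 Y
  have hb : ∀ v, dgr en Γ v = 3 → (v ∈ Y' ↔ v ∈ Y) := by
    intro v hv
    refine a1 v ?_
    by_contra hc
    simp only [not_or, not_not] at hc
    have := hA.2.2.2 v hc.1 hc.2.1 hc.2.2
    omega
  have hc : 3 ≤ (cut en Γ Y').card := by
    obtain ⟨u, hu, hu3⟩ := hin
    obtain ⟨w, hw, hw3⟩ := hout
    exact hT.c3 Y' ⟨u, (hb u hu3).2 hu, hu3⟩ ⟨w, fun h => hw ((hb w hw3).1 h), hw3⟩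
  have e1 := card_cut_sdiff (en := en) (Y := Y) hA.2.1
  have e2 := card_cut_sdiff (en := en) (Y := Y') hA.2.1
  rw [a3] at e2
  constructor
  · intro hxy
    rw [a4 hxy, card_empty] at e2
    have h0 : cut en B Y = ∅ := card_eq_zero.1 (by omega)
    refine ⟨h0, fun w hw => ?_⟩
    have hr := (hRCP en).2.2.2.1 B x y w hA.1 hw
    exact ⟨fun h => hr.symm'.mem_of_cut h0 h, fun h => hr.mem_of_cut h0 h⟩
  · intro hxy
    rw [(a5 hxy).2] at e2
    have ho := Nat.odd_iff.1 (((hPAR en B).2.2.1 x y hA.1.1 Y).2 hxy)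
    omega

end Pool.Agent.P.MP_bb4f54_co.T3

end sSPT
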