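import Pool.Agent.P.MP_bb4f54_co.T3.Iface1
import Pool.Agent.P.MP_a3bdf6_co.Menger

/-! Statement: Menger's theorem with short paths. -/

set_option autoImplicit false
set_option linter.unusedSectionVars false

namespace Pool.Agent.P.MP_bb4f54_co.T3

open Finset

-- deps:
/-- If every small set is avoided by a short path, there is a linkage inside a small set. -/
def S_SM : Prop := ∀ {V : Type} [Fintype V] [DecidableEq V] (E : V → V → Prop) (A B : Finset V)
  (k l : ℕ), (∀ Y : Finset V, Y.card < k → ∃ a ∈ A, ∃ b ∈ B, ∃ p, MP_a3bdf6_co.Wk E a b p ∧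
    p.length ≤ l ∧ ∀ z ∈ p, z ∉ Y) →
    ∃ (T : Finset (List V)) (U : Finset V), MP_a3bdf6_co.Lk E A B T ∧ T.card = k ∧
      U.card ≤ (l + 1) ^ k ∧ ∀ p ∈ T, ∀ z ∈ p, z ∈ U

end Pool.Agent.P.MP_bb4f54_co.T3
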