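import Pool.Agent.P.MP_bb4f54_co.T3.Iface6
import Pool.Agent.P.MP_bb4f54_co.T3.Iface1
import Pool.Agent.P.MP_bb4f54_co.T3.Iface3
import Pool.Agent.P.MP_bb4f54_co.Tr.St
import Pool.Agent.P.MP_bb4f54_co.T3.Iface4

section sA4
/-! Step A4. -/

set_option autoImplicit false
set_option linter.unusedSectionVars false

namespace Pool.Agent.P.MP_bb4f54_co.T3

open Finset

namespace A4x

variable {V : Type} [Fintype V] [DecidableEq V] {G : SimpleGraph V}

lemma edge_at {A : Finset (Sym2 V)} {v : V} {e : Sym2 V} (h : e ∈ cut id A {v}) :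
    ∃ a, e = s(v, a) ∧ s(v, a) ∈ A := by
  obtain ⟨h1, x, y, h2, h3, -⟩ := mem_cut.1 h
  rw [Set.mem_singleton_iff] at h3
  subst h3
  have h4 : e = s(x, y) := h2
  exact ⟨y, h4, h4 ▸ h1⟩

lemma mk_cut {A : Finset (Sym2 V)} {v a : V} (h : s(v, a) ∈ A) (hne : v ≠ a) :
    s(v, a) ∈ cut id A {v} :=
  mem_cut.2 ⟨h, v, a, rfl, rfl, fun e => hne (Set.mem_singleton_iff.1 e).symm⟩

lemma three (h : G3 G) (v : V) :
    ∃ a b c, G.Adj v a ∧ G.Adj v b ∧ G.Adj v c ∧ a ≠ b ∧ a ≠ c ∧ b ≠ c := by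
  obtain ⟨e1, e2, e3, h12, h13, h23, he⟩ := card_eq_three.1 (h.dg v)
  obtain ⟨a, rfl, ha⟩ := edge_at (A := EG G) (v := v) (e := e1) (by rw [he]; simp)
  obtain ⟨b, rfl, hb⟩ := edge_at (A := EG G) (v := v) (e := e2) (by rw [he]; simp)
  obtain ⟨c, rfl, hc⟩ := edge_at (A := EG G) (v := v) (e := e3) (by rw [he]; simp)
  exact ⟨a, b, c, mk_mem_EG.1 ha, mk_mem_EG.1 hb, mk_mem_EG.1 hc, fun e => h12 (by rw [e]),
    fun e => h13 (by rw [e]), fun e => h23 (by rw [e])⟩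

lemma one_free (h : G3 G) {Γ : Finset (Sym2 V)} (hΓ : Γ ⊆ EG G) {w v v' : V}
    (hd : 2 ≤ dgr id Γ w) (h1 : G.Adj w v) (h2 : G.Adj w v') (h3 : s(w, v) ∉ Γ)
    (h4 : s(w, v') ∉ Γ) : v = v' := by
  by_contra hne
  have hs : ({s(w, v), s(w, v')} : Finset (Sym2 V)) ⊆ cut id (EG G) {w} := by
    intro e he
    simp only [mem_insert, mem_singleton] at he
    rcases he with rfl | rfl
    · exact mk_cut (mk_mem_EG.2 h1) h1.ne
    · exact mk_cut (mk_mem_EG.2 h2) h2.ne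
  have hc : ({s(w, v), s(w, v')} : Finset (Sym2 V)).card = 2 :=
    card_pair (fun e => hne (Sym2.congr_right.1 e))
  have hs2 : cut id Γ {w} ⊆ cut id (EG G) {w} \ {s(w, v), s(w, v')} := by
    intro e he
    refine mem_sdiff.2 ⟨cut_mono hΓ he, fun h' => ?_⟩
    simp only [mem_insert, mem_singleton] at h'
    rcases h' with rfl | rfl
    · exact h3 (cut_subset he)
    · exact h4 (cut_subset he)
  have h5 := card_le_card hs2
  have h6 := card_sdiff_add_card_eq_card hs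
  have h7 := h.dg w
  unfold dgr at hd h7
  omega

lemma cut_vertex (h : G3 G) (S : Set V) (v a b : V) (hS : S.Nonempty) (hv : v ∉ S) (ha : a ∉ S)
    (hb : b ∉ S) (hab : a ≠ b) : ∃ s ∈ S, ∃ w, G.Adj s w ∧ w ∉ S ∧ w ≠ v := by
  by_contra hc
  push Not at hc
  have h1 : cut id (EG G) S ⊆ cut id (EG G) {v} := by
    intro e he
    obtain ⟨h1, x, y, h2, h3, h4⟩ := mem_cut.1 he
    have h5 : e = s(x, y) := h2
    subst h5
    have h6 := mk_mem_EG.1 h1
    have h7 := hc x h3 y h6 h4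
    subst h7
    rw [Sym2.eq_swap]
    exact mk_cut (mk_mem_EG.2 h6.symm) h6.ne.symm
  have h2 := h.c3 S hS ⟨v, hv⟩
  have h3 : cut id (EG G) S = cut id (EG G) {v} :=
    eq_of_subset_of_card_le h1 (by have := h.dg v; unfold dgr at this; omega)
  have h4 : (insert v S)ᶜ.Nonempty := by
    by_cases e : a = v
    · exact ⟨b, fun h' => h'.elim (fun e' => hab (e.trans e'.symm)) hb⟩
    · exact ⟨a, fun h' => h'.elim e ha⟩
  have h5 := h.c3 (insert v S) ⟨v, Set.mem_insert _ _⟩ h4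
  obtain ⟨e, he⟩ : (cut id (EG G) (insert v S)).Nonempty := card_pos.1 (by omega)
  obtain ⟨h6, x, y, h7, h8, h9⟩ := mem_cut.1 he
  have h10 : e = s(x, y) := h7
  subst h10
  have h11 := mk_mem_EG.1 h6
  rcases h8 with rfl | h8
  · have h12 : s(x, y) ∈ cut id (EG G) S := h3 ▸ mk_cut h6 h11.ne
    rcases ((mem_cut_mk (en := id) rfl).1 h12).2 with h13 | h13
    · exact hv h13.1
    · exact h9 (Set.mem_insert_of_mem _ h13.1)
  · have := hc x h8 y h11 (fun h' => h9 (Set.mem_insert_of_mem _ h'))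
    exact h9 (this ▸ Set.mem_insert _ _)

lemma rc_spt {A : Finset (Sym2 V)} {x y : V} (h : Rc id A x y) : y = x ∨ y ∈ spt id A := by
  induction h with
  | refl => exact Or.inl rfl
  | tail _ h _ =>
    obtain ⟨i, hi, e⟩ := h
    exact Or.inr ⟨i, hi, by rw [e]; simp⟩

lemma rc_split {Φ : Finset (Sym2 V)} {a a' b' w : V} (ha : Rc id (Φ.erase s(a', b')) a' a)
    (h : Rc id Φ a w) : Rc id (Φ.erase s(a', b')) a' w ∨ Rc id (Φ.erase s(a', b')) b' w := by
  induction h with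
  | refl => exact Or.inl ha
  | @tail x y _ h ih =>
    obtain ⟨i, hi, e⟩ := h
    by_cases h1 : i = s(a', b')
    · have h2 : s(a', b') = s(x, y) := h1.symm.trans e
      rcases Sym2.eq_iff.1 h2 with ⟨-, rfl⟩ | ⟨rfl, -⟩
      · exact Or.inr Rc.refl'
      · exact Or.inl Rc.refl'
    · have h2 : Rc id (Φ.erase s(a', b')) x y := Rc.step (mem_erase.2 ⟨h1, hi⟩) e
      exact ih.imp (fun h => h.trans' h2) (fun h => h.trans' h2)

lemma root_of_rc {J : Finset (Sym2 V)} (hJ : J ⊆ EG G) {u x a v : V} {T : Set V}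
    (hx : Rc id J u x) (hxa : G.Adj x a) (ha : a ∈ T) (hv : Rc id J u v) :
    Tr.Root G {w | Rc id J u w} T v := by
  have h : Rc id J x v := hx.symm'.trans' hv
  clear hv
  induction h with
  | refl => exact .base hxa ha
  | @tail y z h1 h ih =>
    obtain ⟨i, hi, e⟩ := h
    have h2 : i = s(y, z) := e
    subst h2
    exact .step (mk_mem_EG.1 (hJ hi)).symm (hx.trans' h1) ih

lemma via_of_root (hVIA : S_VIA) {Ψ : Finset (Sym2 V)} (hΨ : Ψ ⊆ EG G) {A : Set V} {a' p v : V}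
    (hp : Rc id Ψ a' p) (h : Tr.Root G A {w | Rc id Ψ a' w} v) :
    Via G (A ∪ {w | Rc id Ψ a' w}) v p := by
  obtain ⟨-, h2, -, -, h5, -, -, h8⟩ := hVIA G
  induction h with
  | @base v t ha ht =>
    exact h5 _ v t p (h2 _ _ _ ha) (h8 Ψ hΨ t p _ (Rc.trans' (Rc.symm' ht) hp)
      (fun w hw => Or.inr (Rc.trans' ht hw))) (Or.inr (Or.inr (Or.inr ht)))
  | @step v u ha hu _ ih => exact h5 _ v u p (h2 _ _ _ ha) ih (Or.inr (Or.inr (Or.inl hu)))

end A4x

open A4x in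
theorem p_A4 (hRCP : S_RCP) (hSPP : S_SPP) (hPD1 : S_PD1) (hCY1 : S_CY1) (hVIA : S_VIA) (hA1a : S_A1a) (hA1b : S_A1b) (hA9 : S_A9) :
    S_A4 := by
  intro V _ _ G O R Φ H hR
  by_cases hac : Acy id (ins id (EG G) ↑R)
  · exact Or.inl hac
  right
  obtain ⟨a1, a2, a3, -, -, a6, -⟩ := hA1a H
  obtain ⟨b1, b2⟩ := hA1b H
  have hΦΓ : Φ ⊆ Sg G O Φ := subset_union_left
  have hΦG : Φ ⊆ EG G := hΦΓ.trans a3
  obtain ⟨D, hD, hDe, hDn⟩ : ∃ D ⊆ ins id (EG G) ↑R, Ev id D ∧ D ≠ ∅ := by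
    by_contra hc
    push Not at hc
    exact hac hc
  obtain ⟨i, hi⟩ := nonempty_iff_ne_empty.2 hDn
  obtain ⟨Z, hZD, hZ, hiZ⟩ := (hCY1 (id : Sym2 V → Sym2 V)).1 D i hDe hi
  have hZJ : Z ⊆ ins id (EG G) ↑R := hZD.trans hD
  obtain ⟨u, hu⟩ : ∃ u, u ∈ spt id Z := ⟨i.out.1, i, hiZ, Sym2.out_fst_mem i⟩
  set J := ins id (EG G) ↑R with hJ
  have hJG : J ⊆ EG G := ins_subset
  have hJR : ∀ w ∈ spt id J, w ∈ R := fun w ⟨j, hj, hw⟩ => (mem_ins.1 hj).2 w hw
  have hJO : J ⊆ ins id (EG G) ↑O := fun j hj =>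
    mem_ins.2 ⟨hJG hj, fun w hw => ((hR w).1 ((mem_ins.1 hj).2 w hw)).1⟩
  have hIR : ∀ w, Rc id J u w → w ∈ R := fun w hw => by
    rcases rc_spt hw with rfl | h
    · exact hJR _ (spt_mono hZJ hu)
    · exact hJR _ h
  have hZI : ∀ w ∈ spt id Z, Rc id J u w := fun w hw =>
    ((hRCP (id : Sym2 V → Sym2 V)).2.2.2.2 Z u w hZ hu hw).mono' hZJ
  have hfree : ∀ v w, Rc id J u v → G.Adj v w → s(v, w) ∉ Sg G O Φ := fun v w hv h h' => by
    have h1 := ((hR v).1 (hIR v hv)).2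
    have h2 := card_pos.2 ⟨_, mk_cut h' h.ne⟩
    unfold dgr at h1
    omega
  have hN : ∀ v w, Rc id J u v → G.Adj v w → ¬ Rc id J u w →
      w ∈ O ∧ dgr id (Sg G O Φ) w ≠ 0 ∧ Rc id (ins id (EG G) ↑O) u w := fun v w hv h hw => by
    have hvO := ((hR v).1 (hIR v hv)).1
    have h1 : w ∈ O := by
      by_contra h1
      exact hfree v w hv h (mem_union_right _
        (mem_cut.2 ⟨mk_mem_EG.2 h, v, w, rfl, hvO, h1⟩))
    refine ⟨h1, fun h2 => hw (hv.trans' (Rc.step (i := s(v, w)) ?_ rfl)),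
      (hv.mono' hJO).trans' (Rc.step (i := s(v, w)) ?_ rfl)⟩
    · refine mem_ins.2 ⟨mk_mem_EG.2 h, fun z hz => ?_⟩
      rcases Sym2.mem_iff.1 hz with rfl | rfl
      · exact hIR _ hv
      · exact (hR _).2 ⟨h1, h2⟩
    · refine mem_ins.2 ⟨mk_mem_EG.2 h, fun z hz => ?_⟩
      rcases Sym2.mem_iff.1 hz with rfl | rfl
      · exact hvO
      · exact h1
  obtain ⟨va, a, vb, b, hva, haa, ha, hvb, hbb, hb, hab⟩ : ∃ va a vb b, Rc id J u va ∧
      G.Adj va a ∧ ¬ Rc id J u a ∧ Rc id J u vb ∧ G.Adj vb b ∧ ¬ Rc id J u b ∧ a ≠ b := by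
    obtain ⟨t, ht⟩ := H.ne
    have h1 := H.g3.c3 {w | Rc id J u w} ⟨u, Rc.refl'⟩
      ⟨t, fun h => ht ((hR t).1 (hIR t h)).1⟩
    obtain ⟨e1, he1, e2, he2, h12⟩ := one_lt_card.1 (lt_of_lt_of_le (by norm_num : 1 < 3) h1)
    obtain ⟨g1, va, a, g2, g3, g4⟩ := mem_cut.1 he1
    obtain ⟨k1, vb, b, k2, k3, k4⟩ := mem_cut.1 he2
    have g5 : e1 = s(va, a) := g2
    have k5 : e2 = s(vb, b) := k2
    subst g5 k5
    have g6 := mk_mem_EG.1 g1
    have k6 := mk_mem_EG.1 k1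
    refine ⟨va, a, vb, b, g3, g6, g4, k3, k6, k4, ?_⟩
    rintro rfl
    obtain ⟨n1, n2, -⟩ := hN va a g3 g6 g4
    have n3 := b1 a n1
    have n4 := one_free H.g3 a3 (w := a) (by omega) g6.symm k6.symm
      (Sym2.eq_swap ▸ hfree va a g3 g6) (Sym2.eq_swap ▸ hfree vb a k3 k6)
    exact h12 (by rw [n4])
  have hrc : ∀ v w, Rc id J u v → G.Adj v w → ¬ Rc id J u w → Rc id Φ a w := fun v w hv h hw => by
    obtain ⟨n1, n2, n3⟩ := hN va a hva haa ha
    obtain ⟨m1, m2, m3⟩ := hN v w hv h hw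
    exact b2 a n1 w m1 n2 m2 (n3.symm'.trans' m3)
  obtain ⟨P, hPΦ, hP⟩ := (hRCP (id : Sym2 V → Sym2 V)).2.1 Φ a b (hrc vb b hvb hbb hb)
  obtain ⟨e, he⟩ : (cut id P {a}).Nonempty := by
    have := ((hPD1 (id : Sym2 V → Sym2 V)).1 P a b hP hab).1
    unfold dgr at this
    exact card_pos.1 (by omega)
  obtain ⟨a', b', hee, hA', hB', -⟩ := (hSPP id P a b hP).2 e (cut_subset he)
  have hee' : e = s(a', b') := hee
  subst hee'
  have heΦ : s(a', b') ∈ Φ := hPΦ (cut_subset he)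
  have hsub : P.erase s(a', b') ⊆ Φ.erase s(a', b') := erase_subset_erase _ hPΦ
  have haS : Rc id (Φ.erase s(a', b')) a' a := (hA'.mono' hsub).symm'
  have hbS : Rc id (Φ.erase s(a', b')) b' b := hB'.mono' hsub
  have hdis : ¬ Rc id (Φ.erase s(a', b')) a' b' :=
    (hCY1 (id : Sym2 V → Sym2 V)).2.2.2.2.2 Φ _ a' b' (a1.mono hΦΓ) heΦ rfl
  have hS : ∀ c, c ∈ s(a', b') → ∀ w, Rc id (Φ.erase s(a', b')) c w →
      w ∈ O ∧ ¬ Rc id J u w := fun c hc w hw => by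
    refine ⟨a6 c w ((mem_ins.1 (H.sub heΦ)).2 c hc) (hw.mono' (erase_subset _ _)), fun h => ?_⟩
    have h1 : w ∈ spt id (Sg G O Φ) := by
      rcases rc_spt hw with rfl | h1
      · exact ⟨_, hΦΓ heΦ, hc⟩
      · exact spt_mono ((erase_subset _ _).trans hΦΓ) h1
    exact (nl_EG.mono a3).dgr_ne h1 ((hR w).1 (hIR w h)).2
  have hSA := hS a' (by simp)
  have hSB := hS b' (by simp)
  have hST : Tr.STH G {w | Rc id J u w} {w | Rc id (Φ.erase s(a', b')) a' w}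
      {w | Rc id (Φ.erase s(a', b')) b' w} := by
    refine ⟨fun v hv w h => ?_, fun S v hSI hSn hv => ?_, fun v hv => ?_, fun v hv => ?_⟩
    · by_cases hw : Rc id J u w
      · exact Or.inl hw
      · exact Or.inr (rc_split haS (hrc v w hv h hw))
    · exact cut_vertex H.g3 S v a b hSn hv (fun h => ha (hSI h)) (fun h => hb (hSI h)) hab
    · exact root_of_rc hJG hva haa haS hv
    · exact root_of_rc hJG hvb hbb hbS hv
  obtain ⟨x, y, A, B, hx, hy, hxy, hA, hB, hAB, hxA, hxB, hyA, hyB, r1, r2, r3, r4⟩ :=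
    hST.cross (Z := spt id Z) (three H.g3) hZI ⟨u, hu⟩ (fun v hv => by
      have h1 := (hPD1 (id : Sym2 V → Sym2 V)).2.2 Z v hZ (nl_EG.mono (hZJ.trans hJG)) hv
      obtain ⟨e1, e2, h12, h2⟩ := card_eq_two.1 h1
      obtain ⟨c, rfl, hc⟩ := edge_at (A := Z) (v := v) (e := e1) (by rw [h2]; simp)
      obtain ⟨d, rfl, hd⟩ := edge_at (A := Z) (v := v) (e := e2) (by rw [h2]; simp)
      exact ⟨c, ⟨_, hc, by simp⟩, d, ⟨_, hd, by simp⟩, fun e => h12 (by rw [e]),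
        mk_mem_EG.1 (hJG (hZJ hc)), mk_mem_EG.1 (hJG (hZJ hd))⟩)
  obtain ⟨p, hp, hpa⟩ := a2 a' b' heΦ
  obtain ⟨q, hq, hqb⟩ := a2 b' a' (Sym2.eq_swap ▸ heΦ)
  rw [Sym2.eq_swap] at hqb
  have hΨ : Φ.erase s(a', b') ⊆ EG G := (erase_subset _ _).trans hΦG
  have hIO : ∀ w, Rc id J u w → w ∈ O := fun w hw => ((hR w).1 (hIR w hw)).1
  refine hA9 (A ∪ {w | Rc id (Φ.erase s(a', b')) a' w}) (B ∪ {w | Rc id (Φ.erase s(a', b')) b' w})
    x y p q H (hIO x hx) (hIO y hy) hxy ?_ ?_ ?_ ?_ ?_ ?_ ?_ (Or.inr hpa) (Or.inr hqb) hp hq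
    (via_of_root hVIA hΨ hpa r1) (via_of_root hVIA hΨ hpa r2) (via_of_root hVIA hΨ hqb r3)
    (via_of_root hVIA hΨ hqb r4)
  · rintro w (h | h)
    · exact hIO w (hA h)
    · exact (hSA w h).1
  · rintro w (h | h)
    · exact hIO w (hB h)
    · exact (hSB w h).1
  · rw [Set.disjoint_left]
    rintro w (h | h) (h' | h')
    · exact hAB w h h'
    · exact (hSB w h').2 (hA h)
    · exact (hSA w h).2 (hB h')
    · exact hdis (Rc.trans' h (Rc.symm' h'))
  · exact fun h => h.elim hxA (fun h => (hSA x h).2 hx)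
  · exact fun h => h.elim hxB (fun h => (hSB x h).2 hx)
  · exact fun h => h.elim hyA (fun h => (hSA y h).2 hy)
  · exact fun h => h.elim hyB (fun h => (hSB y h).2 hy)

end Pool.Agent.P.MP_bb4f54_co.T3

end sA4

section sF1b
/-! Step F1b. -/

set_option autoImplicit false
set_option linter.unusedSectionVars false

namespace Pool.Agent.P.MP_bb4f54_co.T3

open Finset

namespace F1bx

variable {V : Type} {G : SimpleGraph V} {O : Finset V}

/-- A path with all vertices but the last in `O` is a list walk. -/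
lemma toWk {a y : V} (w : G.Walk a y) (hp : w.IsPath) (hs : ∀ u ∈ w.support, u ∈ O ∨ u = y) :
    MP_a3bdf6_co.Wk (fun a b => G.Adj a b ∧ a ∈ O) a y w.support := by
  induction w with
  | nil => exact MP_a3bdf6_co.Wk.single _
  | @cons a b c h w ih =>
    rw [SimpleGraph.Walk.cons_isPath_iff] at hp
    rw [SimpleGraph.Walk.support_cons] at hs ⊢
    have ha : a ∈ O := by
      rcases hs a List.mem_cons_self with h1 | h1
      · exact h1
      · exact absurd (h1 ▸ w.end_mem_support) hp.2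
    exact MP_a3bdf6_co.Wk.cons ⟨h, ha⟩ (ih hp.1 fun u hu => hs u (List.mem_cons_of_mem _ hu))

/-- A list walk is the support of a walk. -/
lemma ofWk {a y : V} {p : List V} (h : MP_a3bdf6_co.Wk (fun a b => G.Adj a b ∧ a ∈ O) a y p) :
    ∃ w : G.Walk a y, w.support = p ∧ ∀ u ∈ p, u ∈ O ∨ u = y := by
  induction h with
  | single a => exact ⟨SimpleGraph.Walk.nil, rfl, fun u hu => Or.inr (by simpa using hu)⟩
  | @cons a b c l h _ ih =>
    obtain ⟨w, h1, h2⟩ := ih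
    refine ⟨SimpleGraph.Walk.cons h.1 w, by rw [SimpleGraph.Walk.support_cons, h1], fun u hu => ?_⟩
    rcases List.mem_cons.1 hu with rfl | hu
    · exact Or.inl h.2
    · exact h2 u hu

/-- One leg. -/
lemma leg [Fintype V] [DecidableEq V] (hWLK : S_WLK) {k a y : V} {p : List V} {U : Finset V}
    {R : ℕ} (hk : k ∈ O) (ha : G.Adj k a)
    (h : MP_a3bdf6_co.Wk (fun a b => G.Adj a b ∧ a ∈ O) a y p) (hn : p.Nodup)
    (hU : ∀ z ∈ p, z ∈ U) (hR : U.card ≤ R) :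
    ∃ A ⊆ EG G, Pth id A k y ∧ A.card ≤ R ∧ (∀ w ∈ spt id A, w ∈ O ∨ w = y) ∧
      ∀ w ∈ spt id A, w = k ∨ w ∈ p := by
  obtain ⟨w, h1, h2⟩ := ofWk h
  obtain ⟨A, hA, h3, h4, -, h5⟩ := (hWLK G).2.1 k y (SimpleGraph.Walk.cons ha w)
  have h6 : ∀ v ∈ spt id A, v = k ∨ v ∈ p := fun v hv => by
    have := h5 v hv
    rwa [SimpleGraph.Walk.support_cons, h1, List.mem_cons] at this
  refine ⟨A, hA, h3, ?_, fun v hv => ?_, h6⟩
  · have e1 : w.support.length = w.length + 1 := w.length_support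
    rw [SimpleGraph.Walk.length_cons] at h4
    have e2 : p.toFinset.card = p.length := List.toFinset_card_of_nodup hn
    have e3 : p.toFinset.card ≤ U.card :=
      Finset.card_le_card fun z hz => hU z (List.mem_toFinset.1 hz)
    rw [h1] at e1
    omega
  · rcases h6 v hv with rfl | hv
    · exact Or.inl hk
    · exact h2 v hv

end F1bx

theorem p_F1b (hSM : S_SM) (hWLK : S_WLK) (hODA : S_ODA) (hCAT : S_CAT) (hFRE : S_FRE) :
    S_F1b := by
  intro V _ _ G Γ T O l x k hG hS hx hk hadj hB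
  classical
  obtain ⟨-, -, hTO, hOΓ, -, -⟩ := hFRE hG hS
  have hxk : x ≠ k := hadj.ne
  obtain ⟨P, U, hL, hc, hU, hPU⟩ := hSM (fun a b => G.Adj a b ∧ a ∈ O)
    (Finset.univ.filter fun a => G.Adj k a) (T.erase x) 2 l (by
      intro Y hY
      obtain ⟨z, hzk, hz⟩ : ∃ z, z ≠ k ∧ ∀ u ∈ Y, u = z ∨ u = k := by
        have : Nonempty V := ⟨x⟩
        obtain ⟨u0, hu0⟩ := (Finset.card_le_one_iff_subset_singleton (s := Y)).1 (by omega)
        by_cases h : u0 = k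
        · exact ⟨x, hxk, fun u hu => Or.inr ((Finset.mem_singleton.1 (hu0 hu)).trans h)⟩
        · exact ⟨u0, h, fun u hu => Or.inl (Finset.mem_singleton.1 (hu0 hu))⟩
      obtain ⟨y, hy, hyx, hyz, w, hw1, hw2⟩ :
          ∃ y ∈ T, y ≠ x ∧ y ≠ z ∧ OW G (↑O \ {z}) l k y := by
        by_contra hcon
        exact hB ⟨z, hzk, fun y hy h1 h2 h3 => hcon ⟨y, hy, h1, h2, h3⟩⟩
      have hyk : k ≠ y := fun h => hTO y hy (h ▸ hk)
      have hp : w.bypass.IsPath := w.bypass_isPath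
      have hl : w.bypass.length ≤ l := w.length_bypass_le_length.trans hw1
      have hs : ∀ u ∈ w.bypass.support, u ∈ (↑O \ {z} : Set V) ∨ u = y :=
        fun u hu => hw2 u (w.support_bypass_subset_support hu)
      generalize w.bypass = q at hp hl hs
      cases q with
      | nil => exact absurd rfl hyk
      | @cons _ a _ h q =>
        rw [SimpleGraph.Walk.cons_isPath_iff] at hp
        rw [SimpleGraph.Walk.length_cons] at hl
        rw [SimpleGraph.Walk.support_cons] at hs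
        refine ⟨a, Finset.mem_filter.2 ⟨Finset.mem_univ _, h⟩, y, Finset.mem_erase.2 ⟨hyx, hy⟩,
          q.support, F1bx.toWk q hp.1 fun u hu => ?_, by rw [q.length_support]; exact hl,
          fun u hu huY => ?_⟩
        · exact (hs u (List.mem_cons_of_mem _ hu)).imp (fun h => h.1) id
        · rcases hz u huY with h1 | h1
          · rcases hs u (List.mem_cons_of_mem _ hu) with h2 | h2
            · exact h2.2 h1
            · exact hyz (h2.symm.trans h1)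
          · exact hp.2 (h1 ▸ hu))
  obtain ⟨p, p', hpp, rfl⟩ := Finset.card_eq_two.1 hc
  have m1 : p ∈ ({p, p'} : Finset (List V)) := by simp
  have m2 : p' ∈ ({p, p'} : Finset (List V)) := by simp
  obtain ⟨n1, a, ha, y, hy, w1⟩ := hL.1 p m1
  obtain ⟨n2, b, hb, z, hz, w2⟩ := hL.1 p' m2
  obtain ⟨A, sA, pA, cA, iA, jA⟩ :=
    F1bx.leg hWLK hk (Finset.mem_filter.1 ha).2 w1 n1 (hPU p m1) hU
  obtain ⟨B, sB, pB, cB, iB, jB⟩ :=
    F1bx.leg hWLK hk (Finset.mem_filter.1 hb).2 w2 n2 (hPU p' m2) hU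
  have hd : ∀ u, u ∈ p → u ∈ p' → False := fun u h1 h2 => hpp (hL.2 p m1 p' m2 u h1 h2)
  refine ⟨⟨x, k, y, z, A, B⟩, ⟨hx, (Finset.mem_erase.1 hy).2, (Finset.mem_erase.1 hz).2,
    (Finset.mem_erase.1 hy).1, (Finset.mem_erase.1 hz).1, hadj, (hOΓ k hk x).2, pA, pB, sA, sB,
    cA, cB, iA, iB, Or.inl ⟨hk, fun h => ?_, fun u h1 h2 => ?_⟩⟩, rfl, rfl⟩
  · have h' : y = z := h
    exact hd y w1.last_mem (h' ▸ w2.last_mem)
  · rcases jA u h1 with h3 | h3
    · exact h3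
    · rcases jB u h2 with h4 | h4
      · exact h4
      · exact (hd u h3 h4).elim

end Pool.Agent.P.MP_bb4f54_co.T3

end sF1b

section sSM
/-! Step SM. -/

set_option autoImplicit false
set_option linter.unusedSectionVars false

namespace Pool.Agent.P.MP_bb4f54_co.T3

open Finset

namespace SMx

open MP_a3bdf6_co

variable {V : Type} [Fintype V] [DecidableEq V] {E : V → V → Prop} {A B : Finset V} {k l : ℕ}

lemma tree (h : ∀ Y : Finset V, Y.card < k → ∃ a ∈ A, ∃ b ∈ B, ∃ p, Wk E a b p ∧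
    p.length ≤ l ∧ ∀ z ∈ p, z ∉ Y) (m : ℕ) : ∀ Y₀ : Finset V, Y₀.card + m = k →
    ∃ U : Finset V, U.card + 1 ≤ (l + 1) ^ m ∧ ∀ Y : Finset V, Y₀ ⊆ Y → Y.card < k →
      ∃ a ∈ A, ∃ b ∈ B, ∃ p, Wk E a b p ∧ ∀ z ∈ p, z ∉ Y ∧ z ∈ U := by
  induction m with
  | zero =>
    intro Y₀ h0
    exact ⟨∅, by simp, fun Y hY hc => absurd (card_le_card hY) (by omega)⟩
  | succ m ih =>
    intro Y₀ h0
    obtain ⟨a, ha, b, hb, p, hp, hl, hz⟩ := h Y₀ (by omega)
    have := fun z (hp : z ∈ p) => ih (insert z Y₀) (by rw [card_insert_of_notMem (hz z hp)]; omega)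
    choose! U h1 h2 using this
    refine ⟨p.toFinset ∪ p.toFinset.biUnion U, ?_, fun Y hY hc => ?_⟩
    · have c1 := card_union_le p.toFinset (p.toFinset.biUnion U)
      have c2 : (p.toFinset.biUnion U).card ≤ p.toFinset.card * ((l + 1) ^ m - 1) :=
        card_biUnion_le_card_mul _ _ _ fun z hz => by
          have := h1 z (List.mem_toFinset.1 hz); omega
      have c3 : p.toFinset.card ≤ l := (List.toFinset_card_le p).trans hl
      have c4 : 1 ≤ (l + 1) ^ m := Nat.one_le_pow _ _ (by omega)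
      obtain ⟨n, hn⟩ := Nat.exists_eq_add_of_le c4
      rw [hn] at c2
      rw [pow_succ, hn]
      have c5 : p.toFinset.card * (1 + n - 1) ≤ l * n := Nat.mul_le_mul c3 (by omega)
      nlinarith
    · by_cases hc' : ∀ z ∈ p, z ∉ Y
      · exact ⟨a, ha, b, hb, p, hp, fun z h => ⟨hc' z h, mem_union_left _ (by simpa using h)⟩⟩
      · push Not at hc'
        obtain ⟨z, h3, h4⟩ := hc'
        obtain ⟨a, ha, b, hb, q, hq, h5⟩ := h2 z h3 Y (insert_subset h4 hY) hc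
        exact ⟨a, ha, b, hb, q, hq, fun w hw => ⟨(h5 w hw).1, mem_union_right _
          (mem_biUnion.2 ⟨z, by simpa using h3, (h5 w hw).2⟩)⟩⟩

lemma inside {U : Finset V} {a b : V} {p : List V}
    (h : Wk (fun x y => E x y ∧ y ∈ U) a b p) (ha : a ∈ U) : ∀ z ∈ p, z ∈ U := by
  induction h with
  | single => simpa using ha
  | cons h1 _ ih => simpa using ⟨ha, ih h1.2⟩

end SMx

theorem p_SM :
    S_SM := by
  intro V _ _ E A B k l h
  obtain ⟨U, h1, h2⟩ := SMx.tree h k ∅ (by simp)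
  obtain ⟨T, h3, h4⟩ := MP_a3bdf6_co.menger (fun x y => E x y ∧ y ∈ U) (A ∩ U) B k fun Y hY => by
    obtain ⟨a, ha, b, hb, p, hp, hz⟩ := h2 Y (empty_subset _) hY
    exact ⟨a, mem_inter.2 ⟨ha, (hz a hp.head_mem).2⟩, b, hb, p,
      hp.mono fun x _ y hy e => ⟨e, (hz y hy).2⟩, fun z h => (hz z h).1⟩
  refine ⟨T, U, ⟨fun P hP => ?_, h3.2⟩, h4, by omega, fun P hP => ?_⟩
  · obtain ⟨n, a, ha, b, hb, w⟩ := h3.1 P hP
    exact ⟨n, a, (mem_inter.1 ha).1, b, hb, w.mono fun _ _ _ _ e => e.1⟩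
  · obtain ⟨-, a, ha, b, -, w⟩ := h3.1 P hP
    exact SMx.inside w (mem_inter.1 ha).2

end Pool.Agent.P.MP_bb4f54_co.T3

end sSM
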