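import Pool.Agent.P.MP_bb4f54_co.T3.Iface5
import Pool.Agent.P.MP_bb4f54_co.T3.Iface4

section sNOCL
/-! Step NOCL. -/

set_option autoImplicit false
set_option linter.unusedSectionVars false

namespace Pool.Agent.P.MP_bb4f54_co.T3

open Finset

namespace NOCLx

variable {V : Type} [Fintype V] [DecidableEq V] {G : SimpleGraph V} [DecidableRel G.Adj]

theorem nb {u u' : V} (h3 : dg G univ u = 3) (h : G.Adj u u') :
    ∃ a₁ a₂, G.Adj u a₁ ∧ G.Adj u a₂ ∧ a₁ ≠ u' ∧ a₂ ≠ u' ∧ a₁ ≠ a₂ ∧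
      ∀ x, G.Adj u x → x = u' ∨ x = a₁ ∨ x = a₂ := by
  have hm : u' ∈ univ.filter (G.Adj u) := mem_filter.2 ⟨mem_univ _, h⟩
  have h2 : ((univ.filter (G.Adj u)).erase u').card = 2 := by
    rw [card_erase_of_mem hm]
    unfold dg at h3
    omega
  obtain ⟨a₁, a₂, hne, he⟩ := card_eq_two.1 h2
  have m1 : a₁ ∈ (univ.filter (G.Adj u)).erase u' := by rw [he]; simp
  have m2 : a₂ ∈ (univ.filter (G.Adj u)).erase u' := by rw [he]; simp
  refine ⟨a₁, a₂, (mem_filter.1 (mem_of_mem_erase m1)).2, (mem_filter.1 (mem_of_mem_erase m2)).2,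
    ne_of_mem_erase m1, ne_of_mem_erase m2, hne, fun x hx => ?_⟩
  by_cases hxu : x = u'
  · exact Or.inl hxu
  · have : x ∈ (univ.filter (G.Adj u)).erase u' :=
      mem_erase.2 ⟨hxu, mem_filter.2 ⟨mem_univ _, hx⟩⟩
    rw [he] at this
    exact Or.inr (by simpa using this)

end NOCLx

open NOCLx in
theorem p_NOCL (hABS : S_ABS) :
    S_NOCL := by
  intro V _ _ G _ X m u u' hC huu hX hY
  have inX : ∀ {x : V} {r : ℕ}, Rch G univ r x u → r ≤ m + 3 → x ∈ X := fun h hr =>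
    hX (mem_bl_one.2 (h.mono subset_rfl hr))
  have key : ∀ Y Z : Finset V, u ∈ Y → u' ∈ Y → Y.card ≤ m + 2 → Z.card ≤ 3 →
      (∀ y ∈ Y, Rch G univ (m + 2) y u) → (∀ y ∈ Y, ∀ x, G.Adj y x → x ∈ Y ∨ x ∈ Z) → False := by
    intro Y Z h1 h2 h3 h4 h5 h6
    obtain ⟨Z₁, hZ, h7, h8⟩ := hABS G (fun v => (hC.d3 v).le) Y Z h6
    have h9 : Y ∪ Z₁ ⊆ X := by
      intro x hx
      rcases mem_union.1 hx with hx | hx
      · exact inX (h5 x hx) (by omega)
      · obtain ⟨y, hy, hyx⟩ := h7 x hx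
        exact inX ((h5 y hy).cons hyx.symm (mem_univ _)) le_rfl
    have h10 := card_union_le Y Z₁
    have h11 := card_le_card hZ
    have := hY _ h9 (mem_union_left _ h1) (mem_union_left _ h2) (by omega)
    omega
  obtain ⟨a₁, a₂, ha₁, ha₂, na₁, na₂, na, hna⟩ := nb (hC.d3 u) huu
  obtain ⟨b₁, b₂, hb₁, hb₂, nb₁, nb₂, nbb, hnb⟩ := nb (hC.d3 u') huu.symm
  have ru : Rch G univ 0 u u := Rch.refl (mem_univ _) _
  have ru' : Rch G univ 1 u' u := ru.cons huu.symm (mem_univ _)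
  have rp : ∀ y ∈ ({u, u'} : Finset V), Rch G univ (m + 2) y u := by
    intro y hy
    rcases mem_insert.1 hy with rfl | hy
    · exact Rch.refl (mem_univ _) _
    · rw [mem_singleton.1 hy]
      exact ru'.mono subset_rfl (by omega)
  have np : ∀ y ∈ ({u, u'} : Finset V), ∀ x, G.Adj y x →
      x ∈ ({u, u'} : Finset V) ∨ x ∈ ({a₁, a₂, b₁, b₂} : Finset V) := by
    intro y hy x hx
    rcases mem_insert.1 hy with rfl | hy
    · rcases hna x hx with h | h | h <;> simp [h]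
    · rw [mem_singleton.1 hy] at hx
      rcases hnb x hx with h | h | h <;> simp [h]
  have four : ∀ x y z : V, ¬ ({a₁, a₂, b₁, b₂} : Finset V) ⊆ {x, y, z} := fun x y z h =>
    key {u, u'} {x, y, z} (by simp) (by simp) (card_le_two.trans (by omega)) card_le_three rp
      fun v hv w hw => (np v hv w hw).imp_right fun h' => h h'
  have n11 : a₁ ≠ b₁ := fun h => four a₁ a₂ b₂ (by simp [← h, subset_iff])
  have n12 : a₁ ≠ b₂ := fun h => four a₁ a₂ b₁ (by simp [← h, subset_iff])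
  have n21 : a₂ ≠ b₁ := fun h => four a₁ a₂ b₂ (by simp [← h])
  have n22 : a₂ ≠ b₂ := fun h => four a₁ a₂ b₁ (by simp [← h, subset_iff])
  have ra : ∀ a ∈ ({a₁, a₂, b₁, b₂} : Finset V), Rch G univ 2 a u ∧ a ≠ u ∧ a ≠ u' := by
    intro a ha
    simp only [mem_insert, mem_singleton] at ha
    rcases ha with rfl | rfl | rfl | rfl
    · exact ⟨(ru.cons ha₁.symm (mem_univ _)).mono subset_rfl (by omega), ha₁.ne', na₁⟩
    · exact ⟨(ru.cons ha₂.symm (mem_univ _)).mono subset_rfl (by omega), ha₂.ne', na₂⟩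
    · exact ⟨ru'.cons hb₁.symm (mem_univ _), nb₁, hb₁.ne'⟩
    · exact ⟨ru'.cons hb₂.symm (mem_univ _), nb₂, hb₂.ne'⟩
  refine ⟨a₁, a₂, b₁, b₂, ha₁.symm, ha₂.symm, hb₁.symm, hb₂.symm, ?_, fun Z hZ r hr hc => ?_⟩
  · simp [huu.ne, ha₁.ne, ha₂.ne, hb₁.ne, hb₂.ne, na₁.symm, na₂.symm, nb₁.symm, nb₂.symm, na, nbb,
      n11, n12, n21, n22]
  by_contra hng
  obtain ⟨U, hU⟩ : ∃ U, U = X \ (Z ∪ {u, u'}) := ⟨_, rfl⟩
  obtain ⟨A, hA⟩ : ∃ A : Finset V, A = {a₁, a₂, b₁, b₂} \ Z := ⟨_, rfl⟩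
  rw [← hU, ← hA] at hc hng
  have heq : bl G U A r = bl G U A (r + 1) :=
    eq_of_subset_of_card_le (bl_mono subset_rfl subset_rfl (by omega)) (not_lt.1 hng)
  have hAU : A ⊆ U := by
    intro a ha
    rw [hA, mem_sdiff] at ha
    obtain ⟨h1, h2, h3⟩ := ra a ha.1
    rw [hU, mem_sdiff]
    exact ⟨inX h1 (by omega), by simp [ha.2, h2, h3]⟩
  have ry : ∀ y ∈ bl G U A r, Rch G univ (m + 2) y u := by
    intro y hy
    obtain ⟨a, ha, h⟩ := mem_bl.1 hy
    rw [hA, mem_sdiff] at ha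
    exact ((h.mono (subset_univ _) le_rfl).trans (ra a ha.1).1).mono subset_rfl (by omega)
  have h2 : ({u, u'} : Finset V).card ≤ 2 := card_le_two
  refine key (bl G U A r ∪ {u, u'}) Z (by simp) (by simp)
    ((card_union_le _ _).trans (by omega)) hZ (fun y hy => ?_) fun y hy x hx => ?_
  · rcases mem_union.1 hy with hy | hy
    exacts [ry y hy, rp y hy]
  by_cases hxZ : x ∈ Z
  · exact Or.inr hxZ
  by_cases hxu : x ∈ ({u, u'} : Finset V)
  · exact Or.inl (mem_union_right _ hxu)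
  refine Or.inl (mem_union_left _ ?_)
  rcases mem_union.1 hy with hy | hy
  · rw [heq]
    refine mem_bl_succ hy hx ?_
    rw [hU, mem_sdiff, mem_union]
    exact ⟨inX ((ry y hy).cons hx.symm (mem_univ _)) le_rfl, fun h => h.elim hxZ hxu⟩
  · refine subset_bl hAU r ?_
    rw [hA, mem_sdiff]
    exact ⟨(np y hy x hx).resolve_left hxu, hxZ⟩

end Pool.Agent.P.MP_bb4f54_co.T3

end sNOCL

section sHOC
/-! Step HOC. -/

set_option autoImplicit false
set_option linter.unusedSectionVars false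

namespace Pool.Agent.P.MP_bb4f54_co.T3

open Finset

namespace HOCx

variable {V : Type} [Fintype V] [DecidableEq V] {G : SimpleGraph V} [DecidableRel G.Adj]

lemma gr_one {X : Finset V} {c m : ℕ} (hE : Exp G X c) (hm : 2 * m ≤ X.card) {t : V}
    (ht : t ∈ X) : Gr G (X \ ∅) {t} m := by
  intro r _ hc
  rw [sdiff_empty] at hc ⊢
  have h0 : 0 < (bl G X {t} r).card := card_pos.2 ⟨t, mem_bl_one.2 (Rch.refl ht _)⟩
  have h1 := hE (bl G X {t} r) (bl_subset _ _ _) (by omega) (bl G X {t} (r + 1) \ bl G X {t} r)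
    (fun y hy x hx hxY hadj => mem_sdiff.2 ⟨mem_bl_succ hy hadj hx, hxY⟩)
    (Nat.log 2 (bl G X {t} r).card) (Nat.lt_pow_succ_log_self (by norm_num) _)
  have h2 : 0 < (bl G X {t} (r + 1) \ bl G X {t} r).card := by
    rcases Nat.eq_zero_or_pos (bl G X {t} (r + 1) \ bl G X {t} r).card with h | h
    · rw [h, mul_zero] at h1; omega
    · exact h
  obtain ⟨x, hx⟩ := card_pos.1 h2
  exact card_lt_card ⟨bl_mono subset_rfl subset_rfl (Nat.le_succ r),
    fun h => (mem_sdiff.1 hx).2 (h (mem_sdiff.1 hx).1)⟩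

lemma adj_rch {a b v : V} {r : ℕ} (h : G.Adj a b) (hb : Rch G univ r b v) :
    Rch G univ (r + 1) a v := hb.cons h (mem_univ _)

end HOCx

open HOCx in
theorem p_HOC (hEDGE : S_EDGE) (hNOCL : S_NOCL) (hLNK : S_LNK) (hFAR : S_FAR) (hHZ : S_HZ) :
    S_HOC := by
  intro V _ _ G _ X c m B k ρ hC3 hE hCo hB hsm hgr h1 h2 W hW
  have hdeg : ∀ v, dg G univ v ≤ 3 := fun v => (hC3.d3 v).le
  have hsz : 20 * (m + 1) ≤ X.card := by
    have a1 : m < 4 ^ m := Nat.lt_pow_self (by norm_num)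
    have a2 : 4 ^ m ≤ 4 ^ (2 * ρ + m + 2) := Nat.pow_le_pow_right (by norm_num) (by omega)
    have a3 : 20 * (m + 1) ≤ 4 * (B ^ 32 + 5) * 4 ^ (2 * ρ + m + 2) :=
      Nat.mul_le_mul (by omega) (by omega)
    omega
  obtain ⟨v, hv, hball, hvW, J, hJX, hJ4, hJ1, hJ2⟩ := hFAR G X W (2 * m + 3) (2 * ρ + m + 2)
    hdeg h1 (le_trans (Nat.mul_le_mul_right _ (by omega)) h2)
  obtain ⟨u, u', huu, huv, hY⟩ := hEDGE G X m v hC3 hv (by omega) hsm
  obtain ⟨a₁, a₂, b₁, b₂, e₁, e₂, e₃, e₄, hnd, hG⟩ := hNOCL G X m u u' hC3 huu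
    (fun x hx => hball (mem_bl_one.2 (((mem_bl_one.1 hx).trans huv).mono subset_rfl (by omega))))
    (fun Y hYX h3 h4 h5 => hY Y hYX h3 h4 (by omega))
  have hu'v : Rch G univ (m + 1) u' v := adj_rch huu.symm huv
  have hA : ∀ a ∈ ({a₁, a₂, b₁, b₂} : Finset V), Rch G univ (m + 2) a v := by
    intro a ha
    simp only [mem_insert, mem_singleton] at ha
    rcases ha with rfl | rfl | rfl | rfl
    · exact (adj_rch e₁ huv).mono subset_rfl (by omega)
    · exact (adj_rch e₂ huv).mono subset_rfl (by omega)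
    · exact adj_rch e₃ hu'v
    · exact adj_rch e₄ hu'v
  have hQ : ∀ a ∈ ({u, u'} : Finset V), Rch G univ (m + 2) a v := by
    intro a ha
    simp only [mem_insert, mem_singleton] at ha
    rcases ha with rfl | rfl
    · exact huv.mono subset_rfl (by omega)
    · exact hu'v.mono subset_rfl (by omega)
  have nW : ∀ x, Rch G univ (ρ + (m + 2)) x v → x ∉ W := fun x hx hxW =>
    hvW x hxW (hx.symm.mono subset_rfl (by omega))
  let Tp : V → Finset V := fun t => bl G (X \ ∅) {t} ρ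
  have tp1 : ∀ t, ∀ x ∈ Tp t, Rch G univ ρ t x := fun t x hx =>
    ((mem_bl_one.1 hx).mono (subset_univ _) le_rfl).symm
  have tpX : ∀ t ∈ J, Xp G (Tp t) t ρ := fun t ht => xp_bl (by simpa using hJX ht) ρ
  have tpc : ∀ t ∈ J, B ^ 34 ≤ (Tp t).card := fun t ht =>
    hgr ∅ {t} (by simp) (gr_one hE (by omega) (hJX ht))
  have tpv : ∀ t ∈ J, ∀ x ∈ Tp t, ¬ Rch G univ (ρ + (m + 2)) x v := fun t ht x hx h =>
    (hJ1 t ht).1 (((tp1 t x hx).trans h).mono subset_rfl (by omega))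
  have tpU : ∀ t ∈ J, Tp t ⊆ (X \ W) \ {u, u'} := fun t ht x hx =>
    mem_sdiff.2 ⟨mem_sdiff.2 ⟨(mem_sdiff.1 (bl_subset _ _ _ hx)).1, fun hxW =>
      (hJ1 t ht).2 x hxW ((tp1 t x hx).mono subset_rfl (by omega))⟩, fun hxQ =>
      tpv t ht x hx ((hQ x hxQ).mono subset_rfl (by omega))⟩
  have tpd : ∀ t ∈ J, ∀ t' ∈ J, t ≠ t' → Disjoint (Tp t) (Tp t') := fun t ht t' ht' hne =>
    Finset.disjoint_left.2 fun x hx hx' =>
      hJ2 t ht t' ht' hne (((tp1 t x hx).trans (tp1 t' x hx').symm).mono subset_rfl (by omega))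
  have hT : ∀ t ∈ J, ∃ F' ⊆ Tp t, Xp G F' t ρ ∧ F'.card = B ^ 31 := fun t ht =>
    (tpX t ht).trim (Nat.one_le_pow _ _ (by omega))
      ((Nat.pow_le_pow_right (by omega) (by norm_num)).trans (tpc t ht))
  choose! T hT1 hT2 hT3 using hT
  have hA4 : ({a₁, a₂, b₁, b₂} : Finset V).card = 4 := by
    have h3 : [a₁, a₂, b₁, b₂].Nodup := (List.nodup_cons.1 (List.nodup_cons.1 hnd).2).2
    have h4 := List.toFinset_card_of_nodup h3
    simpa using h4
  obtain ⟨F, hF1, hF2⟩ := hLNK G ((X \ W) \ {u, u'}) {a₁, a₂, b₁, b₂} J T (2 * ρ + k) ρ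
    (fun t ht => ⟨hT2 t ht, (hT1 t ht).trans (tpU t ht), Finset.disjoint_left.2 fun x hx hx' =>
      tpv t ht x (hT1 t ht hx') ((hA x hx).mono subset_rfl (by omega))⟩)
    (fun t ht t' ht' hne => (tpd t ht t' ht' hne).mono (hT1 t ht) (hT1 t' ht'))
    (fun Z hZ => by
      have hZ3 : Z.card ≤ 3 := by omega
      have hQ2 : ({u, u'} : Finset V).card ≤ 2 := card_le_two
      have hb : ∀ x ∈ bl G (X \ (Z ∪ {u, u'})) ({a₁, a₂, b₁, b₂} \ Z) ρ,
          Rch G univ (ρ + (m + 2)) x v := fun x hx => by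
        obtain ⟨a, ha, h⟩ := mem_bl.1 hx
        exact (h.mono (subset_univ _) le_rfl).trans (hA a (mem_sdiff.1 ha).1)
      exact hHZ G X W Z {u, u'} {a₁, a₂, b₁, b₂} J T Tp B k ρ hCo hB hW hZ3 hQ2 hJ4
        (hgr _ _ ((card_union_le _ _).trans (by omega)) (hG Z hZ3))
        (Finset.disjoint_left.2 fun x hx => nW x (hb x hx))
        (fun t ht => ⟨tpX t ht, tpU t ht, tpc t ht, hT1 t ht, (hT3 t ht).le,
          Finset.disjoint_left.2 fun x hx hx' => tpv t ht x hx' (hb x hx)⟩) tpd)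
  rw [hA4] at hF1
  have hc : ∀ a ∈ ({a₁, a₂, b₁, b₂} : Finset V), B ^ 31 ≤ (F a).card := fun a ha => by
    obtain ⟨t, ht, h⟩ := (hF1 a ha).2.2
    exact (hT3 t ht).symm.le.trans (card_le_card h)
  have hXW : ∀ a ∈ ({u, u'} : Finset V), a ∈ X \ W := fun a ha =>
    mem_sdiff.2 ⟨hball (mem_bl_one.2 ((hQ a ha).mono subset_rfl (by omega))),
      nW a ((hQ a ha).mono subset_rfl (by omega))⟩
  have m₁ : a₁ ∈ ({a₁, a₂, b₁, b₂} : Finset V) := by simp
  have m₂ : a₂ ∈ ({a₁, a₂, b₁, b₂} : Finset V) := by simp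
  have m₃ : b₁ ∈ ({a₁, a₂, b₁, b₂} : Finset V) := by simp
  have m₄ : b₂ ∈ ({a₁, a₂, b₁, b₂} : Finset V) := by simp
  simp only [List.nodup_cons, List.mem_cons, List.not_mem_nil, or_false, not_or] at hnd
  exact ⟨u, u', a₁, a₂, b₁, b₂, F a₁, F a₂, F b₁, F b₂, huu, e₁, e₂, e₃, e₄,
    (hF1 _ m₁).2.1, (hF1 _ m₂).2.1, (hF1 _ m₃).2.1, (hF1 _ m₄).2.1,
    hc _ m₁, hc _ m₂, hc _ m₃, hc _ m₄, hXW _ (by simp), hXW _ (by simp),
    (hF1 _ m₁).1, (hF1 _ m₂).1, (hF1 _ m₃).1, (hF1 _ m₄).1,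
    hF2 _ m₁ _ m₂ hnd.2.2.1.1, hF2 _ m₁ _ m₃ hnd.2.2.1.2.1, hF2 _ m₁ _ m₄ hnd.2.2.1.2.2,
    hF2 _ m₂ _ m₃ hnd.2.2.2.1.1, hF2 _ m₂ _ m₄ hnd.2.2.2.1.2, hF2 _ m₃ _ m₄ hnd.2.2.2.2.1⟩

end Pool.Agent.P.MP_bb4f54_co.T3

end sHOC

section sLNK
/-! Step LNK. -/

set_option autoImplicit false
set_option linter.unusedSectionVars false

namespace Pool.Agent.P.MP_bb4f54_co.T3

open Finset

namespace LNKx

open MP_a3bdf6_co (Wk)

variable {V : Type} (G : SimpleGraph V) (U J : Finset V) (T : V → Finset V)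

/-- The digraph in which every core is contracted to its centre. -/
def D (x y : V) : Prop := x ∈ U ∧ (∀ t ∈ J, x ∉ T t) ∧
  ((G.Adj x y ∧ ∀ t ∈ J, y ∉ T t) ∨ (y ∈ J ∧ ∃ w ∈ T y, G.Adj x w))

variable {G U J T}

theorem fwd {t : V} (ht : t ∈ J) {x t' : V} (p : G.Walk x t') (h' : t' ∈ T t) (hx : x ∉ T t)
    (hp : ∀ z ∈ p.support, z ∈ U ∧ ∀ s ∈ J, s ≠ t → z ∉ T s) :
    ∃ P, Wk (D G U J T) x t P ∧ P.length ≤ p.length + 1 ∧ ∀ z ∈ P, z ∈ p.support ∨ z = t := by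
  induction p with
  | nil => exact absurd h' hx
  | @cons x y _ h q ih =>
    have no : ∀ z ∈ (SimpleGraph.Walk.cons h q).support, z ∉ T t → ∀ s ∈ J, z ∉ T s :=
      fun z hz e s hs => by
        by_cases c : s = t
        exacts [c ▸ e, (hp z hz).2 s hs c]
    have h1 := (hp x (by simp)).1
    have h2 := no x (by simp) hx
    by_cases hy : y ∈ T t
    · exact ⟨[x, t], .cons ⟨h1, h2, .inr ⟨ht, y, hy, h⟩⟩ (.single t), by simp, by simp⟩
    · obtain ⟨P, a, b, c⟩ := ih h' hy fun z hz => hp z (by simp [hz])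
      refine ⟨x :: P, .cons ⟨h1, h2, .inl ⟨h, no y (by simp) hy⟩⟩ a, by simpa using b, ?_⟩
      intro z hz
      rcases List.mem_cons.1 hz with rfl | hz
      · simp
      · exact (c z hz).imp_left fun e => by simp [e]

theorem bwd (hT : ∀ t ∈ J, t ∈ T t) {x t : V} {P : List V} (h : Wk (D G U J T) x t P)
    (ht : t ∈ J) (hx : x ∉ T t) : ∃ w ∈ T t, ∃ q : G.Walk x w, q.length ≤ P.length ∧
      ∀ z ∈ q.support, z = w ∨ (z ∈ P ∧ z ∈ U ∧ ∀ s ∈ J, z ∉ T s) := by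
  induction h with
  | single => exact absurd (hT _ ht) hx
  | @cons x y t P h1 h2 ih =>
    obtain ⟨a, b, ⟨c, e⟩ | ⟨c, w, hw, e⟩⟩ := h1
    · obtain ⟨w, hw, q, k1, k2⟩ := ih ht (e t ht)
      refine ⟨w, hw, .cons c q, by simpa using k1, fun z hz => ?_⟩
      rcases List.mem_cons.1 hz with rfl | hz
      · exact .inr ⟨by simp, a, b⟩
      · exact (k2 z hz).imp_right fun k => ⟨by simp [k.1], k.2⟩
    · have : y = t := by
        cases h2 with
        | single => rfl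
        | cons k _ => exact absurd (hT y c) (k.2.1 y c)
      subst this
      refine ⟨w, hw, .cons e .nil, by simp, fun z hz => ?_⟩
      rcases List.mem_cons.1 hz with rfl | hz
      · exact .inr ⟨by simp, a, b⟩
      · exact .inl (by simpa using hz)

end LNKx

theorem p_LNK (hSM : S_SM) :
    S_LNK := by
  intro V _ _ G _ U A J T l ρ h1 h2 h3
  have hT : ∀ t ∈ J, t ∈ T t := fun t ht => (h1 t ht).1.1
  have hA : ∀ a ∈ A, ∀ t ∈ J, a ∉ T t := fun a ha t ht => disjoint_left.1 (h1 t ht).2.2 ha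
  obtain ⟨T₀, U₀, k1, k2, k3, k4⟩ := hSM (LNKx.D G U J T) A J A.card (l + 1) fun Z hZ => by
    obtain ⟨a, ha, t, ht, p, p1, p2⟩ := h3 Z hZ
    obtain ⟨P, c1, c2, c3⟩ := LNKx.fwd ht p (hT t ht) (hA a ha t ht)
      fun z hz => ⟨(p2 z hz).1, (p2 z hz).2.2⟩
    refine ⟨a, ha, t, ht, P, c1, by omega, fun z hz => ?_⟩
    rcases c3 z hz with e | rfl
    exacts [(p2 z e).2.1, (p2 _ p.end_mem_support).2.1]
  have key : ∀ a ∈ A, ∃ (F : Finset V) (P : List V) (t : V), P ∈ T₀ ∧ t ∈ J ∧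
      MP_a3bdf6_co.Wk (LNKx.D G U J T) a t P ∧ F ⊆ U ∧ Xp G F a ((l + 2) ^ A.card + 2 * ρ) ∧
      T t ⊆ F ∧ ∀ z ∈ F, z ∈ T t ∨ (z ∈ P ∧ ∀ s ∈ J, z ∉ T s) := fun a ha => by
    obtain ⟨P, hP, t, ht, c⟩ := k1.cover_start k2.ge ha
    obtain ⟨w, hw, q, q1, q2⟩ := LNKx.bwd hT c ht (hA a ha t ht)
    have hl : P.length ≤ U₀.card := by
      rw [← List.toFinset_card_of_nodup (k1.1 P hP).1]
      exact card_le_card fun z hz => k4 P hP z (List.mem_toFinset.1 hz)
    have hx : Xp G (T t) w (2 * ρ) := ⟨hw, fun x hx => by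
      rw [two_mul]
      exact ((h1 t ht).1.2 x hx).trans ((h1 t ht).1.2 w hw).symm⟩
    refine ⟨q.support.toFinset ∪ T t, P, t, hP, ht, c, fun z hz => ?_,
      hx.walk_union q (q1.trans (hl.trans k3)), subset_union_right, fun z hz => ?_⟩
    · rcases mem_union.1 hz with hz | hz
      · rcases q2 z (List.mem_toFinset.1 hz) with rfl | e
        exacts [(h1 t ht).2.1 hw, e.2.1]
      · exact (h1 t ht).2.1 hz
    · rcases mem_union.1 hz with hz | hz
      · rcases q2 z (List.mem_toFinset.1 hz) with rfl | e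
        exacts [.inl hw, .inr ⟨e.1, e.2.2⟩]
      · exact .inl hz
  choose! F P t f1 f2 f3 f4 f5 f6 f7 using key
  refine ⟨F, fun a ha => ⟨f4 a ha, f5 a ha, t a, f2 a ha, f6 a ha⟩, fun a ha a' ha' ne => ?_⟩
  have pd : ∀ z, z ∈ P a → z ∈ P a' → False := fun z c e =>
    ne ((f3 a ha).ends_unique (k1.2 _ (f1 a ha) _ (f1 a' ha') z c e ▸ f3 a' ha')).1
  have tt : t a ≠ t a' := fun e => pd _ (f3 a ha).last_mem (e ▸ (f3 a' ha').last_mem)
  refine disjoint_left.2 fun z c e => ?_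
  rcases f7 a ha z c with c | c <;> rcases f7 a' ha' z e with e | e
  · exact disjoint_left.1 (h2 _ (f2 a ha) _ (f2 a' ha') tt) c e
  · exact e.2 _ (f2 a ha) c
  · exact c.2 _ (f2 a' ha') e
  · exact pd z c.1 e.1

end Pool.Agent.P.MP_bb4f54_co.T3

end sLNK

section sDICH
/-! Step DICH. -/

set_option autoImplicit false
set_option linter.unusedSectionVars false

namespace Pool.Agent.P.MP_bb4f54_co.T3

open Finset

namespace DICHx

theorem fin {a x K g t : ℕ} {ψ : ℝ} (hx : 0 < x) (hψ : ψ ≤ 1 / (t + 1)) (ht : t ≤ g)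
    (h : (a : ℝ) / x ≤ 1 / (2 * (K + 1) * (g + 1)) + ψ / (2 * (K + 1))) :
    (K + 1) * (t + 1) * a ≤ x := by
  have h1 : (1 : ℝ) / (2 * (K + 1) * (g + 1)) ≤ 1 / (2 * (K + 1) * (t + 1)) := by gcongr
  have h2 : ψ / (2 * (K + 1)) ≤ 1 / (2 * (K + 1) * (t + 1)) := by
    calc ψ / (2 * (K + 1)) ≤ 1 / (t + 1) / (2 * (K + 1)) := by gcongr
      _ = _ := by field_simp
  have h3 : (a : ℝ) / x ≤ 1 / ((K + 1) * (t + 1)) := by
    refine h.trans ((add_le_add h1 h2).trans (le_of_eq ?_))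
    field_simp; norm_num
  rw [div_le_div_iff₀ (by exact_mod_cast hx) (by positivity), one_mul, mul_comm] at h3
  exact_mod_cast h3

theorem psi_le {x g : ℕ} (h : 2 ^ (g + 1) ≤ x) : psi x ≤ 1 / (g + 1) := by
  refine (psi_anti h).trans ?_
  rw [psi, ← pow_mul, Nat.log_pow (by norm_num)]
  have : (0 : ℝ) ≤ g := by positivity
  refine one_div_le_one_div_of_le (by positivity) ?_
  push_cast
  linarith

end DICHx

theorem p_DICH (hOT : S_OT) (hPOT : S_POT) :
    S_DICH := by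
  classical
  intro K g n₀
  refine ⟨n₀ + 2 ^ (g + 1), (n₀ + 2 ^ (g + 1)) * (12 * (K + 1) * (g + 1)), ?_⟩
  intro V _ _ G _ hd
  set s := n₀ + 2 ^ (g + 1) with hs
  set D := 12 * (K + 1) * (g + 1) with hD
  obtain ⟨I, hI, hmax⟩ := exists_max_image (univ.filter fun I : Finset (Finset V) =>
    (∀ S ∈ I, S.Nonempty ∧ S.card ≤ s ∧ K * ot G S ≤ S.card) ∧
      ∀ S ∈ I, ∀ S' ∈ I, S ≠ S' → Disjoint S S') card ⟨∅, by simp⟩
  obtain ⟨-, h1, h2⟩ := mem_filter.1 hI
  by_cases hn : Fintype.card V ≤ s * D * I.card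
  · exact Or.inr ⟨I, h1, h2, hn⟩
  left
  set U := I.biUnion id with hU
  have hUc : U.card ≤ I.card * s := card_biUnion_le_card_mul _ _ _ fun S hS => (h1 S hS).2.1
  have hDU : D * U.card < Fintype.card V := by
    have := Nat.mul_le_mul_left D hUc
    nlinarith
  have hD2 : 2 ≤ D := by nlinarith [Nat.zero_le K, Nat.zero_le g, Nat.zero_le (K * g)]
  have hc : Uᶜ.card + U.card = Fintype.card V := card_compl_add_card U
  have h2U : 2 * U.card < Fintype.card V := (Nat.mul_le_mul_right _ hD2).trans_lt hDU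
  have hpos : 0 < Uᶜ.card := by omega
  have hot : ot G Uᶜ ≤ 3 * U.card := ((hOT G).1 U).trans_le ((hOT G).2.2.2.1 hd U Uᶜ)
  obtain ⟨X, hX, hne, hE, hp⟩ := hPOT G hd K Uᶜ (card_pos.1 hpos)
  have h3 : (ot G Uᶜ : ℝ) / Uᶜ.card ≤ 1 / (2 * (K + 1) * (g + 1)) := by
    rw [div_le_div_iff₀ (by exact_mod_cast hpos) (by positivity), one_mul]
    have h4 : ot G Uᶜ * (2 * (K + 1) * (g + 1)) ≤ Uᶜ.card := by
      have h5 := Nat.mul_le_mul_left D hot
      have h6 : D * ot G Uᶜ = 6 * (ot G Uᶜ * (2 * (K + 1) * (g + 1))) := by rw [hD]; ring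
      have h7 : D * (3 * U.card) = 3 * (D * U.card) := by ring
      omega
    exact_mod_cast h4
  have h4 := hp.trans (add_le_add_left h3 _)
  by_cases hsm : X.card ≤ s
  · exfalso
    have h5 := DICHx.fin (t := 0) hne.card_pos (by simpa using psi_le_one _) (Nat.zero_le g) h4
    have hdis : ∀ S ∈ I, Disjoint X S := fun S hS => disjoint_left.2 fun v hv hv' =>
      mem_compl.1 (hX hv) (mem_biUnion.2 ⟨S, hS, hv'⟩)
    have hXI : X ∉ I := fun h => hne.ne_empty (disjoint_self.1 (hdis X h))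
    have h6 := hmax (insert X I)
      (mem_filter.2 ⟨mem_univ _, fun S hS => ?_, fun S hS S' hS' e => ?_⟩)
    · rw [card_insert_of_notMem hXI] at h6
      omega
    · rcases mem_insert.1 hS with rfl | hS
      · exact ⟨hne, hsm, by nlinarith⟩
      · exact h1 S hS
    · rcases mem_insert.1 hS with a | a <;> rcases mem_insert.1 hS' with b | b
      · exact absurd (a.trans b.symm) e
      · exact a ▸ hdis _ b
      · exact b ▸ (hdis _ a).symm
      · exact h2 S a S' b e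
  · have h5 := DICHx.fin (t := g) hne.card_pos (DICHx.psi_le (by omega)) le_rfl h4
    refine ⟨X, (Nat.le_add_right _ _).trans (not_le.1 hsm).le, hE, le_trans (Nat.mul_le_mul_right _ ?_) h5⟩
    nlinarith

end Pool.Agent.P.MP_bb4f54_co.T3

end sDICH

section sPOT
/-! Step POT. -/

set_option autoImplicit false
set_option linter.unusedSectionVars false

namespace Pool.Agent.P.MP_bb4f54_co.T3

open Finset

theorem p_POT (hOT : S_OT) :
    S_POT := by
  intro V _ _ G _ hdeg K X₀ hX₀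
  obtain ⟨-, -, h3, h4, -, -⟩ := hOT G
  obtain ⟨th, hth⟩ : ∃ th : ℝ, th = 1 / (2 * ((K : ℝ) + 1)) := ⟨_, rfl⟩
  have hth0 : 0 < th := by rw [hth]; positivity
  obtain ⟨X, hX, hmin⟩ := exists_min_image (X₀.powerset.filter Finset.Nonempty)
    (fun Y : Finset V => (ot G Y : ℝ) / Y.card - th * psi Y.card)
    ⟨X₀, by simp [hX₀]⟩
  rw [mem_filter, mem_powerset] at hX
  have hXp : (0 : ℝ) < X.card := by exact_mod_cast hX.2.card_pos
  obtain ⟨w, hw⟩ : ∃ w : ℝ, w = (ot G X : ℝ) / X.card := ⟨_, rfl⟩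
  have hwX : (ot G X : ℝ) = X.card * w := by rw [hw]; field_simp
  have hlow : ∀ Y ⊆ X, Y.card * (w + th * (psi Y.card - psi X.card)) ≤ (ot G Y : ℝ) := by
    intro Y hY
    rcases Y.eq_empty_or_nonempty with rfl | hne
    · simp
    have h1 := hmin Y (by rw [mem_filter, mem_powerset]; exact ⟨hY.trans hX.1, hne⟩)
    have hYp : (0 : ℝ) < Y.card := by exact_mod_cast hne.card_pos
    have h2 : w + th * (psi Y.card - psi X.card) ≤ (ot G Y : ℝ) / Y.card := by
      rw [hw]; linarith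
    rw [le_div_iff₀ hYp] at h2
    linarith
  refine ⟨X, hX.1, hX.2, ?_, ?_⟩
  · intro Y hY h2 N hN l hl
    rcases Y.eq_empty_or_nonempty with rfl | hne
    · simp
    have hpos : 0 < Y.card := hne.card_pos
    have hg := psi_gain (x := Y.card) (y := X.card) (l := l) hpos (by nlinarith) (by
      have e : 2 ^ (2 * l + 3) = 2 * (2 ^ (l + 1)) ^ 2 := by ring
      rw [e]
      nlinarith)
    have a1 := hlow Y hY
    have a2 := hlow (X \ Y) sdiff_subset
    have a3 : psi X.card ≤ psi (X \ Y).card := psi_anti (card_le_card sdiff_subset)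
    have a4 : ((X \ Y).card : ℝ) * w ≤ ot G (X \ Y) := by
      refine le_trans ?_ a2
      have : 0 ≤ th * (psi (X \ Y).card - psi X.card) := mul_nonneg hth0.le (by linarith)
      exact mul_le_mul_of_nonneg_left (by linarith) (Nat.cast_nonneg _)
    have a5 : ((X \ Y).card : ℝ) + Y.card = X.card := by
      exact_mod_cast card_sdiff_add_card_eq_card hY
    have a6 : (ot G X : ℝ) + 2 * E G Y (X \ Y) = ot G Y + ot G (X \ Y) := by
      exact_mod_cast h3 X Y hY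
    have a7 : E G Y (X \ Y) ≤ 3 * N.card := by
      calc E G Y (X \ Y) ≤ E G Y N := E_le_of_sub fun y hy x hx ha =>
            hN y hy x (mem_sdiff.1 hx).1 (mem_sdiff.1 hx).2 ha
        _ = E G N Y := E_comm _ _
        _ ≤ 3 * N.card := h4 hdeg N Y
    have a8 : (E G Y (X \ Y) : ℝ) ≤ 3 * N.card := by exact_mod_cast a7
    have a9 : (Y.card : ℝ) * (th * (psi Y.card - psi X.card)) ≤ 6 * N.card := by
      have : (X.card : ℝ) * w = (X \ Y).card * w + Y.card * w := by rw [← a5]; ring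
      nlinarith
    have a10 : (Y.card : ℝ) * (th * (1 / (4 * ((l : ℝ) + 2) ^ 2))) ≤ 6 * N.card := by
      exact le_trans (mul_le_mul_of_nonneg_left (mul_le_mul_of_nonneg_left hg hth0.le)
        (Nat.cast_nonneg _)) a9
    have a11 : (Y.card : ℝ) ≤ 48 * (K + 1) * ((l : ℝ) + 2) ^ 2 * N.card := by
      have e : (Y.card : ℝ) * (th * (1 / (4 * ((l : ℝ) + 2) ^ 2))) =
          Y.card / (8 * (K + 1) * ((l : ℝ) + 2) ^ 2) := by
        rw [hth, one_div_mul_one_div, mul_one_div]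
        congr 1
        ring
      rw [e, div_le_iff₀ (by positivity)] at a10
      linarith
    exact_mod_cast a11
  · have h1 := hmin X₀ (by simp [hX₀])
    have h2 : 0 ≤ th * psi X₀.card := mul_nonneg hth0.le (psi_pos _).le
    have h5 : psi X.card / (2 * ((K : ℝ) + 1)) = th * psi X.card := by rw [hth]; ring
    rw [h5]
    linarith

end Pool.Agent.P.MP_bb4f54_co.T3

end sPOT

section sNUM
/-! Step NUM. -/

set_option autoImplicit false
set_option linter.unusedSectionVars false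

namespace Pool.Agent.P.MP_bb4f54_co.T3

open Finset

theorem p_NUM :
    S_NUM := by
  intro c m C
  obtain ⟨i₀, hi⟩ := ev_pw (442 + 6 * m + 32 * c * 442 ^ 3 + 22) 3
  refine ⟨2 ^ i₀ + 80 * (16 * c + 4) ^ 4 + 4 * (C + 1), fun L hL => ?_⟩
  obtain ⟨i, h1, h2⟩ : ∃ i, 2 ^ i ≤ L + 2 ∧ L + 2 < 2 ^ (i + 1) :=
    ⟨Nat.log 2 (L + 2), Nat.pow_log_le_self 2 (by omega), Nat.lt_pow_succ_log_self (by norm_num) _⟩
  have hi0 : i₀ ≤ i := by
    by_contra h
    have : 2 ^ (i + 1) ≤ 2 ^ i₀ := Nat.pow_le_pow_right (by norm_num) (by omega)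
    omega
  have h3 := (hi i hi0).trans h1
  obtain ⟨β, hβ⟩ : ∃ β, β = 13 * (i + 1) := ⟨_, rfl⟩
  obtain ⟨ρ, hρ⟩ : ∃ ρ, ρ = m + 8 * c * (34 * β) ^ 3 := ⟨_, rfl⟩
  obtain ⟨k, hk⟩ : ∃ k, k = 16 * c * (L + 1) ^ 3 := ⟨_, rfl⟩
  have hj : 1 ≤ (i + 1) ^ 3 := Nat.one_le_pow _ _ (by omega)
  have hj' : i + 1 ≤ (i + 1) ^ 3 := Nat.le_self_pow (by norm_num) _
  have h4 : 34 * β + 4 * ρ + 2 * m + 22 ≤ L + 2 := by
    refine le_trans ?_ h3
    have e : (34 * β) ^ 3 = 442 ^ 3 * (i + 1) ^ 3 := by rw [hβ]; ring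
    rw [hρ, e, hβ]
    generalize (i + 1) ^ 3 = j at *
    have : m ≤ m * j := Nat.le_mul_of_pos_right _ hj
    nlinarith
  obtain ⟨x, hx⟩ : ∃ x, x = L + 2 := ⟨_, rfl⟩
  obtain ⟨K, hK⟩ : ∃ K, K = 16 * c + 4 := ⟨_, rfl⟩
  rw [← hK] at hL
  have hx1 : 1 ≤ x := by omega
  have h5 : x ^ 13 ≤ 2 ^ β := by
    rw [hβ, mul_comm, pow_mul]
    exact Nat.pow_le_pow_left (by omega) _
  have hK4 : K ≤ K ^ 4 := Nat.le_self_pow (by norm_num) _
  have hp : 0 < 2 ^ i₀ := by positivity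
  have hx3 : x ≤ x ^ 3 := Nat.le_self_pow (by norm_num) _
  have hy : 2 * ρ + k + 2 ≤ K * x ^ 3 := by
    have : k ≤ 16 * c * x ^ 3 :=
      hk ▸ Nat.mul_le_mul_left _ (Nat.pow_le_pow_left (by omega) _)
    rw [hK, add_mul]
    omega
  refine ⟨β, ρ, k, hρ, hk, ?_, ?_, ?_, ?_, ?_⟩
  · refine le_trans ?_ h5
    rw [← hx]
    calc 4 * c * x ^ 2 ≤ x * x ^ 2 := Nat.mul_le_mul_right _ (by omega)
      _ = x ^ 3 := by ring
      _ ≤ x ^ 13 := Nat.pow_le_pow_right hx1 (by norm_num)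
  · refine le_trans ?_ h5
    have h6 : (2 * ρ + k + 2) ^ 4 ≤ (K * x ^ 3) ^ 4 := Nat.pow_le_pow_left hy _
    have h7 : K * x ^ 3 ≤ (K * x ^ 3) ^ 4 := Nat.le_self_pow (by norm_num) _
    calc _ ≤ 80 * (K * x ^ 3) ^ 4 := by omega
      _ = 80 * K ^ 4 * x ^ 12 := by ring
      _ ≤ x * x ^ 12 := Nat.mul_le_mul_right _ (by omega)
      _ = x ^ 13 := by ring
  · rw [← pow_succ']
    exact Nat.pow_le_pow_right (by norm_num) (by omega)
  · have h6 : (2 ^ β) ^ 32 + 5 ≤ 2 ^ (32 * β + 3) := by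
      rw [← pow_mul, mul_comm β, pow_add]
      have : 0 < 2 ^ (32 * β) := by positivity
      omega
    calc _ ≤ 4 * 2 ^ (32 * β + 3) * 4 ^ (2 * ρ + m + 2) := by gcongr
      _ = 2 ^ (32 * β + 4 * ρ + 2 * m + 9) := by
        rw [show (4 : ℕ) = 2 ^ 2 from rfl, ← pow_mul, ← pow_add, ← pow_add]
        congr 1
        ring
      _ ≤ 2 ^ L := Nat.pow_le_pow_right (by norm_num) (by omega)
  · refine le_trans ?_ h5
    exact le_trans (by omega) (Nat.le_self_pow (by norm_num) x)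

end Pool.Agent.P.MP_bb4f54_co.T3

end sNUM

section sOT
/-! Step OT. -/

set_option autoImplicit false
set_option linter.unusedSectionVars false

namespace Pool.Agent.P.MP_bb4f54_co.T3

open Finset

namespace OTx

variable {V : Type} [Fintype V] [DecidableEq V] (G : SimpleGraph V) [DecidableRel G.Adj]

lemma ot_eq (S : Finset V) :
    ot G S = ∑ x, ∑ y, if x ∈ S ∧ y ∉ S ∧ G.Adj x y then 1 else 0 := by
  unfold ot E
  simp only [dg_eq_sum]
  rw [← Finset.sum_subset (Finset.subset_univ S) (fun x _ hx => by simp [hx])]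
  refine Finset.sum_congr rfl fun x hx => ?_
  rw [← Finset.sum_subset (Finset.subset_univ Sᶜ)
    (fun y _ hy => by simp [show y ∈ S by simpa using hy])]
  refine Finset.sum_congr rfl fun y hy => ?_
  simp [hx, Finset.mem_compl.1 hy]

end OTx

theorem p_OT :
    S_OT := by
  intro V _ _ G _
  refine ⟨fun S => ?_, fun S T => ?_, fun X Y h => ?_, fun h S T => ?_, fun S => ?_,
    fun S h => ?_⟩
  · unfold ot
    rw [compl_compl, E_comm]
  · simp only [OTx.ot_eq, ← Finset.sum_add_distrib]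
    refine Finset.sum_le_sum fun x _ => Finset.sum_le_sum fun y _ => ?_
    by_cases h1 : x ∈ S <;> by_cases h2 : x ∈ T <;> by_cases h3 : y ∈ S <;>
      by_cases h4 : y ∈ T <;> by_cases h5 : G.Adj x y <;> simp [h1, h2, h3, h4, h5]
  · unfold ot
    have e1 : Yᶜ = Xᶜ ∪ (X \ Y) := by
      ext u
      have := @h u
      by_cases h1 : u ∈ X <;> by_cases h2 : u ∈ Y <;> simp_all
    have e2 : (X \ Y)ᶜ = Xᶜ ∪ Y := by
      ext u
      by_cases h1 : u ∈ X <;> by_cases h2 : u ∈ Y <;> simp [h1, h2]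
    have d1 : Disjoint Xᶜ (X \ Y) := Finset.disjoint_left.2 fun u h1 h2 =>
      Finset.mem_compl.1 h1 (Finset.mem_sdiff.1 h2).1
    have d2 : Disjoint Xᶜ Y := Finset.disjoint_left.2 fun u h1 h2 => Finset.mem_compl.1 h1 (h h2)
    have e3 : E G X Xᶜ = E G Y Xᶜ + E G (X \ Y) Xᶜ := by
      rw [← E_union_left _ Finset.disjoint_sdiff, Finset.union_sdiff_of_subset h]
    rw [e3, e2, e1, E_union_right _ d1, E_union_right _ d2, E_comm (X \ Y) Y]
    ring
  · calc E G S T ≤ ∑ _y ∈ S, 3 :=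
          Finset.sum_le_sum fun y _ => (dg_mono (Finset.subset_univ T) y).trans (h y)
      _ = 3 * S.card := by simp [mul_comm]
  · refine ⟨Sᶜ.filter fun x => 0 < dg G S x, ?_, fun y hy x hx hadj => ?_⟩
    · unfold ot
      rw [E_comm, Finset.card_filter]
      refine Finset.sum_le_sum fun x _ => ?_
      split_ifs with h
      · exact h
      · exact Nat.zero_le _
    · exact Finset.mem_filter.2 ⟨Finset.mem_compl.2 hx,
        Finset.card_pos.2 ⟨y, Finset.mem_filter.2 ⟨hy, hadj.symm⟩⟩⟩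
  · unfold ot E at h
    obtain ⟨y, hy, h1⟩ := Finset.exists_ne_zero_of_sum_ne_zero h.ne'
    obtain ⟨x, hx⟩ := Finset.card_pos.1 (Nat.pos_of_ne_zero h1)
    exact ⟨y, hy, x, Finset.mem_compl.1 (Finset.mem_filter.1 hx).1, (Finset.mem_filter.1 hx).2⟩

end Pool.Agent.P.MP_bb4f54_co.T3

end sOT

section sCONN
/-! Step CONN. -/

set_option autoImplicit false
set_option linter.unusedSectionVars false

namespace Pool.Agent.P.MP_bb4f54_co.T3

open Finset

namespace CONNx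

variable {V : Type} [Fintype V] [DecidableEq V] {G : SimpleGraph V} [DecidableRel G.Adj]

lemma half {X W A : Finset V} {c L : ℕ} (hc0 : 0 < c) (hX : Exp G X c)
    (hL : X.card < 2 ^ (L + 1)) (hA : A ⊆ X \ W) (hne : A.Nonempty)
    (hW : 4 * c * (L + 2) ^ 2 * W.card ≤ A.card) :
    X.card < 2 * (bl G (X \ W) A (8 * c * (L + 1) ^ 3)).card := by
  by_contra hc
  push Not at hc
  have hpos := hne.card_pos
  have hAX : A.card ≤ X.card := card_le_card (hA.trans sdiff_subset)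
  set j₁ := Nat.log 2 A.card with hj₁
  have p1 : 2 ^ j₁ ≤ A.card := Nat.pow_log_le_self 2 (by omega)
  have p2 : A.card < 2 ^ (j₁ + 1) := Nat.lt_pow_succ_log_self (by norm_num) _
  have p3 : j₁ < L + 1 := (Nat.pow_lt_pow_iff_right (by norm_num : 1 < 2)).1 (by omega)
  have := grow_cube (fun r => (bl G (X \ W) A r).card) (card_bl_mono _ _) (C := c) (j₁ := j₁)
    (j₂ := L + 1) hc0 p3.le (p1.trans (card_le_card (subset_bl hA _))) (by
      intro j r h1 h2 h3 h4 h5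
      apply grow_step (S := W) _ _ h4
      · have hr : r ≤ 8 * c * (L + 1) ^ 3 :=
          h3.le.trans (Nat.mul_le_mul_left _ (Nat.pow_le_pow_left (by omega) 3))
        have := card_bl_mono (G := G) (X \ W) A hr
        refine hX _ ((bl_subset _ _ _).trans sdiff_subset) (by simp only at this; omega) _ ?_ j h5
        intro y hy x hx hxY hadj
        by_cases hxW : x ∈ W
        · exact mem_union_right _ hxW
        · exact mem_union_left _
            (mem_sdiff.2 ⟨mem_bl_succ hy hadj (mem_sdiff.2 ⟨hx, hxW⟩), hxY⟩)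
      · have a1 : (j + 2) ^ 2 ≤ (L + 2) ^ 2 := Nat.pow_le_pow_left (by omega) 2
        have a2 : 2 ^ j₁ ≤ 2 ^ j := Nat.pow_le_pow_right (by norm_num) h1
        have a3 : 4 * c * (j + 2) ^ 2 * W.card ≤ 4 * c * (L + 2) ^ 2 * W.card :=
          Nat.mul_le_mul_right _ (Nat.mul_le_mul_left _ a1)
        have a4 : 4 * c * (j + 2) ^ 2 * W.card = 2 * (2 * c * (j + 2) ^ 2 * W.card) := by ring
        rw [pow_succ] at p2
        omega)
  omega

end CONNx

open CONNx in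
theorem p_CONN :
    S_CONN := by
  intro V _ _ G _ X c L B hc hX hL hB W A₁ A₂ s₁ n₁ c₁ s₂ n₂ c₂
  have h1 := half hc hX hL s₁ n₁ ((Nat.mul_le_mul_right _ hB).trans c₁)
  have h2 := half hc hX hL s₂ n₂ ((Nat.mul_le_mul_right _ hB).trans c₂)
  have hnd : ¬ Disjoint (bl G (X \ W) A₁ (8 * c * (L + 1) ^ 3))
      (bl G (X \ W) A₂ (8 * c * (L + 1) ^ 3)) := by
    intro hd
    have := card_le_card (union_subset ((bl_subset (G := G) _ A₁ (8 * c * (L + 1) ^ 3)).trans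
      (sdiff_subset (s := X) (t := W))) ((bl_subset (G := G) _ A₂ (8 * c * (L + 1) ^ 3)).trans
      (sdiff_subset (s := X) (t := W))))
    rw [card_union_of_disjoint hd] at this
    omega
  obtain ⟨z, hz1, hz2⟩ := not_disjoint_iff.1 hnd
  obtain ⟨a₁, ha₁, r₁⟩ := mem_bl.1 hz1
  obtain ⟨a₂, ha₂, r₂⟩ := mem_bl.1 hz2
  exact ⟨a₁, ha₁, a₂, ha₂, (r₁.symm.trans r₂).mono subset_rfl (le_of_eq (by ring))⟩

end Pool.Agent.P.MP_bb4f54_co.T3

end sCONN

section sHZ
/-! Step HZ. -/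

set_option autoImplicit false
set_option linter.unusedSectionVars false

namespace Pool.Agent.P.MP_bb4f54_co.T3

open Finset

theorem p_HZ :
    S_HZ := by
  intro V _ _ G _ X W Z Q A J T Tp B k ρ hC hB hW hZ hQ hJ hP hPW hT hD
  have ht : ∃ t ∈ J, Disjoint Z (Tp t) := by
    by_contra hc
    have h1 : ∀ t ∈ J, ∃ z ∈ Z, z ∈ Tp t := fun t ht =>
      not_disjoint_iff.1 fun h => hc ⟨t, ht, h⟩
    choose! z hz using h1
    have h2 : J.card ≤ Z.card := by
      refine card_le_card_of_injOn z (fun t ht => (hz t ht).1) fun t ht t' ht' e => ?_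
      by_contra hne
      exact disjoint_left.1 (hD t ht t' ht' hne) (hz t ht).2 (e ▸ (hz t' ht').2)
    omega
  obtain ⟨t, ht, hZt⟩ := ht
  set P := bl G (X \ (Z ∪ Q)) (A \ Z) ρ with hPdef
  set W' := W ∪ Z ∪ Q ∪ (J.erase t).biUnion T with hW'
  have hmem : ∀ x, x ∈ X \ W' ↔ x ∈ X ∧ x ∉ W ∧ x ∉ Z ∧ x ∉ Q ∧ ∀ t' ∈ J, t' ≠ t → x ∉ T t' := by
    intro x
    simp only [hW', mem_sdiff, mem_union, mem_biUnion, mem_erase, not_or, not_exists, not_and]
    tauto
  have hc1 : ((J.erase t).biUnion T).card ≤ 3 * B ^ 31 := by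
    have := card_biUnion_le_card_mul (J.erase t) T (B ^ 31) fun t' ht' =>
      (hT t' (mem_of_mem_erase ht')).2.2.2.2.1
    rwa [card_erase_of_mem ht, hJ] at this
  have hc2 : B * W'.card ≤ B ^ 34 := by
    have h1 : W'.card ≤ B ^ 32 + 3 + 2 + 3 * B ^ 31 :=
      (card_union_le _ _).trans (Nat.add_le_add ((card_union_le _ _).trans
        (Nat.add_le_add ((card_union_le _ _).trans (Nat.add_le_add hW hZ)) hQ)) hc1)
    have h2 : 1 ≤ B ^ 31 := Nat.one_le_pow _ _ (by omega)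
    have h3 : 16 * B ^ 31 ≤ B ^ 32 := by
      rw [pow_succ B 31, mul_comm]; exact Nat.mul_le_mul_left _ hB
    have h4 : 16 * B ^ 32 ≤ B ^ 33 := by
      rw [pow_succ B 32, mul_comm]; exact Nat.mul_le_mul_left _ hB
    rw [pow_succ' B 33]
    exact Nat.mul_le_mul_left _ (by omega)
  have hpos : 0 < B ^ 34 := Nat.pow_pos (by omega)
  have sP : P ⊆ X \ W' := fun x hx => by
    have h1 := bl_subset _ _ _ hx
    rw [mem_sdiff, mem_union, not_or] at h1
    exact (hmem x).2 ⟨h1.1, disjoint_left.1 hPW hx, h1.2.1, h1.2.2, fun t' ht' _ h =>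
      disjoint_left.1 (hT t' ht').2.2.2.2.2 hx ((hT t' ht').2.2.2.1 h)⟩
  have sT : Tp t ⊆ X \ W' := fun x hx => by
    have h1 := (hT t ht).2.1 hx
    rw [mem_sdiff, mem_sdiff] at h1
    exact (hmem x).2 ⟨h1.1.1, h1.1.2, fun h => disjoint_left.1 hZt h hx, h1.2, fun t' ht' hne h =>
      disjoint_left.1 (hD t' ht' t ht hne) ((hT t' ht').2.2.2.1 h) hx⟩
  obtain ⟨a₁, h1, a₂, h2, hR⟩ := hC W' P (Tp t) sP (card_pos.1 (hpos.trans_le hP))
    (hc2.trans hP) sT (card_pos.1 (hpos.trans_le (hT t ht).2.2.1)) (hc2.trans (hT t ht).2.2.1)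
  obtain ⟨a, ha, hRa⟩ := mem_bl.1 h1
  have r1 : Rch G (X \ W') ρ a a₁ :=
    (hRa.in_bl.mono ((bl_mono subset_rfl (singleton_subset_iff.2 ha) le_rfl).trans sP)
      le_rfl).symm
  have r2 : Rch G (X \ W') ρ a₂ t := ((hT t ht).1.2 a₂ h2).mono sT le_rfl
  obtain ⟨p, hl, hp⟩ := (r1.trans hR).trans r2
  refine ⟨a, (mem_sdiff.1 ha).1, t, ht, p, by omega, fun x hx => ?_⟩
  obtain ⟨e1, e2, e3, e4, e5⟩ := (hmem x).1 (hp x hx)
  exact ⟨mem_sdiff.2 ⟨mem_sdiff.2 ⟨e1, e2⟩, e4⟩, e3, e5⟩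

end Pool.Agent.P.MP_bb4f54_co.T3

end sHZ

section sFAR
/-! Step FAR. -/

set_option autoImplicit false
set_option linter.unusedSectionVars false

namespace Pool.Agent.P.MP_bb4f54_co.T3

open Finset

namespace FARx

lemma exit {V : Type} [Fintype V] [DecidableEq V] {G : SimpleGraph V} {X N : Finset V}
    (hN : ∀ y ∈ X, ∀ x, x ∉ X → G.Adj y x → x ∈ N) (r : ℕ) :
    ∀ v w : V, Rch G univ r v w → v ∈ X → w ∉ X → ∃ x ∈ N, Rch G univ r v x := by
  induction r with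
  | zero =>
    intro v w h hv hw
    exact absurd (h.zero ▸ hv) hw
  | succ r ih =>
    intro v w h hv hw
    rcases h.succ with rfl | ⟨c, hc, h'⟩
    · exact absurd hv hw
    · by_cases hcX : c ∈ X
      · obtain ⟨x, hx, hr⟩ := ih c w h' hcX hw
        exact ⟨x, hx, hr.cons hc (mem_univ _)⟩
      · exact ⟨c, hN v hv c hcX hc,
          (Rch.adj hc (mem_univ _) (mem_univ _)).mono subset_rfl (by omega)⟩

end FARx

theorem p_FAR (hOT : S_OT) :
    S_FAR := by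
  intro V _ _ G _ X W R₀ R h3 h1 h2
  obtain ⟨N, hN1, hN2⟩ := (hOT G).2.2.2.2.1 X
  have hD : ∀ v ∈ (univ : Finset V), dg G univ v < 4 := fun v _ => by
    have := h3 v
    omega
  have c1 := card_bl_le (G := G) N subset_rfl hD R₀
  have c2 := card_bl_le (G := G) W subset_rfl hD R
  have c3 : N.card * 4 ^ R₀ ≤ ot G X * 4 ^ R₀ := Nat.mul_le_mul_right _ hN1
  have hp : 0 < 4 ^ R := by positivity
  have e1 : 4 * 4 ^ R₀ * ot G X = 4 * (ot G X * 4 ^ R₀) := by ring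
  have e2 : 4 * (W.card + 5) * 4 ^ R = 4 * (W.card * 4 ^ R) + 20 * 4 ^ R := by ring
  have c4 := card_union_le (bl G univ N R₀) (bl G univ W R)
  obtain ⟨v, hv, hv'⟩ := exists_mem_notMem_of_card_lt_card
    (show (bl G univ N R₀ ∪ bl G univ W R).card < X.card by omega)
  rw [mem_union, not_or] at hv'
  have c5 := le_card_sdiff (bl G univ W R) X
  obtain ⟨J, j1, j2, j3, j4⟩ := far_points (G := G) (R := R) subset_rfl hD v
    (subset_univ (X \ bl G univ W R)) 4 (by omega)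
  refine ⟨v, hv, ?_, fun w hw h => hv'.2 (mem_bl.2 ⟨w, hw, h⟩), J,
    j1.trans sdiff_subset, j2, fun t ht => ⟨j3 t ht, fun w hw h =>
      (mem_sdiff.1 (j1 ht)).2 (mem_bl.2 ⟨w, hw, h⟩)⟩, j4⟩
  intro w hw
  by_contra hwX
  obtain ⟨a, ha, hr⟩ := mem_bl.1 hw
  rw [mem_singleton] at ha
  subst ha
  obtain ⟨x, hx, hr'⟩ := FARx.exit hN2 R₀ a w hr.symm hv hwX
  exact hv'.1 (mem_bl.2 ⟨x, hx, hr'⟩)

end Pool.Agent.P.MP_bb4f54_co.T3

end sFAR

section sEDGE
/-! Step EDGE. -/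

set_option autoImplicit false
set_option linter.unusedSectionVars false

namespace Pool.Agent.P.MP_bb4f54_co.T3

open Finset

theorem p_EDGE (hOT : S_OT) :
    S_EDGE := by
  intro V _ _ G _ X m v hG hv hX hm
  obtain ⟨-, hsub, -, -, -, hex⟩ := hOT G
  obtain ⟨S, hS, hmax⟩ := exists_max_image
    (X.powerset.filter fun Y => v ∈ Y ∧ ot G Y ≤ 3 ∧ 2 * Y.card ≤ X.card) card ⟨{v}, by
      refine mem_filter.2 ⟨by simpa using hv, mem_singleton_self v, ?_, by simpa using hX⟩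
      rw [ot, E_singleton_left, ← hG.d3 v]
      exact dg_mono (subset_univ _) v⟩
  obtain ⟨hSX, hvS, hS3, hS2⟩ := mem_filter.1 hS
  rw [mem_powerset] at hSX
  have hSm := hm S hSX hS2 hS3
  have hvb : ∀ r, v ∈ bl G S {v} r := fun r => mem_bl_one.2 (Rch.refl hvS r)
  obtain ⟨r, hr, hb⟩ : ∃ r < m, bl G S {v} r = bl G S {v} (r + 1) := by
    by_contra hc
    push Not at hc
    have key : ∀ r ≤ m, r + 1 ≤ (bl G S {v} r).card := by
      intro r
      induction r with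
      | zero => exact fun _ => card_pos.2 ⟨v, hvb 0⟩
      | succ r ih =>
        intro h
        have := card_lt_card (Finset.ssubset_iff_subset_ne.2
          ⟨bl_mono subset_rfl subset_rfl (Nat.le_add_right r 1), hc r h⟩)
        have := ih (by omega)
        omega
    have := (key m le_rfl).trans (card_le_card (bl_subset S {v} m))
    omega
  have h3 := hG.c3 (bl G S {v} r) ⟨v, hvb r⟩ fun e => by
    have h1 := card_le_card (bl_subset (G := G) S {v} r)
    have h2 := card_le_card (subset_univ X)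
    rw [e] at h1
    omega
  obtain ⟨u, hu, u', hu', huu⟩ := hex (bl G S {v} r) (by omega)
  have hu'S : u' ∉ S := fun h => hu' (hb ▸ mem_bl_succ hu huu h)
  refine ⟨u, u', huu, (mem_bl_one.1 hu).mono (subset_univ _) hr.le, fun Y hY h1 h2 h4 => ?_⟩
  by_contra hc
  have h5 := hG.c3 (Y ∩ S) ⟨u, mem_inter.2 ⟨h1, bl_subset _ _ _ hu⟩⟩
    fun e => hu'S (mem_inter.1 (e ▸ mem_univ u')).2
  have h6 := hsub Y S
  have h7 := card_union_le Y S
  have h8 := hmax (Y ∪ S) (mem_filter.2 ⟨mem_powerset.2 (union_subset hY hSX),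
    mem_union_right _ hvS, by omega, by omega⟩)
  have h9 : S.card < (Y ∪ S).card := card_lt_card
    ((ssubset_iff_of_subset subset_union_right).2 ⟨u', mem_union_left _ h2, hu'S⟩)
  omega

end Pool.Agent.P.MP_bb4f54_co.T3

end sEDGE

section sBRG
/-! Step BRG. -/

set_option autoImplicit false
set_option linter.unusedSectionVars false

namespace Pool.Agent.P.MP_bb4f54_co.T3

open Finset

namespace BRGx

variable {V : Type} [Fintype V] [DecidableEq V] (G : SimpleGraph V) [DecidableRel G.Adj]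

lemma card_cut (S : Finset V) : (cut id (EG G) ↑S).card = ot G S := by
  have h : ot G S = (S.sigma fun y => Sᶜ.filter (G.Adj y)).card := by
    rw [card_sigma]; rfl
  rw [h]
  symm
  refine card_bij (fun p _ => s(p.1, p.2)) (fun p hp => ?_) (fun p hp q hq e => ?_) fun e he => ?_
  · simp only [mem_sigma, mem_filter, mem_compl] at hp
    exact mem_cut.2 ⟨mk_mem_EG.2 hp.2.2, p.1, p.2, rfl, hp.1, hp.2.1⟩
  · simp only [mem_sigma, mem_filter, mem_compl] at hp hq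
    obtain ⟨a, b⟩ := p
    obtain ⟨c, d⟩ := q
    rcases Sym2.eq_iff.1 e with ⟨h1, h2⟩ | ⟨h1, h2⟩
    · dsimp only at h1 h2
      rw [h1, h2]
    · dsimp only at h1 hp hq
      exact absurd (h1 ▸ hp.1) hq.2.1
  · obtain ⟨h1, x, y, h2, hx, hy⟩ := mem_cut.1 he
    dsimp only [id] at h2
    subst h2
    refine ⟨⟨x, y⟩, ?_, rfl⟩
    simp only [mem_sigma, mem_filter, mem_compl]
    exact ⟨hx, hy, mk_mem_EG.1 h1⟩

lemma dgr_eq (v : V) : dgr id (EG G) v = dg G univ v := by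
  rw [dgr, ← coe_singleton, card_cut, ot, E_singleton_left]
  refine le_antisymm (dg_mono (subset_univ _) v) (dg_le_of_sub fun x _ h => ?_)
  rw [mem_compl, mem_singleton]
  exact h.ne'

end BRGx

theorem p_BRG :
    S_BRG := by
  intro V _ _ G _
  refine ⟨BRGx.card_cut G, fun h => ⟨fun v => by rw [← BRGx.dgr_eq, h.dg], fun S h1 h2 => ?_⟩⟩
  rw [← BRGx.card_cut]
  refine h.c3 _ (coe_nonempty.2 h1) ?_
  by_contra hc
  refine h2 (eq_univ_of_forall fun x => ?_)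
  by_contra hx
  exact hc ⟨x, hx⟩

end Pool.Agent.P.MP_bb4f54_co.T3

end sBRG

section sGROW
/-! Step GROW. -/

set_option autoImplicit false
set_option linter.unusedSectionVars false

namespace Pool.Agent.P.MP_bb4f54_co.T3

open Finset

theorem p_GROW :
    S_GROW := by
  intro c hc
  obtain ⟨j₁, hj₁⟩ := ev_pw (40 * c) 2
  refine ⟨2 ^ j₁, fun m hm V _ _ G _ X S A J hX hJ hS hG => ?_⟩
  have hmono := card_bl_mono (G := G) (X \ S) A
  have h0 : ∀ r, r ≤ m → r ≤ (bl G (X \ S) A r).card := by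
    intro r
    induction r with
    | zero => exact fun _ => Nat.zero_le _
    | succ r ih =>
      intro hr
      have h1 := ih (by omega)
      have h2 : (bl G (X \ S) A r).card ≤ (bl G (X \ S) A (r + 1)).card := hmono (Nat.le_succ r)
      by_cases h3 : (bl G (X \ S) A r).card < m
      · have := hG r (by omega) h3
        omega
      · omega
  have h1 : ∀ r, 2 ^ j₁ ≤ (bl G (X \ S) A (m + r)).card := fun r =>
    (hm.trans (h0 m le_rfl)).trans (hmono (Nat.le_add_right m r))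
  rcases le_total J j₁ with h2 | h2
  · exact (Nat.pow_le_pow_right (by norm_num) h2).trans (h1 _)
  refine grow_cube (fun r => (bl G (X \ S) A (m + r)).card)
    (fun a b hab => hmono (Nat.add_le_add_left hab m)) (C := c) hc h2 (h1 _) ?_
  intro j r h3 h4 _ h6 h7
  refine grow_step (r := m + r) (S := S) ?_ ?_ h6
  · have h8 : 2 ^ (j + 1) ≤ 2 ^ J := Nat.pow_le_pow_right (by norm_num) h4
    refine hX _ ((bl_subset _ _ _).trans sdiff_subset) (by omega) _ ?_ j h7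
    intro y hy x hx hxY hadj
    by_cases hxS : x ∈ S
    · exact mem_union_right _ hxS
    · exact mem_union_left _ (mem_sdiff.2 ⟨mem_bl_succ hy hadj (mem_sdiff.2 ⟨hx, hxS⟩), hxY⟩)
  · have a1 := hj₁ j h3
    have a2 : (j + 2) ^ 2 ≤ 4 * (j + 1) ^ 2 := by nlinarith
    calc 2 * c * (j + 2) ^ 2 * S.card ≤ 2 * c * (4 * (j + 1) ^ 2) * 5 := by gcongr
      _ = 40 * c * (j + 1) ^ 2 := by ring
      _ ≤ 2 ^ j := a1

end Pool.Agent.P.MP_bb4f54_co.T3

end sGROW

section sABS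
/-! Step ABS. -/

set_option autoImplicit false
set_option linter.unusedSectionVars false

namespace Pool.Agent.P.MP_bb4f54_co.T3

open Finset

theorem p_ABS :
    S_ABS := by
  intro V _ _ G _ h3 Y Z hYZ
  set Z₁ := Z.filter fun z => z ∉ Y ∧ 2 ≤ dg G Y z with hZ₁
  set Z₂ := Z.filter fun z => ¬ (z ∉ Y ∧ 2 ≤ dg G Y z) with hZ₂
  have hd : Disjoint Y Z₁ := disjoint_left.2 fun y hy hz => (mem_filter.1 hz).2.1 hy
  refine ⟨Z₁, filter_subset _ _, fun z hz => ?_, ?_⟩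
  · have h2 := (mem_filter.1 hz).2.2
    obtain ⟨y, hy⟩ := card_pos.1 (lt_of_lt_of_le two_pos h2)
    exact ⟨y, (mem_filter.1 hy).1, (mem_filter.1 hy).2.symm⟩
  · have h1 : E G Y (Y ∪ Z₁)ᶜ ≤ E G Y (Z₂ \ Y) := E_le_of_sub fun y hy x hx ha => by
      rw [mem_compl, mem_union, not_or] at hx
      have hz := (hYZ y hy x ha).resolve_left hx.1
      exact mem_sdiff.2 ⟨mem_filter.2 ⟨hz, fun h => hx.2 (mem_filter.2 ⟨hz, h⟩)⟩, hx.1⟩
    have h2 : E G (Z₂ \ Y) Y ≤ (Z₂ \ Y).card * 1 := sum_le_card_nsmul _ _ 1 fun z hz => by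
      have h := mem_sdiff.1 hz
      have := (mem_filter.1 h.1).2
      rw [not_and, not_le] at this
      exact Nat.lt_succ_iff.1 (this h.2)
    have h4 : E G Z₁ (Y ∪ Z₁)ᶜ ≤ Z₁.card * 1 := sum_le_card_nsmul _ _ 1 fun z hz => by
      have a := (mem_filter.1 hz).2.2
      have b := dg_union (G := G) (X := Y) (X' := (Y ∪ Z₁)ᶜ)
        (disjoint_left.2 fun y hy hc => mem_compl.1 hc (mem_union_left _ hy)) z
      have c := (dg_mono (G := G) (subset_univ (Y ∪ (Y ∪ Z₁)ᶜ)) z).trans (h3 z)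
      omega
    have h5 : Z₁.card + Z₂.card = Z.card := card_filter_add_card_filter_not _
    have h6 : (Z₂ \ Y).card ≤ Z₂.card := card_le_card sdiff_subset
    rw [E_comm Y (Z₂ \ Y)] at h1
    rw [ot, E_union_left _ hd]
    omega

end Pool.Agent.P.MP_bb4f54_co.T3

end sABS

section sSEC1
/-! Step SEC1. -/

set_option autoImplicit false
set_option linter.unusedSectionVars false

namespace Pool.Agent.P.MP_bb4f54_co.T3

open Finset

theorem p_SEC1 (hBRG : S_BRG) (hDICH : S_DICH) (hCONN : S_CONN) (hSML : S_SML) (hGROW : S_GROW) (hHOC : S_HOC) (hNUM : S_NUM) (hWIN : S_WIN) :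
    S_SEC1 := by
  classical
  intro K C
  have hc : 0 < 48 * (K + 1) := by omega
  obtain ⟨M₀, h0⟩ := hSML (48 * (K + 1))
  obtain ⟨M₁, h1⟩ := hGROW (48 * (K + 1)) hc
  obtain ⟨L₀, hL₀⟩ := hNUM (48 * (K + 1)) (M₀ + M₁) C
  obtain ⟨s, q, hd⟩ := hDICH K (4 * 4 ^ (2 * (M₀ + M₁) + 3)) (2 ^ L₀)
  refine ⟨0, s, q, fun G hG _ => ?_⟩
  have h3 := (hBRG G).2 hG
  rcases hd G (fun v => (h3.d3 v).le) with ⟨X, x1, x2, x3⟩ | ⟨I, i1, i2⟩
  · left
    have hpos : 0 < X.card := lt_of_lt_of_le (Nat.two_pow_pos _) x1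
    have p1 : 2 ^ Nat.log 2 X.card ≤ X.card := Nat.pow_log_le_self 2 (by omega)
    have p2 : X.card < 2 ^ (Nat.log 2 X.card + 1) := Nat.lt_pow_succ_log_self (by norm_num) _
    have p3 : L₀ < Nat.log 2 X.card + 1 :=
      (Nat.pow_lt_pow_iff_right (by norm_num : 1 < 2)).1 (by omega)
    obtain ⟨β, ρ, k, rfl, hk, n1, n2, n3, n4, n5⟩ := hL₀ _ (Nat.le_of_lt_succ p3)
    have hC : Conn G X (2 ^ β) k := hk ▸ hCONN G X _ _ _ hc x2 p2 n1
    have hH := hHOC G X _ (M₀ + M₁) (2 ^ β) k _ h3 x2 hC (by omega)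
      (fun Y a b c => (h0 G X x2 Y a b c).trans (by omega))
      (fun S A a b => by
        rw [← pow_mul, mul_comm β]
        exact h1 _ (by omega) G X S A (34 * β) x2 (n3.trans p1) a b) x3 (n4.trans p1)
    refine hWIN G (2 ^ β) C ?_ n5 (hH.window hC le_rfl n2)
    rcases β with _ | β
    · omega
    · exact ⟨2 ^ β, by ring⟩
  · exact Or.inr ⟨I, fun S hS => by rw [(hBRG G).1]; exact i1 S hS, i2⟩

end Pool.Agent.P.MP_bb4f54_co.T3

end sSEC1

section sWIN
/-! Step WIN. -/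

set_option autoImplicit false
set_option linter.unusedSectionVars false

namespace Pool.Agent.P.MP_bb4f54_co.T3

open Finset

theorem p_WIN :
    S_WIN := by
  intro V G B C hB h4 h
  have key : ∀ a b : ℕ, 1 ≤ b → a ≤ 2 * b → b < a →
      (∀ t, Even t → B ^ a ≤ t → t ≤ B ^ (2 * a) → Cyc G t) →
      ∃ L, 3 ≤ L ∧ ∀ j, j ≤ C * (Nat.sqrt L + 1) → HasC G (L + 2 * j) := by
    intro a b hb hab hba h
    have p0 : B ^ 1 ≤ B ^ a := Nat.pow_le_pow_right (by omega) (by omega)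
    have p1 : Nat.sqrt (B ^ a) ≤ B ^ b := by
      rw [← Nat.sqrt_eq' (B ^ b), ← pow_mul]
      exact Nat.sqrt_le_sqrt (Nat.pow_le_pow_right (by omega) (by omega))
    have p2 : B ^ (b + 1) ≤ B ^ a := Nat.pow_le_pow_right (by omega) (by omega)
    have p3 : B ^ (a + 1) ≤ B ^ (2 * a) := Nat.pow_le_pow_right (by omega) (by omega)
    have p4 : 1 ≤ B ^ b := Nat.one_le_pow _ _ (by omega)
    rw [pow_one] at p0
    rw [pow_succ] at p2 p3
    refine ⟨B ^ a, by omega, fun j hj => h _ ?_ (by omega) ?_⟩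
    · exact (Nat.even_pow.2 ⟨hB, by omega⟩).add (even_two_mul j)
    · have q1 : j ≤ C * (2 * B ^ b) := hj.trans (Nat.mul_le_mul_left _ (by omega))
      have q2 : B ^ b * (4 * (C + 1)) ≤ B ^ b * B := Nat.mul_le_mul_left _ h4
      have q3 : B ^ a * 2 ≤ B ^ a * B := Nat.mul_le_mul_left _ (by omega)
      nlinarith
  rcases h with h | h
  · exact key 3 2 (by omega) (by omega) (by omega) h
  · exact key 8 4 (by omega) (by omega) (by omega) h

end Pool.Agent.P.MP_bb4f54_co.T3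

end sWIN

section sSML
/-! Step SML. -/

set_option autoImplicit false
set_option linter.unusedSectionVars false

namespace Pool.Agent.P.MP_bb4f54_co.T3

open Finset

theorem p_SML (hOT : S_OT) :
    S_SML := by
  intro c
  obtain ⟨i₀, hi⟩ := ev_pw (12 * c + 1) 2
  refine ⟨2 ^ i₀, fun G _ X hX Y hY h2 h3 => ?_⟩
  by_contra hc
  push Not at hc
  obtain ⟨N, n1, n2⟩ := (hOT G).2.2.2.2.1 Y
  have hpos : 0 < Y.card := (Nat.zero_le _).trans_lt hc
  have p1 : 2 ^ Nat.log 2 Y.card ≤ Y.card := Nat.pow_log_le_self 2 (by omega)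
  have p2 : Y.card < 2 ^ (Nat.log 2 Y.card + 1) := Nat.lt_pow_succ_log_self (by norm_num) _
  have p3 : i₀ < Nat.log 2 Y.card + 1 :=
    (Nat.pow_lt_pow_iff_right (by norm_num : 1 < 2)).1 (by omega)
  have h4 := hX Y hY h2 N (fun y hy x _ hx => n2 y hy x hx) _ p2
  have h5 := hi _ (Nat.le_of_lt_succ p3)
  generalize Nat.log 2 Y.card = l at *
  have h6 : c * (l + 2) ^ 2 * N.card ≤ c * (4 * (l + 1) ^ 2) * 3 :=
    Nat.mul_le_mul (Nat.mul_le_mul_left _ (by nlinarith)) (by omega)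
  have h7 : 0 < (l + 1) ^ 2 := by positivity
  nlinarith

end Pool.Agent.P.MP_bb4f54_co.T3

end sSML
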