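import Pool.Agent.P.MP_bb4f54_co.T3.Iface4
import Pool.Agent.P.MP_bb4f54_co.Chain
import Pool.Agent.P.MP_bb4f54_co.Setup

/-! Statements: many sparse regions or an expander; cycles in the expander. -/

set_option autoImplicit false
set_option linter.unusedSectionVars false

namespace Pool.Agent.P.MP_bb4f54_co.T3

open Finset

section defs

variable {V : Type} [Fintype V] [DecidableEq V]

/-- Number of edges leaving `S`. -/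
def ot (G : SimpleGraph V) [DecidableRel G.Adj] (S : Finset V) : ℕ := E G S Sᶜ

/-- Cubic and 3-edge-connected, in terms of vertex sets. -/
structure C3 (G : SimpleGraph V) [DecidableRel G.Adj] : Prop where
  d3 : ∀ v, dg G univ v = 3
  c3 : ∀ S : Finset V, S.Nonempty → S ≠ univ → 3 ≤ ot G S

/-- Expansion inside `X` with constant `c`. -/
def Exp (G : SimpleGraph V) (X : Finset V) (c : ℕ) : Prop :=
  ∀ Y ⊆ X, 2 * Y.card ≤ X.card → ∀ N : Finset V,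
    (∀ y ∈ Y, ∀ x ∈ X, x ∉ Y → G.Adj y x → x ∈ N) → ∀ l : ℕ, Y.card < 2 ^ (l + 1) →
      Y.card ≤ c * (l + 2) ^ 2 * N.card

/-- The balls around `A` inside `U` grow as long as radius and size are below `m`. -/
def Gr (G : SimpleGraph V) (U A : Finset V) (m : ℕ) : Prop :=
  ∀ r < m, (bl G U A r).card < m → (bl G U A r).card < (bl G U A (r + 1)).card

end defs

lemma ev_pw (c k : ℕ) : ∃ i₀ : ℕ, ∀ i, i₀ ≤ i → c * (i + 1) ^ k ≤ 2 ^ i := by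
  have h := tendsto_pow_const_div_const_pow_of_one_lt k (show (1 : ℝ) < 2 by norm_num)
  have h2 := h.eventually (gt_mem_nhds (show (0 : ℝ) < 1 / (2 * c + 1) by positivity))
  obtain ⟨i₀, hi⟩ := Filter.eventually_atTop.1 h2
  refine ⟨i₀, fun i h => ?_⟩
  have := hi (i + 1) (by omega)
  rw [div_lt_div_iff₀ (by positivity) (by positivity)] at this
  have h3 : ((c : ℝ)) * ((i : ℝ) + 1) ^ k ≤ 2 ^ i := by
    push_cast at this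
    rw [pow_succ] at this
    have : (0 : ℝ) ≤ ((i : ℝ) + 1) ^ k := by positivity
    nlinarith
  exact_mod_cast h3

-- deps:
/-- Edge sets and vertex sets. -/
def S_BRG : Prop := ∀ {V : Type} [Fintype V] [DecidableEq V] (G : SimpleGraph V)
  [DecidableRel G.Adj],
    (∀ S : Finset V, (cut id (EG G) ↑S).card = ot G S) ∧ (G3 G → C3 G)

-- deps:
/-- Basic facts on the number of leaving edges. -/
def S_OT : Prop := ∀ {V : Type} [Fintype V] [DecidableEq V] (G : SimpleGraph V)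
  [DecidableRel G.Adj],
    (∀ S, ot G Sᶜ = ot G S) ∧
    (∀ S T, ot G (S ∩ T) + ot G (S ∪ T) ≤ ot G S + ot G T) ∧
    (∀ X Y, Y ⊆ X → ot G X + 2 * E G Y (X \ Y) = ot G Y + ot G (X \ Y)) ∧
    ((∀ v, dg G univ v ≤ 3) → ∀ S T, E G S T ≤ 3 * S.card) ∧
    (∀ S, ∃ N : Finset V, N.card ≤ ot G S ∧ ∀ y ∈ S, ∀ x, x ∉ S → G.Adj y x → x ∈ N) ∧
    (∀ S, 0 < ot G S → ∃ y ∈ S, ∃ x, x ∉ S ∧ G.Adj y x)

-- deps: OT
/-- The minimiser of the potential. -/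
def S_POT : Prop := ∀ {V : Type} [Fintype V] [DecidableEq V] (G : SimpleGraph V)
  [DecidableRel G.Adj], (∀ v, dg G univ v ≤ 3) → ∀ (K : ℕ) (X₀ : Finset V), X₀.Nonempty →
    ∃ X ⊆ X₀, X.Nonempty ∧ Exp G X (48 * (K + 1)) ∧
      (ot G X : ℝ) / X.card ≤ (ot G X₀ : ℝ) / X₀.card + psi X.card / (2 * (K + 1))

-- deps: OT POT
/-- A large expander with few leaving edges, or many small sparse regions. -/
def S_DICH : Prop := ∀ K g n₀ : ℕ, ∃ s q : ℕ, ∀ {V : Type} [Fintype V] [DecidableEq V]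
  (G : SimpleGraph V) [DecidableRel G.Adj], (∀ v, dg G univ v ≤ 3) →
    (∃ X : Finset V, n₀ ≤ X.card ∧ Exp G X (48 * (K + 1)) ∧ g * ot G X ≤ X.card) ∨
    ∃ I : Finset (Finset V), (∀ S ∈ I, S.Nonempty ∧ S.card ≤ s ∧ K * ot G S ≤ S.card) ∧
      (∀ S ∈ I, ∀ S' ∈ I, S ≠ S' → Disjoint S S') ∧ Fintype.card V ≤ q * I.card

-- deps:
/-- Short connections in an expander. -/
def S_CONN : Prop := ∀ {V : Type} [Fintype V] [DecidableEq V] (G : SimpleGraph V)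
  [DecidableRel G.Adj] (X : Finset V) (c L B : ℕ), 0 < c → Exp G X c → X.card < 2 ^ (L + 1) →
    4 * c * (L + 2) ^ 2 ≤ B → Conn G X B (16 * c * (L + 1) ^ 3)

-- deps: OT
/-- Sets with at most three leaving edges are small. -/
def S_SML : Prop := ∀ c : ℕ, ∃ M : ℕ, ∀ {V : Type} [Fintype V] [DecidableEq V]
  (G : SimpleGraph V) [DecidableRel G.Adj] (X : Finset V), Exp G X c →
    ∀ Y ⊆ X, 2 * Y.card ≤ X.card → ot G Y ≤ 3 → Y.card ≤ M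

-- deps:
/-- Growth of balls avoiding at most five vertices. -/
def S_GROW : Prop := ∀ c : ℕ, 0 < c → ∃ M : ℕ, ∀ m, M ≤ m → ∀ {V : Type} [Fintype V]
  [DecidableEq V] (G : SimpleGraph V) [DecidableRel G.Adj] (X S A : Finset V) (J : ℕ),
    Exp G X c → 2 * 2 ^ J ≤ X.card → S.card ≤ 5 → Gr G (X \ S) A m →
      2 ^ J ≤ (bl G (X \ S) A (m + 8 * c * J ^ 3)).card

-- deps: OT
/-- An edge near `v` that lies in no small set with at most three leaving edges. -/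
def S_EDGE : Prop := ∀ {V : Type} [Fintype V] [DecidableEq V] (G : SimpleGraph V)
  [DecidableRel G.Adj] (X : Finset V) (m : ℕ) (v : V), C3 G → v ∈ X → 2 ≤ X.card →
    (∀ Y ⊆ X, 2 * Y.card ≤ X.card → ot G Y ≤ 3 → Y.card ≤ m) →
      ∃ u u', G.Adj u u' ∧ Rch G univ m u v ∧
        ∀ Y ⊆ X, u ∈ Y → u' ∈ Y → 2 * (Y.card + m) ≤ X.card → 4 ≤ ot G Y

-- deps:
/-- Absorbing the neighbours with two edges into the set. -/
def S_ABS : Prop := ∀ {V : Type} [Fintype V] [DecidableEq V] (G : SimpleGraph V)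
  [DecidableRel G.Adj], (∀ v, dg G univ v ≤ 3) → ∀ Y Z : Finset V,
    (∀ y ∈ Y, ∀ x, G.Adj y x → x ∈ Y ∨ x ∈ Z) →
      ∃ Z₁ ⊆ Z, (∀ z ∈ Z₁, ∃ y ∈ Y, G.Adj y z) ∧ ot G (Y ∪ Z₁) ≤ Z.card

-- deps: ABS
/-- The balls around the four neighbours of the edge grow. -/
def S_NOCL : Prop := ∀ {V : Type} [Fintype V] [DecidableEq V] (G : SimpleGraph V)
  [DecidableRel G.Adj] (X : Finset V) (m : ℕ) (u u' : V), C3 G → G.Adj u u' →
    bl G univ {u} (m + 3) ⊆ X → (∀ Y ⊆ X, u ∈ Y → u' ∈ Y → Y.card ≤ m + 5 → 4 ≤ ot G Y) →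
      ∃ a₁ a₂ b₁ b₂, G.Adj a₁ u ∧ G.Adj a₂ u ∧ G.Adj b₁ u' ∧ G.Adj b₂ u' ∧
        [u, u', a₁, a₂, b₁, b₂].Nodup ∧
        ∀ Z : Finset V, Z.card ≤ 3 → Gr G (X \ (Z ∪ {u, u'})) ({a₁, a₂, b₁, b₂} \ Z) m

-- deps: SM
/-- Disjoint short paths to disjoint cores. -/
def S_LNK : Prop := ∀ {V : Type} [Fintype V] [DecidableEq V] (G : SimpleGraph V)
  [DecidableRel G.Adj] (U A J : Finset V) (T : V → Finset V) (l ρ : ℕ),
    (∀ t ∈ J, Xp G (T t) t ρ ∧ T t ⊆ U ∧ Disjoint A (T t)) →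
    (∀ t ∈ J, ∀ t' ∈ J, t ≠ t' → Disjoint (T t) (T t')) →
    (∀ Z : Finset V, Z.card < A.card → ∃ a ∈ A, ∃ t ∈ J, ∃ p : G.Walk a t, p.length ≤ l ∧
      ∀ x ∈ p.support, x ∈ U ∧ x ∉ Z ∧ ∀ t' ∈ J, t' ≠ t → x ∉ T t') →
      ∃ F : V → Finset V,
        (∀ a ∈ A, F a ⊆ U ∧ Xp G (F a) a ((l + 2) ^ A.card + 2 * ρ) ∧ ∃ t ∈ J, T t ⊆ F a) ∧
        ∀ a ∈ A, ∀ a' ∈ A, a ≠ a' → Disjoint (F a) (F a')

-- deps: OT
/-- A vertex deep inside `X` and four centres, all far from `W` and from each other. -/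
def S_FAR : Prop := ∀ {V : Type} [Fintype V] [DecidableEq V] (G : SimpleGraph V)
  [DecidableRel G.Adj] (X W : Finset V) (R₀ R : ℕ), (∀ v, dg G univ v ≤ 3) →
    4 * 4 ^ R₀ * ot G X ≤ X.card → 4 * (W.card + 5) * 4 ^ R ≤ X.card →
      ∃ v ∈ X, bl G univ {v} R₀ ⊆ X ∧ (∀ w ∈ W, ¬ Rch G univ R v w) ∧
        ∃ J ⊆ X, J.card = 4 ∧ (∀ t ∈ J, ¬ Rch G univ R t v ∧ ∀ w ∈ W, ¬ Rch G univ R t w) ∧
          ∀ t ∈ J, ∀ t' ∈ J, t ≠ t' → ¬ Rch G univ R t t'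

-- deps:
/-- A short walk from `A` to one of the centres that avoids `Z` and the other cores. -/
def S_HZ : Prop := ∀ {V : Type} [Fintype V] [DecidableEq V] (G : SimpleGraph V)
  [DecidableRel G.Adj] (X W Z Q A J : Finset V) (T Tp : V → Finset V) (B k ρ : ℕ),
    Conn G X B k → 16 ≤ B → W.card ≤ B ^ 32 → Z.card ≤ 3 → Q.card ≤ 2 → J.card = 4 →
    B ^ 34 ≤ (bl G (X \ (Z ∪ Q)) (A \ Z) ρ).card → Disjoint (bl G (X \ (Z ∪ Q)) (A \ Z) ρ) W →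
    (∀ t ∈ J, Xp G (Tp t) t ρ ∧ Tp t ⊆ (X \ W) \ Q ∧ B ^ 34 ≤ (Tp t).card ∧ T t ⊆ Tp t ∧
      (T t).card ≤ B ^ 31 ∧ Disjoint (bl G (X \ (Z ∪ Q)) (A \ Z) ρ) (Tp t)) →
    (∀ t ∈ J, ∀ t' ∈ J, t ≠ t' → Disjoint (Tp t) (Tp t')) →
      ∃ a ∈ A, ∃ t ∈ J, ∃ p : G.Walk a t, p.length ≤ 2 * ρ + k ∧
        ∀ x ∈ p.support, x ∈ (X \ W) \ Q ∧ x ∉ Z ∧ ∀ t' ∈ J, t' ≠ t → x ∉ T t'

-- deps: EDGE NOCL LNK FAR HZ
/-- The H-shaped objects exist. -/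
def S_HOC : Prop := ∀ {V : Type} [Fintype V] [DecidableEq V] (G : SimpleGraph V)
  [DecidableRel G.Adj] (X : Finset V) (c m B k ρ : ℕ), C3 G → Exp G X c → Conn G X B k →
    16 ≤ B → (∀ Y ⊆ X, 2 * Y.card ≤ X.card → ot G Y ≤ 3 → Y.card ≤ m) →
    (∀ S A : Finset V, S.card ≤ 5 → Gr G (X \ S) A m → B ^ 34 ≤ (bl G (X \ S) A ρ).card) →
    4 * 4 ^ (2 * m + 3) * ot G X ≤ X.card → 4 * (B ^ 32 + 5) * 4 ^ (2 * ρ + m + 2) ≤ X.card →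
      HO G X (B ^ 32) (B ^ 31) ((2 * ρ + k + 2) ^ 4 + 2 * ρ)

-- deps:
/-- The choice of the parameters. -/
def S_NUM : Prop := ∀ c m C : ℕ, ∃ L₀ : ℕ, ∀ L, L₀ ≤ L → ∃ β ρ k : ℕ,
  ρ = m + 8 * c * (34 * β) ^ 3 ∧ k = 16 * c * (L + 1) ^ 3 ∧ 4 * c * (L + 2) ^ 2 ≤ 2 ^ β ∧
    16 * (2 * ((2 * ρ + k + 2) ^ 4 + 2 * ρ + 2) + k) ≤ 2 ^ β ∧ 2 * 2 ^ (34 * β) ≤ 2 ^ L ∧
    4 * ((2 ^ β) ^ 32 + 5) * 4 ^ (2 * ρ + m + 2) ≤ 2 ^ L ∧ 4 * (C + 1) ≤ 2 ^ β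

-- deps:
/-- From a window of even lengths to a progression. -/
def S_WIN : Prop := ∀ {V : Type} (G : SimpleGraph V) (B C : ℕ), Even B → 4 * (C + 1) ≤ B →
  ((∀ t, Even t → B ^ 3 ≤ t → t ≤ B ^ 6 → Cyc G t) ∨
    ∀ t, Even t → B ^ 8 ≤ t → t ≤ B ^ 16 → Cyc G t) →
      ∃ L, 3 ≤ L ∧ ∀ j, j ≤ C * (Nat.sqrt L + 1) → HasC G (L + 2 * j)

-- deps: BRG DICH CONN SML GROW HOC NUM WIN
/-- Many cycle lengths, or many small sparse regions. -/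
def S_SEC1 : Prop := ∀ K C : ℕ, ∃ N s q : ℕ, ∀ {V : Type} [Fintype V] [DecidableEq V] (G : SimpleGraph V), G3 G → N ≤ Fintype.card V → (∃ L, 3 ≤ L ∧ ∀ j, j ≤ C * (Nat.sqrt L + 1) → HasC G (L + 2 * j)) ∨ ∃ I : Finset (Finset V), (∀ S ∈ I, S.Nonempty ∧ S.card ≤ s ∧ K * (cut id (EG G) ↑S).card ≤ S.card) ∧ (∀ S ∈ I, ∀ S' ∈ I, S ≠ S' → Disjoint S S') ∧ Fintype.card V ≤ q * I.card

end Pool.Agent.P.MP_bb4f54_co.T3
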