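import Pool.Agent.P.MP_bb4f54_co.T3.Iface8
import Pool.Agent.P.MP_bb4f54_co.T3.Iface7
import Pool.Agent.P.MP_bb4f54_co.T3.Iface5
import Pool.Agent.P.MP_bb4f54_co.T3.Iface2
import Pool.Agent.P.MP_bb4f54_co.T3.Iface1

section sG3V
/-! Step G3V. -/

set_option autoImplicit false
set_option linter.unusedSectionVars false

namespace Pool.Agent.P.MP_bb4f54_co.T3

open Finset

theorem p_G3V :
    S_G3V := by
  classical
  intro V _ _ G _ hn hd hc
  have h1 : ∀ v, dgr id (EG G) v = 3 := fun v => by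
    rw [← hd v, ← G.card_incidenceFinset_eq_degree, dgr]
    congr 1
    ext e
    rw [mem_cut_single, mem_EG, G.mem_incidenceFinset]
    exact ⟨fun h => ⟨h.1, h.2.1⟩, fun h => ⟨h.1, h.2, G.not_isDiag_of_mem_edgeSet h.1⟩⟩
  have key : ∀ Y : Set V, 3 ≤ (univ.filter (· ∈ Y)).card → Yᶜ.Nonempty →
      3 ≤ (cut id (EG G) Y).card := by
    intro Y hY ⟨w, hw⟩
    by_contra hlt
    have hx : ∀ e : Sym2 V, ∃ x, Cr e Y → x ∈ e ∧ x ∈ Y := fun e => by
      by_cases h : Cr e Y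
      · obtain ⟨x, h1, h2⟩ := (cr_iff.1 h).1
        exact ⟨x, fun _ => ⟨h1, h2⟩⟩
      · exact ⟨w, fun h' => (h h').elim⟩
    choose f hf using hx
    have hS : ((cut id (EG G) Y).image f).card ≤ 2 := card_image_le.trans (by omega)
    obtain ⟨u, hu, hu'⟩ := exists_mem_notMem_of_card_lt_card
      (s := (cut id (EG G) Y).image f) (t := univ.filter (· ∈ Y)) (by omega)
    have hw' : w ∉ (cut id (EG G) Y).image f := fun h => by
      obtain ⟨e, he, rfl⟩ := mem_image.1 h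
      exact hw (hf e (mem_cut.1 he).2).2
    obtain ⟨p⟩ := (hc _ hS).preconnected ⟨u, by simpa using hu'⟩ ⟨w, by simpa using hw'⟩
    have : ∀ (a b : ↥((↑((cut id (EG G) Y).image f) : Set V)ᶜ))
        (p : (G.induce (↑((cut id (EG G) Y).image f) : Set V)ᶜ).Walk a b), a.1 ∈ Y → b.1 ∈ Y := by
      intro a b p
      induction p with
      | nil => exact id
      | @cons a b c h _ ih =>
        refine fun ha => ih ?_
        by_contra hb
        have hc : Cr s(a.1, b.1) Y := cr_mk.2 (Or.inl ⟨ha, hb⟩)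
        have he : s(a.1, b.1) ∈ cut id (EG G) Y := mem_cut.2 ⟨mk_mem_EG.2 h, hc⟩
        have h2 := hf _ hc
        rcases Sym2.mem_iff.1 h2.1 with h3 | h3
        · exact a.2 (h3 ▸ mem_coe.2 (mem_image_of_mem f he))
        · exact hb (h3 ▸ h2.2)
    exact hw (this _ _ p (mem_filter.1 hu).2)
  have h2 : ∀ Y : Set V, Y.Nonempty → Yᶜ.Nonempty → 3 ≤ (cut id (EG G) Y).card := by
    intro Y hY hY'
    have := card_filter_add_card_filter_not (s := (univ : Finset V)) (· ∈ Y)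
    rw [card_univ] at this
    by_cases h : 3 ≤ (univ.filter (· ∈ Y)).card
    · exact key Y h hY'
    · rw [← cut_compl]
      exact key Yᶜ (by simp only [Set.mem_compl_iff]; omega) (by rwa [compl_compl])
  obtain ⟨v⟩ : Nonempty V := Fintype.card_pos_iff.1 (by omega)
  exact ⟨⟨h1, h2⟩, nl_EG, fun v => Or.inr (Or.inr (h1 v)), ⟨v, h1 v⟩,
    fun Y ⟨a, ha, _⟩ ⟨b, hb, _⟩ => h2 Y ⟨a, ha⟩ ⟨b, hb⟩,
    fun Y ⟨a, ha, _⟩ ⟨b, hb, _⟩ => card_pos.1 (by have := h2 Y ⟨a, ha⟩ ⟨b, hb⟩; omega)⟩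

end Pool.Agent.P.MP_bb4f54_co.T3

end sG3V

section sINT
/-! Step INT. -/

set_option autoImplicit false
set_option linter.unusedSectionVars false

namespace Pool.Agent.P.MP_bb4f54_co.T3

open Finset

theorem p_INT (hLSL : S_LSL) :
    S_INT := by
  classical
  obtain ⟨K, hK, h⟩ := hLSL
  refine ⟨3 * K + 1, fun {V} _ _ G S hG hS hS' hc => ?_⟩
  refine ⟨S.filter (fun u => ∀ w, G.Adj u w → w ∈ S), filter_subset _ _, fun Γ h1 h2 h3 => ?_⟩
  have k0 : ∀ u ∈ S, dgr id Γ u = 3 := fun u hu => by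
    refine le_antisymm (hG.dg u ▸ dgr_mono h1 u) (hG.dg u ▸ card_le_card fun e he => ?_)
    have a := mem_cut_single.1 he
    exact mem_cut_single.2 ⟨h3 e a.1 ⟨u, a.2.1, hu⟩, a.2⟩
  have k1 : (S.filter (fun u => ¬ ∀ w, G.Adj u w → w ∈ S)).card ≤ (cut id (EG G) ↑S).card := by
    have hx : ∀ u, ∃ w, (¬ ∀ w, G.Adj u w → w ∈ S) → G.Adj u w ∧ w ∉ S := fun u => by
      by_cases h : ∀ w, G.Adj u w → w ∈ S
      · exact ⟨u, fun h' => (h' h).elim⟩
      · push Not at h
        obtain ⟨w, hw⟩ := h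
        exact ⟨w, fun _ => hw⟩
    choose f hf using hx
    refine card_le_card_of_injOn (fun u => s(u, f u)) (fun u hu => ?_) ?_
    · have a := mem_filter.1 (mem_coe.1 hu)
      exact mem_coe.2 (mem_cut.2 ⟨mk_mem_EG.2 (hf u a.2).1, cr_mk.2 (Or.inl ⟨a.1, (hf u a.2).2⟩)⟩)
    · intro u hu u' hu' e
      have a := mem_filter.1 (mem_coe.1 hu)
      have b := mem_filter.1 (mem_coe.1 hu')
      rcases Sym2.eq_iff.1 e with e | e
      · exact e.1
      · exact ((hf u a.2).2 (e.2 ▸ b.1)).elim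
  have k2 : (cut id (EG G) ↑(S.filter (fun u => ∀ w, G.Adj u w → w ∈ S))).card ≤
      (S.filter (fun u => ¬ ∀ w, G.Adj u w → w ∈ S)).card * 3 := by
    refine le_trans (card_le_card (t := (S.filter (fun u => ¬ ∀ w, G.Adj u w → w ∈ S)).biUnion
      fun w => cut id (EG G) {w}) fun e he => ?_) (card_biUnion_le_card_mul _ _ _
        fun w _ => (hG.dg w).le)
    obtain ⟨a, x, y, rfl, b, c⟩ := mem_cut.1 he
    have d := (mem_filter.1 (mem_coe.1 b)).2 y (mk_mem_EG.1 a)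
    exact mem_biUnion.2 ⟨y, mem_filter.2 ⟨d, fun h => c (mem_coe.2 (mem_filter.2 ⟨d, h⟩))⟩,
      mem_cut_single.2 ⟨a, Sym2.mem_mk_right _ _, nl_EG _ a⟩⟩
  have k3 := card_filter_add_card_filter_not (s := S) (fun u => ∀ w, G.Adj u w → w ∈ S)
  have k4 := card_pos.2 hS
  have k5 := Nat.mul_le_mul_left K (k2.trans (Nat.mul_le_mul_right 3 k1))
  have k6 := Nat.mul_le_mul_right (cut id (EG G) ↑S).card (show 1 ≤ K from hK)
  refine h G _ Γ hG h2 h1 (fun u hu => k0 u (mem_filter.1 hu).1)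
    (fun u hu w hw => k0 w ((mem_filter.1 hu).2 w hw)) (card_pos.1 (lt_of_lt_of_le (by norm_num)
      (hG.c3 _ ?_ ?_))) (by nlinarith)
  · exact coe_nonempty.2 (card_pos.1 (by nlinarith))
  · obtain ⟨x, hx⟩ : ∃ x, x ∉ S := by
      by_contra hc
      push Not at hc
      exact hS' (eq_univ_of_forall hc)
    exact ⟨x, fun h => hx (mem_filter.1 (mem_coe.1 h)).1⟩

end Pool.Agent.P.MP_bb4f54_co.T3

end sINT

section sITER
/-! Step ITER. -/

set_option autoImplicit false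
set_option linter.unusedSectionVars false

namespace Pool.Agent.P.MP_bb4f54_co.T3

open Finset

theorem p_ITER :
    S_ITER := by
  classical
  intro V κ _ _ Ω I F hΩ hF hd hL t
  induction t with
  | zero =>
    exact fun _ => ⟨∅, empty_subset _, Ω, subset_rfl, fun _ => s(hΩ.br.choose, hΩ.br.choose), rfl,
      hΩ, fun e he _ => he, fun i hi => absurd hi (notMem_empty i)⟩
  | succ t ih =>
    intro ht
    obtain ⟨J, hJ, Γ, hΓ, c, h1, h2, h3, h4⟩ := ih (by omega)
    have hb : (I.filter (fun i => ∃ j ∈ J, c j ∈ F i)).card ≤ J.card := by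
      have hx : ∀ i, ∃ j, (∃ j ∈ J, c j ∈ F i) → j ∈ J ∧ c j ∈ F i := fun i => by
        by_cases h : ∃ j ∈ J, c j ∈ F i
        · obtain ⟨j, hj⟩ := h
          exact ⟨j, fun _ => hj⟩
        · exact ⟨i, fun h' => (h h').elim⟩
      choose f hf using hx
      refine card_le_card_of_injOn f (fun i hi => (hf i (mem_filter.1 hi).2).1) ?_
      intro i hi i' hi' e
      by_contra hne
      have a := mem_filter.1 (mem_coe.1 hi)
      have b := mem_filter.1 (mem_coe.1 hi')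
      exact disjoint_left.1 (hd i a.1 i' b.1 hne) (hf i a.2).2 (e ▸ (hf i' b.2).2)
    obtain ⟨i, hi, hi'⟩ := exists_mem_notMem_of_card_lt_card
      (s := J ∪ I.filter (fun i => ∃ j ∈ J, c j ∈ F i)) (t := I)
      (lt_of_le_of_lt (card_union_le _ _) (by omega))
    rw [mem_union, not_or, mem_filter] at hi'
    have hij : ∀ j ∈ J, j ≠ i := fun j hj e => hi'.1 (e ▸ hj)
    obtain ⟨Γ', c', g1, g2, g3, g4⟩ := hL i hi Γ hΓ h2
      (fun e he h => h3 e he fun j hj => h j (hJ hj) (hij j hj))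
    have k1 : ∀ e, e ∉ F i → (e ∈ Γ' ↔ e ∈ Γ) := fun e he => by
      have := congrArg (e ∈ ·) g1
      simpa [he] using this
    have k2 : Γ' ⊆ Γ := fun e he => by
      by_cases h : e ∈ F i
      · exact h3 e (hF i hi h) fun j hj => disjoint_left.1 (hd i hi j (hJ hj) (hij j hj).symm) h
      · exact (k1 e h).1 he
    refine ⟨insert i J, insert_subset hi hJ, Γ', k2.trans hΓ, Function.update c i c',
      by rw [card_insert_of_notMem hi'.1, h1], g2, fun e he h => (k1 e (h i (mem_insert_self _ _))).2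
        (h3 e he fun j hj => h j (mem_insert_of_mem hj)), fun j hj => ?_⟩
    rcases mem_insert.1 hj with rfl | hj
    · rw [Function.update_self]
      exact ⟨g3, g4⟩
    · rw [Function.update_of_ne (hij j hj)]
      refine ⟨(k1 _ fun h => hi'.2 ⟨hi, j, hj, h⟩).2 (h4 j hj).1, (h4 j hj).2.imp
        (fun h => h.mono k2 subset_rfl inter_subset_right) fun ⟨X, h⟩ => ⟨X, h.mono k2 fun e he => ?_⟩⟩
      exact (k1 e (disjoint_left.1 (hd j (hJ hj) i hi (hij j hj)) (mem_inter.1 he).1)).2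
        (mem_inter.1 he).2

end Pool.Agent.P.MP_bb4f54_co.T3

end sITER

section sMAIN
/-! Step MAIN. -/

set_option autoImplicit false
set_option linter.unusedSectionVars false

namespace Pool.Agent.P.MP_bb4f54_co.T3

open Finset

theorem p_MAIN (hSEC1 : S_SEC1) (hG3V : S_G3V) (hINT : S_INT) (hITER : S_ITER) (hMAJ : S_MAJ) (hPRG : S_PRG) (hSQ : S_SQ) :
    S_MAIN := by
  classical
  intro C
  obtain ⟨K, hK⟩ := hINT
  obtain ⟨N₁, s, q, h1⟩ := hSEC1 K (C + 2)
  obtain ⟨N₂, h2⟩ := hPRG (C + 2) ((s + 1).choose 2) (4 * q)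
  refine ⟨N₁ + N₂ + s + 5, fun V _ _ G _ hn hd hc => ?_⟩
  obtain ⟨hG, hT⟩ := hG3V G (by omega) hd hc
  suffices h : ∃ L, 3 ≤ L ∧ ∀ j, j ≤ (C + 2) * (Nat.sqrt L + 1) → HasC G (L + 2 * j) by
    obtain ⟨L, l1, l2⟩ := h
    obtain ⟨a, b⟩ := hSQ (HasC G) C L l1 l2
    exact ⟨⟨L, l1, a⟩, b⟩
  rcases h1 G hG (by omega) with h | ⟨I, i1, i2, i3⟩
  · exact h
  have hx : ∀ S, ∃ S₀ ⊆ S, S ∈ I → ∀ Γ ⊆ EG G, TC id Γ →
      (∀ e ∈ EG G, (∃ u ∈ e, u ∈ S) → e ∈ Γ) → Res (EG G) (Fi G S₀) Γ := fun S => by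
    by_cases hS : S ∈ I
    · obtain ⟨S₀, a, b⟩ := hK G S hG (i1 S hS).1 (fun e => by
        have := (i1 S hS).2.1
        rw [e, card_univ] at this
        omega) (i1 S hS).2.2
      exact ⟨S₀, a, fun _ => b⟩
    · exact ⟨S, subset_rfl, fun h' => (hS h').elim⟩
  choose f hf hf' using hx
  have k0 : ∀ S, ∀ e ∈ Fi G (f S), ∀ u ∈ e, u ∈ S := fun S e he u hu =>
    hf S (mem_coe.1 ((mem_ins.1 he).2 u hu))
  have k1 : ∀ S ∈ I, ∀ S' ∈ I, S ≠ S' → Disjoint (Fi G (f S)) (Fi G (f S')) :=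
    fun S a S' b hne => disjoint_left.2 fun e h h' =>
      disjoint_left.1 (i2 S a S' b hne) (k0 S e h _ e.out_fst_mem) (k0 S' e h' _ e.out_fst_mem)
  obtain ⟨J, j1, Γ, j2, c, j3, j4, -, j5⟩ := hITER (EG G) I (fun S => Fi G (f S)) hT
    (fun _ _ => ins_subset) k1 (fun S hS Γ a b h => hf' S hS Γ a b fun e he ⟨u, u1, u2⟩ =>
      h e he fun S' hS' hne h' => disjoint_left.1 (i2 S' hS' S hS hne) (k0 S' e h' u u1) u2)
    ((I.card + 1) / 2) (by omega)
  obtain ⟨J', m1, Ω', m2, Γ', m3, m4, m5, m6⟩ := hMAJ (EG G) Γ J (fun S => Fi G (f S)) c j2 j4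
    (fun i hi j hj => k1 i (j1 hi) j (j1 hj)) j5
  refine h2 G Ω' Γ' J' (fun S => Fi G (f S)) c (by omega) m2 m3 m5
    (i3.trans (le_trans (Nat.mul_le_mul_left q (show I.card ≤ 4 * J'.card by omega))
      (le_of_eq (by ring)))) (fun i hi j hj => k1 i (j1 (m1 hi)) j (j1 (m1 hj)))
    fun S hS => ⟨?_, m6 S hS⟩
  refine (card_le_card (t := S.sym2) fun e he => mem_sym2_iff.2 (k0 S e he)).trans ?_
  rw [card_sym2]
  exact Nat.choose_le_choose 2 (Nat.succ_le_succ (i1 S (j1 (m1 hS))).2.1)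

end Pool.Agent.P.MP_bb4f54_co.T3

end sMAIN

section sARI0
/-! Step ARI0. -/

set_option autoImplicit false
set_option linter.unusedSectionVars false

namespace Pool.Agent.P.MP_bb4f54_co.T3

open Finset

theorem p_ARI0 :
    S_ARI0 := by
  classical
  intro κ _ J r s m h hm
  obtain ⟨d, -, hd⟩ := exists_le_card_fiber_of_mul_le_card_of_maps_to (s := J)
    (t := range (2 * s + 1)) (f := fun i => r i 0 + s - r i 2) (n := 2 * m)
    (fun i hi => by have := (h i hi).1 0; have := (h i hi).1 2; simp only [mem_range]; omega)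
    ⟨0, by simp⟩ (by simpa using hm)
  obtain ⟨D₁, d1, d2⟩ := exists_subset_card_eq (s := J.filter (fun i => r i 0 + s - r i 2 = d))
    (n := m) (by omega)
  refine ⟨∑ i ∈ J, r i (if i ∈ D₁ then 2 else 3), fun j hj => ?_⟩
  obtain ⟨A₁, a1, a2⟩ := exists_subset_card_eq (s := D₁) (n := j) (by omega)
  obtain ⟨A₂, a3, a4⟩ := exists_subset_card_eq
    (s := J.filter (fun i => r i 0 + s - r i 2 = d) \ D₁) (n := j)
    (by rw [card_sdiff_of_subset d1]; omega)
  refine ⟨fun i => if i ∈ A₁ then 0 else if i ∈ A₂ then 1 else if i ∈ D₁ then 2 else 3, ?_⟩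
  have e1 : ∀ (A : Finset κ) (x : ℤ), A ⊆ J → A.card = j →
      ∑ i ∈ J, (if i ∈ A then x else 0) = j * x := fun A x hA hc => by
    rw [sum_ite_mem, inter_eq_right.2 hA, sum_const, hc, nsmul_eq_mul]
  have e2 : ∑ i ∈ J, (r i (if i ∈ A₁ then 0 else if i ∈ A₂ then 1 else if i ∈ D₁ then 2 else 3) : ℤ)
      = ∑ i ∈ J, ((r i (if i ∈ D₁ then 2 else 3) : ℤ) + (if i ∈ A₁ then (d : ℤ) - s else 0) +
        (if i ∈ A₂ then 2 - ((d : ℤ) - s) else 0)) := by
    refine sum_congr rfl fun i hi => ?_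
    have b1 := (h i hi).1 2
    have b2 := (h i hi).2
    by_cases c1 : i ∈ A₁
    · have c2 := a1 c1
      have c3 : i ∉ A₂ := fun c => (mem_sdiff.1 (a3 c)).2 c2
      have c4 := (mem_filter.1 (d1 c2)).2
      simp only [c1, c2, c3, if_true, if_false]
      omega
    · by_cases c3 : i ∈ A₂
      · have c2 := (mem_sdiff.1 (a3 c3)).2
        have c4 := (mem_filter.1 (mem_sdiff.1 (a3 c3)).1).2
        simp only [c1, c2, c3, if_true, if_false]
        omega
      · simp only [c1, c3, if_false, add_zero]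
  rw [sum_add_distrib, sum_add_distrib, e1 A₁ _ (a1.trans (d1.trans (filter_subset _ _))) a2,
    e1 A₂ _ (a3.trans (sdiff_subset.trans (filter_subset _ _))) a4] at e2
  zify
  rw [e2]
  ring

end Pool.Agent.P.MP_bb4f54_co.T3

end sARI0

section sMAJ
/-! Step MAJ. -/

set_option autoImplicit false
set_option linter.unusedSectionVars false

namespace Pool.Agent.P.MP_bb4f54_co.T3

open Finset

theorem p_MAJ :
    S_MAJ := by
  classical
  intro V κ _ _ Ω Γ J F c hΓ hT hd h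
  have h0 := card_filter_add_card_filter_not (s := J) (fun i => Gad Ω Γ (F i) (c i))
  by_cases hc : J.card ≤ 2 * (J.filter (fun i => Gad Ω Γ (F i) (c i))).card
  · exact ⟨_, filter_subset _ _, Ω, subset_rfl, Γ, hΓ, hc, hT,
      fun i hi => ⟨(h i (mem_filter.1 hi).1).1, (mem_filter.1 hi).2⟩⟩
  have hx : ∀ i, ∃ X, i ∈ J.filter (fun i => ¬ Gad Ω Γ (F i) (c i)) → KB Γ (F i) X (c i) :=
    fun i => by
      by_cases hi : i ∈ J.filter (fun i => ¬ Gad Ω Γ (F i) (c i))
      · obtain ⟨X, hX⟩ := (h i (mem_filter.1 hi).1).2.resolve_left (mem_filter.1 hi).2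
        exact ⟨X, fun _ => hX⟩
      · exact ⟨∅, fun h' => (hi h').elim⟩
  choose X hX using hx
  have hs : J.filter (fun i => ¬ Gad Ω Γ (F i) (c i)) ⊆ J := filter_subset _ _
  have hc' : J.card ≤ 2 * (J.filter (fun i => ¬ Gad Ω Γ (F i) (c i))).card := by omega
  generalize J.filter (fun i => ¬ Gad Ω Γ (F i) (c i)) = J' at *
  have k0 : ∀ i ∈ J', ∀ j ∈ J', i ≠ j → ∀ e ∈ F i, e ∉ X j := fun i hi j hj hne e he he' =>
    disjoint_left.1 (hd i (hs hi) j (hs hj) hne) he (mem_inter.1 ((hX j hj).sub he')).1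
  have key : ∀ P ⊆ J', TC id (Γ \ P.biUnion X) := by
    intro P
    induction P using Finset.induction_on with
    | empty => simpa using hT
    | insert i P hi ih =>
      intro hP
      have h1 : P ⊆ J' := (subset_insert _ _).trans hP
      have h2 : i ∈ J' := hP (mem_insert_self _ _)
      rw [show Γ \ (insert i P).biUnion X = (Γ \ P.biUnion X) \ X i by
        ext e; simp only [biUnion_insert, mem_sdiff, mem_union]; tauto]
      refine (hX i h2).rm _ sdiff_subset (ih h1) fun e he => mem_sdiff.2 ⟨(mem_inter.1 he).1, ?_⟩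
      intro h3
      obtain ⟨j, hj, h4⟩ := mem_biUnion.1 h3
      exact k0 i h2 j (h1 hj) (fun e => hi (e ▸ hj)) e (mem_inter.1 he).2 h4
  refine ⟨J', hs, Γ, hΓ, _, sdiff_subset, hc', key J' subset_rfl, fun i hi => ⟨mem_sdiff.2
    ⟨(h i (hs hi)).1, fun h3 => ?_⟩, (hX i hi).gd.mono
      (sdiff_subset_sdiff subset_rfl (subset_biUnion_of_mem X hi)) subset_rfl inter_subset_right⟩⟩
  obtain ⟨j, hj, h4⟩ := mem_biUnion.1 h3
  by_cases e : i = j
  · exact (hX i hi).cX (e ▸ h4)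
  · exact k0 i hi j hj e _ (hX i hi).cF h4

end Pool.Agent.P.MP_bb4f54_co.T3

end sMAJ

section sPRG
/-! Step PRG. -/

set_option autoImplicit false
set_option linter.unusedSectionVars false

namespace Pool.Agent.P.MP_bb4f54_co.T3

open Finset

theorem p_PRG (hEW : S_EW) (hWLK : S_WLK) (hMULT : S_MULT) (hARI0 : S_ARI0) (hARI1 : S_ARI1) :
    S_PRG := by
  classical
  intro C s q
  obtain ⟨N, hN⟩ := hARI1 q ((2 * s + 1) * (2 * C))
  refine ⟨N, fun {V κ} _ _ _ G Ω Γ J F c hn hΩ hΓ hT hq hd h => ?_⟩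
  obtain ⟨Z, z1, z2, z3⟩ := hEW id Γ (fun e => (J.filter (fun i => c i = e)).card) hT
  rw [sum_card_fiberwise_eq_card_filter, sum_card_fiberwise_eq_card_filter,
    filter_true_of_mem fun i hi => (h i hi).2.1] at z3
  have hb := hN _ _ _ hn hq z3
  have hx : ∀ i, ∃ R : Fin 4 → Finset (Sym2 V), i ∈ J.filter (fun i => c i ∈ Z) →
      (∀ j, R j ⊆ F i ∩ Ω) ∧ (R 0).card + (R 1).card = (R 2).card + (R 3).card + 2 ∧
        ∀ Z' ⊆ Ω, Cy id Z' → Z' ∩ F i = Z ∩ F i → ∀ j, Cy id ((Z' \ F i) ∪ R j) := fun i => by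
    by_cases hi : i ∈ J.filter (fun i => c i ∈ Z)
    · obtain ⟨R, hR⟩ := (h i (mem_filter.1 hi).1).2.2 Z z1 z2 (mem_filter.1 hi).2
      exact ⟨R, fun _ => hR⟩
    · exact ⟨fun _ => ∅, fun h' => (hi h').elim⟩
  choose R hR using hx
  have hs : J.filter (fun i => c i ∈ Z) ⊆ J := filter_subset _ _
  generalize J.filter (fun i => c i ∈ Z) = J' at *
  obtain ⟨L, hL⟩ := hARI0 J' (fun i j => (R i j).card) s (C * (Nat.sqrt (Fintype.card V) + 1))
    (fun i hi => ⟨fun j => (card_le_card (((hR i hi).1 j).trans inter_subset_left)).trans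
      (h i (hs hi)).1, (hR i hi).2.1⟩) (le_trans (le_of_eq (by ring)) hb)
  have key : ∀ j, j ≤ C * (Nat.sqrt (Fintype.card V) + 1) →
      HasC G ((Z \ J'.biUnion F).card + L + 2 * j) ∧ 3 ≤ (Z \ J'.biUnion F).card + L + 2 * j := by
    intro j hj
    obtain ⟨σ, hσ⟩ := hL j hj
    obtain ⟨Z', a, b, e⟩ := hMULT Ω Z J' F (fun i => R i (σ i)) (z1.trans hΓ) z2
      (fun i hi j hj => hd i (hs hi) j (hs hj))
      (fun i hi => ⟨(hR i hi).1 _, fun Z' a b e => (hR i hi).2.2 Z' a b e _⟩)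
    have := (hWLK G).1 Z' (a.trans hΩ) b
    rwa [e, hσ, ← add_assoc] at this
  obtain ⟨⟨v, w, w1, w2⟩, k2⟩ := key 0 (Nat.zero_le _)
  have k3 := w1.isPath_tail.length_lt
  have k4 := SimpleGraph.Walk.length_tail_add_one w1.not_nil
  exact ⟨_, k2, fun j hj => (key j (hj.trans (Nat.mul_le_mul_left _ (Nat.succ_le_succ
    (Nat.sqrt_le_sqrt (by omega)))))).1⟩

end Pool.Agent.P.MP_bb4f54_co.T3

end sPRG

section sMULT
/-! Step MULT. -/

set_option autoImplicit false
set_option linter.unusedSectionVars false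

namespace Pool.Agent.P.MP_bb4f54_co.T3

open Finset

theorem p_MULT :
    S_MULT := by
  classical
  intro V κ _ _ Ω Z J F R hZ hc hd h
  have k0 : ∀ i ∈ J, ∀ e ∈ R i, e ∈ F i := fun i hi e he => (mem_inter.1 ((h i hi).1 he)).1
  have k1 : ∀ P ⊆ J, (Z \ P.biUnion F) ∪ P.biUnion R ⊆ Ω := fun P hP =>
    union_subset (sdiff_subset.trans hZ)
      (biUnion_subset.2 fun i hi => (h i (hP hi)).1.trans inter_subset_right)
  have key : ∀ P ⊆ J, Cy id ((Z \ P.biUnion F) ∪ P.biUnion R) := by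
    intro P
    induction P using Finset.induction_on with
    | empty => simpa using hc
    | insert i P hi ih =>
      intro hP
      have h1 : P ⊆ J := (subset_insert _ _).trans hP
      have h2 : i ∈ J := hP (mem_insert_self _ _)
      have h3 : ∀ e ∈ F i, ∀ j ∈ P, e ∉ F j := fun e he j hj =>
        disjoint_left.1 (hd i h2 j (h1 hj) (fun e => hi (e ▸ hj))) he
      have h4 : ∀ e, ∀ j ∈ P, e ∈ R j → e ∈ F j := fun e j hj => k0 j (h1 hj) e
      have := (h i h2).2 _ (k1 P h1) (ih h1) (by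
        ext e
        have a := h3 e
        have b := h4 e
        simp only [mem_inter, mem_union, mem_sdiff, mem_biUnion]
        clear * - a b
        grind)
      convert this using 1
      ext e
      have a := h3 e
      have b := h4 e
      simp only [biUnion_insert, mem_union, mem_sdiff, mem_biUnion]
      clear * - a b
      grind
  refine ⟨_, k1 J subset_rfl, key J subset_rfl, ?_⟩
  rw [card_union_of_disjoint, card_biUnion]
  · exact fun i hi j hj hne => (hd i hi j hj hne).mono (k0 i hi) (k0 j hj)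
  · exact sdiff_disjoint.mono_right (biUnion_mono k0)

end Pool.Agent.P.MP_bb4f54_co.T3

end sMULT

section sARI1
/-! Step ARI1. -/

set_option autoImplicit false
set_option linter.unusedSectionVars false

namespace Pool.Agent.P.MP_bb4f54_co.T3

open Finset

theorem p_ARI1 :
    S_ARI1 := by
  intro q D
  refine ⟨q ^ 100 * (3 * D) ^ 198 + 1, fun n a b hn ha hb => ?_⟩
  by_contra hc
  have h1 := Nat.sqrt_le' n
  have h3 : 1 ≤ Nat.sqrt n := Nat.le_sqrt'.2 (by omega)
  generalize Nat.sqrt n = s at *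
  have h4 : b ≤ 2 * (D * s) := by nlinarith
  have h5 : (a : ℝ) ^ (1 / bt) ≤ ((3 * D * s : ℕ) : ℝ) := by
    have : (b : ℝ) ≤ ((2 * (D * s) : ℕ) : ℝ) := by exact_mod_cast h4
    push_cast at *
    linarith
  have h6 : ((a : ℝ) ^ (1 / bt)) ^ 198 = (a : ℝ) ^ 100 := by
    rw [← Real.rpow_natCast, ← Real.rpow_mul (by positivity), ← Real.rpow_natCast]
    congr 1
    norm_num [bt]
  have h7 : a ^ 100 ≤ (3 * D * s) ^ 198 := by
    have := pow_le_pow_left₀ (by positivity) h5 198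
    rw [h6] at this
    exact_mod_cast this
  have h8 : (3 * D * s) ^ 198 ≤ (3 * D) ^ 198 * n ^ 99 := by
    rw [mul_pow _ s, show s ^ 198 = (s ^ 2) ^ 99 by rw [← pow_mul]]
    exact Nat.mul_le_mul_left _ (Nat.pow_le_pow_left h1 99)
  have h9 : n ^ 99 * n ≤ n ^ 99 * (q ^ 100 * (3 * D) ^ 198) :=
    calc n ^ 99 * n = n ^ 100 := by rw [← pow_succ]
      _ ≤ (q * a) ^ 100 := Nat.pow_le_pow_left ha 100
      _ = q ^ 100 * a ^ 100 := mul_pow _ _ _
      _ ≤ q ^ 100 * ((3 * D) ^ 198 * n ^ 99) := Nat.mul_le_mul_left _ (h7.trans h8)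
      _ = _ := by rw [mul_comm (n ^ 99), mul_assoc]
  have := Nat.le_of_mul_le_mul_left h9 (Nat.pow_pos (by omega))
  omega

end Pool.Agent.P.MP_bb4f54_co.T3

end sARI1

section sSQ
/-! Step SQ. -/

set_option autoImplicit false
set_option linter.unusedSectionVars false

namespace Pool.Agent.P.MP_bb4f54_co.T3

open Finset

theorem p_SQ :
    S_SQ := by
  intro P C L hL h
  refine ⟨fun j hj => h j (hj.trans (Nat.mul_le_mul_right _ (by omega))), ?_⟩
  have h1 := Nat.sqrt_le' L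
  have h2 := Nat.lt_succ_sqrt' L
  have h3 : 1 ≤ Nat.sqrt L := Nat.le_sqrt'.2 (by omega)
  generalize Nat.sqrt L = s at *
  have key : ∀ a, s + 1 ≤ a → a ≤ s + 2 → a % 2 = L % 2 → ∃ a, 2 ≤ a ∧ P (a ^ 2) := by
    intro a ha hb hc
    have e1 : (s + 1) ^ 2 ≤ a ^ 2 := Nat.pow_le_pow_left ha 2
    have e2 : a ^ 2 ≤ (s + 2) ^ 2 := Nat.pow_le_pow_left hb 2
    have e3 : a ^ 2 % 2 = a % 2 := by
      rcases Nat.mod_two_eq_zero_or_one a with h | h <;> simp [Nat.pow_mod, h]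
    have e4 : (s + 2) ^ 2 = s ^ 2 + 4 * s + 4 := by ring
    have e5 : (C + 2) * (s + 1) = C * (s + 1) + 2 * s + 2 := by ring
    have e6 : s.succ ^ 2 = (s + 1) ^ 2 := rfl
    have := h ((a ^ 2 - L) / 2) (by omega)
    rw [show L + 2 * ((a ^ 2 - L) / 2) = a ^ 2 by omega] at this
    exact ⟨a, by omega, this⟩
  rcases Nat.mod_two_eq_zero_or_one (s + L) with h | h
  · exact key (s + 2) (by omega) le_rfl (by omega)
  · exact key (s + 1) le_rfl (by omega) (by omega)

end Pool.Agent.P.MP_bb4f54_co.T3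

end sSQ
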