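import Pool.Agent.P.MP_bb4f54_co.T3.Iface2
import Pool.Agent.P.MP_bb4f54_co.T3.Iface7
import Pool.Agent.P.MP_bb4f54_co.T3.Iface1
import Pool.Agent.P.MP_bb4f54_co.T3.Iface3
import Pool.Agent.P.MP_bb4f54_co.T3.Iface6

section sDL1
/-! Step DL1. -/

set_option autoImplicit false
set_option linter.unusedSectionVars false

namespace Pool.Agent.P.MP_bb4f54_co.T3

open Finset

namespace DL1x

variable {V ι : Type}

lemma pj_self (u w : V) : pj {u} w u = w := by simp [pj]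

lemma pj_ne {u w v : V} (h : v ≠ u) : pj {u} w v = v := by simp [pj, h]

lemma map_fix {u w : V} {e : Sym2 V} (h : u ∉ e) : e.map (pj {u} w) = e := by
  induction e using Sym2.ind with
  | _ x y =>
    simp only [Sym2.mem_iff, not_or] at h
    rw [Sym2.map_mk, pj_ne (Ne.symm h.1), pj_ne (Ne.symm h.2)]

lemma mem_star {en : ι → Sym2 V} {Γ : Finset ι} {i : ι} {x y v : V} (hi : i ∈ Γ)
    (h : en i = s(x, y)) (hxy : x ≠ y) : i ∈ cut en Γ {v} ↔ v = x ∨ v = y := by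
  rw [mem_cut_single, h]
  simp [hi, hxy]

lemma ne_ends {en : ι → Sym2 V} {Γ : Finset ι} {i : ι} {x y : V} (hn : NL en Γ) (hi : i ∈ Γ)
    (h : en i = s(x, y)) : x ≠ y := by
  have := hn i hi
  rwa [h, Sym2.mk_isDiag_iff] at this

end DL1x

open DL1x in
theorem p_DL1 (hGIR : S_GIR) :
    S_DL1 := by
  intro V ι _ _ _ en Γ W ρ u ub uc w w' w₁ w₂ p a b c g g' h₁ h₂ hL hu hw
  have hc := hL.rz.rt.cub
  have hea := hL.rz.ea
  have heg := hu.e1
  have heg' := hu.e2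
  have heh1 := hw.e1
  have heh2 := hw.e2
  obtain ⟨-, -, -, hpar, hnt⟩ := hGIR en Γ W hc
  have hpar' := hpar (by have := hL.five; omega)
  have htri := (hnt hL.nt).1 hL.five
  have haG : a ∈ Γ := cut_subset (en := en) (Y := {u}) (by rw [hu.st]; simp)
  have hgG : g ∈ Γ := cut_subset (en := en) (Y := {u}) (by rw [hu.st]; simp)
  have hg'G : g' ∈ Γ := cut_subset (en := en) (Y := {u}) (by rw [hu.st]; simp)
  have hh1G : h₁ ∈ Γ := cut_subset (en := en) (Y := {w}) (by rw [hw.st]; simp)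
  have hh2G : h₂ ∈ Γ := cut_subset (en := en) (Y := {w}) (by rw [hw.st]; simp)
  have huW : u ∈ W := hc.sp a haG u (by rw [hea]; simp)
  have hwW : w ∈ W := hc.sp g hgG w (by rw [heg]; simp)
  have hw'W : w' ∈ W := hc.sp g' hg'G w' (by rw [heg']; simp)
  have hw1W : w₁ ∈ W := hc.sp h₁ hh1G w₁ (by rw [heh1]; simp)
  have hw2W : w₂ ∈ W := hc.sp h₂ hh2G w₂ (by rw [heh2]; simp)
  have hρW : ρ ∈ W := hL.rz.rt.hρ
  obtain ⟨n_ag, n_ag', n_gg'⟩ := ne_of_card_three (a := a) (b := g) (c := g')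
    (by rw [← hu.st]; exact hc.dg u huW)
  obtain ⟨n_gh1, n_gh2, n_h12⟩ := ne_of_card_three (a := g) (b := h₁) (c := h₂)
    (by rw [← hw.st]; exact hc.dg w hwW)
  have vρu : ρ ≠ u := ne_ends hc.nl haG hea
  have vuw : u ≠ w := ne_ends hc.nl hgG heg
  have vuw' : u ≠ w' := ne_ends hc.nl hg'G heg'
  have vww1 : w ≠ w₁ := ne_ends hc.nl hh1G heh1
  have vww2 : w ≠ w₂ := ne_ends hc.nl hh2G heh2
  have vρw : ρ ≠ w := fun h => n_ag (hpar' a haG g hgG (by rw [hea, heg, h, Sym2.eq_swap]))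
  have vρw' : ρ ≠ w' := fun h => n_ag' (hpar' a haG g' hg'G (by rw [hea, heg', h, Sym2.eq_swap]))
  have vww' : w ≠ w' := fun h => n_gg' (hpar' g hgG g' hg'G (by rw [heg, heg', h]))
  have vuw1 : u ≠ w₁ := fun h => n_gh1 (hpar' g hgG h₁ hh1G (by rw [heg, heh1, h, Sym2.eq_swap]))
  have vuw2 : u ≠ w₂ := fun h => n_gh2 (hpar' g hgG h₂ hh2G (by rw [heg, heh2, h, Sym2.eq_swap]))
  have vw12 : w₁ ≠ w₂ := fun h => n_h12 (hpar' h₁ hh1G h₂ hh2G (by rw [heh1, heh2, h]))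
  have vρw1 : ρ ≠ w₁ := fun h => htri ρ u w ⟨a, haG, hea⟩ ⟨g, hgG, heg⟩
    ⟨h₁, hh1G, by rw [heh1, h]⟩
  have vρw2 : ρ ≠ w₂ := fun h => htri ρ u w ⟨a, haG, hea⟩ ⟨g, hgG, heg⟩
    ⟨h₂, hh2G, by rw [heh2, h]⟩
  have vw'1 : w' ≠ w₁ := fun h => htri u w w' ⟨g, hgG, heg⟩ ⟨h₁, hh1G, by rw [heh1, h]⟩
    ⟨g', hg'G, by rw [heg', Sym2.eq_swap]⟩
  have vw'2 : w' ≠ w₂ := fun h => htri u w w' ⟨g, hgG, heg⟩ ⟨h₂, hh2G, by rw [heh2, h]⟩
    ⟨g', hg'G, by rw [heg', Sym2.eq_swap]⟩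
  have n_ah1 : a ≠ h₁ := fun h => by
    have : s(ρ, u) = s(w, w₁) := by rw [← hea, ← heh1, h]
    rcases Sym2.eq_iff.1 this with h' | h'
    · exact vρw h'.1
    · exact vρw1 h'.1
  have n_ah2 : a ≠ h₂ := fun h => by
    have : s(ρ, u) = s(w, w₂) := by rw [← hea, ← heh2, h]
    rcases Sym2.eq_iff.1 this with h' | h'
    · exact vρw h'.1
    · exact vρw2 h'.1
  have n_g'h1 : g' ≠ h₁ := fun h => by
    have : s(u, w') = s(w, w₁) := by rw [← heg', ← heh1, h]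
    rcases Sym2.eq_iff.1 this with h' | h'
    · exact vuw h'.1
    · exact vuw1 h'.1
  have n_g'h2 : g' ≠ h₂ := fun h => by
    have : s(u, w') = s(w, w₂) := by rw [← heg', ← heh2, h]
    rcases Sym2.eq_iff.1 this with h' | h'
    · exact vuw h'.1
    · exact vuw2 h'.1
  set en' := ctr (ctr en {u} w') {w} w₁ with hen'
  set Γ' := Γ \ {g, g', h₁} with hΓ'
  have mΓ' : ∀ i, i ∈ Γ' ↔ i ∈ Γ ∧ i ≠ g ∧ i ≠ g' ∧ i ≠ h₁ := fun i => by
    simp [hΓ', not_or]
  have haG' : a ∈ Γ' := (mΓ' a).2 ⟨haG, n_ag, n_ag', n_ah1⟩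
  have hh2G' : h₂ ∈ Γ' := (mΓ' h₂).2 ⟨hh2G, n_gh2.symm, n_g'h2.symm, n_h12.symm⟩
  have ea' : en' a = s(ρ, w') := by
    simp only [hen', ctr, hea, Sym2.map_mk, pj_self, pj_ne vρu, pj_ne vρw, pj_ne vww'.symm]
  have eh2' : en' h₂ = s(w₁, w₂) := by
    simp only [hen', ctr, heh2, Sym2.map_mk, pj_self, pj_ne vuw.symm, pj_ne vuw2.symm,
      pj_ne vww2.symm]
  have hoth : ∀ i ∈ Γ', i ≠ a → i ≠ h₂ → u ∉ en i ∧ w ∉ en i ∧ en' i = en i := by
    intro i hi hia hih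
    obtain ⟨hiG, h1, h2, h3⟩ := (mΓ' i).1 hi
    have hu' : u ∉ en i := fun h => by
      have : i ∈ cut en Γ {u} := mem_cut_single.2 ⟨hiG, h, hc.nl i hiG⟩
      rw [hu.st] at this
      simp [hia, h1, h2] at this
    have hw' : w ∉ en i := fun h => by
      have : i ∈ cut en Γ {w} := mem_cut_single.2 ⟨hiG, h, hc.nl i hiG⟩
      rw [hw.st] at this
      simp [hih, h1, h3] at this
    refine ⟨hu', hw', ?_⟩
    simp only [hen', ctr]
    rw [map_fix hu', map_fix hw']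
  have sa : ∀ v, a ∈ cut en Γ {v} ↔ v = ρ ∨ v = u := fun v => mem_star haG hea vρu
  have sg : ∀ v, g ∈ cut en Γ {v} ↔ v = u ∨ v = w := fun v => mem_star hgG heg vuw
  have sg' : ∀ v, g' ∈ cut en Γ {v} ↔ v = u ∨ v = w' := fun v => mem_star hg'G heg' vuw'
  have sh1 : ∀ v, h₁ ∈ cut en Γ {v} ↔ v = w ∨ v = w₁ := fun v => mem_star hh1G heh1 vww1
  have sh2 : ∀ v, h₂ ∈ cut en Γ {v} ↔ v = w ∨ v = w₂ := fun v => mem_star hh2G heh2 vww2
  have sa' : ∀ v, a ∈ cut en' Γ' {v} ↔ v = ρ ∨ v = w' := fun v => mem_star haG' ea' vρw'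
  have sh2' : ∀ v, h₂ ∈ cut en' Γ' {v} ↔ v = w₁ ∨ v = w₂ := fun v => mem_star hh2G' eh2' vw12
  have tg : ∀ v, g ∉ cut en' Γ' {v} := fun v h => ((mΓ' g).1 (cut_subset h)).2.1 rfl
  have tg' : ∀ v, g' ∉ cut en' Γ' {v} := fun v h => ((mΓ' g').1 (cut_subset h)).2.2.1 rfl
  have th1 : ∀ v, h₁ ∉ cut en' Γ' {v} := fun v h => ((mΓ' h₁).1 (cut_subset h)).2.2.2 rfl
  have so : ∀ v i, i ≠ a → i ≠ g → i ≠ g' → i ≠ h₁ → i ≠ h₂ →
      (i ∈ cut en' Γ' {v} ↔ i ∈ cut en Γ {v}) := by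
    intro v i h1 h2 h3 h4 h5
    rw [mem_cut_single, mem_cut_single]
    constructor
    · rintro ⟨hi, hh⟩
      rw [(hoth i hi h1 h5).2.2] at hh
      exact ⟨((mΓ' i).1 hi).1, hh⟩
    · rintro ⟨hi, hh⟩
      have hi' := (mΓ' i).2 ⟨hi, h2, h3, h4⟩
      rw [(hoth i hi' h1 h5).2.2]
      exact ⟨hi', hh⟩
  have st1 : cut en' Γ' {w'} = insert a ((cut en Γ {w'}).erase g') := by
    ext i
    rw [mem_insert, mem_erase]
    by_cases h1 : i = a
    · subst h1; simp [sa']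
    by_cases h2 : i = g
    · subst h2; simp [tg, sg, h1, vuw'.symm, vww'.symm]
    by_cases h3 : i = g'
    · subst h3; simp [tg', h1]
    by_cases h4 : i = h₁
    · subst h4; simp [th1, sh1, h1, vw'1, vww'.symm]
    by_cases h5 : i = h₂
    · subst h5; simp [sh2, sh2', h1, vw'1, vw'2, vww'.symm]
    rw [so _ i h1 h2 h3 h4 h5]
    simp [h1, h3]
  have st2 : cut en' Γ' {w₁} = insert h₂ ((cut en Γ {w₁}).erase h₁) := by
    ext i
    rw [mem_insert, mem_erase]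
    by_cases h5 : i = h₂
    · subst h5; simp [sh2']
    by_cases h1 : i = a
    · subst h1; simp [sa', sa, h5, vρw1.symm, vw'1.symm, vuw1.symm]
    by_cases h2 : i = g
    · subst h2; simp [tg, sg, h5, vuw1.symm, vww1.symm]
    by_cases h3 : i = g'
    · subst h3; simp [tg', sg', h5, vuw1.symm, vw'1.symm]
    by_cases h4 : i = h₁
    · subst h4; simp [th1, h5]
    rw [so _ i h1 h2 h3 h4 h5]
    simp [h5, h4]
  have st3 : ∀ v, v ≠ u → v ≠ w → v ≠ w' → v ≠ w₁ → cut en' Γ' {v} = cut en Γ {v} := by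
    intro v v1 v2 v3 v4
    ext i
    by_cases h1 : i = a
    · subst h1; simp [sa', sa, v1, v3]
    by_cases h2 : i = g
    · subst h2; simp [tg, sg, v1, v2]
    by_cases h3 : i = g'
    · subst h3; simp [tg', sg', v1, v3]
    by_cases h4 : i = h₁
    · subst h4; simp [th1, sh1, v2, v4]
    by_cases h5 : i = h₂
    · subst h5; simp [sh2, sh2', v2, v4]
    exact so _ i h1 h2 h3 h4 h5
  have mW' : ∀ v, v ∈ (W.erase u).erase w ↔ v ≠ w ∧ v ≠ u ∧ v ∈ W := fun v => by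
    simp only [mem_erase]
  have hcub : Cub en' Γ' ((W.erase u).erase w) := by
    refine ⟨?_, ?_, ?_, ?_⟩
    · intro i hi
      by_cases h1 : i = a
      · rw [h1, ea', Sym2.mk_isDiag_iff]; exact vρw'
      by_cases h5 : i = h₂
      · rw [h5, eh2', Sym2.mk_isDiag_iff]; exact vw12
      rw [(hoth i hi h1 h5).2.2]
      exact hc.nl i ((mΓ' i).1 hi).1
    · intro i hi v hv
      rw [mW']
      by_cases h1 : i = a
      · rw [h1, ea', Sym2.mem_iff] at hv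
        rcases hv with rfl | rfl
        · exact ⟨vρw, vρu, hρW⟩
        · exact ⟨vww'.symm, vuw'.symm, hw'W⟩
      by_cases h5 : i = h₂
      · rw [h5, eh2', Sym2.mem_iff] at hv
        rcases hv with rfl | rfl
        · exact ⟨vww1.symm, vuw1.symm, hw1W⟩
        · exact ⟨vww2.symm, vuw2.symm, hw2W⟩
      obtain ⟨q1, q2, q3⟩ := hoth i hi h1 h5
      rw [q3] at hv
      exact ⟨fun h => q2 (h ▸ hv), fun h => q1 (h ▸ hv), hc.sp i ((mΓ' i).1 hi).1 v hv⟩
    · intro v hv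
      obtain ⟨v2, v1, hvW⟩ := (mW' v).1 hv
      have hd := hc.dg v hvW
      unfold dgr at hd ⊢
      by_cases v3 : v = w'
      · subst v3
        rw [st1, card_insert_of_notMem (by simp [sa, vρw'.symm, v1]),
          card_erase_of_mem (by simp [sg']), hd]
      by_cases v4 : v = w₁
      · subst v4
        rw [st2, card_insert_of_notMem (by simp [sh2, vw12, v2]),
          card_erase_of_mem (by simp [sh1]), hd]
      rw [st3 v v1 v2 v3 v4, hd]
    · rintro Y ⟨x, hx, hxY⟩ ⟨y, hy, hyY⟩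
      obtain ⟨x2, x1, hxW⟩ := (mW' x).1 hx
      obtain ⟨y2, y1, hyW⟩ := (mW' y).1 hy
      by_contra hlt
      set Y₀ : Set V := pj {u} w' ⁻¹' (pj {w} w₁ ⁻¹' Y) with hY₀
      have hcut : cut en' Γ' Y = cut en Γ' Y₀ := by
        rw [hY₀, ← cut_map, ← cut_map]; rfl
      have hfix : ∀ v, v ≠ u → v ≠ w → (v ∈ Y₀ ↔ v ∈ Y) := fun v v1 v2 => by
        simp only [hY₀, Set.mem_preimage, pj_ne v1, pj_ne v2]
      have hYu : u ∈ Y₀ ↔ w' ∈ Y := by
        simp only [hY₀, Set.mem_preimage, pj_self, pj_ne vww'.symm]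
      have hYw : w ∈ Y₀ ↔ w₁ ∈ Y := by
        simp only [hY₀, Set.mem_preimage, pj_self, pj_ne vuw.symm]
      have hsub : ∀ i ∈ cut en Γ Y₀, i ≠ g → i ∈ cut en Γ' Y₀ := by
        intro i hi hig
        have hi' := mem_cut.1 hi
        refine mem_cut.2 ⟨(mΓ' i).2 ⟨hi'.1, hig, ?_, ?_⟩, hi'.2⟩
        · rintro rfl
          rw [mem_cut_mk heg', hYu, hfix w' vuw'.symm vww'.symm] at hi
          tauto
        · rintro rfl
          rw [mem_cut_mk heh1, hYw, hfix w₁ vuw1.symm vww1.symm] at hi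
          tauto
      have hx0 : x ∈ Y₀ := (hfix x x1 x2).2 hxY
      have hy0 : y ∉ Y₀ := fun h => hyY ((hfix y y1 y2).1 h)
      have h3 := hc.c3 Y₀ ⟨x, hxW, hx0⟩ ⟨y, hyW, hy0⟩
      rw [hcut] at hlt
      have hgc : g ∈ cut en Γ Y₀ := by
        by_contra hng
        have : cut en Γ Y₀ ⊆ cut en Γ' Y₀ := fun i hi => hsub i hi (fun h => hng (h ▸ hi))
        have := card_le_card this
        omega
      have hle : (cut en Γ Y₀).card ≤ 3 := by
        have h1 : cut en Γ Y₀ ⊆ insert g (cut en Γ' Y₀) := fun i hi => by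
          by_cases h : i = g
          · simp [h]
          · exact mem_insert_of_mem (hsub i hi h)
        have h2 := card_le_card h1
        have h4 := card_insert_le g (cut en Γ' Y₀)
        omega
      rw [mem_cut_mk heg] at hgc
      rcases hL.nt Y₀ hle with h | h
      · rcases hgc.2 with q | q
        · exact x1 (h x hxW u huW hx0 q.1)
        · exact x2 (h x hxW w hwW hx0 q.1)
      · rcases hgc.2 with q | q
        · exact y2 (h y hyW w hwW hy0 q.2)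
        · exact y1 (h y hyW u huW hy0 q.2)
  refine ⟨?_, ?_, huW, hwW, hw'W, hw1W, ?_, ⟨hcub, (mW' ρ).2 ⟨vρw, vρu, hρW⟩, ?_, ?_⟩,
    st1, st2, st3⟩
  · simp [vρu, vρw, vρw', vρw1, vuw, vuw', vuw1, vww', vww1, vw'1]
  · simp [vρu, vρw, vρw2, vρw1, vuw, vuw2, vuw1, vww2, vww1, vw12]
  · simp [n_ag, n_ag', n_ah1, n_ah2, n_gg', n_gh1, n_gh2, n_g'h1, n_g'h2, n_h12]
  · rw [st3 ρ vρu vρw vρw' vρw1]; exact hL.rz.rt.st
  · intro v i
    have hp := hL.rz.rt.pos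
    unfold pd
    split_ifs
    · exact le_rfl
    · exact add_nonneg (add_nonneg (hp _ _) (hp _ _)) (hp _ _)
    · exact hp v i

end Pool.Agent.P.MP_bb4f54_co.T3

end sDL1

section sG2b
/-! Step G2b. -/

set_option autoImplicit false
set_option linter.unusedSectionVars false

namespace Pool.Agent.P.MP_bb4f54_co.T3

open Finset

namespace G2bx

lemma edge_at (hSEG : S_SEG) {V : Type} [Fintype V] [DecidableEq V] {Γ : Finset (Sym2 V)}
    {e : ℕ → V} {m a b i : ℕ} (hnl : NL id Γ) (hs : Seg Γ e m) (hai : a < i) (hib : i < b)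
    (hb : b ≤ m) {f : Sym2 V} (hf : f ∈ Γ) (hi : e i ∈ f) : f ∈ ES e a b := by
  have h1 : f ∈ cut id Γ {e i} := mem_cut_single.2 ⟨hf, hi, hnl f hf⟩
  rw [(hSEG Γ e m hs).2.2.1 i (by omega) (by omega)] at h1
  rcases mem_insert.1 h1 with h | h
  · refine mem_ES.2 ⟨i - 1, by omega, by omega, ?_⟩
    rw [h, Nat.sub_add_cancel (by omega)]
  · exact mem_ES.2 ⟨i, by omega, by omega, mem_singleton.1 h⟩

lemma one (hSEG : S_SEG) (hFRE : S_FRE) (hCXB : S_CXB) {V : Type} [Fintype V] [DecidableEq V]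
    {G : SimpleGraph V} {S T O : Finset V} {Γ : Finset (Sym2 V)} {v : V → ℕ → V}
    {n pos : V → ℕ} (e w : ℕ → V) (m mw a b a' b' : ℕ) (U : Set V)
    (hc : C0 G S T O Γ v n pos) (he : Rail Γ T e m) (hw : Rail Γ T w mw)
    (h0 : 0 < a) (hab : a < b) (hb : b < m) (h0' : 0 < a') (hab' : a' < b') (hb' : b' < mw)
    (hU : ∀ x ∈ U, x ∈ O ∨ (∃ i, a ≤ i ∧ i ≤ b ∧ x = e i) ∨ ∃ j, a' ≤ j ∧ j ≤ b' ∧ x = w j)
    (hD : Dia G U (e a) (e b)) (Z : Finset (Sym2 V)) (hZ : Z ⊆ Γ) (h1 : ES e 0 m ⊆ Z)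
    (h2 : Disjoint (ES w 0 mw) Z) :
    ∃ (s t : V) (U : Set V) (M : Finset (Sym2 V)), s ∈ S ∧ t ∈ S ∧
      U ⊆ ↑S ∧ Dia G U s t ∧ M ⊆ Z ∩ Fi G S ∧ Od id M s t ∧ ∀ u ∈ U, u ≠ s → u ≠ t →
        dgr id (EG G \ Fi G S) u ≤ 1 ∧ u ∉ spt id ((Z ∩ Fi G S) \ M) := by
  obtain ⟨-, cO, cR, -⟩ := hCXB hc
  obtain ⟨cE1, cE2⟩ := cR e m a b he h0 hab hb
  obtain ⟨-, cW2⟩ := cR w mw a' b' hw h0' hab' hb'
  have hO := (hFRE hc.g3 hc.sk).2.2.2.2.1
  have hsub : (Z ∩ Fi G S) \ ES e a b ⊆ Z := sdiff_subset.trans inter_subset_left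
  refine ⟨e a, e b, U, ES e a b, hc.tS (he.int a h0 (by omega)), hc.tS (he.int b (by omega) hb),
    ?_, hD, ?_, ((hSEG Γ e m he.th.sg).1 a b hab.le hb.le).1.1, ?_⟩
  · intro x hx
    rcases hU x hx with h | ⟨i, hi1, hi2, rfl⟩ | ⟨j, hj1, hj2, rfl⟩
    · exact hc.oS h
    · exact hc.tS (he.int i (by omega) (by omega))
    · exact hc.tS (hw.int j (by omega) (by omega))
  · intro f hf
    refine mem_inter.2 ⟨h1 ?_, cE1 hf⟩
    obtain ⟨i, hi1, hi2, rfl⟩ := mem_ES.1 hf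
    exact mem_ES.2 ⟨i, by omega, by omega, rfl⟩
  · intro u hu hua hub
    rcases hU u hu with h | ⟨i, hi1, hi2, rfl⟩ | ⟨j, hj1, hj2, rfl⟩
    · refine ⟨by rw [cO u h]; omega, fun hs => hO u h (spt_mono (hsub.trans hZ) hs)⟩
    · refine ⟨cE2 i hi1 hi2, ?_⟩
      rintro ⟨f, hf, hi⟩
      have hia : i ≠ a := fun h => hua (by rw [h])
      have hib : i ≠ b := fun h => hub (by rw [h])
      exact (mem_sdiff.1 hf).2 (edge_at hSEG hc.tc.nl he.th.sg (by omega) (by omega) hb.le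
        (hZ (hsub hf)) hi)
    · refine ⟨cW2 j hj1 hj2, ?_⟩
      rintro ⟨f, hf, hi⟩
      exact disjoint_left.1 h2 (edge_at hSEG hc.tc.nl hw.th.sg (by omega) (by omega) le_rfl
        (hZ (hsub hf)) hi) (hsub hf)

end G2bx

theorem p_G2b (hPAR : S_PAR) (hARC : S_ARC) (hSEG : S_SEG) (hSGC : S_SGC) (hFRE : S_FRE) (hKA : S_KA) (hCXB : S_CXB) :
    S_G2b := by
  intro V _ _ G S T O Γ v n pos e w m mw a b a' b' Ys U hc he hw hd h3 e0 em w0 wm h0 hab hb h0'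
    hab' hb' hU hD hD'
  have hin : ∃ u ∈ Ys, dgr id Γ u = 3 := ⟨e 0, e0, he.th.d0⟩
  have hout : ∃ u ∉ Ys, dgr id Γ u = 3 := ⟨e m, em, he.th.d1⟩
  obtain ⟨t, -, -, hte⟩ := (hSGC Γ e m Ys hc.tc h3 hin hout he.th.sg).2 e0 em
  obtain ⟨t', -, -, htw⟩ := (hSGC Γ w mw Ys hc.tc h3 hin hout hw.th.sg).2 w0 wm
  set xe := s(e t, e (t + 1)) with hxe
  set xw := s(w t', w (t' + 1)) with hxw
  have aE := ((hSEG Γ e m he.th.sg).2.1 0 m he.th.pos le_rfl).1
  have aW := ((hSEG Γ w mw hw.th.sg).2.1 0 mw hw.th.pos le_rfl).1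
  have m1 : xe ∈ cut id (ES e 0 m) Ys := by rw [hte]; exact mem_singleton_self _
  have m2 : xw ∈ cut id (ES w 0 mw) Ys := by rw [htw]; exact mem_singleton_self _
  have m1' : xe ∈ ES e 0 m := cut_subset m1
  have m2' : xw ∈ ES w 0 mw := cut_subset m2
  have n1 : xe ∈ cut id Γ Ys := cut_mono aE.2.1 m1
  have n2 : xw ∈ cut id Γ Ys := cut_mono aW.2.1 m2
  have hne : xe ≠ xw := fun h => disjoint_left.1 hd m1' (h ▸ m2')
  have h3' : (cut id Γ Ys).card = 3 := le_antisymm h3 (hc.tc.c3 Ys hin hout)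
  obtain ⟨c, hcc, hc2⟩ : ∃ c ∈ cut id Γ Ys, c ∉ ({xe, xw} : Finset (Sym2 V)) :=
    exists_mem_notMem_of_card_lt_card (by rw [h3', card_pair hne]; omega)
  have heq : cut id Γ Ys = insert c {xe, xw} := by
    symm
    apply eq_of_subset_of_card_le
    · intro f hf
      simp only [mem_insert, mem_singleton] at hf
      rcases hf with rfl | rfl | rfl
      · exact hcc
      · exact n1
      · exact n2
    · rw [h3', card_insert_of_notMem hc2, card_pair hne]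
  refine ⟨Γ, c, rfl, hc.tc, cut_subset hcc, Or.inl (hKA G S Γ c ?_)⟩
  intro Z hZ hcy hcZ
  have hev := (hPAR id Z).2.1 hcy.2.1 Ys
  rw [cut_eq_inter hZ] at hev
  have cE := (hARC id Γ _ _ _ hc.tc.nl aE).2.1 Z hZ (fun x _ _ _ => hcy.2.1 x)
  have cW := (hARC id Γ _ _ _ hc.tc.nl aW).2.1 Z hZ (fun x _ _ _ => hcy.2.1 x)
  rcases cE with cE | cE <;> rcases cW with cW | cW
  · exfalso
    have : Z ∩ cut id Γ Ys = cut id Γ Ys := by
      apply inter_eq_right.2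
      rw [heq]
      intro f hf
      simp only [mem_insert, mem_singleton] at hf
      rcases hf with rfl | rfl | rfl
      · exact hcZ
      · exact cE m1'
      · exact cW m2'
    rw [this, h3'] at hev
    exact absurd hev (by decide)
  · exact G2bx.one hSEG hFRE hCXB e w m mw a b a' b' U hc he hw h0 hab hb h0' hab' hb' hU hD Z hZ
      cE cW
  · exact G2bx.one hSEG hFRE hCXB w e mw m a' b' a b U hc hw he h0' hab' hb' h0 hab hb
      (fun x hx => (hU x hx).imp id Or.symm) hD' Z hZ cW cE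
  · exfalso
    have : Z ∩ cut id Γ Ys = {c} := by
      rw [heq]
      ext f
      simp only [mem_inter, mem_insert, mem_singleton]
      constructor
      · rintro ⟨hf, rfl | rfl | rfl⟩
        · rfl
        · exact absurd hf (disjoint_left.1 cE m1')
        · exact absurd hf (disjoint_left.1 cW m2')
      · rintro rfl
        exact ⟨hcZ, Or.inl rfl⟩
    rw [this, card_singleton] at hev
    exact absurd hev (by decide)

end Pool.Agent.P.MP_bb4f54_co.T3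

end sG2b

section sMET
/-! Step MET. -/

set_option autoImplicit false
set_option linter.unusedSectionVars false

namespace Pool.Agent.P.MP_bb4f54_co.T3

open Finset

namespace METx

variable {V ι : Type} [Fintype V] [DecidableEq V] [DecidableEq ι]
  {en : ι → Sym2 V} {Γ Z Z₁ Z₂ Za Zb Zc : Finset ι} {W : Finset V} {ρ : V} {p : V → ι → ℝ}
  {a b c : ι}

lemma not_three (h : Rt en Γ W ρ p a b c) (hZ : Z ⊆ Γ) (he : Ev en Z) (ha : a ∈ Z) (hb : b ∈ Z)
    (hc : c ∈ Z) : False := by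
  have h1 : cut en Z {ρ} = cut en Γ {ρ} := by
    rw [cut_eq_inter hZ, inter_eq_right, h.st]
    intro i hi
    simp only [mem_insert, mem_singleton] at hi
    rcases hi with rfl | rfl | rfl <;> assumption
  have h2 := he ρ
  have h3 := h.cub.dg ρ h.hρ
  rw [dgr] at h2 h3
  rw [h1, h3] at h2
  exact absurd h2 (by decide)

lemma cut_eq (h : Rt en Γ W ρ p a b c) (hZ : Z ⊆ Γ) (he : Ev en Z) (hb : b ∈ Z)
    (hc : c ∈ Z) : cut en Z {ρ} = {b, c} := by
  rw [cut_eq_inter hZ, h.st]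
  ext i
  simp only [mem_inter, mem_insert, mem_singleton]
  constructor
  · rintro ⟨hi, rfl | h2⟩
    · exact (not_three h hZ he hi hb hc).elim
    · exact h2
  · rintro (rfl | rfl)
    · exact ⟨hb, Or.inr (Or.inl rfl)⟩
    · exact ⟨hc, Or.inr (Or.inr rfl)⟩

lemma val_le (hp : ∀ v i, 0 ≤ p v i) (h : Z ⊆ Z₁ ∪ Z₂) :
    val en W ρ p Z ≤ val en W ρ p Z₁ + val en W ρ p Z₂ := by
  unfold val
  rw [← sum_add_distrib]
  refine sum_le_sum fun v _ => ?_
  unfold PP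
  refine (sum_le_sum_of_subset_of_nonneg (cut_mono h) fun i _ _ => hp v i).trans ?_
  rw [cut_union, ← sum_union_inter]
  exact le_add_of_nonneg_right (sum_nonneg fun i _ => hp v i)

/-- A cycle through `x` and `y` of the largest weight. -/
def Best (en : ι → Sym2 V) (Γ : Finset ι) (W : Finset V) (ρ : V) (p : V → ι → ℝ) (x y : ι)
    (Z : Finset ι) : Prop :=
  Z ⊆ Γ ∧ Cy en Z ∧ x ∈ Z ∧ y ∈ Z ∧
    ∀ Z' ⊆ Γ, Cy en Z' → x ∈ Z' → y ∈ Z' → val en W ρ p Z' ≤ val en W ρ p Z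

lemma Best.symm (h : Best en Γ W ρ p a b Z) : Best en Γ W ρ p b a Z :=
  ⟨h.1, h.2.1, h.2.2.2.1, h.2.2.1, fun Z' h1 h2 h3 h4 => h.2.2.2.2 Z' h1 h2 h4 h3⟩

lemma exists_best (hZ : Z ⊆ Γ) (hc : Cy en Z) (ha : a ∈ Z) (hb : b ∈ Z) :
    ∃ Z', Best en Γ W ρ p a b Z' := by
  classical
  obtain ⟨Z', h1, h2⟩ := exists_max_image
    (Γ.powerset.filter fun D => Cy en D ∧ a ∈ D ∧ b ∈ D) (val en W ρ p)
    ⟨Z, mem_filter.2 ⟨mem_powerset.2 hZ, hc, ha, hb⟩⟩
  obtain ⟨h3, h4, h5, h6⟩ := mem_filter.1 h1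
  exact ⟨Z', mem_powerset.1 h3, h4, h5, h6, fun D d1 d2 d3 d4 =>
    h2 D (mem_filter.2 ⟨mem_powerset.2 d1, d2, d3, d4⟩)⟩

lemma no_bridge {f : ι} (h : Cub en Γ W) (Y : Set V) : cut en Γ Y ≠ {f} := by
  intro e
  have hf : f ∈ cut en Γ Y := by rw [e]; exact mem_singleton_self _
  obtain ⟨h1, h2⟩ := mem_cut.1 hf
  obtain ⟨⟨x, hx, hx'⟩, y, hy, hy'⟩ := cr_iff.1 h2
  have := h.c3 Y ⟨x, h.sp f h1 x hx, hx'⟩ ⟨y, h.sp f h1 y hy, hy'⟩
  rw [e, card_singleton] at this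
  omega

lemma metric (hSPL : S_SPL) (hGIR : S_GIR) (h : Rt en Γ W ρ p a b c)
    (ha : Best en Γ W ρ p b c Za) (hb : Best en Γ W ρ p a c Zb) (hc : Best en Γ W ρ p a b Zc) :
    val en W ρ p Za ≤ val en W ρ p Zb + val en W ρ p Zc := by
  obtain ⟨a1, a2, a3, a4, -⟩ := ha
  have hb' : b ∈ cut en Γ {ρ} := by rw [h.st]; simp
  obtain ⟨Z₁, s1, Z₂, s2, c1, c2, m1, m2, hu, -⟩ := hSPL en Γ Za ρ a h.cub.nl
    (hGIR en Γ W h.cub).1 a1 a2 ⟨b, a3, (mem_cut_single.1 hb').2.1⟩ (by rw [h.st]; simp)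
    (fun e => not_three h a1 a2.2.1 e a3 a4) (no_bridge h.cub)
  refine (val_le h.pos hu).trans ?_
  rcases mem_union.1 (hu a3) with b1 | b1 <;> rcases mem_union.1 (hu a4) with d1 | d1
  · exact (not_three h s1 c1.2.1 m1 b1 d1).elim
  · have := hc.2.2.2.2 Z₁ s1 c1 m1 b1
    have := hb.2.2.2.2 Z₂ s2 c2 m2 d1
    linarith
  · have := hc.2.2.2.2 Z₂ s2 c2 m2 b1
    have := hb.2.2.2.2 Z₁ s1 c1 m1 d1
    linarith
  · exact (not_three h s2 c2.2.1 m2 b1 d1).elim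

end METx

open METx in
theorem p_MET (hSPL : S_SPL) (hGIR : S_GIR) :
    S_MET := by
  intro V ι _ _ _ en Γ W ρ p a b c S h hT
  obtain ⟨Za, h1, Zb, h2, Zc, h3, c1, c2, c3, m1, m2, m3, m4, m5, m6, hv⟩ := hT
  obtain ⟨Ya, ha⟩ := exists_best (W := W) (ρ := ρ) (p := p) h1 c1 m1 m2
  obtain ⟨Yb, hb⟩ := exists_best (W := W) (ρ := ρ) (p := p) h2 c2 m3 m4
  obtain ⟨Yc, hc⟩ := exists_best (W := W) (ρ := ρ) (p := p) h3 c3 m5 m6
  refine ⟨Ya, ha.1, Yb, hb.1, Yc, hc.1, ha.2.1, hb.2.1, hc.2.1,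
    cut_eq h ha.1 ha.2.1.2.1 ha.2.2.1 ha.2.2.2.1,
    cut_eq h.s12 hb.1 hb.2.1.2.1 hb.2.2.1 hb.2.2.2.1,
    cut_eq h.s23.s12 hc.1 hc.2.1.2.1 hc.2.2.1 hc.2.2.2.1, ?_,
    metric hSPL hGIR h ha hb hc, metric hSPL hGIR h.s12 hb ha hc.symm,
    metric hSPL hGIR h.s23.s12 hc ha.symm hb.symm |>.trans_eq rfl⟩
  have := ha.2.2.2.2 Za h1 c1 m1 m2
  have := hb.2.2.2.2 Zb h2 c2 m3 m4
  have := hc.2.2.2.2 Zc h3 c3 m5 m6
  linarith

end Pool.Agent.P.MP_bb4f54_co.T3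

end sMET

section sA1b
/-! Step A1b. -/

set_option autoImplicit false
set_option linter.unusedSectionVars false

namespace Pool.Agent.P.MP_bb4f54_co.T3

open Finset

namespace A1bx

variable {V : Type} [Fintype V] [DecidableEq V] {G : SimpleGraph V} {O : Finset V}
  {Φ : Finset (Sym2 V)}

lemma stuck {Γ : Finset (Sym2 V)} {u p : V} (hr : Rc id Γ u p) (h : ∀ f ∈ Γ, u ∉ f) :
    p = u := by
  rcases Relation.ReflTransGen.cases_head hr with h1 | ⟨c, ⟨i, hi, e⟩, -⟩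
  · exact h1.symm
  · exact absurd (show u ∈ id i by rw [e]; exact Sym2.mem_mk_left _ _) (h i hi)

lemma po_of {u : V} {e : Sym2 V} (hu : u ∈ O) (he : e ∈ cut id (EG G) ↑O) (hue : u ∈ e) :
    Po G O u := by
  obtain ⟨h1, x, y, hxy, hx, hy⟩ := mem_cut.1 he
  have hxy' : e = s(x, y) := hxy
  subst hxy'
  rcases Sym2.mem_iff.1 hue with rfl | rfl
  · exact ⟨hu, y, hy, mk_mem_EG.1 h1⟩
  · exact absurd hu hy

lemma cut_of {u t : V} (hu : u ∈ O) (ht : t ∉ O) (h : G.Adj u t) :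
    s(u, t) ∈ cut id (EG G) ↑O :=
  mem_cut.2 ⟨mk_mem_EG.2 h, u, t, rfl, hu, ht⟩

lemma port (hA1a : S_A1a) (h : Al G O Φ) {a : V} (ha : a ∈ O)
    (hd : dgr id (Sg G O Φ) a ≠ 0) : ∃ p, Po G O p ∧ Rc id Φ a p := by
  obtain ⟨e, he, hae⟩ := mem_spt_of_dgr hd
  rcases mem_union.1 he with h1 | h1
  · obtain ⟨b, hb⟩ := Sym2.mem_iff_exists.1 (show a ∈ e from hae)
    subst hb
    obtain ⟨p, hp, hr⟩ := (hA1a h).2.1 a b h1
    exact ⟨p, hp, hr.mono' (erase_subset _ _)⟩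
  · exact ⟨a, po_of ha h1 hae, Rc.refl'⟩

end A1bx

open A1bx in
theorem p_A1b (hA1a : S_A1a) :
    S_A1b := by
  intro V _ _ G O Φ h
  obtain ⟨-, h2, h3, h4, -, -, -⟩ := hA1a h
  refine ⟨fun u hu hd => ?_, fun a ha b hb hda hdb hr => ?_⟩
  · obtain ⟨e, he⟩ := card_eq_one.1 hd
    have hee : e ∈ cut id (Sg G O Φ) {u} := by rw [he]; exact mem_singleton_self _
    obtain ⟨he1, he2, -⟩ := mem_cut_single.1 hee
    have uq : ∀ f ∈ Sg G O Φ, u ∈ f → f = e := fun f hf huf => by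
      have : f ∈ cut id (Sg G O Φ) {u} := mem_cut_single.2 ⟨hf, huf, nl_EG f (h3 hf)⟩
      rw [he] at this
      exact mem_singleton.1 this
    rcases mem_union.1 he1 with h5 | h5
    · obtain ⟨b, hb⟩ := Sym2.mem_iff_exists.1 (show u ∈ e from he2)
      subst hb
      obtain ⟨p, hp, hr⟩ := h2 u b h5
      have hpu : p = u := stuck hr fun f hf huf =>
        (mem_erase.1 hf).1 (uq f (mem_union_left _ (mem_erase.1 hf).2) huf)
      subst hpu
      obtain ⟨-, t, ht, hadj⟩ := hp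
      have h6 := cut_of hu ht hadj
      have h7 := uq _ (mem_union_right _ h6) (Sym2.mem_mk_left _ _)
      exact disjoint_left.1 h4 h5 (h7 ▸ h6)
    · have hY : ∀ w, Rc id (ins id (EG G) ↑O) u w → w ∈ O := fun w hw => by
        induction hw with
        | refl => exact hu
        | @tail x y _ hs _ =>
          obtain ⟨i, hi, ei⟩ := hs
          exact (mem_ins.1 hi).2 y (by rw [ei]; exact Sym2.mem_mk_right _ _)
      obtain ⟨t, ht⟩ := h.ne
      have h6 := h.g3.c3 {w | Rc id (ins id (EG G) ↑O) u w} ⟨u, Rc.refl'⟩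
        ⟨t, fun hw => ht (hY t hw)⟩
      obtain ⟨f, hf, hfe⟩ := exists_mem_ne (lt_of_lt_of_le (by norm_num) h6) e
      obtain ⟨hf1, x, y, hxy, hx, hy⟩ := mem_cut.1 hf
      have hxy' : f = s(x, y) := hxy
      subst hxy'
      have hxO := hY x hx
      have hyO : y ∉ O := fun hyO => hy (Rc.trans' hx (Rc.step (i := s(x, y))
        (mem_ins.2 ⟨hf1, fun v hv => by
          rcases Sym2.mem_iff.1 hv with rfl | rfl
          · exact hxO
          · exact hyO⟩) rfl))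
      have hadj := mk_mem_EG.1 hf1
      have hr := h.con u x (po_of hu h5 he2) ⟨hxO, y, hyO, hadj⟩ hx
      have hxu : x = u := stuck hr fun g hg hug =>
        disjoint_left.1 h4 hg (uq g (mem_union_left _ hg) hug ▸ h5)
      subst hxu
      exact hfe (uq _ (mem_union_right _ (cut_of hu hyO hadj)) (Sym2.mem_mk_left _ _))
  · obtain ⟨p, hp, hap⟩ := port hA1a h ha hda
    obtain ⟨q, hq, hbq⟩ := port hA1a h hb hdb
    have h5 := h.con p q hp hq
      (((hap.mono' h.sub).symm'.trans' hr).trans' (hbq.mono' h.sub))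
    exact (hap.trans' h5).trans' hbq.symm'

end Pool.Agent.P.MP_bb4f54_co.T3

end sA1b

section sTCB
/-! Step TCB. -/

set_option autoImplicit false
set_option linter.unusedSectionVars false

namespace Pool.Agent.P.MP_bb4f54_co.T3

open Finset

theorem p_TCB (hPAR : S_PAR) (hPD1 : S_PD1) :
    S_TCB := by
  intro V ι _ _ _ en Γ h
  have h1 : ∀ v, dgr en Γ v ≤ 3 := fun v => by rcases h.dg v with a | a | a <;> omega
  have h3 : ∀ Y : Set V, Odd (cut en Γ Y).card → ∃ v ∈ Y, dgr en Γ v = 3 := by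
    intro Y hY
    by_contra hc
    push Not at hc
    refine Nat.not_even_iff_odd.2 hY ((hPAR en Γ).2.2.2.1 Y fun v hv => ?_)
    have := hc v hv
    rcases h.dg v with a | a | a
    · simp [a]
    · simp [a]
    · exact absurd a this
  have h2 : ∀ Y : Set V, (∃ v ∈ Y, dgr en Γ v ≠ 0) → (∃ v ∉ Y, dgr en Γ v ≠ 0) →
      2 ≤ (cut en Γ Y).card := by
    intro Y a b
    have c := card_pos.2 (h.c1 Y a b)
    by_contra hc
    have e : (cut en Γ Y).card = 1 := by omega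
    have o : Odd (cut en Γ Y).card := by rw [e]; exact odd_one
    have := h.c3 Y (h3 Y o) (h3 Yᶜ (by rwa [cut_compl]))
    omega
  refine ⟨h1, h2, h3, fun Z hZ hC => ?_, fun Γ₀ h0 x y hd => ?_⟩
  · have d2 : ∀ v ∈ spt en Z, dgr en Z v = 2 := fun v hv =>
      (hPD1 en).2.2 Z v hC (h.nl.mono hZ) hv
    have key : ∀ a0, (∀ v ∈ spt en Z, dgr en Γ v = 3 → v = a0) → False := by
      intro a0 ha
      have sub : ∀ i ∈ cut en Γ (spt en Z), a0 ∈ spt en Z ∧ i ∈ cut en (Γ \ Z) {a0} := by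
        intro i hi
        obtain ⟨hi, x, y, e, hx, hy⟩ := mem_cut.1 hi
        have iZ : i ∉ Z := fun c => hy ⟨i, c, by simp [e]⟩
        have m : i ∈ cut en (Γ \ Z) {x} :=
          mem_cut_single.2 ⟨mem_sdiff.2 ⟨hi, iZ⟩, by simp [e], h.nl i hi⟩
        have p : 0 < dgr en (Γ \ Z) x := card_pos.2 ⟨i, m⟩
        have q := dgr_sdiff (en := en) hZ x
        have r := d2 x hx
        have t := h1 x
        obtain rfl := ha x hx (by omega)
        exact ⟨hx, m⟩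
      have le : (cut en Γ (spt en Z)).card ≤ 1 := by
        rcases (cut en Γ (spt en Z)).eq_empty_or_nonempty with e | ⟨i, hi⟩
        · simp [e]
        · have a : (cut en Γ (spt en Z)).card ≤ dgr en (Γ \ Z) a0 :=
            card_le_card fun j hj => (sub j hj).2
          have q := dgr_sdiff (en := en) hZ a0
          have r := d2 a0 (sub i hi).1
          have t := h1 a0
          omega
      have all : ∀ v, dgr en Γ v ≠ 0 → v ∈ spt en Z := by
        intro v hv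
        by_contra hc
        obtain ⟨i, hi⟩ := hC.1
        have hx : (en i).out.1 ∈ spt en Z := ⟨i, hi, Sym2.out_fst_mem _⟩
        have q := dgr_mono (en := en) hZ (en i).out.1
        have r := d2 _ hx
        have := h2 _ ⟨_, hx, by omega⟩ ⟨v, hc, hv⟩
        omega
      have ev := (hPAR en Γ).2.2.2.2.2.1 a0 fun v hv => by
        have e : dgr en Γ v = 3 := by
          rw [Nat.odd_iff] at hv
          rcases h.dg v with a | a | a <;> omega
        exact ha v (all v (by omega)) e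
      obtain ⟨w, hw⟩ := h.br
      have := ev w
      rw [hw] at this
      exact absurd this (by decide)
    by_contra hc
    by_cases c : ∃ a ∈ spt en Z, dgr en Γ a = 3
    · obtain ⟨a, a1, a2⟩ := c
      exact key a fun v hv e => by_contra fun n => hc ⟨v, hv, a, a1, n, e, a2⟩
    · obtain ⟨w, -⟩ := h.br
      exact key w fun v hv e => absurd ⟨v, hv, e⟩ c
  · intro Y hx hy hY
    refine (hd Y hx hy fun v hv => ?_).trans (card_le_card (cut_mono h0))
    have a := dgr_mono (en := en) h0 v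
    have b := h1 v
    have c := hY v hv
    omega

end Pool.Agent.P.MP_bb4f54_co.T3

end sTCB

section sRM3a
/-! Step RM3a. -/

set_option autoImplicit false
set_option linter.unusedSectionVars false

namespace Pool.Agent.P.MP_bb4f54_co.T3

open Finset

namespace RM3ax

lemma cut_univ {V ι : Type} (en : ι → Sym2 V) (Γ : Finset ι) :
    cut en Γ (Set.univ : Set V) = ∅ := by
  ext i
  simp only [mem_cut, notMem_empty, iff_false]
  rintro ⟨-, x, y, -, -, hy⟩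
  exact hy (Set.mem_univ y)

lemma no_one (hTCB : S_TCB) {V : Type} [Fintype V] [DecidableEq V] {Γ : Finset (Sym2 V)}
    (hT : TC id Γ) (Z : Set V) : (cut id Γ Z).card ≠ 1 := by
  intro h
  obtain ⟨e, he⟩ := card_pos.1 (show 0 < (cut id Γ Z).card by omega)
  obtain ⟨heΓ, x, y, hxy, hx, hy⟩ := mem_cut.1 he
  have h1 : dgr id Γ x ≠ 0 := hT.nl.dgr_ne ⟨e, heΓ, by rw [hxy]; exact Sym2.mem_mk_left x y⟩
  have h2 : dgr id Γ y ≠ 0 := hT.nl.dgr_ne ⟨e, heΓ, by rw [hxy]; exact Sym2.mem_mk_right x y⟩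
  have := (hTCB id Γ hT).2.1 Z ⟨x, hx, h1⟩ ⟨y, hy, h2⟩
  omega

end RM3ax

open RM3ax in
theorem p_RM3a (hTCB : S_TCB) (hWAR : S_WAR) (hWAC : S_WAC) :
    S_RM3a := by
  classical
  intro V _ _ Γ X L D l r M hW hT
  obtain ⟨u1, u2, -⟩ := hWAC Set.univ univ univ hW (by simp) (by simp)
  rw [cut_univ] at u1 u2
  simp only [card_empty, card_univ, Fintype.card_fin, zero_add] at u1 u2
  obtain ⟨p, hp, hp3⟩ := (hTCB id Γ hT).2.2.1 _ (by rw [u1]; decide)
  obtain ⟨q, hq, hq3⟩ := (hTCB id Γ hT).2.2.1 _ (by rw [u2]; decide)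
  have hpL : p ∈ L := hp.1
  have hqN : q ∈ (L ∪ D)ᶜ := hq.1
  have hqL : q ∉ L := fun h => hqN (Or.inl h)
  have hpN : p ∉ (L ∪ D)ᶜ := fun h => h (Or.inl hpL)
  refine ⟨⟨p, hpL, hp3⟩, fun Y u u' hu hu' huD hu'D h3 h3' => ?_⟩
  set a : Finset (Fin 3) := univ.filter (fun ρ => l ρ ∈ Y) with ha
  set b : Finset (Fin 3) := univ.filter (fun ρ => r ρ ∈ Y) with hb
  obtain ⟨h1, h2, h0⟩ := hWAC Y a b hW (by simp [ha]) (by simp [hb])
  obtain ⟨h1', h2', -⟩ := hWAC Yᶜ aᶜ bᶜ hW (by simp [ha]) (by simp [hb])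
  rw [cut_compl] at h1' h2'
  have ea : a.card + aᶜ.card = 3 := by rw [card_add_card_compl, Fintype.card_fin]
  have eb : b.card + bᶜ.card = 3 := by rw [card_add_card_compl, Fintype.card_fin]
  have eab : (a \ b).card + (a ∩ b).card = a.card := card_sdiff_add_card_inter a b
  have eba : (b \ a).card + (a ∩ b).card = b.card := by
    rw [inter_comm]; exact card_sdiff_add_card_inter b a
  have n1 := no_one hTCB hT (L ∩ Y)
  have n2 := no_one hTCB hT ((L ∪ D)ᶜ ∩ Y)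
  have n3 := no_one hTCB hT (L ∩ Yᶜ)
  have n4 := no_one hTCB hT ((L ∪ D)ᶜ ∩ Yᶜ)
  by_cases huL : u ∈ L
  · have f1 := hT.c3 (L ∩ Y) ⟨u, ⟨huL, hu⟩, h3⟩ ⟨q, fun h => hqL h.1, hq3⟩
    by_cases hu'L : u' ∈ L
    · have f2 := hT.c3 (L ∩ Yᶜ) ⟨u', ⟨hu'L, hu'⟩, h3'⟩ ⟨q, fun h => hqL h.1, hq3⟩
      omega
    · have f2 := hT.c3 ((L ∪ D)ᶜ ∩ Yᶜ) ⟨u', ⟨fun h => h.elim hu'L hu'D, hu'⟩, h3'⟩
        ⟨p, fun h => hpN h.1, hp3⟩
      omega
  · have f1 := hT.c3 ((L ∪ D)ᶜ ∩ Y) ⟨u, ⟨fun h => h.elim huL huD, hu⟩, h3⟩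
      ⟨p, fun h => hpN h.1, hp3⟩
    by_cases hu'L : u' ∈ L
    · have f2 := hT.c3 (L ∩ Yᶜ) ⟨u', ⟨hu'L, hu'⟩, h3'⟩ ⟨q, fun h => hqL h.1, hq3⟩
      omega
    · have f2 := hT.c3 ((L ∪ D)ᶜ ∩ Yᶜ) ⟨u', ⟨fun h => h.elim hu'L hu'D, hu'⟩, h3'⟩
        ⟨p, fun h => hpN h.1, hp3⟩
      omega

end Pool.Agent.P.MP_bb4f54_co.T3

end sRM3a

section sTHRU
/-! Step THRU. -/

set_option autoImplicit false
set_option linter.unusedSectionVars false

namespace Pool.Agent.P.MP_bb4f54_co.T3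

open Finset

theorem p_THRU (hPAR : S_PAR) (hARC : S_ARC) (hWAR : S_WAR) :
    S_THRU := by
  intro V _ _ Γ X L D l r M Z c H hN hZ hE hcZ hcM
  obtain ⟨-, -, w3, w4, w5, -, -, w8⟩ := hWAR H
  have hall : ∀ ρ, M ρ ⊆ Z ∨ Disjoint (M ρ) Z := fun ρ =>
    (hARC id (Γ \ X) (M ρ) (l ρ) (r ρ) (hN.mono sdiff_subset) (w4 ρ)).2.1 Z hZ
      (fun v _ _ _ => hE v)
  have h0 : M 0 ⊆ Z := (hall 0).resolve_right (fun h => disjoint_left.1 h hcM hcZ)
  have hev := (hPAR id Z).2.1 hE L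
  have hin : ∀ ρ, M ρ ⊆ Z → (cut id (M ρ ∩ Z) L).card = 1 := fun ρ h => by
    rw [inter_eq_left.2 h, (w5 ρ).1, (w5 ρ).2.1]
  have hout : ∀ ρ, Disjoint (M ρ) Z → (cut id (M ρ ∩ Z) L).card = 0 := fun ρ h => by
    rw [disjoint_iff_inter_eq_empty.1 h, cut_empty, card_empty]
  have hd : ∀ ρ ρ', ρ ≠ ρ' → Disjoint (M ρ ∩ Z) (M ρ' ∩ Z) := fun ρ ρ' h =>
    (w3 ρ ρ' h).mono inter_subset_left inter_subset_left
  have hsum : (cut id Z L).card = (cut id (M 0 ∩ Z) L).card + (cut id (M 1 ∩ Z) L).card +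
      (cut id (M 2 ∩ Z) L).card := by
    rw [← card_cut_union (hd 0 1 (by decide)), ← card_cut_union
      (disjoint_union_left.2 ⟨hd 0 2 (by decide), hd 1 2 (by decide)⟩)]
    congr 1
    ext e
    simp only [mem_cut, mem_union, mem_inter]
    constructor
    · rintro ⟨h1, h2⟩
      obtain ⟨ρ, hρ⟩ := w8 e (mem_cut.2 ⟨(mem_sdiff.1 (hZ h1)).1, h2⟩)
      refine ⟨?_, h2⟩
      fin_cases ρ
      · exact Or.inl (Or.inl ⟨hρ, h1⟩)
      · exact Or.inl (Or.inr ⟨hρ, h1⟩)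
      · exact Or.inr ⟨hρ, h1⟩
    · rintro ⟨(h1 | h1) | h1, h2⟩ <;> exact ⟨h1.2, h2⟩
  rw [Nat.even_iff, hsum, hin 0 h0] at hev
  rcases hall 1 with h1 | h1 <;> rcases hall 2 with h2 | h2
  · rw [hin 1 h1, hin 2 h2] at hev
    omega
  · refine ⟨2, fun ρ hρ => ?_, h2⟩
    fin_cases ρ
    · exact h0
    · exact h1
    · exact absurd rfl hρ
  · refine ⟨1, fun ρ hρ => ?_, h1⟩
    fin_cases ρ
    · exact h0
    · exact absurd rfl hρ
    · exact h2
  · rw [hout 1 h1, hout 2 h2] at hev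
    omega

end Pool.Agent.P.MP_bb4f54_co.T3

end sTHRU

section sFOR
/-! Step FOR. -/

set_option autoImplicit false
set_option linter.unusedSectionVars false

namespace Pool.Agent.P.MP_bb4f54_co.T3

open Finset

namespace FORx

variable {V ι : Type} [DecidableEq ι] {en : ι → Sym2 V}

lemma dgr_sd (D D' : Finset ι) (v : V) :
    dgr en ((D \ D') ∪ (D' \ D)) v + 2 * dgr en (D ∩ D') v = dgr en D v + dgr en D' v := by
  have h1 := dgr_sdiff (en := en) (inter_subset_left (s₁ := D) (s₂ := D')) v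
  have h2 := dgr_sdiff (en := en) (inter_subset_right (s₁ := D) (s₂ := D')) v
  rw [sdiff_inter_self_left] at h1
  rw [sdiff_inter_self_right] at h2
  rw [dgr_union disjoint_sdiff_sdiff]
  omega

end FORx

theorem p_FOR (hODA : S_ODA) :
    S_FOR := by
  intro V ι _ _ _ en A U hA hU
  have h : A.powerset.card ≤ U.powerset.card := by
    refine card_le_card_of_injOn (fun D => U.filter fun v => Odd (dgr en D v))
      (fun D _ => mem_coe.2 (mem_powerset.2 (filter_subset _ _))) ?_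
    intro D hD D' hD' e
    have hD1 : D ⊆ A := by simpa using hD
    have hD2 : D' ⊆ A := by simpa using hD'
    have hs : (D \ D') ∪ (D' \ D) ⊆ A :=
      union_subset (sdiff_subset.trans hD1) (sdiff_subset.trans hD2)
    have he := hA _ hs fun v => by
      by_cases hv : v ∈ U
      · have h1 := FORx.dgr_sd (en := en) D D' v
        have h2 : v ∈ U.filter (fun v => Odd (dgr en D v)) ↔
            v ∈ U.filter (fun v => Odd (dgr en D' v)) := by
          have e' : U.filter (fun v => Odd (dgr en D v)) = U.filter fun v => Odd (dgr en D' v) := e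
          rw [e']
        simp only [mem_filter, hv, true_and, Nat.odd_iff] at h2
        rw [Nat.even_iff]
        omega
      · rw [dgr_eq_zero fun h => hv (hU (spt_mono hs h))]
        exact Even.zero
    rw [union_eq_empty, sdiff_eq_empty_iff_subset, sdiff_eq_empty_iff_subset] at he
    exact subset_antisymm he.1 he.2
  rw [card_powerset, card_powerset] at h
  exact (Nat.pow_le_pow_iff_right (by norm_num)).1 h

end Pool.Agent.P.MP_bb4f54_co.T3

end sFOR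

section sMIN3
/-! Step MIN3. -/

set_option autoImplicit false
set_option linter.unusedSectionVars false

namespace Pool.Agent.P.MP_bb4f54_co.T3

open Finset

theorem p_MIN3 (hSEG : S_SEG) (hRER : S_RER) (hTDF : S_TDF) (hCXB : S_CXB) :
    S_MIN3 := by
  intro V _ _ G S T O Γ v n pos hM hC x hx y hy hv A hA
  by_contra hc
  have hlt : pos x + A.card < pos y := not_le.1 hc
  have dx := hC.sk.dT x hx
  have dy := hC.sk.dT y hy
  have hn : n y = n x := ((hTDF Γ v n pos hC.td x y dx dy).1 hv).1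
  have hyn : pos y < n x := hn ▸ hC.td.pn y dy
  have ex : v x (pos x) = x := hC.td.vx x dx
  have ey : v x (pos y) = y := hv ▸ hC.td.vx y dy
  obtain ⟨s1, s2, -⟩ := hSEG Γ (v x) (n x) (hC.td.sg x dx)
  obtain ⟨-, hBΓ, hBc, -⟩ := s1 (pos x) (pos y) (by omega) hyn.le
  have hArc := (s2 (pos x) (pos y) (by omega) hyn.le).1
  rw [ex, ey] at hArc
  obtain ⟨c1, -, c3, c4, -⟩ := hCXB hC
  have hBF := (c3 (v x) (n x) (pos x) (pos y) (c1 x hx) (hC.td.p0 x dx) (by omega) hyn).1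
  obtain ⟨hAF, hE⟩ := c4 A x hx y hy hA
  have h1 := hM.mn _ (hRER id Γ A _ x y hC.tc hArc hE) (by
    ext e
    simp only [mem_sdiff, mem_union]
    constructor
    · rintro ⟨h | h, h'⟩
      · exact ⟨h.1, h'⟩
      · exact absurd (hAF h) h'
    · rintro ⟨h, h'⟩
      exact ⟨Or.inl ⟨h, fun h2 => h' (hBF h2)⟩, h'⟩)
  have h2 := card_union_le (Γ \ ES (v x) (pos x) (pos y)) A
  have h3 := card_sdiff_add_card_eq_card hBΓ
  omega

end Pool.Agent.P.MP_bb4f54_co.T3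

end sMIN3

section sSWP
/-! Step SWP. -/

set_option autoImplicit false
set_option linter.unusedSectionVars false

namespace Pool.Agent.P.MP_bb4f54_co.T3

open Finset

theorem p_SWP (hARC : S_ARC) :
    S_SWP := by
  intro V ι _ _ _ en Φ Φ' B x y a b hN hA hs hxy ha hb hab
  obtain ⟨Y', h1, -, h3, h4, -⟩ := (hARC en Φ B x y hN hA).2.2 {w | Rc en Φ' a w}
  have h0 : cut en (Φ \ B) {w | Rc en Φ' a w} = ∅ :=
    subset_empty.1 ((cut_mono hs).trans (cut_rc a).subset)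
  have h5 : cut en B Y' = ∅ := h4 ⟨fun h => Rc.trans' h hxy, fun h => Rc.trans' h hxy.symm'⟩
  have h6 : cut en Φ Y' = ∅ := by
    rw [← sdiff_union_of_subset hA.2.1, cut_union, h3, h0, h5, union_empty]
  exact (h1 b hb).1 (hab.mem_of_cut h6 ((h1 a ha).2 Rc.refl'))

end Pool.Agent.P.MP_bb4f54_co.T3

end sSWP
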