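import Pool.Agent.P.MP_bb4f54_co.T3.Iface2
import Pool.Agent.P.MP_bb4f54_co.T3.Iface1
import Pool.Agent.P.MP_bb4f54_co.T3.Iface6
import Pool.Agent.P.MP_bb4f54_co.T3.Iface3
import Pool.Agent.P.MP_bb4f54_co.T3.Iface7

section sO1c
/-! Step O1c. -/

set_option autoImplicit false
set_option linter.unusedSectionVars false

namespace Pool.Agent.P.MP_bb4f54_co.T3

open Finset

namespace O1cx

variable {V ι : Type} [DecidableEq ι] {en : ι → Sym2 V} {Γ : Finset ι}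

lemma same {Y : Set V} {i : ι} {x y : V} (hi : i ∈ Γ) (e : en i = s(x, y))
    (h : i ∉ cut en Γ Y) : x ∈ Y ↔ y ∈ Y := by
  rw [mem_cut_mk e] at h; tauto

lemma diff {Y : Set V} {i : ι} {x y : V} (e : en i = s(x, y))
    (h : i ∈ cut en Γ Y) : ¬ (x ∈ Y ↔ y ∈ Y) := by
  rw [mem_cut_mk e] at h; tauto

lemma cutsub (Q : Set V) (S : Finset ι)
    (h : ∀ x ∈ Q, ∀ i ∈ cut en Γ {x}, (∀ v ∈ en i, v ∈ Q) ∨ i ∈ S) : cut en Γ Qᶜ ⊆ S := by
  intro i hi
  rw [cut_compl] at hi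
  obtain ⟨h1, x, y, e, hx, hy⟩ := mem_cut.1 hi
  refine (h x hx i (mem_cut.2 ⟨h1, x, y, e, rfl, fun h' => hy (h' ▸ hx)⟩)).resolve_left
    fun h' => hy (h' y (by simp [e]))

lemma nm {i : ι} {S : Finset ι} (hi : i ∈ Γ) (h : ∀ j ∈ S, en i ≠ en j) : i ∈ Γ \ S :=
  mem_sdiff.2 ⟨hi, fun h' => h i h' rfl⟩

lemma insub (Q : Set V) (S : Finset ι) (h : ∀ j ∈ S, ∃ v ∈ en j, v ∈ Q) :
    ins en Γ Qᶜ ⊆ Γ \ S := fun i hi =>
  mem_sdiff.2 ⟨ins_subset hi, fun h' => let ⟨v, h1, h2⟩ := h i h'; (mem_ins.1 hi).2 v h1 h2⟩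

lemma star {u : V} {e g g' : ι} (st : cut en Γ {u} = {e, g, g'}) (h3 : dgr en Γ u = 3) :
    (e ∈ Γ ∧ g ∈ Γ ∧ g' ∈ Γ) ∧ e ≠ g ∧ e ≠ g' ∧ g ≠ g' :=
  ⟨⟨cut_subset (st.ge (by simp)), cut_subset (st.ge (by simp)), cut_subset (st.ge (by simp))⟩,
    ne_of_card_three (st ▸ h3)⟩

lemma pm (i j k : ι) : ({i, j, k} : Finset ι) = {i, k, j} ∧ ({i, j, k} : Finset ι) = {j, i, k} ∧
    ({i, j, k} : Finset ι) = {j, k, i} := by
  refine ⟨?_, ?_, ?_⟩ <;> ext <;> simp <;> tauto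

lemma two {x y : V} {P : Prop} (h : x ≠ y) (hP : P) : x ≠ y ∧ y ≠ x ∧ P := ⟨h, h.symm, hP⟩

end O1cx

set_option linter.unusedVariables false in
open O1cx in
theorem p_O1c (hPAR : S_PAR) (hCY1 : S_CY1) (hCY2 : S_CY2) (hGIR : S_GIR) :
    S_O1c := by
  intro V ι _ _ _ en Γ W ρ ua ub uc w wa wb wc wc' R p a b c ga ga' gb gb' gc gc' r
    L Fa Fb Fc Fw hw
  have C := L.rz.rt.cub
  obtain ⟨g1, -, g3, g4, g5⟩ := hGIR en Γ W C
  obtain ⟨tri, g6, -, -⟩ := g5 L.nt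
  replace tri := tri L.five
  replace g4 := g4 (by have := L.five; omega)
  obtain ⟨-, c2, -, -, c5, -⟩ := hCY1 en
  have ea := L.rz.ea
  have eb := L.rz.eb
  have ec := L.rz.ec
  have sρ := L.rz.rt.st
  obtain ⟨sa, ega, ega'⟩ := Fa
  obtain ⟨sb, egb, egb'⟩ := Fb
  obtain ⟨sc, egc, egc'⟩ := Fc
  obtain ⟨sw, -, er⟩ := Fw
  have W1 : ∀ {i x y}, i ∈ Γ → en i = s(x, y) → y ∈ W := fun h e => C.sp _ h _ (by simp [e])
  obtain ⟨⟨ma, mb, mc⟩, n1, n2, n3⟩ := star sρ (C.dg _ L.rz.rt.hρ)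
  obtain ⟨⟨-, mga, mga'⟩, n4, n5, n6⟩ := star sa (C.dg _ (W1 ma ea))
  obtain ⟨⟨-, mgb, mgb'⟩, n7, n8, n9⟩ := star sb (C.dg _ (W1 mb eb))
  obtain ⟨⟨-, mgc, mgc'⟩, n10, n11, n12⟩ := star sc (C.dg _ (W1 mc ec))
  obtain ⟨⟨-, -, mr⟩, n13, n14, n15⟩ := star sw (C.dg _ (W1 mga ega))
  have lp : ∀ {i x y}, i ∈ Γ → en i = s(x, y) → x ≠ y := fun h e h' =>
    C.nl _ h (by simp [e, h'])
  have pa : ∀ {i j x y x' y'}, i ∈ Γ → j ∈ Γ → i ≠ j → en i = s(x, y) → en j = s(x', y') →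
      s(x, y) ≠ s(x', y') := fun h h' n e e' q => n (g4 _ h _ h' (e.trans (q.trans e'.symm)))
  have Aa : Ad en Γ ρ ua := ⟨a, ma, ea⟩
  have Ab : Ad en Γ ρ ub := ⟨b, mb, eb⟩
  have Ac : Ad en Γ ρ uc := ⟨c, mc, ec⟩
  have v1 := lp ma ea
  have v2 := lp mb eb
  have v3 := lp mc ec
  have v4 : ua ≠ ub := fun h => pa ma mb n1 ea eb (by rw [h])
  have v5 : ua ≠ uc := fun h => pa ma mc n2 ea ec (by rw [h])
  have v6 : ub ≠ uc := fun h => pa mb mc n3 eb ec (by rw [h])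
  have v7 := lp mga ega
  have v8 := lp mgb egb
  have v9 : ρ ≠ w := fun h => pa ma mga n4 ea ega (by rw [h, Sym2.eq_swap])
  have v10 : uc ≠ w := fun h => tri ρ ua uc Aa ⟨ga, mga, h ▸ ega⟩ Ac.symm
  have v11 := lp mga' ega'
  have v12 : ρ ≠ wa := fun h => pa ma mga' n5 ea ega' (by rw [h, Sym2.eq_swap])
  have v13 : w ≠ wa := fun h => pa mga mga' n6 ega ega' (by rw [h])
  have v14 : ub ≠ wa := fun h => tri ρ ua ub Aa ⟨ga', mga', h ▸ ega'⟩ Ab.symm
  have v15 : uc ≠ wa := fun h => tri ρ ua uc Aa ⟨ga', mga', h ▸ ega'⟩ Ac.symm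
  have v16 := lp mgb' egb'
  have v17 : ρ ≠ wb := fun h => pa mb mgb' n8 eb egb' (by rw [h, Sym2.eq_swap])
  have v18 : w ≠ wb := fun h => pa mgb mgb' n9 egb egb' (by rw [h])
  have v19 : ua ≠ wb := fun h => tri ρ ub ua Ab ⟨gb', mgb', h ▸ egb'⟩ Aa.symm
  have v20 : uc ≠ wb := fun h => tri ρ ub uc Ab ⟨gb', mgb', h ▸ egb'⟩ Ac.symm
  have v21 := lp mr er
  have v22 : ua ≠ R := fun h => pa mga mr n14 ega er (by rw [h, Sym2.eq_swap])
  have v23 : ub ≠ R := fun h => pa mgb mr n15 egb er (by rw [h, Sym2.eq_swap])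
  have v24 : ρ ≠ R := fun h => tri ρ ua w Aa ⟨ga, mga, ega⟩ ⟨r, mr, h ▸ er⟩
  have v25 : uc ≠ R := fun h => hw ⟨r, mr, h ▸ er⟩
  have v26 := lp mgc egc
  have v27 : ρ ≠ wc := fun h => pa mc mgc n10 ec egc (by rw [h, Sym2.eq_swap])
  have v28 : ua ≠ wc := fun h => tri ρ uc ua Ac ⟨gc, mgc, h ▸ egc⟩ Aa.symm
  have v29 : ub ≠ wc := fun h => tri ρ uc ub Ac ⟨gc, mgc, h ▸ egc⟩ Ab.symm
  have v30 : w ≠ wc := fun h => hw (Ad.symm ⟨gc, mgc, h ▸ egc⟩)
  have v31 := lp mgc' egc'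
  have v32 : ρ ≠ wc' := fun h => pa mc mgc' n11 ec egc' (by rw [h, Sym2.eq_swap])
  have v33 : wc ≠ wc' := fun h => pa mgc mgc' n12 egc egc' (by rw [h])
  have N := two v1 <| two v2 <| two v3 <| two v4 <| two v5 <| two v6 <| two v7 <| two v8 <|
    two v9 <| two v10 <| two v11 <| two v12 <| two v13 <| two v14 <| two v15 <| two v16 <|
    two v17 <| two v18 <| two v19 <| two v20 <| two v21 <| two v22 <| two v23 <| two v24 <|
    two v25 <| two v26 <| two v27 <| two v28 <| two v29 <| two v30 <| two v31 <| two v32 <|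
    two v33 <| trivial
  have c5' : ∀ {Z S : Finset ι} {i j k : ι} {v : V}, Cy en Z → Z ⊆ Γ \ S → i ∈ Z →
      cut en Γ {v} = {i, j, k} → k ∈ S → j ∈ Z := fun hZ hs hi st hk =>
    c5 Γ _ _ _ _ _ hZ.2.1 (hs.trans sdiff_subset) hi (st.ge (by simp)) st.le
      fun h => (mem_sdiff.1 (hs h)).2 hk
  have conn : ∀ x ∈ W, ∀ y ∈ W, x ∈ ({ρ, ua, ub, w, uc} : Set V)ᶜ →
      y ∈ ({ρ, ua, ub, w, uc} : Set V)ᶜ → Rc en (ins en Γ {ρ, ua, ub, w, uc}ᶜ) x y := by
    refine g3 _ ⟨ρ, L.rz.rt.hρ, by simp⟩ ((card_le_card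
      (cutsub _ {ga', gb', r, gc, gc'} ?_)).trans card_le_five)
    simp only [Set.mem_insert_iff, Set.mem_singleton_iff, forall_eq_or_imp, forall_eq, sρ, sa, sb,
      sc, sw, mem_insert, mem_singleton]
    simp [ea, eb, ec, ega, egb]
  have sw' : ∀ {i x y}, en i = s(x, y) → en i = s(y, x) := fun e => e.trans Sym2.eq_swap
  refine ⟨?_, ?_, ?_⟩
  · have k : ∀ {i}, i ∈ Γ → en i ≠ s(ρ, uc) → en i ≠ s(ua, w) → en i ≠ s(ub, wb) →
        i ∈ Γ \ {c, ga, gb'} := fun h h1 h2 h3 => nm (en := en) h (by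
          simp only [mem_insert, mem_singleton, forall_eq_or_imp, forall_eq]
          rw [ec, ega, egb']
          exact ⟨h1, h2, h3⟩)
    have ka := k ma (by simp [ea, N]) (by simp [ea, N]) (by simp [ea, N])
    have kb := k mb (by simp [eb, N]) (by simp [eb, N]) (by simp [eb, N])
    have kgb := k mgb (by simp [egb, N]) (by simp [egb, N]) (by simp [egb, N])
    have kga' := k mga' (by simp [ega', N]) (by simp [ega', N]) (by simp [ega', N])
    have kr := k mr (by simp [er, N]) (by simp [er, N]) (by simp [er, N])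
    have kgc := k mgc (by simp [egc, N]) (by simp [egc, N]) (by simp [egc, N])
    obtain ⟨Z, hs, hZ, h1, h2⟩ := hCY2 en (Γ \ {c, ga, gb'}) (C.nl.mono sdiff_subset)
      (fun v => (dgr_mono sdiff_subset v).trans (g1 v)) (fun Y hY hY' => by
        by_contra hc
        have h1 := card_le_one.1 (show (cut en (Γ \ {c, ga, gb'}) Y).card ≤ 1 by omega)
        by_cases hg : ga ∈ cut en Γ Y
        · have hz : ∀ i ∈ cut en (Γ \ {c, ga, gb'}) Y, i = a ∨ i = b ∨ i = gb := fun i hi => by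
            by_contra hn
            push Not at hn
            have e1 := same ka ea fun h => hn.1 (h1 _ hi _ h)
            have e2 := same kb eb fun h => hn.2.1 (h1 _ hi _ h)
            have e3 := same kgb egb fun h => hn.2.2 (h1 _ hi _ h)
            exact diff ega hg (e1.symm.trans (e2.trans e3))
          have e1 := same kga' ega' fun h => by
            rcases hz _ h with h | h | h
            · exact n5 h.symm
            · rw [h, eb] at ega'; simp [N] at ega'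
            · rw [h, egb] at ega'; simp [N] at ega'
          have e2 := same kr er fun h => by
            rcases hz _ h with h | h | h
            · rw [h, ea] at er; simp [N] at er
            · rw [h, eb] at er; simp [N] at er
            · exact n15 h.symm
          have cn : Rc en (ins en Γ {ρ, ua, ub, w}ᶜ) wa R := by
            refine g3 _ ⟨ρ, L.rz.rt.hρ, by simp⟩ ((card_le_card
              (cutsub _ {ga', gb', r, c} ?_)).trans (card_le_four.trans (by omega))) _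
              (W1 mga' ega') _ (W1 mr er) (by simp [N]) (by simp [N])
            simp only [Set.mem_insert_iff, Set.mem_singleton_iff, forall_eq_or_imp, forall_eq, sρ,
              sa, sb, sw, mem_insert, mem_singleton]
            simp [ea, eb, ega, egb]
          have h0 : cut en (ins en Γ {ρ, ua, ub, w}ᶜ) Y = ∅ := by
            refine eq_empty_of_forall_notMem fun i hi => ?_
            have hi' := (mem_ins.1 (cut_subset hi)).2
            rcases hz i (cut_mono (insub _ _ (by simp [ec, ega, egb'])) hi) with h | h | h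
            · exact hi' ρ (by simp [h, ea]) (by simp)
            · exact hi' ρ (by simp [h, eb]) (by simp)
            · exact hi' ub (by simp [h, egb]) (by simp)
          exact diff ega hg (e1.trans (Iff.trans ⟨cn.mem_of_cut h0, cn.symm'.mem_of_cut h0⟩ e2.symm))
        · have hW : ∀ v ∈ spt en (Γ \ {c, ga, gb'}), v ∈ W := fun v ⟨i, hi, hv⟩ =>
            C.sp i (sdiff_subset hi) v hv
          replace hY : ∃ v ∈ W, v ∈ Y := hY.imp fun v h => ⟨hW v h.1, h.2⟩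
          replace hY' : ∃ v ∈ W, v ∉ Y := hY'.imp fun v h => ⟨hW v h.1, h.2⟩
          have h3 := C.c3 Y hY hY'
          have hb : ∀ S : Finset ι, (∀ i ∈ cut en Γ Y, i = c ∨ i = gb' → i ∈ S) →
              (cut en Γ Y).card ≤ S.card + 1 := fun S hS => by
            refine (card_le_card (t := S ∪ cut en (Γ \ {c, ga, gb'}) Y) fun i hi => ?_).trans
              ((card_union_le _ _).trans (by omega))
            rw [cut_sdiff]
            by_cases h : i = c ∨ i = gb'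
            · exact mem_union_left _ (hS i hi h)
            · refine mem_union_right _ (mem_sdiff.2 ⟨hi, fun h' => ?_⟩)
              simp only [mem_insert, mem_singleton] at h'
              rcases h' with h' | h' | h'
              · exact h (.inl h')
              · exact hg (h' ▸ hi)
              · exact h (.inr h')
          obtain ⟨v, -, hv⟩ := g6 Y ((hb {c, gb'} (by simp)).trans
            (by have := card_le_two (a := c) (b := gb'); omega)) hY hY'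
          have f1 : c ∈ cut en Γ Y := by
            by_contra h
            have := hb {gb'} fun i hi h' =>
              mem_singleton.2 (h'.resolve_left fun e => h (e ▸ hi))
            simp at this; omega
          have f2 : gb' ∈ cut en Γ Y := by
            by_contra h
            have := hb {c} fun i hi h' =>
              mem_singleton.2 (h'.resolve_right fun e => h (e ▸ hi))
            simp at this; omega
          rw [hv, mem_cut_single] at f1 f2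
          have f3 := f1.2.1
          have f4 := f2.2.1
          rw [ec, Sym2.mem_iff] at f3
          rw [egb', Sym2.mem_iff] at f4
          rcases f3 with h | h <;> simp [h, N] at f4) a ka gc kgc
    have h3 := c5' hZ hs h1 sρ (by simp)
    have h4 := c5' hZ hs h3 sb (by simp)
    exact ⟨Z, hs.trans sdiff_subset, hZ, h1, h3, c5' hZ hs h1 (sa.trans (pm ..).1) (by simp), h4,
      c5' hZ hs h4 (sw.trans (pm ..).2.2) (by simp), h2,
      c5' hZ hs h2 (sc.trans (pm ..).2.2) (by simp)⟩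
  · have k : ∀ {i}, i ∈ Γ → (en i ≠ s(ρ, ua) ∧ en i ≠ s(ρ, ub) ∧ en i ≠ s(ua, wa) ∧
        en i ≠ s(ub, w) ∧ en i ≠ s(uc, wc')) → i ∈ (Γ \ {b, ga', gb, gc'}).erase a :=
      fun h h1 => mem_erase.2 ⟨fun e => h1.1 (e ▸ ea), nm (en := en) h (by
        simp only [mem_insert, mem_singleton, forall_eq_or_imp, forall_eq]
        rw [eb, ega', egb, egc']
        exact h1.2)⟩
    obtain ⟨Z, hs, hZ, h1⟩ := c2 (Γ \ {b, ga', gb, gc'}) a ρ ua
      (nm (en := en) ma (by simp [ea, eb, ega', egb, egc', N])) ea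
      ((Rc.step (k mc (by simp [ec, N])) ec).trans' ((Rc.step (k mgc (by simp [egc, N]))
        egc).trans' (((conn _ (W1 mgc egc) _ (W1 mr er) (by simp [N]) (by simp [N])).mono'
          (by rw [← sdiff_insert]; exact insub _ _ (by simp [ea, eb, ega', egb, egc']))).trans'
        ((Rc.step (k mr (by simp [er, N])) (sw' er)).trans'
          (Rc.step (k mga (by simp [ega, N])) (sw' ega))))))
    have h3 := c5' hZ hs h1 (sρ.trans (pm ..).1) (by simp)
    have h4 := c5' hZ hs h1 sa (by simp)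
    exact ⟨Z, hs.trans sdiff_subset, hZ, h1, h3, h4, c5' hZ hs h4 (sw.trans (pm ..).1) (by simp),
      c5' hZ hs h3 sc (by simp)⟩
  · have k : ∀ {i}, i ∈ Γ → (en i ≠ s(ρ, ub) ∧ en i ≠ s(ρ, ua) ∧ en i ≠ s(ub, wb) ∧
        en i ≠ s(w, R) ∧ en i ≠ s(uc, wc')) → i ∈ (Γ \ {a, gb', r, gc'}).erase b :=
      fun h h1 => mem_erase.2 ⟨fun e => h1.1 (e ▸ eb), nm (en := en) h (by
        simp only [mem_insert, mem_singleton, forall_eq_or_imp, forall_eq]
        rw [ea, egb', er, egc']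
        exact h1.2)⟩
    obtain ⟨Z, hs, hZ, h1⟩ := c2 (Γ \ {a, gb', r, gc'}) b ρ ub
      (nm (en := en) mb (by simp [ea, eb, egb', er, egc', N])) eb
      ((Rc.step (k mc (by simp [ec, N])) ec).trans' ((Rc.step (k mgc (by simp [egc, N]))
        egc).trans' (((conn _ (W1 mgc egc) _ (W1 mga' ega') (by simp [N])
          (by simp [N])).mono'
          (by rw [← sdiff_insert]; exact insub _ _ (by simp [ea, eb, egb', er, egc']))).trans'
        ((Rc.step (k mga' (by simp [ega', N])) (sw' ega')).trans'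
          ((Rc.step (k mga (by simp [ega, N])) ega).trans'
            (Rc.step (k mgb (by simp [egb, N])) (sw' egb)))))))
    have h3 := c5' hZ hs h1 (sρ.trans (pm ..).2.2) (by simp)
    have h4 := c5' hZ hs h1 sb (by simp)
    have h5 := c5' hZ hs h4 (sw.trans (pm ..).2.1) (by simp)
    exact ⟨Z, hs.trans sdiff_subset, hZ, h1, h3, h4, h5,
      c5' hZ hs h5 (sa.trans (pm ..).2.2) (by simp), c5' hZ hs h3 sc (by simp)⟩

end Pool.Agent.P.MP_bb4f54_co.T3

end sO1c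

section sSUP
/-! Step SUP. -/

set_option autoImplicit false
set_option linter.unusedSectionVars false

namespace Pool.Agent.P.MP_bb4f54_co.T3

open Finset

theorem p_SUP (hPAR : S_PAR) (hUNC : S_UNC) :
    S_SUP := by
  intro V ι _ _ _ en Γ u u' j k hT hc hjk hk
  have hkc : k ∈ cut en Γ {u} := by rw [hc]; simp
  have hjc : j ∈ cut en Γ {u} := by rw [hc]; simp
  obtain ⟨hkΓ, -, hkd⟩ := mem_cut_single.1 hkc
  obtain ⟨hjΓ, hju, hjd⟩ := mem_cut_single.1 hjc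
  obtain ⟨w, hw⟩ := Sym2.mem_iff_exists.1 hju
  have huu : u ≠ u' := by rwa [hk, Sym2.mk_isDiag_iff] at hkd
  have huw : u ≠ w := by rwa [hw, Sym2.mk_isDiag_iff] at hjd
  have hdu : dgr en Γ u = 2 := by rw [dgr, hc, card_pair hjk]
  have hA : ∀ i ∈ Γ, u ∈ en i → i = j ∨ i = k := fun i hi hu => by
    have : i ∈ cut en Γ {u} := mem_cut_single.2 ⟨hi, hu, hT.nl i hi⟩
    rw [hc] at this
    simpa using this
  have hku' : k ∈ cut en Γ {u'} := mem_cut_single.2 ⟨hkΓ, by simp [hk], hkd⟩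
  have hB : ∀ i ∈ cut en Γ {u, u'}, i ≠ k ∧ (i = j ∨ i ∈ cut en Γ {u'}) := fun i hi => by
    obtain ⟨h1, h2⟩ := mem_cut.1 hi
    refine ⟨fun e => by simp [e, hk, cr_mk] at h2, ?_⟩
    obtain ⟨x, hx, rfl | rfl⟩ := (cr_iff.1 h2).1
    · exact (hA i h1 hx).imp_right fun e : i = k => e ▸ hku'
    · exact Or.inr (mem_cut_single.2 ⟨h1, hx, hT.nl i h1⟩)
  have hwu : w ≠ u' := by
    rintro rfl
    have h1 : cut en Γ {u, w} ⊆ cut en Γ {w} \ {j, k} := fun i hi => by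
      have hij : i ≠ j := fun e => by simpa [e, hw, cr_mk] using (mem_cut.1 hi).2
      have := hB i hi
      simp only [mem_sdiff, mem_insert, mem_singleton]
      tauto
    have h2 : ({j, k} : Finset ι) ⊆ cut en Γ {w} :=
      insert_subset (mem_cut_single.2 ⟨hjΓ, by simp [hw], hjd⟩) (singleton_subset_iff.2 hku')
    have h3 := card_le_card h1
    rw [card_sdiff_of_subset h2, card_pair hjk] at h3
    have h4 := card_le_card h2
    rw [card_pair hjk] at h4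
    change _ ≤ dgr en Γ w - 2 at h3
    change _ ≤ dgr en Γ w at h4
    rcases hT.dg w with h | h | h
    · omega
    · obtain ⟨v, hv⟩ := hT.br
      have := (hT.c1 {u, w} ⟨u, by simp, by omega⟩ ⟨v, ?_, by omega⟩).card_pos
      · omega
      · rintro (rfl | rfl) <;> omega
    · obtain ⟨v, hv, hvw⟩ : ∃ v, Odd (dgr en Γ v) ∧ v ≠ w := by
        by_contra hn
        push Not at hn
        have := (hPAR en Γ).2.2.2.2.2.1 w hn w
        rw [h] at this
        exact absurd this (by decide)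
      have hv3 : dgr en Γ v = 3 := by
        have := hT.dg v
        rw [Nat.odd_iff] at hv
        omega
      have := hT.c3 {u, w} ⟨w, by simp, h⟩ ⟨v, ?_, hv3⟩
      · omega
      · rintro (rfl | rfl)
        · omega
        · exact hvw rfl
  have f1 : pj {u} u' u = u' := by simp [pj]
  have f2 : ∀ v, v ≠ u → pj {u} u' v = v := fun v hv => by simp [pj, hv]
  have hcut : ∀ Y : Set V, cut (ctr en {u} u') (Γ.erase k) Y = cut en Γ (pj {u} u' ⁻¹' Y) := by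
    intro Y
    refine (cut_map _).trans ?_
    ext i
    simp only [mem_cut, mem_erase]
    refine ⟨fun h => ⟨h.1.2, h.2⟩, fun h => ⟨⟨?_, h.1⟩, h.2⟩⟩
    rintro rfl
    simpa [hk, cr_mk, f1, f2 u' huu.symm] using h.2
  obtain ⟨U1, U2, -⟩ := hUNC en Γ u u' j k hT.nl hc hjk hk
  have hD0 : dgr (ctr en {u} u') (Γ.erase k) u = 0 := by rw [dgr, (U2 _).1, card_empty]
  have hD : ∀ v, v ≠ u → dgr (ctr en {u} u') (Γ.erase k) v = dgr en Γ v := by
    intro v hv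
    by_cases hv' : v = u'
    · subst hv'
      have hj' : j ∉ cut en Γ {v} := fun h => by
        simpa [hw, hv, hwu.symm] using (mem_cut_single.1 h).2.1
      have e : cut en (Γ.erase k) {u, v} = insert j ((cut en Γ {v}).erase k) := by
        ext i
        rw [mem_insert, mem_erase]
        refine ⟨fun h => ?_, ?_⟩
        · have := hB i (cut_mono (erase_subset _ _) h)
          tauto
        · rintro (rfl | ⟨h1, h2⟩)
          · exact (mem_cut_mk hw).2 ⟨mem_erase.2 ⟨hjk, hjΓ⟩, Or.inl ⟨by simp,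
              by simp [hwu, huw.symm]⟩⟩
          · obtain ⟨h3, x, y, e, rfl, hy⟩ := mem_cut.1 h2
            refine mem_cut.2 ⟨mem_erase.2 ⟨h1, h3⟩, x, y, e, by simp, ?_⟩
            rintro (rfl | h4)
            · exact (hA i h3 (by simp [e])).elim (fun e' => hj' (e' ▸ h2)) h1
            · exact hy h4
      rw [dgr, (U2 _).2, e, card_insert_of_notMem fun h => hj' (mem_of_mem_erase h),
        card_erase_add_one hku', dgr]
    · rw [dgr, U1 _ v hv hv', dgr]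
      congr 1
      ext i
      simp only [mem_cut_single, mem_erase]
      refine ⟨fun h => ⟨h.1.2, h.2⟩, fun h => ⟨⟨?_, h.1⟩, h.2⟩⟩
      rintro rfl
      simpa [hk, hv, hv'] using h.2.1
  have hne : ∀ v, dgr (ctr en {u} u') (Γ.erase k) v ≠ 0 → v ≠ u := fun v h e => h (e ▸ hD0)
  refine ⟨fun i hi => ?_, fun v => ?_, ?_, fun Y ⟨a, ha, ha'⟩ ⟨b, hb, hb'⟩ => ?_,
    fun Y ⟨a, ha, ha'⟩ ⟨b, hb, hb'⟩ => ?_⟩
  · obtain ⟨h1, h2⟩ := mem_erase.1 hi
    by_cases hu : u ∈ en i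
    · obtain rfl := (hA i h2 hu).resolve_right h1
      simpa [ctr, hw, f1, f2 w huw.symm] using hwu.symm
    · have h3 := hT.nl i h2
      rw [ctr]
      generalize en i = e at hu h3
      induction e using Sym2.ind with
      | _ a b =>
        simp only [Sym2.mem_iff, not_or] at hu
        rwa [Sym2.map_mk, f2 a (Ne.symm hu.1), f2 b (Ne.symm hu.2)]
  · by_cases hv : v = u
    · exact Or.inl (hv ▸ hD0)
    · rw [hD v hv]; exact hT.dg v
  · obtain ⟨v, hv⟩ := hT.br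
    exact ⟨v, by rw [hD v (by rintro rfl; omega), hv]⟩
  · have a1 := hne a (by omega)
    have b1 := hne b (by omega)
    rw [hcut]
    exact hT.c3 _ ⟨a, by rwa [Set.mem_preimage, f2 a a1], hD a a1 ▸ ha'⟩
      ⟨b, by rwa [Set.mem_preimage, f2 b b1], hD b b1 ▸ hb'⟩
  · have a1 := hne a ha'
    have b1 := hne b hb'
    rw [hcut]
    exact hT.c1 _ ⟨a, by rwa [Set.mem_preimage, f2 a a1], hD a a1 ▸ ha'⟩
      ⟨b, by rwa [Set.mem_preimage, f2 b b1], hD b b1 ▸ hb'⟩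

end Pool.Agent.P.MP_bb4f54_co.T3

end sSUP

section sGLU
/-! Step GLU. -/

set_option autoImplicit false
set_option linter.unusedSectionVars false

namespace Pool.Agent.P.MP_bb4f54_co.T3

open Finset

namespace GLUx

variable {V ι : Type} [Fintype V] [DecidableEq V] [DecidableEq ι]

lemma dgr_ctr (en : ι → Sym2 V) (Y : Set V) (y₀ : V) (D : Finset ι) (v : V) :
    dgr (ctr en Y y₀) D v = (cut en D (pj Y y₀ ⁻¹' {v})).card := by
  unfold dgr ctr
  rw [cut_map]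

lemma ev_ctr (hPAR : S_PAR) (en : ι → Sym2 V) {Y : Set V} {y₀ : V} (hy : y₀ ∈ Y)
    (D : Finset ι) : Ev (ctr en Y y₀) D ↔ ∀ v, v ∉ Y → Even (dgr en D v) := by
  have h1 : ∀ v, v ∉ Y → pj Y y₀ ⁻¹' {v} = {v} := by
    intro v hv
    ext w
    simp only [Set.mem_preimage, Set.mem_singleton_iff, pj]
    split_ifs with hw
    · constructor
      · rintro rfl; exact absurd hy hv
      · rintro rfl; exact absurd hw hv
    · rfl
  have h2 : pj Y y₀ ⁻¹' {y₀} = Y := by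
    ext w
    simp only [Set.mem_preimage, Set.mem_singleton_iff, pj]
    split_ifs with hw
    · simp [hw]
    · constructor
      · rintro rfl; exact absurd hy hw
      · intro h; exact absurd h hw
  have h3 : ∀ v ∈ Y, v ≠ y₀ → pj Y y₀ ⁻¹' {v} = ∅ := by
    intro v hv hne
    ext w
    simp only [Set.mem_preimage, Set.mem_singleton_iff, pj, Set.mem_empty_iff_false, iff_false]
    split_ifs with hw
    · exact hne.symm
    · rintro rfl; exact hw hv
  constructor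
  · intro h v hv
    have := h v
    rwa [dgr_ctr, h1 v hv] at this
  · intro h v
    rw [dgr_ctr]
    by_cases hv : v ∈ Y
    · by_cases hne : v = y₀
      · rw [hne, h2, ← cut_compl]
        exact (hPAR en D).2.2.2.1 Yᶜ h
      · rw [h3 v hv hne]
        have : cut en D (∅ : Set V) = ∅ := by
          ext i
          simp [mem_cut, cr_iff]
        simp [this]
    · rw [h1 v hv]
      exact h v hv

lemma dgr_inter {en : ι → Sym2 V} {Γ Z₁ Z₂ D : Finset ι} {Y : Set V} {v : V}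
    (h2 : Z₂ ⊆ tch en Γ Yᶜ) (hc : cut en Z₂ Y ⊆ Z₁) (hD : D ⊆ Z₁ ∪ Z₂) (hv : v ∈ Y) :
    dgr en (D ∩ Z₁) v = dgr en D v := by
  unfold dgr
  congr 1
  ext i
  simp only [mem_cut_single, mem_inter]
  refine ⟨fun h => ⟨h.1.1, h.2⟩, fun h => ⟨⟨h.1, ?_⟩, h.2⟩⟩
  rcases mem_union.1 (hD h.1) with hi | hi
  · exact hi
  · obtain ⟨w, hw, hw'⟩ := (mem_tch.1 (h2 hi)).2
    exact hc (mem_cut.2 ⟨hi, cr_iff.2 ⟨⟨v, h.2.1, hv⟩, w, hw, hw'⟩⟩)

end GLUx

open GLUx in
theorem p_GLU (hPAR : S_PAR) :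
    S_GLU := by
  intro V ι _ _ _ en Γ Z₂ Y x₀ y₀ hy hx h2 hC2
  have e2 := ev_ctr hPAR en hy
  have e1 := ev_ctr hPAR en (Y := Yᶜ) (y₀ := x₀) hx
  refine ⟨fun h0 => ?_, fun Z₁ h1 hC1 hcut hne => ?_⟩
  · have key : ∀ D ⊆ Z₂, ∀ v ∈ Y, dgr en D v = 0 := by
      intro D hD v hv
      have := dgr_inter (Z₁ := ∅) (D := D) h2 (by rw [h0]) (by simpa using hD) hv
      simpa using this.symm
    refine ⟨hC2.1, fun v => ?_, fun D hD hE => hC2.2.2 D hD ((e2 D).2 fun v _ => hE v)⟩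
    by_cases hv : v ∈ Y
    · rw [key Z₂ subset_rfl v hv]; exact Even.zero
    · exact (e2 Z₂).1 hC2.2.1 v hv
  · have c1 : cut en Z₂ Y ⊆ Z₁ := by rw [← hcut]; exact cut_subset
    have c2 : cut en Z₁ Yᶜ ⊆ Z₂ := by rw [cut_compl, hcut]; exact cut_subset
    have h1' : Z₁ ⊆ tch en Γ Yᶜᶜ := by rwa [compl_compl]
    have d1 : ∀ D ⊆ Z₁ ∪ Z₂, ∀ v ∈ Y, dgr en (D ∩ Z₁) v = dgr en D v :=
      fun D hD v hv => dgr_inter h2 c1 hD hv
    have d2 : ∀ D ⊆ Z₁ ∪ Z₂, ∀ v, v ∉ Y → dgr en (D ∩ Z₂) v = dgr en D v :=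
      fun D hD v hv => dgr_inter (Y := Yᶜ) h1' c2 (by rwa [union_comm]) hv
    refine ⟨hC2.1.mono subset_union_right, fun v => ?_, fun D hD hE => ?_⟩
    · by_cases hv : v ∈ Y
      · rw [← d1 _ subset_rfl v hv, union_inter_cancel_left]
        exact (e1 Z₁).1 hC1.2.1 v (by simpa using hv)
      · rw [← d2 _ subset_rfl v hv, union_inter_cancel_right]
        exact (e2 Z₂).1 hC2.2.1 v hv
    · have a1 := hC1.2.2 (D ∩ Z₁) inter_subset_right ((e1 _).2 fun v hv => by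
        rw [d1 D hD v (by simpa using hv)]; exact hE v)
      have a2 := hC2.2.2 (D ∩ Z₂) inter_subset_right ((e2 _).2 fun v hv => by
        rw [d2 D hD v hv]; exact hE v)
      obtain ⟨k, hk⟩ := hne
      have k1 : k ∈ Z₁ := c1 hk
      have k2 : k ∈ Z₂ := cut_subset hk
      by_cases hkD : k ∈ D
      · right
        have b1 : D ∩ Z₁ = Z₁ := a1.resolve_left (Nonempty.ne_empty ⟨k, mem_inter.2 ⟨hkD, k1⟩⟩)
        have b2 : D ∩ Z₂ = Z₂ := a2.resolve_left (Nonempty.ne_empty ⟨k, mem_inter.2 ⟨hkD, k2⟩⟩)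
        exact subset_antisymm hD (union_subset (inter_eq_right.1 b1) (inter_eq_right.1 b2))
      · left
        have b1 : D ∩ Z₁ = ∅ := a1.resolve_right fun h => hkD (mem_inter.1 (h.symm ▸ k1)).1
        have b2 : D ∩ Z₂ = ∅ := a2.resolve_right fun h => hkD (mem_inter.1 (h.symm ▸ k2)).1
        rw [← inter_eq_left.2 hD, inter_union_distrib_left, b1, b2, union_empty]

end Pool.Agent.P.MP_bb4f54_co.T3

end sGLU

section sALP
/-! Step ALP. -/

set_option autoImplicit false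
set_option linter.unusedSectionVars false

namespace Pool.Agent.P.MP_bb4f54_co.T3

open Finset

theorem p_ALP (hSEG : S_SEG) (hTD : S_TD) (hTDF : S_TDF) (hTDC : S_TDC) (hRG0 : S_RG0) (hF1 : S_F1) (hA1a : S_A1a) (hA4 : S_A4) (hA5 : S_A5) (hA7 : S_A7) (hA8 : S_A8) :
    S_ALP := by
  classical
  obtain ⟨D0, hF⟩ := hF1 11
  refine ⟨1 + 96 * (D0 + 2), ?_⟩
  intro V _ _ G O hG hun hne
  obtain ⟨Φ, hΦ, hmin⟩ := Finset.exists_min_image
    ((ins id (EG G) ↑O).powerset.filter (fun Φ => ∀ a b, Po G O a → Po G O b →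
      Rc id (ins id (EG G) ↑O) a b → Rc id Φ a b)) Finset.card
    ⟨ins id (EG G) ↑O, by
      rw [mem_filter, mem_powerset]
      exact ⟨subset_rfl, fun a b _ _ h => h⟩⟩
  rw [mem_filter, mem_powerset] at hΦ
  have hAl : Al G O Φ := ⟨hG, hun, hne, hΦ.1, hΦ.2, fun Φ' h1 h2 => hmin Φ' (by
    rw [mem_filter, mem_powerset]
    exact ⟨h1, h2⟩)⟩
  obtain ⟨T, hT⟩ : ∃ T : Finset V, ∀ u, u ∈ T ↔ u ∈ O ∧ dgr id (Sg G O Φ) u = 2 :=
    ⟨O.filter (fun u => dgr id (Sg G O Φ) u = 2), fun u => mem_filter⟩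
  obtain ⟨R, hR⟩ : ∃ R : Finset V, ∀ u, u ∈ R ↔ u ∈ O ∧ dgr id (Sg G O Φ) u = 0 :=
    ⟨O.filter (fun u => dgr id (Sg G O Φ) u = 0), fun u => mem_filter⟩
  have hRO : R ⊆ O := fun u hu => ((hR u).1 hu).1
  by_contra hcon
  rw [not_or] at hcon
  obtain ⟨hnD, hnC⟩ := hcon
  have hacy : Acy id (ins id (EG G) ↑R) := (hA4 hAl hR).resolve_right hnD
  obtain ⟨hSk, hO, hRT, E, hE1, hE2⟩ := hA5 hAl hT hR
  have hRT := hRT hacy
  have hac : Acy id (Sg G O Φ) := (hA1a hAl).1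
  obtain ⟨v, n, pos, hTD'⟩ := hTD (Sg G O Φ) hac.nl (fun Z hZ hc => by
    have := hac Z hZ hc.2.1
    exact absurd this hc.1.ne_empty)
  obtain ⟨P, hPT, hval, hcnt⟩ := hF hG hSk hTD'
  have hsh : ∀ x ∈ P, pos x < D0 + 2 ∨ n x < pos x + (D0 + 2) := by
    intro x hx
    by_contra hdeep
    rw [not_or, not_lt, not_lt] at hdeep
    obtain ⟨σ, hU, hσx, hside⟩ := hval x hx
    subst hσx
    have dx := hSk.dT _ hU.hx
    have dy := hSk.dT _ hU.hy
    have dz := hSk.dT _ hU.hz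
    obtain ⟨r1, c1, -, -, -, e1, e2⟩ := hRG0 hG hSk hU
    obtain ⟨r2, c2, -, -, -, -, -⟩ := hRG0 hG hSk hU.sw
    obtain ⟨a1, a2, a3⟩ := hA7 σ.x σ.y hAl hTD' hRO dx dy r1 (by omega) (by omega)
    obtain ⟨b1, -, -⟩ := hA7 σ.x σ.z hAl hTD' hRO dx dz r2 (by omega) (by omega)
    have py : pos σ.y ≠ pos σ.x := fun h =>
      hU.yx (((hTDF _ v n pos hTD' σ.x σ.y dx dy).1 a1).2 h)
    have pz : pos σ.z ≠ pos σ.x := fun h =>
      hU.zx (((hTDF _ v n pos hTD' σ.x σ.z dx dz).1 b1).2 h)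
    by_cases hyz : σ.y = σ.z
    · obtain ⟨hk, hry⟩ := e1 hyz
      rw [hry, card_singleton] at a2 a3
      have vx := hTD'.vx _ dx
      have vy := hTD'.vx _ dy
      rw [a1] at vy
      have sg := hTD'.sg _ dx
      apply hU.fr
      rw [hk]
      rcases lt_or_gt_of_ne py with h | h
      · have h1 : pos σ.x = pos σ.y + 1 := by omega
        have := sg.ed (pos σ.y) (by omega)
        rw [← h1, vx, vy, Sym2.eq_swap] at this
        exact this
      · have h1 : pos σ.y = pos σ.x + 1 := by omega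
        have := sg.ed (pos σ.x) (by omega)
        rw [← h1, vx, vy] at this
        exact this
    · have hk := e2 hyz
      obtain ⟨s1, s2⟩ := hside.resolve_left hyz
      apply hnD
      rcases lt_or_gt_of_ne py with h | h <;> rcases lt_or_gt_of_ne pz with h' | h'
      · exact absurd ⟨⟨a1.symm, h⟩, ⟨b1.symm, h'⟩⟩ s2
      · exact hA8 σ hAl hTD' hSk hRO hU hk ⟨a1.symm, h⟩ ⟨b1, h'⟩
      · exact hA8 σ.sw hAl hTD' hSk hRO hU.sw hk ⟨b1.symm, h'⟩ ⟨a1, h⟩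
      · exact absurd ⟨⟨a1, h⟩, ⟨b1, h'⟩⟩ s1
  have hP2 : ∀ x ∈ P, dgr id (Sg G O Φ) x = 2 := fun x hx => hSk.dT x (hPT hx)
  obtain ⟨t1, -, t3⟩ := hTDC (Sg G O Φ) v n pos P hTD' hP2
  have t3 := t3 (D0 + 2) hsh
  have t1 := t1 E (fun x hx => by
    refine hE1 _ ?_ (hTD'.e0 x (hP2 x hx))
    refine hac.nl.dgr_ne ⟨s(v x 0, v x (0 + 1)), (hTD'.sg x (hP2 x hx)).ed 0 ?_, by simp⟩
    have := hTD'.pn x (hP2 x hx)
    omega)
  have t4 : P.card ≤ 2 * (D0 + 2) * (4 * (cut id (EG G) ↑O).card) :=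
    t3.trans (Nat.mul_le_mul_left _ (t1.trans hE2))
  apply hnC
  have t5 : T.card ≤ 6 * P.card := by omega
  have t6 : O.card ≤ (cut id (EG G) ↑O).card + 12 * P.card := by omega
  nlinarith

end Pool.Agent.P.MP_bb4f54_co.T3

end sALP

section sCON
/-! Step CON. -/

set_option autoImplicit false
set_option linter.unusedSectionVars false

namespace Pool.Agent.P.MP_bb4f54_co.T3

open Finset

namespace CONx

variable {V ι : Type} {en : ι → Sym2 V} {Γ : Finset ι} {Y : Set V} {y₀ : V}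

lemma pj_in {v : V} (h : v ∈ Y) : pj Y y₀ v = y₀ := by simp [pj, h]

lemma pj_out {v : V} (h : v ∉ Y) : pj Y y₀ v = v := by simp [pj, h]

lemma cut_ctr (Z : Finset ι) (X : Set V) :
    cut (ctr en Y y₀) Z X = cut en Z (pj Y y₀ ⁻¹' X) := cut_map (pj Y y₀)

lemma pre_base (h : y₀ ∈ Y) : pj Y y₀ ⁻¹' {y₀} = Y := by
  ext v
  by_cases hv : v ∈ Y
  · simp [pj_in hv, hv]
  · simp only [Set.mem_preimage, pj_out hv, Set.mem_singleton_iff, hv, iff_false]
    rintro rfl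
    exact hv h

lemma pre_out (h : y₀ ∈ Y) {v : V} (hv : v ∉ Y) : pj Y y₀ ⁻¹' {v} = {v} := by
  ext w
  by_cases hw : w ∈ Y
  · simp only [Set.mem_preimage, pj_in hw, Set.mem_singleton_iff]
    constructor
    · rintro rfl; exact (hv h).elim
    · rintro rfl; exact (hv hw).elim
  · simp [pj_out hw]

lemma cut_tch (X : Set V) (h : ∀ a ∈ Y, ∀ b ∈ Y, a ∈ X → b ∈ X) :
    cut en (tch en Γ Yᶜ) X = cut en Γ X := by
  ext i
  simp only [mem_cut, mem_tch]
  refine ⟨fun h' => ⟨h'.1.1, h'.2⟩, fun h' => ⟨⟨h'.1, ?_⟩, h'.2⟩⟩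
  obtain ⟨a, b, e, ha, hb⟩ := h'.2
  by_cases h1 : a ∈ Y
  · exact ⟨b, by rw [e]; simp, fun h2 => hb (h a h1 b h2 ha)⟩
  · exact ⟨a, by rw [e]; simp, h1⟩

end CONx

open CONx in
theorem p_CON :
    S_CON := by
  intro V ι _ _ _ en Γ W W' Y y₀ hC hW hy _ h3 hW'
  have c1 : cut en (tch en Γ Yᶜ) Y = cut en Γ Y := cut_tch Y fun _ _ _ hb _ => hb
  have c2 : ∀ v, v ∉ Y → cut en (tch en Γ Yᶜ) {v} = cut en Γ {v} := fun v hv =>
    cut_tch {v} fun a ha _ _ e => (hv (e ▸ ha)).elim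
  refine ⟨⟨fun i hi hd => ?_, fun i hi v hv => ?_, fun v hv => ?_, fun X h1 h2 => ?_⟩,
    fun Z _ => by rw [cut_ctr, pre_base hy], fun Z _ v hv => by rw [cut_ctr, pre_out hy hv], c1, c2⟩
  · obtain ⟨hi, a, ha, haY⟩ := mem_tch.1 hi
    obtain ⟨b, e⟩ := Sym2.mem_iff_exists.1 ha
    have hn := hC.nl i hi
    rw [ctr, e, Sym2.map_mk, Sym2.mk_isDiag_iff, pj_out haY] at hd
    rw [e, Sym2.mk_isDiag_iff] at hn
    by_cases hb : b ∈ Y
    · rw [pj_in hb] at hd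
      exact haY (hd ▸ hy)
    · rw [pj_out hb] at hd
      exact hn hd
  · obtain ⟨a, ha, rfl⟩ := Sym2.mem_map.1 hv
    rw [hW']
    by_cases hb : a ∈ Y
    · exact Or.inl (pj_in hb)
    · rw [pj_out hb]
      exact Or.inr ⟨hC.sp i (mem_tch.1 hi).1 a ha, hb⟩
  · rw [dgr, cut_ctr]
    rcases (hW' v).1 hv with rfl | ⟨h1, h2⟩
    · rw [pre_base hy, c1, h3]
    · rw [pre_out hy h2, c2 v h2]
      exact hC.dg v h1
  · have key : ∀ v ∈ W', v ∈ W ∧ pj Y y₀ v = v := fun v hv => by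
      rcases (hW' v).1 hv with rfl | ⟨h1, h2⟩
      · exact ⟨hW, pj_in hy⟩
      · exact ⟨h1, pj_out h2⟩
    rw [cut_ctr, cut_tch _ fun a ha b hb h => by
      rw [Set.mem_preimage, pj_in ha] at h
      rwa [Set.mem_preimage, pj_in hb]]
    obtain ⟨v, hv, hvX⟩ := h1
    obtain ⟨w, hw, hwX⟩ := h2
    refine hC.c3 _ ⟨v, (key v hv).1, ?_⟩ ⟨w, (key w hw).1, ?_⟩
    · rwa [Set.mem_preimage, (key v hv).2]
    · rwa [Set.mem_preimage, (key w hw).2]

end Pool.Agent.P.MP_bb4f54_co.T3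

end sCON

section sADC
/-! Step ADC. -/

set_option autoImplicit false
set_option linter.unusedSectionVars false

namespace Pool.Agent.P.MP_bb4f54_co.T3

open Finset

namespace ADCx

lemma dj_of {V ι : Type} {en : ι → Sym2 V} {Γ A : Finset ι} {y : V} (hn : NL en Γ)
    (h : ∀ w ∈ spt en A, w ∈ spt en Γ → w = y) : Disjoint A Γ := by
  rw [disjoint_left]
  intro i hi hj
  apply hn i hj
  have key : ∀ w ∈ en i, w = y := fun w hw => h w ⟨i, hi, hw⟩ ⟨i, hj, hw⟩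
  generalize en i = e at key
  induction e using Sym2.ind with
  | _ a b =>
    rw [Sym2.mk_isDiag_iff, key a (Sym2.mem_mk_left a b), key b (Sym2.mem_mk_right a b)]

end ADCx

theorem p_ADC (hPAR : S_PAR) (hODA : S_ODA) (hRCP : S_RCP) (hCAT : S_CAT) (hPD1 : S_PD1) (hTCB : S_TCB) (hADD : S_ADD) :
    S_ADC := by
  intro V _ _ Γ A B x k y z hT dx dy dz dk hxy hxz hyz hD hA hB hAB hAΓ hBΓ
  have kΓ : k ∉ spt id Γ := fun h => hT.nl.dgr_ne h dk
  have xΓ : x ∈ spt id Γ := mem_spt_of_dgr (by omega)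
  have kx : x ≠ k := by rintro rfl; omega
  have ky : k ≠ y := by rintro rfl; omega
  have kz : k ≠ z := by rintro rfl; omega
  have xA : x ∉ spt id A := fun h => hxy (hAΓ x h xΓ)
  have xB : x ∉ spt id B := fun h => hxz (hBΓ x h xΓ)
  obtain ⟨dAB, pAB⟩ := (hCAT (id : Sym2 V → Sym2 V)).1 A B y k z hA.symm hB hAB
  have dA : Disjoint A Γ := ADCx.dj_of hT.nl hAΓ
  have dB : Disjoint B Γ := ADCx.dj_of hT.nl hBΓ
  have dU : Disjoint (A ∪ B) Γ := disjoint_union_left.2 ⟨dA, dB⟩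
  have e1 : Ear id Γ (A ∪ B) y z := by
    refine ⟨pAB, hyz, dU, fun w hw hw' => ?_⟩
    rw [spt_union] at hw
    exact hw.imp (fun h => hAΓ w h hw') (fun h => hBΓ w h hw')
  obtain ⟨t1, a1, y3, z3, c1⟩ := hADD id Γ (A ∪ B) y z hT e1 dy dz hD
  have kA : k ∈ spt id A := ((hODA (id : Sym2 V → Sym2 V)).2.2.2.2.2.2.2 A k y hA.1 ky).1
  have k2 : dgr id (Γ ∪ (A ∪ B)) k = 2 :=
    a1.2.2.2 k (spt_mono subset_union_left kA) ky kz
  have xU : x ∉ spt id (A ∪ B) := by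
    rw [spt_union]; exact fun h => h.elim xA xB
  have x2 : dgr id (Γ ∪ (A ∪ B)) x = 2 := by
    unfold dgr; rw [c1 x xU]; exact dx
  have d2 : Disjoint ({s(x, k)} : Finset (Sym2 V)) (Γ ∪ (A ∪ B)) := by
    rw [disjoint_singleton_left, mem_union]
    rintro (h | h)
    · exact kΓ ⟨_, h, Sym2.mem_mk_right x k⟩
    · exact xU ⟨_, h, Sym2.mem_mk_left x k⟩
  have e2 : Ear id (Γ ∪ (A ∪ B)) {s(x, k)} x k := by
    refine ⟨(hODA (id : Sym2 V → Sym2 V)).2.2.2.2.2.2.1 _ x k rfl kx, kx, d2, ?_⟩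
    rintro w ⟨i, hi, hw⟩ -
    rw [mem_singleton] at hi
    subst hi
    exact Sym2.mem_iff.1 hw
  have D2 : Dif id (Γ ∪ (A ∪ B)) x k := by
    intro Y hx hk hY
    have hy : y ∉ Y := fun h => hY y h y3
    have hz : z ∉ Y := fun h => hY z h z3
    have h1 := (hTCB id Γ hT).2.1 Y ⟨x, hx, by omega⟩ ⟨y, hy, by omega⟩
    have h2 := ((hPAR id A).2.2.1 k y hA.1 Y).2 (by tauto)
    have h3 := ((hPAR id B).2.2.1 k z hB.1 Y).2 (by tauto)
    rw [card_cut_union dU.symm, card_cut_union dAB]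
    have := h2.pos
    have := h3.pos
    omega
  obtain ⟨t2, -⟩ := hADD id _ _ x k t1 e2 x2 k2 D2
  have eq : Γ ∪ ({s(x, k)} ∪ A ∪ B) = Γ ∪ (A ∪ B) ∪ {s(x, k)} := by
    ext i; simp only [mem_union]; tauto
  refine ⟨eq ▸ t2, ?_⟩
  rw [union_assoc, disjoint_union_right]
  exact ⟨(d2.mono_right subset_union_left).symm, dU.symm⟩

end Pool.Agent.P.MP_bb4f54_co.T3

end sADC

section sDIF
/-! Step DIF. -/

set_option autoImplicit false
set_option linter.unusedSectionVars false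

namespace Pool.Agent.P.MP_bb4f54_co.T3

open Finset

namespace DIFx

variable {V : Type} [Fintype V] [DecidableEq V]

theorem two (hPAR : S_PAR) (hSEG : S_SEG) {Γ : Finset (Sym2 V)} {v : ℕ → V} {n a : ℕ}
    (h : Thr Γ v n) (h1 : a < n) {Y : Set V} (ha : v a ∈ Y) (hY : ∀ u ∈ Y, dgr id Γ u ≠ 3) :
    2 ≤ (cut id (ES v 0 n) Y).card := by
  obtain ⟨s1, -, -, s4, -⟩ := hSEG Γ v n h.sg
  obtain ⟨e1, e2⟩ := s4 0 a n (Nat.zero_le _) h1.le le_rfl
  have n0 : v 0 ∉ Y := fun e => hY _ e h.d0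
  have n1 : v n ∉ Y := fun e => hY _ e h.d1
  have o1 := ((hPAR id (ES v 0 a)).2.2.1 _ _ (s1 0 a (Nat.zero_le _) h1.le).1.1 Y).2
    (fun e => n0 (e.2 ha))
  have o2 := ((hPAR id (ES v a n)).2.2.1 _ _ (s1 a n h1.le le_rfl).1.1 Y).2
    (fun e => n1 (e.1 ha))
  rw [e1, card_cut_union e2]
  have := o1.pos
  have := o2.pos
  omega

end DIFx

theorem p_DIF (hPAR : S_PAR) (hSEG : S_SEG) (hTDF : S_TDF) :
    S_DIF := by
  intro V _ _ Γ hT
  have key : ∀ (v w : ℕ → V) (n m a b : ℕ), Thr Γ v n → Thr Γ w m →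
      Disjoint (ES v 0 n) (ES w 0 m) → 0 < a → a < n → 0 < b → b < m →
      Dif id Γ (v a) (w b) := by
    intro v w n m a b hv hw hd _ h1 _ h2 Y ha hb hY
    have c1 := DIFx.two hPAR hSEG hv h1 ha hY
    have c2 := DIFx.two hPAR hSEG hw h2 hb hY
    have s1 := ((hSEG Γ v n hv.sg).1 0 n (Nat.zero_le _) le_rfl).2.1
    have s2 := ((hSEG Γ w m hw.sg).1 0 m (Nat.zero_le _) le_rfl).2.1
    have c3 := card_le_card (cut_mono (en := id) (Y := Y) (union_subset s1 s2))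
    rw [card_cut_union hd] at c3
    omega
  refine ⟨key, fun v n pos hS => ?_⟩
  have thr : ∀ x, dgr id Γ x = 2 → Thr Γ (v x) (n x) := by
    intro x hx
    have hp : 0 < n x := (hS.p0 x hx).trans (hS.pn x hx)
    obtain ⟨s1, s2, -⟩ := hSEG Γ (v x) (n x) (hS.sg x hx)
    have hs : ∀ i, i ≤ n x → dgr id Γ (v x i) ≠ 0 := fun i hi =>
      hT.nl.dgr_ne (spt_mono (s1 0 (n x) (Nat.zero_le _) le_rfl).2.1
        ((s2 0 (n x) hp le_rfl).2 i (Nat.zero_le _) hi))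
    refine ⟨hS.sg x hx, hp, ?_, ?_⟩
    · exact ((hT.dg _).resolve_left (hs 0 (Nat.zero_le _))).resolve_left (hS.e0 x hx)
    · exact ((hT.dg _).resolve_left (hs _ le_rfl)).resolve_left (hS.e1 x hx)
  refine fun x hx => ⟨thr x hx, fun y hy hne => ?_⟩
  have := key (v x) (v y) (n x) (n y) (pos x) (pos y) (thr x hx) (thr y hy)
    ((hTDF Γ v n pos hS x y hx hy).2.2 hne).1 (hS.p0 x hx) (hS.pn x hx) (hS.p0 y hy) (hS.pn y hy)
  rwa [hS.vx x hx, hS.vx y hy] at this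

end Pool.Agent.P.MP_bb4f54_co.T3

end sDIF

section sF1e
/-! Step F1e. -/

set_option autoImplicit false
set_option linter.unusedSectionVars false

namespace Pool.Agent.P.MP_bb4f54_co.T3

open Finset

theorem p_F1e (hFRE : S_FRE) (hF1d : S_F1d) :
    S_F1e := by
  intro V β _ _ G Γ T O R th p Q W h3 hS hinj hQ hW
  obtain ⟨-, f2, f3, f4, -⟩ := hFRE h3 hS
  have key : ∀ σ : St V, Ucl G Γ T O R σ → σ.k ∈ O →
      (∀ t ∈ T, t ≠ σ.x → OW G ↑O (2 * R) σ.k t → th t = th σ.x ∧ p σ.x < p t) →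
      p σ.y < p σ.z → ∃ y ∈ W, y ∈ T ∧ ∃ a ∈ O, G.Adj y a ∧ OW G ↑O R a σ.x ∧
        OW G ↑O R σ.k a := by
    intro σ hU hk H hlt
    obtain ⟨a, ha, h1, h2, h4, h5, h6, h7⟩ := hF1d R σ f3 hU hk
    obtain ⟨e1, l1⟩ := H σ.y hU.hy hU.yx (h6.mono subset_rfl (by omega))
    obtain ⟨e2, -⟩ := H σ.z hU.hz hU.zx (h7.mono subset_rfl (by omega))
    exact ⟨σ.y, hW σ.y hU.hy a ha σ.x hU.hx σ.z hU.hz h1 (h2.mono subset_rfl (by omega)) h4
      e1.symm (e2.trans e1.symm) l1 hlt, hU.hy, a, ha, h1, h2, h5⟩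
  have main : ∀ x ∈ Q, ∃ y ∈ W, y ∈ T ∧ x ∈ T ∧ ∃ a ∈ O, ∃ k, G.Adj y a ∧ OW G ↑O R a x ∧
      OW G ↑O R k a ∧ ∀ t ∈ T, t ≠ x → OW G ↑O (2 * R) k t → th t = th x ∧ p x < p t := by
    intro x hx
    obtain ⟨σ, hU, rfl, hk, H⟩ := hQ x hx
    obtain ⟨a, -, -, -, -, -, h6, h7⟩ := hF1d R σ f3 hU hk
    obtain ⟨e1, -⟩ := H σ.y hU.hy hU.yx (h6.mono subset_rfl (by omega))
    obtain ⟨e2, -⟩ := H σ.z hU.hz hU.zx (h7.mono subset_rfl (by omega))
    have hne : σ.y ≠ σ.z := by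
      rcases hU.kind with h | h
      · exact h.2.1
      · exact absurd hk (h.1 ▸ f3 _ hU.hy)
    have hp : p σ.y ≠ p σ.z := fun h => hne (hinj _ hU.hy _ hU.hz (e1.trans e2.symm) h)
    rcases lt_or_gt_of_ne hp with h | h
    · obtain ⟨y, h1, h2, b, h4, h5, h8, h9⟩ := key σ hU hk H h
      exact ⟨y, h1, h2, hU.hx, b, h4, σ.k, h5, h8, h9, H⟩
    · obtain ⟨y, h1, h2, b, h4, h5, h8, h9⟩ := key σ.sw hU.sw hk H h
      exact ⟨y, h1, h2, hU.hx, b, h4, σ.k, h5, h8, h9, H⟩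
  choose! f hf using main
  refine card_le_card_of_injOn f (fun x hx => (hf x hx).1) ?_
  intro x hx x' hx' e
  obtain ⟨-, yT, xT, a, ha, k, h1, h2, h4, H⟩ := hf x hx
  obtain ⟨-, -, xT', a', ha', k', h1', h2', h4', H'⟩ := hf x' hx'
  rw [← e] at h1'
  obtain rfl : a = a' := f2 _ yT a a' h1 (f4 a ha _).2 h1' (f4 a' ha' _).2
  by_contra hne
  have l1 := (H' x xT hne ((h4'.trans h2 ha).mono subset_rfl (by omega))).2
  have l2 := (H x' xT' (Ne.symm hne) ((h4.trans h2' ha).mono subset_rfl (by omega))).2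
  omega

end Pool.Agent.P.MP_bb4f54_co.T3

end sF1e

section sG2
/-! Step G2. -/

set_option autoImplicit false
set_option linter.unusedSectionVars false

namespace Pool.Agent.P.MP_bb4f54_co.T3

open Finset

theorem p_G2 (hRG0 : S_RG0) (hRG : S_RG) (hG2a : S_G2a) (hG2b : S_G2b) :
    S_G2 := by
  intro V _ _ G S T O Γ v n pos R m mw σ e w Ys q i hC hS hW hi0 hi8 hz
  have c0 := hC.c0
  have d2 : ∀ j, j < 9 → dgr id Γ (σ j).x = 2 := fun j hj => c0.sk.dT _ (hS.uc j hj).hx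
  have ex : ∀ j, j < 9 → e (pos (σ j).x) = (σ j).x := fun j hj => by
    rw [← hS.on j hj]; exact c0.td.vx _ (d2 j hj)
  have rg := fun j (hj : j < 9) => hRG0 c0.g3 c0.sk (hS.uc j hj)
  have dj : ∀ j l, j < l → l < 9 → ∀ x ∈ (σ j).zn, x ∉ (σ l).zn := fun j l h hl =>
    (hRG (σ j) hC (hS.uc j (by omega))).2 (σ l) (hS.uc l hl)
      (by rw [hS.on l hl, hS.on j (by omega)]) (hS.gap j l h hl)
  have p0 : 0 < pos (σ 0).x := c0.td.p0 _ (d2 0 (by omega))
  have p8 : pos (σ 8).x < m := by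
    rw [← hS.nn 8 (by omega)]; exact c0.td.pn _ (d2 8 (by omega))
  have g1 := hS.gap 0 i hi0 (by omega)
  have g2 := hS.gap i 8 hi8 (by omega)
  have q0 := hW.hq 0 (by omega)
  have qi := hW.hq i (by omega)
  have q8 := hW.hq 8 (by omega)
  have m1 := hW.mo 0 i hi0 (by omega)
  have m2 := hW.mo i 8 hi8 (by omega)
  have r0 := rg 0 (by omega)
  have r8 := rg 8 (by omega)
  obtain ⟨U, hU, D1, D2⟩ := hG2a e w m mw (pos (σ 0).x) (pos (σ i).x) (pos (σ 8).x) (q 0) (q i)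
    (q 8) (σ 0).ry (σ 8).ry (σ i) c0 hW.re hW.rw hW.dj p0 (by omega) (by omega) p8 q0.1 m1 m2
    q8.2.1 (by rw [ex 0 (by omega), q0.2.2]; exact r0.1)
    (by rw [ex 8 (by omega), q8.2.2]; exact r8.1)
    (fun x h0 h8 => dj 0 8 (by omega) (by omega) x (r0.2.2.1 x h0) (r8.2.2.1 x h8))
    (hS.uc i (by omega)) (ex i (by omega)).symm qi.2.2.symm
    (fun x hx => ⟨fun h0 => dj 0 i hi0 (by omega) x (r0.2.2.1 x h0) hx,
      fun h8 => dj i 8 hi8 (by omega) x hx (r8.2.2.1 x h8)⟩) hz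
  exact hG2b e w m mw (pos (σ 0).x) (pos (σ 8).x) (q 0) (q 8) Ys U c0 hW.re hW.rw hW.dj hW.c3
    hW.e0 hW.em hW.w0 hW.wm p0 (by omega) p8 q0.1 (by omega) q8.2.1 hU D1 D2

end Pool.Agent.P.MP_bb4f54_co.T3

end sG2

section sG3r
/-! Step G3r. -/

set_option autoImplicit false
set_option linter.unusedSectionVars false

namespace Pool.Agent.P.MP_bb4f54_co.T3

open Finset

theorem p_G3r (hRM3 : S_RM3) (hW3B : S_W3B) (hG3t : S_G3t) (hG3w : S_G3w) (hG3s : S_G3s) (hG3g : S_G3g) :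
    S_G3r := by
  intro V _ _ G S T O Γ v n pos r m P k Λ Ys h0 h3
  obtain ⟨-, -, b3, b4⟩ := hW3B h0 h3
  have tc := hG3t h0 h3
  obtain ⟨L, hw⟩ := hG3w h0 h3
  obtain ⟨c, hc⟩ := (b4 0).2
  have hX : XX Λ ⊆ Fi G S := by
    unfold XX
    simp only [union_subset_iff]
    refine ⟨⟨⟨⟨?_, ?_⟩, ?_⟩, ⟨?_, ?_⟩, ?_⟩, ⟨?_, ?_⟩, ?_⟩ <;> exact (b3 _ (by norm_num) _).2.2.2
  have hM : ∀ ρ, MM r P 0 6 ρ ⊆ Fi G S := fun ρ => (b4 ρ).1
  refine ⟨Γ ∪ XX Λ, c, ?_, tc, hw.sub 0 hc, Or.inr ⟨XX Λ, subset_inter hX hw.xs, hM 0 hc,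
    disjoint_right.1 (hw.xM 0) hc, fun Γ' h1 h2 h4 => ?_,
    hG3g (Fi G S) c hw tc.nl hX hM hc (hG3s h0 h3)⟩⟩
  · rw [union_sdiff_distrib, sdiff_eq_empty_iff_subset.2 hX, union_empty]
  · exact hRM3 (hw.mono h1 ((subset_inter hw.xs hX).trans h4)
      fun ρ => (subset_inter (hw.sub ρ) (hM ρ)).trans h4) h2

end Pool.Agent.P.MP_bb4f54_co.T3

end sG3r
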