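import Pool.Agent.P.MP_bb4f54_co.T3.Iface2
import Pool.Agent.P.MP_bb4f54_co.T3.Iface7
import Pool.Agent.P.MP_bb4f54_co.T3.Iface3
import Pool.Agent.P.MP_bb4f54_co.T3.Iface1
import Pool.Agent.P.MP_bb4f54_co.T3.Iface6

section sE4c
/-! Step E4c. -/

set_option autoImplicit false
set_option linter.unusedSectionVars false

namespace Pool.Agent.P.MP_bb4f54_co.T3

open Finset

namespace E4cx

variable {V ι : Type} [Fintype V] [DecidableEq V] [DecidableEq ι]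

/-- A heavy pair among `u` and its two further neighbours. -/
def Lg (en : ι → Sym2 V) (Γ : Finset ι) (x : V → ℝ) (u : V) (e : ι) (s t : V) : Prop :=
  ∃ g g' w w', Fk en Γ u e g g' w w' ∧ (s = u ∨ s = w ∨ s = w') ∧ (t = u ∨ t = w ∨ t = w') ∧
    s ≠ t ∧ 24 / 25 < x s + x t

variable {en : ι → Sym2 V} {Γ : Finset ι} {W : Finset V} {ρ ua ub uc u s t sa ta sb tb sc tc : V}
  {p : V → ι → ℝ} {a b c e : ι} {x : V → ℝ}

lemma Lg.swap (h : Lg en Γ x u e s t) : Lg en Γ x u e t s := by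
  obtain ⟨g, g', w, w', hF, hs, ht, hne, hx⟩ := h
  exact ⟨g, g', w, w', hF, ht, hs, hne.symm, by linarith⟩

lemma Lg.ne (h : Lg en Γ x u e s t) : s ≠ t := by
  obtain ⟨g, g', w, w', hF, hs, ht, hne, hx⟩ := h
  exact hne

lemma Lg.big (h : Lg en Γ x u e s t) : 24 / 25 < x s + x t := by
  obtain ⟨g, g', w, w', hF, hs, ht, hne, hx⟩ := h
  exact hx

lemma Lg.align (h : Lg en Γ x u e s t) (hu : s ≠ u) :
    ∃ g g' w', Fk en Γ u e g g' s w' ∧ (t = u ∨ t = w') := by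
  obtain ⟨g, g', w, w', hF, hs, ht, hne, hx⟩ := h
  rcases hs with hs | hs | hs
  · exact absurd hs hu
  · subst hs
    refine ⟨g, g', w', hF, ?_⟩
    rcases ht with ht | ht | ht
    · exact Or.inl ht
    · exact absurd ht.symm hne
    · exact Or.inr ht
  · subst hs
    refine ⟨g', g, w, hF.swap, ?_⟩
    rcases ht with ht | ht | ht
    · exact Or.inl ht
    · exact Or.inr ht
    · exact absurd ht.symm hne

/-- Bookkeeping in terms of heavy pairs. -/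
lemma info (hMAS : S_MAS) (hL : Loc en Γ W ρ p a b c ua ub uc) (ha : Lg en Γ x ua a sa ta)
    (hb : Lg en Γ x ub b sb tb) (hc : Lg en Γ x uc c sc tc) :
    (sa ≠ ub ∧ sa ≠ uc ∧ sb ≠ ua ∧ sb ≠ uc ∧ sc ≠ ua ∧ sc ≠ ub) ∧
    (∀ y ∈ [sa, ta, sb, tb, sc, tc], y ∈ W ∧ y ≠ ρ) ∧
    (0 < NN en Γ W ρ p → ∀ l : List V, l.Nodup → (∀ y ∈ l, y ∈ W ∧ y ≠ ρ) →
        (l.map fun v => (PP en Γ p v / NN en Γ W ρ p) ^ 2).sum ≤ 1) := by
  obtain ⟨ga, ga', wa, wa', hFa, hsa, hta, -, -⟩ := ha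
  obtain ⟨gb, gb', wb, wb', hFb, hsb, htb, -, -⟩ := hb
  obtain ⟨gc, gc', wc, wc', hFc, hsc, htc, -, -⟩ := hc
  obtain ⟨n1, n2, n3, hm, -, hs⟩ := hMAS hL hFa hFb hFc
  simp only [List.nodup_cons, List.mem_cons, List.not_mem_nil, or_false, not_or,
    List.nodup_nil, not_false_eq_true, and_true] at n1 n2 n3
  refine ⟨⟨?_, ?_, ?_, ?_, ?_, ?_⟩, ?_, hs⟩
  · rcases hsa with rfl | rfl | rfl <;> intro h <;> simp_all
  · rcases hsa with rfl | rfl | rfl <;> intro h <;> simp_all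
  · rcases hsb with rfl | rfl | rfl <;> intro h <;> simp_all
  · rcases hsb with rfl | rfl | rfl <;> intro h <;> simp_all
  · rcases hsc with rfl | rfl | rfl <;> intro h <;> simp_all
  · rcases hsc with rfl | rfl | rfl <;> intro h <;> simp_all
  · intro y hy
    apply hm
    clear n1 n2 n3 hm hs hFa hFb hFc hL hMAS
    simp only [List.mem_cons, List.not_mem_nil, or_false] at hy
    rcases hy with rfl | rfl | rfl | rfl | rfl | rfl
    · rcases hsa with rfl | rfl | rfl <;> simp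
    · rcases hta with rfl | rfl | rfl <;> simp
    · rcases hsb with rfl | rfl | rfl <;> simp
    · rcases htb with rfl | rfl | rfl <;> simp
    · rcases hsc with rfl | rfl | rfl <;> simp
    · rcases htc with rfl | rfl | rfl <;> simp

lemma fk_ad {g g' : ι} {w w' : V} (h : Fk en Γ u e g g' w w') : Ad en Γ w u := by
  have : g ∈ cut en Γ {u} := by rw [h.st]; simp
  exact ⟨g, (mem_cut.1 this).1, h.e1.trans Sym2.eq_swap⟩

/-- The ladder case. -/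
lemma lad (hMAS : S_MAS) (hLAD : S_LAD) (hKK : S_KK) (hL : Loc en Γ W ρ p a b c ua ub uc)
    (hN : 0 < NN en Γ W ρ p)
    (ha : Lg en Γ (fun v => PP en Γ p v / NN en Γ W ρ p) ua a s ta)
    (hb : Lg en Γ (fun v => PP en Γ p v / NN en Γ W ρ p) ub b s t)
    (hc : Lg en Γ (fun v => PP en Γ p v / NN en Γ W ρ p) uc c t tc) :
    Tri en Γ W ρ p a b c (2 * NN en Γ W ρ p) := by
  obtain ⟨⟨d1, -, d2, -, d3, d4⟩, hm, hs⟩ := info hMAS hL ha hb hc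
  obtain ⟨⟨-, -, -, d5, -, -⟩, -, -⟩ := info hMAS hL ha hb.swap hc
  obtain ⟨ga, ga', A, hFa, hta⟩ := ha.align d2
  obtain ⟨gb, gb', w, hFb, htb⟩ := hb.align d1
  obtain ⟨gc, gc', C, hFc, htc⟩ := hc.align d5
  have hw : t = w := htb.resolve_left d4
  subst hw
  by_cases h1 : A = t
  · exact hKK hL hFa hFb (Or.inl h1)
  by_cases h2 : C = s
  · exact hKK hL hFa hFb (Or.inr (h2 ▸ fk_ad hFc.swap))
  have b1 := ha.big
  have b2 := hb.big
  have b3 := hc.big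
  have key : ∀ y, (y = ua ∨ y = A ∨ y = uc ∨ y = C) →
      4 / 25 ≤ PP en Γ p y / NN en Γ W ρ p → Tri en Γ W ρ p a b c (2 * NN en Γ W ρ p) := by
    intro y hy h
    refine (hLAD hL hFa hFb hFc h1 h2 y hy).mono ?_
    rw [← add_div, lt_div_iff₀ hN] at b2
    rw [le_div_iff₀ hN] at h
    linarith
  by_cases c1 : 4 / 25 ≤ PP en Γ p ta / NN en Γ W ρ p
  · exact key ta (by tauto) c1
  by_cases c2 : 4 / 25 ≤ PP en Γ p tc / NN en Γ W ρ p
  · exact key tc (by tauto) c2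
  exfalso
  have := hs hN [s, t] (by simpa using hb.ne) (fun y hy => hm y (by
    simp only [List.mem_cons, List.not_mem_nil, or_false] at hy ⊢; tauto))
  simp only [List.map_cons, List.map_nil, List.sum_cons, List.sum_nil] at this
  generalize PP en Γ p s / NN en Γ W ρ p = x1 at *
  generalize PP en Γ p t / NN en Γ W ρ p = x2 at *
  have e1 : 4 / 5 < x1 := by linarith [not_le.1 c1]
  have e2 : 4 / 5 < x2 := by linarith [not_le.1 c2]
  nlinarith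

lemma sq2 {x y : ℝ} (h : 24 / 25 < x + y) : 288 / 625 ≤ x ^ 2 + y ^ 2 := by
  nlinarith [sq_nonneg (x - y), sq_nonneg (x - 12 / 25), sq_nonneg (y - 12 / 25)]

lemma sq3 {x y z : ℝ} (h : 24 / 25 < x + y) (h' : 24 / 25 < x + z) :
    384 / 625 ≤ x ^ 2 + y ^ 2 + z ^ 2 := by
  nlinarith [sq_nonneg (x - 16 / 25), sq_nonneg (y - 8 / 25), sq_nonneg (z - 8 / 25)]

/-- Two pairs share a vertex. -/
lemma core (hMAS : S_MAS) (hLAD : S_LAD) (hKK : S_KK) (hL : Loc en Γ W ρ p a b c ua ub uc)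
    (hN : 0 < NN en Γ W ρ p)
    (ha : Lg en Γ (fun v => PP en Γ p v / NN en Γ W ρ p) ua a s ta)
    (hb : Lg en Γ (fun v => PP en Γ p v / NN en Γ W ρ p) ub b s tb)
    (hc : Lg en Γ (fun v => PP en Γ p v / NN en Γ W ρ p) uc c sc tc) :
    Tri en Γ W ρ p a b c (2 * NN en Γ W ρ p) := by
  by_cases h1 : sc = tb
  · subst h1; exact lad hMAS hLAD hKK hL hN ha hb hc
  by_cases h2 : tc = tb
  · subst h2; exact lad hMAS hLAD hKK hL hN ha hb hc.swap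
  by_cases h3 : sc = ta
  · subst h3; exact (lad hMAS hLAD hKK hL.s12 hN hb ha hc).s12
  by_cases h4 : tc = ta
  · subst h4; exact (lad hMAS hLAD hKK hL.s12 hN hb ha hc.swap).s12
  obtain ⟨⟨d1, d0, d2, -, -, -⟩, hm, hs⟩ := info hMAS hL ha hb hc
  obtain ⟨⟨d3, -, d4, -, -, -⟩, -, -⟩ := info hMAS hL ha.swap hb.swap hc
  obtain ⟨ga, ga', A, hFa, hta⟩ := ha.align d2
  obtain ⟨gb, gb', B, hFb, htb⟩ := hb.align d1
  by_cases h5 : sc = s
  · subst h5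
    obtain ⟨gc, gc', C, hFc, -⟩ := hc.align d0
    exact hKK hL hFa hFb (Or.inr (fk_ad hFc))
  by_cases h6 : tc = s
  · subst h6
    obtain ⟨gc, gc', C, hFc, -⟩ := hc.swap.align d0
    exact hKK hL hFa hFb (Or.inr (fk_ad hFc))
  by_cases h7 : ta = tb
  · subst h7
    exact hKK hL hFa hFb (Or.inl ((hta.resolve_left d4).symm.trans (htb.resolve_left d3)))
  exfalso
  have n1 := ha.ne
  have n2 := hb.ne
  have n3 := hc.ne
  have := hs hN [s, ta, tb, sc, tc] (by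
    simp only [List.nodup_cons, List.mem_cons, List.not_mem_nil, or_false, not_or,
      List.nodup_nil, not_false_eq_true, and_true]
    exact ⟨⟨n1, n2, Ne.symm h5, Ne.symm h6⟩, ⟨h7, Ne.symm h3, Ne.symm h4⟩,
      ⟨Ne.symm h1, Ne.symm h2⟩, n3⟩) (fun y hy => hm y (by
    simp only [List.mem_cons, List.not_mem_nil, or_false] at hy ⊢; tauto))
  simp only [List.map_cons, List.map_nil, List.sum_cons, List.sum_nil] at this
  have b1 := sq3 ha.big hb.big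
  have b3 := sq2 hc.big
  linarith

lemma core2 (hMAS : S_MAS) (hLAD : S_LAD) (hKK : S_KK) (hL : Loc en Γ W ρ p a b c ua ub uc)
    (hN : 0 < NN en Γ W ρ p)
    (ha : Lg en Γ (fun v => PP en Γ p v / NN en Γ W ρ p) ua a sa ta)
    (hb : Lg en Γ (fun v => PP en Γ p v / NN en Γ W ρ p) ub b sb tb)
    (hc : Lg en Γ (fun v => PP en Γ p v / NN en Γ W ρ p) uc c sc tc)
    (h : sa = sb ∨ sa = tb ∨ ta = sb ∨ ta = tb) :
    Tri en Γ W ρ p a b c (2 * NN en Γ W ρ p) := by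
  rcases h with rfl | rfl | rfl | rfl
  · exact core hMAS hLAD hKK hL hN ha hb hc
  · exact core hMAS hLAD hKK hL hN ha hb.swap hc
  · exact core hMAS hLAD hKK hL hN ha.swap hb hc
  · exact core hMAS hLAD hKK hL hN ha.swap hb.swap hc

lemma top (hMAS : S_MAS) (hLAD : S_LAD) (hKK : S_KK) (hL : Loc en Γ W ρ p a b c ua ub uc)
    (hN : 0 < NN en Γ W ρ p)
    (ha : Lg en Γ (fun v => PP en Γ p v / NN en Γ W ρ p) ua a sa ta)
    (hb : Lg en Γ (fun v => PP en Γ p v / NN en Γ W ρ p) ub b sb tb)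
    (hc : Lg en Γ (fun v => PP en Γ p v / NN en Γ W ρ p) uc c sc tc) :
    Tri en Γ W ρ p a b c (2 * NN en Γ W ρ p) := by
  by_cases h1 : sa = sb ∨ sa = tb ∨ ta = sb ∨ ta = tb
  · exact core2 hMAS hLAD hKK hL hN ha hb hc h1
  by_cases h2 : sa = sc ∨ sa = tc ∨ ta = sc ∨ ta = tc
  · exact (core2 hMAS hLAD hKK hL.s23 hN ha hc hb h2).s23
  by_cases h3 : sc = sb ∨ sc = tb ∨ tc = sb ∨ tc = tb
  · exact (core2 hMAS hLAD hKK hL.s13 hN hc hb ha h3).s13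
  exfalso
  obtain ⟨-, hm, hs⟩ := info hMAS hL ha hb hc
  simp only [not_or] at h1 h2 h3
  have n1 := ha.ne
  have n2 := hb.ne
  have n3 := hc.ne
  have := hs hN [sa, ta, sb, tb, sc, tc] (by
    simp only [List.nodup_cons, List.mem_cons, List.not_mem_nil, or_false, not_or,
      List.nodup_nil, not_false_eq_true, and_true]
    exact ⟨⟨n1, h1.1, h1.2.1, h2.1, h2.2.1⟩, ⟨h1.2.2.1, h1.2.2.2, h2.2.2.1, h2.2.2.2⟩,
      ⟨n2, Ne.symm h3.1, Ne.symm h3.2.2.1⟩, ⟨Ne.symm h3.2.1, Ne.symm h3.2.2.2⟩, n3⟩) hm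
  simp only [List.map_cons, List.map_nil, List.sum_cons, List.sum_nil] at this
  have b1 := sq2 ha.big
  have b2 := sq2 hb.big
  have b3 := sq2 hc.big
  linarith

/-- A blocked vertex of small weight gives a heavy pair. -/
lemma of_blk {g g' : ι} {w w' : V} (hF : Fk en Γ u e g g' w w') (h1 : u ≠ w) (h2 : u ≠ w')
    (h3 : w ≠ w') (hB : Blk x u w w') (hu : x u ≤ 12 / 25) : ∃ s t, Lg en Γ x u e s t := by
  unfold Blk at hB
  rcases le_total (x u) (x w) with c1 | c1 <;> rcases le_total (x u) (x w') with c2 | c2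
  · rw [max_eq_right c1, max_eq_right c2] at hB
    exact ⟨w, w', g, g', w, w', hF, by tauto, by tauto, h3, hB⟩
  · rw [max_eq_right c1, max_eq_left c2] at hB
    exact ⟨w, u, g, g', w, w', hF, by tauto, by tauto, h1.symm, hB⟩
  · rw [max_eq_left c1, max_eq_right c2] at hB
    exact ⟨u, w', g, g', w, w', hF, by tauto, by tauto, h2, hB⟩
  · rw [max_eq_left c1, max_eq_left c2] at hB
    linarith

end E4cx

open E4cx in
theorem p_E4c (hMAS : S_MAS) (hLAD : S_LAD) (hKK : S_KK) :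
    S_E4c := by
  intro V ι _ _ _ en Γ W ρ ua ub uc wa wa' wb wb' wc wc' p a b c ga ga' gb gb' gc gc' hL hFa hFb
    hFc hN ba bb bc xa xb xc
  obtain ⟨n1, n2, n3, -⟩ := hMAS hL hFa hFb hFc
  simp only [List.nodup_cons, List.mem_cons, List.not_mem_nil, or_false, not_or,
    List.nodup_nil, not_false_eq_true, and_true] at n1 n2 n3
  obtain ⟨sa, ta, ha⟩ := of_blk hFa (by tauto) (by tauto) (by tauto) ba xa
  obtain ⟨sb, tb, hb⟩ := of_blk hFb (by tauto) (by tauto) (by tauto) bb xb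
  obtain ⟨sc, tc, hc⟩ := of_blk hFc (by tauto) (by tauto) (by tauto) bc xc
  exact top hMAS hLAD hKK hL hN ha hb hc

end Pool.Agent.P.MP_bb4f54_co.T3

end sE4c

section sG3s
/-! Step G3s. -/

set_option autoImplicit false
set_option linter.unusedSectionVars false

namespace Pool.Agent.P.MP_bb4f54_co.T3

open Finset

namespace G3sx

variable {V : Type} [Fintype V] [DecidableEq V] {O : Finset V} {r : Fin 3 → ℕ → V}
  {m : Fin 3 → ℕ} {P : Fin 3 → ℕ → ℕ}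

/-- The facts on the rails that are used. -/
structure Rl (O : Finset V) (r : Fin 3 → ℕ → V) (m : Fin 3 → ℕ) (P : Fin 3 → ℕ → ℕ) : Prop where
  inj : ∀ ρ ρ' i j, 0 < i → i < m ρ → j ≤ m ρ' → r ρ i = r ρ' j → ρ = ρ' ∧ i = j
  nO : ∀ ρ i, i ≤ m ρ → r ρ i ∉ O
  pp : ∀ ρ i, i < 7 → 0 < P ρ i ∧ P ρ i < m ρ
  mo : ∀ ρ i j, i < j → j < 7 → P ρ i < P ρ j

lemma Rl.le (H : Rl O r m P) (ρ : Fin 3) {i j : ℕ} (h : i ≤ j) (hj : j < 7) : P ρ i ≤ P ρ j := by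
  rcases h.eq_or_lt with rfl | h
  · exact le_rfl
  · exact (H.mo ρ i j h hj).le

lemma Rl.notDD (H : Rl O r m P) {O' : Set V} (hO : O' ⊆ ↑O) {i j k : ℕ} (hi : i < 7) (hj : j < 7)
    (hk : k < 7) (h : i ≤ j ∨ k ≤ i) (ρ : Fin 3) : lv r P i ρ ∉ DD O' r P j k := by
  rintro (h1 | ⟨ρ', a, h1, h2, h3⟩)
  · exact H.nO ρ _ (H.pp ρ i hi).2.le (hO h1)
  · have h4 := (H.pp ρ' k hk).2
    obtain ⟨rfl, h5⟩ := H.inj ρ ρ' _ a (H.pp ρ i hi).1 (H.pp ρ i hi).2 (by omega) h3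
    rcases h with h | h
    · have := H.le ρ h hj
      omega
    · have := H.le ρ h hi
      omega

lemma Rl.ne (H : Rl O r m P) {i j : ℕ} (h : i < j) (hj : j < 7) (ρ ρ' : Fin 3) :
    lv r P i ρ ≠ lv r P j ρ' := fun e => by
  obtain ⟨rfl, h5⟩ := H.inj ρ ρ' _ _ (H.pp ρ i (h.trans hj)).1 (H.pp ρ i (h.trans hj)).2
    (H.pp ρ' j hj).2.le e
  exact (H.mo ρ i j h hj).ne h5

lemma comp (hLHC : S_LHC) (H : Rl O r m P) {O₁ O₂ : Set V} (h1 : O₁ ⊆ ↑O) (h2 : O₂ ⊆ ↑O)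
    (hd : Disjoint O₁ O₂) {a b c : ℕ} (ab : a < b) (bc : b < c) (hc : c < 7) {h h' h'' : Fin 3}
    {Q Q' : Finset (Sym2 V)} (L1 : LH (lv r P a) (lv r P b) (DD O₁ r P a b) h h' Q)
    (L2 : LH (lv r P b) (lv r P c) (DD O₂ r P b c) h' h'' Q') :
    LH (lv r P a) (lv r P c) (DD (O₁ ∪ O₂) r P a c) h h'' (Q ∪ Q') ∧ Disjoint Q Q' := by
  have hb : b < 7 := bc.trans hc
  have ha : a < 7 := ab.trans hb
  refine hLHC _ _ _ _ _ _ h h' h'' Q Q' L1 L2 ?_ ?_ ?_ ?_ ?_ ?_ ?_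
  · rw [Set.disjoint_left]
    rintro u (e1 | ⟨ρ, x, x1, x2, rfl⟩) (e2 | ⟨ρ', y, y1, y2, e2⟩)
    · exact Set.disjoint_left.1 hd e1 e2
    · have := (H.pp ρ' c hc).2
      exact H.nO ρ' y (by omega) (e2 ▸ h1 e1)
    · have := (H.pp ρ b hb).2
      exact H.nO ρ x (by omega) (h2 e2)
    · have e3 := (H.pp ρ b hb).2
      have e4 := (H.pp ρ' c hc).2
      obtain ⟨rfl, e5⟩ := H.inj ρ ρ' x y (by omega) (by omega) (by omega) e2
      omega
  · intro ρ ρ' e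
    exact (H.inj ρ ρ' _ _ (H.pp ρ b hb).1 (H.pp ρ b hb).2 (H.pp ρ' b hb).2.le e).1
  · exact fun ρ => ⟨H.notDD h1 hb ha hb (Or.inr le_rfl) ρ, H.notDD h2 hb hb hc (Or.inl le_rfl) ρ,
      H.notDD h2 ha hb hc (Or.inl ab.le) ρ, H.notDD h1 hc ha hb (Or.inr bc.le) ρ⟩
  · exact fun ρ ρ' => ⟨H.ne ab hb ρ ρ', H.ne (ab.trans bc) hc ρ ρ', H.ne bc hc ρ ρ'⟩
  · rintro u (e | ⟨ρ, x, x1, x2, e⟩)
    · exact Or.inl (Or.inl e)
    · exact Or.inr ⟨ρ, x, x1, x2.trans (H.mo ρ b c bc hc), e⟩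
  · rintro u (e | ⟨ρ, x, x1, x2, e⟩)
    · exact Or.inl (Or.inr e)
    · exact Or.inr ⟨ρ, x, (H.mo ρ a b ab hb).trans x1, x2, e⟩
  · exact fun ρ => Or.inr ⟨ρ, P ρ b, H.mo ρ a b ab hb, H.mo ρ b c bc hc, rfl⟩

lemma mem_XX {Λ : ℕ → Fin 3 → Finset (Sym2 V)} {e : Sym2 V} {ρ : Fin 3}
    (h : e ∈ Λ 1 ρ ∨ e ∈ Λ 3 ρ ∨ e ∈ Λ 5 ρ) : e ∈ XX Λ := by
  simp only [XX, mem_union]
  fin_cases ρ <;> tauto

end G3sx

open G3sx in
theorem p_G3s (hLHC : S_LHC) (hW3B : S_W3B) (hG3u : S_G3u) :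
    S_G3s := by
  intro V _ _ G S T O Γ v n pos r m P k Λ Ys hC hW h
  obtain ⟨b1, b2, -, -⟩ := hW3B hC hW
  have H : Rl O r m P := ⟨b1, b2, hW.pp, hW.mo⟩
  obtain ⟨α₀, β₀, c₀, H0⟩ := hG3u 0 hC hW (by norm_num)
  obtain ⟨α, β, c, H2⟩ := hG3u 2 hC hW (by norm_num)
  obtain ⟨α₄, β₄, c₄, H4⟩ := hG3u 4 hC hW (by norm_num)
  choose Q₀ a1 a2 _ using H0
  choose Q₂ d1 d2 d3 using H2
  choose Q₄ f1 f2 _ using H4
  have key : ∀ h₁ h₂ : Fin 3, ∃ Q, (LH (lv r P 0) (lv r P 6) (DD ↑O r P 0 6) h h Q ∧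
      ∀ e ∈ Q, e ∈ XX Λ ∨ ∃ ρ, e ∈ MM r P 0 6 ρ) ∧
      Q.card = (Q₀ h h₁).card + (Q₂ h₁ h₂).card + (Q₄ h₂ h).card := by
    intro h₁ h₂
    have zd : ∀ i j, i < 7 → j < 7 → i ≠ j → Disjoint {u | u ∈ O ∧ ∃ ρ, u ∈ spt id (Λ i ρ)}
        {u | u ∈ O ∧ ∃ ρ, u ∈ spt id (Λ j ρ)} := fun i j hi hj ij =>
      Set.disjoint_left.2 fun u ⟨_, ρ, h1⟩ ⟨_, ρ', h2⟩ => hW.zd i j hi hj ij ρ ρ' u h1 h2
    obtain ⟨g1, g2⟩ := comp hLHC H (fun u hu => hu.1) (fun u hu => hu.1)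
      (zd 1 3 (by norm_num) (by norm_num) (by norm_num)) (by norm_num) (by norm_num)
      (by norm_num) (a1 h h₁) (d1 h₁ h₂)
    obtain ⟨g3, g4⟩ := comp hLHC H (Set.union_subset (fun u hu => hu.1) fun u hu => hu.1)
      (fun u hu => hu.1) (Set.disjoint_union_left.2 ⟨zd 1 5 (by norm_num) (by norm_num)
        (by norm_num), zd 3 5 (by norm_num) (by norm_num) (by norm_num)⟩) (by norm_num)
      (by norm_num) (by norm_num) g1 (f1 h₂ h)
    refine ⟨_, ⟨g3.mono ?_, fun e he => ?_⟩, by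
      rw [card_union_of_disjoint g4, card_union_of_disjoint g2]⟩
    · rintro u (((e | e) | e) | e)
      · exact Or.inl e.1
      · exact Or.inl e.1
      · exact Or.inl e.1
      · exact Or.inr e
    · rcases mem_union.1 he with he | he
      · rcases mem_union.1 he with he | he
        · obtain ⟨ρ, e1 | e1⟩ := a2 _ _ e he
          · exact Or.inl (mem_XX (Or.inl e1))
          · exact Or.inr ⟨ρ, e1⟩
        · obtain ⟨ρ, e1 | e1⟩ := d2 _ _ e he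
          · exact Or.inl (mem_XX (Or.inr (Or.inl e1)))
          · exact Or.inr ⟨ρ, e1⟩
      · obtain ⟨ρ, e1 | e1⟩ := f2 _ _ e he
        · exact Or.inl (mem_XX (Or.inr (Or.inr e1)))
        · exact Or.inr ⟨ρ, e1⟩
  choose Q k1 k2 using key
  refine ⟨![Q 1 0, Q 0 2, Q 1 2, Q 0 0], fun j => ?_, ?_⟩
  · fin_cases j
    · exact k1 1 0
    · exact k1 0 2
    · exact k1 1 2
    · exact k1 0 0
  · change (Q 1 0).card + (Q 0 2).card = (Q 1 2).card + (Q 0 0).card + 2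
    have e1 := d3 1 0
    have e2 := d3 0 2
    have e3 := d3 1 2
    have e4 := d3 0 0
    have e5 : (Λ (2 + 1) 0).card = 1 := by rw [hW.l1 _ (by norm_num), card_singleton]
    rw [if_neg (by decide)] at e1 e2 e3
    rw [if_pos rfl] at e4
    rw [k2, k2, k2, k2]
    omega

end Pool.Agent.P.MP_bb4f54_co.T3

end sG3s

section sUNQ
/-! Step UNQ. -/

set_option autoImplicit false
set_option linter.unusedSectionVars false

namespace Pool.Agent.P.MP_bb4f54_co.T3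

open Finset

namespace UNQx

variable {V ι : Type}

lemma nc {e : Sym2 V} {Z Z' : Set V} {b : V} (h : Cr e Z) (h' : Cr e Z') (hb : b ∈ e)
    (h1 : b ∉ Z) (h2 : b ∉ Z') : ¬ Cr e (Z \ Z') := by
  induction e using Sym2.ind with
  | _ x y =>
    simp only [cr_mk, Set.mem_sdiff] at *
    rcases Sym2.mem_iff.1 hb with rfl | rfl <;> tauto

lemma cd {e : Sym2 V} {Z Z' : Set V} (h : Cr e (Z \ Z')) : Cr e Z ∨ Cr e Z' := by
  induction e using Sym2.ind with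
  | _ x y =>
    simp only [cr_mk, Set.mem_sdiff] at *
    tauto

lemma two [DecidableEq ι] {en : ι → Sym2 V} {Γ : Finset ι} {Z Z' : Set V} {e₁ e₂ : ι}
    {b₁ b₂ : V} (hZ : (cut en Γ Z).card ≤ 3) (hZ' : (cut en Γ Z').card ≤ 3) (hne : e₁ ≠ e₂)
    (h1 : e₁ ∈ cut en Γ Z) (h1' : e₁ ∈ cut en Γ Z') (h2 : e₂ ∈ cut en Γ Z)
    (h2' : e₂ ∈ cut en Γ Z') (m1 : b₁ ∈ en e₁) (m2 : b₂ ∈ en e₂) (n1 : b₁ ∉ Z) (n1' : b₁ ∉ Z')
    (n2 : b₂ ∉ Z) (n2' : b₂ ∉ Z') : (cut en Γ (Z \ Z')).card ≤ 2 := by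
  have hs : cut en Γ (Z \ Z') ⊆ (cut en Γ Z \ {e₁, e₂}) ∪ (cut en Γ Z' \ {e₁, e₂}) := by
    intro i hi
    obtain ⟨hΓ, hc⟩ := mem_cut.1 hi
    have hn : i ∉ ({e₁, e₂} : Finset ι) := by
      simp only [mem_insert, mem_singleton]
      rintro (rfl | rfl)
      · exact nc (mem_cut.1 h1).2 (mem_cut.1 h1').2 m1 n1 n1' hc
      · exact nc (mem_cut.1 h2).2 (mem_cut.1 h2').2 m2 n2 n2' hc
    rcases cd hc with h | h
    · exact mem_union_left _ (mem_sdiff.2 ⟨mem_cut.2 ⟨hΓ, h⟩, hn⟩)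
    · exact mem_union_right _ (mem_sdiff.2 ⟨mem_cut.2 ⟨hΓ, h⟩, hn⟩)
  have c1 := card_sdiff_add_card_eq_card (s := {e₁, e₂}) (t := cut en Γ Z)
    (insert_subset h1 (singleton_subset_iff.2 h2))
  have c2 := card_sdiff_add_card_eq_card (s := {e₁, e₂}) (t := cut en Γ Z')
    (insert_subset h1' (singleton_subset_iff.2 h2'))
  rw [card_pair hne] at c1 c2
  have := (card_le_card hs).trans (card_union_le _ _)
  omega

variable [Fintype V] [DecidableEq V] [DecidableEq ι] {en : ι → Sym2 V} {Γ B₁ B₂ : Finset ι}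

lemma outer (hARC : S_ARC) (hn : NL en Γ) {a b v : V} (h : Arc en Γ B₁ a b) (hs : B₂ ⊆ Γ)
    (hd : Disjoint B₁ B₂) (hv : v ∈ spt en B₂) : v ∉ spt en B₁ ∨ v = a ∨ v = b := by
  by_contra hc
  push Not at hc
  obtain ⟨i, hi, hvi⟩ := hv
  exact disjoint_left.1 hd ((hARC en Γ B₁ a b hn h).1 i (hs hi) v hvi hc.1 hc.2.1 hc.2.2) hi

lemma brk {a b w : V} (h : Arc en Γ B₁ a b) (hw : dgr en Γ w = 3) :
    w ∉ spt en B₁ ∨ w = a ∨ w = b := by
  by_contra hc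
  push Not at hc
  have := h.2.2.2 w hc.1 hc.2.1 hc.2.2
  omega

lemma norm (hODA : S_ODA) (hARC : S_ARC) (hn : NL en Γ) {Y : Set V} {a₁ b₁ a₂ b₂ : V}
    (hY : (cut en Γ Y).card ≤ 3) (h1 : Arc en Γ B₁ a₁ b₁) (h2 : Arc en Γ B₂ a₂ b₂)
    (hd : Disjoint B₁ B₂) (ha₁ : a₁ ∈ Y) (ha₂ : a₂ ∈ Y) (hb₁ : b₁ ∉ Y) (hb₂ : b₂ ∉ Y) :
    ∃ Z : Set V, (cut en Γ Z).card ≤ 3 ∧ (∀ w, dgr en Γ w = 3 → (w ∈ Z ↔ w ∈ Y)) ∧ b₁ ∉ Z ∧
      b₂ ∉ Z ∧ cut en B₁ {b₁} ⊆ cut en Γ Z ∧ cut en B₂ {b₂} ⊆ cut en Γ Z ∧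
      (cut en B₁ {b₁}).card = 1 ∧ (cut en B₂ {b₂}).card = 1 := by
  obtain ⟨Y₁, p1, -, -, -, p5, p6⟩ := (hARC en Γ B₁ a₁ b₁ hn h1).2.2 Y
  obtain ⟨Z, q1, -, q3, -, q5, q6⟩ := (hARC en Γ B₂ a₂ b₂ hn h2).2.2 Y₁
  have s1 := (hODA en).2.2.2.2.2.2.2 B₁ a₁ b₁ h1.1.1 h1.2.2.1
  have s2 := (hODA en).2.2.2.2.2.2.2 B₂ a₂ b₂ h2.1.1 h2.2.2.1
  have u1 := p1 a₂ (outer hARC hn h1 h2.2.1 hd s2.1)
  have u2 := p1 b₂ (outer hARC hn h1 h2.2.1 hd s2.2)
  have u3 := q1 b₁ (outer hARC hn h2 h1.2.1 hd.symm s1.2)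
  have u4 := p1 b₁ (Or.inr (Or.inr rfl))
  have u5 := q1 b₂ (Or.inr (Or.inr rfl))
  obtain ⟨r1, r2⟩ := p5 fun h => hb₁ (h.1 ha₁)
  obtain ⟨r3, r4⟩ := q5 fun h => hb₂ (u2.1 (h.1 (u1.2 ha₂)))
  refine ⟨Z, q6.trans (p6.trans hY), fun w hw => (q1 w (brk h2 hw)).trans (p1 w (brk h1 hw)),
    fun h => hb₁ (u4.1 (u3.1 h)), fun h => hb₂ (u2.1 (u5.1 h)), ?_, ?_, ?_, ?_⟩
  · rw [← r1]
    refine (cut_mono (Γ' := Γ \ B₂) (subset_sdiff.2 ⟨h1.2.1, hd⟩)).trans ?_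
    rw [← q3]
    exact cut_mono sdiff_subset
  · rw [← r3]; exact cut_mono h2.2.1
  · rw [← r1]; exact r2
  · rw [← r3]; exact r4

end UNQx

theorem p_UNQ (hODA : S_ODA) (hARC : S_ARC) :
    S_UNQ := by
  intro V ι _ _ _ en Γ B₁ B₂ Y Y' a₁ b₁ a₂ b₂ u hT hY hY' h1 h2 hd ha₁ ha₁' ha₂ ha₂' hb₁ hb₁'
    hb₂ hb₂' hu huY w hw
  obtain ⟨Z, z1, z2, z3, z4, z5, z6, z7, z8⟩ :=
    UNQx.norm hODA hARC hT.nl hY h1 h2 hd ha₁ ha₂ hb₁ hb₂
  obtain ⟨Z', y1, y2, y3, y4, y5, y6, -, -⟩ :=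
    UNQx.norm hODA hARC hT.nl hY' h1 h2 hd ha₁' ha₂' hb₁' hb₂'
  obtain ⟨e₁, m1⟩ : (cut en B₁ {b₁}).Nonempty := card_pos.1 (by omega)
  obtain ⟨e₂, m2⟩ : (cut en B₂ {b₂}).Nonempty := card_pos.1 (by omega)
  have hne : e₁ ≠ e₂ := fun e =>
    disjoint_left.1 hd (cut_subset m1) (e ▸ cut_subset m2)
  have k1 := (mem_cut_single.1 m1).2.1
  have k2 := (mem_cut_single.1 m2).2.1
  have t1 := UNQx.two z1 y1 hne (z5 m1) (y5 m1) (z6 m2) (y6 m2) k1 k2 z3 y3 z4 y4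
  have t2 := UNQx.two y1 z1 hne (y5 m1) (z5 m1) (y6 m2) (z6 m2) k1 k2 y3 z3 y4 z4
  have hz := z2 u hu
  have hy := y2 u hu
  rw [← z2 w hw, ← y2 w hw]
  constructor
  · intro h
    by_contra h'
    have := hT.c3 (Z \ Z') ⟨w, ⟨h, h'⟩, hw⟩ ⟨u, fun hh => hh.2 (hy.2 (huY.1 (hz.1 hh.1))), hu⟩
    omega
  · intro h
    by_contra h'
    have := hT.c3 (Z' \ Z) ⟨w, ⟨h, h'⟩, hw⟩ ⟨u, fun hh => hh.2 (hz.2 (huY.2 (hy.1 hh.1))), hu⟩
    omega

end Pool.Agent.P.MP_bb4f54_co.T3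

end sUNQ

section sGL
/-! Step GL. -/

set_option autoImplicit false
set_option linter.unusedSectionVars false

namespace Pool.Agent.P.MP_bb4f54_co.T3

open Finset

theorem p_GL (hTDF : S_TDF) (hVIA : S_VIA) (hFRE : S_FRE) (hDIA : S_DIA) (hCXB : S_CXB) (hGS : S_GS) :
    S_GL := by
  intro V _ _ G S T O Γ v n pos R σ hC hU hk h1 h2
  obtain ⟨-, -, f3, -⟩ := hFRE hC.g3 hC.sk
  have dx := hC.sk.dT _ hU.hx
  have dy := hC.sk.dT _ hU.hy
  have dz := hC.sk.dT _ hU.hz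
  have rl : Rail Γ T (v σ.x) (n σ.x) := (hCXB hC).1 _ hU.hx
  have ey : v σ.x (pos σ.y) = σ.y := by rw [h1.1]; exact hC.td.vx _ dy
  have ex : v σ.x (pos σ.x) = σ.x := hC.td.vx _ dx
  have ez : v σ.x (pos σ.z) = σ.z := by rw [← h2.1]; exact hC.td.vx _ dz
  have a0 : 0 < pos σ.y := hC.td.p0 _ dy
  have bm : pos σ.z < n σ.x := by
    rw [← ((hTDF Γ v n pos hC.td σ.x σ.z dx dz).1 h2.1).1]; exact hC.td.pn _ dz
  have ap := h1.2
  have pb := h2.2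
  have hAB : ∀ w ∈ spt id σ.A, w ∈ spt id σ.B → w = σ.k := by
    rcases hU.kind with h | h
    · exact h.2.2
    · exact absurd hk (h.1 ▸ f3 _ hU.hy)
  generalize v σ.x = w at rl ey ex ez
  generalize n σ.x = m at rl bm
  generalize pos σ.y = a at *
  generalize pos σ.x = p at *
  generalize pos σ.z = b at *
  have inj := rl.th.sg.inj
  have nO : ∀ i, a ≤ i → i ≤ b → w i ∉ O := fun i h3 h4 => f3 _ (rl.int i (by omega) (by omega))
  have ne : ∀ i j, i < j → j ≤ b → w i ≠ w j := fun i j h3 h4 e => by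
    have := inj i j (by omega) (by omega) e
    omega
  obtain ⟨-, -, v3, -, -, v6, v7, -⟩ := hVIA G
  have hD := hDIA G {u | (∃ i, a < i ∧ i < p ∧ u = w i) ∨ (u ∈ spt id σ.A ∧ u ∈ O ∧ u ≠ σ.k)}
    {u | (∃ i, p < i ∧ i < b ∧ u = w i) ∨ (u ∈ spt id σ.B ∧ u ∈ O ∧ u ≠ σ.k)} (w p) σ.k (w a) (w b)
    (ex ▸ hU.adj)
    (by
      rw [Set.disjoint_left]
      rintro u (⟨i, h3, h4, rfl⟩ | ⟨h3, h4, h5⟩) (⟨j, h6, h7, e⟩ | ⟨h6, h7, h8⟩)
      · exact ne i j (by omega) (by omega) e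
      · exact nO i (by omega) (by omega) h7
      · exact nO j (by omega) (by omega) (e ▸ h4)
      · exact h5 (hAB u h3 h6))
    (by
      rintro (⟨i, h3, h4, e⟩ | ⟨-, h4, -⟩)
      · exact ne i p h4 pb.le e.symm
      · exact nO p ap.le pb.le h4)
    (by
      rintro (⟨i, h3, h4, e⟩ | ⟨-, h4, -⟩)
      · exact ne p i h3 h4.le e
      · exact nO p ap.le pb.le h4)
    (by
      rintro (⟨i, h3, h4, e⟩ | ⟨-, -, h4⟩)
      · exact nO i (by omega) (by omega) (e ▸ hk)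
      · exact h4 rfl)
    (by
      rintro (⟨i, h3, h4, e⟩ | ⟨-, -, h4⟩)
      · exact nO i (by omega) (by omega) (e ▸ hk)
      · exact h4 rfl)
    (by
      rintro (⟨i, h3, h4, e⟩ | ⟨-, h4, -⟩)
      · exact ne a i (by omega) h4.le e
      · exact nO a le_rfl (by omega) h4)
    (by
      rintro (⟨i, h3, h4, e⟩ | ⟨-, h4, -⟩)
      · exact ne i b (by omega) le_rfl e.symm
      · exact nO b (by omega) le_rfl h4)
    (ne a b (by omega) le_rfl) (ne a p ap pb.le)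
    (fun e => nO a le_rfl (by omega) (e ▸ hk)) (ne p b pb le_rfl).symm
    (fun e => nO b (by omega) le_rfl (e ▸ hk))
    (v3 _ _ _ (v6 Γ hC.sk.sub w m a p _ rl.th.sg ap.le (by omega)
      fun i h3 h4 => Or.inl ⟨i, h3, h4, rfl⟩))
    (v7 σ.A hU.sA _ _ _ (ey ▸ hU.pA) fun u hu => by
      by_cases h : u = σ.k
      · exact Or.inl h
      · rcases hU.iA u hu with h' | h'
        · exact Or.inr (Or.inr (Or.inr ⟨hu, h', h⟩))
        · exact Or.inr (Or.inl (h'.trans ey.symm)))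
    (v6 Γ hC.sk.sub w m p b _ rl.th.sg pb.le bm.le fun i h3 h4 => Or.inl ⟨i, h3, h4, rfl⟩)
    (v7 σ.B hU.sB _ _ _ (ez ▸ hU.pB) fun u hu => by
      by_cases h : u = σ.k
      · exact Or.inl h
      · rcases hU.iB u hu with h' | h'
        · exact Or.inr (Or.inr (Or.inr ⟨hu, h', h⟩))
        · exact Or.inr (Or.inl (h'.trans ez.symm)))
  refine hGS w m a b _ hC rl a0 (by omega) bm hD ?_
  rintro u ((⟨i, h3, h4, e⟩ | h) | (⟨i, h3, h4, e⟩ | h) | e | e)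
  · exact Or.inr ⟨i, by omega, by omega, e⟩
  · exact Or.inl h.2.1
  · exact Or.inr ⟨i, by omega, by omega, e⟩
  · exact Or.inl h.2.1
  · exact Or.inr ⟨p, by omega, by omega, e⟩
  · exact Or.inl (e ▸ hk)

end Pool.Agent.P.MP_bb4f54_co.T3

end sGL

section sE3
/-! Step E3. -/

set_option autoImplicit false
set_option linter.unusedSectionVars false

namespace Pool.Agent.P.MP_bb4f54_co.T3

open Finset

namespace E3x

theorem step (hNRM : S_NRM) (hGIR : S_GIR) (hDL1 : S_DL1) (hDL3 : S_DL3)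
    {V ι : Type} [Fintype V] [DecidableEq V] [DecidableEq ι]
    {en : ι → Sym2 V} {Γ : Finset ι} {W : Finset V} {ρ u ub uc w w' : V} {p : V → ι → ℝ}
    {a b c g g' : ι} (hE : EH V ι W.card) (hL : Loc en Γ W ρ p a b c u ub uc)
    (hF : Fk en Γ u a g g' w w') (hN : 0 < NN en Γ W ρ p) :
    Tri en Γ W ρ p a b c (2 * (p u g' + p w' g') + 2 * (NN en Γ W ρ p -
      ((PP en Γ p u / NN en Γ W ρ p + 1 / 50) * (p u g + p u g') +
        (PP en Γ p w / NN en Γ W ρ p + 1 / 50) * p w g +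
        (PP en Γ p w' / NN en Γ W ρ p + 1 / 50) * p w' g'))) := by
  have hC := hL.rz.rt.cub
  have hp := hL.rz.rt.pos
  have hg : g ∈ Γ := cut_subset (hF.st ▸ by simp : g ∈ cut en Γ {u})
  have hg' : g' ∈ Γ := cut_subset (hF.st ▸ by simp : g' ∈ cut en Γ {u})
  have hw : g ∈ cut en Γ {w} := mem_cut_single.2 ⟨hg, by simp [hF.e1], hC.nl g hg⟩
  have hw' : g' ∈ cut en Γ {w'} := mem_cut_single.2 ⟨hg', by simp [hF.e2], hC.nl g' hg'⟩
  obtain ⟨h₁, h₂, w₁, w₂, hF'⟩ :=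
    (hGIR en Γ W hC).2.1 w (hC.sp g hg w (by simp [hF.e1])) g hw
  obtain ⟨hnd, -, hu, hwW, hwW', -⟩ := hDL1 hL hF hF'
  simp only [List.nodup_cons, List.mem_cons, not_or] at hnd
  obtain ⟨⟨n1, n2, n3, -⟩, ⟨n4, n5, -⟩, ⟨n6, -⟩, -⟩ := hnd
  have hPu : PP en Γ p u = p u g + p u g' := by
    rw [pp_three hF.st (hC.dg u hu), hL.rz.za, zero_add]
  have h1 := (((hNRM.2 (W.erase ρ) (PP en Γ p) fun v _ => pp_nonneg hp).2.2 (NN en Γ W ρ p) rfl hN).2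
    (dl en Γ p g g' u w w') fun v _ => by
      unfold dl
      split_ifs with c1 c2 c3
      · rw [c1]; exact ⟨pp_nonneg hp, le_rfl⟩
      · rw [c2]; exact ⟨hp _ _, pp_ge1 hp hw⟩
      · rw [c3]; exact ⟨hp _ _, pp_ge1 hp hw'⟩
      · exact ⟨le_rfl, pp_nonneg hp⟩)
  have hs : ({u, w, w'} : Finset V) ⊆ W.erase ρ := by
    simp only [insert_subset_iff, singleton_subset_iff, mem_erase]
    exact ⟨⟨Ne.symm n1, hu⟩, ⟨Ne.symm n2, hwW⟩, Ne.symm n3, hwW'⟩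
  rw [← sum_subset (f := fun v => (PP en Γ p v / NN en Γ W ρ p + 1 / 50) *
    dl en Γ p g g' u w w' v) hs (fun v _ hv => by
    simp only [mem_insert, mem_singleton, not_or] at hv
    simp [dl, hv.1, hv.2.1, hv.2.2]), sum_insert (by simp [n4, n5]), sum_pair n6] at h1
  have e1 : dl en Γ p g g' u w w' u = p u g + p u g' := by simp [dl, hPu]
  have e2 : dl en Γ p g g' u w w' w = p w g := by simp [dl, Ne.symm n4]
  have e3 : dl en Γ p g g' u w w' w' = p w' g' := by simp [dl, Ne.symm n5, Ne.symm n6]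
  rw [e1, e2, e3] at h1
  refine (hDL3 hE hL hF).mono ?_
  linarith

theorem alt {A A' B B' ju jw jw' : ℝ} (hA : 0 ≤ A) (hA' : 0 ≤ A') (hB : 0 ≤ B) (hB' : 0 ≤ B')
    (h0 : 0 ≤ ju) (h : max ju jw + max ju jw' ≤ 1) :
    ju * (A + A') + jw * B + jw' * B' ≤ A' + B' ∨ ju * (A + A') + jw * B + jw' * B' ≤ A + B := by
  have h1 := le_max_left ju jw
  have h2 := le_max_right ju jw
  have h3 := le_max_left ju jw'
  have h4 := le_max_right ju jw'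
  have h5 : ju * (A + A') + jw * B + jw' * B' ≤
      max ju jw * (A + B) + max ju jw' * (A' + B') := by
    nlinarith [mul_le_mul_of_nonneg_right h1 hA, mul_le_mul_of_nonneg_right h2 hB,
      mul_le_mul_of_nonneg_right h3 hA', mul_le_mul_of_nonneg_right h4 hB']
  rcases le_total (A + B) (A' + B') with c | c
  · left
    nlinarith [mul_le_mul_of_nonneg_left c (h0.trans h1),
      mul_le_mul_of_nonneg_right h (add_nonneg hA' hB')]
  · right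
    nlinarith [mul_le_mul_of_nonneg_left c (h0.trans h3),
      mul_le_mul_of_nonneg_right h (add_nonneg hA hB)]

end E3x

theorem p_E3 (hNRM : S_NRM) (hGIR : S_GIR) (hDL1 : S_DL1) (hDL3 : S_DL3) :
    S_E3 := by
  intro V ι _ _ _ en Γ W ρ u ub uc w w' p a b c g g' hE hL hF hN hB
  have hp := hL.rz.rt.pos
  have h1 := E3x.step hNRM hGIR hDL1 hDL3 hE hL hF hN
  have h2 := E3x.step hNRM hGIR hDL1 hDL3 hE hL hF.swap hN
  have h0 : 0 ≤ PP en Γ p u / NN en Γ W ρ p := div_nonneg (pp_nonneg hp) hN.le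
  unfold Blk at hB
  rcases E3x.alt (ju := PP en Γ p u / NN en Γ W ρ p + 1 / 50)
    (jw := PP en Γ p w / NN en Γ W ρ p + 1 / 50) (jw' := PP en Γ p w' / NN en Γ W ρ p + 1 / 50)
    (hp u g) (hp u g') (hp w g) (hp w' g') (by linarith)
    (by rw [max_add_add_right, max_add_add_right]; linarith [not_lt.1 hB]) with h | h
  · exact h1.mono (by linarith)
  · exact h2.mono (by linarith)

end Pool.Agent.P.MP_bb4f54_co.T3

end sE3

section sWAR
/-! Step WAR. -/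

set_option autoImplicit false
set_option linter.unusedSectionVars false

namespace Pool.Agent.P.MP_bb4f54_co.T3

open Finset

theorem p_WAR (hPAR : S_PAR) (hODA : S_ODA) (hPD1 : S_PD1) :
    S_WAR := by
  intro V _ _ Γ X L D l r M h
  have hne : ∀ ρ, l ρ ≠ r ρ := fun ρ e => (h.hr ρ).1 (e ▸ h.hl ρ)
  have hsp : ∀ ρ, l ρ ∈ spt id (M ρ) ∧ r ρ ∈ spt id (M ρ) := fun ρ =>
    (hODA id).2.2.2.2.2.2.2 _ _ _ (h.pth ρ).1 (hne ρ)
  have key : ∀ w ∈ D, ∀ e ∈ Γ \ X, w ∈ e → ∃ ρ, e ∈ M ρ := by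
    intro w hw e he hwe
    rcases h.cov e (mem_sdiff.1 he).1 with h1 | h1 | h1 | h1
    · exact absurd hw (Set.disjoint_left.1 h.dLD (h1 w hwe))
    · exact absurd hw (h1 w hwe).2
    · exact absurd h1 (mem_sdiff.1 he).2
    · exact h1
  have hsub : ∀ ρ, M ρ ⊆ Γ \ X := fun ρ e he =>
    mem_sdiff.2 ⟨h.sub ρ he, fun hx => Finset.disjoint_left.1 (h.xM ρ) hx he⟩
  refine ⟨fun ρ ρ' e => ?_, fun ρ ρ' e => ?_, fun ρ ρ' hρ => ?_, fun ρ => ?_, fun ρ => ?_,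
    fun w hw hs => ?_, fun w hw => ?_, fun e he => ?_⟩
  · by_contra hρ
    exact h.dj ρ ρ' hρ _ (hsp ρ).1 (e ▸ (hsp ρ').1)
  · by_contra hρ
    exact h.dj ρ ρ' hρ _ (hsp ρ).2 (e ▸ (hsp ρ').2)
  · refine Finset.disjoint_left.2 fun e he he' => ?_
    induction e using Sym2.ind with
    | _ a b => exact h.dj ρ ρ' hρ a ⟨_, he, Sym2.mem_mk_left a b⟩ ⟨_, he', Sym2.mem_mk_left a b⟩
  · refine ⟨h.pth ρ, hsub ρ, hne ρ, fun v hv h1 h2 => ?_⟩
    have hvD : v ∈ D := ((h.sp ρ v hv).resolve_right (not_or.2 ⟨h1, h2⟩))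
    have e1 : cut id (Γ \ X) {v} = cut id (M ρ) {v} := by
      refine Subset.antisymm (fun e he => ?_) (cut_mono (hsub ρ))
      obtain ⟨a1, a2, a3⟩ := mem_cut_single.1 he
      obtain ⟨ρ', h3⟩ := key v hvD e a1 a2
      have : ρ = ρ' := by
        by_contra hρ
        exact h.dj ρ ρ' hρ v hv ⟨e, h3, a2⟩
      subst this
      exact mem_cut_single.2 ⟨h3, a2, a3⟩
    have := (hPD1 id).2.1 _ _ _ v (h.pth ρ) hv h1 h2
    unfold dgr at this ⊢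
    rw [e1, this]
  · refine ⟨?_, ((hPD1 id).1 _ _ _ (h.pth ρ) (hne ρ)).1, ((hPD1 id).1 _ _ _ (h.pth ρ) (hne ρ)).2⟩
    have k : ∀ e ∈ M ρ, ∀ w ∈ e, (w ∈ L ↔ w ∈ ({l ρ} : Set V)) := by
      intro e he w hw
      refine ⟨fun hL => ?_, fun hw' => (Set.mem_singleton_iff.1 hw') ▸ h.hl ρ⟩
      rcases h.sp ρ w ⟨e, he, hw⟩ with h1 | h1 | h1
      · exact absurd h1 (Set.disjoint_left.1 h.dLD hL)
      · exact h1
      · exact absurd (h1 ▸ hL) (h.hr ρ).1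
    ext e
    simp only [mem_cut, cr_iff, id]
    refine and_congr_right fun he => ⟨?_, ?_⟩
    · rintro ⟨⟨x, a, b⟩, y, c, d⟩
      exact ⟨⟨x, a, (k e he x a).1 b⟩, y, c, fun f => d ((k e he y c).2 f)⟩
    · rintro ⟨⟨x, a, b⟩, y, c, d⟩
      exact ⟨⟨x, a, (k e he x a).2 b⟩, y, c, fun f => d ((k e he y c).1 f)⟩
  · refine dgr_eq_zero fun ⟨e, he, hwe⟩ => ?_
    obtain ⟨ρ, h1⟩ := key w hw e he hwe
    exact hs ρ ⟨e, h1, hwe⟩
  · refine Subset.antisymm (cut_mono sdiff_subset) fun e he => ?_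
    obtain ⟨a1, a2, a3⟩ := mem_cut_single.1 he
    exact mem_cut_single.2 ⟨mem_sdiff.2 ⟨a1, fun hx => hw (h.xD e hx w a2)⟩, a2, a3⟩
  · obtain ⟨a1, a2⟩ := mem_cut.1 he
    obtain ⟨⟨x, a, b⟩, y, c, d⟩ := cr_iff.1 a2
    rcases h.cov e a1 with h1 | h1 | h1 | h1
    · exact absurd (h1 y c) d
    · exact absurd b (h1 x a).1
    · exact absurd (h.xD e h1 x a) (Set.disjoint_left.1 h.dLD b)
    · exact h1

end Pool.Agent.P.MP_bb4f54_co.T3

end sWAR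

section sTHA
/-! Step THA. -/

set_option autoImplicit false
set_option linter.unusedSectionVars false

namespace Pool.Agent.P.MP_bb4f54_co.T3

open Finset

theorem p_THA (hODA : S_ODA) (hSEG : S_SEG) (hTCB : S_TCB) (hTD0 : S_TD0) :
    S_THA := by
  intro V _ _ Γ u j hT hu hj
  obtain ⟨hjΓ, x, a, e, hx, ha⟩ := mem_cut.1 hj
  have hx' : x = u := hx
  subst hx'
  have hne : x ≠ a := fun h => ha (h ▸ rfl)
  have e' : j = s(x, a) := e
  have three : ∀ w, w ∈ spt id Γ → dgr id Γ w ≠ 2 → dgr id Γ w = 3 := fun w hw h2 => by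
    have h0 := hT.nl.dgr_ne hw
    rcases hT.dg w with h | h | h
    · exact absurd h h0
    · exact absurd h h2
    · exact h
  by_cases h2 : dgr id Γ a = 2
  · obtain ⟨v, n, p, hS, p0, pn, hp, h0, hn⟩ := hTD0 Γ a hT.nl (fun Z hZ hC => by
      obtain ⟨b, hb, c, hc, hbc, b3, c3⟩ := (hTCB id Γ hT).2.2.2.1 Z hZ hC
      exact ⟨b, hb, c, hc, hbc, by omega, by omega⟩) h2
    obtain ⟨-, s2, s3, -⟩ := hSEG Γ v n hS
    obtain ⟨hA, hsp⟩ := s2 0 n (by omega) le_rfl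
    have hja : j ∈ cut id Γ {v p} := by
      rw [hp]
      exact (mem_cut_mk e).2 ⟨hjΓ, Or.inr ⟨rfl, fun h => hne h⟩⟩
    rw [s3 p p0 pn, mem_insert, mem_singleton] at hja
    have e0 : dgr id Γ (v 0) = 3 := three _ (spt_mono hA.2.1 (hsp 0 le_rfl (by omega))) h0
    have en : dgr id Γ (v n) = 3 := three _ (spt_mono hA.2.1 (hsp n (by omega) le_rfl)) hn
    have key : ∃ q, q ≤ n ∧ x = v q ∧ j ∈ ES v 0 n := by
      rcases hja with h | h
      · refine ⟨p - 1, by omega, ?_, mem_ES.2 ⟨p - 1, by omega, by omega, ?_⟩⟩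
        · rw [e', hp] at h
          rcases Sym2.eq_iff.1 h with h | h
          · exact h.1
          · exact absurd h.1 hne
        · rw [h, Nat.sub_add_cancel p0]
      · refine ⟨p + 1, by omega, ?_, mem_ES.2 ⟨p, by omega, pn, h⟩⟩
        rw [e', hp] at h
        rcases Sym2.eq_iff.1 h with h | h
        · exact absurd h.1 hne
        · exact h.1
    obtain ⟨q, hq, rfl, hB⟩ := key
    by_cases q0 : q = 0
    · subst q0
      exact ⟨_, _, hA, hB, en⟩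
    by_cases qn : q = n
    · subst qn
      exact ⟨_, _, hA.symm, hB, e0⟩
    · have := hS.dg q (by omega) (by omega)
      omega
  · refine ⟨{j}, a, ⟨(hODA id).2.2.2.2.2.2.1 j x a e hne, singleton_subset_iff.2 hjΓ, hne, ?_⟩,
      mem_singleton_self j, three a ⟨j, hjΓ, by rw [e]; simp⟩ h2⟩
    rintro w ⟨i, hi, hw⟩ h1 h3
    rw [mem_singleton.1 hi, e, Sym2.mem_iff] at hw
    exact absurd hw (not_or.2 ⟨h1, h3⟩)

end Pool.Agent.P.MP_bb4f54_co.T3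

end sTHA

section sEW
/-! Step EW. -/

set_option autoImplicit false
set_option linter.unusedSectionVars false

namespace Pool.Agent.P.MP_bb4f54_co.T3

open Finset

namespace EWx

lemma sum_upd {ι : Type} [DecidableEq ι] (ω : ι → ℕ) {Z : Finset ι} {j k : ι} (hj : j ∈ Z)
    (hk : k ∉ Z) :
    ∑ i ∈ Z, Function.update ω j (ω j + ω k) i = ∑ i ∈ insert k Z, ω i := by
  rw [sum_update_of_mem hj, sum_insert hk, ← add_sum_erase Z ω hj, sdiff_singleton_eq_erase]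
  ring

end EWx

theorem p_EW (hUNC : S_UNC) (hSUP : S_SUP) (hEW0 : S_EW0) :
    S_EW := by
  intro V ι _ _ _ en Γ ω h
  induction hn : Γ.card using Nat.strong_induction_on generalizing en Γ ω with
  | _ n ih =>
    by_cases h2 : ∃ u, dgr en Γ u = 2
    · obtain ⟨u, hu⟩ := h2
      obtain ⟨j, k, hjk, hc⟩ := card_eq_two.1 hu
      have hk : k ∈ cut en Γ {u} := by rw [hc]; simp
      have hj : j ∈ cut en Γ {u} := by rw [hc]; simp
      obtain ⟨u', e⟩ := Sym2.mem_iff_exists.1 (mem_cut_single.1 hk).2.1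
      have hkΓ := cut_subset hk
      have hj' : j ∈ Γ.erase k := mem_erase.2 ⟨hjk, cut_subset hj⟩
      obtain ⟨Z, hZ, hcy, hle⟩ := ih _ (hn ▸ card_erase_lt_of_mem hkΓ) (ctr en {u} u') (Γ.erase k)
        (Function.update ω j (ω j + ω k)) (hSUP en Γ u u' j k h hc hjk e) rfl
      have hkZ : k ∉ Z := fun hh => notMem_erase k Γ (hZ hh)
      have hl := (hUNC en Γ u u' j k h.nl hc hjk e).2.2 Z hZ hcy
      rw [EWx.sum_upd ω hj' (notMem_erase k Γ), insert_erase hkΓ] at hle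
      by_cases hjZ : j ∈ Z
      · rw [EWx.sum_upd ω hjZ hkZ] at hle
        exact ⟨insert k Z, insert_subset hkΓ (hZ.trans (erase_subset k Γ)), hl.1 hjZ, hle⟩
      · rw [sum_update_of_notMem hjZ] at hle
        exact ⟨Z, hZ.trans (erase_subset k Γ), hl.2 hjZ, hle⟩
    · push Not at h2
      obtain ⟨v, hv⟩ := h.br
      refine hEW0 en Γ (univ.filter fun v => dgr en Γ v = 3) ω ⟨h.nl, fun i hi w hw => ?_,
        fun w hw => (mem_filter.1 hw).2, fun Y ⟨a, ha, ha'⟩ ⟨b, hb, hb'⟩ =>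
          h.c3 Y ⟨a, ha', (mem_filter.1 ha).2⟩ ⟨b, hb', (mem_filter.1 hb).2⟩⟩
        ⟨v, mem_filter.2 ⟨mem_univ _, hv⟩⟩
      have h0 := h.nl.dgr_ne ⟨i, hi, hw⟩
      have h1 := h.dg w
      have h3 := h2 w
      exact mem_filter.2 ⟨mem_univ _, by omega⟩

end Pool.Agent.P.MP_bb4f54_co.T3

end sEW

section sCLS
/-! Step CLS. -/

set_option autoImplicit false
set_option linter.unusedSectionVars false

namespace Pool.Agent.P.MP_bb4f54_co.T3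

open Finset

theorem p_CLS (hMON : S_MON) (hTHR3 : S_THR3) (hCXB : S_CXB) (hRG : S_RG) (hK2S : S_K2S) :
    S_CLS := by
  intro V _ _ G S T O Γ v n pos R m mw σ e w Ys q i hx hs hw i0 i8
  have ui := hs.uc i (by omega)
  have dz := hx.c0.sk.dT _ ui.hz
  have vz := hx.c0.td.vx _ dz
  by_cases hz : v (σ i).z = e
  · obtain ⟨a1, a2, -⟩ := (hRG (σ i).sw hx ui.sw).1 (hz.trans (hs.on i (by omega)).symm)
    have g1 := hs.gap 0 i i0 (by omega)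
    have g2 := hs.gap i 8 i8 (by omega)
    change pos (σ i).z ≤ pos (σ i).x + _ at a1
    change pos (σ i).x ≤ pos (σ i).z + _ at a2
    exact Or.inl ⟨pos (σ i).z, by omega, by omega, by rw [← hz, vz]⟩
  obtain ⟨Y, y1, y2, y3, y4, y5⟩ := hK2S 0 i _ _ hx hs i0 (by omega) (Or.inl rfl)
    (hs.off 0 (by omega)) (Or.inr rfl) hz
  obtain ⟨Y', z1, z2, z3, z4, z5⟩ := hK2S i 8 _ _ hx hs i8 (by omega) (Or.inr rfl) hz
    (Or.inl rfl) (hs.off 8 (by omega))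
  obtain ⟨-, q1, q2⟩ := hw.hq 0 (by omega)
  obtain ⟨-, r1, r2⟩ := hw.hq 8 (by omega)
  rw [← q2] at y3
  rw [← r2] at z5
  by_cases hy : v (σ i).z = v (σ 0).y
  · obtain ⟨b, -, b1, b2⟩ := hw.on _ ui.hz hy
    refine Or.inr (Or.inl ⟨b, ?_, ?_, b2.symm⟩)
    · exact (hMON Γ w mw _ b _ _ Ys Y hx.c0.tc hw.rw.th hw.re.th.d0 hw.re.th.d1 hw.c3 y1 hw.e0 y2
        hw.em y4 hw.w0 hw.wm q1.le b1.le y3 (b2 ▸ y5)).1
    · exact (hMON Γ w mw b _ _ _ Ys Y' hx.c0.tc hw.rw.th hw.re.th.d0 hw.re.th.d1 hw.c3 z1 hw.e0 z2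
        hw.em z4 hw.w0 hw.wm b1.le r1.le (b2 ▸ z3) z5).1
  · exact Or.inr (Or.inr ⟨hz, hy, hTHR3 Γ e w _ m mw _ _ _ (pos (σ i).z) Ys Y Y' hx.c0.tc hw.re.th
      hw.rw.th ((hCXB hx.c0).1 _ ui.hz).th hw.dj hw.c3 y1 z1 hw.e0 hw.w0 hw.em hw.wm y2 y4 z2 z4
      q1.le r1.le (hx.c0.td.pn _ dz).le y3 z5 (vz.symm ▸ y5) (vz.symm ▸ z3)⟩)

end Pool.Agent.P.MP_bb4f54_co.T3

end sCLS

section sMON
/-! Step MON. -/

set_option autoImplicit false
set_option linter.unusedSectionVars false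

namespace Pool.Agent.P.MP_bb4f54_co.T3

open Finset

theorem p_MON (hNCR : S_NCR) (hSGC : S_SGC) :
    S_MON := by
  intro V _ _ Γ w m a b p q Y Y' hT hw hp hq hY hY' p1 p2 q1 q2 h0 hm ha hb wa wb
  obtain ⟨s1, s2⟩ := hSGC Γ w m Y' hT hY' ⟨p, p2, hp⟩ ⟨q, q2, hq⟩ hw.1
  have hne : ¬ (w 0 ∈ Y' ↔ w m ∈ Y') := fun h =>
    wb ((s1 h b hb).2 ((s1 h a ha).1 wa))
  have h1 : w 0 ∈ Y' := by
    by_contra h1
    have h2 : w m ∈ Y' := by
      by_contra h2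
      exact hne ⟨fun h => absurd h h1, fun h => absurd h h2⟩
    exact hNCR id Γ Y Y' p (w 0) (w m) q hT hY hY' hp hw.d0 hw.d1 hq p1 p2 h0 h1 hm h2 q1 q2
  have h2 : w m ∉ Y' := fun h2 => hne ⟨fun _ => h2, fun _ => h1⟩
  obtain ⟨t, -, ht, -⟩ := s2 h1 h2
  refine ⟨?_, h1, h2⟩
  have h3 := (ht a ha).1 wa
  have h4 : ¬ b ≤ t := fun h => wb ((ht b hb).2 h)
  omega

end Pool.Agent.P.MP_bb4f54_co.T3

end sMON
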