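import Pool.Agent.P.MP_bb4f54_co.T3.Iface2
import Pool.Agent.P.MP_bb4f54_co.T3.Iface1
import Pool.Agent.P.MP_bb4f54_co.T3.Iface7
import Pool.Agent.P.MP_bb4f54_co.T3.Iface3
import Pool.Agent.P.MP_bb4f54_co.T3.Iface6

section sB1
/-! Step B1. -/

set_option autoImplicit false
set_option linter.unusedSectionVars false

namespace Pool.Agent.P.MP_bb4f54_co.T3

open Finset

namespace B1x

variable {V ι : Type} [Fintype V] [DecidableEq V] [DecidableEq ι]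
  {en : ι → Sym2 V} {Γ Z : Finset ι} {W : Finset V} {ρ ua ub uc u v w w' wa wa' wb wb' : V}
  {p : V → ι → ℝ} {a b c e g g' ga ga' gb gb' i : ι}

lemma cut_of (hi : i ∈ Z) (h : i ∈ cut en Γ {v}) : i ∈ cut en Z {v} :=
  mem_cut.2 ⟨hi, (mem_cut.1 h).2⟩

lemma val3 (hp : ∀ v i, 0 ≤ p v i) {x y z : V} (hx : x ∈ W) (hy : y ∈ W) (hz : z ∈ W)
    (hx' : x ≠ ρ) (hy' : y ≠ ρ) (hz' : z ≠ ρ) (hxy : x ≠ y) (hxz : x ≠ z) (hyz : y ≠ z) :
    PP en Z p x + PP en Z p y + PP en Z p z ≤ val en W ρ p Z := by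
  have h := val_ge (en := en) (Z := Z) (W := W) (ρ := ρ) hp (U := {x, y, z}) (by
    intro t ht
    simp only [mem_insert, mem_singleton] at ht
    rcases ht with rfl | rfl | rfl <;> exact mem_erase.2 ⟨‹_›, ‹_›⟩)
  rw [sum_insert (by simp [hxy, hxz]), sum_pair hyz] at h
  linarith

lemma root (h : Loc en Γ W ρ p a b c ua ub uc) :
    a ∈ cut en Γ {ρ} ∧ a ∈ cut en Γ {ua} ∧ ua ∈ W ∧ ua ≠ ρ ∧ a ≠ b ∧ a ≠ c := by
  have h1 : a ∈ cut en Γ {ρ} := by rw [h.rz.rt.st]; simp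
  obtain ⟨h2, -, h3⟩ := mem_cut_single.1 h1
  have h4 : ua ∈ en a := by rw [h.rz.ea]; simp
  have h5 : (cut en Γ {ρ}).card = 3 := h.rz.rt.cub.dg ρ h.rz.rt.hρ
  rw [h.rz.rt.st] at h5
  obtain ⟨h6, h7, -⟩ := ne_of_card_three h5
  refine ⟨h1, mem_cut_single.2 ⟨h2, h4, h3⟩, h.rz.rt.cub.sp a h2 ua h4, ?_, h6, h7⟩
  rintro rfl
  exact h3 (by rw [h.rz.ea]; simp)

lemma uab (hGIR : S_GIR) (h : Loc en Γ W ρ p a b c ua ub uc) : ua ≠ ub := by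
  rintro rfl
  have h1 := (hGIR en Γ W h.rz.rt.cub).2.2.2.1 (le_trans (by norm_num) h.five)
  exact (root h).2.2.2.2.1 (h1 a (cut_subset (root h).1) b (cut_subset (root h.s12).1)
    (h.rz.ea.trans h.rz.eb.symm))

lemma fork (hc : Cub en Γ W) (hu : u ∈ W) (f : Fk en Γ u e g g' w w') :
    g ∈ cut en Γ {u} ∧ g' ∈ cut en Γ {u} ∧ e ≠ g ∧ e ≠ g' ∧ g ≠ g' := by
  have h5 : (cut en Γ {u}).card = 3 := hc.dg u hu
  rw [f.st] at h5
  obtain ⟨h6, h7, h8⟩ := ne_of_card_three h5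
  exact ⟨by rw [f.st]; simp, by rw [f.st]; simp, h6, h7, h8⟩

/-- The second end of a fork edge at `ua` is neither the root nor `ub`. -/
lemma far (hGIR : S_GIR) (h : Loc en Γ W ρ p a b c ua ub uc) (f : Fk en Γ ua a ga ga' wa wa') :
    wa' ≠ ρ ∧ wa' ≠ ub := by
  obtain ⟨r1, r2, r3, r4, r5, r6⟩ := root h
  obtain ⟨f1, f2, f3, f4, f5⟩ := fork h.rz.rt.cub r3 f
  have G := hGIR en Γ W h.rz.rt.cub
  constructor
  · rintro rfl
    exact f4 (G.2.2.2.1 (le_trans (by norm_num) h.five) a (cut_subset r1) ga' (cut_subset f2)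
      (by rw [h.rz.ea, f.e2, Sym2.eq_swap]))
  · rintro rfl
    exact (G.2.2.2.2 h.nt).1 h.five ρ ua wa' ⟨a, cut_subset r1, h.rz.ea⟩
      ⟨ga', cut_subset f2, f.e2⟩ (Ad.symm ⟨b, cut_subset (root h.s12).1, h.rz.eb⟩)

/-- A cycle avoiding `b` and the fork edge `ga'`, through `a` and a further edge. -/
lemma cyc (hCY1 : S_CY1) (hGIR : S_GIR) (h : Loc en Γ W ρ p a b c ua ub uc)
    (f : Fk en Γ ua a ga ga' wa wa') (hi : i ∈ Γ) (h1 : i ≠ b) (h2 : i ≠ ga') :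
    ∃ Z ⊆ Γ, Cy en Z ∧ a ∈ Z ∧ c ∈ Z ∧ ga ∈ Z ∧ i ∈ Z ∧ b ∉ Z := by
  obtain ⟨r1, r2, r3, r4, r5, r6⟩ := root h
  obtain ⟨s1, s2, s3, s4, s5, s6⟩ := root h.s12
  obtain ⟨f1, f2, f3, f4, f5⟩ := fork h.rz.rt.cub r3 f
  obtain ⟨g1, g2⟩ := far hGIR h f
  have hab := uab hGIR h
  have G := ((hGIR en Γ W h.rz.rt.cub).2.2.2.2 h.nt).2.2.2
  obtain ⟨Z, hZ, hc, ha, hiZ⟩ := G b (cut_subset s1) ga' (cut_subset f2) (by
      intro v hv hv'
      rw [h.rz.eb] at hv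
      rw [f.e2] at hv'
      rcases Sym2.mem_iff.1 hv with rfl | rfl <;> rcases Sym2.mem_iff.1 hv' with h3 | h3
      · exact r4 h3.symm
      · exact g1 h3.symm
      · exact hab h3.symm
      · exact g2 h3.symm)
    a (by simp [cut_subset r1, r5, f4]) i (by simp [hi, h1, h2])
  have hZ' : Z ⊆ Γ := hZ.trans sdiff_subset
  have nb : b ∉ Z := fun hh => by simpa using (mem_sdiff.1 (hZ hh)).2
  have ng : ga' ∉ Z := fun hh => by simpa using (mem_sdiff.1 (hZ hh)).2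
  have C := (hCY1 en).2.2.2.2.1
  refine ⟨Z, hZ', hc, ha, ?_, ?_, hiZ, nb⟩
  · exact C Γ Z a c b ρ hc.2.1 hZ' ha r1 (by rw [h.rz.rt.st, pair_comm]) nb
  · exact C Γ Z a ga ga' ua hc.2.1 hZ' ha r2 (by rw [f.st]) ng

/-- The cycle through `a, c` that uses both fork edges at `ub`. -/
lemma cyc2 (hCY1 : S_CY1) (hGIR : S_GIR) (h : Loc en Γ W ρ p a b c ua ub uc)
    (f : Fk en Γ ua a ga ga' wa wa') (f' : Fk en Γ ub b gb gb' wb wb') :
    ∃ Z ⊆ Γ, Cy en Z ∧ a ∈ Z ∧ c ∈ Z ∧ ga ∈ Z ∧ gb ∈ Z ∧ gb' ∈ Z := by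
  obtain ⟨s1, s2, s3, s4, s5, s6⟩ := root h.s12
  obtain ⟨f1, f2, f3, f4, f5⟩ := fork h.rz.rt.cub s3 f'
  obtain ⟨g1, g2⟩ := far hGIR h f
  have hab := uab hGIR h
  have hne : gb ≠ ga' := by
    rintro rfl
    have h3 : ub ∈ en gb := (mem_cut_single.1 f1).2.1
    rw [f.e2] at h3
    rcases Sym2.mem_iff.1 h3 with h4 | h4
    · exact hab h4.symm
    · exact g2 h4.symm
  obtain ⟨Z, hZ, hc, m1, m2, m3, m4, m5⟩ := cyc hCY1 hGIR h f (cut_subset f1) f3.symm hne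
  refine ⟨Z, hZ, hc, m1, m2, m3, m4, ?_⟩
  refine (hCY1 en).2.2.2.2.1 Γ Z gb gb' b ub hc.2.1 hZ m4 f1 ?_ m5
  rw [f'.st]
  intro t ht
  simp only [mem_insert, mem_singleton] at ht ⊢
  tauto

lemma heavy (hGIR : S_GIR) (hc : Cub en Γ W) (p : V → ι → ℝ) (hu : u ∈ W)
    (he : e ∈ cut en Γ {u}) :
    ∃ g g' w w', Fk en Γ u e g g' w w' ∧ p u g' ≤ p u g := by
  obtain ⟨g, g', w, w', f⟩ := (hGIR en Γ W hc).2.1 u hu e he
  rcases le_total (p u g') (p u g) with h | h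
  · exact ⟨g, g', w, w', f, h⟩
  · exact ⟨g', g, w', w, f.swap, h⟩

lemma heaviest (hc : Cub en Γ W) (p : V → ι → ℝ) (hu : u ∈ W) :
    ∃ h ∈ cut en Γ {u}, PP en Γ p u ≤ 3 * p u h := by
  have h5 : (cut en Γ {u}).card = 3 := hc.dg u hu
  obtain ⟨h, hh, hm⟩ := exists_max_image (cut en Γ {u}) (p u) (card_pos.1 (by omega))
  refine ⟨h, hh, ?_⟩
  have := sum_le_card_nsmul (cut en Γ {u}) (p u) (p u h) hm
  rw [h5] at this
  simpa [PP] using this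

end B1x

open B1x in
theorem p_B1 (hCY1 : S_CY1) (hGIR : S_GIR) :
    S_B1 := by
  intro V ι _ _ _ en Γ W ρ ua ub uc p a b c h y hy y1 y2 y3
  have hc := h.rz.rt.cub
  have hp := h.rz.rt.pos
  obtain ⟨r1, r2, r3, r4, r5, r6⟩ := root h
  obtain ⟨s1, s2, s3, s4, s5, s6⟩ := root h.s12
  have hab := uab hGIR h
  obtain ⟨ga, ga', wa, wa', fa, la⟩ := heavy hGIR hc p r3 r2
  obtain ⟨gb, gb', wb, wb', fb, lb⟩ := heavy hGIR hc p s3 s2
  obtain ⟨a1, a2, a3, a4, a5⟩ := fork hc r3 fa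
  obtain ⟨b1, b2, b3, b4, b5⟩ := fork hc s3 fb
  obtain ⟨k, hk, lk⟩ := heaviest hc p hy
  obtain ⟨Za, za, ca, ma1, ma2, ma3, ma4, ma5⟩ := cyc2 hCY1 hGIR h.s12 fb fa
  obtain ⟨Zb, zb, cb, mb1, mb2, mb3, mb4, mb5⟩ := cyc2 hCY1 hGIR h fa fb
  have hZc : ∃ Z ⊆ Γ, Cy en Z ∧ a ∈ Z ∧ b ∈ Z ∧ ga ∈ Z ∧ (k ∈ Z ∨ k ∈ Za ∨ p y k = 0) := by
    by_cases k1 : k = c
    · obtain ⟨Z, hZ, c1, m1, m2, m3, -, -⟩ := cyc hCY1 hGIR h.s23 fa (cut_subset r1) r6 a4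
      refine ⟨Z, hZ, c1, m1, m2, m3, Or.inr (Or.inr ?_)⟩
      have h3 : y ∈ en k := (mem_cut_single.1 hk).2.1
      rw [k1, h.rz.ec] at h3
      rcases Sym2.mem_iff.1 h3 with h4 | h4
      · exact absurd h4 y1
      · rw [k1, h4]; exact h.rz.zc
    · by_cases k2 : k = ga'
      · obtain ⟨Z, hZ, c1, m1, m2, m3, -, -⟩ := cyc hCY1 hGIR h.s23 fa (cut_subset r1) r6 a4
        exact ⟨Z, hZ, c1, m1, m2, m3, Or.inr (Or.inl (k2 ▸ ma5))⟩
      · obtain ⟨Z, hZ, c1, m1, m2, m3, m4, -⟩ := cyc hCY1 hGIR h.s23 fa (cut_subset hk) k1 k2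
        exact ⟨Z, hZ, c1, m1, m2, m3, Or.inl m4⟩
  obtain ⟨Zc, zc, cc, mc1, mc2, mc3, mc4⟩ := hZc
  refine ⟨Za, za, Zb, zb, Zc, zc, ca, cb, cc, ma1, ma2, mb1, mb2, mc1, mc2, ?_⟩
  have va := val3 (en := en) (Z := Za) (ρ := ρ) hp r3 s3 hy r4 s4 y1 hab y2.symm y3.symm
  have vb := val3 (en := en) (Z := Zb) (ρ := ρ) hp r3 s3 hy r4 s4 y1 hab y2.symm y3.symm
  have vc := val3 (en := en) (Z := Zc) (ρ := ρ) hp r3 s3 hy r4 s4 y1 hab y2.symm y3.symm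
  have e1 := pp_three (p := p) fa.st (hc.dg ua r3)
  have e2 := pp_three (p := p) fb.st (hc.dg ub s3)
  have z1 := h.rz.za
  have z2 := h.rz.zb
  have p1 := pp_ge2 hp (cut_of ma4 a1) (cut_of ma5 a2) a5
  have p2 := pp_ge1 hp (cut_of ma3 b1)
  have p3 := pp_ge1 hp (cut_of mb3 a1)
  have p4 := pp_ge2 hp (cut_of mb4 b1) (cut_of mb5 b2) b5
  have p5 := pp_ge1 hp (cut_of mc3 a1)
  have p6 : p ub gb' ≤ PP en Zc p ub := by
    by_cases hg : gb' ∈ Zc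
    · exact pp_ge1 hp (cut_of hg b2)
    · exact lb.trans (pp_ge1 hp (cut_of ((hCY1 en).2.2.2.2.1 Γ Zc b gb gb' ub cc.2.1 zc mc2 s2
        (by rw [fb.st]) hg) b1))
  have n1 : 0 ≤ PP en Za p y := pp_nonneg hp
  have n2 : 0 ≤ PP en Zb p y := pp_nonneg hp
  have n3 : 0 ≤ PP en Zc p y := pp_nonneg hp
  have p7 : p y k ≤ PP en Za p y + PP en Zc p y := by
    rcases mc4 with h4 | h4 | h4
    · have := pp_ge1 hp (cut_of h4 hk); linarith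
    · have := pp_ge1 hp (cut_of h4 hk); linarith
    · linarith
  linarith

end Pool.Agent.P.MP_bb4f54_co.T3

end sB1

section sGIR
/-! Step GIR. -/

set_option autoImplicit false
set_option linter.unusedSectionVars false

namespace Pool.Agent.P.MP_bb4f54_co.T3

open Finset

namespace GIRx

variable {V ι : Type} [Fintype V] [DecidableEq V] [DecidableEq ι] {en : ι → Sym2 V}
  {Γ : Finset ι} {W : Finset V} {x y : V} {i : ι}

lemma split (U : Set V) (hx : x ∈ U) : {v | Rc en (ins en Γ U) x v} ⊆ U ∧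
    (cut en Γ {v | Rc en (ins en Γ U) x v}).card +
      (cut en Γ (U \ {v | Rc en (ins en Γ U) x v})).card ≤ (cut en Γ U).card := by
  set Y := {v | Rc en (ins en Γ U) x v}
  have h1 : Y ⊆ U := fun v hv => Rc.mem_of_cut hv (eq_empty_of_forall_notMem fun i hi => by
    obtain ⟨hi, -, b, hb, h⟩ := mem_cut.1 hi |>.imp_right cr_iff.1
    exact h ((mem_ins.1 hi).2 b hb)) hx
  have h2 : ∀ i ∈ Γ, ∀ a b, en i = s(a, b) → a ∈ Y → b ∈ U → b ∈ Y := fun i hi a b e ha hb =>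
    Rc.trans' ha (Rc.step (mem_ins.2 ⟨hi, fun v hv => by
      rcases Sym2.mem_iff.1 (e ▸ hv) with rfl | rfl
      exacts [h1 ha, hb]⟩) e)
  refine ⟨h1, ?_⟩
  rw [← card_union_of_disjoint]
  · refine card_le_card (union_subset (fun i hi => ?_) fun i hi => ?_)
    · obtain ⟨hi, a, b, e, ha, hb⟩ := mem_cut.1 hi
      exact mem_cut.2 ⟨hi, a, b, e, h1 ha, fun h => hb (h2 i hi a b e ha h)⟩
    · obtain ⟨hi, a, b, e, ha, hb⟩ := mem_cut.1 hi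
      exact mem_cut.2 ⟨hi, a, b, e, ha.1, fun h => hb ⟨h, fun h' =>
        ha.2 (h2 i hi b a (e.trans Sym2.eq_swap) h' ha.1)⟩⟩
  · refine disjoint_left.2 fun i hi hj => ?_
    obtain ⟨hi, a, b, e, ha, hb⟩ := mem_cut.1 hi
    rcases ((mem_cut_mk e).1 hj).2 with h | h
    exacts [h.1.2 ha, hb (h2 i hi a b e ha h.1.1)]

lemma cut_one (h : Cub en Γ W) {Y : Set V} (hx : x ∈ W) (hY : x ∈ Y)
    (h1 : ∀ a ∈ W, ∀ b ∈ W, a ∈ Y → b ∈ Y → a = b) : cut en Γ Y = cut en Γ {x} := by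
  ext i
  simp only [mem_cut, cr_iff]
  refine and_congr_right fun hi => ?_
  have h2 : ∀ v ∈ en i, v ∈ Y ↔ v ∈ ({x} : Set V) := fun v hv =>
    ⟨(h1 v (h.sp i hi v hv) x hx · hY), fun e => e ▸ hY⟩
  exact and_congr (exists_congr fun v => and_congr_right (h2 v))
    (exists_congr fun v => and_congr_right fun hv => (h2 v hv).not)

lemma ends (h : Cub en Γ W) (hi : i ∈ Γ) (e : en i = s(x, y)) : x ≠ y ∧ x ∈ W ∧ y ∈ W :=
  ⟨fun h' => h.nl i hi (e ▸ Sym2.mk_isDiag_iff.2 h'), h.sp i hi x (e ▸ Sym2.mem_mk_left _ _),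
    h.sp i hi y (e ▸ Sym2.mem_mk_right _ _)⟩

lemma hand (hPAR : S_PAR) (h : Cub en Γ W) {U : Finset V} (hU : U ⊆ W) {A : Finset ι}
    (hA : ∀ i ∈ A, i ∈ Γ ∧ ∀ v ∈ en i, v ∈ U) :
    2 * A.card + (cut en Γ ↑U).card ≤ 3 * U.card := by
  have h1 := (hPAR en Γ).2.2.2.2.2.2 h.nl U
  rw [sum_congr rfl fun v hv => h.dg v (hU hv), sum_const, smul_eq_mul] at h1
  have h2 : A.card ≤ (ins en Γ ↑U).card := card_le_card fun i hi => mem_ins.2 (hA i hi)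
  omega

end GIRx

open GIRx in
theorem p_GIR (hPAR : S_PAR) (hCY2 : S_CY2) :
    S_GIR := by
  intro V ι _ _ _ en Γ W h
  have h1 : ∀ v, dgr en Γ v ≤ 3 := fun v => by
    by_cases hv : v ∈ W
    · exact (h.dg v hv).le
    · rw [dgr_eq_zero fun ⟨i, hi, e⟩ => hv (h.sp i hi v e)]
      exact Nat.zero_le _
  refine ⟨h1, fun u hu e he => ?_, fun U ⟨w, hw, hU⟩ h5 x hx y hy hxU hyU => ?_,
    fun h3 i hi j hj e => ?_, fun hN => ?_⟩
  · obtain ⟨g, g', -, hg⟩ := card_eq_two.1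
      ((card_erase_of_mem he).trans (congrArg (· - 1) (h.dg u hu)))
    have h2 : cut en Γ {u} = {e, g, g'} := by rw [← hg, insert_erase he]
    obtain ⟨w, hw⟩ := Sym2.mem_iff_exists.1 (mem_cut_single.1 (h2.ge (by simp : g ∈ _))).2.1
    obtain ⟨w', hw'⟩ := Sym2.mem_iff_exists.1 (mem_cut_single.1 (h2.ge (by simp : g' ∈ _))).2.1
    exact ⟨g, g', w, w', h2, hw, hw'⟩
  · by_contra hc
    obtain ⟨h2, h3⟩ := split (en := en) (Γ := Γ) U hxU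
    have h4 := h.c3 {v | Rc en (ins en Γ U) x v} ⟨x, hx, Rc.refl'⟩ ⟨y, hy, hc⟩
    have h6 := h.c3 (U \ {v | Rc en (ins en Γ U) x v}) ⟨y, hy, hyU, hc⟩ ⟨w, hw, fun h => hU h.1⟩
    omega
  · by_contra hc
    obtain ⟨⟨x, y⟩, e'⟩ := Quot.exists_rep (en i)
    have e1 : en i = s(x, y) := e'.symm
    obtain ⟨hxy, hx, hy⟩ := ends h hi e1
    have h2 := hand hPAR h (U := {x, y}) (by simp [insert_subset_iff, hx, hy]) (A := {i, j})
      (by simp [hi, hj, ← e, e1])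
    rw [card_pair hc, card_pair hxy] at h2
    obtain ⟨w, hw, hw'⟩ := exists_mem_notMem_of_card_lt_card (s := {x, y}) (t := W)
      (by rw [card_pair hxy]; omega)
    have h4 := h.c3 ↑({x, y} : Finset V) ⟨x, hx, by simp⟩ ⟨w, hw, hw'⟩
    omega
  have h6 : ∀ Y : Set V, (cut en Γ Y).card ≤ 3 → (∃ v ∈ W, v ∈ Y) → (∃ v ∈ W, v ∉ Y) →
      ∃ v ∈ W, cut en Γ Y = cut en Γ {v} := fun Y hY ⟨x, hx, hx'⟩ ⟨y, hy, hy'⟩ => by
    rcases hN Y hY with h2 | h2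
    · exact ⟨x, hx, cut_one h hx hx' h2⟩
    · exact ⟨y, hy, cut_compl.symm.trans (cut_one h (Y := Yᶜ) hy hy' h2)⟩
  refine ⟨fun h5 x y z ⟨i, hi, ei⟩ ⟨j, hj, ej⟩ ⟨k, hk, ek⟩ => ?_, h6,
    fun U ⟨w, hw, w', hw', hne, hU, hU'⟩ h5 x hx y hy hxU hyU => ?_,
    fun i hi j hj hij => hCY2 en _ (h.nl.mono sdiff_subset)
      (fun w => (dgr_mono sdiff_subset w).trans (h1 w))
      fun Y ⟨x, ⟨a, ha, hx⟩, hx'⟩ ⟨y, ⟨b, hb, hy⟩, hy'⟩ => ?_⟩
  · obtain ⟨hxy, hx, hy⟩ := ends h hi ei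
    obtain ⟨hyz, -, hz⟩ := ends h hj ej
    obtain ⟨hzx, -, -⟩ := ends h hk ek
    have h2 := hand hPAR h (U := {x, y, z}) (by simp [insert_subset_iff, hx, hy, hz])
      (A := {i, j, k}) (by simp [hi, hj, hk, ei, ej, ek])
    have h3 : ({x, y, z} : Finset V).card = 3 := card_eq_three.2 ⟨x, y, z, hxy, hzx.symm, hyz, rfl⟩
    have h4 : ({i, j, k} : Finset ι).card = 3 := by
      refine card_eq_three.2 ⟨i, j, k, ?_, ?_, ?_, rfl⟩ <;> rintro rfl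
      · simpa [hxy, hzx.symm] using ei.symm.trans ej
      · simpa [hxy.symm, hzx.symm, hyz] using ei.symm.trans ek
      · simpa [hxy.symm, hyz] using ej.symm.trans ek
    rcases hN ↑({x, y, z} : Finset V) (by omega) with h7 | h7
    · exact hxy (h7 x hx y hy (by simp) (by simp))
    · have h8 := le_card_sdiff {x, y, z} W
      obtain ⟨a, ha, b, hb, hab⟩ := one_lt_card.1 (show 1 < (W \ {x, y, z}).card by omega)
      rw [mem_sdiff] at ha hb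
      exact hab (h7 a ha.1 b hb.1 ha.2 hb.2)
  · refine or_iff_not_imp_left.2 fun hc z hz hzU => ?_
    obtain ⟨h2, h3⟩ := split (en := en) (Γ := Γ) U hxU
    have h4 := h.c3 {v | Rc en (ins en Γ U) x v} ⟨x, hx, Rc.refl'⟩ ⟨y, hy, hc⟩
    have h7 := h.c3 (U \ {v | Rc en (ins en Γ U) x v}) ⟨y, hy, hyU, hc⟩ ⟨w, hw, fun h => hU h.1⟩
    have h8 : ∀ Y ⊆ U, (cut en Γ Y).card ≤ 3 → ∀ a ∈ W, ∀ b ∈ W, a ∈ Y → b ∈ Y → a = b :=
      fun Y hY h9 => (hN Y h9).resolve_right fun h0 =>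
        hne (h0 w hw w' hw' (fun h => hU (hY h)) fun h => hU' (hY h))
    by_cases hr : Rc en (ins en Γ U) x z
    · exact .inl (h8 _ h2 (by omega) z hz x hx hr Rc.refl')
    · exact .inr (h8 (U \ {v | Rc en (ins en Γ U) x v}) Set.sdiff_subset (by omega) z hz y hy
        ⟨hzU, hr⟩ ⟨hyU, hc⟩)
  · have hx2 : ∃ v ∈ W, v ∈ Y := ⟨x, h.sp a (mem_sdiff.1 ha).1 x hx, hx'⟩
    have hy2 : ∃ v ∈ W, v ∉ Y := ⟨y, h.sp b (mem_sdiff.1 hb).1 y hy, hy'⟩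
    have h2 := card_sdiff_add_card_inter (cut en Γ Y) {i, j}
    have h3 := h.c3 Y hx2 hy2
    rw [cut_sdiff]
    by_cases h4 : (cut en Γ Y).card ≤ 3
    · obtain ⟨v, -, hv⟩ := h6 Y h4 hx2 hy2
      have h5 : (cut en Γ Y ∩ {i, j}).card ≤ 1 := card_le_one.2 fun c hc d hd => by
        simp only [hv, mem_inter, mem_cut_single, mem_insert, mem_singleton] at hc hd
        rcases hc.2 with rfl | rfl <;> rcases hd.2 with rfl | rfl
        exacts [rfl, (hij v hc.1.2.1 hd.1.2.1).elim, (hij v hd.1.2.1 hc.1.2.1).elim, rfl]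
      omega
    · have h5 : (cut en Γ Y ∩ {i, j}).card ≤ 2 :=
        (card_le_card inter_subset_right).trans card_le_two
      omega

end Pool.Agent.P.MP_bb4f54_co.T3

end sGIR

section sRG
/-! Step RG. -/

set_option autoImplicit false
set_option linter.unusedSectionVars false

namespace Pool.Agent.P.MP_bb4f54_co.T3

open Finset

namespace RGx

variable {V : Type} [Fintype V] [DecidableEq V] {G : SimpleGraph V} {T O : Finset V}
  {Γ ρ ρ' : Finset (Sym2 V)} {x x' t t' w : V}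

lemma half (hODA : S_ODA) (hSPP : S_SPP) (h : Rung G Γ O ρ x t) (hw : w ∈ spt id ρ) (hO : w ∈ O)
    (ht : t ∉ O) : ∃ A ⊆ ρ, Pth id A x w ∧ ∀ u ∈ spt id A, u ∈ O ∨ u = x := by
  obtain ⟨A, B, e, -, h1, h2, h3⟩ := (hSPP id ρ x t h.pth).1 w hw
  have hs : A ⊆ ρ := e ▸ subset_union_left
  refine ⟨A, hs, h1, fun u hu => ?_⟩
  rcases h.sp u (spt_mono hs hu) with h4 | h4 | h4
  · exact Or.inl h4
  · exact Or.inr h4
  · have hn : w ≠ t := fun e => ht (e ▸ hO)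
    have h5 := ((hODA id).2.2.2.2.2.2.2 B w t h2.1 hn).2
    exact absurd (h3 t (h4 ▸ hu) h5).symm hn

lemma core (hODA : S_ODA) (hRCP : S_RCP) (hSPP : S_SPP) (h : Rung G Γ O ρ x t)
    (h' : Rung G Γ O ρ' x' t') (hw : w ∈ spt id ρ) (hw' : w ∈ spt id ρ') (hO : w ∈ O)
    (ht : t ∉ O) (ht' : t' ∉ O) (hx : x ≠ x') :
    ∃ A, Rung G Γ O A x x' ∧ A.card ≤ ρ.card + ρ'.card := by
  obtain ⟨A, hA, h1, h2⟩ := half hODA hSPP h hw hO ht
  obtain ⟨B, hB, h3, h4⟩ := half hODA hSPP h' hw' hO ht'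
  obtain ⟨C, hC, h5⟩ := (hRCP id).1 _ x x' ((hODA id).2.2.1 A B x w x' h1.1 h3.1.symm)
  have hs : C ⊆ A ∪ B := hC.trans symmDiff_le_sup
  have hs' : C ⊆ ρ ∪ ρ' := hs.trans (union_subset_union hA hB)
  refine ⟨C, ⟨h5, hx, hs'.trans (union_subset h.sub h'.sub),
    (disjoint_union_left.2 ⟨h.dj, h'.dj⟩).mono_left hs', fun u hu => ?_⟩,
    (card_le_card hs').trans (card_union_le _ _)⟩
  have h6 := spt_mono (en := id) hs hu
  rw [spt_union] at h6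
  rcases h6 with h6 | h6
  · exact (h2 u h6).imp id Or.inl
  · exact (h4 u h6).imp id Or.inr

lemma edg (hODA : S_ODA) (h : Rung G Γ O ρ x t) :
    ∃ k, G.Adj t k ∧ s(t, k) ∉ Γ ∧ k ∈ spt id ρ ∧ (k ∈ O ∨ k = x) := by
  obtain ⟨e, he, ht⟩ := ((hODA id).2.2.2.2.2.2.2 ρ x t h.pth.1 h.ne).2
  obtain ⟨k, rfl⟩ := Sym2.mem_iff_exists.1 (show t ∈ e from ht)
  have h1 : G.Adj t k := mk_mem_EG.1 (h.sub he)
  have h2 : k ∈ spt id ρ := ⟨_, he, Sym2.mem_mk_right _ _⟩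
  refine ⟨k, h1, disjoint_left.1 h.dj he, h2, ?_⟩
  rcases h.sp k h2 with h3 | h3 | h3
  · exact Or.inl h3
  · exact Or.inr h3
  · exact absurd h3.symm h1.ne

lemma full (hODA : S_ODA) (hRCP : S_RCP) (hSPP : S_SPP) (hFRE : S_FRE) (g3 : G3 G)
    (sk : Sk G Γ T O) (h : Rung G Γ O ρ x t) (h' : Rung G Γ O ρ' x' t') (hw : w ∈ spt id ρ)
    (hw' : w ∈ spt id ρ') (ht : t ∈ T) (ht' : t' ∈ T) (hx : x ≠ x') :
    ∃ A, Rung G Γ O A x x' ∧ A.card ≤ ρ.card + ρ'.card := by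
  obtain ⟨-, f2, f3, -⟩ := hFRE g3 sk
  by_cases hO : w ∈ O
  · exact core hODA hRCP hSPP h h' hw hw' hO (f3 t ht) (f3 t' ht') hx
  rcases (h.sp w hw).resolve_left hO with e | e <;>
    rcases (h'.sp w hw').resolve_left hO with e' | e'
  · exact absurd (e.symm.trans e') hx
  · exact ⟨ρ', (e.symm.trans e') ▸ h'.symm, Nat.le_add_left _ _⟩
  · exact ⟨ρ, (e.symm.trans e') ▸ h, Nat.le_add_right _ _⟩
  · obtain rfl : t = t' := e.symm.trans e'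
    obtain ⟨k, a1, a2, a3, a4⟩ := edg hODA h
    obtain ⟨k', b1, b2, b3, b4⟩ := edg hODA h'
    obtain rfl : k = k' := f2 t ht k k' a1 a2 b1 b2
    by_cases hk : k ∈ O
    · exact core hODA hRCP hSPP h h' a3 b3 hk (f3 t ht) (f3 t ht) hx
    · exact absurd ((a4.resolve_left hk).symm.trans (b4.resolve_left hk)) hx

lemma onr (hRG0 : S_RG0) {R : ℕ} {σ : St V} (g3 : G3 G) (sk : Sk G Γ T O)
    (h : Ucl G Γ T O R σ) (hw : w ∈ σ.zn) :
    ∃ A, ∃ u ∈ T, Rung G Γ O A σ.x u ∧ A.card ≤ R + 1 ∧ w ∈ spt id A := by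
  obtain ⟨a1, a2, -, -, a3, -⟩ := hRG0 g3 sk h
  obtain ⟨b1, b2, -⟩ := hRG0 g3 sk h.sw
  rcases a3 w hw with h1 | h1
  · exact ⟨σ.ry, σ.y, h.hy, a1, a2, h1⟩
  · exact ⟨σ.rz, σ.z, h.hz, b1, b2, h1⟩

end RGx

open RGx in
theorem p_RG (hODA : S_ODA) (hRCP : S_RCP) (hSPP : S_SPP) (hPD1 : S_PD1) (hTDF : S_TDF) (hFRE : S_FRE) (hRG0 : S_RG0) :
    S_RG := by
  intro V _ _ G S T O Γ v n pos R σ hC h
  have _ : S_PD1 := hPD1
  have g3 := hC.c0.g3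
  have sk := hC.c0.sk
  have td := hC.c0.td
  refine ⟨fun hv => ?_, fun σ' h' hv hp w hw hw' => ?_⟩
  · obtain ⟨a1, a2, -, -, -, a3, -⟩ := hRG0 g3 sk h
    have k1 := hC.k1 σ.x h.hx σ.y h.hy hv _ a1
    have k2 := hC.k1 σ.y h.hy σ.x h.hx hv.symm _ a1.symm
    refine ⟨by omega, by omega, fun e => ?_⟩
    obtain ⟨e1, e2⟩ := a3 e
    rw [e2, card_singleton] at k1 k2
    have dx := sk.dT _ h.hx
    have dy := sk.dT _ h.hy
    have hn : pos σ.y ≠ pos σ.x := fun e =>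
      h.yx (((hTDF Γ v n pos td σ.x σ.y dx dy).1 hv).2 e)
    have hf := h.fr
    rw [e1] at hf
    rcases Nat.lt_or_gt_of_ne hn with hl | hl
    · have h1 := (td.sg _ dy).ed _ (td.pn _ dy)
      rw [td.vx _ dy, show pos σ.y + 1 = pos σ.x by omega, hv, td.vx _ dx, Sym2.eq_swap] at h1
      exact hf h1
    · have h1 := (td.sg _ dx).ed _ (td.pn _ dx)
      rw [td.vx _ dx, show pos σ.x + 1 = pos σ.y by omega, ← hv, td.vx _ dy] at h1
      exact hf h1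
  · obtain ⟨A, u, hu, a1, a2, a3⟩ := onr hRG0 g3 sk h hw
    obtain ⟨B, u', hu', b1, b2, b3⟩ := onr hRG0 g3 sk h' hw'
    have hx : σ.x ≠ σ'.x := fun e => by rw [e] at hp; omega
    obtain ⟨C, c1, c2⟩ := full hODA hRCP hSPP hFRE g3 sk a1 b1 a3 b3 hu hu' hx
    have k1 := hC.k1 σ.x h.hx σ'.x h'.hx hv _ c1
    omega

end Pool.Agent.P.MP_bb4f54_co.T3

end sRG

section sMAT
/-! Step MAT. -/

set_option autoImplicit false
set_option linter.unusedSectionVars false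

namespace Pool.Agent.P.MP_bb4f54_co.T3

open Finset

namespace MATx

/-- Removing a vertex of degree three with two edges in a 3-cut leaves a 2-cut. -/
lemma key {V ι : Type} [DecidableEq ι] {en : ι → Sym2 V} {Γ : Finset ι} {Y : Set V} {u : V}
    {e₁ e₂ : ι} (hu : u ∈ Y) (hne : e₁ ≠ e₂) (h1 : e₁ ∈ cut en Γ Y) (h2 : e₂ ∈ cut en Γ Y)
    (k1 : e₁ ∈ cut en Γ {u}) (k2 : e₂ ∈ cut en Γ {u}) (hY : (cut en Γ Y).card ≤ 3)
    (hd : dgr en Γ u = 3) : (cut en Γ (Y \ {u})).card ≤ 2 := by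
  have hsub : cut en Γ (Y \ {u}) ⊆ (cut en Γ Y \ {e₁, e₂}) ∪ (cut en Γ {u} \ {e₁, e₂}) := by
    intro i hi
    obtain ⟨hiΓ, x, y, e, hx, hy⟩ := mem_cut.1 hi
    have hxu : x ≠ u := fun h => hx.2 h
    by_cases hyY : y ∈ Y
    · have hyu : y = u := by
        by_contra h
        exact hy ⟨hyY, h⟩
      have hn : i ∉ cut en Γ Y := by
        rw [mem_cut_mk e]
        rintro ⟨-, ⟨-, h⟩ | ⟨-, h⟩⟩
        · exact h hyY
        · exact h hx.1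
      refine mem_union_right _ (mem_sdiff.2 ⟨?_, ?_⟩)
      · rw [mem_cut_mk e]
        exact ⟨hiΓ, Or.inr ⟨hyu, hxu⟩⟩
      · simp only [mem_insert, mem_singleton]
        rintro (rfl | rfl)
        · exact hn h1
        · exact hn h2
    · have hyu : y ≠ u := fun h => hyY (h ▸ hu)
      have hn : i ∉ cut en Γ {u} := by
        rw [mem_cut_mk e]
        rintro ⟨-, ⟨h, -⟩ | ⟨h, -⟩⟩
        · exact hxu h
        · exact hyu h
      refine mem_union_left _ (mem_sdiff.2 ⟨?_, ?_⟩)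
      · rw [mem_cut_mk e]
        exact ⟨hiΓ, Or.inl ⟨hx.1, hyY⟩⟩
      · simp only [mem_insert, mem_singleton]
        rintro (rfl | rfl)
        · exact hn k1
        · exact hn k2
  have hp : ({e₁, e₂} : Finset ι).card = 2 := card_pair hne
  have s1 : ({e₁, e₂} : Finset ι) ⊆ cut en Γ Y := by
    intro i hi
    simp only [mem_insert, mem_singleton] at hi
    rcases hi with rfl | rfl
    exacts [h1, h2]
  have s2 : ({e₁, e₂} : Finset ι) ⊆ cut en Γ {u} := by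
    intro i hi
    simp only [mem_insert, mem_singleton] at hi
    rcases hi with rfl | rfl
    exacts [k1, k2]
  have c1 := card_sdiff_add_card_eq_card s1
  have c2 := card_sdiff_add_card_eq_card s2
  have c3 := (card_le_card hsub).trans (card_union_le _ _)
  unfold dgr at hd
  omega

end MATx

theorem p_MAT (hODA : S_ODA) (hARC : S_ARC) :
    S_MAT := by
  intro V ι _ _ _ en Γ B₁ B₂ Y u w a₁ a₂ hT hY hu hw huw du dw A1 A2 hD n1 n2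
  obtain ⟨Y₁, p1, p2, -, -, p5, p6⟩ := (hARC en Γ B₁ a₁ u hT.nl A1.symm).2.2 Y
  have out : ∀ {B : Finset ι} {a : V}, Arc en Γ B u a → w ∉ spt en B ∨ w = a ∨ w = u := by
    intro B a hA
    by_contra hc
    simp only [not_or, not_not] at hc
    have := hA.2.2.2 w hc.1 hc.2.2 hc.2.1
    omega
  have u1 : u ∈ Y₁ := (p1 u (Or.inr (Or.inr rfl))).2 hu
  have w1 : w ∈ Y₁ := (p1 w (out A1)).2 hw
  have m2 : a₂ ∉ Y₁ := by
    by_cases h : a₂ ∈ spt en B₁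
    · exact fun h' => n1 ((p2 a₂ h A2.2.2.1.symm).1 h')
    · exact fun h' => n2 ((p1 a₂ (Or.inl h)).1 h')
  obtain ⟨Y₂, q1, -, q3, -, q5, q6⟩ := (hARC en Γ B₂ a₂ u hT.nl A2.symm).2.2 Y₁
  have u2 : u ∈ Y₂ := (q1 u (Or.inr (Or.inr rfl))).2 u1
  have w2 : w ∈ Y₂ := (q1 w (out A2)).2 w1
  obtain ⟨p7, p8⟩ := p5 (fun h => n1 (h.2 hu))
  obtain ⟨q7, q8⟩ := q5 (fun h => m2 (h.2 u1))
  obtain ⟨e₁, he₁⟩ : (cut en B₁ Y₁).Nonempty := card_pos.1 (by omega)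
  obtain ⟨e₂, he₂⟩ : (cut en B₂ Y₂).Nonempty := card_pos.1 (by omega)
  have b1 : e₁ ∈ B₁ := cut_subset he₁
  have b2 : e₂ ∈ B₂ := cut_subset he₂
  have hne : e₁ ≠ e₂ := fun h => disjoint_left.1 hD b1 (h ▸ b2)
  have h1 : e₁ ∈ cut en Γ Y₂ := by
    have : e₁ ∈ cut en (Γ \ B₂) Y₁ :=
      mem_cut.2 ⟨mem_sdiff.2 ⟨A1.2.1 b1, disjoint_left.1 hD b1⟩, (mem_cut.1 he₁).2⟩
    rw [← q3] at this
    exact cut_mono sdiff_subset this
  have h2 : e₂ ∈ cut en Γ Y₂ := cut_mono A2.2.1 he₂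
  have k1 : e₁ ∈ cut en Γ {u} := cut_mono A1.2.1 (p7 ▸ he₁)
  have k2 : e₂ ∈ cut en Γ {u} := cut_mono A2.2.1 (q7 ▸ he₂)
  have c2 := MATx.key u2 hne h1 h2 k1 k2 (by omega) du
  have c3 := hT.c3 (Y₂ \ {u}) ⟨w, ⟨w2, fun h => huw (Eq.symm h)⟩, dw⟩
    ⟨u, fun h => h.2 rfl, du⟩
  omega

end Pool.Agent.P.MP_bb4f54_co.T3

end sMAT

section sSAC
/-! Step SAC. -/

set_option autoImplicit false
set_option linter.unusedSectionVars false

namespace Pool.Agent.P.MP_bb4f54_co.T3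

open Finset

namespace SACx

lemma dj_of_spt {V : Type} {A B : Finset (Sym2 V)} (h : ∀ w ∈ spt id A, w ∉ spt id B) :
    Disjoint A B := by
  rw [disjoint_left]
  intro e h1 h2
  induction e using Sym2.ind with
  | _ x y => exact h x ⟨_, h1, Sym2.mem_mk_left x y⟩ ⟨_, h2, Sym2.mem_mk_left x y⟩

end SACx

theorem p_SAC (hODA : S_ODA) (hSEG : S_SEG) (hTCB : S_TCB) (hMAT : S_MAT) (hADD : S_ADD) (hDEL : S_DEL) :
    S_SAC := by
  intro V _ _ Γ A₁ A₂ v n a b y₁ y₂ hT hv h0 hab hbn E1 E2 d1 d2 hy D1 D2 hs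
  obtain ⟨s1, s2, -, s4, -, -⟩ := hSEG Γ v n hv.sg
  obtain ⟨a1, a1'⟩ := (hODA id).2.2.2.2.2.2.2 A₁ _ _ E1.pth.1 E1.ne
  obtain ⟨a2, a2'⟩ := (hODA id).2.2.2.2.2.2.2 A₂ _ _ E2.pth.1 E2.ne
  have vΓ : ∀ i, i ≤ n → v i ∈ spt id Γ := fun i hi =>
    spt_mono (s1 0 n (Nat.zero_le _) le_rfl).2.1 ((s2 0 n hv.pos le_rfl).2 i (Nat.zero_le _) hi)
  have n1 : ∀ i, i ≤ n → i ≠ a → v i ∉ spt id A₁ := fun i hi hne h => by
    rcases E1.sp _ h (vΓ i hi) with e | e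
    · exact hne (hv.sg.inj i a hi (by omega) e)
    · exact (hy i hi).1 e
  have n2 : ∀ i, i ≤ n → i ≠ b → v i ∉ spt id A₂ := fun i hi hne h => by
    rcases E2.sp _ h (vΓ i hi) with e | e
    · exact hne (hv.sg.inj i b hi (by omega) e)
    · exact (hy i hi).2 e
  have hs' : ∀ w ∈ spt id A₂, w ∉ spt id A₁ := fun w h2 h1 => hs w h1 h2
  obtain ⟨T1, r1, g1, g1', c1⟩ := hADD id Γ A₁ (v a) y₁ hT E1 (hv.sg.dg a h0 (by omega)) d1 D1
  have e1 : ∀ w, w ∉ spt id A₁ → dgr id (Γ ∪ A₁) w = dgr id Γ w := fun w h => by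
    rw [dgr, c1 w h, dgr]
  have E2' : Ear id (Γ ∪ A₁) A₂ (v b) y₂ :=
    ⟨E2.pth, E2.ne, disjoint_union_right.2 ⟨E2.dj, SACx.dj_of_spt hs'⟩, fun w h1 h2 => by
      rw [spt_union] at h2
      rcases h2 with h2 | h2
      · exact E2.sp w h1 h2
      · exact absurd h2 (hs' w h1)⟩
  obtain ⟨T2, r2, g2, g2', c2⟩ := hADD id (Γ ∪ A₁) A₂ (v b) y₂ T1 E2'
    (by rw [e1 _ (hs' _ a2)]; exact hv.sg.dg b (by omega) hbn) (by rw [e1 _ (hs' _ a2')]; exact d2)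
    ((hTCB id _ T1).2.2.2.2 Γ subset_union_left _ _ D2)
  have e2 : ∀ w, w ∉ spt id A₂ → dgr id (Γ ∪ A₁ ∪ A₂) w = dgr id (Γ ∪ A₁) w := fun w h => by
    rw [dgr, c2 w h, dgr]
  have sub : Γ ⊆ Γ ∪ A₁ ∪ A₂ := subset_union_left.trans subset_union_left
  have e3 : ∀ i, i ≤ n → i ≠ a → i ≠ b → dgr id (Γ ∪ A₁ ∪ A₂) (v i) = dgr id Γ (v i) :=
    fun i hi h1 h2 => by rw [e2 _ (n2 i hi h2), e1 _ (n1 i hi h1)]
  have arc : ∀ c d, c < d → d ≤ n → (∀ i, c < i → i < d → i ≠ a ∧ i ≠ b) →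
      Arc id (Γ ∪ A₁ ∪ A₂) (ES v c d) (v c) (v d) := fun c d hcd hd hi => by
    obtain ⟨p1, p2, p3, p4⟩ := (s2 c d hcd hd).1
    refine ⟨p1, p2.trans sub, p3, fun w hw h1 h2 => ?_⟩
    obtain ⟨i, i1, i2, rfl⟩ := (s1 c d hcd.le hd).2.2.2 w hw
    have j1 : i ≠ c := fun e => h1 (by rw [e])
    have j2 : i ≠ d := fun e => h2 (by rw [e])
    obtain ⟨k1, k2⟩ := hi i (by omega) (by omega)
    rw [e3 i (by omega) k1 k2]
    exact p4 _ hw h1 h2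
  have ab := arc a b hab hbn.le fun i _ _ => by omega
  have oa := arc 0 a h0 (by omega) fun i _ _ => by omega
  have bn := arc b n hbn le_rfl fun i _ _ => by omega
  have r1' : Arc id (Γ ∪ A₁ ∪ A₂) A₁ (v a) y₁ :=
    ⟨r1.1, r1.2.1.trans subset_union_left, r1.2.2.1, fun w hw h1 h2 => by
      rw [e2 w (hs w hw)]; exact r1.2.2.2 w hw h1 h2⟩
  have ga : dgr id (Γ ∪ A₁ ∪ A₂) (v a) = 3 := by rw [e2 _ (hs _ a1)]; exact g1
  have g0 : dgr id (Γ ∪ A₁ ∪ A₂) (v 0) = 3 := by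
    rw [e3 0 (Nat.zero_le _) (by omega) (by omega)]; exact hv.d0
  have sab : ES v a b ⊆ Γ := (s1 a b hab.le hbn.le).2.1
  rcases hDEL id _ (ES v a b) (v a) (v b) (v 0) T2 ab ga g2 g0
    (fun e => by have := hv.sg.inj 0 a (Nat.zero_le _) (by omega) e; omega)
    (fun e => by have := hv.sg.inj 0 b (Nat.zero_le _) (by omega) e; omega) with
    h | ⟨Y, ya, yb, hc, ⟨u, u1, u2, u3⟩, ⟨u', u1', u2', u3'⟩⟩
  · exact Or.inl h
  have hc' : (cut id (Γ ∪ A₁ ∪ A₂) Yᶜ).card ≤ 3 := by rwa [cut_compl]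
  refine Or.inr ⟨Y, (card_le_card (cut_mono sub)).trans hc, ?_, ya, ?_, ?_, yb, ?_⟩
  · by_contra h
    exact hMAT id _ _ _ Y (v a) u _ _ T2 hc ya u1 u2.symm ga u3 ab oa.symm
      (s4 0 a b (Nat.zero_le _) hab.le hbn.le).2.symm yb h
  · by_contra h
    exact hMAT id _ _ _ Y (v a) u _ _ T2 hc ya u1 u2.symm ga u3 ab r1'
      (E1.dj.symm.mono_left sab) yb h
  · intro h
    exact hMAT id _ _ _ Yᶜ (v b) u' _ _ T2 hc' yb u1' u2'.symm g2 u3' ab.symm bn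
      (s4 a b n hab.le hbn.le le_rfl).2 (fun h' => h' ya) (fun h' => h' h)
  · intro h
    exact hMAT id _ _ _ Yᶜ (v b) u' _ _ T2 hc' yb u1' u2'.symm g2 u3' ab.symm r2
      (E2.dj.symm.mono_left sab) (fun h' => h' ya) (fun h' => h' h)

end Pool.Agent.P.MP_bb4f54_co.T3

end sSAC

section sRM3
/-! Step RM3. -/

set_option autoImplicit false
set_option linter.unusedSectionVars false

namespace Pool.Agent.P.MP_bb4f54_co.T3

open Finset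

theorem p_RM3 (hRCP : S_RCP) (hTCB : S_TCB) (hWAR : S_WAR) (hWAC : S_WAC) (hRM3a : S_RM3a) :
    S_RM3 := by
  intro V _ _ Γ X L D l r M hW hT
  classical
  obtain ⟨-, -, -, hA, hM, hD0, hD1, -⟩ := hWAR hW
  have hout : ∀ w, w ∉ D → dgr id (Γ \ X) w = dgr id Γ w := fun w hw => by
    rw [dgr, dgr, hD1 w hw]
  have hin : ∀ w ∈ D, dgr id (Γ \ X) w = 0 ∨ dgr id (Γ \ X) w = 2 := fun w hw => by
    by_cases h : ∃ ρ, w ∈ spt id (M ρ)
    · obtain ⟨ρ, hρ⟩ := h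
      refine Or.inr ((hA ρ).2.2.2 w hρ ?_ ?_)
      · rintro rfl
        exact Set.disjoint_left.1 hW.dLD (hW.hl ρ) hw
      · rintro rfl
        exact (hW.hr ρ).2 hw
    · exact Or.inl (hD0 w hw fun ρ hρ => h ⟨ρ, hρ⟩)
  have h3 : ∀ w, dgr id (Γ \ X) w = 3 → w ∉ D ∧ dgr id Γ w = 3 := fun w h => by
    have hw : w ∉ D := fun hw => by rcases hin w hw with h' | h' <;> omega
    exact ⟨hw, (hout w hw).symm.trans h⟩
  have hone : ∀ Z : Set V, (cut id Γ Z).card ≠ 1 := fun Z h => by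
    obtain ⟨e, he⟩ := card_pos.1 (h.ge : 0 < (cut id Γ Z).card)
    obtain ⟨he, ⟨x, hx, hxZ⟩, y, hy, hyZ⟩ := (mem_cut.1 he).imp_right cr_iff.1
    have := (hTCB id Γ hT).2.1 Z ⟨x, hxZ, hT.nl.dgr_ne ⟨e, he, hx⟩⟩
      ⟨y, hyZ, hT.nl.dgr_ne ⟨e, he, hy⟩⟩
    omega
  have hcard : ∀ (Y : Set V) (a : Finset (Fin 3)), cut id (Γ \ X) Y = ∅ →
      (∀ ρ, ρ ∈ a ↔ l ρ ∈ Y) → a.card ≠ 1 := fun Y a hY ha => by
    obtain ⟨c1, -, c3⟩ := hWAC Y a (univ.filter fun ρ => r ρ ∈ Y) hW ha (fun ρ => by simp)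
    rw [hY, card_empty] at c3
    have := hone (L ∩ Y)
    omega
  have hall : ∀ (Y : Set V) (v : V), cut id (Γ \ X) Y = ∅ → (∀ ρ, l ρ ∈ Y) → v ∉ Y →
      dgr id (Γ \ X) v ≠ 0 → False := fun Y v hY hl hv hd => by
    have hr : ∀ ρ, r ρ ∈ Y := fun ρ =>
      (((hRCP id).2.2.1 _ _ _ (hW.pth ρ).1).mono' (hA ρ).2.1).mem_of_cut hY (hl ρ)
    have hvD : v ∉ D := fun h => hd (hD0 v h fun ρ hρ =>
      hv ((((hRCP id).2.2.2.1 _ _ _ _ (hW.pth ρ) hρ).mono' (hA ρ).2.1).mem_of_cut hY (hl ρ)))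
    rw [hout v hvD] at hd
    obtain ⟨c1, c2, c3⟩ := hWAC Yᶜ ∅ ∅ hW (fun ρ => by simp [hl ρ]) (fun ρ => by simp [hr ρ])
    rw [cut_compl (Γ := Γ \ X), hY, card_empty] at c3
    rw [card_empty] at c1 c2
    have hl0 : dgr id Γ (l 0) ≠ 0 := by
      have h1 := dgr_mono (en := id) (hW.sub 0) (l 0)
      have h2 : dgr id (M 0) (l 0) = 1 := (hM 0).2.1
      omega
    by_cases hvL : v ∈ L
    · have := card_pos.2 (hT.c1 (L ∩ Yᶜ) ⟨v, ⟨hvL, hv⟩, hd⟩ ⟨l 0, fun h => h.2 (hl 0), hl0⟩)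
      omega
    · have := card_pos.2 (hT.c1 ((L ∪ D)ᶜ ∩ Yᶜ) ⟨v, ⟨fun h => h.elim hvL hvD, hv⟩, hd⟩
        ⟨l 0, fun h => h.2 (hl 0), hl0⟩)
      omega
  refine ⟨hT.nl.mono sdiff_subset, fun v => ?_, ?_, ?_, ?_⟩
  · by_cases hv : v ∈ D
    · exact (hin v hv).imp_right Or.inl
    · rw [hout v hv]; exact hT.dg v
  · obtain ⟨u, hu, hd⟩ := (hRM3a hW hT).1
    exact ⟨u, (hout u (Set.disjoint_left.1 hW.dLD hu)).trans hd⟩
  · rintro Y ⟨u, hu, hd⟩ ⟨u', hu', hd'⟩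
    exact (hRM3a hW hT).2 Y u u' hu hu' (h3 u hd).1 (h3 u' hd').1 (h3 u hd).2 (h3 u' hd').2
  · rintro Y ⟨u, hu, hd⟩ ⟨u', hu', hd'⟩
    by_contra hc
    have hY : cut id (Γ \ X) Y = ∅ := not_nonempty_iff_eq_empty.1 hc
    have hY' : cut id (Γ \ X) Yᶜ = ∅ := cut_compl.trans hY
    have key : ∀ a : Finset (Fin 3), a.card ≠ 1 → aᶜ.card ≠ 1 → a = ∅ ∨ a = univ := by decide
    have ha : ∀ ρ, ρ ∈ (univ.filter fun ρ => l ρ ∈ Y) ↔ l ρ ∈ Y := fun ρ => by simp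
    rcases key _ (hcard Y _ hY ha) (hcard Yᶜ _ hY' fun ρ => by simp) with h | h
    · exact hall Yᶜ u hY' (fun ρ hρ => by simpa [h] using (ha ρ).2 hρ) (fun h' => h' hu) hd
    · exact hall Y u' hY (fun ρ => (ha ρ).1 (by rw [h]; exact mem_univ ρ)) hu' hd'

end Pool.Agent.P.MP_bb4f54_co.T3

end sRM3

section sEE
/-! Step EE. -/

set_option autoImplicit false
set_option linter.unusedSectionVars false

namespace Pool.Agent.P.MP_bb4f54_co.T3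

open Finset

namespace EEx

variable {V ι : Type} [Fintype V] [DecidableEq V] [DecidableEq ι]
  {en : ι → Sym2 V} {Γ : Finset ι} {W : Finset V} {ρ ua ub uc : V} {p : V → ι → ℝ} {a b c : ι}

/-- The first root edge has a fork at its other end. -/
lemma fork (hGIR : S_GIR) (h : Rz en Γ W ρ p a b c ua ub uc) :
    ∃ g g' w w', Fk en Γ ua a g g' w w' := by
  have ha : a ∈ cut en Γ {ρ} := by rw [h.rt.st]; simp
  obtain ⟨h1, _, h3⟩ := mem_cut_single.1 ha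
  have hu : ua ∈ en a := by rw [h.ea]; simp
  exact (hGIR en Γ W h.rt.cub).2.1 ua (h.rt.cub.sp a h1 ua hu) a (mem_cut_single.2 ⟨h1, hu, h3⟩)

lemma nn_nonneg (hp : ∀ v i, 0 ≤ p v i) : 0 ≤ NN en Γ W ρ p :=
  Real.rpow_nonneg (sum_nonneg fun _ _ => Real.rpow_nonneg (pp_nonneg hp) _) _

lemma step (hGIR : S_GIR) (hTR0 : S_TR0) (hE1 : S_E1) (hTHE : S_THE) (hK4 : S_K4) (hE3 : S_E3)
    (hE4 : S_E4) (ih : EH V ι W.card) (h : Rz en Γ W ρ p a b c ua ub uc) :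
    Tri en Γ W ρ p a b c (2 * NN en Γ W ρ p) := by
  by_cases hn : NTF en Γ W
  swap
  · exact hE1 ih h.rt hn
  by_cases h1 : ua = ub
  · exact hTHE h h1
  by_cases h2 : ua = uc
  · exact (hTHE h.s23 h2).s23
  by_cases h3 : ub = uc
  · exact (hTHE h.s12.s23 h3).s23.s12
  by_cases h4 : W.card ≤ 4
  · exact hK4 h h1 h2 h3 h4
  have hl : Loc en Γ W ρ p a b c ua ub uc := ⟨h, hn, by omega⟩
  rcases (nn_nonneg (en := en) (Γ := Γ) (W := W) (ρ := ρ) h.rt.pos).eq_or_lt with h0 | h0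
  · rw [← h0, mul_zero]; exact hTR0 h.rt
  obtain ⟨ga, ga', wa, wa', fa⟩ := fork hGIR h
  obtain ⟨gb, gb', wb, wb', fb⟩ := fork hGIR h.s12
  obtain ⟨gc, gc', wc, wc', fc⟩ := fork hGIR hl.s13.rz
  by_cases ba : Blk (fun v => PP en Γ p v / NN en Γ W ρ p) ua wa wa'
  swap
  · exact hE3 ih hl fa h0 ba
  by_cases bb : Blk (fun v => PP en Γ p v / NN en Γ W ρ p) ub wb wb'
  swap
  · exact (hE3 ih hl.s12 fb h0 bb).s12
  by_cases bc : Blk (fun v => PP en Γ p v / NN en Γ W ρ p) uc wc wc'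
  swap
  · exact (hE3 ih hl.s13 fc h0 bc).s13
  exact hE4 hl fa fb fc h0 ba bb bc

end EEx

theorem p_EE (hGIR : S_GIR) (hTR0 : S_TR0) (hE0 : S_E0) (hE1 : S_E1) (hTHE : S_THE) (hK4 : S_K4) (hE3 : S_E3) (hE4 : S_E4) :
    S_EE := by
  intro V ι _ _ _ n
  induction n with
  | zero => intro en Γ W ρ p a b c hW; omega
  | succ n ih =>
    intro en Γ W ρ p a b c hW h
    have ih' : EH V ι W.card := fun en' Γ' W' ρ' p' a' b' c' hW' h' =>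
      ih en' Γ' W' ρ' p' a' b' c' (by omega) h'
    obtain ⟨⟨ua, ub, uc, hz⟩, hr⟩ := hE0 h
    exact hr (EEx.step hGIR hTR0 hE1 hTHE hK4 hE3 hE4 ih' hz)

end Pool.Agent.P.MP_bb4f54_co.T3

end sEE

section sTR0
/-! Step TR0. -/

set_option autoImplicit false
set_option linter.unusedSectionVars false

namespace Pool.Agent.P.MP_bb4f54_co.T3

open Finset

namespace TR0x

lemma one (hCY1 : S_CY1) {V ι : Type} [Fintype V] [DecidableEq V] [DecidableEq ι]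
    {en : ι → Sym2 V} {Γ : Finset ι} {W : Finset V} {ρ : V} {p : V → ι → ℝ} {a b c : ι}
    (h : Rt en Γ W ρ p a b c) : ∃ Z ⊆ Γ, Cy en Z ∧ b ∈ Z ∧ c ∈ Z := by
  obtain ⟨-, -, h3, -, h5, -⟩ := hCY1 en
  have hd : ({a, b, c} : Finset ι).card = 3 := by
    rw [← h.st]; exact h.cub.dg ρ h.hρ
  obtain ⟨hab, -, -⟩ := ne_of_card_three hd
  have hb : b ∈ cut en Γ {ρ} := by rw [h.st]; simp
  have hbΓ : b ∈ Γ := cut_subset hb
  obtain ⟨Z, hZ, hc, hbZ⟩ := h3 (Γ.erase a) b (mem_erase.2 ⟨hab.symm, hbΓ⟩) (by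
    intro Y hY
    have hbY : b ∈ cut en (Γ.erase a) Y := by rw [hY]; simp
    obtain ⟨⟨x, hx, hxY⟩, y, hy, hyY⟩ := cr_iff.1 (mem_cut.1 hbY).2
    have h3' := h.cub.c3 Y ⟨x, h.cub.sp b hbΓ x hx, hxY⟩ ⟨y, h.cub.sp b hbΓ y hy, hyY⟩
    have hs : cut en Γ Y ⊆ {a, b} := by
      intro i hi
      by_cases hia : i = a
      · simp [hia]
      · have : i ∈ cut en (Γ.erase a) Y :=
          mem_cut.2 ⟨mem_erase.2 ⟨hia, (mem_cut.1 hi).1⟩, (mem_cut.1 hi).2⟩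
        rw [hY] at this
        simp [mem_singleton.1 this]
    have := (card_le_card hs).trans (card_le_two (a := a) (b := b))
    omega)
  have hZΓ : Z ⊆ Γ := hZ.trans (erase_subset _ _)
  refine ⟨Z, hZΓ, hc, hbZ, h5 Γ Z b c a ρ hc.2.1 hZΓ hbZ hb ?_ ?_⟩
  · rw [h.st]; intro i hi
    simp only [mem_insert, mem_singleton] at hi ⊢
    tauto
  · intro ha
    exact (mem_erase.1 (hZ ha)).1 rfl

end TR0x

theorem p_TR0 (hCY1 : S_CY1) :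
    S_TR0 := by
  intro V ι _ _ _ en Γ W ρ p a b c h
  obtain ⟨Za, h1, c1, m1, m2⟩ := TR0x.one hCY1 h
  obtain ⟨Zb, h2, c2, m3, m4⟩ := TR0x.one hCY1 h.s12
  obtain ⟨Zc, h3, c3, m5, m6⟩ := TR0x.one hCY1 h.s23.s12
  refine ⟨Za, h1, Zb, h2, Zc, h3, c1, c2, c3, m1, m2, m3, m4, m5, m6, ?_⟩
  have e1 := val_nonneg (en := en) (Z := Za) (W := W) (ρ := ρ) h.pos
  have e2 := val_nonneg (en := en) (Z := Zb) (W := W) (ρ := ρ) h.pos
  have e3 := val_nonneg (en := en) (Z := Zc) (W := W) (ρ := ρ) h.pos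
  linarith

end Pool.Agent.P.MP_bb4f54_co.T3

end sTR0

section sF1a
/-! Step F1a. -/

set_option autoImplicit false
set_option linter.unusedSectionVars false

namespace Pool.Agent.P.MP_bb4f54_co.T3

open Finset

theorem p_F1a (hFRE : S_FRE) (hF1a1 : S_F1a1) (hF1a2 : S_F1a2) :
    S_F1a := by
  classical
  intro V _ _ G Γ T O r P hG hS hP
  have hTO : ∀ u ∈ T, u ∉ O := fun u h1 h2 => by
    have h3 := hS.dT u h1
    have h4 := hS.dO u h2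
    omega
  have h1 : ∀ x, ∃ k z, x ∈ P → x ∈ T ∧ k ∈ O ∧ G.Adj x k ∧ z ≠ k ∧
      ∀ y ∈ T, y ≠ x → y ≠ z → ¬ OW G (↑O \ {z}) (2 * r + 1) k y := by
    intro x
    by_cases hx : x ∈ P
    · obtain ⟨h2, k, h3, h4, z, h5, h6⟩ := hP x hx
      exact ⟨k, z, fun _ => ⟨h2, h3, h4, h5, h6⟩⟩
    · exact ⟨x, x, fun h => absurd h hx⟩
  choose k z h using h1
  rw [mul_comm (r + 1), mul_comm 2]
  refine card_mul_le_card_mul (fun x w => w ∈ Bl G O (z x) r (k x)) (fun x hx => ?_)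
    fun w _ => ?_
  · obtain ⟨h2, h3, -, h5, h6⟩ := h x hx
    refine (hF1a1 r x (k x) (z x) hG hS h2 h3 h5 h6).trans (card_le_card fun w hw => ?_)
    exact (mem_bipartiteAbove _).2 ⟨by rw [Bl] at hw; exact mem_of_mem_filter _ hw, hw⟩
  · by_contra hc
    obtain ⟨a, ha, b, hb, c, hc, h1, h2, h3⟩ := two_lt_card.1 (not_le.1 hc)
    rw [mem_bipartiteBelow] at ha hb hc
    refine hF1a2 (G := G) r ![a, b, c] (fun i => k (![a, b, c] i)) (fun i => z (![a, b, c] i)) w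
      hTO ?_ fun i => ?_
    · intro i j hij
      fin_cases i <;> fin_cases j <;> simp_all
    · have h4 : ![a, b, c] i ∈ P ∧ w ∈ Bl G O (z (![a, b, c] i)) r (k (![a, b, c] i)) := by
        fin_cases i
        exacts [ha, hb, hc]
      obtain ⟨h5, h6, h7, -, h8⟩ := h _ h4.1
      exact ⟨h5, h6, h7, h8, h4.2⟩

end Pool.Agent.P.MP_bb4f54_co.T3

end sF1a

section sA9
/-! Step A9. -/

set_option autoImplicit false
set_option linter.unusedSectionVars false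

namespace Pool.Agent.P.MP_bb4f54_co.T3

open Finset

theorem p_A9 (hVIA : S_VIA) (hDIA : S_DIA) :
    S_A9 := by
  intro V _ _ G O Φ LA LB x k a b hAl hx hk hxk hA hB hd xA xB kA kB aA bB hpa hpb v1 v2 v3 v4
  obtain ⟨haO, s, hs, has⟩ := hpa
  obtain ⟨hbO, t, ht, hbt⟩ := hpb
  obtain ⟨-, V2, -, -, V5, -⟩ := hVIA G
  have hab : a ≠ b := fun h => Set.disjoint_left.1 hd aA (h ▸ bB)
  have key : ∀ c, c ∈ O → G.Adj c s → s(c, s) ∈ cut id (cut id (EG G) ↑O) {s} := by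
    intro c hc h
    refine mem_cut_single.2 ⟨mem_cut.2 ⟨mk_mem_EG.2 h, c, s, rfl, hc, hs⟩, by simp, ?_⟩
    simpa using h.ne
  have hst : s ≠ t := by
    rintro rfl
    have h1 := hAl.un s hs
    have h2 := card_le_one.1 h1 _ (key a haO has) _ (key b hbO hbt)
    rcases Sym2.eq_iff.1 h2 with ⟨h, -⟩ | ⟨h, -⟩
    · exact hab h
    · exact has.ne h
  have hD := hDIA G LA LB x k s t hxk hd xA xB kA kB (fun h => hs (hB h)) (fun h => ht (hA h)) hst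
    (fun h => hs (h ▸ hx)) (fun h => hs (h ▸ hk)) (fun h => ht (h ▸ hx)) (fun h => ht (h ▸ hk))
    (V5 _ _ _ _ v1 (V2 _ _ _ has) (Or.inr (Or.inr aA)))
    (V5 _ _ _ _ v2 (V2 _ _ _ has) (Or.inr (Or.inr aA)))
    (V5 _ _ _ _ v3 (V2 _ _ _ hbt) (Or.inr (Or.inr bB)))
    (V5 _ _ _ _ v4 (V2 _ _ _ hbt) (Or.inr (Or.inr bB)))
  refine ⟨s, t, hs, ht, ⟨a, haO, has⟩, ⟨b, hbO, hbt⟩, hD.mono fun w hw => Or.inl ?_⟩
  rcases hw with h | h | rfl | rfl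
  · exact hA h
  · exact hB h
  · exact hx
  · exact hk

end Pool.Agent.P.MP_bb4f54_co.T3

end sA9
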