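import Pool.Agent.P.MP_bb4f54_co.T3.Iface2
import Pool.Agent.P.MP_bb4f54_co.T3.Iface1
import Pool.Agent.P.MP_bb4f54_co.T3.Iface7
import Pool.Agent.P.MP_bb4f54_co.T3.Iface3
import Pool.Agent.P.MP_bb4f54_co.T3.Iface6

section sLD1
/-! Step LD1. -/

set_option autoImplicit false
set_option linter.unusedSectionVars false

namespace Pool.Agent.P.MP_bb4f54_co.T3

open Finset

namespace LD1x

variable {V ι : Type} [DecidableEq V] [DecidableEq ι] {en : ι → Sym2 V} {Γ Z : Finset ι}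
  {W : Finset V} {ρ u w w' v x y z : V} {p : V → ι → ℝ} {e g g' i j k : ι}

lemma up (hi : i ∈ Z) (h : i ∈ cut en Γ {v}) : i ∈ cut en Z {v} :=
  mem_cut.2 ⟨hi, (mem_cut.1 h).2⟩

lemma m1 (h : cut en Γ {v} = {i, j, k}) : i ∈ cut en Γ {v} := by rw [h]; simp

lemma m2 (h : cut en Γ {v} = {i, j, k}) : j ∈ cut en Γ {v} := by rw [h]; simp

lemma m3 (h : cut en Γ {v} = {i, j, k}) : k ∈ cut en Γ {v} := by rw [h]; simp

lemma third (hF : ∀ e ∈ cut en Γ {u}, ∃ g g' w w', Fk en Γ u e g g' w w')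
    (he : e ∈ cut en Γ {u}) (hg : g ∈ cut en Γ {u}) (hne : g ≠ e) (hw : en g = s(u, w)) :
    ∃ r R, Fk en Γ u e g r w R := by
  obtain ⟨f, f', t, t', hf⟩ := hF e he
  have := hg
  rw [hf.st] at this
  simp only [mem_insert, mem_singleton] at this
  rcases this with h | h | h
  · exact absurd h hne
  · subst h
    exact ⟨f', t', hf.st, hw, hf.e2⟩
  · subst h
    exact ⟨f, t, hf.swap.st, hw, hf.e1⟩

lemma not3 (hZ : Ev en Z) (hs : Z ⊆ Γ) (h : cut en Γ {v} = {i, j, k}) (h3 : dgr en Γ v = 3)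
    (hi : i ∈ Z) (hj : j ∈ Z) : k ∉ Z := by
  intro hk
  have h1 : cut en Z {v} = cut en Γ {v} := by
    refine Subset.antisymm (cut_mono hs) fun t ht => up ?_ ht
    rw [h] at ht
    simp only [mem_insert, mem_singleton] at ht
    rcases ht with rfl | rfl | rfl <;> assumption
  have h2 := hZ v
  rw [dgr, h1, ← dgr, h3] at h2
  exact absurd h2 (by decide)

lemma val3 (hp : ∀ v i, 0 ≤ p v i) (hx : x ∈ W.erase ρ) (hy : y ∈ W.erase ρ)
    (hz : z ∈ W.erase ρ) (hxy : x ≠ y) (hxz : x ≠ z) (hyz : y ≠ z) :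
    PP en Z p x + PP en Z p y + PP en Z p z ≤ val en W ρ p Z := by
  have := val_ge (en := en) (Z := Z) (W := W) (ρ := ρ) hp (U := {x, y, z})
    (by simp only [insert_subset_iff, singleton_subset_iff]; exact ⟨hx, hy, hz⟩)
  rwa [sum_insert (by simp [hxy, hxz]), sum_pair hyz, ← add_assoc] at this

lemma flip (h : i ∈ cut en Γ {u}) (he : en i = s(u, w)) : i ∈ cut en Γ {w} := by
  rw [mem_cut_single] at h ⊢
  exact ⟨h.1, by rw [he]; simp, h.2.2⟩

lemma nee (h : i ∈ cut en Γ {u}) (he : en i = s(u, w)) : u ≠ w := by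
  rw [mem_cut_single, he] at h
  simpa using h.2.2

end LD1x

open LD1x in
theorem p_LD1 (hCY1 : S_CY1) (hGIR : S_GIR) (hLDc : S_LDc) :
    S_LD1 := by
  intro V ι _ _ _ en Γ W ρ ua ub uc w₁ w₂ A C p a b c ga ga' gb gb' gc gc' hL Fa Fb Fc hA hC
  have cub := hL.rz.rt.cub
  have hp := hL.rz.rt.pos
  obtain ⟨-, hF, -, hsim, hnt⟩ := hGIR en Γ W cub
  have hsim := hsim (by have := hL.five; omega)
  have htri := (hnt hL.nt).1 hL.five
  have hst := hL.rz.rt.st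
  have hW : ∀ {i u w}, i ∈ cut en Γ {u} → en i = s(u, w) → w ∈ W := fun {i u w} hi he =>
    cub.sp i (cut_subset hi) w (by rw [he]; simp)
  have hua : ua ∈ W := hW (m1 hst) hL.rz.ea
  have hub : ub ∈ W := hW (m2 hst) hL.rz.eb
  have huc : uc ∈ W := hW (m3 hst) hL.rz.ec
  have hw1 : w₁ ∈ W := hW (m2 Fa.st) Fa.e1
  have hw2 : w₂ ∈ W := hW (m3 Fb.st) Fb.e2
  have hAW : A ∈ W := hW (m3 Fa.st) Fa.e2
  obtain ⟨nab, nac, nbc⟩ := ne_of_card_three (a := a) (b := b) (c := c)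
    (hst ▸ cub.dg ρ hL.rz.rt.hρ)
  obtain ⟨na1, na2, na3⟩ := ne_of_card_three (a := a) (b := ga) (c := ga') (Fa.st ▸ cub.dg ua hua)
  obtain ⟨nb1, nb2, nb3⟩ := ne_of_card_three (a := b) (b := gb) (c := gb') (Fb.st ▸ cub.dg ub hub)
  have aΓ : a ∈ Γ := cut_subset (m1 hst)
  have bΓ : b ∈ Γ := cut_subset (m2 hst)
  have cΓ : c ∈ Γ := cut_subset (m3 hst)
  have uab : ua ≠ ub := fun h => nab (hsim a aΓ b bΓ (by rw [hL.rz.ea, hL.rz.eb, h]))
  have uac : ua ≠ uc := fun h => nac (hsim a aΓ c cΓ (by rw [hL.rz.ea, hL.rz.ec, h]))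
  have ubc : ub ≠ uc := fun h => nbc (hsim b bΓ c cΓ (by rw [hL.rz.eb, hL.rz.ec, h]))
  have uaρ : ua ≠ ρ := (nee (m1 hst) hL.rz.ea).symm
  have w1ρ : w₁ ≠ ρ := fun h => na1 (hsim a aΓ ga (cut_subset (m2 Fa.st))
    (by rw [hL.rz.ea, Fa.e1, h, Sym2.eq_swap]))
  have Aρ : A ≠ ρ := fun h => na2 (hsim a aΓ ga' (cut_subset (m3 Fa.st))
    (by rw [hL.rz.ea, Fa.e2, h, Sym2.eq_swap]))
  have w2ρ : w₂ ≠ ρ := fun h => nb2 (hsim b bΓ gb' (cut_subset (m3 Fb.st))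
    (by rw [hL.rz.eb, Fb.e2, h, Sym2.eq_swap]))
  have w12 : w₁ ≠ w₂ := fun h => nb3 (hsim gb (cut_subset (m2 Fb.st)) gb' (cut_subset (m3 Fb.st))
    (by rw [Fb.e1, Fb.e2, h]))
  have w1A : w₁ ≠ A := fun h => na3 (hsim ga (cut_subset (m2 Fa.st)) ga' (cut_subset (m3 Fa.st))
    (by rw [Fa.e1, Fa.e2, h]))
  have uaw1 : ua ≠ w₁ := nee (m2 Fa.st) Fa.e1
  have uaA : ua ≠ A := nee (m3 Fa.st) Fa.e2
  have uaw2 : ua ≠ w₂ := fun h => htri ρ ub ua ⟨b, bΓ, hL.rz.eb⟩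
    ⟨gb', cut_subset (m3 Fb.st), by rw [Fb.e2, h]⟩ (Ad.symm ⟨a, aΓ, hL.rz.ea⟩)
  have ne_end : ∀ {i j : ι} {x y z : V}, en i = s(x, z) → en j = s(y, z) → x ≠ y → i ≠ j := by
    intro i j x y z h1 h2 hxy h
    subst h
    exact hxy (Sym2.congr_left.1 (h1.symm.trans h2))
  obtain ⟨r₁, R₁, F1⟩ := third (hF w₁ hw1) (flip (m2 Fa.st) Fa.e1) (flip (m2 Fb.st) Fb.e1)
    (ne_end Fb.e1 Fa.e1 uab.symm) (w := ub) (Fb.e1.trans Sym2.eq_swap)
  obtain ⟨r₂, R₂, F2⟩ := third (hF w₂ hw2) (flip (m2 Fc.st) Fc.e1) (flip (m3 Fb.st) Fb.e2)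
    (ne_end Fb.e2 Fc.e1 ubc) (w := ub) (Fb.e2.trans Sym2.eq_swap)
  have gA : ga' ∈ cut en Γ {A} := flip (m3 Fa.st) Fa.e2
  obtain ⟨h, h', H, H', FA, hh⟩ : ∃ h h' H H', Fk en Γ A ga' h h' H H' ∧ p A h' ≤ p A h := by
    obtain ⟨h, h', H, H', FA⟩ := hF A hAW ga' gA
    rcases le_total (p A h') (p A h) with hh | hh
    · exact ⟨h, h', H, H', FA, hh⟩
    · exact ⟨h', h, H', H, FA.swap, hh⟩
  obtain ⟨⟨Zc, sc, cc, c1, c2, c3, c4, c5, c6⟩, ⟨Zb, sb, cb, b1, b2, b3, b4, b5, b6, b7⟩,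
    ⟨Za, sa, ca, a1, a2, a3, a4, a5, a6, a7⟩, h4⟩ := hLDc hL Fa Fb Fc F1 F2 FA hA hC
  obtain ⟨n11, n12, n13⟩ := ne_of_card_three (a := ga) (b := gb) (c := r₁)
    (F1.st ▸ cub.dg w₁ hw1)
  obtain ⟨n21, n22, n23⟩ := ne_of_card_three (a := gc) (b := gb') (c := r₂)
    (F2.st ▸ cub.dg w₂ hw2)
  have P1 := pp_three (p := p) F1.st (cub.dg w₁ hw1)
  have P2 := pp_three (p := p) F2.st (cub.dg w₂ hw2)
  have Pa := pp_three (p := p) Fa.st (cub.dg ua hua)
  have za := hL.rz.za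
  have eua : ua ∈ W.erase ρ := mem_erase.2 ⟨uaρ, hua⟩
  have ew1 : w₁ ∈ W.erase ρ := mem_erase.2 ⟨w1ρ, hw1⟩
  have ew2 : w₂ ∈ W.erase ρ := mem_erase.2 ⟨w2ρ, hw2⟩
  have eA : A ∈ W.erase ρ := mem_erase.2 ⟨Aρ, hAW⟩
  have c_1 := pp_ge2 hp (up c3 (m1 F1.st)) (up c4 (m3 F1.st)) n12
  have c_2 := pp_ge2 hp (up c6 (m2 F2.st)) (up c5 (m3 F2.st)) n23
  have b_1 := pp_ge2 hp (up b5 (m2 F1.st)) (up b4 (m3 F1.st)) n13
  have b_2 := pp_ge2 hp (up b7 (m1 F2.st)) (up b6 (m2 F2.st)) n21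
  have a_1 := pp_ge2 hp (up a4 (m1 F1.st)) (up a3 (m2 F1.st)) n11
  have a_2 := pp_ge2 hp (up a7 (m1 F2.st)) (up a6 (m3 F2.st)) n22
  have vA : ∀ Z : Finset ι, PP en Z p w₁ + PP en Z p w₂ + PP en Z p A ≤ val en W ρ p Z :=
    fun Z => val3 hp ew1 ew2 eA w12 w1A hA.symm
  have c_A : 0 ≤ PP en Zc p A := pp_nonneg hp
  have force := (hCY1 en).2.2.2.2.1
  refine ⟨?_, fun hAC => ?_, fun hAC => ?_⟩
  · refine ⟨Za, sa, Zb, sb, Zc, sc, ca, cb, cc, a1, a2, b1, b2, c1, c2, ?_⟩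
    have v : ∀ Z : Finset ι, PP en Z p ua + PP en Z p w₁ + PP en Z p w₂ ≤ val en W ρ p Z :=
      fun Z => val3 hp eua ew1 ew2 uaw1 uaw2 w12
    have c_a := pp_ge1 hp (up c3 (m2 Fa.st))
    have b_a := pp_ge1 hp (up b3 (m3 Fa.st))
    have a_a := pp_ge2 hp (up a4 (m2 Fa.st)) (up a5 (m3 Fa.st)) na3
    linarith [v Za, v Zb, v Zc]
  · by_cases hR : A = R₂
    · subst hR
      have rA : r₂ ∈ cut en Γ {A} := flip (m3 F2.st) F2.e2
      obtain ⟨k, K, FK⟩ := third (hF A hAW) gA rA (ne_end F2.e2 Fa.e2 uaw2.symm) (w := w₂)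
        (F2.e2.trans Sym2.eq_swap)
      obtain ⟨k1, k2, k3⟩ := ne_of_card_three (a := ga') (b := r₂) (c := k)
        (FK.st ▸ cub.dg A hAW)
      have PA := pp_three (p := p) FK.st (cub.dg A hAW)
      have nr : r₂ ∉ Zb := not3 cb.2.1 sb F2.st (cub.dg w₂ hw2) b7 b6
      have kb : k ∈ Zb := force Γ Zb ga' k r₂ A cb.2.1 sb b3 gA FK.swap.st.subset nr
      have b_A := pp_ge2 hp (up b3 gA) (up kb (m3 FK.st)) k2
      have a_A := pp_ge2 hp (up a5 gA) (up a6 rA) k1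
      refine ⟨Za, sa, Zb, sb, Zc, sc, ca, cb, cc, a1, a2, b1, b2, c1, c2, ?_⟩
      linarith [vA Za, vA Zb, vA Zc, hp A ga', hp A r₂, hp A k]
    · obtain ⟨Zd, sd, cd, d1, d2, d3, d4, d5, d6, d7, d8⟩ := h4 hAC hR
      obtain ⟨k1, k2, k3⟩ := ne_of_card_three (a := ga') (b := h) (c := h')
        (FA.st ▸ cub.dg A hAW)
      have PA := pp_three (p := p) FA.st (cub.dg A hAW)
      have d_1 := pp_ge2 hp (up d4 (m1 F1.st)) (up d3 (m2 F1.st)) n11
      have d_2 := pp_ge2 hp (up d7 (m1 F2.st)) (up d6 (m3 F2.st)) n22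
      have d_A := pp_ge2 hp (up d5 gA) (up d8 (m2 FA.st)) k1
      have b_A := pp_ge1 hp (up b3 gA)
      refine ⟨Zd, sd, Zb, sb, Zc, sc, cd, cb, cc, d1, d2, b1, b2, c1, c2, ?_⟩
      linarith [vA Zd, vA Zb, vA Zc, hp A ga']
  · subst hAC
    have rA : gc' ∈ cut en Γ {A} := flip (m3 Fc.st) Fc.e2
    obtain ⟨k, K, FK⟩ := third (hF A hAW) gA rA (ne_end Fc.e2 Fa.e2 uac.symm) (w := uc)
      (Fc.e2.trans Sym2.eq_swap)
    obtain ⟨k1, k2, k3⟩ := ne_of_card_three (a := ga') (b := gc') (c := k)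
      (FK.st ▸ cub.dg A hAW)
    have PA := pp_three (p := p) FK.st (cub.dg A hAW)
    have nb : gc' ∉ Zb := not3 cb.2.1 sb Fc.st (cub.dg uc huc) b2 b7
    have na : gc' ∉ Za := not3 ca.2.1 sa Fc.st (cub.dg uc huc) a2 a7
    have kb : k ∈ Zb := force Γ Zb ga' k gc' A cb.2.1 sb b3 gA FK.swap.st.subset nb
    have ka : k ∈ Za := force Γ Za ga' k gc' A ca.2.1 sa a5 gA FK.swap.st.subset na
    have b_A := pp_ge2 hp (up b3 gA) (up kb (m3 FK.st)) k2
    have a_A := pp_ge2 hp (up a5 gA) (up ka (m3 FK.st)) k2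
    refine ⟨Za, sa, Zb, sb, Zc, sc, ca, cb, cc, a1, a2, b1, b2, c1, c2, ?_⟩
    linarith [vA Za, vA Zb, vA Zc]

end Pool.Agent.P.MP_bb4f54_co.T3

end sLD1

section sG2c
/-! Step G2c. -/

set_option autoImplicit false
set_option linter.unusedSectionVars false

namespace Pool.Agent.P.MP_bb4f54_co.T3

open Finset

theorem p_G2c (hODA : S_ODA) (hVIA : S_VIA) (hFRE : S_FRE) (hDIA : S_DIA) (hCXB : S_CXB) :
    S_G2c := by
  intro V _ _ G S T O Γ v n pos e w m mw a p b a' α β b' A₀ A₁ k u u' KA KB hC he hw hd a0 ap pb bm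
    a0' aα αβ βb bm' r0 r1 d01 adj kA kB dK dKA kKA kKB ke kw kw' hu vu hu' vu'
  obtain ⟨-, -, vs, vm, vt, vg, vp, -⟩ := hVIA G
  have hΓ := hC.sk.sub
  have hTO := (hFRE hC.g3 hC.sk).2.2.1
  have eO : ∀ i, a ≤ i → i ≤ b → e i ∉ O := fun i h1 h2 => hTO _ (he.int i (by omega) (by omega))
  have wO : ∀ j, a' ≤ j → j ≤ b' → w j ∉ O := fun j h1 h2 => hTO _ (hw.int j (by omega) (by omega))
  have ei : ∀ i j, i ≤ b → j ≤ b → e i = e j → i = j := fun i j h1 h2 =>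
    he.th.sg.inj i j (by omega) (by omega)
  have wi : ∀ i j, i ≤ b' → j ≤ b' → w i = w j → i = j := fun i j h1 h2 =>
    hw.th.sg.inj i j (by omega) (by omega)
  have ew : ∀ i j, a ≤ i → i ≤ b → j ≤ b' → e i ≠ w j := fun i j h1 h2 h3 =>
    (hCXB hC).2.2.2.2.2 e m w mw he hw hd i j (by omega) (by omega) (by omega)
  obtain ⟨LA, hLA⟩ : ∃ LA : Set V, ∀ x, x ∈ LA ↔ ((∃ i, a ≤ i ∧ i < p ∧ x = e i) ∨
      ∃ j, a' ≤ j ∧ j ≤ α ∧ x = w j) ∨ (x ∈ O ∧ (x ∈ spt id A₀ ∨ x ∈ KA)) :=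
    ⟨{x | _}, fun _ => Iff.rfl⟩
  obtain ⟨LB, hLB⟩ : ∃ LB : Set V, ∀ x, x ∈ LB ↔ ((∃ i, p < i ∧ i ≤ b ∧ x = e i) ∨
      ∃ j, β ≤ j ∧ j ≤ b' ∧ x = w j) ∨ (x ∈ O ∧ (x ∈ spt id A₁ ∨ x ∈ KB)) :=
    ⟨{x | _}, fun _ => Iff.rfl⟩
  have eA : ∀ i, a ≤ i → i < p → e i ∈ LA := fun i h1 h2 =>
    (hLA _).2 (Or.inl (Or.inl ⟨i, h1, h2, rfl⟩))
  have wA : ∀ j, a' ≤ j → j ≤ α → w j ∈ LA := fun j h1 h2 =>
    (hLA _).2 (Or.inl (Or.inr ⟨j, h1, h2, rfl⟩))
  have eB : ∀ i, p < i → i ≤ b → e i ∈ LB := fun i h1 h2 =>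
    (hLB _).2 (Or.inl (Or.inl ⟨i, h1, h2, rfl⟩))
  have wB : ∀ j, β ≤ j → j ≤ b' → w j ∈ LB := fun j h1 h2 =>
    (hLB _).2 (Or.inl (Or.inr ⟨j, h1, h2, rfl⟩))
  have dj : Disjoint LA LB := by
    refine Set.disjoint_left.2 fun x h1 h2 => ?_
    rcases (hLA x).1 h1 with (⟨i, i1, i2, rfl⟩ | ⟨i, i1, i2, rfl⟩) | ⟨o, h⟩
    · rcases (hLB _).1 h2 with (⟨j, j1, j2, q⟩ | ⟨j, j1, j2, q⟩) | ⟨o', -⟩
      · have := ei i j (by omega) j2 q
        omega
      · exact ew i j i1 (by omega) j2 q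
      · exact eO i i1 (by omega) o'
    · rcases (hLB _).1 h2 with (⟨j, j1, j2, q⟩ | ⟨j, j1, j2, q⟩) | ⟨o', -⟩
      · exact ew j i (by omega) j2 (by omega) q.symm
      · have := wi i j (by omega) j2 q
        omega
      · exact wO i i1 (by omega) o'
    · rcases (hLB _).1 h2 with (⟨j, j1, j2, rfl⟩ | ⟨j, j1, j2, rfl⟩) | ⟨-, h'⟩
      · exact eO j (by omega) j2 o
      · exact wO j (by omega) j2 o
      · rcases h with h | h
        · rcases h' with h' | h'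
          · exact d01 x h h'
          · exact (dKA x (Or.inr (Or.inl h'))).1 h
        · rcases h' with h' | h'
          · exact (dKA x (Or.inl h)).2 h'
          · exact Set.disjoint_left.1 dK h h'
  have pA : e p ∉ LA := by
    intro h
    rcases (hLA _).1 h with (⟨i, i1, i2, q⟩ | ⟨i, i1, i2, q⟩) | ⟨o, -⟩
    · have := ei p i (by omega) (by omega) q
      omega
    · exact ew p i (by omega) (by omega) (by omega) q
    · exact eO p (by omega) (by omega) o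
  have pB : e p ∉ LB := by
    intro h
    rcases (hLB _).1 h with (⟨i, i1, i2, q⟩ | ⟨i, i1, i2, q⟩) | ⟨o, -⟩
    · have := ei p i (by omega) (by omega) q
      omega
    · exact ew p i (by omega) (by omega) (by omega) q
    · exact eO p (by omega) (by omega) o
  have kA' : k ∉ LA := by
    intro h
    rcases (hLA _).1 h with (⟨i, i1, i2, q⟩ | ⟨i, i1, i2, q⟩) | ⟨-, h | h⟩
    · exact ke i i1 (by omega) q
    · exact kw i i1 i2 q
    · exact (dKA k (Or.inr (Or.inr rfl))).1 h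
    · exact kKA h
  have kB' : k ∉ LB := by
    intro h
    rcases (hLB _).1 h with (⟨i, i1, i2, q⟩ | ⟨i, i1, i2, q⟩) | ⟨-, h | h⟩
    · exact ke i (by omega) i2 q
    · exact kw' i i1 i2 q
    · exact (dKA k (Or.inr (Or.inr rfl))).2 h
    · exact kKB h
  have cA : Via G LA (e a) (w a') := vp A₀ r0.sub _ _ LA r0.pth fun y hy => by
    rcases r0.sp y hy with h | h | h
    · exact Or.inr (Or.inr ((hLA y).2 (Or.inr ⟨h, Or.inl hy⟩)))
    · exact Or.inl h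
    · exact Or.inr (Or.inl h)
  have cB : Via G LB (e b) (w b') := vp A₁ r1.sub _ _ LB r1.pth fun y hy => by
    rcases r1.sp y hy with h | h | h
    · exact Or.inr (Or.inr ((hLB y).2 (Or.inr ⟨h, Or.inl hy⟩)))
    · exact Or.inl h
    · exact Or.inr (Or.inl h)
  have gA : ∀ i, a ≤ i → i ≤ p → Via G LA (e i) (e a) := fun i h1 h2 =>
    vs _ _ _ (vg Γ hΓ e m a i LA he.th.sg h1 (by omega) fun l l1 l2 => eA l (by omega) (by omega))
  have gB : ∀ i, p ≤ i → i ≤ b → Via G LB (e i) (e b) := fun i h1 h2 =>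
    vg Γ hΓ e m i b LB he.th.sg h2 (by omega) fun l l1 l2 => eB l (by omega) (by omega)
  have aA : e a ∈ LA := eA a le_rfl ap
  have aA' : w a' ∈ LA := wA a' le_rfl aα
  have bB : e b ∈ LB := eB b pb le_rfl
  have bB' : w b' ∈ LB := wB b' βb le_rfl
  have uA : Via G LA u (e a) := by
    rcases hu with ⟨i, i1, i2, rfl⟩ | ⟨j, j1, j2, rfl⟩
    · exact gA i i1 i2.le
    · exact vt _ _ _ _ (vs _ _ _ (vg Γ hΓ w mw a' j LA hw.th.sg j1 (by omega)
        fun l l1 l2 => wA l (by omega) (by omega))) (vs _ _ _ cA) (Or.inr (Or.inr aA'))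
  have uB : Via G LB u' (e b) := by
    rcases hu' with ⟨i, i1, i2, rfl⟩ | ⟨j, j1, j2, rfl⟩
    · exact gB i i1.le i2
    · exact vt _ _ _ _ (vg Γ hΓ w mw j b' LB hw.th.sg j2 (by omega)
        fun l l1 l2 => wB l (by omega) (by omega)) (vs _ _ _ cB) (Or.inr (Or.inr bB'))
  have kuA : Via G LA k (e a) := vt _ _ _ _
    (vm KA LA k u vu fun y hy => Or.inr (Or.inr ((hLA y).2 (Or.inr ⟨kA hy, Or.inr hy⟩)))) uA
    (Or.inr (Or.inr ((hLA u).2 (Or.inl hu))))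
  have kuB : Via G LB k (e b) := vt _ _ _ _
    (vm KB LB k u' vu' fun y hy => Or.inr (Or.inr ((hLB y).2 (Or.inr ⟨kB hy, Or.inr hy⟩)))) uB
    (Or.inr (Or.inr ((hLB u').2 (Or.inl hu'))))
  have key : ∀ s t, s ∈ LA → t ∈ LB → Via G LA (e p) s → Via G LA k s → Via G LB (e p) t →
      Via G LB k t → Dia G {x | x ∈ LA ∨ x ∈ LB ∨ x = e p ∨ x = k} s t := by
    intro s t hs ht
    exact hDIA G LA LB (e p) k s t adj dj pA pB kA' kB' (Set.disjoint_left.1 dj hs)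
      (fun h => Set.disjoint_left.1 dj h ht) (fun h => Set.disjoint_left.1 dj hs (h ▸ ht))
      (fun h => pA (h ▸ hs)) (fun h => kA' (h ▸ hs)) (fun h => pB (h ▸ ht)) (fun h => kB' (h ▸ ht))
  refine ⟨{x | x ∈ LA ∨ x ∈ LB ∨ x = e p ∨ x = k}, ?_,
    key _ _ aA bB (gA p ap.le le_rfl) kuA (gB p le_rfl pb.le) kuB,
    key _ _ aA' bB' (vt _ _ _ _ (gA p ap.le le_rfl) cA (Or.inr (Or.inr aA)))
      (vt _ _ _ _ kuA cA (Or.inr (Or.inr aA)))
      (vt _ _ _ _ (gB p le_rfl pb.le) cB (Or.inr (Or.inr bB)))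
      (vt _ _ _ _ kuB cB (Or.inr (Or.inr bB)))⟩
  rintro x (h | h | rfl | rfl)
  · rcases (hLA _).1 h with (⟨i, i1, i2, q⟩ | ⟨i, i1, i2, q⟩) | ⟨o, -⟩
    · exact Or.inr (Or.inr (Or.inl ⟨i, i1, by omega, q⟩))
    · exact Or.inr (Or.inr (Or.inr ⟨i, i1, by omega, q⟩))
    · exact Or.inr (Or.inl o)
  · rcases (hLB _).1 h with (⟨i, i1, i2, q⟩ | ⟨i, i1, i2, q⟩) | ⟨o, -⟩
    · exact Or.inr (Or.inr (Or.inl ⟨i, by omega, i2, q⟩))
    · exact Or.inr (Or.inr (Or.inr ⟨i, by omega, i2, q⟩))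
    · exact Or.inr (Or.inl o)
  · exact Or.inr (Or.inr (Or.inl ⟨p, ap.le, pb.le, rfl⟩))
  · exact Or.inl rfl

end Pool.Agent.P.MP_bb4f54_co.T3

end sG2c

section sDL3
/-! Step DL3. -/

set_option autoImplicit false
set_option linter.unusedSectionVars false

namespace Pool.Agent.P.MP_bb4f54_co.T3

open Finset

theorem p_DL3 (hNRM : S_NRM) (hGIR : S_GIR) (hDL1 : S_DL1) (hDL2 : S_DL2) :
    S_DL3 := by
  intro V ι _ _ _ en Γ W ρ u ub uc w w' p a b c g g' hEH hL hF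
  have cub := hL.rz.rt.cub
  have hp := hL.rz.rt.pos
  have hgu : g ∈ cut en Γ {u} := by rw [hF.st]; simp
  have hg'u : g' ∈ cut en Γ {u} := by rw [hF.st]; simp
  have hgΓ : g ∈ Γ := cut_subset hgu
  have hg'Γ : g' ∈ Γ := cut_subset hg'u
  have hwW : w ∈ W := cub.sp g hgΓ w (by rw [hF.e1]; simp)
  have hgw : g ∈ cut en Γ {w} :=
    mem_cut_single.2 ⟨hgΓ, by rw [hF.e1]; simp, cub.nl g hgΓ⟩
  obtain ⟨h₁, h₂, w₁, w₂, hF'⟩ := (hGIR en Γ W cub).2.1 w hwW g hgw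
  obtain ⟨n1, n2, huW, -, hw'W, hw₁W, n3, hR, c1, c2, c3⟩ := hDL1 hL hF hF'
  simp only [List.nodup_cons, List.mem_cons, List.not_mem_nil, or_false, not_or,
    not_false_eq_true, List.nodup_nil, and_true] at n1 n2 n3
  obtain ⟨⟨d1, d2, d3, d4⟩, ⟨d5, d6, d7⟩, ⟨d8, d9⟩, d10⟩ := n1
  obtain ⟨-, -, -, d11⟩ := n2
  set en' := ctr (ctr en {u} w') {w} w₁ with hen'
  set Γ' := Γ \ {g, g', h₁} with hΓ'
  set W' := (W.erase u).erase w with hW'
  set p' := pd p a h₁ h₂ w w' w₁ with hp'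
  have hlt : W'.card < W.card :=
    lt_of_le_of_lt card_erase_le (card_erase_lt_of_mem huW)
  obtain ⟨Za, s1, Zb, s2, Zc, s3, y1, y2, y3, m1, m2, m3, m4, m5, m6, hv⟩ :=
    hEH en' Γ' W' ρ p' a b c hlt hR
  obtain ⟨Xa, t1, x1, r1, v1⟩ := hDL2 hL hF hF' Za s1 y1
  obtain ⟨Xb, t2, x2, r2, v2⟩ := hDL2 hL hF hF' Zb s2 y2
  obtain ⟨Xc, t3, x3, r3, v3⟩ := hDL2 hL hF hF' Zc s3 y3
  rw [if_pos m3] at v2
  rw [if_pos m5] at v3
  have v0 : 0 ≤ (if a ∈ Za then p u g' + p w' g' else 0) := by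
    split_ifs
    · exact add_nonneg (hp _ _) (hp _ _)
    · exact le_rfl
  refine ⟨Xa, t1, Xb, t2, Xc, t3, x1, x2, x3, r1 m1, r1 m2, r2 m3, r2 m4, r3 m5, r3 m6, ?_⟩
  -- the weights in the smaller graph
  have e1 : PP en' Γ' p' w' = PP en Γ p w' - p w' g' := by
    have ha : a ∉ cut en Γ {w'} := fun h => by
      have := (mem_cut_single.1 h).2.1
      rw [hL.rz.ea, Sym2.mem_iff] at this
      rcases this with h | h
      · exact d3 h.symm
      · exact d6 h.symm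
    have hg : g' ∈ cut en Γ {w'} :=
      mem_cut_single.2 ⟨hg'Γ, by rw [hF.e2]; simp, cub.nl g' hg'Γ⟩
    rw [PP, c1, sum_insert (fun h => ha (mem_of_mem_erase h)), PP, ← add_sum_erase _ _ hg]
    have : ∑ i ∈ (cut en Γ {w'}).erase g', p' w' i = ∑ i ∈ (cut en Γ {w'}).erase g', p w' i :=
      sum_congr rfl fun i hi => by
        have hia : i ≠ a := fun h => ha (h ▸ mem_of_mem_erase hi)
        simp [hp', pd, hia, d10]
    rw [this]
    simp [hp', pd]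
  have hh₁ : h₁ ∈ Γ := cut_subset (show h₁ ∈ cut en Γ {w} by rw [hF'.st]; simp)
  have e2 : PP en' Γ' p' w₁ = PP en Γ p w₁ + (p w h₁ + p w h₂) := by
    have ha : h₂ ∉ cut en Γ {w₁} := fun h => by
      have := (mem_cut_single.1 h).2.1
      rw [hF'.e2, Sym2.mem_iff] at this
      rcases this with h | h
      · exact d9 h.symm
      · exact d11 h
    have hg : h₁ ∈ cut en Γ {w₁} :=
      mem_cut_single.2 ⟨hh₁, by rw [hF'.e1]; simp, cub.nl h₁ hh₁⟩
    rw [PP, c2, sum_insert (fun h => ha (mem_of_mem_erase h)), PP, ← add_sum_erase _ _ hg]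
    have : ∑ i ∈ (cut en Γ {w₁}).erase h₁, p' w₁ i = ∑ i ∈ (cut en Γ {w₁}).erase h₁, p w₁ i :=
      sum_congr rfl fun i hi => by
        have hia : i ≠ h₂ := fun h => ha (h ▸ mem_of_mem_erase hi)
        simp [hp', pd, hia, Ne.symm d10]
    rw [this]
    have : p' w₁ h₂ = p w₁ h₁ + p w h₁ + p w h₂ := by simp [hp', pd, Ne.symm d10]
    rw [this]
    ring
  have e3 : PP en Γ p w - p w g = p w h₁ + p w h₂ := by
    rw [pp_three hF'.st (cub.dg w hwW)]; ring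
  have e4 : ∀ v, v ≠ u → v ≠ w → v ≠ w' → v ≠ w₁ → PP en' Γ' p' v = PP en Γ p v :=
    fun v q1 q2 q3 q4 => by
      rw [PP, c3 v q1 q2 q3 q4, PP]
      exact sum_congr rfl fun i _ => by simp [hp', pd, q3, q4]
  have hbt : (0 : ℝ) < bt := by unfold bt; norm_num
  have hT : W'.erase ρ = ((W.erase ρ).erase u).erase w := by
    ext v; simp only [hW', mem_erase]; tauto
  have hu : u ∈ W.erase ρ := mem_erase.2 ⟨Ne.symm d1, huW⟩
  have hw : w ∈ (W.erase ρ).erase u := mem_erase.2 ⟨Ne.symm d5, mem_erase.2 ⟨Ne.symm d2, hwW⟩⟩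
  have hw₁ : w₁ ∈ W'.erase ρ :=
    mem_erase.2 ⟨Ne.symm d4, mem_erase.2 ⟨Ne.symm d9, mem_erase.2 ⟨Ne.symm d7, hw₁W⟩⟩⟩
  have key : ∑ v ∈ W.erase ρ, (PP en Γ p v - dl en Γ p g g' u w w' v) ^ bt ≤
      ∑ v ∈ W'.erase ρ, PP en' Γ' p' v ^ bt := by
    rw [← add_sum_erase _ _ hu, ← add_sum_erase _ _ hw, ← hT, ← add_sum_erase _ _ hw₁,
      ← add_sum_erase _ _ hw₁]
    have f1 : (PP en Γ p u - dl en Γ p g g' u w w' u) ^ bt = 0 := by
      simp [dl, Real.zero_rpow hbt.ne']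
    have f2 : dl en Γ p g g' u w w' w = p w g := by simp [dl, Ne.symm d5]
    have f3 : dl en Γ p g g' u w w' w₁ = 0 := by
      simp [dl, Ne.symm d7, Ne.symm d9, Ne.symm d10]
    have f4 : ∑ v ∈ (W'.erase ρ).erase w₁, (PP en Γ p v - dl en Γ p g g' u w w' v) ^ bt =
        ∑ v ∈ (W'.erase ρ).erase w₁, PP en' Γ' p' v ^ bt :=
      sum_congr rfl fun v hv => by
        simp only [hW', mem_erase] at hv
        obtain ⟨q4, -, q2, q1, -⟩ := hv
        by_cases q3 : v = w'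
        · rw [q3, e1]; simp [dl, Ne.symm d6, Ne.symm d8]
        · rw [e4 v q1 q2 q3 q4]; simp [dl, q1, q2, q3]
    have f5 := hNRM.1 (PP en Γ p w₁) (p w h₁ + p w h₂) (pp_nonneg hp)
      (add_nonneg (hp _ _) (hp _ _))
    rw [f1, f2, f3, f4, e3, e2, sub_zero]
    linarith
  have hnn : 0 ≤ ∑ v ∈ W.erase ρ, (PP en Γ p v - dl en Γ p g g' u w w' v) ^ bt := by
    refine sum_nonneg fun v _ => Real.rpow_nonneg ?_ _
    unfold dl
    split_ifs with q1 q2 q3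
    · rw [q1, sub_self]
    · rw [q2, e3]; exact add_nonneg (hp _ _) (hp _ _)
    · rw [q3, ← e1]; exact pp_nonneg hR.pos
    · rw [sub_zero]; exact pp_nonneg hp
  have fin := Real.rpow_le_rpow hnn key (one_div_pos.2 hbt).le
  unfold NN at hv
  linarith

end Pool.Agent.P.MP_bb4f54_co.T3

end sDL3

section sFST
/-! Step FST. -/

set_option autoImplicit false
set_option linter.unusedSectionVars false

namespace Pool.Agent.P.MP_bb4f54_co.T3

open Finset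

namespace FSTx

variable {V : Type} [Fintype V] [DecidableEq V]

/-- A side of a small cut that is left by an arc of `Z` and has a second branch vertex. -/
def Good (Γ Z : Finset (Sym2 V)) (Y : Set V) : Prop :=
  (cut id Γ Y).card ≤ 3 ∧ ∃ B x y u, Arc id Γ B x y ∧ B ⊆ Z ∧ x ∈ Y ∧ y ∉ Y ∧ dgr id Γ x = 3 ∧
    dgr id Γ y = 3 ∧ u ∈ Y ∧ u ≠ x ∧ dgr id Γ u = 3

open Classical in
/-- The branch vertices in `Y`. -/
noncomputable def br (Γ : Finset (Sym2 V)) (Y : Set V) : Finset V :=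
  univ.filter fun v => v ∈ Y ∧ dgr id Γ v = 3

theorem br_lt {Γ : Finset (Sym2 V)} {Y Y' : Set V} {a : V}
    (h : ∀ v, dgr id Γ v = 3 → v ∈ Y' → v ∈ Y) (ha : a ∈ Y) (ha' : a ∉ Y')
    (h3 : dgr id Γ a = 3) : (br Γ Y').card < (br Γ Y).card := by
  refine card_lt_card ⟨fun v hv => ?_, fun hs => ?_⟩
  · simp only [br, mem_filter, mem_univ, true_and] at hv ⊢
    exact ⟨h v hv.2 hv.1, hv.2⟩
  · have h1 : a ∈ br Γ Y := by simp only [br, mem_filter, mem_univ, true_and]; exact ⟨ha, h3⟩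
    have h2 := hs h1
    simp only [br, mem_filter, mem_univ, true_and] at h2
    exact ha' h2.1

end FSTx

theorem p_FST (hODA : S_ODA) (hPD1 : S_PD1) (hCY1 : S_CY1) (hARC : S_ARC) (hTCB : S_TCB) (hNCR : S_NCR) (hMAT : S_MAT) (hDEL : S_DEL) (hTHA : S_THA) :
    S_FST := by
  intro V _ _ Γ S b hT hb hb3 hno D hD hEv
  by_contra hne
  obtain ⟨i, hi⟩ := nonempty_iff_ne_empty.2 hne
  obtain ⟨Z, hZD, hZ, -⟩ := (hCY1 (id : Sym2 V → Sym2 V)).1 D i hEv hi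
  have hZS : Z ⊆ ins id Γ S := hZD.trans hD
  have hZΓ : Z ⊆ Γ := hZS.trans ins_subset
  have hZ2 : ∀ v ∈ spt id Z, dgr id Z v = 2 := fun v hv =>
    (hPD1 (id : Sym2 V → Sym2 V)).2.2 Z v hZ (hT.nl.mono hZΓ) hv
  have hend : ∀ B x y, Arc id Γ B x y → x ∈ spt id B ∧ y ∈ spt id B := fun B x y h =>
    (hODA (id : Sym2 V → Sym2 V)).2.2.2.2.2.2.2 B x y h.1.1 h.2.2.1
  have step0 : ∀ x j, dgr id Γ x = 3 → j ∈ cut id Z {x} → ∃ B x' Y', Arc id Γ B x x' ∧ j ∈ B ∧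
      dgr id Γ x' = 3 ∧ x ∈ Y' ∧ x' ∉ Y' ∧ FSTx.Good Γ Z Y' ∧ FSTx.Good Γ Z Y'ᶜ := by
    intro x j hx hj
    obtain ⟨B, x', hB, hjB, hx'⟩ := hTHA Γ x j hT hx (cut_mono hZΓ hj)
    have hBZ : B ⊆ Z := by
      refine ((hARC id Γ B x x' hT.nl hB).2.1 Z hZΓ fun v _ _ _ => hZ.2.1 v).resolve_right ?_
      exact fun hd => disjoint_left.1 hd hjB (cut_subset hj)
    have hS : ∀ v ∈ spt id B, v ∈ S := fun v ⟨k, hk, hv⟩ => (mem_ins.1 (hZS (hBZ hk))).2 v hv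
    have h1 : b ≠ x := fun e => hb (e ▸ hS x (hend B x x' hB).1)
    have h2 : b ≠ x' := fun e => hb (e ▸ hS x' (hend B x x' hB).2)
    rcases hDEL id Γ B x x' b hT hB hx hx' hb3 h1 h2 with h | ⟨Y', a1, a2, a3, a4, a5⟩
    · exact absurd h (hno B x x' hB (hBZ.trans hZS) hx hx')
    · obtain ⟨u, u1, u2, u3⟩ := a4
      obtain ⟨u', v1, v2, v3⟩ := a5
      exact ⟨B, x', Y', hB, hjB, hx', a1, a2, ⟨a3, B, x, x', u, hB, hBZ, a1, a2, hx, hx', u1, u2, u3⟩,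
        by rwa [cut_compl], B, x', x, u', hB.symm, hBZ, a2, fun h => h a1, hx', hx, v1, v2, v3⟩
  have key : ∀ n Y, (FSTx.br Γ Y).card = n → FSTx.Good Γ Z Y → False := by
    intro n
    induction n using Nat.strong_induction_on with
    | _ n ih =>
      rintro Y rfl ⟨hc, B, x, y, u, hB, hBZ, hxY, hyY, hx, hy, huY, hux, hu⟩
      have d2 : dgr id Z x = 2 := hZ2 x (spt_mono hBZ (hend B x y hB).1)
      have d1 : dgr id B x = 1 := ((hPD1 (id : Sym2 V → Sym2 V)).1 B x y hB.1 hB.2.2.1).1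
      obtain ⟨j, hj, hjB⟩ : ∃ j ∈ cut id Z {x}, j ∉ B := by
        by_contra hc'
        push Not at hc'
        have : cut id Z {x} ⊆ cut id B {x} := fun k hk =>
          mem_cut.2 ⟨hc' k hk, (mem_cut.1 hk).2⟩
        have := card_le_card this
        unfold dgr at d1 d2
        omega
      obtain ⟨B', x', Y', hB', hjB', hx', a1, a2, g1, g2⟩ := step0 x j hx hj
      have hdj : Disjoint B' B := by
        refine ((hARC id Γ B' x x' hT.nl hB').2.1 B hB.2.1 fun v hv e1 e2 => ?_).resolve_left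
          fun hs => hjB (hs hjB')
        have e3 := hB'.2.2.2 v hv e1 e2
        have e4 : v ≠ y := fun e => by rw [e, hy] at e3; omega
        rw [← Nat.not_odd_iff_even, hB.1.1 v]
        tauto
      have hx'Y : x' ∈ Y := by
        by_contra hn
        exact hMAT id Γ B B' Y x u y x' hT hc hxY huY hux.symm hx hu hB hB' hdj.symm hyY hn
      by_cases c1 : ∀ v, dgr id Γ v = 3 → v ∈ Y' → v ∈ Y
      · exact ih _ (FSTx.br_lt c1 hx'Y a2 hx') Y' rfl g1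
      by_cases c2 : ∀ v, dgr id Γ v = 3 → v ∈ Y'ᶜ → v ∈ Y
      · exact ih _ (FSTx.br_lt c2 hxY (fun h => h a1) hx) Y'ᶜ rfl g2
      push Not at c1 c2
      obtain ⟨c, c3, c4, c5⟩ := c1
      obtain ⟨d, d3, d4, d5⟩ := c2
      exact hNCR id Γ Y Y' x x' c d hT hc g1.1 hx hx' c3 d3 hxY a1 hx'Y a2 c5 c4 d5 d4
  obtain ⟨a, ha, -, -, -, ha3, -⟩ := (hTCB id Γ hT).2.2.2.1 Z hZΓ hZ
  obtain ⟨j, hj⟩ : (cut id Z {a}).Nonempty := by
    have := hZ2 a ha
    unfold dgr at this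
    exact card_pos.1 (by omega)
  obtain ⟨-, -, Y', -, -, -, -, -, g1, -⟩ := step0 a j ha3 hj
  exact key _ Y' rfl g1

end Pool.Agent.P.MP_bb4f54_co.T3

end sFST

section sUNC
/-! Step UNC. -/

set_option autoImplicit false
set_option linter.unusedSectionVars false

namespace Pool.Agent.P.MP_bb4f54_co.T3

open Finset

theorem p_UNC (hPAR : S_PAR) :
    S_UNC := by
  intro V ι _ _ _ en Γ u u' j k _ hcut hjk hk
  have hkc : k ∈ cut en Γ {u} := by rw [hcut]; simp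
  have hne : u ≠ u' := fun e => (mem_cut_single.1 hkc).2.2 (by rw [hk]; exact Sym2.mk_isDiag_iff.2 e)
  have hu : pj {u} u' u = u' := by simp [pj]
  have hv : ∀ v, v ≠ u → pj {u} u' v = v := fun v h => by simp [pj, h]
  have P1 : ∀ Z v, v ≠ u → v ≠ u' → cut (ctr en {u} u') Z {v} = cut en Z {v} := by
    intro Z v h1 h2
    refine (cut_map _).trans (congrArg _ ?_)
    ext w
    simp only [Set.mem_preimage, Set.mem_singleton_iff]
    by_cases h : w = u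
    · rw [h, hu]; exact ⟨fun e => absurd e.symm h2, fun e => absurd e.symm h1⟩
    · rw [hv w h]
  have P2 : ∀ Z, cut (ctr en {u} u') Z {u} = ∅ := by
    intro Z
    refine (cut_map _).trans ?_
    ext i
    simp only [mem_cut, notMem_empty, iff_false]
    rintro ⟨-, x, y, -, hx, -⟩
    simp only [Set.mem_preimage, Set.mem_singleton_iff] at hx
    by_cases h : x = u
    · rw [h, hu] at hx; exact hne hx.symm
    · rw [hv x h] at hx; exact h hx
  have P3 : ∀ Z, cut (ctr en {u} u') Z {u'} = cut en Z {u, u'} := by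
    intro Z
    refine (cut_map _).trans (congrArg _ ?_)
    ext w
    simp only [Set.mem_preimage, Set.mem_singleton_iff, Set.mem_insert_iff]
    by_cases h : w = u
    · rw [h, hu]; simp
    · rw [hv w h]; simp [h]
  refine ⟨P1, fun Z => ⟨P2 Z, P3 Z⟩, fun Z hZ hC => ?_⟩
  have hA : ∀ D, Ev en D → Ev (ctr en {u} u') D := fun D hD v => by
    by_cases h1 : v = u
    · rw [h1, dgr, P2]; simp
    · by_cases h2 : v = u'
      · rw [h2, dgr, P3]; exact (hPAR en D).2.1 hD _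
      · rw [dgr, P1 D v h1 h2]; exact hD v
  have hB : ∀ D, Ev (ctr en {u} u') D → Even (dgr en D u) → Ev en D := fun D hD he =>
    (hPAR en D).2.2.2.2.2.1 u' fun v ho => by
      by_contra h2
      by_cases h1 : v = u
      · rw [h1] at ho; exact Nat.not_odd_iff_even.2 he ho
      · have := hD v
        rw [dgr, P1 D v h1 h2] at this
        exact Nat.not_odd_iff_even.2 this ho
  have hd : (ctr en {u} u' k).IsDiag := by
    rw [ctr, hk, Sym2.map_mk, hu, hv u' hne.symm]; exact Sym2.mk_isDiag_iff.2 rfl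
  have hE : ∀ D : Finset ι, Ev (ctr en {u} u') (D.erase k) ↔ Ev (ctr en {u} u') D := fun D => by
    refine forall_congr' fun v => ?_
    have : cut (ctr en {u} u') (D.erase k) {v} = cut (ctr en {u} u') D {v} := by
      ext i
      simp only [mem_cut_single, mem_erase]
      exact ⟨fun h => ⟨h.1.2, h.2⟩, fun h => ⟨⟨fun e => h.2.2 (e ▸ hd), h.1⟩, h.2⟩⟩
    rw [dgr, dgr, this]
  have hF : ∀ D ⊆ Γ, (Even (dgr en D u) ↔ (j ∈ D ↔ k ∈ D)) := fun D hD => by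
    rw [dgr, cut_eq_inter hD, hcut]
    by_cases h1 : j ∈ D <;> by_cases h2 : k ∈ D
    · rw [inter_eq_right.2 (by simp [insert_subset_iff, h1, h2]), card_pair hjk]; simp [h1, h2]
    · simp [h1, h2]
    · simp [h1, h2]
    · simp [h1, h2]
  have hkZ : k ∉ Z := fun h => (mem_erase.1 (hZ h)).1 rfl
  have hZΓ : Z ⊆ Γ := hZ.trans (erase_subset _ _)
  have hI : insert k Z ⊆ Γ := insert_subset (cut_subset hkc) hZΓ
  refine ⟨fun hj => ⟨insert_nonempty _ _, ?_, fun D hD he => ?_⟩,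
    fun hj => ⟨hC.1, ?_, fun D hD he => hC.2.2 D hD (hA D he)⟩⟩
  · refine hB _ ((hE _).1 ?_) ((hF _ hI).2 (by simp [hj]))
    rw [erase_insert hkZ]; exact hC.2.1
  · have h1 := (hF D (hD.trans hI)).1 (he u)
    rcases hC.2.2 (D.erase k) (subset_insert_iff.1 hD) ((hE D).2 (hA D he)) with h | h
    · left
      have h2 : j ∉ D := fun h2 => by
        have : j ∈ D.erase k := mem_erase.2 ⟨hjk, h2⟩
        rw [h] at this; exact notMem_empty _ this
      rwa [erase_eq_of_notMem fun h3 => h2 (h1.2 h3)] at h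
    · right
      have h2 : j ∈ D := mem_of_mem_erase (h ▸ hj)
      rw [← h, insert_erase (h1.1 h2)]
  · exact hB _ hC.2.1 ((hF _ hZΓ).2 (by simp [hj, hkZ]))

end Pool.Agent.P.MP_bb4f54_co.T3

end sUNC

section sVIA
/-! Step VIA. -/

set_option autoImplicit false
set_option linter.unusedSectionVars false

namespace Pool.Agent.P.MP_bb4f54_co.T3

open Finset

namespace VIAx

variable {V : Type} {G : SimpleGraph V}

theorem refl (X : Set V) (a : V) : Via G X a a :=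
  ⟨SimpleGraph.Walk.nil, fun v hv => Or.inl (by simpa using hv)⟩

theorem adj (X : Set V) {a b : V} (h : G.Adj a b) : Via G X a b :=
  ⟨SimpleGraph.Walk.cons h SimpleGraph.Walk.nil, fun v hv => by
    simp only [SimpleGraph.Walk.support_cons, SimpleGraph.Walk.support_nil, List.mem_cons,
      List.not_mem_nil, or_false] at hv
    rcases hv with h | h
    · exact Or.inl h
    · exact Or.inr (Or.inl h)⟩

theorem symm {X : Set V} {a b : V} (h : Via G X a b) : Via G X b a := by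
  obtain ⟨w, hw⟩ := h
  refine ⟨w.reverse, fun v hv => ?_⟩
  rw [SimpleGraph.Walk.support_reverse, List.mem_reverse] at hv
  have := hw v hv
  tauto

theorem mono {X X' : Set V} {a b : V} (h : Via G X a b)
    (hX : ∀ w ∈ X, w = a ∨ w = b ∨ w ∈ X') : Via G X' a b := by
  obtain ⟨w, hw⟩ := h
  refine ⟨w, fun v hv => ?_⟩
  rcases hw v hv with h | h | h
  · exact Or.inl h
  · exact Or.inr (Or.inl h)
  · exact hX v h

theorem trans {X : Set V} {a b c : V} (h : Via G X a b) (h' : Via G X b c)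
    (hb : b = a ∨ b = c ∨ b ∈ X) : Via G X a c := by
  obtain ⟨w, hw⟩ := h
  obtain ⟨w', hw'⟩ := h'
  refine ⟨w.append w', fun v hv => ?_⟩
  rcases (SimpleGraph.Walk.mem_support_append_iff w w').1 hv with h | h
  · rcases hw v h with h | h | h
    · exact Or.inl h
    · rw [h]; exact hb
    · exact Or.inr (Or.inr h)
  · rcases hw' v h with h | h | h
    · rw [h]; exact hb
    · exact Or.inr (Or.inl h)
    · exact Or.inr (Or.inr h)

end VIAx

theorem p_VIA (hRCP : S_RCP) (hSEG : S_SEG) (hWLK : S_WLK) :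
    S_VIA := by
  intro V _ _ G
  refine ⟨VIAx.refl, fun X a b h => VIAx.adj X h, fun X a b h => VIAx.symm h,
    fun X X' a b h hX => VIAx.mono h hX, fun X a b c h h' hb => VIAx.trans h h' hb, ?_, ?_, ?_⟩
  · intro Γ hΓ v n a b X hs hab
    induction b, hab using Nat.le_induction with
    | base => intro _ _; exact VIAx.refl X _
    | succ b hab ih =>
      intro hb hX
      have h1 := ih (by omega) (fun i h1 h2 => hX i h1 (by omega))
      have h2 : Via G X (v b) (v (b + 1)) := VIAx.adj X (mk_mem_EG.1 (hΓ (hs.ed b (by omega))))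
      refine VIAx.trans h1 h2 ?_
      rcases hab.eq_or_lt with h | h
      · exact Or.inl (by rw [h])
      · exact Or.inr (Or.inr (hX b h (by omega)))
  · intro A hA a b X hp hX
    obtain ⟨w, -, -, -, hw⟩ := (hWLK G).2.2.1 A hA a b hp
    refine ⟨w, fun v hv => ?_⟩
    rcases hw v hv with h | h
    · exact Or.inl h
    · exact hX v h
  · intro A hA a b X hr hX
    obtain ⟨w, hw⟩ := (hWLK G).2.2.2 A hA a b hr
    exact ⟨w, fun v hv => Or.inr (Or.inr (hX v (hw v hv)))⟩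

end Pool.Agent.P.MP_bb4f54_co.T3

end sVIA

section sG3u
/-! Step G3u. -/

set_option autoImplicit false
set_option linter.unusedSectionVars false

namespace Pool.Agent.P.MP_bb4f54_co.T3

open Finset

theorem p_G3u (hSEG : S_SEG) (hSTG : S_STG) (hW3B : S_W3B) :
    S_G3u := by
  intro V _ _ G S T O Γ v n pos r m P k Λ Ys i hC hW hi
  obtain ⟨b1, b2, b3, -⟩ := hW3B hC hW
  have p0 := fun ρ => hW.pp ρ i (by omega)
  have p2 := fun ρ => hW.pp ρ (i + 2) hi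
  have m1 := fun ρ => hW.mo ρ i (i + 1) (by omega) (by omega)
  have m2 := fun ρ => hW.mo ρ (i + 1) (i + 2) (by omega) hi
  have mo : ∀ ρ a b, a ≤ b → b < 7 → P ρ a ≤ P ρ b := fun ρ a b h hb =>
    h.eq_or_lt.elim (fun e => e ▸ le_rfl) fun e => (hW.mo ρ a b e hb).le
  have sg := fun ρ => (hSEG Γ (r ρ) (m ρ) (hW.rl ρ).1.1).1
  have sub : ∀ ρ a b, a ≤ b → b < 7 → MM r P a b ρ ⊆ MM r P 0 6 ρ := fun ρ a b h hb e he => by
    have a1 := mo ρ 0 a (by omega) (by omega)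
    have a2 := mo ρ b 6 (by omega) (by omega)
    obtain ⟨j, j1, j2, rfl⟩ := mem_ES.1 he
    exact mem_ES.2 ⟨j, by omega, by omega, rfl⟩
  have key := hSTG (lv r P i) (lv r P (i + 1)) (lv r P (i + 2)) (MM r P i (i + 1))
    (MM r P (i + 1) (i + 2)) (Λ (i + 1))
    (fun ρ => {u | ∃ a, P ρ i ≤ a ∧ a ≤ P ρ (i + 2) ∧ u = r ρ a})
    {u | u ∈ O ∧ ∃ ρ, u ∈ spt id (Λ (i + 1) ρ)}
    (DD {u | u ∈ O ∧ ∃ ρ, u ∈ spt id (Λ (i + 1) ρ)} r P i (i + 2)) (k (i + 1))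
    ⟨hW.kO _ (by omega), 0, (b3 _ (by omega) 0).1⟩ (fun _ h => .inl h)
    (fun ρ ρ' h => Set.disjoint_left.2 fun u ⟨a, a1, a2, e⟩ ⟨b, _, b2, e'⟩ =>
      h (b1 ρ ρ' a b ((p0 ρ).1.trans_le a1) (a2.trans_lt (p2 ρ).2) (b2.trans (p2 ρ').2.le)
        (e.symm.trans e')).1)
    (fun ρ => Set.disjoint_left.2 fun u hu ⟨a, _, a2, e⟩ =>
      b2 ρ a (a2.trans (p2 ρ).2.le) (e ▸ hu.1))
    (fun ρ => ?_) (hW.ld _ (by omega))
  · refine ⟨_, _, _, fun h h' => (key h h').imp fun Q hQ => ⟨hQ.1, fun e he => ?_, hQ.2.2⟩⟩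
    obtain ⟨ρ, h | h | h⟩ := hQ.2.1 e he
    · exact ⟨ρ, .inr (sub ρ _ _ (by omega) (by omega) h)⟩
    · exact ⟨ρ, .inr (sub ρ _ _ (by omega) (by omega) h)⟩
    · exact ⟨ρ, .inl h⟩
  have q0 := p0 ρ
  have q2 := p2 ρ
  have n1 := m1 ρ
  have n2 := m2 ρ
  obtain ⟨s1, -, -, s2⟩ := sg ρ (P ρ i) (P ρ (i + 1)) n1.le (by omega)
  obtain ⟨s3, -, -, s4⟩ := sg ρ (P ρ (i + 1)) (P ρ (i + 2)) n2.le (by omega)
  obtain ⟨s5, -, s6⟩ := hW.lg (i + 1) (by omega) ρ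
  refine ⟨⟨_, n1.le, n2.le, rfl⟩, .inr ⟨ρ, _, n1, n2, rfl⟩, s1, s3, s5, fun w hw => ?_,
    fun w hw => ?_, fun w hw hw' => ?_,
    fun w hw => (s6 w hw).imp (fun h => ⟨h, ρ, hw⟩) id⟩
  · obtain ⟨a, a1, a2, rfl⟩ := s2 w hw
    refine ⟨⟨a, a1, by omega, rfl⟩, ?_⟩
    rcases a1.eq_or_lt with rfl | h
    · exact .inr rfl
    · exact .inl (.inr ⟨ρ, a, h, by omega, rfl⟩)
  · obtain ⟨a, a1, a2, rfl⟩ := s4 w hw
    refine ⟨⟨a, by omega, a2, rfl⟩, ?_⟩
    rcases a2.eq_or_lt with rfl | h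
    · exact .inr rfl
    · exact .inl (.inr ⟨ρ, a, by omega, h, rfl⟩)
  · obtain ⟨a, a1, a2, rfl⟩ := s2 w hw
    obtain ⟨b, c1, c2, e⟩ := s4 _ hw'
    have := (b1 ρ ρ a b (by omega) (by omega) (by omega) e).2
    exact congrArg (r ρ) (by omega)

end Pool.Agent.P.MP_bb4f54_co.T3

end sG3u

section sSPP
/-! Step SPP. -/

set_option autoImplicit false
set_option linter.unusedSectionVars false

namespace Pool.Agent.P.MP_bb4f54_co.T3

open Finset

theorem p_SPP (hPAR : S_PAR) (hODA : S_ODA) (hRCP : S_RCP) :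
    S_SPP := by
  intro V ι _ _ _ en A x y hA
  obtain ⟨o1, o2, -, -, -, o6, -, o8⟩ := hODA en
  obtain ⟨-, r2, r3, r4, -⟩ := hRCP en
  have step : ∀ (A : Finset ι) (x y v : V), Pth en A x y → v ∈ spt en A →
      ∃ B ⊆ A, Pth en B x v ∧ Pth en (A \ B) v y := fun A x y v h hv => by
    obtain ⟨B, hB, hp⟩ := r2 A x v (r4 A x y v h hv)
    exact ⟨B, hB, hp, o2 A B x y v hB h.1 hp.1, h.2.mono sdiff_subset⟩
  refine ⟨fun v hv => ?_, fun i hi => ?_⟩
  · obtain ⟨B, hB, h1, h2⟩ := step A x y v hA hv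
    refine ⟨B, A \ B, (union_sdiff_of_subset hB).symm, disjoint_sdiff, h1, h2,
      fun w hw1 hw2 => ?_⟩
    by_contra hne
    obtain ⟨C, hC, -, c2⟩ := step B x v w h1 hw1
    obtain ⟨D, hD, d1, -⟩ := step (A \ B) v y w h2 hw2
    have hd : Disjoint (B \ C) D := disjoint_sdiff.mono sdiff_subset hD
    have he := hA.2 (B \ C ∪ D) (union_subset (sdiff_subset.trans hB) (hD.trans sdiff_subset))
      (od_self.1 (o1 _ _ w v w hd c2.1 d1.1))
    have := (o8 D v w d1.1 (Ne.symm hne)).1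
    rw [(union_eq_empty.1 he).2] at this
    simp at this
  · have hy : ¬ Rc en (A.erase i) x y := fun h => by
      obtain ⟨B, hB, hp⟩ := r2 _ x y h
      have := hA.2 (A \ B) sdiff_subset
        (od_self.1 (o2 A B x y y (hB.trans (erase_subset _ _)) hA.1 hp.1))
      have hi' : i ∈ A \ B := mem_sdiff.2 ⟨hi, fun hb => by simpa using hB hb⟩
      simp [this] at hi'
    have hodd := ((hPAR en A).2.2.1 x y hA.1 {v | Rc en (A.erase i) x v}).2
      fun h => hy (h.1 Rc.refl')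
    obtain ⟨j, hj⟩ := card_pos.1 hodd.pos
    have hji : j = i := by
      by_contra hne
      have : j ∈ cut en (A.erase i) {v | Rc en (A.erase i) x v} :=
        mem_cut.2 ⟨mem_erase.2 ⟨hne, (mem_cut.1 hj).1⟩, (mem_cut.1 hj).2⟩
      simp [cut_rc] at this
    subst hji
    obtain ⟨a, b, e, ha, hb⟩ := (mem_cut.1 hj).2
    refine ⟨a, b, e, ha, ?_, fun h => hb (Rc.trans' ha h)⟩
    obtain ⟨B, hB, hp⟩ := r2 _ x a ha
    have h1 := o2 A B x y a (hB.trans (erase_subset _ _)) hA.1 hp.1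
    have h2 := o2 (A \ B) {j} a y b
      (singleton_subset_iff.2 (mem_sdiff.2 ⟨hi, fun hb => by simpa using hB hb⟩)) h1
      (o6 j a b e)
    refine (r3 _ b y h2).mono' fun k hk => ?_
    simp only [mem_sdiff, mem_singleton] at hk
    exact mem_erase.2 ⟨hk.2, hk.1.1⟩

end Pool.Agent.P.MP_bb4f54_co.T3

end sSPP

section sF1d
/-! Step F1d. -/

set_option autoImplicit false
set_option linter.unusedSectionVars false

namespace Pool.Agent.P.MP_bb4f54_co.T3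

open Finset

theorem p_F1d (hWLK : S_WLK) :
    S_F1d := by
  intro V _ _ G Γ T O R σ hTO hU hk
  obtain ⟨w, hw, hl, -, hs⟩ := (hWLK G).2.2.1 σ.A hU.sA σ.k σ.y hU.pA
  obtain ⟨w', -, hl', -, hs'⟩ := (hWLK G).2.2.1 σ.B hU.sB σ.k σ.z hU.pB
  have hcA := hU.cA
  have hcB := hU.cB
  have sw : ∀ u ∈ w.support, u ∈ (↑O : Set V) ∨ u = σ.y := fun u hu => by
    rcases hs u hu with h | h
    · exact Or.inl (h ▸ hk)
    · exact hU.iA u h
  have oy : OW G ↑O R σ.k σ.y := ⟨w, by omega, sw⟩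
  have oz : OW G ↑O R σ.k σ.z := ⟨w', by omega, fun u hu => by
    rcases hs' u hu with h | h
    · exact Or.inl (h ▸ hk)
    · exact hU.iB u h⟩
  have hne : σ.y ≠ σ.k := fun h => hTO _ hU.hy (h ▸ hk)
  obtain ⟨a, hadj, p, hp⟩ := SimpleGraph.Walk.exists_eq_cons_of_ne hne w.reverse
  have hpath : (SimpleGraph.Walk.cons hadj p).IsPath := hp ▸ hw.reverse
  have hny : σ.y ∉ p.support := ((SimpleGraph.Walk.cons_isPath_iff _ _).1 hpath).2
  have hlen : p.length + 1 = w.length := by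
    rw [← SimpleGraph.Walk.length_reverse w, hp, SimpleGraph.Walk.length_cons]
  have sp : ∀ u ∈ p.support, u ∈ (↑O : Set V) := fun u hu => by
    have h1 : u ∈ w.reverse.support := by
      rw [hp, SimpleGraph.Walk.support_cons]
      exact List.mem_cons_of_mem _ hu
    rw [SimpleGraph.Walk.support_reverse, List.mem_reverse] at h1
    exact (sw u h1).resolve_right fun h => hny (h ▸ hu)
  have oa : OW G ↑O p.length a σ.k := ⟨p, le_rfl, fun u hu => Or.inl (sp u hu)⟩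
  have ox : OW G ↑O 1 σ.k σ.x := ⟨hU.adj.symm.toWalk, by simp, fun u hu => by
    simp only [SimpleGraph.Walk.support_cons, SimpleGraph.Walk.support_nil, List.mem_cons,
      List.not_mem_nil, or_false] at hu
    rcases hu with h | h
    · exact Or.inl (h ▸ hk)
    · exact Or.inr h⟩
  refine ⟨a, sp a p.start_mem_support, hadj, (oa.trans ox hk).mono subset_rfl (by omega),
    (oa.trans oz hk).mono subset_rfl (by omega), ⟨p.reverse, ?_, fun u hu => Or.inl (sp u ?_)⟩,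
    oy, oz⟩
  · rw [SimpleGraph.Walk.length_reverse]; omega
  · rwa [SimpleGraph.Walk.support_reverse, List.mem_reverse] at hu

end Pool.Agent.P.MP_bb4f54_co.T3

end sF1d

section sORI
/-! Step ORI. -/

set_option autoImplicit false
set_option linter.unusedSectionVars false

namespace Pool.Agent.P.MP_bb4f54_co.T3

open Finset

theorem p_ORI (hSEG : S_SEG) (hTDF : S_TDF) (hCXB : S_CXB) :
    S_ORI := by
  intro V _ _ G S T O Γ v n pos y Ys hC hy hY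
  obtain ⟨c1, -, -, -, c5, -⟩ := hCXB hC
  have hR := c1 y hy
  have key : ∀ t ∈ T, v t = v y → 0 < pos t ∧ pos t < n y ∧ v y (pos t) = t := by
    intro t ht e
    have d1 := hC.sk.dT t ht
    have d2 := hC.sk.dT y hy
    have e2 := ((hTDF Γ v n pos hC.td y t d2 d1).1 e).1
    exact ⟨hC.td.p0 t d1, e2 ▸ hC.td.pn t d1, e ▸ hC.td.vx t d1⟩
  by_cases h0 : v y 0 ∈ Ys
  · refine ⟨v y, n y, hR, h0, fun h => hY ⟨fun _ => h, fun _ => h0⟩, rfl, fun t ht e => ?_⟩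
    exact ⟨pos t, key t ht e⟩
  · have h1 : v y (n y) ∈ Ys := by
      by_contra h
      exact hY ⟨fun h' => absurd h' h0, fun h' => absurd h' h⟩
    refine ⟨fun i => v y (n y - i), n y, c5 _ _ hR, by simpa using h1, by simpa using h0, ?_,
      fun t ht e => ?_⟩
    · have := (hSEG Γ (v y) (n y) hR.th.sg).2.2.2.2.2 0 (n y) (Nat.zero_le _) le_rfl
      rwa [Nat.sub_self, Nat.sub_zero] at this
    · obtain ⟨a, b, c⟩ := key t ht e
      refine ⟨n y - pos t, by omega, by omega, ?_⟩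
      change v y (n y - (n y - pos t)) = t
      rw [show n y - (n y - pos t) = pos t by omega]
      exact c

end Pool.Agent.P.MP_bb4f54_co.T3

end sORI
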