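import Pool.Agent.P.MP_bb4f54_co.T3.Iface2
import Pool.Agent.P.MP_bb4f54_co.T3.Iface1
import Pool.Agent.P.MP_bb4f54_co.T3.Iface6
import Pool.Agent.P.MP_bb4f54_co.T3.Iface3
import Pool.Agent.P.MP_bb4f54_co.T3.Iface7

section sO1d
/-! Step O1d. -/

set_option autoImplicit false
set_option linter.unusedSectionVars false

namespace Pool.Agent.P.MP_bb4f54_co.T3

open Finset

namespace O1dx

variable {V ι : Type} [DecidableEq V] [DecidableEq ι] {en : ι → Sym2 V} {Γ : Finset ι}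
  {W : Finset V} {u x y : V} {e g g' : ι}

lemma tri_mem (h : cut en Γ {u} = {e, g, g'}) : e ∈ Γ ∧ g ∈ Γ ∧ g' ∈ Γ := by
  have := cut_subset (en := en) (Γ := Γ) (Y := {u})
  simpa [h, insert_subset_iff] using this

lemma ends (hC : Cub en Γ W) (he : e ∈ Γ) (h : en e = s(x, y)) : x ∈ W ∧ y ∈ W ∧ x ≠ y :=
  ⟨hC.sp e he x (by simp [h]), hC.sp e he y (by simp [h]), fun h' => hC.nl e he (by simp [h, h'])⟩

lemma tri_ne (hC : Cub en Γ W) (hu : u ∈ W) (h : cut en Γ {u} = {e, g, g'}) :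
    e ≠ g ∧ e ≠ g' ∧ g ≠ g' := ne_of_card_three (h ▸ hC.dg u hu)

end O1dx

open O1dx in
theorem p_O1d (_hPAR : S_PAR) (hCY1 : S_CY1) (hGIR : S_GIR) :
    S_O1d := by
  intro V ι _ _ _ en Γ W ρ ua ub uc w wa wb wc wc' R H H' p a b c ga ga' gb gb' gc gc' r h h'
    hL Fa Fb Fc Fw Fx n1 n2 n3 n4
  have hC := hL.rz.rt.cub
  have st := hL.rz.rt.st
  have ea := hL.rz.ea
  have eb := hL.rz.eb
  have ec := hL.rz.ec
  have five := hL.five
  obtain ⟨-, -, -, par, G⟩ := hGIR en Γ W hC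
  obtain ⟨tri, -, con, -⟩ := G hL.nt
  replace par := par (by omega)
  replace tri := tri five
  obtain ⟨ma, mb, mc⟩ := tri_mem st
  obtain ⟨-, mga, mga'⟩ := tri_mem Fa.st
  obtain ⟨-, mgb, mgb'⟩ := tri_mem Fb.st
  obtain ⟨-, mgc, mgc'⟩ := tri_mem Fc.st
  obtain ⟨-, mh, -⟩ := tri_mem Fx.st
  obtain ⟨wρ, wua, l1⟩ := ends hC ma ea
  obtain ⟨-, wub, l2⟩ := ends hC mb eb
  obtain ⟨-, wuc, l3⟩ := ends hC mc ec
  obtain ⟨-, -, l4⟩ := ends hC mga Fa.e1
  obtain ⟨-, wwa, l5⟩ := ends hC mga' Fa.e2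
  obtain ⟨-, -, l6⟩ := ends hC mgb Fb.e1
  obtain ⟨-, wwb, l7⟩ := ends hC mgb' Fb.e2
  obtain ⟨-, wwc, l8⟩ := ends hC mgc Fc.e1
  obtain ⟨-, wwc', l9⟩ := ends hC mgc' Fc.e2
  obtain ⟨-, wH, l10⟩ := ends hC mh Fx.e1
  obtain ⟨d1, d2, d3⟩ := tri_ne hC wρ st
  obtain ⟨d4, d5, d6⟩ := tri_ne hC wua Fa.st
  obtain ⟨d7, d8, d9⟩ := tri_ne hC wub Fb.st
  obtain ⟨d10, d11, d12⟩ := tri_ne hC wuc Fc.st
  obtain ⟨d13, -, -⟩ := tri_ne hC wwa Fx.st
  have Aa : Ad en Γ ρ ua := ⟨a, ma, ea⟩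
  have Ab : Ad en Γ ρ ub := ⟨b, mb, eb⟩
  have Ac : Ad en Γ ρ uc := ⟨c, mc, ec⟩
  have Aga : Ad en Γ ua w := ⟨ga, mga, Fa.e1⟩
  have Aga' : Ad en Γ ua wa := ⟨ga', mga', Fa.e2⟩
  have Agb' : Ad en Γ ub wb := ⟨gb', mgb', Fb.e2⟩
  have Agc : Ad en Γ uc wc := ⟨gc, mgc, Fc.e1⟩
  have Agc' : Ad en Γ uc wc' := ⟨gc', mgc', Fc.e2⟩
  have Ah : Ad en Γ wa H := ⟨h, mh, Fx.e1⟩
  have pe : ∀ {i j : ι} {x y z : V}, i ∈ Γ → j ∈ Γ → i ≠ j → en i = s(x, y) → en j = s(x, z) →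
      y ≠ z := fun hi hj hn e1 e2 e => hn (par _ hi _ hj (by rw [e1, e2, e]))
  have sw : ∀ {i : ι} {x y : V}, en i = s(x, y) → en i = s(y, x) := fun e => e.trans Sym2.eq_swap
  have tr : ∀ {x y z t : V}, Ad en Γ x y → Ad en Γ x z → Ad en Γ y t → z ≠ t :=
    fun h1 h2 h3 e => tri _ _ _ h1 h3 (e ▸ h2.symm)
  have v1 : ua ≠ ub := pe ma mb d1 ea eb
  have v2 : ua ≠ uc := pe ma mc d2 ea ec
  have v3 : ub ≠ uc := pe mb mc d3 eb ec
  have v4 : ρ ≠ w := pe ma mga d4 (sw ea) Fa.e1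
  have v5 : ρ ≠ wa := pe ma mga' d5 (sw ea) Fa.e2
  have v6 : w ≠ wa := pe mga mga' d6 Fa.e1 Fa.e2
  have v7 : uc ≠ w := tr Aa Ac Aga
  have v8 : ub ≠ wa := tr Aa Ab Aga'
  have v9 : uc ≠ wa := tr Aa Ac Aga'
  let U : Set V := {v | v ≠ ρ ∧ v ≠ ua ∧ v ≠ ub ∧ v ≠ w ∧ v ≠ uc ∧ v ≠ wa}
  have uρ : ρ ∉ U := by simp [U]
  have uua : ua ∉ U := by simp [U]
  have uub : ub ∉ U := by simp [U]
  have uw : w ∉ U := by simp [U]
  have uuc : uc ∉ U := by simp [U]
  have uwa : wa ∉ U := by simp [U]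
  have hH : H ∈ U := by
    refine ⟨(tr Aga'.symm Ah Aa.symm), (pe mga' mh d13 (sw Fa.e2) Fx.e1).symm, fun e => ?_,
      tr Aga'.symm Ah Aga, fun e => n3 (e ▸ Ah), l10.symm⟩
    have : h ∈ cut en Γ {ub} := mem_cut_single.2 ⟨mh, by simp [Fx.e1, e], hC.nl h mh⟩
    have e1 := Fx.e1
    rw [Fb.st, mem_insert, mem_insert, mem_singleton] at this
    rcases this with t | t | t <;> rw [t, e] at e1
    · rw [eb, Sym2.eq_iff] at e1; grind
    · rw [Fb.e1, Sym2.eq_iff] at e1; grind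
    · rw [Fb.e2, Sym2.eq_iff] at e1; grind
  have hwc0 : ∀ {j : ι} {x : V}, j ∈ Γ → c ≠ j → en j = s(uc, x) → uc ≠ x → x ∈ U :=
    fun {j x} hj hn e hl =>
      have A : Ad en Γ uc x := ⟨j, hj, e⟩
      ⟨(pe mc hj hn (sw ec) e).symm, (tr Ac Aa A).symm, (tr Ac Ab A).symm,
        fun e => n1 (e ▸ A.symm), hl.symm, fun e => n3 (e ▸ A.symm)⟩
  have hwc := hwc0 mgc d10 Fc.e1 l8
  have hwc' := hwc0 mgc' d11 Fc.e2 l9
  have hwb : wb ∈ U := ⟨(pe mb mgb' d8 (sw eb) Fb.e2).symm, (tr Ab Aa Agb').symm, l7.symm,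
    (pe mgb mgb' d9 Fb.e1 Fb.e2).symm, (tr Ab Ac Agb').symm, n2.symm⟩
  have hc : cut en Γ U ⊆ {gb', r, gc, gc', h, h'} := by
    intro i hi
    obtain ⟨hi, x, y, e, hx, hy⟩ := mem_cut.1 hi
    have hy' : i ∈ cut en Γ {y} := mem_cut_single.2 ⟨hi, by simp [e], hC.nl i hi⟩
    have inn : ∀ {j : ι} {s t : V}, en j = s(s, t) → s ∉ U → t ∉ U → i ≠ j := by
      intro j s t ej hs ht ee
      have : x ∈ en j := by simp [← ee, e]
      rw [ej, Sym2.mem_iff] at this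
      rcases this with t | t
      · exact hs (t ▸ hx)
      · exact ht (t ▸ hx)
    have i1 := inn ea uρ uua
    have i2 := inn eb uρ uub
    have i3 := inn ec uρ uuc
    have i4 := inn Fa.e1 uua uw
    have i5 := inn Fa.e2 uua uwa
    have i6 := inn Fb.e1 uub uw
    have : y = ρ ∨ y = ua ∨ y = ub ∨ y = w ∨ y = uc ∨ y = wa := by
      by_contra hh
      exact hy (by simpa [U, not_or] using hh)
    rcases this with t | t | t | t | t | t <;> rw [t] at hy'
    · rw [st] at hy'; simp [i1, i2, i3] at hy'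
    · rw [Fa.st] at hy'; simp [i1, i4, i5] at hy'
    · rw [Fb.st] at hy'; simp [i2, i6] at hy'; simp [hy']
    · rw [Fw.st] at hy'; simp [i4, i6] at hy'; simp [hy']
    · rw [Fc.st] at hy'; simp [i3] at hy'; rcases hy' with t | t <;> simp [t]
    · rw [Fx.st] at hy'; simp [i5] at hy'; rcases hy' with t | t <;> simp [t]
  have hR : Rc en (ins en Γ U) H wc := by
    refine (con U ⟨ρ, wρ, ua, wua, l1, uρ, uua⟩ ((card_le_card hc).trans card_le_six)
      H wH wc wwc hH hwc).resolve_right fun hz => n4 ?_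
    have t1 := (hz wc' wwc' hwc').resolve_right (pe mgc mgc' d12 Fc.e1 Fc.e2).symm
    rcases hz wb wwb hwb with t | t
    · exact (t.trans t1.symm) ▸ Agc'.symm
    · exact t ▸ Agc.symm
  let T : Finset ι := {b, gb, ga, ga', h, gc, c}
  have hT : T ∪ ins en Γ U ⊆ Γ := union_subset
    (by simp [T, insert_subset_iff, mb, mgb, mga, mga', mh, mgc, mc]) ins_subset
  have stp : ∀ {j : ι} {s t : V}, j ∈ T → en j = s(s, t) → j ≠ b →
      Rc en ((T ∪ ins en Γ U).erase b) s t :=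
    fun hj e hn => Rc.step (mem_erase.2 ⟨hn, mem_union_left _ hj⟩) e
  have nb : ∀ {j : ι} {s t : V}, en j = s(s, t) → ρ ≠ s → ρ ≠ t → j ≠ b := by
    intro j s t e h1 h2 ee
    have : ρ ∈ en j := by simp [ee, eb]
    simp [e, h1, h2] at this
  have hP : Rc en ((T ∪ ins en Γ U).erase b) ρ ub :=
    (stp (by simp [T]) ec d3.symm).trans' <|
    (stp (by simp [T]) Fc.e1 (nb Fc.e1 l3 hwc.1.symm)).trans' <|
    (hR.symm'.mono' fun j hj => mem_erase.2 ⟨fun e => uρ ((mem_ins.1 hj).2 ρ (by simp [e, eb])),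
      mem_union_right _ hj⟩).trans' <|
    (stp (by simp [T]) (sw Fx.e1) (nb Fx.e1 v5 hH.1.symm)).trans' <|
    (stp (by simp [T]) (sw Fa.e2) (nb Fa.e2 l1 v5)).trans' <|
    (stp (by simp [T]) Fa.e1 (nb Fa.e1 l1 v4)).trans' <|
    stp (by simp [T]) (sw Fb.e1) d7.symm
  obtain ⟨-, c2, -, c4, -⟩ := hCY1 en
  obtain ⟨Z, hZ, cy, zb⟩ := c2 _ b ρ ub (mem_union_left _ (by simp [T])) eb hP
  have key : ∀ v ∉ U, ∀ i j, i ∈ Z → v ∈ en i → (∀ k ∈ T, v ∈ en k → k = i ∨ k = j) → j ∈ Z := by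
    intro v hv i j hi hvi hk
    refine c4 _ Z i j v cy.2.1 hZ hi (mem_cut_single.2 ⟨hZ hi, hvi, hC.nl i (hT (hZ hi))⟩) ?_
    intro k hk'
    obtain ⟨k1, k2, -⟩ := mem_cut_single.1 hk'
    rcases mem_union.1 k1 with t | t
    · simpa using hk k t k2
    · exact absurd ((mem_ins.1 t).2 v k2) hv
  obtain ⟨q1, q2, q3, q4, q5, q6⟩ := hH
  obtain ⟨s1, s2, s3, s4, s5, s6⟩ := hwc
  have all : ∀ v i j, (∀ k ∈ T, v ∈ en k → k = i ∨ k = j) ↔
      ((v = ρ ∨ v = ub → b = i ∨ b = j) ∧ (v = ub ∨ v = w → gb = i ∨ gb = j) ∧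
      (v = ua ∨ v = w → ga = i ∨ ga = j) ∧ (v = ua ∨ v = wa → ga' = i ∨ ga' = j) ∧
      (v = wa ∨ v = H → h = i ∨ h = j) ∧ (v = uc ∨ v = wc → gc = i ∨ gc = j) ∧
      (v = ρ ∨ v = uc → c = i ∨ c = j)) := fun v i j => by
    simp only [T, mem_insert, mem_singleton, forall_eq_or_imp, forall_eq, eb, ec, Fa.e1, Fa.e2,
      Fb.e1, Fc.e1, Fx.e1, Sym2.mem_iff]
  have zc : c ∈ Z := key ρ uρ b c zb (by simp [eb]) ((all _ _ _).2 (by grind))
  have zgb : gb ∈ Z := key ub uub b gb zb (by simp [eb]) ((all _ _ _).2 (by grind))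
  have zga : ga ∈ Z := key w uw gb ga zgb (by simp [Fb.e1]) ((all _ _ _).2 (by grind))
  have zga' : ga' ∈ Z := key ua uua ga ga' zga (by simp [Fa.e1]) ((all _ _ _).2 (by grind))
  have zh : h ∈ Z := key wa uwa ga' h zga' (by simp [Fa.e2]) ((all _ _ _).2 (by grind))
  have zgc : gc ∈ Z := key uc uuc c gc zc (by simp [ec]) ((all _ _ _).2 (by grind))
  exact ⟨Z, hZ.trans hT, cy, zb, zc, zgb, zga, zga', zgc, zh⟩

end Pool.Agent.P.MP_bb4f54_co.T3

end sO1d

section sWLK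
/-! Step WLK. -/

set_option autoImplicit false
set_option linter.unusedSectionVars false

namespace Pool.Agent.P.MP_bb4f54_co.T3

open Finset

namespace WLKx

variable {V : Type} [Fintype V] [DecidableEq V]

lemma walk_of_pth (hODA : S_ODA) (hPD1 : S_PD1) (G : SimpleGraph V) (b : V) (n : ℕ) :
    ∀ A ⊆ EG G, A.card = n → ∀ a, Pth id A a b → ∃ w : G.Walk a b, w.IsPath ∧
      w.length = A.card ∧ (∀ e, e ∈ w.edges ↔ e ∈ A) ∧
      ∀ v ∈ w.support, v = a ∨ v ∈ spt id A := by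
  induction n using Nat.strong_induction_on with
  | _ n ih =>
    intro A hA hn a hp
    by_cases hab : a = b
    · subst hab
      have h0 := hp.eq_empty
      subst h0
      refine ⟨SimpleGraph.Walk.nil, SimpleGraph.Walk.IsPath.nil, by simp, by simp, ?_⟩
      intro v hv
      left
      simpa using hv
    · have h1 : dgr id A a = 1 := ((hPD1 id).1 A a b hp hab).1
      obtain ⟨e, he⟩ := card_eq_one.1 h1
      have hec : e ∈ cut id A {a} := by rw [he]; exact mem_singleton_self e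
      obtain ⟨heA, hae, -⟩ := mem_cut_single.1 hec
      obtain ⟨c, rfl⟩ := Sym2.mem_iff_exists.1 hae
      have hadj : G.Adj a c := mk_mem_EG.1 (hA heA)
      have hsub : ({s(a, c)} : Finset (Sym2 V)) ⊆ A := by simpa using heA
      have hod : Od id (A \ {s(a, c)}) c b :=
        (hODA id).2.1 A {s(a, c)} a b c hsub hp.1 ((hODA id).2.2.2.2.2.1 _ a c rfl)
      have hp' : Pth id (A \ {s(a, c)}) c b := ⟨hod, hp.2.mono sdiff_subset⟩
      have hcard : (A \ {s(a, c)}).card + 1 = A.card := by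
        have := card_sdiff_add_card_eq_card hsub
        simpa using this
      obtain ⟨w, hw, hl, hed, hs⟩ := ih (A \ {s(a, c)}).card (by omega) _
        (sdiff_subset.trans hA) rfl c hp'
      have hna : a ∉ w.support := by
        intro h
        rcases hs a h with h | ⟨f, hf, haf⟩
        · exact hadj.ne h
        · have hf' := mem_sdiff.1 hf
          have : f ∈ cut id A {a} := mem_cut_single.2 ⟨hf'.1, haf, hp.2.nl f hf'.1⟩
          rw [he] at this
          exact hf'.2 this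
      refine ⟨SimpleGraph.Walk.cons hadj w, hw.cons hna, ?_, ?_, ?_⟩
      · rw [SimpleGraph.Walk.length_cons, hl, hcard]
      · intro f
        rw [SimpleGraph.Walk.edges_cons, List.mem_cons, hed, mem_sdiff, mem_singleton]
        constructor
        · rintro (rfl | h)
          · exact heA
          · exact h.1
        · intro h
          by_cases hf : f = s(a, c)
          · exact Or.inl hf
          · exact Or.inr ⟨h, hf⟩
      · intro v hv
        rw [SimpleGraph.Walk.support_cons, List.mem_cons] at hv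
        rcases hv with h | h
        · exact Or.inl h
        · rcases hs v h with h | h
          · exact Or.inr ⟨s(a, c), heA, by simp [h]⟩
          · exact Or.inr (spt_mono sdiff_subset h)

lemma rc_of_walk (G : SimpleGraph V) {a b : V} (w : G.Walk a b) :
    Rc id w.edges.toFinset a b := by
  induction w with
  | nil => exact Rc.refl'
  | @cons u v z h p ih =>
    have h1 : Rc id (SimpleGraph.Walk.cons h p).edges.toFinset u v :=
      Rc.step (i := s(u, v)) (by simp) rfl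
    refine h1.trans' (ih.mono' ?_)
    intro e he
    rw [List.mem_toFinset] at he ⊢
    rw [SimpleGraph.Walk.edges_cons]
    exact List.mem_cons_of_mem _ he

end WLKx

open WLKx in
theorem p_WLK (hODA : S_ODA) (hRCP : S_RCP) (hCAT : S_CAT) (hPD1 : S_PD1) :
    S_WLK := by
  intro V _ _ G
  refine ⟨?_, ?_, ?_, ?_⟩
  · intro Z hZ hcy
    obtain ⟨e, he⟩ := hcy.1
    induction e using Sym2.ind with
    | _ x y =>
      have hadj : G.Adj x y := mk_mem_EG.1 (hZ he)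
      have hsub : ({s(x, y)} : Finset (Sym2 V)) ⊆ Z := by simpa using he
      have hp := ((hCAT id).2.2.1 Z {s(x, y)} x y hcy hsub
        ((hODA id).2.2.2.2.2.1 _ x y rfl) hadj.ne).2.symm
      obtain ⟨w, hw, hl, hed, -⟩ := walk_of_pth hODA hPD1 G x _ _
        (sdiff_subset.trans hZ) rfl y hp
      have hcard : (Z \ {s(x, y)}).card + 1 = Z.card := by
        have := card_sdiff_add_card_eq_card hsub
        simpa using this
      have hc : (SimpleGraph.Walk.cons hadj w).IsCycle := by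
        rw [SimpleGraph.Walk.cons_isCycle_iff]
        refine ⟨hw, ?_⟩
        rw [hed]
        simp
      have hlen : (SimpleGraph.Walk.cons hadj w).length = Z.card := by
        rw [SimpleGraph.Walk.length_cons, hl, hcard]
      exact ⟨⟨x, _, hc, hlen⟩, hlen ▸ hc.three_le_length⟩
  · intro a b w
    obtain ⟨A, hA, hp⟩ := (hRCP id).2.1 _ a b (rc_of_walk G w)
    have hed : ∀ e ∈ A, e ∈ w.edges := fun e he => List.mem_toFinset.1 (hA he)
    refine ⟨A, fun e he => mem_EG.2 (w.edges_subset_edgeSet (hed e he)), hp, ?_, hed, ?_⟩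
    · calc A.card ≤ w.edges.toFinset.card := card_le_card hA
        _ ≤ w.edges.length := List.toFinset_card_le _
        _ = w.length := w.length_edges
    · rintro v ⟨e, he, hv⟩
      obtain ⟨c, hc⟩ := Sym2.mem_iff_exists.1 hv
      have h2 : s(v, c) ∈ w.edges := by
        have := hed e he
        rw [show e = s(v, c) from hc] at this
        exact this
      exact w.fst_mem_support_of_mem_edges h2
  · intro A hA a b hp
    exact walk_of_pth hODA hPD1 G b _ A hA rfl a hp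
  · intro A hA a b h
    induction h with
    | refl =>
      refine ⟨SimpleGraph.Walk.nil, fun v hv => ?_⟩
      have : v = a := by simpa using hv
      rw [this]
      exact Rc.refl'
    | @tail c d hc hcd ih =>
      obtain ⟨w, hw⟩ := ih
      obtain ⟨i, hi, e⟩ := hcd
      have hadj : G.Adj c d := by
        have := hA hi
        rw [show i = s(c, d) from e] at this
        exact mk_mem_EG.1 this
      refine ⟨w.concat hadj, fun v hv => ?_⟩
      rw [SimpleGraph.Walk.support_concat] at hv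
      have hv' : v ∈ w.support ∨ v = d := by simpa using hv
      rcases hv' with h | h
      · exact hw v h
      · rw [h]
        exact Rc.trans' hc (Rc.step hi e)

end Pool.Agent.P.MP_bb4f54_co.T3

end sWLK

section sARC
/-! Step ARC. -/

set_option autoImplicit false
set_option linter.unusedSectionVars false

namespace Pool.Agent.P.MP_bb4f54_co.T3

open Finset

namespace ARCx

variable {V ι : Type} {en : ι → Sym2 V}

lemma cut_congr {A : Finset ι} {Y Y' : Set V} (h : ∀ v ∈ spt en A, (v ∈ Y ↔ v ∈ Y')) :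
    cut en A Y = cut en A Y' := by
  ext i
  simp only [mem_cut, cr_iff]
  refine and_congr_right fun hi => and_congr ?_ ?_
  · exact exists_congr fun v => and_congr_right fun hv => h v ⟨i, hi, hv⟩
  · exact exists_congr fun v => and_congr_right fun hv => not_congr (h v ⟨i, hi, hv⟩)

lemma cut_const {A : Finset ι} {Y : Set V} {p : Prop} (h : ∀ v ∈ spt en A, (v ∈ Y ↔ p)) :
    cut en A Y = ∅ := by
  ext i
  simp only [mem_cut, cr_iff, notMem_empty, iff_false]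
  rintro ⟨hi, ⟨a, ha, ha'⟩, b, hb, hb'⟩
  exact hb' ((h b ⟨i, hi, hb⟩).2 ((h a ⟨i, hi, ha⟩).1 ha'))

end ARCx

theorem p_ARC (hPAR : S_PAR) (hRCP : S_RCP) (hPD1 : S_PD1) :
    S_ARC := by
  intro V ι _ _ _ en Γ B x y hN hA
  obtain ⟨hP, hB, hxy, hd⟩ := hA
  have h1 : ∀ i ∈ Γ, ∀ v ∈ en i, v ∈ spt en B → v ≠ x → v ≠ y → i ∈ B := by
    intro i hi v hv hs hx hy
    have h2 : cut en B {v} = cut en Γ {v} := eq_of_subset_of_card_le (cut_mono hB) (by
      have h3 := hd v hs hx hy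
      have h4 := (hPD1 en).2.1 B x y v hP hs hx hy
      rw [dgr] at h3 h4
      omega)
    have h3 : i ∈ cut en Γ {v} := mem_cut_single.2 ⟨hi, hv, hN i hi⟩
    rw [← h2] at h3
    exact cut_subset h3
  refine ⟨h1, fun D hD hE => ?_, fun Y => ?_⟩
  · have h2 : ∀ v, Odd (dgr en (D ∩ B) v) → v = x ∨ v = y := by
      intro v hv
      by_contra hc
      push Not at hc
      have hs : v ∈ spt en B :=
        spt_mono inter_subset_right (mem_spt_of_dgr hv.pos.ne')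
      have h3 : cut en (D ∩ B) {v} = cut en D {v} := by
        rw [cut_inter, inter_eq_left]
        intro i hi
        have h4 := mem_cut_single.1 hi
        exact h1 i (hD h4.1) v h4.2.1 hs hc.1 hc.2
      rw [dgr, h3] at hv
      exact Nat.not_odd_iff_even.2 (hE v hs hc.1 hc.2) hv
    rcases (hPAR en (D ∩ B)).2.2.2.2.1 x y h2 with h3 | h3
    · right
      rw [disjoint_comm, disjoint_iff_inter_eq_empty]
      exact hP.2 _ inter_subset_right h3
    · left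
      have h4 : B \ (D ∩ B) = ∅ := hP.2 _ sdiff_subset fun v => by
        have h5 := dgr_sdiff (en := en) (inter_subset_right : D ∩ B ⊆ B) v
        have h6 := (h3 v).trans (hP.1 v).symm
        rw [Nat.odd_iff, Nat.odd_iff] at h6
        rw [Nat.even_iff]
        omega
      exact (sdiff_eq_empty_iff_subset.1 h4).trans inter_subset_left
  · let Y' : Set V := {v | ((v ∈ spt en B ∧ v ≠ x ∧ v ≠ y) ∧ x ∈ Y) ∨
      (¬ (v ∈ spt en B ∧ v ≠ x ∧ v ≠ y) ∧ v ∈ Y)}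
    have ha : ∀ v, (v ∉ spt en B ∨ v = x ∨ v = y) → (v ∈ Y' ↔ v ∈ Y) := by
      intro v hv
      have : ¬ (v ∈ spt en B ∧ v ≠ x ∧ v ≠ y) := by tauto
      exact ⟨fun h => h.elim (fun h => absurd h.1 this) fun h => h.2, fun h => Or.inr ⟨this, h⟩⟩
    have hb : ∀ v ∈ spt en B, v ≠ y → (v ∈ Y' ↔ x ∈ Y) := by
      intro v hv hy
      by_cases hx : v = x
      · rw [ha v (Or.inr (Or.inl hx)), hx]
      · exact ⟨fun h => h.elim (fun h => h.2) fun h => absurd ⟨hv, hx, hy⟩ h.1,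
          fun h => Or.inl ⟨⟨hv, hx, hy⟩, h⟩⟩
    have hy' : y ∈ Y' ↔ y ∈ Y := ha y (Or.inr (Or.inr rfl))
    have hc : cut en (Γ \ B) Y' = cut en (Γ \ B) Y := ARCx.cut_congr fun v hv => ha v (by
      obtain ⟨i, hi, hv⟩ := hv
      by_contra h
      push Not at h
      exact (mem_sdiff.1 hi).2 (h1 i (mem_sdiff.1 hi).1 v hv h.1 h.2.1 h.2.2))
    have he : (x ∈ Y ↔ y ∈ Y) → cut en B Y' = ∅ := fun h =>
      ARCx.cut_const (p := x ∈ Y) fun v hv => by
        by_cases hy : v = y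
        · rw [hy, hy', h]
        · exact hb v hv hy
    have hf : ¬ (x ∈ Y ↔ y ∈ Y) → cut en B Y' = cut en B {y} := fun h => by
      by_cases hx : x ∈ Y
      · rw [← cut_compl (Y := {y})]
        refine ARCx.cut_congr fun v hv => ?_
        by_cases hy : v = y
        · rw [hy, hy']
          simp only [Set.mem_compl_iff, Set.mem_singleton_iff]
          tauto
        · rw [hb v hv hy]
          simp only [Set.mem_compl_iff, Set.mem_singleton_iff]
          tauto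
      · refine ARCx.cut_congr fun v hv => ?_
        by_cases hy : v = y
        · rw [hy, hy']
          simp only [Set.mem_singleton_iff]
          tauto
        · rw [hb v hv hy]
          simp only [Set.mem_singleton_iff]
          tauto
    have hg : ¬ (x ∈ Y ↔ y ∈ Y) → (cut en B Y').card = 1 := fun h => by
      rw [hf h]
      exact ((hPD1 en).1 B x y hP hxy).2
    refine ⟨Y', ha, hb, hc, he, fun h => ⟨hf h, hg h⟩, ?_⟩
    have h2 := card_cut_sdiff (en := en) (Y := Y) hB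
    have h3 := card_cut_sdiff (en := en) (Y := Y') hB
    rw [hc] at h3
    by_cases h : x ∈ Y ↔ y ∈ Y
    · rw [he h, card_empty] at h3
      omega
    · have h4 := ((hPAR en B).2.2.1 x y hP.1 Y).2 h
      rw [Nat.odd_iff] at h4
      rw [hg h] at h3
      omega

end Pool.Agent.P.MP_bb4f54_co.T3

end sARC

section sA7
/-! Step A7. -/

set_option autoImplicit false
set_option linter.unusedSectionVars false

namespace Pool.Agent.P.MP_bb4f54_co.T3

open Finset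

namespace A7x

lemma core (hODA : S_ODA) (hRCP : S_RCP) (hPD1 : S_PD1) (hARC : S_ARC) (hSEG : S_SEG)
    (hSWP : S_SWP) (hA1a : S_A1a) {V : Type} [Fintype V] [DecidableEq V] {G : SimpleGraph V}
    {O : Finset V} {Φ A P : Finset (Sym2 V)} {w : ℕ → V} {m p : ℕ} {y : V} (h : Al G O Φ)
    (hA : A ⊆ ins id (EG G) ↑O) (pA : Pth id A (w p) y) (hP : P ⊆ Φ) (pP : Pth id P (w p) y)
    (hw : Seg (Sg G O Φ) w m) (hm : p + (A.card + 1) ≤ m) (he : s(w p, w (p + 1)) ∈ P) :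
    ∃ i, 1 ≤ i ∧ i ≤ A.card ∧ y = w (p + i) := by
  by_contra hno
  obtain ⟨a1, -, -, a4, -, -, -⟩ := hA1a h
  obtain ⟨s1, s2, -, -, -, -⟩ := hSEG _ w m hw
  obtain ⟨b1, -, b3, b4⟩ := s1 p (p + (A.card + 1)) (by omega) hm
  have ar := (s2 p (p + (A.card + 1)) (by omega) hm).1
  set B := ES w p (p + (A.card + 1)) with hB
  set z := w (p + (A.card + 1)) with hz
  have sub : Φ ⊆ Sg G O Φ := subset_union_left
  have BP : B ⊆ P := by
    refine ((hARC id _ B _ _ a1.nl ar).2.1 P (hP.trans sub) fun u hu h1 h2 => ?_).resolve_right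
      fun hd => disjoint_left.1 hd (mem_ES.2 ⟨p, le_rfl, by omega, rfl⟩) he
    rw [← Nat.not_odd_iff_even, pP.1 u, not_not]
    refine iff_of_false h1 fun e => ?_
    obtain ⟨i, i1, i2, rfl⟩ := b4 u hu
    have j1 : i ≠ p := fun e => h1 (by rw [e])
    have j2 : i ≠ p + (A.card + 1) := fun e => h2 (by rw [e])
    exact hno ⟨i - p, by omega, by omega, by rw [← e]; congr 1; omega⟩
  have BΦ : B ⊆ Φ := BP.trans hP
  have r1 : Rc id (P \ B) z y := (hRCP id).2.2.1 _ _ _ ((hODA id).2.1 P B _ _ _ BP pP.1 b1.1)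
  have r2 : Rc id (Φ \ B ∪ A) (w p) z :=
    (((hRCP id).2.2.1 _ _ _ pA.1).mono' subset_union_right).trans'
      (r1.symm'.mono' ((sdiff_subset_sdiff hP subset_rfl).trans subset_union_left))
  have dΦ : ∀ u ∈ spt id B, u ≠ w p → u ≠ z → dgr id Φ u = 2 := fun u hu h1 h2 => by
    have k1 := (hPD1 id).2.1 B _ _ u b1 hu h1 h2
    have k2 := dgr_mono (en := id) BΦ u
    have k3 := dgr_mono (en := id) sub u
    have k4 := ar.2.2.2 u hu h1 h2
    omega
  have ar' : Arc id Φ B (w p) z := ⟨b1, BΦ, ar.2.2.1, dΦ⟩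
  have po : ∀ a, Po G O a → a ∉ spt id B ∨ a = w p ∨ a = z := fun a ⟨ha, t, ht, hadj⟩ => by
    by_contra hc
    simp only [not_or, not_not] at hc
    obtain ⟨h0, h1, h2⟩ := hc
    have k1 := dΦ a h0 h1 h2
    have k2 := ar.2.2.2 a h0 h1 h2
    have k3 : dgr id (Sg G O Φ) a = dgr id Φ a + dgr id (cut id (EG G) ↑O) a := dgr_union a4 a
    have k4 : 0 < dgr id (cut id (EG G) ↑O) a := card_pos.2 ⟨s(a, t), mem_cut_single.2
      ⟨(mem_cut_mk (en := id) rfl).2 ⟨mk_mem_EG.2 hadj, Or.inl ⟨ha, ht⟩⟩, Sym2.mem_mk_left a t,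
        by simpa using hadj.ne⟩⟩
    omega
  have k := h.mn (Φ \ B ∪ A) (union_subset (sdiff_subset.trans h.sub) hA) fun a b ha hb hr =>
    hSWP id Φ _ B _ _ a b (a1.nl.mono sub) ar' subset_union_left r2 (po a ha) (po b hb)
      (h.con a b ha hb hr)
  have k1 := card_union_le (Φ \ B) A
  have k2 := card_sdiff_add_card_eq_card BΦ
  omega

end A7x

theorem p_A7 (hODA : S_ODA) (hRCP : S_RCP) (hPD1 : S_PD1) (hARC : S_ARC) (hSEG : S_SEG) (hSWP : S_SWP) (hA1a : S_A1a) (hA1b : S_A1b) :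
    S_A7 := by
  intro V _ _ G O R Φ A v n pos x y h hT hR dx dy hr h1 h2
  have a7 := (hA1a h).2.2.2.2.2.2
  have hx : x ∈ O := by by_contra hc; have := a7 x hc; omega
  have hy : y ∈ O := by by_contra hc; have := a7 y hc; omega
  have hA : A ⊆ ins id (EG G) ↑O := fun e he => mem_ins.2 ⟨hr.sub he, fun u hu => by
    rcases hr.sp u ⟨e, he, hu⟩ with k | rfl | rfl
    · exact hR k
    · exact hx
    · exact hy⟩
  obtain ⟨P, hP, pP⟩ := (hRCP id).2.1 Φ x y ((hA1b h).2 x hx y hy (by omega) (by omega)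
    (((hRCP id).2.2.1 _ _ _ hr.pth.1).mono' hA))
  have d1 := ((hPD1 id).1 P x y pP hr.ne).1
  obtain ⟨e, he⟩ : (cut id P {x}).Nonempty := card_pos.1 (by rw [← dgr, d1]; exact one_pos)
  have sg := hT.sg x dx
  have p0 := hT.p0 x dx
  have pn := hT.pn x dx
  have vx := hT.vx x dx
  obtain ⟨-, -, s3, -, s5, -⟩ := hSEG _ _ _ sg
  have he' : e ∈ cut id (Sg G O Φ) {v x (pos x)} := by
    rw [vx]; exact cut_mono (hP.trans subset_union_left) he
  rw [s3 _ p0 pn, mem_insert, mem_singleton] at he'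
  have eP : e ∈ P := cut_subset he
  rcases he' with rfl | rfl
  · have e0 : n x - (n x - pos x) = pos x := by omega
    have e1 : n x - (n x - pos x + 1) = pos x - 1 := by omega
    obtain ⟨i, i1, i2, hi⟩ := A7x.core hODA hRCP hPD1 hARC hSEG hSWP hA1a (y := y)
      (p := n x - pos x) h hA (by simpa only [e0, vx] using hr.pth) hP
      (by simpa only [e0, vx] using pP) s5 (by omega)
      (by simp only [e0, e1]; rwa [Sym2.eq_swap])
    obtain ⟨c1, -, c3⟩ := hT.co x dx (n x - (n x - pos x + i)) (by omega) (by omega)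
    rw [← hi] at c1 c3
    exact ⟨c1, by omega, by omega⟩
  · obtain ⟨i, i1, i2, hi⟩ := A7x.core hODA hRCP hPD1 hARC hSEG hSWP hA1a (y := y)
      (p := pos x) h hA (by rw [vx]; exact hr.pth) hP (by rw [vx]; exact pP) sg (by omega) eP
    obtain ⟨c1, -, c3⟩ := hT.co x dx (pos x + i) (by omega) (by omega)
    rw [← hi] at c1 c3
    exact ⟨c1, by omega, by omega⟩

end Pool.Agent.P.MP_bb4f54_co.T3

end sA7

section sPAR
/-! Step PAR. -/

set_option autoImplicit false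
set_option linter.unusedSectionVars false

namespace Pool.Agent.P.MP_bb4f54_co.T3

open Finset

namespace PARx

variable {V ι : Type} [Fintype V] [DecidableEq V] [DecidableEq ι] {en : ι → Sym2 V}
  {A : Finset ι}

open Classical in
theorem hs (U : Finset V) : ∑ v ∈ U, dgr en A v =
    2 * (A.filter fun i => ¬ (en i).IsDiag ∧ ∀ v ∈ en i, v ∈ U).card + (cut en A ↑U).card := by
  simp only [dgr, cut, card_filter]
  rw [sum_comm, mul_sum, ← sum_add_distrib]
  refine sum_congr rfl fun i _ => ?_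
  induction en i using Sym2.ind with
  | _ a b =>
    by_cases h : a = b
    · simp [h, cr_mk]
    · rw [sum_congr rfl (g := fun v => (if v = a then 1 else 0) + if v = b then 1 else 0),
        sum_add_distrib, sum_ite_eq', sum_ite_eq']
      · by_cases h1 : a ∈ U <;> by_cases h2 : b ∈ U <;> simp [cr_mk, h, h1, h2]
      · intro v _
        by_cases h1 : v = a <;> by_cases h2 : v = b <;> simp_all [cr_single]

theorem p1 (Y : Finset V) : (cut en A ↑Y).card % 2 = (∑ v ∈ Y, dgr en A v) % 2 := by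
  rw [hs]; omega

theorem p4 (Y : Set V) (h : ∀ v ∈ Y, Even (dgr en A v)) : Even (cut en A Y).card := by
  classical
  have := p1 (en := en) (A := A) Y.toFinset
  rw [Set.coe_toFinset] at this
  rw [Nat.even_iff, this, ← Nat.even_iff]
  exact even_sum _ fun v hv => h v (Set.mem_toFinset.1 hv)

theorem p3 {x y : V} (h : Od en A x y) (Y : Set V) :
    Odd (cut en A Y).card ↔ ¬ (x ∈ Y ↔ y ∈ Y) := by
  classical
  have := p1 (en := en) (A := A) Y.toFinset
  rw [Set.coe_toFinset] at this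
  rw [Nat.odd_iff, this, sum_nat_mod, sum_congr rfl
    (g := fun v => ((if v = x then 1 else 0) + if v = y then 1 else 0) % 2), ← sum_nat_mod,
    sum_add_distrib, sum_ite_eq', sum_ite_eq']
  · by_cases h1 : x ∈ Y <;> by_cases h2 : y ∈ Y <;> simp [h1, h2]
  · intro v _
    have := h v
    rw [Nat.odd_iff] at this
    split_ifs with h1 h2 h2
    · rw [iff_true_intro (iff_of_true h1 h2)] at this
      simp only [not_true, iff_false] at this; omega
    · exact this.2 fun c => h2 (c.1 h1)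
    · exact this.2 fun c => h1 (c.2 h2)
    · rw [iff_true_intro (iff_of_false h1 h2)] at this
      simp only [not_true, iff_false] at this; omega

theorem p6 (x : V) (h : ∀ v, Odd (dgr en A v) → v = x) : Ev en A := fun v => by
  by_cases e : v = x
  · have := p4 (en := en) (A := A) {x}ᶜ fun w hw => Nat.not_odd_iff_even.1 fun o => hw (h w o)
    rwa [cut_compl, ← e] at this
  · exact Nat.not_odd_iff_even.1 fun o => e (h v o)

theorem p5 (x y : V) (h : ∀ v, Odd (dgr en A v) → v = x ∨ v = y) : Ev en A ∨ Od en A x y := by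
  by_cases hx : Odd (dgr en A x)
  · by_cases hy : Odd (dgr en A y)
    · by_cases e : x = y
      · exact Or.inl (p6 x fun v o => (h v o).elim id fun e' => e'.trans e.symm)
      · refine Or.inr fun v => ⟨fun o c => ?_, fun c => ?_⟩
        · rcases h v o with a | a
          · exact e (a.symm.trans (c.1 a))
          · exact e ((c.2 a).symm.trans a)
        · by_cases a : v = x
          · rwa [a]
          · have : v = y := by tauto
            rwa [this]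
    · exact Or.inl (p6 x fun v o => (h v o).resolve_right fun a => hy (a ▸ o))
  · exact Or.inl (p6 y fun v o => (h v o).resolve_left fun a => hx (a ▸ o))

end PARx

theorem p_PAR :
    S_PAR := by
  intro V ι _ _ _ en A
  refine ⟨PARx.p1, fun h Y => PARx.p4 Y fun v _ => h v, fun x y => PARx.p3, PARx.p4, PARx.p5,
    PARx.p6, fun h U => ?_⟩
  rw [PARx.hs]
  congr 3
  ext i
  simp only [mem_filter, mem_ins, mem_coe]
  exact and_congr_right fun hi => and_iff_right (h i hi)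

end Pool.Agent.P.MP_bb4f54_co.T3

end sPAR

section sMAS
/-! Step MAS. -/

set_option autoImplicit false
set_option linter.unusedSectionVars false

namespace Pool.Agent.P.MP_bb4f54_co.T3

open Finset

namespace MASx

variable {V ι : Type} [DecidableEq V] [DecidableEq ι] {en : ι → Sym2 V} {Γ : Finset ι}
  {W : Finset V}

theorem star (hc : Cub en Γ W) (hs : ∀ i ∈ Γ, ∀ j ∈ Γ, en i = en j → i = j) {u x y z : V}
    {e g g' : ι} (hu : u ∈ W) (st : cut en Γ {u} = {e, g, g'}) (h1 : en e = s(u, x))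
    (h2 : en g = s(u, y)) (h3 : en g' = s(u, z)) :
    (u ≠ x ∧ u ≠ y ∧ u ≠ z ∧ x ≠ y ∧ x ≠ z ∧ y ≠ z) ∧ (x ∈ W ∧ y ∈ W ∧ z ∈ W) ∧
      ∀ t, Ad en Γ t u ↔ t = x ∨ t = y ∨ t = z := by
  obtain ⟨n1, n2, n3⟩ := ne_of_card_three (a := e) (b := g) (c := g') (st ▸ hc.dg u hu)
  have m1 : e ∈ Γ := cut_subset (st.ge (by simp))
  have m2 : g ∈ Γ := cut_subset (st.ge (by simp))
  have m3 : g' ∈ Γ := cut_subset (st.ge (by simp))
  have l : ∀ i ∈ Γ, ∀ t, en i = s(u, t) → u ≠ t := fun i hi t h e =>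
    hc.nl i hi (by rw [h]; exact Sym2.mk_isDiag_iff.2 e)
  refine ⟨⟨l e m1 x h1, l g m2 y h2, l g' m3 z h3, ?_, ?_, ?_⟩,
    ⟨hc.sp e m1 x (by simp [h1]), hc.sp g m2 y (by simp [h2]), hc.sp g' m3 z (by simp [h3])⟩,
    fun t => ⟨?_, ?_⟩⟩
  · exact fun h => n1 (hs e m1 g m2 (by rw [h1, h2, h]))
  · exact fun h => n2 (hs e m1 g' m3 (by rw [h1, h3, h]))
  · exact fun h => n3 (hs g m2 g' m3 (by rw [h2, h3, h]))
  · rintro ⟨i, hi, h⟩
    have h4 : i ∈ ({e, g, g'} : Finset ι) :=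
      st.le (mem_cut_single.2 ⟨hi, by simp [h], hc.nl i hi⟩)
    rw [Sym2.eq_swap] at h
    simp only [mem_insert, mem_singleton] at h4
    rcases h4 with rfl | rfl | rfl
    · exact .inl (Sym2.congr_right.1 (h.symm.trans h1))
    · exact .inr (.inl (Sym2.congr_right.1 (h.symm.trans h2)))
    · exact .inr (.inr (Sym2.congr_right.1 (h.symm.trans h3)))
  · rintro (rfl | rfl | rfl)
    exacts [⟨e, m1, h1.trans Sym2.eq_swap⟩, ⟨g, m2, h2.trans Sym2.eq_swap⟩,
      ⟨g', m3, h3.trans Sym2.eq_swap⟩]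

theorem fork [Fintype V] (hGIR : S_GIR) {ρ ua ub uc w w' : V} {p : V → ι → ℝ} {a b c g g' : ι}
    (h : Loc en Γ W ρ p a b c ua ub uc) (hf : Fk en Γ ua a g g' w w') :
    (ρ ≠ ua ∧ ρ ≠ ub ∧ ρ ≠ uc ∧ ua ≠ ub ∧ ua ≠ uc ∧ ub ≠ uc) ∧
      (ua ≠ w ∧ ua ≠ w' ∧ ρ ≠ w ∧ ρ ≠ w' ∧ w ≠ w') ∧ (ub ≠ w ∧ ub ≠ w' ∧ uc ≠ w ∧ uc ≠ w') ∧
      (ua ∈ W ∧ w ∈ W ∧ w' ∈ W) ∧ ∀ t, Ad en Γ t ua ↔ t = ρ ∨ t = w ∨ t = w' := by
  obtain ⟨-, -, -, g1, g2⟩ := hGIR en Γ W h.rz.rt.cub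
  have hs := g1 (le_trans (by norm_num) h.five)
  have ht := (g2 h.nt).1 h.five
  obtain ⟨a1, a2, a3⟩ := star h.rz.rt.cub hs h.rz.rt.hρ h.rz.rt.st h.rz.ea h.rz.eb h.rz.ec
  obtain ⟨b1, b2, b3⟩ := star h.rz.rt.cub hs a2.1 hf.st (h.rz.ea.trans Sym2.eq_swap) hf.e1 hf.e2
  have k : ∀ x y, Ad en Γ x ρ → Ad en Γ y ua → x ≠ y := fun x y h1 h2 e =>
    ht ρ ua x ((b3 ρ).2 (.inl rfl)) (e ▸ h2.symm) h1
  have kb := (a3 ub).2 (.inr (.inl rfl))
  have kc := (a3 uc).2 (.inr (.inr rfl))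
  have k1 := (b3 w).2 (.inr (.inl rfl))
  have k2 := (b3 w').2 (.inr (.inr rfl))
  exact ⟨a1, b1.2, ⟨k _ _ kb k1, k _ _ kb k2, k _ _ kc k1, k _ _ kc k2⟩, ⟨a2.1, b2.2⟩, b3⟩

end MASx

theorem p_MAS (hGIR : S_GIR) (hNRM : S_NRM) :
    S_MAS := by
  intro V ι _ _ _ en Γ W ρ ua ub uc wa wa' wb wb' wc wc' p a b c ga ga' gb gb' gc gc' h fa fb fc
  obtain ⟨⟨r1, r2, r3, r4, r5, r6⟩, ⟨a1, a2, a3, a4, a5⟩, ⟨a6, a7, a8, a9⟩, ⟨x1, x2, x3⟩, -⟩ :=
    MASx.fork hGIR h fa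
  obtain ⟨-, ⟨b1, b2, b3, b4, b5⟩, ⟨b6, b7, b8, b9⟩, ⟨y1, y2, y3⟩, -⟩ := MASx.fork hGIR h.s12 fb
  obtain ⟨-, ⟨c1, c2, c3, c4, c5⟩, ⟨c6, c7, c8, c9⟩, ⟨z1, z2, z3⟩, hA⟩ := MASx.fork hGIR h.s13 fc
  refine ⟨?_, ?_, ?_, ?_, hA, fun hN l hl hW => ?_⟩
  · simp [*]
  · simp [*]
  · simp [*]
  · simp only [List.mem_cons, List.not_mem_nil, or_false]
    rintro y (rfl | rfl | rfl | rfl | rfl | rfl | rfl | rfl | rfl)
    exacts [⟨x1, r1.symm⟩, ⟨y1, r2.symm⟩, ⟨z1, r3.symm⟩, ⟨x2, a3.symm⟩, ⟨x3, a4.symm⟩,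
      ⟨y2, b3.symm⟩, ⟨y3, b4.symm⟩, ⟨z2, c3.symm⟩, ⟨z3, c4.symm⟩]
  · rw [← List.sum_toFinset _ hl]
    refine le_trans (sum_le_sum_of_subset_of_nonneg (fun y hy => ?_) fun _ _ _ => sq_nonneg _)
      ((hNRM.2 (W.erase ρ) (PP en Γ p) fun _ _ => pp_nonneg h.rz.rt.pos).2.2 _ rfl hN).1
    have := hW y (List.mem_toFinset.1 hy)
    exact mem_erase.2 ⟨this.2, this.1⟩

end Pool.Agent.P.MP_bb4f54_co.T3

end sMAS

section sG3t
/-! Step G3t. -/

set_option autoImplicit false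
set_option linter.unusedSectionVars false

namespace Pool.Agent.P.MP_bb4f54_co.T3

open Finset

namespace G3tx

variable {V : Type} [Fintype V] [DecidableEq V]

theorem dgr_eq {Γ D : Finset (Sym2 V)} {w : V} (h : w ∉ spt id D) :
    dgr id (Γ ∪ D) w = dgr id Γ w := by
  unfold dgr
  congr 1
  ext e
  simp only [mem_cut_single, mem_union]
  exact ⟨fun h' => ⟨h'.1.resolve_right fun c => h ⟨e, c, h'.2.1⟩, h'.2⟩,
    fun h' => ⟨Or.inl h'.1, h'.2⟩⟩

theorem step (hTCB : S_TCB) (hADC : S_ADC) (hDIF : S_DIF) (hFRE : S_FRE) (hW3B : S_W3B)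
    {G : SimpleGraph V} {S T O : Finset V} {Γ : Finset (Sym2 V)} {v : V → ℕ → V} {n pos : V → ℕ}
    {r : Fin 3 → ℕ → V} {m : Fin 3 → ℕ} {P : Fin 3 → ℕ → ℕ} {k : ℕ → V}
    {Λ : ℕ → Fin 3 → Finset (Sym2 V)} {Ys : Set V} (c : C0 G S T O Γ v n pos)
    (w : W3 G T O Γ r m P k Λ Ys) {D : Finset (Sym2 V)} (hD : TC id (Γ ∪ D)) {i : ℕ} (hi : i < 7)
    (h : ∀ ρ, ∀ u ∈ spt id (Λ i ρ), u ∉ spt id D) :
    TC id (Γ ∪ (D ∪ (Λ i 0 ∪ Λ i 1 ∪ Λ i 2))) := by
  obtain ⟨b1, -, b3, -⟩ := hW3B c w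
  have f5 := (hFRE c.g3 c.sk).2.2.2.2.1
  have d2 : ∀ ρ, dgr id (Γ ∪ D) (r ρ (P ρ i)) = 2 := fun ρ => by
    rw [dgr_eq (h ρ _ (b3 i hi ρ).2.1)]
    exact (w.rl ρ).th.sg.dg _ (w.pp ρ i hi).1 (w.pp ρ i hi).2
  have ne : ∀ ρ ρ', ρ ≠ ρ' → r ρ (P ρ i) ≠ r ρ' (P ρ' i) := fun ρ ρ' hne e =>
    hne (b1 ρ ρ' _ _ (w.pp ρ i hi).1 (w.pp ρ i hi).2 (w.pp ρ' i hi).2.le e).1
  have sp : ∀ ρ, ∀ u ∈ spt id (Λ i ρ), u ∈ spt id (Γ ∪ D) → u = r ρ (P ρ i) := fun ρ u h1 h2 => by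
    rw [spt_union] at h2
    exact ((w.lg i hi ρ).2.2 u h1).resolve_left fun a => f5 u a (h2.resolve_right (h ρ u h1))
  have key := (hADC (Γ ∪ D) (Λ i 1) (Λ i 2) (r 0 (P 0 i)) (k i) (r 1 (P 1 i)) (r 2 (P 2 i)) hD
    (d2 0) (d2 1) (d2 2) (by rw [dgr_eq (h 0 _ (b3 i hi 0).1)]; exact c.sk.dO _ (w.kO i hi))
    (ne 0 1 (by decide)) (ne 0 2 (by decide)) (ne 1 2 (by decide))
    ((hTCB id _ hD).2.2.2.2 Γ subset_union_left _ _ ((hDIF Γ c.tc).1 _ _ _ _ _ _ (w.rl 1).th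
      (w.rl 2).th (w.dj 1 2 (by decide)) (w.pp 1 i hi).1 (w.pp 1 i hi).2 (w.pp 2 i hi).1
      (w.pp 2 i hi).2))
    (w.lg i hi 1).1 (w.lg i hi 2).1 (w.ld i hi 1 2 (by decide)) (sp 1) (sp 2)).1
  rwa [← w.l1 i hi, union_assoc] at key

end G3tx

theorem p_G3t (hTCB : S_TCB) (hADC : S_ADC) (hDIF : S_DIF) (hFRE : S_FRE) (hW3B : S_W3B) :
    S_G3t := by
  intro V _ _ G S T O Γ v n pos r m P k Λ Ys c w
  have z : ∀ i j, i < 7 → j < 7 → i ≠ j → ∀ ρ, ∀ u ∈ spt id (Λ i ρ),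
      u ∉ spt id (Λ j 0 ∪ Λ j 1 ∪ Λ j 2) := fun i j hi hj hij ρ u hu h => by
    rw [spt_union, spt_union] at h
    rcases h with (h | h) | h <;> exact w.zd i j hi hj hij ρ _ u hu h
  have h1 := G3tx.step hTCB hADC hDIF hFRE hW3B c w (D := ∅) (by rw [union_empty]; exact c.tc)
    (i := 1) (by norm_num) fun _ _ _ => by simp
  rw [empty_union] at h1
  have h3 := G3tx.step hTCB hADC hDIF hFRE hW3B c w h1 (i := 3) (by norm_num)
    (z 3 1 (by norm_num) (by norm_num) (by norm_num))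
  exact G3tx.step hTCB hADC hDIF hFRE hW3B c w h3 (i := 5) (by norm_num) fun ρ u hu h => by
    rw [spt_union] at h
    exact h.elim (z 5 1 (by norm_num) (by norm_num) (by norm_num) ρ u hu)
      (z 5 3 (by norm_num) (by norm_num) (by norm_num) ρ u hu)

end Pool.Agent.P.MP_bb4f54_co.T3

end sG3t

section sLAM
/-! Step LAM. -/

set_option autoImplicit false
set_option linter.unusedSectionVars false

namespace Pool.Agent.P.MP_bb4f54_co.T3

open Finset

theorem p_LAM (hNCR : S_NCR) (hTDF : S_TDF) (hTDC : S_TDC) (hLAM0 : S_LAM0) :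
    S_LAM := by
  classical
  intro V _ _ Γ v n pos T E hT hD h2 hinj h3 hE
  have hmem : ∀ {a b : V} {τ : Finset V}, τ ∈ Trc Γ E a b ↔ τ ⊆ E ∧
      ∃ Y : Set V, (cut id Γ Y).card ≤ 3 ∧ a ∈ Y ∧ b ∉ Y ∧ ∀ u ∈ E, (u ∈ τ ↔ u ∈ Y) := by
    intro a b τ
    simp only [Trc, mem_filter, mem_powerset]
  let F : Finset (Finset V) := T.biUnion fun x => Trc Γ E (v x 0) (v x (n x))
  have hF : ∀ τ ∈ F, τ ⊆ E ∧ ∃ Y : Set V, (cut id Γ Y).card ≤ 3 ∧ ∀ u ∈ E, (u ∈ τ ↔ u ∈ Y) := by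
    intro τ hτ
    obtain ⟨x, -, hx⟩ := mem_biUnion.1 hτ
    obtain ⟨h1, Y, c1, -, -, c2⟩ := hmem.1 hx
    exact ⟨h1, Y, c1, c2⟩
  have hcard : F.card ≤ 4 * E.card + 2 := by
    refine hLAM0 E F (fun τ hτ => (hF τ hτ).1) ?_
    intro τ hτ τ' hτ' a b c d a1 a2 b1 b2 c1 c2 dE d1 d2
    obtain ⟨s1, Y, k1, e1⟩ := hF τ hτ
    obtain ⟨s2, Y', k2, e2⟩ := hF τ' hτ'
    exact hNCR id Γ Y Y' a b c d hT k1 k2 (h3 a (s1 a1)) (h3 b (s1 b1)) (h3 c (s2 c2)) (h3 d dE)
      ((e1 a (s1 a1)).1 a1) ((e2 a (s1 a1)).1 a2) ((e1 b (s1 b1)).1 b1)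
      (fun h => b2 ((e2 b (s1 b1)).2 h)) (fun h => c1 ((e1 c (s2 c2)).2 h)) ((e2 c (s2 c2)).1 c2)
      (fun h => d1 ((e1 d dE).2 h)) (fun h => d2 ((e2 d dE).2 h))
  have key := sum_card_bipartiteAbove_eq_sum_card_bipartiteBelow (s := T) (t := F)
    (fun x τ => τ ∈ Trc Γ E (v x 0) (v x (n x)))
  have e1 : ∑ x ∈ T, (Trc Γ E (v x 0) (v x (n x))).card =
      ∑ x ∈ T, (F.bipartiteAbove (fun x τ => τ ∈ Trc Γ E (v x 0) (v x (n x))) x).card := by
    refine sum_congr rfl fun x hx => congrArg _ ?_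
    ext τ
    rw [mem_bipartiteAbove]
    exact ⟨fun h => ⟨mem_biUnion.2 ⟨x, hx, h⟩, h⟩, fun h => h.2⟩
  rw [e1, key]
  refine (sum_le_card_nsmul F _ 3 fun τ hτ => ?_).trans (by rw [smul_eq_mul]; omega)
  obtain ⟨s1, Y, k1, e2⟩ := hF τ hτ
  have hs : ∀ x ∈ T.bipartiteBelow (fun x τ => τ ∈ Trc Γ E (v x 0) (v x (n x))) τ,
      x ∈ T ∧ τ ∈ Trc Γ E (v x 0) (v x (n x)) := fun x hx => by rwa [mem_bipartiteBelow] at hx
  generalize T.bipartiteBelow (fun x τ => τ ∈ Trc Γ E (v x 0) (v x (n x))) τ = T' at hs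
  have h4 := (hTDC Γ v n pos T' hD fun x hx => h2 x (hs x hx).1).2.1 Y fun x hx => by
    obtain ⟨hxT, hx'⟩ := hs x hx
    obtain ⟨-, Z, -, z1, z2, z3⟩ := hmem.1 hx'
    obtain ⟨m1, m2⟩ := hE x hxT
    intro h
    exact z2 ((z3 _ m2).1 ((e2 _ m2).2 (h.1 ((e2 _ m1).1 ((z3 _ m1).2 z1)))))
  rw [card_image_of_injOn fun x hx y hy e => hinj x (hs x hx).1 y (hs y hy).1
    ((hTDF Γ v n pos hD y x (h2 y (hs y hy).1) (h2 x (hs x hx).1)).2.1 e)] at h4
  omega

end Pool.Agent.P.MP_bb4f54_co.T3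

end sLAM

section sF2b
/-! Step F2b. -/

set_option autoImplicit false
set_option linter.unusedSectionVars false

namespace Pool.Agent.P.MP_bb4f54_co.T3

open Finset

theorem p_F2b (hTDF : S_TDF) (hTDC : S_TDC) (hLAM : S_LAM) (hF2a : S_F2a) :
    S_F2b := by
  intro V _ _ G S T O Γ v n pos R P E hC hE hT hPT hV
  by_cases hR : Res (EG G) (Fi G S) Γ
  · exact Or.inl hR
  right
  have td := hC.c0.td
  have dT := hC.c0.sk.dT
  have h1 : ∀ x ∈ T, 1 < n x := fun x hx => by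
    have := td.p0 x (dT x hx)
    have := td.pn x (dT x hx)
    omega
  have hco : ∀ x ∈ T, v (v x 1) = v x := fun x hx =>
    (td.co x (dT x hx) 1 one_pos (h1 x hx)).1
  set T' : Finset V := P.image (fun x => v x 1) with hT'
  have hsub : ∀ y ∈ T', y ∈ T := by
    intro y hy
    obtain ⟨x, hx, rfl⟩ := mem_image.1 hy
    exact hC.c0.int x (hPT hx) 1 one_pos (h1 x (hPT hx))
  have hone : ∀ y ∈ T', v y 1 = y := by
    intro y hy
    obtain ⟨x, hx, rfl⟩ := mem_image.1 hy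
    rw [hco x (hPT hx)]
  have hL := hLAM T' E hC.c0.tc td (fun x hx => dT x (hsub x hx))
    (fun x hx y hy h => by rw [← hone x hx, h, hone y hy]) hE (fun x hx => hT x (hsub x hx))
  have hc : T'.card ≤ 3 * E.card := by
    have := (hTDC Γ v n pos P td (fun x hx => dT x (hPT hx))).1 E (fun x hx => (hT x (hPT hx)).1)
    rw [sum_congr rfl hE, sum_const, smul_eq_mul, mul_comm] at this
    exact this
  have hf : ∀ y ∈ T', (P.filter (fun x => v x 1 = y)).card ≤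
      (2 * R + 3) * (17 * (Trc Γ E (v y 0) (v y (n y))).card + 1) := by
    intro y hy
    refine (hF2a R (P.filter (fun x => v x 1 = y)) E y hC (hsub y hy) hE hT ?_).resolve_left hR
    intro x hx
    obtain ⟨hx1, hx2⟩ := mem_filter.1 hx
    exact ⟨by rw [← hx2, hco x (hPT hx1)], hV x hx1⟩
  rw [card_eq_sum_card_image (fun x => v x 1) P]
  refine (sum_le_sum hf).trans ?_
  rw [← mul_sum, sum_add_distrib, ← mul_sum, sum_const, smul_eq_mul, mul_one]
  exact Nat.mul_le_mul_left _ (Nat.add_le_add (Nat.mul_le_mul_left _ hL) hc)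

end Pool.Agent.P.MP_bb4f54_co.T3

end sF2b

section sSUB
/-! Step SUB. -/

set_option autoImplicit false
set_option linter.unusedSectionVars false

namespace Pool.Agent.P.MP_bb4f54_co.T3

open Finset

namespace SUBx

open Classical in
theorem ins {V ι : Type} [DecidableEq ι] (en : ι → Sym2 V) {Γ : Finset ι} {i : ι} (hi : i ∉ Γ)
    {x y : V} (e : en i = s(x, y)) (Y : Set V) :
    (cut en (insert i Γ) Y).card =
      (cut en Γ Y).card + if (x ∈ Y ∧ y ∉ Y) ∨ (y ∈ Y ∧ x ∉ Y) then 1 else 0 := by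
  rw [cut, cut, filter_insert, e, cr_mk]
  split_ifs
  · rw [card_insert_of_notMem fun h => hi (mem_filter.1 h).1]
  · rfl

end SUBx

theorem p_SUB :
    S_SUB := by
  intro V ι _ en Γ Y Y'
  induction Γ using Finset.induction_on with
  | empty => simp
  | insert i Γ hi ih =>
    obtain ⟨x, y, e⟩ : ∃ x y, en i = s(x, y) := by
      induction en i using Sym2.ind with
      | _ a b => exact ⟨a, b, rfl⟩
    simp only [SUBx.ins en hi e, Set.mem_inter_iff, Set.mem_union, Set.mem_diff]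
    by_cases h1 : x ∈ Y <;> by_cases h2 : y ∈ Y <;> by_cases h3 : x ∈ Y' <;>
      by_cases h4 : y ∈ Y' <;> simp [h1, h2, h3, h4] <;> omega

end Pool.Agent.P.MP_bb4f54_co.T3

end sSUB
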