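import Pool.Agent.P.MP_bb4f54_co.T3.Iface2
import Pool.Agent.P.MP_bb4f54_co.T3.Iface1
import Pool.Agent.P.MP_bb4f54_co.T3.Iface7
import Pool.Agent.P.MP_bb4f54_co.T3.Iface3
import Pool.Agent.P.MP_bb4f54_co.T3.Iface6

section sDL2
/-! Step DL2. -/

set_option autoImplicit false
set_option linter.unusedSectionVars false

namespace Pool.Agent.P.MP_bb4f54_co.T3

open Finset

namespace DL2x

variable {V ι : Type} [DecidableEq V] [DecidableEq ι]

theorem sum_le {T S : Finset ι} {j : ι} {f q : ι → ℝ} (hq : ∀ i, 0 ≤ q i) (hT : T.erase j ⊆ S)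
    (hf : ∀ i, i ≠ j → f i = q i) :
    ∑ i ∈ T, f i ≤ (if j ∈ T then f j else 0) + ∑ i ∈ S, q i := by
  have h1 : ∑ i ∈ T.erase j, f i ≤ ∑ i ∈ S, q i := by
    rw [sum_congr rfl fun i hi => hf i (ne_of_mem_erase hi)]
    exact sum_le_sum_of_subset_of_nonneg hT fun i _ _ => hq i
  split_ifs with h
  · rw [← add_sum_erase T f h]
    linarith
  · rw [erase_eq_of_notMem h] at h1
    linarith

theorem pj_ne {u w' x : V} (h : x ≠ u) : pj {u} w' x = x := by simp [pj, h]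

theorem pj_eq {u w' : V} : pj {u} w' u = w' := by simp [pj]

theorem ctr_of_not {en : ι → Sym2 V} {u w' : V} {i : ι} (h : u ∉ en i) :
    ctr en {u} w' i = en i := by
  rw [ctr]
  generalize en i = e at h
  induction e using Sym2.ind with
  | _ x y =>
    simp only [Sym2.mem_iff, not_or] at h
    rw [Sym2.map_mk, pj_ne (Ne.symm h.1), pj_ne (Ne.symm h.2)]

end DL2x

theorem p_DL2 (hGIR : S_GIR) (hUNC : S_UNC) (hDL1 : S_DL1) :
    S_DL2 := by
  intro V ι _ _ _ en Γ W ρ u ub uc w w' w₁ w₂ p a b c g g' h₁ h₂ hL hu hw Z' hZ' hC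
  obtain ⟨n1, -, mu, mw, mw', mw₁, n3, -, s1, s2, s3⟩ := hDL1 hL hu hw
  simp only [List.nodup_cons, List.mem_cons, List.not_mem_nil, not_or, or_false, not_false_iff,
    List.nodup_nil, and_true] at n1 n3
  obtain ⟨⟨ρu, ρw, ρw', ρw₁⟩, ⟨uw, uw', uw₁⟩, ⟨ww', ww₁⟩, w'w₁⟩ := n1
  obtain ⟨⟨ag, ag', ah₁, ah₂⟩, ⟨gg', gh₁, gh₂⟩, ⟨g'h₁, g'h₂⟩, h12⟩ := n3
  have hNL : NL en Γ := hL.rz.rt.cub.nl
  have hp := hL.rz.rt.pos
  have mg' : g' ∈ cut en Γ {u} := by rw [hu.st]; simp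
  have mh₁ : h₁ ∈ cut en Γ {w} := by rw [hw.st]; simp
  have mh₂ : h₂ ∈ cut en Γ {w} := by rw [hw.st]; simp
  have c0 : cut en (Γ \ {g}) {u} = {a, g'} := by
    rw [cut_sdiff, hu.st]
    ext i
    simp only [mem_sdiff, mem_insert, mem_singleton]
    constructor
    · tauto
    · rintro (rfl | rfl)
      · exact ⟨Or.inl rfl, ag⟩
      · exact ⟨Or.inr (Or.inr rfl), Ne.symm gg'⟩
  obtain ⟨A1, -, A3⟩ := hUNC en (Γ \ {g}) u w' a g' (hNL.mono sdiff_subset) c0 ag' hu.e2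
  have nl1 : NL (ctr en {u} w') (Γ \ {g, g'}) := by
    intro i hi
    obtain ⟨hi1, hi2⟩ := mem_sdiff.1 hi
    by_cases h : u ∈ en i
    · have h3 : i ∈ cut en Γ {u} := mem_cut_single.2 ⟨hi1, h, hNL i hi1⟩
      rw [hu.st, mem_insert] at h3
      obtain rfl : i = a := h3.resolve_right hi2
      rw [ctr, hL.rz.ea, Sym2.map_mk, DL2x.pj_ne ρu, DL2x.pj_eq, Sym2.mk_isDiag_iff]
      exact ρw'
    · rw [DL2x.ctr_of_not h]
      exact hNL i hi1
  have c1 : cut (ctr en {u} w') (Γ \ {g, g'}) {w} = {h₂, h₁} := by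
    rw [A1 _ w (Ne.symm uw) ww', cut_sdiff, hw.st]
    ext i
    simp only [mem_sdiff, mem_insert, mem_singleton, not_or]
    constructor
    · tauto
    · rintro (rfl | rfl)
      · exact ⟨Or.inr (Or.inr rfl), Ne.symm gh₂, Ne.symm g'h₂⟩
      · exact ⟨Or.inr (Or.inl rfl), Ne.symm gh₁, Ne.symm g'h₁⟩
  have e1 : ctr en {u} w' h₁ = s(w, w₁) := by
    rw [ctr, hw.e1, Sym2.map_mk, DL2x.pj_ne (Ne.symm uw), DL2x.pj_ne (Ne.symm uw₁)]
  obtain ⟨-, -, B3⟩ := hUNC _ (Γ \ {g, g'}) w w₁ h₂ h₁ nl1 c1 (Ne.symm h12) e1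
  have hZ2 : ∀ i ∈ Z', i ∈ Γ ∧ i ≠ g ∧ i ≠ g' ∧ i ≠ h₁ := fun i hi => by
    simpa only [mem_sdiff, mem_insert, mem_singleton, not_or] using hZ' hi
  obtain ⟨Z₁, z1, z2, z3, z4⟩ : ∃ Z₁ ⊆ (Γ \ {g}).erase g', Cy (ctr en {u} w') Z₁ ∧ Z' ⊆ Z₁ ∧
      (h₂ ∈ Z' → h₁ ∈ Z₁) := by
    have B := B3 Z' (fun i hi => by
      obtain ⟨x1, x2, x3, x4⟩ := hZ2 i hi
      simp [x1, x2, x3, x4]) hC
    have hs : Z' ⊆ (Γ \ {g}).erase g' := fun i hi => by
      obtain ⟨x1, x2, x3, -⟩ := hZ2 i hi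
      simp [x1, x2, x3]
    by_cases h : h₂ ∈ Z'
    · refine ⟨insert h₁ Z', insert_subset ?_ hs, B.1 h, subset_insert _ _,
        fun _ => mem_insert_self _ _⟩
      simp [cut_subset mh₁, Ne.symm gh₁, Ne.symm g'h₁]
    · exact ⟨Z', hs, B.2 h, subset_rfl, fun h' => (h h').elim⟩
  obtain ⟨Z, y1, y2, y3, y4⟩ : ∃ Z ⊆ Γ, Cy en Z ∧ Z₁ ⊆ Z ∧ (a ∈ Z₁ → g' ∈ Z) := by
    have A := A3 Z₁ z1 z2
    have hs : Z₁ ⊆ Γ := z1.trans ((erase_subset _ _).trans sdiff_subset)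
    by_cases h : a ∈ Z₁
    · exact ⟨insert g' Z₁, insert_subset (cut_subset mg') hs, A.1 h, subset_insert _ _,
        fun _ => mem_insert_self _ _⟩
    · exact ⟨Z₁, hs, A.2 h, subset_rfl, fun h' => (h h').elim⟩
  have hZZ : Z' ⊆ Z := z3.trans y3
  refine ⟨Z, y1, y2, hZZ, ?_⟩
  have up : ∀ {i v}, i ∈ Z → i ∈ cut en Γ {v} → i ∈ cut en Z {v} := fun hi hc =>
    mem_cut.2 ⟨hi, (mem_cut.1 hc).2⟩
  have mg'' : g' ∈ cut en Γ {w'} := mem_cut_single.2
    ⟨cut_subset mg', by rw [hu.e2]; simp, hNL _ (cut_subset mg')⟩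
  have mh₁' : h₁ ∈ cut en Γ {w₁} := mem_cut_single.2
    ⟨cut_subset mh₁, by rw [hw.e1]; simp, hNL _ (cut_subset mh₁)⟩
  have v0 : ∀ v, v ≠ u → v ≠ w → v ≠ w' → v ≠ w₁ →
      PP (ctr (ctr en {u} w') {w} w₁) Z' (pd p a h₁ h₂ w w' w₁) v ≤ PP en Z p v := by
    intro v x1 x2 x3 x4
    rw [PP, PP, cut_eq_inter hZ', s3 v x1 x2 x3 x4,
      sum_congr rfl (g := fun i => p v i) fun i _ => by simp [pd, x3, x4]]
    exact sum_le_sum_of_subset_of_nonneg
      (fun i hi => up (hZZ (mem_inter.1 hi).1) (mem_inter.1 hi).2) fun i _ _ => hp v i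
  have v1 : PP (ctr (ctr en {u} w') {w} w₁) Z' (pd p a h₁ h₂ w w' w₁) w' +
      (if a ∈ Z' then p w' g' else 0) ≤ PP en Z p w' := by
    have h := DL2x.sum_le (T := cut (ctr (ctr en {u} w') {w} w₁) Z' {w'})
      (S := (cut en Z {w'}).erase g') (j := a) (f := pd p a h₁ h₂ w w' w₁ w') (hp w')
      (fun i hi => by
        rw [cut_eq_inter hZ', s1, mem_erase, mem_inter, mem_insert, mem_erase] at hi
        have := hi.2.2.resolve_left hi.1
        exact mem_erase.2 ⟨this.1, up (hZZ hi.2.1) this.2⟩)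
      fun i hi => by simp [pd, hi, w'w₁]
    have h0 : pd p a h₁ h₂ w w' w₁ w' a = 0 := by simp [pd]
    rw [h0, ite_self, zero_add] at h
    rw [PP, PP]
    split_ifs with ha
    · rw [← add_sum_erase _ _ (up (y4 (z3 ha)) mg'')]
      linarith
    · rw [add_zero]
      exact h.trans (sum_le_sum_of_subset_of_nonneg (erase_subset _ _) fun i _ _ => hp w' i)
  have v2 : PP (ctr (ctr en {u} w') {w} w₁) Z' (pd p a h₁ h₂ w w' w₁) w₁ ≤
      PP en Z p w₁ + PP en Z p w := by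
    have h := DL2x.sum_le (T := cut (ctr (ctr en {u} w') {w} w₁) Z' {w₁})
      (S := (cut en Z {w₁}).erase h₁) (j := h₂) (f := pd p a h₁ h₂ w w' w₁ w₁) (hp w₁)
      (fun i hi => by
        rw [cut_eq_inter hZ', s2, mem_erase, mem_inter, mem_insert, mem_erase] at hi
        have := hi.2.2.resolve_left hi.1
        exact mem_erase.2 ⟨this.1, up (hZZ hi.2.1) this.2⟩)
      fun i hi => by simp [pd, hi, Ne.symm w'w₁]
    have h0 : pd p a h₁ h₂ w w' w₁ w₁ h₂ = p w₁ h₁ + p w h₁ + p w h₂ := by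
      simp [pd, Ne.symm w'w₁]
    rw [h0] at h
    refine h.trans ?_
    split_ifs with ha
    · have m2 : h₂ ∈ Z' := cut_subset ha
      have m1 : h₁ ∈ Z := y3 (z4 m2)
      have := pp_ge2 hp (up m1 mh₁) (up (hZZ m2) mh₂) h12
      rw [PP, ← add_sum_erase _ _ (up m1 mh₁')]
      linarith
    · have t1 : 0 ≤ PP en Z p w := pp_nonneg hp
      have t2 : ∑ i ∈ (cut en Z {w₁}).erase h₁, p w₁ i ≤ PP en Z p w₁ :=
        sum_le_sum_of_subset_of_nonneg (erase_subset _ _) fun i _ _ => hp w₁ i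
      linarith
  have v3 : (if a ∈ Z' then p u g' else 0) ≤ PP en Z p u := by
    split_ifs with ha
    · exact pp_ge1 hp (up (y4 (z3 ha)) mg')
    · exact pp_nonneg hp
  have r1 : w' ∈ ((W.erase u).erase w).erase ρ := by
    simp [mw', Ne.symm ρw', Ne.symm uw', Ne.symm ww']
  have r2 : w₁ ∈ (((W.erase u).erase w).erase ρ).erase w' := by
    simp [mw₁, Ne.symm ρw₁, Ne.symm uw₁, Ne.symm ww₁, Ne.symm w'w₁]
  have r3 : u ∈ W.erase ρ := by simp [mu, Ne.symm ρu]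
  have r4 : w ∈ (W.erase ρ).erase u := by simp [mw, Ne.symm ρw, Ne.symm uw]
  have r5 : ((W.erase ρ).erase u).erase w = ((W.erase u).erase w).erase ρ := by
    rw [erase_right_comm (a := ρ), erase_right_comm (a := ρ)]
  rw [val, val, ← add_sum_erase _ _ r3, ← add_sum_erase _ _ r4, r5, ← add_sum_erase _ _ r1,
    ← add_sum_erase _ _ r1, ← add_sum_erase _ _ r2, ← add_sum_erase _ _ r2]
  have v4 := sum_le_sum (s := ((((W.erase u).erase w).erase ρ).erase w').erase w₁) fun v hv => by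
    simp only [mem_erase] at hv
    exact v0 v hv.2.2.2.2.1 hv.2.2.2.1 hv.2.1 hv.1
  split_ifs at v1 v3 ⊢ <;> linarith

end Pool.Agent.P.MP_bb4f54_co.T3

end sDL2

section sK33
/-! Step K33. -/

set_option autoImplicit false
set_option linter.unusedSectionVars false

namespace Pool.Agent.P.MP_bb4f54_co.T3

open Finset

namespace K33x

variable {V ι : Type} [Fintype V] [DecidableEq V] [DecidableEq ι] {en : ι → Sym2 V}

theorem hex (hCY1 : S_CY1) (v : Fin 6 → V) (e : Fin 6 → ι) (hv : Function.Injective v)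
    (he : ∀ i, en (e i) = s(v i, v (i + 1))) : Cy en (univ.image e) := by
  have n1 : ∀ i : Fin 6, i ≠ i + 1 ∧ i ≠ i + 1 + 1 := by decide
  have h1 : ∀ i, cut en (univ.image e) {v (i + 1)} = {e i, e (i + 1)} := fun i => by
    ext j
    simp only [mem_cut_single, mem_image, mem_univ, true_and, mem_insert, mem_singleton]
    constructor
    · rintro ⟨⟨k, rfl⟩, h, -⟩
      rw [he, Sym2.mem_iff, hv.eq_iff, hv.eq_iff, add_left_inj] at h
      exact h.symm.imp (fun h => by rw [h]) fun h => by rw [h]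
    · rintro (rfl | rfl) <;> refine ⟨⟨_, rfl⟩, by simp [he], ?_⟩ <;>
        rw [he, Sym2.mk_isDiag_iff, hv.eq_iff] <;> exact (n1 _).1
  have h2 : ∀ i, e i ≠ e (i + 1) := fun i h => by
    have := congrArg en h
    rw [he, he, Sym2.eq_iff, hv.eq_iff, hv.eq_iff, hv.eq_iff] at this
    exact this.elim (fun h => (n1 i).1 h.1) fun h => (n1 i).2 h.1
  refine ⟨by simp, fun x => ?_, fun D hD hE => ?_⟩
  · by_cases hx : ∃ k, x = v k
    · obtain ⟨k, rfl⟩ := hx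
      rw [← sub_add_cancel k 1, dgr, h1, card_pair (h2 _)]
      exact even_two
    · rw [dgr_eq_zero]
      · exact Even.zero
      · rintro ⟨j, hj, h⟩
        obtain ⟨k, -, rfl⟩ := mem_image.1 hj
        rw [he, Sym2.mem_iff] at h
        exact hx (h.elim (fun h => ⟨_, h⟩) fun h => ⟨_, h⟩)
  · refine D.eq_empty_or_nonempty.imp_right fun ⟨j, hj⟩ => hD.antisymm fun l hl => ?_
    obtain ⟨k, -, rfl⟩ := mem_image.1 (hD hj)
    obtain ⟨m, -, rfl⟩ := mem_image.1 hl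
    have st : ∀ i, e i ∈ D → e (i + 1) ∈ D := fun i hi =>
      (hCY1 en).2.2.2.1 _ D _ _ (v (i + 1)) hE hD hi (by simp [h1]) (h1 i).le
    have : ∀ k m : Fin 6, m = k ∨ m = k + 1 ∨ m = k + 1 + 1 ∨ m = k + 1 + 1 + 1 ∨
      m = k + 1 + 1 + 1 + 1 ∨ m = k + 1 + 1 + 1 + 1 + 1 := by decide
    rcases this k m with rfl | rfl | rfl | rfl | rfl | rfl <;> repeat first | exact hj | apply st

theorem hex' (hCY1 : S_CY1) {v0 v1 v2 v3 v4 v5 : V} {e0 e1 e2 e3 e4 e5 : ι}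
    (hv : [v0, v1, v2, v3, v4, v5].Nodup) (h0 : en e0 = s(v0, v1)) (h1 : en e1 = s(v1, v2))
    (h2 : en e2 = s(v2, v3)) (h3 : en e3 = s(v3, v4)) (h4 : en e4 = s(v4, v5))
    (h5 : en e5 = s(v5, v0)) : Cy en {e0, e1, e2, e3, e4, e5} := by
  have := hex (en := en) hCY1 ![v0, v1, v2, v3, v4, v5] ![e0, e1, e2, e3, e4, e5]
    (List.nodup_ofFn.1 (by simpa using hv)) fun i => by fin_cases i <;> assumption
  convert this using 1
  ext j
  simp [Fin.exists_fin_succ, eq_comm]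

theorem two {Γ A B C : Finset ι} {p : V → ι → ℝ} (hp : ∀ v i, 0 ≤ p v i) (hA : A ⊆ Γ)
    (hB : B ⊆ Γ) (hC : C ⊆ Γ) (v : V)
    (h : ∀ i ∈ cut en Γ {v}, (i ∈ A ∧ i ∈ B) ∨ (i ∈ A ∧ i ∈ C) ∨ (i ∈ B ∧ i ∈ C)) :
    2 * PP en Γ p v ≤ PP en A p v + PP en B p v + PP en C p v := by
  simp only [PP, cut_eq_inter hA, cut_eq_inter hB, cut_eq_inter hC, inter_comm _ (cut en Γ {v}),
    ← sum_ite_mem, mul_sum, ← sum_add_distrib]
  refine sum_le_sum fun i hi => ?_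
  have := hp v i
  rcases h i hi with h | h | h <;> simp only [h.1, h.2, if_true] <;> split_ifs <;> linarith

theorem star {Γ : Finset ι} {W : Finset V} (h : Cub en Γ W) {x y z w : V} {i j k : ι} (hi : i ∈ Γ)
    (hj : j ∈ Γ) (hk : k ∈ Γ) (ei : en i = s(x, w)) (ej : en j = s(y, w)) (ek : en k = s(z, w))
    (xy : x ≠ y) (xz : x ≠ z) (yz : y ≠ z) : cut en Γ {w} = {i, j, k} := by
  have ne : ∀ {i j x y}, en i = s(x, w) → en j = s(y, w) → x ≠ y → i ≠ j := by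
    rintro i j x y e1 e2 n rfl
    exact n (Sym2.congr_left.1 (e1.symm.trans e2))
  refine (eq_of_subset_of_card_le ?_ ?_).symm
  · simp only [insert_subset_iff, singleton_subset_iff, mem_cut_single]
    exact ⟨⟨hi, by simp [ei], h.nl i hi⟩, ⟨hj, by simp [ej], h.nl j hj⟩, hk, by simp [ek], h.nl k hk⟩
  · rw [card_eq_three.2 ⟨i, j, k, ne ei ej xy, ne ei ek xz, ne ej ek yz, rfl⟩]
    exact (h.dg w (h.sp i hi w (by simp [ei]))).le

end K33x

theorem p_K33 (hPAR : S_PAR) (hCY1 : S_CY1) (hGIR : S_GIR) (hNRM : S_NRM) :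
    S_K33 := by
  intro V ι _ _ _ en Γ W ρ ua ub uc w w' p a b c ga ga' gb gb' gc gc' hL fa fb fc
  obtain ⟨⟨⟨cub, hρ, st, pos⟩, ea, eb, ec, -, -, -⟩, -, five⟩ := hL
  have par := (hGIR en Γ W cub).2.2.2.1 (by omega)
  have mem : ∀ {v i j k}, cut en Γ {v} = {i, j, k} → i ∈ Γ ∧ j ∈ Γ ∧ k ∈ Γ := fun h => by
    simpa [insert_subset_iff] using h.ge.trans cut_subset
  obtain ⟨ma, mb, mc⟩ := mem st
  obtain ⟨-, mga, mga'⟩ := mem fa.st
  obtain ⟨-, mgb, mgb'⟩ := mem fb.st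
  obtain ⟨-, mgc, mgc'⟩ := mem fc.st
  have lp : ∀ {i x y}, i ∈ Γ → en i = s(x, y) → x ≠ y := fun hi e h =>
    cub.nl _ hi (by rw [e, Sym2.mk_isDiag_iff]; exact h)
  obtain ⟨n1, n2, n3⟩ := ne_of_card_three ((congrArg card st).symm.trans (cub.dg ρ hρ))
  obtain ⟨n4, n5, n6⟩ := ne_of_card_three
    ((congrArg card fa.st).symm.trans (cub.dg ua (cub.sp a ma ua (by simp [ea]))))
  have d1 : ua ≠ ub := fun h => n1 (par _ ma _ mb (by rw [ea, eb, h]))
  have d2 : ua ≠ uc := fun h => n2 (par _ ma _ mc (by rw [ea, ec, h]))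
  have d3 : ub ≠ uc := fun h => n3 (par _ mb _ mc (by rw [eb, ec, h]))
  have d4 : ρ ≠ w := fun h => n4 (par _ ma _ mga (by rw [ea, fa.e1, h, Sym2.eq_swap]))
  have d5 : ρ ≠ w' := fun h => n5 (par _ ma _ mga' (by rw [ea, fa.e2, h, Sym2.eq_swap]))
  have d6 : w ≠ w' := fun h => n6 (par _ mga _ mga' (by rw [fa.e1, fa.e2, h]))
  have l1 := lp ma ea
  have l2 := lp mb eb
  have l3 := lp mc ec
  have l4 := lp mga fa.e1
  have l5 := lp mga' fa.e2
  have l6 := lp mgb fb.e1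
  have l7 := lp mgb' fb.e2
  have l8 := lp mgc fc.e1
  have l9 := lp mgc' fc.e2
  have sw := K33x.star cub mga mgb mgc fa.e1 fb.e1 fc.e1 d1 d2 d3
  have sw' := K33x.star cub mga' mgb' mgc' fa.e2 fb.e2 fc.e2 d1 d2 d3
  have nine : ∀ x ∈ ({ρ, ua, ub, uc, w, w'} : Set V), ∀ i ∈ cut en Γ {x}, i = a ∨ i = b ∨ i = c ∨
      i = ga ∨ i = ga' ∨ i = gb ∨ i = gb' ∨ i = gc ∨ i = gc' := by
    rintro x (rfl | rfl | rfl | rfl | rfl | rfl) i hi <;>
      simp only [st, fa.st, fb.st, fc.st, sw, sw', mem_insert, mem_singleton] at hi <;> tauto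
  have hW : ∀ v ∈ W, v ∈ ({ρ, ua, ub, uc, w, w'} : Set V) := fun v hv => by
    by_contra hn
    obtain ⟨i, hi⟩ := card_pos.1 (lt_of_lt_of_le three_pos
      (cub.c3 {ρ, ua, ub, uc, w, w'} ⟨ρ, hρ, by simp⟩ ⟨v, hv, hn⟩))
    obtain ⟨h1, ⟨x, x1, x2⟩, y, y1, y2⟩ := (mem_cut.trans (and_congr_right fun _ => cr_iff)).1 hi
    refine y2 ?_
    rcases nine x x2 i (mem_cut_single.2 ⟨h1, x1, cub.nl i h1⟩) with
      h | h | h | h | h | h | h | h | h <;>
    simp only [h, ea, eb, ec, fa.e1, fa.e2, fb.e1, fb.e2, fc.e1, fc.e2, Sym2.mem_iff] at y1 <;>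
    rcases y1 with rfl | rfl <;> simp
  have sA : ({b, gb', ga', ga, gc, c} : Finset ι) ⊆ Γ := by simp [insert_subset_iff, *]
  have sB : ({a, ga, gb, gb', gc', c} : Finset ι) ⊆ Γ := by simp [insert_subset_iff, *]
  have sC : ({a, ga', gc', gc, gb, b} : Finset ι) ⊆ Γ := by simp [insert_subset_iff, *]
  refine ⟨_, sA, _, sB, _, sC,
    K33x.hex' hCY1 ?_ eb fb.e2 (fa.e2.trans Sym2.eq_swap) fa.e1 (fc.e1.trans Sym2.eq_swap)
      (ec.trans Sym2.eq_swap),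
    K33x.hex' hCY1 ?_ ea fa.e1 (fb.e1.trans Sym2.eq_swap) fb.e2 (fc.e2.trans Sym2.eq_swap)
      (ec.trans Sym2.eq_swap),
    K33x.hex' hCY1 ?_ ea fa.e2 (fc.e2.trans Sym2.eq_swap) fc.e1 (fb.e1.trans Sym2.eq_swap)
      (eb.trans Sym2.eq_swap), by simp, by simp, by simp, by simp, by simp, by simp, ?_⟩
  · simp [*, d1.symm, d6.symm, l5.symm, l8.symm, l9.symm]
  · simp [*, l6.symm, l8.symm, l9.symm]
  · simp [*, d3.symm, d6.symm, l6.symm, l7.symm, l9.symm]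
  · have h1 := (hNRM.2 (W.erase ρ) (PP en Γ p) fun _ _ => pp_nonneg pos).2.1
    refine (mul_le_mul_of_nonneg_left h1 zero_le_two).trans ?_
    simp only [val, mul_sum, ← sum_add_distrib]
    refine sum_le_sum fun v hv => K33x.two pos sA sB sC v fun i hi => ?_
    rcases nine v (hW v (mem_of_mem_erase hv)) i hi with h | h | h | h | h | h | h | h | h <;>
      simp [h]

end Pool.Agent.P.MP_bb4f54_co.T3

end sK33

section sE0
/-! Step E0. -/

set_option autoImplicit false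
set_option linter.unusedSectionVars false

namespace Pool.Agent.P.MP_bb4f54_co.T3

open Finset

namespace E0x

variable {V ι : Type} [DecidableEq V] [DecidableEq ι] {en : ι → Sym2 V} {Γ Z : Finset ι}
  {W : Finset V} {ρ u : V} {p : V → ι → ℝ} {a b c e : ι}

/-- Weight of the edge `e` among the half-edges of `Z` at `v`. -/
noncomputable def tt (en : ι → Sym2 V) (Z : Finset ι) (p : V → ι → ℝ) (e : ι) (v : V) : ℝ :=
  ∑ i ∈ cut en Z {v}, if i = e then p v i else 0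

lemma tt_nonneg (hp : ∀ v i, 0 ≤ p v i) (v : V) : 0 ≤ tt en Z p e v :=
  sum_nonneg fun i _ => by
    split_ifs
    · exact hp v i
    · exact le_rfl

lemma sum_tt (he : en e = s(ρ, u)) (hu : u ∈ W.erase ρ) :
    ∑ v ∈ W.erase ρ, tt en Z p e v = if e ∈ Z then p u e else 0 := by
  have hne : u ≠ ρ := (mem_erase.1 hu).1
  have h1 : ∀ v ∈ W.erase ρ, tt en Z p e v =
      if v = u then (if e ∈ Z then p u e else 0) else 0 := by
    intro v hv
    have hv' : v ≠ ρ := (mem_erase.1 hv).1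
    have hm : e ∈ cut en Z {v} ↔ e ∈ Z ∧ v = u := by
      rw [mem_cut_single, he]
      simp only [Sym2.mem_iff, Sym2.mk_isDiag_iff]
      constructor
      · rintro ⟨h1, h2 | h2, -⟩
        · exact absurd h2 hv'
        · exact ⟨h1, h2⟩
      · rintro ⟨h1, h2⟩
        exact ⟨h1, Or.inr h2, fun h => hne h.symm⟩
    rw [tt, sum_ite_eq']
    by_cases h2 : v = u
    · subst h2
      simp [hm]
    · simp [hm, h2]
  rw [sum_congr rfl h1, sum_ite_eq' (W.erase ρ) u, if_pos hu]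

lemma pp_split (hab : a ≠ b) (hac : a ≠ c) (hbc : b ≠ c) (v : V) :
    PP en Z p v = PP en Z (zr p a b c) v +
      (tt en Z p a v + tt en Z p b v + tt en Z p c v) := by
  simp only [PP, tt, ← sum_add_distrib]
  refine sum_congr rfl fun i _ => ?_
  unfold zr
  by_cases h1 : i = a
  · subst h1
    simp [hab, hac]
  · by_cases h2 : i = b
    · subst h2
      simp [h1, hbc]
    · by_cases h3 : i = c
      · subst h3
        simp [h1, h2]
      · simp [h1, h2, h3]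

lemma exists_end (hc : Cub en Γ W) (he : e ∈ cut en Γ {ρ}) :
    ∃ u, en e = s(ρ, u) ∧ u ∈ W.erase ρ := by
  obtain ⟨h1, x, y, h2, hx, hy⟩ := mem_cut.1 he
  rw [Set.mem_singleton_iff] at hx hy
  subst hx
  exact ⟨y, h2, mem_erase.2 ⟨hy, hc.sp e h1 y (by rw [h2]; simp)⟩⟩

lemma zr_nonneg (hp : ∀ v i, 0 ≤ p v i) (v : V) (i : ι) : 0 ≤ zr p a b c v i := by
  unfold zr
  split_ifs
  · exact le_rfl
  · exact hp v i

end E0x

theorem p_E0 (hNRM : S_NRM) :
    S_E0 := by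
  intro V ι _ _ _ en Γ W ρ p a b c h
  have h3 : ({a, b, c} : Finset ι).card = 3 := by
    rw [← h.st]; exact h.cub.dg ρ h.hρ
  obtain ⟨hab, hac, hbc⟩ := ne_of_card_three h3
  have ma : a ∈ cut en Γ {ρ} := by rw [h.st]; simp
  have mb : b ∈ cut en Γ {ρ} := by rw [h.st]; simp
  have mc : c ∈ cut en Γ {ρ} := by rw [h.st]; simp
  obtain ⟨ua, ea, wa⟩ := E0x.exists_end h.cub ma
  obtain ⟨ub, eb, wb⟩ := E0x.exists_end h.cub mb
  obtain ⟨uc, ec, wc⟩ := E0x.exists_end h.cub mc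
  have hz : ∀ v i, 0 ≤ zr p a b c v i := E0x.zr_nonneg h.pos
  refine ⟨⟨ua, ub, uc, ⟨h.cub, h.hρ, h.st, hz⟩, ea, eb, ec, by simp [zr], by simp [zr],
    by simp [zr]⟩, ?_⟩
  have hval : ∀ Z : Finset ι, val en W ρ p Z = val en W ρ (zr p a b c) Z +
      ((if a ∈ Z then p ua a else 0) + (if b ∈ Z then p ub b else 0) +
        (if c ∈ Z then p uc c else 0)) := by
    intro Z
    rw [← E0x.sum_tt (Z := Z) ea wa, ← E0x.sum_tt (Z := Z) eb wb, ← E0x.sum_tt (Z := Z) ec wc]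
    simp only [val, ← sum_add_distrib]
    exact sum_congr rfl fun v _ => E0x.pp_split hab hac hbc v
  have hN : NN en Γ W ρ p ≤ NN en Γ W ρ (zr p a b c) + (p ua a + p ub b + p uc c) := by
    have h1 := (hNRM.2 (W.erase ρ) (PP en Γ (zr p a b c)) (fun v _ => pp_nonneg hz)).1
      (fun v => E0x.tt en Γ p a v + E0x.tt en Γ p b v + E0x.tt en Γ p c v)
      (fun v _ => add_nonneg (add_nonneg (E0x.tt_nonneg h.pos v) (E0x.tt_nonneg h.pos v))
        (E0x.tt_nonneg h.pos v))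
    rw [sum_add_distrib, sum_add_distrib, E0x.sum_tt ea wa, E0x.sum_tt eb wb, E0x.sum_tt ec wc,
      if_pos (cut_subset ma), if_pos (cut_subset mb), if_pos (cut_subset mc)] at h1
    refine le_trans (le_of_eq ?_) h1
    unfold NN
    congr 1
    exact sum_congr rfl fun v _ => by rw [E0x.pp_split hab hac hbc v]
  rintro ⟨Za, s1, Zb, s2, Zc, s3, c1, c2, c3, m1, m2, m3, m4, m5, m6, hv⟩
  refine ⟨Za, s1, Zb, s2, Zc, s3, c1, c2, c3, m1, m2, m3, m4, m5, m6, ?_⟩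
  rw [hval Za, hval Zb, hval Zc, if_pos m1, if_pos m2, if_pos m3, if_pos m4, if_pos m5, if_pos m6]
  have k1 : 0 ≤ (if a ∈ Za then p ua a else 0) := by
    split_ifs
    · exact h.pos _ _
    · exact le_rfl
  have k2 : 0 ≤ (if b ∈ Zb then p ub b else 0) := by
    split_ifs
    · exact h.pos _ _
    · exact le_rfl
  have k3 : 0 ≤ (if c ∈ Zc then p uc c else 0) := by
    split_ifs
    · exact h.pos _ _
    · exact le_rfl
  linarith

end Pool.Agent.P.MP_bb4f54_co.T3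

end sE0

section sWAC
/-! Step WAC. -/

set_option autoImplicit false
set_option linter.unusedSectionVars false

namespace Pool.Agent.P.MP_bb4f54_co.T3

open Finset

namespace WACx

variable {V : Type} {Γ X : Finset (Sym2 V)} {L D : Set V} {l r : Fin 3 → V}
  {M : Fin 3 → Finset (Sym2 V)}

theorem symm (h : Win3 Γ X L D l r M) : Win3 Γ X (L ∪ D)ᶜ D r l M :=
  { h with
    dLD := Set.disjoint_left.2 fun _ a c => a (.inr c)
    hl := fun ρ a => a.elim (h.hr ρ).1 (h.hr ρ).2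
    hr := fun ρ => ⟨fun a => a (.inl (h.hl ρ)), Set.disjoint_left.1 h.dLD (h.hl ρ)⟩
    pth := fun ρ => (h.pth ρ).symm
    sp := fun ρ w hw => (h.sp ρ w hw).imp_right Or.symm
    cov := fun e he => by
      rcases h.cov e he with a | a | a
      · exact .inr (.inl fun w hw =>
          ⟨fun c => c (.inl (a w hw)), Set.disjoint_left.1 h.dLD (a w hw)⟩)
      · exact .inl fun w hw c => c.elim (a w hw).1 (a w hw).2
      · exact .inr (.inr a) }

theorem mL (h : Win3 Γ X L D l r M) {ρ : Fin 3} {e : Sym2 V} (he : e ∈ M ρ) {w : V} (hw : w ∈ e)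
    (hL : w ∈ L) : w = l ρ := by
  rcases h.sp ρ w ⟨e, he, hw⟩ with a | a | a
  · exact (Set.disjoint_left.1 h.dLD hL a).elim
  · exact a
  · exact ((h.hr ρ).1 (a ▸ hL)).elim

theorem dM (h : Win3 Γ X L D l r M) (ρ : Fin 3) : Disjoint (ins id Γ L) (M ρ) :=
  disjoint_left.2 fun e a he => (h.pth ρ).2.nl e he (by
    induction e using Sym2.ind with
    | _ x y =>
      have c := (mem_ins.1 a).2
      exact Sym2.mk_isDiag_iff.2 ((mL h he (Sym2.mem_mk_left x y) (c x (Sym2.mem_mk_left x y))).trans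
        (mL h he (Sym2.mem_mk_right x y) (c y (Sym2.mem_mk_right x y))).symm))

variable [DecidableEq V]

theorem sX (h : Win3 Γ X L D l r M) : ins id Γ L ⊆ Γ \ X := fun e a =>
  mem_sdiff.2 ⟨ins_subset a, fun c => Set.disjoint_left.1 h.dLD
    ((mem_ins.1 a).2 _ e.out_fst_mem) (h.xD e c _ e.out_fst_mem)⟩

theorem one [Fintype V] (hWAR : S_WAR) (h : Win3 Γ X L D l r M) (Y : Set V) (a : Finset (Fin 3))
    (ha : ∀ ρ, ρ ∈ a ↔ l ρ ∈ Y) :
    (cut id Γ (L ∩ Y)).card = (cut id (ins id Γ L) Y).card + a.card := by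
  obtain ⟨-, -, dj, -, c1, -⟩ := hWAR h
  have : cut id Γ (L ∩ Y) =
      cut id (ins id Γ L) Y ∪ a.biUnion fun ρ => cut id (M ρ) {l ρ} := by
    ext e
    simp only [mem_union, mem_biUnion]
    constructor
    · intro he
      obtain ⟨he, x, y, rfl, hx, hy⟩ := mem_cut.1 he
      have mx := Sym2.mem_mk_left x y
      rcases h.cov _ he with c | c | c | ⟨ρ, c⟩
      · exact .inl (mem_cut.2 ⟨mem_ins.2 ⟨he, c⟩, x, y, rfl, hx.2,
          fun d => hy ⟨c y (Sym2.mem_mk_right x y), d⟩⟩)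
      · exact ((c x mx).1 hx.1).elim
      · exact (Set.disjoint_left.1 h.dLD hx.1 (h.xD _ c x mx)).elim
      · have := mL h c mx hx.1
        exact .inr ⟨ρ, (ha ρ).2 (this ▸ hx.2),
          mem_cut_single.2 ⟨c, this ▸ mx, (h.pth ρ).2.nl _ c⟩⟩
    · rintro (he | ⟨ρ, h1, he⟩)
      · obtain ⟨he, x, y, rfl, hx, hy⟩ := mem_cut.1 he
        exact mem_cut.2 ⟨ins_subset he, x, y, rfl,
          ⟨(mem_ins.1 he).2 x (Sym2.mem_mk_left x y), hx⟩, fun d => hy d.2⟩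
      · obtain ⟨he, x, y, rfl, rfl, hy⟩ := mem_cut.1 he
        exact mem_cut.2 ⟨h.sub ρ he, _, y, rfl, ⟨h.hl ρ, (ha ρ).1 h1⟩,
          fun d => hy (mL h he (Sym2.mem_mk_right _ y) d.1)⟩
  rw [this, card_union_of_disjoint ((disjoint_biUnion_right _ _ _).2 fun ρ _ =>
      (dM h ρ).mono cut_subset cut_subset),
    card_biUnion fun ρ _ ρ' _ e => (dj ρ ρ' e).mono cut_subset cut_subset,
    sum_congr rfl fun ρ _ => (c1 ρ).2.1, sum_const, smul_eq_mul, mul_one]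

end WACx

theorem p_WAC (hPAR : S_PAR) (hWAR : S_WAR) :
    S_WAC := by
  intro V _ _ Γ X L D l r M Y a b h ha hb
  have h' := WACx.symm h
  refine ⟨WACx.one hWAR h Y a ha, WACx.one hWAR h' Y b hb, ?_⟩
  have dj := (hWAR h).2.2.1
  have d1 : Disjoint (ins id Γ L) (ins id Γ (L ∪ D)ᶜ) := disjoint_left.2 fun e c d =>
    (mem_ins.1 d).2 _ e.out_fst_mem (.inl ((mem_ins.1 c).2 _ e.out_fst_mem))
  have h1 : (a \ b ∪ b \ a).card ≤ ((a \ b ∪ b \ a).biUnion fun ρ => cut id (M ρ) Y).card := by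
    rw [card_biUnion fun ρ _ ρ' _ e => (dj ρ ρ' e).mono cut_subset cut_subset, card_eq_sum_ones]
    refine sum_le_sum fun ρ hρ => (((hPAR id (M ρ)).2.2.1 _ _ (h.pth ρ).1 Y).2 ?_).pos
    rw [← ha, ← hb]
    simp only [mem_union, mem_sdiff] at hρ
    tauto
  rw [card_union_of_disjoint disjoint_sdiff_sdiff] at h1
  have h2 : cut id (ins id Γ L) Y ∪ cut id (ins id Γ (L ∪ D)ᶜ) Y ∪
      ((a \ b ∪ b \ a).biUnion fun ρ => cut id (M ρ) Y) ⊆ cut id (Γ \ X) Y :=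
    union_subset (union_subset (cut_mono (WACx.sX h)) (cut_mono (WACx.sX h')))
      (biUnion_subset.2 fun ρ _ => cut_mono (subset_sdiff.2 ⟨h.sub ρ, (h.xM ρ).symm⟩))
  have h3 := card_le_card h2
  rw [card_union_of_disjoint ((disjoint_biUnion_right _ _ _).2 fun ρ _ => disjoint_union_left.2
      ⟨(WACx.dM h ρ).mono cut_subset cut_subset, (WACx.dM h' ρ).mono cut_subset cut_subset⟩),
    card_union_of_disjoint (d1.mono cut_subset cut_subset)] at h3
  omega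

end Pool.Agent.P.MP_bb4f54_co.T3

end sWAC

section sADD
/-! Step ADD. -/

set_option autoImplicit false
set_option linter.unusedSectionVars false

namespace Pool.Agent.P.MP_bb4f54_co.T3

open Finset

theorem p_ADD (hPAR : S_PAR) (hRCP : S_RCP) (hPD1 : S_PD1) (hTCB : S_TCB) :
    S_ADD := by
  intro V ι _ _ _ en Γ A x y hT hE hx hy hD
  have hd : Disjoint Γ A := hE.dj.symm
  have hu : ∀ v, dgr en (Γ ∪ A) v = dgr en Γ v + dgr en A v := dgr_union hd
  obtain ⟨ax, ay⟩ := (hPD1 en).1 A x y hE.pth hE.ne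
  have hin : ∀ v ∈ spt en A, v ≠ x → v ≠ y → dgr en Γ v = 0 ∧ dgr en A v = 2 := by
    intro v hv h1 h2
    refine ⟨dgr_eq_zero fun h => ?_, (hPD1 en).2.1 A x y v hE.pth hv h1 h2⟩
    rcases hE.sp v hv h with h | h
    · exact h1 h
    · exact h2 h
  have hx3 : dgr en (Γ ∪ A) x = 3 := by rw [hu, hx, ax]
  have hy3 : dgr en (Γ ∪ A) y = 3 := by rw [hu, hy, ay]
  have key3 : ∀ Y : Set V, (∀ v ∈ Y, dgr en Γ v ≠ 3) → (∃ v ∈ Y, dgr en (Γ ∪ A) v = 3) →
      3 ≤ (cut en (Γ ∪ A) Y).card := by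
    rintro Y hY ⟨v, hv, h3⟩
    rw [card_cut_union hd]
    have hxy : x ∈ Y ∨ y ∈ Y := by
      by_cases h1 : v = x
      · exact Or.inl (h1 ▸ hv)
      by_cases h2 : v = y
      · exact Or.inr (h2 ▸ hv)
      exfalso
      rw [hu] at h3
      by_cases h : v ∈ spt en A
      · have := hin v h h1 h2; omega
      · have := dgr_eq_zero h
        have := hY v hv
        omega
    by_cases hb : x ∈ Y ∧ y ∈ Y
    · have := hD Y hb.1 hb.2 hY; omega
    · obtain ⟨b, hb3⟩ := hT.br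
      have h2 := (hTCB en Γ hT).2.1 Y (by
        rcases hxy with h | h
        · exact ⟨x, h, by omega⟩
        · exact ⟨y, h, by omega⟩) ⟨b, fun h => hY b h hb3, by omega⟩
      have h1 := ((hPAR en A).2.2.1 x y hE.pth.1 Y).2 (by tauto)
      have := h1.pos
      omega
  have key1 : ∀ Y : Set V, cut en (Γ ∪ A) Y = ∅ → x ∈ Y → ∀ v, dgr en (Γ ∪ A) v ≠ 0 → v ∈ Y := by
    intro Y hY hxY v hv
    rw [cut_union, union_eq_empty] at hY
    by_cases h : v ∈ spt en A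
    · exact ((hRCP en).2.2.2.1 A x y v hE.pth h).mem_of_cut hY.2 hxY
    · by_contra hc
      have h0 := dgr_eq_zero h
      rw [hu] at hv
      have := hT.c1 Y ⟨x, hxY, by omega⟩ ⟨v, hc, by omega⟩
      rw [hY.1] at this
      exact not_nonempty_empty this
  refine ⟨⟨?_, ?_, ⟨x, hx3⟩, ?_, ?_⟩, ⟨hE.pth, subset_union_right, hE.ne, ?_⟩, hx3, hy3, ?_⟩
  · intro i hi
    rcases mem_union.1 hi with h | h
    · exact hT.nl i h
    · exact hE.pth.2.nl i h
  · intro v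
    by_cases h1 : v = x
    · rw [h1]; exact Or.inr (Or.inr hx3)
    by_cases h2 : v = y
    · rw [h2]; exact Or.inr (Or.inr hy3)
    rw [hu]
    by_cases h : v ∈ spt en A
    · have := hin v h h1 h2; omega
    · have := dgr_eq_zero h
      have := hT.dg v
      omega
  · intro Y h1 h2
    by_cases c1 : ∃ v ∈ Y, dgr en Γ v = 3
    · by_cases c2 : ∃ v ∉ Y, dgr en Γ v = 3
      · exact (hT.c3 Y c1 c2).trans (card_le_card (cut_mono subset_union_left))
      · rw [← cut_compl]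
        exact key3 Yᶜ (fun v hv h => c2 ⟨v, hv, h⟩) h2
    · exact key3 Y (fun v hv h => c1 ⟨v, hv, h⟩) h1
  · rintro Y ⟨v, hv, h1⟩ ⟨w, hw, h2⟩
    rw [nonempty_iff_ne_empty]
    intro hY
    by_cases h : x ∈ Y
    · exact hw (key1 Y hY h w h2)
    · exact key1 Yᶜ (by rw [cut_compl, hY]) h v h1 hv
  · intro v hv h1 h2
    have := hin v hv h1 h2
    rw [hu]; omega
  · intro v hv
    rw [cut_union, card_eq_zero.1 (dgr_eq_zero hv), union_empty]

end Pool.Agent.P.MP_bb4f54_co.T3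

end sADD

section sF2a
/-! Step F2a. -/

set_option autoImplicit false
set_option linter.unusedSectionVars false

namespace Pool.Agent.P.MP_bb4f54_co.T3

open Finset

theorem p_F2a (hTDF : S_TDF) (hSPC : S_SPC) (hRG0 : S_RG0) (hGL : S_GL) (hRG : S_RG) (hLVL : S_LVL) (hWN9 : S_WN9) :
    S_F2a := by
  intro V _ _ G S T O Γ v n pos R P E x₀ h hx₀ hE1 hE2 hP
  classical
  by_contra hcon
  rw [not_or] at hcon
  obtain ⟨hres, hcard⟩ := hcon
  have c0 := h.c0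
  have d2 := c0.sk.dT
  have tdf := hTDF Γ v n pos c0.td
  have step : ∀ x ∈ P, ∃ σ : St V, Ucl G Γ T O R σ ∧ σ.x = x ∧ v σ.y ≠ v x₀ := by
    intro x hx
    obtain ⟨e, σ, u, ex, hv⟩ := hP x hx
    by_cases a : v σ.y = v x₀
    · by_cases b : v σ.z = v x₀
      · exfalso
        subst ex
        have a' : v σ.y = v σ.x := a.trans e.symm
        have b' : v σ.z = v σ.x := b.trans e.symm
        have hne := ((hRG σ h u).1 a').2.2
        have hk := (hRG0 c0.g3 c0.sk u).2.2.2.2.2.2 hne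
        have p1 : pos σ.y ≠ pos σ.x := fun q =>
          u.yx (((tdf _ _ (d2 _ u.hx) (d2 _ u.hy)).1 a').2 q)
        have p2 : pos σ.z ≠ pos σ.x := fun q =>
          u.zx (((tdf _ _ (d2 _ u.hx) (d2 _ u.hz)).1 b').2 q)
        rcases hv with hv | ⟨h1, h2⟩
        · exact hne hv
        · rcases lt_or_gt_of_ne p1 with q1 | q1 <;> rcases lt_or_gt_of_ne p2 with q2 | q2
          · exact h2 ⟨⟨a'.symm, q1⟩, ⟨b'.symm, q2⟩⟩
          · exact hres (hGL σ c0 u hk ⟨a'.symm, q1⟩ ⟨b', q2⟩)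
          · exact hres (hGL σ.sw c0 u.sw hk ⟨b'.symm, q2⟩ ⟨a', q1⟩)
          · exact h1 ⟨⟨a', q1⟩, ⟨b', q2⟩⟩
      · exact ⟨σ.sw, u.sw, ex, b⟩
    · exact ⟨σ, u, ex, a⟩
  have hT : ∀ x ∈ P, x ∈ T := fun x hx => by
    obtain ⟨σ, u, ex, -⟩ := step x hx
    exact ex ▸ u.hx
  have inj : Set.InjOn pos P := fun x hx y hy e =>
    (((tdf y x (d2 _ (hT y hy)) (d2 _ (hT x hx))).1
      ((hP x hx).1.trans (hP y hy).1.symm)).2 e)
  obtain ⟨N, p, k1, k2, k3⟩ := hSPC (P.image pos) (2 * R + 3) (by omega)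
  rw [card_image_of_injOn inj] at k1
  have ex : ∀ i, ∃ σ : St V, i < N → Ucl G Γ T O R σ ∧ σ.x ∈ P ∧ pos σ.x = p i ∧ v σ.y ≠ v x₀ := by
    intro i
    by_cases hi : i < N
    · obtain ⟨x, hx, e⟩ := mem_image.1 (k2 i hi)
      obtain ⟨σ, u, ex, a⟩ := step x hx
      exact ⟨σ, fun _ => ⟨u, ex ▸ hx, ex ▸ e, a⟩⟩
    · exact ⟨⟨x₀, x₀, x₀, x₀, ∅, ∅⟩, fun x => absurd x hi⟩
  choose σ hσ using ex
  have sq : Sq G T O Γ v n pos R σ N (v x₀) (n x₀) :=
    ⟨fun i hi => (hσ i hi).1, fun i hi => (hP _ (hσ i hi).2.1).1,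
      fun i hi => ((tdf x₀ _ (d2 _ hx₀) (d2 _ (hσ i hi).1.hx)).1 (hP _ (hσ i hi).2.1).1).1,
      fun i hi => (hσ i hi).2.2.2, fun i j hij hj => by
        have := k3 i j hij hj
        rw [(hσ i (hij.trans hj)).2.2.1, (hσ j hj).2.2.1]
        omega⟩
  have lv := hLVL E h sq hE1 hE2 (fun I hI hv => by
    by_contra h9
    have h9' : 9 ≤ I.card := by omega
    let f := I.orderEmbOfCardLe h9'
    have fI : ∀ i, f i ∈ I := fun i => I.orderEmbOfCardLe_mem h9' i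
    let g : ℕ → ℕ := fun i => if hi : i < 9 then f ⟨i, hi⟩ else 0
    have gI : ∀ i, i < 9 → g i ∈ I := fun i hi => by simp only [g, dif_pos hi]; exact fI _
    have gm : ∀ i j, i < j → j < 9 → g i < g j := fun i j hij hj => by
      simp only [g, dif_pos hj, dif_pos (hij.trans hj)]
      exact f.strictMono hij
    refine hres (hWN9 (σ := fun i => σ (g i)) (R := R) (e := v x₀) (m := n x₀) h
      ⟨fun i hi => sq.uc _ (hI _ (gI i hi)), fun i hi => sq.on _ (hI _ (gI i hi)),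
        fun i hi => sq.nn _ (hI _ (gI i hi)), fun i hi => sq.off _ (hI _ (gI i hi)),
        fun i j hij hj => sq.gap _ _ (gm i j hij hj) (hI _ (gI j hj))⟩
      (fun i hi => hv _ (gI i hi) _ (gI 0 (by omega)))))
  exact hcard (k1.trans (Nat.mul_le_mul_left _ lv))

end Pool.Agent.P.MP_bb4f54_co.T3

end sF2a

section sW3a
/-! Step W3a. -/

set_option autoImplicit false
set_option linter.unusedSectionVars false

namespace Pool.Agent.P.MP_bb4f54_co.T3

open Finset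

theorem p_W3a (hMON : S_MON) (hTDF : S_TDF) (hTDC : S_TDC) (hCXB : S_CXB) (hK2S : S_K2S) (hORI : S_ORI) :
    S_W3a := by
  intro V _ _ G S T O Γ v n pos R m mw σ e w Ys q C Q W H
  have td := C.c0.td
  have dT := C.c0.sk.dT
  have hx : (σ 0).x ∈ T := (Q.uc 0 (by omega)).hx
  have hy : (σ 0).y ∈ T := (Q.uc 0 (by omega)).hy
  have hz : ∀ i, i < 8 → (σ i).z ∈ T := fun i hi => (Q.uc i (by omega)).hz
  have ex : v (σ 0).x = e := Q.on 0 (by omega)
  have nx : n (σ 0).x = m := Q.nn 0 (by omega)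
  have F := fun x y (h1 : x ∈ T) (h2 : y ∈ T) => hTDF Γ v n pos td x y (dT x h1) (dT y h2)
  have same : ∀ i, 0 < i → i < 8 → v (σ i).z = v (σ 1).z := by
    intro i h0 h8
    by_contra hne
    have h1 := H 1 (by omega) (by omega)
    have hi := H i h0 h8
    have z1 := hz 1 (by omega)
    have zi := hz i h8
    have c := (hTDC Γ v n pos {(σ 0).x, (σ 0).y, (σ 1).z, (σ i).z} td (by
      intro x hx'
      simp only [mem_insert, mem_singleton] at hx'
      rcases hx' with rfl | rfl | rfl | rfl <;> apply dT <;> assumption)).2.1 Ys (by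
      intro x hx'
      simp only [mem_insert, mem_singleton] at hx'
      rcases hx' with rfl | rfl | rfl | rfl
      · rw [ex, nx]
        exact fun h => W.em (h.1 W.e0)
      · exact W.sp
      · exact h1.2.2
      · exact hi.2.2)
    have d1 : v (σ 0).y 1 ≠ v (σ 0).x 1 := fun h =>
      Q.off 0 (by omega) (((F _ _ hx hy).2.1 h).trans ex)
    have d2 : v (σ 1).z 1 ≠ v (σ 0).x 1 := fun h => h1.1 (((F _ _ hx z1).2.1 h).trans ex)
    have d3 : v (σ i).z 1 ≠ v (σ 0).x 1 := fun h => hi.1 (((F _ _ hx zi).2.1 h).trans ex)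
    have d4 : v (σ 1).z 1 ≠ v (σ 0).y 1 := fun h => h1.2.1 ((F _ _ hy z1).2.1 h)
    have d5 : v (σ i).z 1 ≠ v (σ 0).y 1 := fun h => hi.2.1 ((F _ _ hy zi).2.1 h)
    have d6 : v (σ i).z 1 ≠ v (σ 1).z 1 := fun h => hne ((F _ _ z1 zi).2.1 h)
    rw [image_insert, image_insert, image_insert, image_singleton,
      card_insert_of_notMem (by simp [d1.symm, d2.symm, d3.symm]),
      card_insert_of_notMem (by simp [d4.symm, d5.symm]),
      card_insert_of_notMem (by simp [d6.symm]), card_singleton] at c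
    have := W.c3
    omega
  have h1 := H 1 (by omega) (by omega)
  have z1 := hz 1 (by omega)
  obtain ⟨u, mu, ru, u0, um, es, on⟩ := hORI (σ 1).z Ys C.c0 z1 h1.2.2
  have ch : ∀ i, ∃ c, 0 < i → i < 8 → 0 < c ∧ c < mu ∧ u c = (σ i).z := by
    intro i
    by_cases h : 0 < i ∧ i < 8
    · obtain ⟨c, hc⟩ := on _ (hz i h.2) (same i h.1 h.2)
      exact ⟨c, fun _ _ => hc⟩
    · exact ⟨0, fun a b => (h ⟨a, b⟩).elim⟩
  choose c hc using ch
  refine ⟨u, mu, c, ru, u0, um, ?_, ?_, hc, ?_⟩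
  · have := ((F _ _ hx z1).2.2 (by rw [ex]; exact h1.1)).1
    rwa [ex, nx, ← es] at this
  · rw [W.es, es]
    exact ((F _ _ hy z1).2.2 h1.2.1).1
  · intro i j h0 hij h8
    obtain ⟨Y, c3, e0, ti, em, tj⟩ := hK2S i j (σ i).z (σ j).z C Q hij (by omega) (Or.inr rfl)
      (H i h0 (by omega)).1 (Or.inr rfl) (H j (by omega) h8).1
    obtain ⟨-, a2, a3⟩ := hc i h0 (by omega)
    obtain ⟨-, b2, b3⟩ := hc j (by omega) h8
    exact (hMON Γ u mu (c i) (c j) (e 0) (e m) Ys Y C.c0.tc ru.th W.re.th.d0 W.re.th.d1 W.c3 c3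
      W.e0 e0 W.em em u0 um a2.le b2.le (a3 ▸ ti) (b3 ▸ tj)).1

end Pool.Agent.P.MP_bb4f54_co.T3

end sW3a

section sG3g
/-! Step G3g. -/

set_option autoImplicit false
set_option linter.unusedSectionVars false

namespace Pool.Agent.P.MP_bb4f54_co.T3

open Finset

theorem p_G3g (hTHRU : S_THRU) (hTWO : S_TWO) :
    S_G3g := by
  intro V _ _ Γ X L D l r M F c W hn hX hM hc hQ Z hZ cy hcZ
  obtain ⟨h, h1, h2⟩ := hTHRU Z c W hn hZ cy.2.1 hcZ hc
  obtain ⟨Q, q1, q2⟩ := hQ h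
  have mM : ∀ e, e ∈ M 0 ∪ M 1 ∪ M 2 ↔ ∃ ρ, e ∈ M ρ := fun e => by
    simp only [mem_union, Fin.exists_fin_succ, Fin.succ_zero_eq_one, Fin.succ_one_eq_two,
      IsEmpty.exists_iff, or_false, or_assoc]
  have hd : ∀ j, Disjoint ((Z ∩ F) \ (M 0 ∪ M 1 ∪ M 2)) (Q j) := fun j => by
    refine disjoint_left.2 fun e he hq => ?_
    rw [mem_sdiff, mem_inter, mM] at he
    rcases (q1 j).2 e hq with a | a
    · exact (mem_sdiff.1 (hZ he.1.1)).2 a
    · exact he.2 a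
  refine ⟨fun j => ((Z ∩ F) \ (M 0 ∪ M 1 ∪ M 2)) ∪ Q j, fun j e he => ?_, ?_,
    fun Z' hZ' cy' e j => ?_⟩
  · rcases mem_union.1 he with a | a
    · have b := mem_inter.1 (mem_sdiff.1 a).1
      exact mem_inter.2 ⟨b.2, (mem_sdiff.1 (hZ b.1)).1⟩
    · rcases (q1 j).2 e a with b | ⟨ρ, b⟩
      · exact mem_inter.2 ⟨hX b, W.xs b⟩
      · exact mem_inter.2 ⟨hM ρ b, W.sub ρ b⟩
  · simp only [card_union_of_disjoint (hd _)]
    omega
  · have k : ∀ x ∈ F, x ∈ Z' ↔ x ∈ Z := fun x hx => by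
      have := Finset.ext_iff.1 e x
      simpa only [mem_inter, hx, and_true] using this
    have a1 : Z' ⊆ Γ \ X := fun x hx => mem_sdiff.2 ⟨hZ' hx, fun b =>
      (mem_sdiff.1 (hZ ((k x (hX b)).1 hx))).2 b⟩
    have a2 : ∀ ρ, ρ ≠ h → M ρ ⊆ Z' := fun ρ hρ x hx => (k x (hM ρ hx)).2 (h1 ρ hρ hx)
    have a3 : Disjoint (M h) Z' := disjoint_left.2 fun x hx hx' =>
      disjoint_left.1 h2 hx ((k x (hM h hx)).1 hx')
    have a4 : (Z' \ F) ∪ (((Z ∩ F) \ (M 0 ∪ M 1 ∪ M 2)) ∪ Q j) =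
        (Z' \ (M 0 ∪ M 1 ∪ M 2)) ∪ Q j := by
      rw [← union_assoc, ← e]
      congr 1
      ext x
      have b : x ∈ M 0 ∪ M 1 ∪ M 2 → x ∈ F := fun b => let ⟨ρ, b⟩ := (mM x).1 b; hM ρ b
      generalize M 0 ∪ M 1 ∪ M 2 = N at b
      simp only [mem_union, mem_sdiff, mem_inter]
      tauto
    change Cy id ((Z' \ F) ∪ (((Z ∩ F) \ (M 0 ∪ M 1 ∪ M 2)) ∪ Q j))
    rw [a4]
    exact hTWO Z' (Q j) h W a1 cy' a2 a3 (q1 j).1

end Pool.Agent.P.MP_bb4f54_co.T3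

end sG3g

section sMIN4
/-! Step MIN4. -/

set_option autoImplicit false
set_option linter.unusedSectionVars false

namespace Pool.Agent.P.MP_bb4f54_co.T3

open Finset

theorem p_MIN4 (hSEG : S_SEG) (hTDF : S_TDF) (hDIF : S_DIF) (hSAC : S_SAC) (hCXB : S_CXB) :
    S_MIN4 := by
  intro V _ _ G S T O Γ v n pos hM hC x hx x' hx' hv y hy hyx y' hy' hyx' A A' hA hA' hd hlt
  obtain ⟨c1, -, c3, c4, -⟩ := hCXB hC
  have d := hC.sk.dT
  have td := hC.td
  have e1 : v x (pos x) = x := td.vx x (d x hx)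
  have e2 : v x (pos x') = x' := hv ▸ td.vx x' (d x' hx')
  have hb : pos x' < n x := (((hTDF Γ v n pos td x x' (d x hx) (d x' hx')).1 hv).1) ▸
    td.pn x' (d x' hx')
  have ha := td.p0 x (d x hx)
  have hab : pos x < pos x' := by omega
  have hoff : ∀ z ∈ T, v z ≠ v x → ∀ i, i ≤ n x → v x i ≠ z := fun z hz h i hi e =>
    ((hTDF Γ v n pos td z x (d z hz) (d x hx)).2.2 h.symm).2 (pos z) i (td.p0 z (d z hz))
      (td.pn z (d z hz)) hi ((td.vx z (d z hz)).trans e.symm)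
  obtain ⟨a1, a2⟩ := c4 A x hx y hy hA
  obtain ⟨b1, b2⟩ := c4 A' x' hx' y' hy' hA'
  rcases hSAC Γ A A' (v x) (n x) (pos x) (pos x') y y' hC.tc (c1 x hx).th ha hab hb
    (by rwa [e1]) (by rwa [e2]) (d y hy) (d y' hy')
    (fun i hi => ⟨hoff y hy hyx i hi, hoff y' hy' hyx' i hi⟩)
    (by rw [e1]; exact ((hDIF Γ hC.tc).2 v n pos td x (d x hx)).2 y (d y hy) hyx)
    (by rw [e2]; exact ((hDIF Γ hC.tc).2 v n pos td x' (d x' hx')).2 y' (d y' hy') (hv ▸ hyx'))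
    hd with h | ⟨Y, h1, h2, -, h3, h4, -, h5⟩
  · exfalso
    have h1 := (c3 _ _ _ _ (c1 x hx) ha hab hb).1
    obtain ⟨-, h2, h3, -⟩ := (hSEG Γ _ _ (c1 x hx).th.sg).1 _ _ hab.le hb.le
    have h4 := hM.mn _ h (by
      ext e
      have := @h1 e
      have := @a1 e
      have := @b1 e
      simp only [mem_sdiff, mem_union]
      tauto)
    rw [card_sdiff_of_subset (h2.trans (subset_union_left.trans subset_union_left)), h3] at h4
    have h5 := card_union_le (Γ ∪ A) A'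
    have h6 := card_union_le Γ A
    have h7 := card_le_card h2
    omega
  · exact ⟨Y, h1, h2, h3, h4, h5⟩

end Pool.Agent.P.MP_bb4f54_co.T3

end sMIN4

section sFRE
/-! Step FRE. -/

set_option autoImplicit false
set_option linter.unusedSectionVars false

namespace Pool.Agent.P.MP_bb4f54_co.T3

open Finset

theorem p_FRE :
    S_FRE := by
  intro V _ _ G Γ T O hG hS
  have hc : ∀ x ∈ T, (cut id (EG G) {x} \ cut id Γ {x}).card = 1 := fun x hx => by
    have h1 : (cut id (EG G) {x}).card = 3 := hG.dg x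
    have h2 : (cut id Γ {x}).card = 2 := hS.dT x hx
    rw [card_sdiff_of_subset (cut_mono hS.sub), h1, h2]
  have hm : ∀ x k, G.Adj x k → s(x, k) ∉ Γ → s(x, k) ∈ cut id (EG G) {x} \ cut id Γ {x} :=
    fun x k h h' => mem_sdiff.2 ⟨mem_cut_single.2 ⟨mk_mem_EG.2 h, by simp, by simpa using h.ne⟩,
      fun e => h' (cut_subset e)⟩
  have hO : ∀ a ∈ O, a ∉ spt id Γ := fun a ha h => (nl_EG.mono hS.sub).dgr_ne h (hS.dO a ha)
  have hO' : ∀ a ∈ O, ∀ b, s(a, b) ∉ Γ := fun a ha b h => hO a ha ⟨_, h, by simp⟩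
  refine ⟨fun x hx => ?_, fun x hx k k' h1 h2 h3 h4 => ?_, fun x hx h => ?_,
    fun a ha b => ⟨hO' a ha b, Sym2.eq_swap ▸ hO' a ha b⟩, hO,
    fun a ha b h => hS.cl a (Or.inr ha) b h (hO' a ha b)⟩
  · obtain ⟨e, he⟩ := card_pos.1 ((hc x hx).symm ▸ one_pos)
    obtain ⟨h1, h2⟩ := mem_sdiff.1 he
    obtain ⟨h3, h4, h5⟩ := mem_cut_single.1 h1
    obtain ⟨k, rfl⟩ := Sym2.mem_iff_exists.1 (show x ∈ e from h4)
    exact ⟨k, mk_mem_EG.1 h3, fun h => h2 (mem_cut_single.2 ⟨h, h4, h5⟩)⟩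
  · exact Sym2.congr_right.1 (card_le_one.1 (hc x hx).le _ (hm x k h1 h2) _ (hm x k' h3 h4))
  · have := hS.dT x hx
    have := hS.dO x h
    omega

end Pool.Agent.P.MP_bb4f54_co.T3

end sFRE

section sNCR
/-! Step NCR. -/

set_option autoImplicit false
set_option linter.unusedSectionVars false

namespace Pool.Agent.P.MP_bb4f54_co.T3

open Finset

theorem p_NCR (hSUB : S_SUB) :
    S_NCR := by
  intro V ι _ _ _ en Γ Y Y' a b c d hT hY hY' ha hb hc hd a1 a2 b1 b2 c1 c2 d1 d2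
  obtain ⟨h1, h2, h3⟩ := hSUB en Γ Y Y'
  have e1 := hT.c3 (Y ∩ Y') ⟨a, ⟨a1, a2⟩, ha⟩ ⟨d, fun h => d1 h.1, hd⟩
  have e2 := hT.c3 (Y ∪ Y') ⟨a, Or.inl a1, ha⟩ ⟨d, fun h => h.elim d1 d2, hd⟩
  have e3 := hT.c3 (Y \ Y') ⟨b, ⟨b1, b2⟩, hb⟩ ⟨d, fun h => d1 h.1, hd⟩
  have e4 := hT.c3 (Y' \ Y) ⟨c, ⟨c2, c1⟩, hc⟩ ⟨d, fun h => d2 h.1, hd⟩
  omega

end Pool.Agent.P.MP_bb4f54_co.T3

end sNCR
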