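import Pool.Agent.P.MP_bb4f54_co.T3.Iface3
import Pool.Agent.P.MP_bb4f54_co.T3.Iface1
import Pool.Agent.P.MP_bb4f54_co.T3.Iface7
import Pool.Agent.P.MP_bb4f54_co.T3.Iface6

section sTD0
/-! Step TD0. -/

set_option autoImplicit false
set_option linter.unusedSectionVars false

namespace Pool.Agent.P.MP_bb4f54_co.T3

open Finset

namespace TD0x

variable {V : Type} [Fintype V] [DecidableEq V]

lemma other {Γ : Finset (Sym2 V)} {u : V} (h : dgr id Γ u = 2) (e : Sym2 V) :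
    ∃ w, s(u, w) ∈ Γ ∧ w ≠ u ∧ s(u, w) ≠ e := by
  obtain ⟨e', he', hne⟩ := exists_mem_ne (s := cut id Γ {u}) (by unfold dgr at h; omega) e
  obtain ⟨h1, a, b, hab, ha, hb⟩ := mem_cut.1 he'
  have ha' : a = u := ha
  have hab' : e' = s(a, b) := hab
  subst ha'
  subst hab'
  exact ⟨b, h1, hb, hne⟩

lemma lt_card {Γ : Finset (Sym2 V)} {v : ℕ → V} {n : ℕ} (h : Seg Γ v n) :
    n < Fintype.card V := by
  have h1 : (range (n + 1)).card ≤ (univ : Finset V).card :=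
    card_le_card_of_injOn v (fun _ _ => mem_univ _) (fun i hi j hj e =>
      h.inj i j (by simpa [Nat.lt_succ_iff] using hi) (by simpa [Nat.lt_succ_iff] using hj) e)
  rw [card_range, card_univ] at h1
  omega

lemma extend (hODA : S_ODA) (hCAT : S_CAT) (hSEG : S_SEG) {Γ : Finset (Sym2 V)}
    (hcy : ∀ Z ⊆ Γ, Cy id Z → ∃ a ∈ spt id Z, ∃ b ∈ spt id Z, a ≠ b ∧ dgr id Γ a ≠ 2 ∧
      dgr id Γ b ≠ 2) {v : ℕ → V} {n : ℕ} (h : Seg Γ v n) (hn : 2 ≤ n)
    (hd : dgr id Γ (v n) = 2) : ∃ v' : ℕ → V, Seg Γ v' (n + 1) ∧ ∀ i ≤ n, v' i = v i := by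
  obtain ⟨w, hw, hwn, hwe⟩ := other hd s(v (n - 1), v n)
  have hnew : ∀ i ≤ n, w ≠ v i := by
    rintro i hi rfl
    have hin : i ≠ n := fun e => hwn (by rw [e])
    by_cases h0 : i = 0
    · subst h0
      obtain ⟨hp, hs, -, hsp⟩ := (hSEG Γ v n h).1 0 n (by omega) le_rfl
      have hq : Pth id {s(v n, v 0)} (v 0) (v n) :=
        (hODA id).2.2.2.2.2.2.1 s(v n, v 0) (v 0) (v n) Sym2.eq_swap hwn
      have hend : ∀ u ∈ spt id {s(v n, v 0)}, u = v 0 ∨ u = v n := by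
        rintro u ⟨e, he, hu⟩
        rw [mem_singleton] at he
        subst he
        exact (Sym2.mem_iff.1 hu).symm
      have hdis : Disjoint (ES v 0 n) {s(v n, v 0)} := by
        rw [disjoint_singleton_right, mem_ES]
        rintro ⟨j, -, hj, e⟩
        rcases Sym2.eq_iff.1 e with ⟨e1, -⟩ | ⟨e1, e2⟩
        · have := h.inj _ _ le_rfl hj.le e1
          omega
        · have := h.inj _ _ le_rfl hj e1
          have := h.inj _ _ (Nat.zero_le _) hj.le e2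
          omega
      have hc := (hCAT id).2.1 _ _ _ _ hp hq hwn hdis (fun u _ hu => hend u hu)
      obtain ⟨a, ha, b, hb, hab, hda, hdb⟩ :=
        hcy _ (union_subset hs (singleton_subset_iff.2 hw)) hc
      have key : ∀ u ∈ spt id (ES v 0 n ∪ {s(v n, v 0)}), dgr id Γ u ≠ 2 → u = v 0 := by
        intro u hu hdu
        rw [spt_union] at hu
        rcases hu with hu | hu
        · obtain ⟨j, -, hj, rfl⟩ := hsp u hu
          by_cases j0 : j = 0
          · rw [j0]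
          · by_cases jn : j = n
            · exact absurd (by rw [jn]; exact hd) hdu
            · exact absurd (h.dg j (by omega) (by omega)) hdu
        · rcases hend u hu with e | e
          · exact e
          · exact absurd (by rw [e]; exact hd) hdu
      exact hab ((key a ha hda).trans (key b hb hdb).symm)
    · have h1 : s(v n, v i) ∈ cut id Γ {v i} :=
        mem_cut.2 ⟨hw, v i, v n, Sym2.eq_swap, rfl, fun e => hwn (Eq.symm e)⟩
      rw [(hSEG Γ v n h).2.2.1 i (by omega) (by omega), mem_insert, mem_singleton] at h1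
      rcases h1 with e | e
      · rcases Sym2.eq_iff.1 e with ⟨e1, -⟩ | ⟨e1, -⟩
        · have := h.inj _ _ le_rfl (by omega) e1
          omega
        · exact hwn e1.symm
      · rcases Sym2.eq_iff.1 e with ⟨e1, -⟩ | ⟨e1, -⟩
        · exact hwn e1.symm
        · have e2 := h.inj _ _ le_rfl (by omega) e1
          have e3 : n - 1 = i := by omega
          exact hwe (by rw [e3]; exact Sym2.eq_swap)
  refine ⟨fun i => if i ≤ n then v i else w, ⟨?_, ?_, ?_⟩, fun i hi => if_pos hi⟩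
  · intro i hi
    by_cases e : i = n
    · subst e
      simpa using hw
    · have h1 : i ≤ n := by omega
      have h2 : i + 1 ≤ n := by omega
      simp only [if_pos h1, if_pos h2]
      exact h.ed i (by omega)
  · intro i j hi hj e
    by_cases h1 : i ≤ n <;> by_cases h2 : j ≤ n
    · simp only [if_pos h1, if_pos h2] at e
      exact h.inj i j h1 h2 e
    · simp only [if_pos h1, if_neg h2] at e
      exact absurd e.symm (hnew i h1)
    · simp only [if_neg h1, if_pos h2] at e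
      exact absurd e (hnew j h2)
    · omega
  · intro i h0 hi
    have h1 : i ≤ n := by omega
    simp only [if_pos h1]
    by_cases e : i = n
    · rw [e]; exact hd
    · exact h.dg i h0 (by omega)

lemma start {Γ : Finset (Sym2 V)} {x : V} (h : dgr id Γ x = 2) :
    ∃ v : ℕ → V, Seg Γ v 2 ∧ v 1 = x := by
  obtain ⟨a, ha, hax, -⟩ := other h s(x, x)
  obtain ⟨b, hb, hbx, hab⟩ := other h s(x, a)
  have hba : b ≠ a := fun e => hab (by rw [e])
  refine ⟨fun i => if i = 0 then a else if i = 1 then x else b, ⟨?_, ?_, ?_⟩, by simp⟩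
  · intro i hi
    interval_cases i
    · simpa [Sym2.eq_swap] using ha
    · simpa using hb
  · intro i j hi hj e
    interval_cases i <;> interval_cases j <;>
      first
        | rfl
        | exact absurd e hax
        | exact absurd e hbx
        | exact absurd e hba
        | exact absurd (Eq.symm e) hax
        | exact absurd (Eq.symm e) hbx
        | exact absurd (Eq.symm e) hba
  · intro i h0 hi
    have : i = 1 := by omega
    subst this
    simpa using h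

end TD0x

theorem p_TD0 (hODA : S_ODA) (hCAT : S_CAT) (hSEG : S_SEG) :
    S_TD0 := by
  intro V _ _ Γ x _ hcy hx
  have hmax : ∃ n, (∃ (v : ℕ → V) (p : ℕ), Seg Γ v n ∧ 0 < p ∧ p < n ∧ v p = x) ∧
      ¬ ∃ (v : ℕ → V) (p : ℕ), Seg Γ v (n + 1) ∧ 0 < p ∧ p < n + 1 ∧ v p = x := by
    by_contra hno
    have hall : ∀ m, ∃ (v : ℕ → V) (p : ℕ), Seg Γ v (m + 2) ∧ 0 < p ∧ p < m + 2 ∧ v p = x := by
      intro m
      induction m with
      | zero =>
        obtain ⟨v, hv, h1⟩ := TD0x.start hx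
        exact ⟨v, 1, hv, by omega, by omega, h1⟩
      | succ m ih =>
        by_contra h2
        exact hno ⟨m + 2, ih, h2⟩
    obtain ⟨v, p, hv, -⟩ := hall (Fintype.card V)
    have := TD0x.lt_card hv
    omega
  obtain ⟨n, ⟨v, p, hv, h0, hp, hvp⟩, hno⟩ := hmax
  refine ⟨v, n, p, hv, h0, hp, hvp, fun hd => hno ?_, fun hd => hno ?_⟩
  · have hr := (hSEG Γ v n hv).2.2.2.2.1
    obtain ⟨v', h1, h2⟩ := TD0x.extend hODA hCAT hSEG hcy hr (by omega) (by simpa using hd)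
    refine ⟨v', n - p, h1, by omega, by omega, ?_⟩
    rw [h2 _ (by omega)]
    have e : n - (n - p) = p := by omega
    simp only [e, hvp]
  · obtain ⟨v', h1, h2⟩ := TD0x.extend hODA hCAT hSEG hcy hv (by omega) hd
    exact ⟨v', p, h1, h0, by omega, by rw [h2 _ hp.le, hvp]⟩

end Pool.Agent.P.MP_bb4f54_co.T3

end sTD0

section sG3w
/-! Step G3w. -/

set_option autoImplicit false
set_option linter.unusedSectionVars false

namespace Pool.Agent.P.MP_bb4f54_co.T3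

open Finset

namespace G3wx

theorem mem_XX {V : Type} [DecidableEq V] {Λ : ℕ → Fin 3 → Finset (Sym2 V)} {e : Sym2 V}
    (h : e ∈ XX Λ) : ∃ i ρ, 0 < i ∧ i < 6 ∧ e ∈ Λ i ρ := by
  simp only [XX, mem_union] at h
  rcases h with (((h | h) | h) | ((h | h) | h)) | ((h | h) | h) <;>
    exact ⟨_, _, by norm_num, by norm_num, h⟩

end G3wx

theorem p_G3w (hPAR : S_PAR) (hSEG : S_SEG) (hFRE : S_FRE) (hW3B : S_W3B) :
    S_G3w := by
  intro V _ _ G S T O Γ v n pos r m P k Λ Ys hC hW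
  obtain ⟨B1, B2, B3, -⟩ := hW3B hC hW
  have p0 : ∀ ρ, 0 < P ρ 0 := fun ρ => (hW.pp ρ 0 (by norm_num)).1
  have pq : ∀ ρ, P ρ 0 < P ρ 6 := fun ρ => hW.mo ρ 0 6 (by norm_num) (by norm_num)
  have qm : ∀ ρ, P ρ 6 < m ρ := fun ρ => (hW.pp ρ 6 (by norm_num)).2
  have sg : ∀ ρ, Seg Γ (r ρ) (m ρ) := fun ρ => (hW.rl ρ).th.sg
  have sM := fun ρ => (hSEG Γ (r ρ) (m ρ) (sg ρ)).1 (P ρ 0) (P ρ 6) (pq ρ).le (qm ρ).le
  let L : Set V := {u | u ∉ O ∧ ((∃ ρ i, i ≤ P ρ 0 ∧ u = r ρ i) ∨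
    (u ∈ Ys ∧ ¬ ∃ ρ i, 0 < i ∧ i < m ρ ∧ u = r ρ i))}
  have H1 : ∀ ρ j, P ρ 6 ≤ j → j ≤ m ρ → r ρ j ∉ L ∧ r ρ j ∉ DD (↑O) r P 0 6 := by
    intro ρ j j1 j2
    have a1 := pq ρ
    have a2 := p0 ρ
    refine ⟨?_, ?_⟩
    · rintro ⟨-, ⟨ρ', i, i1, e⟩ | ⟨h1, h2⟩⟩
      · have a3 := pq ρ'
        have a4 := qm ρ'
        rcases Nat.eq_zero_or_pos i with rfl | i0
        · rcases j2.lt_or_eq with j3 | rfl
          · have := (B1 ρ ρ' j 0 (by omega) j3 (by omega) e).2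
            omega
          · exact hW.y1 ρ (e ▸ hW.y0 ρ')
        · obtain ⟨rfl, c⟩ := B1 ρ' ρ i j i0 (by omega) j2 e.symm
          omega
      · rcases j2.lt_or_eq with j3 | rfl
        · exact h2 ⟨ρ, j, by omega, j3, rfl⟩
        · exact hW.y1 ρ h1
    · rintro (h | ⟨ρ', a, b1, b2, e⟩)
      · exact B2 ρ j j2 h
      · have a4 := qm ρ'
        obtain ⟨rfl, c⟩ := B1 ρ' ρ a j (by omega) (by omega) j2 e.symm
        omega
  have H2 : ∀ ρ i, i ≤ P ρ 0 → r ρ i ∈ L := fun ρ i hi =>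
    ⟨B2 ρ i (by have := pq ρ; have := qm ρ; omega), Or.inl ⟨ρ, i, hi, rfl⟩⟩
  have H3 : ∀ e ∈ Γ, (∀ ρ, e ∉ ES (r ρ) 0 (m ρ)) → e ∉ cut id Γ Ys := by
    intro e he hn hc
    have ex : ∀ ρ, ∃ f, f ∈ cut id (ES (r ρ) 0 (m ρ)) Ys := fun ρ => by
      obtain ⟨a1, -⟩ := (hSEG Γ (r ρ) (m ρ) (sg ρ)).1 0 (m ρ) (Nat.zero_le _) le_rfl
      exact card_pos.1 (((hPAR id (ES (r ρ) 0 (m ρ))).2.2.1 _ _ a1.1 Ys).2
        fun h => hW.y1 ρ (h.1 (hW.y0 ρ))).pos
    choose f hf using ex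
    have fi : Function.Injective f := fun ρ ρ' h => by
      by_contra c
      exact disjoint_left.1 (hW.dj ρ ρ' c) (cut_subset (hf ρ)) (h ▸ cut_subset (hf ρ'))
    have h1 : insert e (univ.image f) ⊆ cut id Γ Ys := by
      refine insert_subset hc fun x hx => ?_
      obtain ⟨ρ, -, rfl⟩ := mem_image.1 hx
      exact cut_mono ((hSEG Γ (r ρ) (m ρ) (sg ρ)).1 0 (m ρ) (Nat.zero_le _) le_rfl).2.1 (hf ρ)
    have h2 : e ∉ univ.image f := fun hx => by
      obtain ⟨ρ, -, rfl⟩ := mem_image.1 hx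
      exact hn ρ (cut_subset (hf ρ))
    have h3 := (card_le_card h1).trans hW.c3
    rw [card_insert_of_notMem h2, card_image_of_injective _ fi, card_univ, Fintype.card_fin] at h3
    omega
  refine ⟨L, Set.disjoint_left.2 ?_, fun ρ => H2 ρ _ le_rfl, fun ρ => H1 ρ _ le_rfl (qm ρ).le,
    fun ρ => (sM ρ).1, fun ρ w hw => ?_, fun ρ ρ' hne w hw hw' => ?_,
    fun ρ => (sM ρ).2.1.trans subset_union_left, subset_union_right, fun e he w hw => ?_,
    fun ρ => disjoint_left.2 fun e he he' => ?_, fun e he => ?_⟩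
  · rintro u ⟨h0, h1⟩ (h | ⟨ρ, a, b1, b2, rfl⟩)
    · exact h0 h
    · have a4 := qm ρ
      rcases h1 with ⟨ρ', i, i1, e⟩ | ⟨-, h2⟩
      · have a1 := pq ρ'
        have a2 := qm ρ'
        obtain ⟨rfl, c⟩ := B1 ρ ρ' a i (by omega) (by omega) (by omega) e
        omega
      · exact h2 ⟨ρ, a, by omega, by omega, rfl⟩
  · obtain ⟨i, i1, i2, rfl⟩ := (sM ρ).2.2.2 w hw
    rcases i1.lt_or_eq with i1 | rfl
    · rcases i2.lt_or_eq with i2 | rfl
      · exact Or.inl (Or.inr ⟨ρ, i, i1, i2, rfl⟩)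
      · exact Or.inr (Or.inr rfl)
    · exact Or.inr (Or.inl rfl)
  · obtain ⟨i, i1, i2, rfl⟩ := (sM ρ).2.2.2 w hw
    obtain ⟨j, j1, j2, e⟩ := (sM ρ').2.2.2 _ hw'
    have a1 := p0 ρ
    have a2 := qm ρ
    have a3 := qm ρ'
    exact hne (B1 ρ ρ' i j (by omega) (by omega) (by omega) e).1
  · obtain ⟨i, ρ, i1, i2, h⟩ := G3wx.mem_XX he
    rcases (hW.lg i (by omega) ρ).2.2 w ⟨e, h, hw⟩ with h1 | rfl
    · exact Or.inl h1
    · exact Or.inr ⟨ρ, _, hW.mo ρ 0 i i1 (by omega), hW.mo ρ i 6 i2 (by norm_num), rfl⟩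
  · obtain ⟨i, ρ', i1, i2, h⟩ := G3wx.mem_XX he
    exact disjoint_left.1 (B3 i (by omega) ρ').2.2.1 ((sM ρ).2.1 he') h
  · rcases mem_union.1 he with he | he
    swap
    · exact Or.inr (Or.inr (Or.inl he))
    by_cases c : ∃ ρ, e ∈ ES (r ρ) 0 (m ρ)
    · obtain ⟨ρ, h⟩ := c
      obtain ⟨i, -, i2, rfl⟩ := mem_ES.1 h
      by_cases c1 : i < P ρ 0
      · refine Or.inl fun w hw => ?_
        rcases Sym2.mem_iff.1 hw with rfl | rfl
        exacts [H2 ρ _ (by omega), H2 ρ _ (by omega)]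
      · by_cases c2 : i < P ρ 6
        · exact Or.inr (Or.inr (Or.inr ⟨ρ, mem_ES.2 ⟨i, by omega, c2, rfl⟩⟩))
        · refine Or.inr (Or.inl fun w hw => ?_)
          rcases Sym2.mem_iff.1 hw with rfl | rfl
          exacts [H1 ρ _ (by omega) (by omega), H1 ρ _ (by omega) (by omega)]
    · have c' : ∀ ρ, e ∉ ES (r ρ) 0 (m ρ) := fun ρ h => c ⟨ρ, h⟩
      have d1 : ∀ w ∈ e, w ∉ O := fun w hw h =>
        (hFRE hC.g3 hC.sk).2.2.2.2.1 w h ⟨e, he, hw⟩
      have d2 : ∀ w ∈ e, ¬ ∃ ρ i, 0 < i ∧ i < m ρ ∧ w = r ρ i := by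
        rintro w hw ⟨ρ, i, i1, i2, rfl⟩
        have h1 : e ∈ cut id Γ {r ρ i} := mem_cut_single.2 ⟨he, hw, hC.tc.nl e he⟩
        rw [(hSEG Γ (r ρ) (m ρ) (sg ρ)).2.2.1 i i1 i2, mem_insert, mem_singleton] at h1
        rcases h1 with h1 | h1
        · exact c' ρ (mem_ES.2 ⟨i - 1, by omega, by omega, by
            rw [h1, Nat.sub_add_cancel i1]⟩)
        · exact c' ρ (mem_ES.2 ⟨i, by omega, i2, h1⟩)
      have d3 := H3 e he c'
      by_cases c3 : ∃ y ∈ e, y ∉ Ys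
      · refine Or.inr (Or.inl fun w hw => ?_)
        have d4 : w ∉ Ys := fun h => d3 (mem_cut.2 ⟨he, cr_iff.2 ⟨⟨w, hw, h⟩, c3⟩⟩)
        refine ⟨?_, ?_⟩
        · rintro ⟨-, ⟨ρ, i, i1, rfl⟩ | ⟨h1, -⟩⟩
          · rcases Nat.eq_zero_or_pos i with rfl | i0
            · exact d4 (hW.y0 ρ)
            · exact d2 _ hw ⟨ρ, i, i0, by have := pq ρ; have := qm ρ; omega, rfl⟩
          · exact d4 h1
        · rintro (h | ⟨ρ, a, b1, b2, rfl⟩)
          · exact d1 w hw h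
          · exact d2 _ hw ⟨ρ, a, by omega, by have := qm ρ; omega, rfl⟩
      · refine Or.inl fun w hw => ⟨d1 w hw, Or.inr ⟨?_, d2 w hw⟩⟩
        by_contra h
        exact c3 ⟨w, hw, h⟩

end Pool.Agent.P.MP_bb4f54_co.T3

end sG3w

section sA5
/-! Step A5. -/

set_option autoImplicit false
set_option linter.unusedSectionVars false

namespace Pool.Agent.P.MP_bb4f54_co.T3

open Finset

namespace A5x

lemma sum_eq {V : Type} (X : Finset V) (d : V → ℕ) (c : ℕ) (h : ∀ v ∈ X, d v = c) :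
    ∑ v ∈ X, d v = c * X.card := by
  rw [sum_congr rfl h, sum_const, smul_eq_mul, mul_comm]

end A5x

theorem p_A5 (hPAR : S_PAR) (hFOR : S_FOR) (hA1a : S_A1a) (hA1b : S_A1b) :
    S_A5 := by
  intro V _ _ G O T R Φ hAl hT hR
  obtain ⟨acy, -, sub, -, -, -, hout⟩ := hA1a hAl
  have hne1 := (hA1b hAl).1
  have hcs : cut id (EG G) ↑O ⊆ Sg G O Φ := subset_union_right
  have hmem : ∀ e ∈ Sg G O Φ, e ∈ Φ ∨ e ∈ cut id (EG G) ↑O := fun e he => mem_union.1 he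
  generalize Sg G O Φ = S at *
  have nl : NL id S := acy.nl
  have hsd : ∀ v, dgr id (EG G \ S) v + dgr id S v = 3 := fun v => by
    rw [dgr_sdiff sub, hAl.g3.dg]
  have h3 : ∀ v, dgr id S v ≤ 3 := fun v => by have := hsd v; omega
  have cl : ∀ x, x ∈ T ∨ x ∈ R → ∀ y, G.Adj x y → s(x, y) ∉ S → y ∈ T ∨ y ∈ R := by
    intro x hx y hxy hn
    have hxO : x ∈ O := hx.elim (fun h => ((hT x).1 h).1) (fun h => ((hR x).1 h).1)
    have hyO : y ∈ O := by
      by_contra hy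
      exact hn (hcs (mem_cut.2 ⟨mk_mem_EG.2 hxy, x, y, rfl, hxO, hy⟩))
    have h1 : dgr id (EG G \ S) y ≠ 0 :=
      (nl_EG.mono sdiff_subset).dgr_ne
        ⟨s(x, y), mem_sdiff.2 ⟨mk_mem_EG.2 hxy, hn⟩, Sym2.mem_mk_right x y⟩
    have h2 := hsd y
    have h4 := hne1 y hyO
    rw [hT, hR]
    by_cases h0 : dgr id S y = 0
    · exact Or.inr ⟨hyO, h0⟩
    · exact Or.inl ⟨hyO, by omega⟩
  obtain ⟨B, hB⟩ : ∃ B : Finset V, ∀ u, u ∈ B ↔ u ∈ O ∧ dgr id S u = 3 :=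
    ⟨O.filter (fun u => dgr id S u = 3), fun u => mem_filter⟩
  obtain ⟨N, hN⟩ : ∃ N : Finset V, ∀ u, u ∈ N ↔ u ∉ O ∧ dgr id S u = 1 :=
    ⟨univ.filter (fun u => u ∉ O ∧ dgr id S u = 1), fun u => by simp⟩
  have hNq : N.card ≤ (cut id (EG G) ↑O).card := by
    refine card_le_card_of_forall_subsingleton (fun t e => t ∈ e) (fun t ht => ?_)
      (fun e he t ht t' ht' => ?_)
    · obtain ⟨h1, h2⟩ := (hN t).1 ht
      obtain ⟨e, he, hte⟩ : t ∈ spt id S := mem_spt_of_dgr (by omega)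
      rcases hmem e he with h | h
      · exact absurd ((mem_ins.1 (hAl.sub h)).2 t hte) h1
      · exact ⟨e, h, hte⟩
    · obtain ⟨-, x, y, rfl, hx, -⟩ := mem_cut.1 he
      have a1 : t ∉ O := ((hN t).1 ht.1).1
      have a2 : t' ∉ O := ((hN t').1 ht'.1).1
      have b1 : t = y := (Sym2.mem_iff.1 ht.2).resolve_left (fun h => a1 (h ▸ hx))
      have b2 : t' = y := (Sym2.mem_iff.1 ht'.2).resolve_left (fun h => a2 (h ▸ hx))
      rw [b1, b2]
  have dBN : Disjoint B N := disjoint_left.2 fun u h1 h2 => ((hN u).1 h2).1 ((hB u).1 h1).1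
  have dT : Disjoint (B ∪ N) T := disjoint_left.2 fun u h1 h2 => by
    have := ((hT u).1 h2).2
    rcases mem_union.1 h1 with h | h
    · have := ((hB u).1 h).2; omega
    · have := ((hN u).1 h).2; omega
  have hE : ∀ a, dgr id S a ≠ 0 → dgr id S a ≠ 2 → a ∈ B ∪ N := fun a h0 h2 => by
    rw [mem_union, hB, hN]
    by_cases ha : a ∈ O
    · have := hne1 a ha
      have := h3 a
      exact Or.inl ⟨ha, by omega⟩
    · have := hout a ha
      exact Or.inr ⟨ha, by omega⟩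
  have hU : spt id S ⊆ ↑(B ∪ N ∪ T) := fun a ha => by
    have h0 := nl.dgr_ne ha
    refine mem_coe.2 (mem_union.2 ?_)
    by_cases h2 : dgr id S a = 2
    · refine Or.inr ((hT a).2 ⟨?_, h2⟩)
      by_contra hc
      have := hout a hc
      omega
    · exact Or.inl (hE a h0 h2)
  have sBN : ∑ a ∈ B ∪ N, dgr id S a = 3 * B.card + 1 * N.card := by
    rw [sum_union dBN, A5x.sum_eq B _ 3 (fun v h => ((hB v).1 h).2),
      A5x.sum_eq N _ 1 (fun v h => ((hN v).1 h).2)]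
  have hBN : B.card ≤ N.card := by
    have a1 := (hPAR id S).2.2.2.2.2.2 nl (B ∪ N ∪ T)
    have a2 : cut id S ↑(B ∪ N ∪ T) = ∅ := by
      refine eq_empty_of_forall_notMem fun e he => ?_
      obtain ⟨h1, h2⟩ := mem_cut.1 he
      obtain ⟨-, y, hy, hn⟩ := cr_iff.1 h2
      exact hn (hU ⟨e, h1, hy⟩)
    have a3 : (ins id S ↑(B ∪ N ∪ T)).card ≤ S.card := card_le_card ins_subset
    have a4 := hFOR id S (B ∪ N ∪ T) acy hU
    rw [card_union_of_disjoint dT, card_union_of_disjoint dBN] at a4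
    rw [sum_union dT, sBN, A5x.sum_eq T _ 2 (fun v h => ((hT v).1 h).2), a2, card_empty] at a1
    omega
  refine ⟨⟨sub, fun x hx => ((hT x).1 hx).2, fun x hx => ((hR x).1 hx).2, cl⟩, ?_, fun hac => ?_,
    B ∪ N, hE, by rw [sBN]; omega⟩
  · have a1 : O ⊆ B ∪ T ∪ R := fun u hu => by
      have := hne1 u hu
      have := h3 u
      simp only [mem_union, hB, hT, hR, hu, true_and]
      omega
    have a2 := card_le_card a1
    have a3 := card_union_le (B ∪ T) R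
    have a4 := card_union_le B T
    omega
  · have a1 := (hPAR id (EG G)).2.2.2.2.2.2 nl_EG R
    rw [A5x.sum_eq R _ 3 (fun v _ => hAl.g3.dg v)] at a1
    have a2 := hFOR id _ R hac (fun a ⟨e, he, ha⟩ => (mem_ins.1 he).2 a ha)
    have a3 : (cut id (EG G) ↑R).card ≤ T.card := by
      refine card_le_card_of_forall_subsingleton (fun e y => e ∈ cut id (EG G \ S) {y})
        (fun e he => ?_) (fun y hy e he e' he' => ?_)
      · obtain ⟨h1, x, y, rfl, hx, hy⟩ := mem_cut.1 he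
        have hn : s(x, y) ∉ S := fun h =>
          nl.dgr_ne ⟨_, h, Sym2.mem_mk_left x y⟩ ((hR x).1 hx).2
        exact ⟨y, (cl x (Or.inr hx) y (mk_mem_EG.1 h1) hn).resolve_right hy,
          mem_cut_single.2 ⟨mem_sdiff.2 ⟨h1, hn⟩, Sym2.mem_mk_right x y, nl_EG _ h1⟩⟩
      · have b1 := hsd y
        rw [((hT y).1 hy).2] at b1
        have b2 : (cut id (EG G \ S) {y}).card ≤ 1 := by
          unfold dgr at b1
          omega
        exact card_le_one.1 b2 e he.2 e' he'.2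
    omega

end Pool.Agent.P.MP_bb4f54_co.T3

end sA5

section sTD
/-! Step TD. -/

set_option autoImplicit false
set_option linter.unusedSectionVars false

namespace Pool.Agent.P.MP_bb4f54_co.T3

open Finset

namespace TDx

variable {V : Type} [Fintype V] [DecidableEq V]

/-- a maximal thread -/
def Mx (Γ : Finset (Sym2 V)) (w : ℕ → V) (m : ℕ) : Prop :=
  Seg Γ w m ∧ dgr id Γ (w 0) ≠ 2 ∧ dgr id Γ (w m) ≠ 2

/-- its inner vertices -/
def In (w : ℕ → V) (m : ℕ) : Set V := {y | ∃ i, 0 < i ∧ i < m ∧ w i = y}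

lemma step (hSEG : S_SEG) {Γ : Finset (Sym2 V)} {w : ℕ → V} {m : ℕ} (h : Mx Γ w m) {y z : V}
    (hy : y ∈ In w m) (he : s(y, z) ∈ Γ) (hne : z ≠ y) (hz : dgr id Γ z = 2) : z ∈ In w m := by
  obtain ⟨a, a0, a1, rfl⟩ := hy
  have h1 : s(w a, z) ∈ cut id Γ {w a} := mem_cut.2 ⟨he, w a, z, rfl, rfl, hne⟩
  rw [(hSEG Γ w m h.1).2.2.1 a a0 a1, mem_insert, mem_singleton] at h1
  rcases h1 with h1 | h1
  · rcases Sym2.eq_iff.1 h1 with ⟨-, h2⟩ | ⟨-, h2⟩
    · exact (hne h2).elim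
    · refine ⟨a - 1, ?_, by omega, h2.symm⟩
      rcases Nat.eq_zero_or_pos (a - 1) with h3 | h3
      · rw [h2, h3] at hz; exact (h.2.1 hz).elim
      · exact h3
  · rcases Sym2.eq_iff.1 h1 with ⟨-, h2⟩ | ⟨-, h2⟩
    · refine ⟨a + 1, by omega, ?_, h2.symm⟩
      rcases (show a + 1 ≤ m by omega).eq_or_lt with h3 | h3
      · rw [h2, h3] at hz; exact (h.2.2 hz).elim
      · exact h3
    · exact (hne h2).elim

lemma sub (hSEG : S_SEG) {Γ : Finset (Sym2 V)} {w w' : ℕ → V} {m m' : ℕ} (h : Mx Γ w m)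
    (h' : Mx Γ w' m') {y : V} (hy : y ∈ In w m) (hy' : y ∈ In w' m') : In w m ⊆ In w' m' := by
  obtain ⟨i, i0, i1, rfl⟩ := hy
  have up : ∀ d, i + d < m → w (i + d) ∈ In w' m' := by
    intro d
    induction d with
    | zero => exact fun _ => hy'
    | succ d ih =>
      intro hd
      refine step hSEG h' (ih (by omega)) (h.1.ed (i + d) (by omega)) (fun e => ?_)
        (h.1.dg _ (by omega) hd)
      have := h.1.inj _ _ (by omega) (by omega) e
      omega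
  have dn : ∀ d j, j + d = i → 0 < j → w j ∈ In w' m' := by
    intro d
    induction d with
    | zero => intro j hj _; rw [show j = i by omega]; exact hy'
    | succ d ih =>
      intro j hj j0
      refine step hSEG h' (ih (j + 1) (by omega) (by omega))
        (Sym2.eq_swap ▸ h.1.ed j (by omega)) (fun e => ?_) (h.1.dg _ j0 (by omega))
      have := h.1.inj _ _ (by omega) (by omega) e
      omega
  rintro _ ⟨j, j0, j1, rfl⟩
  rcases le_total i j with hij | hij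
  · obtain ⟨d, rfl⟩ := Nat.exists_eq_add_of_le hij
    exact up d j1
  · exact dn (i - j) j (by omega) j0

end TDx

open TDx in
theorem p_TD (hSEG : S_SEG) (hTD0 : S_TD0) :
    S_TD := by
  intro V _ _ Γ hn hc
  classical
  rcases isEmpty_or_nonempty V with hV | hV
  · exact ⟨fun x _ => x, fun _ => 0, fun _ => 0, fun x => hV.elim x, fun x => hV.elim x,
      fun x => hV.elim x, fun x => hV.elim x, fun x => hV.elim x, fun x => hV.elim x,
      fun x => hV.elim x⟩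
  let S : V → Set V := fun x => {y | ∃ w m, Mx Γ w m ∧ x ∈ In w m ∧ y ∈ In w m}
  have hS : ∀ w m x, Mx Γ w m → x ∈ In w m → S x = In w m := fun w m x h hx =>
    Set.Subset.antisymm (fun _ ⟨_, _, h1, h2, h3⟩ => sub hSEG h1 h h2 hx h3)
      fun _ hy => ⟨w, m, h, hx, hy⟩
  have h1 : ∀ A : Set V, ∃ p : (ℕ → V) × ℕ, (∃ w m, Mx Γ w m ∧ In w m = A) →
      Mx Γ p.1 p.2 ∧ In p.1 p.2 = A := by
    intro A
    by_cases h : ∃ w m, Mx Γ w m ∧ In w m = A
    · obtain ⟨w, m, h⟩ := h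
      exact ⟨(w, m), fun _ => h⟩
    · exact ⟨Classical.arbitrary _, fun h' => (h h').elim⟩
  choose P hP using h1
  have h2 : ∀ x, dgr id Γ x = 2 → Mx Γ (P (S x)).1 (P (S x)).2 ∧
      x ∈ In (P (S x)).1 (P (S x)).2 := by
    intro x hx
    obtain ⟨w, m, p, s1, p0, p1, s2, s3, s4⟩ := hTD0 Γ x hn hc hx
    have hw : Mx Γ w m := ⟨s1, s3, s4⟩
    have hx' : x ∈ In w m := ⟨p, p0, p1, s2⟩
    obtain ⟨k1, k2⟩ := hP (S x) ⟨w, m, hw, (hS w m x hw hx').symm⟩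
    exact ⟨k1, by rw [k2, hS w m x hw hx']; exact hx'⟩
  have h3 : ∀ x, ∃ i, dgr id Γ x = 2 → 0 < i ∧ i < (P (S x)).2 ∧ (P (S x)).1 i = x := by
    intro x
    by_cases hx : dgr id Γ x = 2
    · obtain ⟨i, hi⟩ := (h2 x hx).2
      exact ⟨i, fun _ => hi⟩
    · exact ⟨0, fun h => (hx h).elim⟩
  choose pos hpos using h3
  refine ⟨fun x => (P (S x)).1, fun x => (P (S x)).2, pos, fun x hx => (h2 x hx).1.1,
    fun x hx => (hpos x hx).1, fun x hx => (hpos x hx).2.1, fun x hx => (hpos x hx).2.2,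
    fun x hx => (h2 x hx).1.2.1, fun x hx => (h2 x hx).1.2.2, fun x hx i i0 i1 => ?_⟩
  obtain ⟨k1, k2⟩ := h2 x hx
  have e : S ((P (S x)).1 i) = S x :=
    (hS _ _ _ k1 ⟨i, i0, i1, rfl⟩).trans (hS _ _ _ k1 k2).symm
  obtain ⟨-, q1, q2⟩ := hpos _ (k1.1.dg i i0 i1)
  rw [e] at q1 q2
  exact ⟨by rw [e], by rw [e], k1.1.inj _ _ q1.le i1.le q2⟩

end Pool.Agent.P.MP_bb4f54_co.T3

end sTD

section sCXB
/-! Step CXB. -/

set_option autoImplicit false
set_option linter.unusedSectionVars false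

namespace Pool.Agent.P.MP_bb4f54_co.T3

open Finset

theorem p_CXB (hSEG : S_SEG) (hDIF : S_DIF) (hFRE : S_FRE) :
    S_CXB := by
  intro V _ _ G S T O Γ v n pos h
  obtain ⟨hF1, -, -, -, hF5, hF6⟩ := hFRE h.g3 h.sk
  have hS : ∀ y, y ∈ T ∨ y ∈ O → y ∈ S := fun y hy => hy.elim (fun a => h.tS a) (fun a => h.oS a)
  have hFi : ∀ a b, s(a, b) ∈ EG G → a ∈ S → b ∈ S → s(a, b) ∈ Fi G S := by
    intro a b he ha hb
    refine mem_ins.2 ⟨he, fun u hu => ?_⟩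
    rcases Sym2.mem_iff.1 hu with rfl | rfl
    · exact ha
    · exact hb
  refine ⟨fun x hx => ⟨((hDIF Γ h.tc).2 v n pos h.td x (h.sk.dT x hx)).1, h.int x hx⟩,
    fun u hu => ?_, fun w m a b hw ha hab hb => ?_, fun A x hx y hy hA => ⟨?_, ?_⟩,
    fun w m hw => ⟨⟨(hSEG Γ w m hw.th.sg).2.2.2.2.1, hw.th.pos, ?_, ?_⟩, fun i h1 h2 => ?_⟩,
    fun w m w' m' hw hw' hd i j h1 h2 h3 he => ?_⟩
  · refine dgr_eq_zero ?_
    rintro ⟨e, he, hue⟩
    obtain ⟨b, rfl⟩ := Sym2.mem_iff_exists.1 hue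
    obtain ⟨he1, he2⟩ := mem_sdiff.1 he
    exact he2 (hFi u b he1 (h.oS hu) (hS b (hF6 u hu b (mk_mem_EG.1 he1))))
  · have hE : ES w a b ⊆ Fi G S := by
      intro e he
      obtain ⟨i, h1, h2, rfl⟩ := mem_ES.1 he
      exact hFi _ _ (h.sk.sub (hw.th.sg.ed i (by omega))) (h.tS (hw.int i (by omega) (by omega)))
        (h.tS (hw.int (i + 1) (by omega) (by omega)))
    refine ⟨hE, fun i h1 h2 => ?_⟩
    have hT : w i ∈ T := hw.int i (by omega) (by omega)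
    obtain ⟨k, hk1, hk2⟩ := hF1 _ hT
    obtain ⟨e, he1, he2⟩ : ∃ e ∈ ES w a b, w i ∈ e := by
      by_cases hi : i < b
      · exact ⟨_, mem_ES.2 ⟨i, h1, hi, rfl⟩, Sym2.mem_mk_left _ _⟩
      · refine ⟨_, mem_ES.2 ⟨i - 1, by omega, by omega, rfl⟩, ?_⟩
        rw [show i - 1 + 1 = i by omega]
        exact Sym2.mem_mk_right _ _
    have heΓ : e ∈ Γ := ((hSEG Γ w m hw.th.sg).1 a b hab.le hb.le).2.1 he1
    have hne : e ≠ s(w i, k) := fun h' => hk2 (h' ▸ heΓ)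
    have hsub : ({e, s(w i, k)} : Finset (Sym2 V)) ⊆ cut id (EG G) {w i} := by
      intro f hf
      rcases mem_insert.1 hf with rfl | hf
      · exact mem_cut_single.2 ⟨h.sk.sub heΓ, he2, nl_EG _ (h.sk.sub heΓ)⟩
      · rw [mem_singleton.1 hf]
        exact mem_cut_single.2 ⟨mk_mem_EG.2 hk1, Sym2.mem_mk_left _ _, nl_EG _ (mk_mem_EG.2 hk1)⟩
    have hle : cut id (EG G \ Fi G S) {w i} ⊆ cut id (EG G) {w i} \ {e, s(w i, k)} := by
      rw [cut_sdiff]
      refine sdiff_subset_sdiff subset_rfl fun f hf => ?_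
      rcases mem_insert.1 hf with rfl | hf
      · exact hE he1
      · rw [mem_singleton.1 hf]
        exact hFi _ _ (mk_mem_EG.2 hk1) (h.tS hT) (hS k (h.sk.cl _ (Or.inl hT) k hk1 hk2))
    have h3 : (cut id (EG G) {w i}).card = 3 := h.g3.dg (w i)
    have h4 := card_le_card hle
    rw [card_sdiff_of_subset hsub, card_pair hne, h3] at h4
    exact h4
  · intro e he
    refine mem_ins.2 ⟨hA.sub he, fun u hu => ?_⟩
    rcases hA.sp u ⟨e, he, hu⟩ with h' | rfl | rfl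
    · exact h.oS h'
    · exact h.tS hx
    · exact h.tS hy
  · exact ⟨hA.pth, hA.ne, hA.dj, fun u h1 h2 => (hA.sp u h1).resolve_left fun h' => hF5 u h' h2⟩
  · exact hw.th.d1
  · simpa using hw.th.d0
  · exact hw.int _ (by omega) (by omega)
  · have hd2 : dgr id Γ (w' j) = 2 := he ▸ hw.th.sg.dg i h1 h2
    have hj0 : j ≠ 0 := by
      rintro rfl
      rw [hw'.th.d0] at hd2
      omega
    have hjm : j ≠ m' := by
      rintro rfl
      rw [hw'.th.d1] at hd2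
      omega
    have h4 : s(w' j, w' (j + 1)) ∈ cut id Γ {w' j} := by
      rw [(hSEG Γ w' m' hw'.th.sg).2.2.1 j (by omega) (by omega)]
      simp
    rw [← he, (hSEG Γ w m hw.th.sg).2.2.1 i h1 h2, he] at h4
    refine disjoint_left.1 hd ?_ (mem_ES.2 ⟨j, by omega, by omega, rfl⟩)
    rcases mem_insert.1 h4 with h5 | h5
    · refine mem_ES.2 ⟨i - 1, by omega, by omega, ?_⟩
      rw [show i - 1 + 1 = i by omega, he]
      exact h5
    · refine mem_ES.2 ⟨i, by omega, h2, ?_⟩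
      rw [he]
      exact mem_singleton.1 h5

end Pool.Agent.P.MP_bb4f54_co.T3

end sCXB

section sLHC
/-! Step LHC. -/

set_option autoImplicit false
set_option linter.unusedSectionVars false

namespace Pool.Agent.P.MP_bb4f54_co.T3

open Finset

namespace LHCx

lemma fin3 : ∀ a b c d h : Fin 3, a ≠ b → a ≠ h → b ≠ h → c ≠ d → c ≠ h → d ≠ h →
    (c = a ∧ d = b) ∨ (c = b ∧ d = a) := by decide

lemma disj {V : Type} [DecidableEq V] {A B : Finset (Sym2 V)}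
    (h : ∀ w ∈ spt id A, w ∉ spt id B) : Disjoint A B := by
  rw [disjoint_left]
  intro e he he'
  induction e using Sym2.ind with
  | _ x y => exact h x ⟨_, he, by simp⟩ ⟨_, he', by simp⟩

end LHCx

theorem p_LHC (hCAT : S_CAT) :
    S_LHC := by
  intro V _ _ l c r D D' D'' h h' h'' Q Q' H H' hDD hc hout hne hD hD' hcD
  have meet : ∀ (w : V) (ρ π σ τ : Fin 3), (w ∈ D ∨ w = l ρ ∨ w = c π) →
      (w ∈ D' ∨ w = c σ ∨ w = r τ) → w = c π ∧ π = σ := by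
    rintro w ρ π σ τ (h1 | rfl | rfl) (h2 | h2 | h2)
    · exact absurd h2 (Set.disjoint_left.1 hDD h1)
    · exact absurd (h2 ▸ h1) (hout σ).1
    · exact absurd (h2 ▸ h1) (hout τ).2.2.2
    · exact absurd h2 (hout ρ).2.2.1
    · exact absurd h2 (hne ρ σ).1
    · exact absurd h2 (hne ρ τ).2.1
    · exact absurd h2 (hout π).2.1
    · exact ⟨rfl, hc h2⟩
    · exact absurd h2 (hne π τ).2.2
  have up : ∀ (A B : Finset (Sym2 V)) (ρ π τ : Fin 3),
      (∀ w ∈ spt id A, w ∈ D ∨ w = l ρ ∨ w = c π) → (∀ w ∈ spt id B, w ∈ D' ∨ w = c π ∨ w = r τ) →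
      ∀ w ∈ spt id (A ∪ B), w ∈ D'' ∨ w = l ρ ∨ w = r τ := by
    intro A B ρ π τ h1 h2 w hw
    rw [spt_union] at hw
    rcases hw with hw | hw
    · rcases h1 w hw with q | q | q
      · exact Or.inl (hD q)
      · exact Or.inr (Or.inl q)
      · exact Or.inl (q ▸ hcD π)
    · rcases h2 w hw with q | q | q
      · exact Or.inl (hD' q)
      · exact Or.inl (q ▸ hcD π)
      · exact Or.inr (Or.inr q)
  obtain ⟨ρ₁, ρ₂, π₁, π₂, P₁, P₂, a1, a2, a3, a4, a5, a6, a7, a8, rfl, a10, a11, a12⟩ := H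
  have core : ∀ (τ₁ τ₂ : Fin 3) (R₁ R₂ : Finset (Sym2 V)), τ₁ ≠ τ₂ → τ₁ ≠ h'' → τ₂ ≠ h'' →
      Pth id R₁ (c π₁) (r τ₁) → Pth id R₂ (c π₂) (r τ₂) →
      (∀ w ∈ spt id R₁, w ∈ D' ∨ w = c π₁ ∨ w = r τ₁) →
      (∀ w ∈ spt id R₂, w ∈ D' ∨ w = c π₂ ∨ w = r τ₂) → (∀ w ∈ spt id R₁, w ∉ spt id R₂) →
      LH l r D'' h h'' (P₁ ∪ P₂ ∪ (R₁ ∪ R₂)) ∧ Disjoint (P₁ ∪ P₂) (R₁ ∪ R₂) := by
    intro τ₁ τ₂ R₁ R₂ b4 b5 b6 b7 b8 b10 b11 b12
    obtain ⟨d1, p1⟩ := (hCAT id).1 P₁ R₁ _ _ _ a7 b7 fun w h1 h2 =>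
      (meet w _ _ _ _ (a10 w h1) (b10 w h2)).1
    obtain ⟨d2, p2⟩ := (hCAT id).1 P₂ R₂ _ _ _ a8 b8 fun w h1 h2 =>
      (meet w _ _ _ _ (a11 w h1) (b11 w h2)).1
    have x12 : ∀ w ∈ spt id P₁, w ∉ spt id R₂ := fun w h1 h2 =>
      a4 (meet w _ _ _ _ (a10 w h1) (b11 w h2)).2
    have x21 : ∀ w ∈ spt id P₂, w ∉ spt id R₁ := fun w h1 h2 =>
      a4 (meet w _ _ _ _ (a11 w h1) (b10 w h2)).2.symm
    refine ⟨⟨ρ₁, ρ₂, τ₁, τ₂, P₁ ∪ R₁, P₂ ∪ R₂, a1, a2, a3, b4, b5, b6, p1, p2, ?_,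
      up _ _ _ _ _ a10 b10, up _ _ _ _ _ a11 b11, ?_⟩, ?_⟩
    · ext e
      simp only [mem_union]
      tauto
    · intro w h1 h2
      rw [spt_union] at h1 h2
      rcases h1 with h1 | h1 <;> rcases h2 with h2 | h2
      · exact a12 w h1 h2
      · exact x12 w h1 h2
      · exact x21 w h2 h1
      · exact b12 w h1 h2
    · rw [disjoint_union_left, disjoint_union_right, disjoint_union_right]
      exact ⟨⟨d1, LHCx.disj x12⟩, LHCx.disj x21, d2⟩
  obtain ⟨σ₁, σ₂, τ₁, τ₂, R₁, R₂, b1, b2, b3, b4, b5, b6, b7, b8, rfl, b10, b11, b12⟩ := H'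
  rcases LHCx.fin3 π₁ π₂ σ₁ σ₂ h' a4 a5 a6 b1 b2 b3 with ⟨rfl, rfl⟩ | ⟨rfl, rfl⟩
  · exact core τ₁ τ₂ R₁ R₂ b4 b5 b6 b7 b8 b10 b11 b12
  · rw [union_comm R₁ R₂]
    exact core τ₂ τ₁ R₂ R₁ b4.symm b6 b5 b8 b7 b11 b10 fun w h1 h2 => b12 w h2 h1

end Pool.Agent.P.MP_bb4f54_co.T3

end sLHC

section sF1a2
/-! Step F1a2. -/

set_option autoImplicit false
set_option linter.unusedSectionVars false

namespace Pool.Agent.P.MP_bb4f54_co.T3

open Finset

namespace F1a2x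

theorem join {V : Type} {G : SimpleGraph V} {X : Set V} {r : ℕ} {k k' m y : V}
    (a : G.Walk k m) (b : G.Walk k' m) (h : G.Adj y k') (la : a.length ≤ r) (lb : b.length ≤ r)
    (ha : ∀ u ∈ a.support, u ∈ X) (hb : ∀ u ∈ b.support, u ∈ X) : OW G X (2 * r + 1) k y := by
  refine ⟨a.append (SimpleGraph.Walk.cons h b).reverse, ?_, fun u hu => ?_⟩
  · rw [SimpleGraph.Walk.length_append, SimpleGraph.Walk.length_reverse,
      SimpleGraph.Walk.length_cons]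
    omega
  · rcases (SimpleGraph.Walk.mem_support_append_iff _ _).1 hu with hu | hu
    · exact Or.inl (ha u hu)
    · rw [SimpleGraph.Walk.support_reverse, List.mem_reverse, SimpleGraph.Walk.support_cons,
        List.mem_cons] at hu
      rcases hu with hu | hu
      · exact Or.inr hu
      · exact Or.inl (hb u hu)

end F1a2x

open F1a2x in
theorem p_F1a2 :
    S_F1a2 := by
  intro V _ _ G T O r x k z w hTO hx H
  have hp : ∀ i, ∃ p : G.Walk (k i) w, p.length ≤ r ∧ ∀ u ∈ p.support, u ∈ O ∧ u ≠ z i := by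
    intro i
    have h0 := (H i).2.2.2.2
    simp only [Bl, mem_filter] at h0
    obtain ⟨h1, h2, p, h3, h4⟩ := h0
    refine ⟨p, h3, fun u hu => ?_⟩
    rcases h4 u hu with h | h
    · exact ⟨h.1, h.2⟩
    · rw [h]; exact ⟨h1, h2⟩
  choose p hl hs using hp
  have key : ∀ i j, i ≠ j → x j ≠ z i → ∀ (m : V) (a : G.Walk (k i) m) (b : G.Walk (k j) m),
      a.length ≤ r → b.length ≤ r → a.support ⊆ (p i).support → b.support ⊆ (p j).support →
      z i ∈ b.support := by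
    intro i j hij hz m a b la lb sa sb
    by_contra hc
    exact (H i).2.2.2.1 (x j) (H j).1 (fun e => hij (hx e).symm) hz
      (join a b (H j).2.2.1 la lb (fun u hu => hs i u (sa hu))
        fun u hu => ⟨(hs j u (sb hu)).1, fun e => hc ((Set.mem_singleton_iff.1 e) ▸ hu)⟩)
  have k1 : ∀ i j, i ≠ j → x j ≠ z i → z i ∈ (p j).support := fun i j hij hz =>
    key i j hij hz w (p i) (p j) (hl i) (hl j) (List.Subset.refl _) (List.Subset.refl _)
  have hO : ∀ i, z i ∈ O := by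
    intro i
    obtain ⟨j, j', h1, h2, h3⟩ : ∃ j j' : Fin 3, i ≠ j ∧ i ≠ j' ∧ j ≠ j' := by
      revert i; decide
    by_cases e : x j = z i
    · exact (hs j' _ (k1 i j' h2 fun e' => h3 (hx (e.trans e'.symm)))).1
    · exact (hs j _ (k1 i j h1 e)).1
  have hxz : ∀ i j, x j ≠ z i := fun i j e => hTO _ (H j).1 (e ▸ hO i)
  have k2 : ∀ i j, i ≠ j → z i ∈ (p j).support := fun i j hij => k1 i j hij (hxz i j)
  have k3 : ∀ (i i' : Fin 3) (h : i' ≠ i) (h1 : i ≠ 2) (h2 : i' ≠ 2),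
      z i ∈ ((p 2).takeUntil (z i') (k2 i' 2 h2)).support := fun i i' h h1 h2 =>
    key i 2 h1 (hxz i 2) (z i') ((p i).takeUntil _ (k2 i' i h)) _
      (((p i).length_takeUntil_le_length _).trans (hl i))
      (((p 2).length_takeUntil_le_length _).trans (hl 2))
      ((p i).support_takeUntil_subset_support _) ((p 2).support_takeUntil_subset_support _)
  exact SimpleGraph.Walk.notMem_support_takeUntil_support_takeUntil_subset
    (hs 1 _ (k2 0 1 (by decide))).2 (k2 1 2 (by decide))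
    (k3 0 1 (by decide) (by decide) (by decide)) (k3 1 0 (by decide) (by decide) (by decide))

end Pool.Agent.P.MP_bb4f54_co.T3

end sF1a2

section sLSL
/-! Step LSL. -/

set_option autoImplicit false
set_option linter.unusedSectionVars false

namespace Pool.Agent.P.MP_bb4f54_co.T3

open Finset

namespace LSLx

lemma arith {C R p s b t o c e P : ℕ} (hp : 1 ≤ p) (hb : b ≤ p) (he : e ≤ b + p) (hc : c ≤ t)
    (hs : s ≤ b + t + o) (ho : o ≤ C * c)
    (h1 : (12 * C + 11 + 1) * t ≤ 3 * (12 * C + 11 + 1) * P + 6 * o)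
    (h2 : P ≤ (2 * R + 3) * (17 * (3 * (4 * e + 2)) + 3 * e))
    (h3 : (2 + (1 + C) * (6 * ((2 * R + 3) * 516))) * p ≤ s) : False := by
  have k1 : o ≤ C * t := ho.trans (Nat.mul_le_mul_left _ hc)
  have k2 : (C + 1) * t ≤ (C + 1) * (6 * P) := by nlinarith
  have k3 : t ≤ 6 * P := Nat.le_of_mul_le_mul_left k2 (Nat.succ_pos C)
  have k4 : P ≤ (2 * R + 3) * (516 * p) := h2.trans (Nat.mul_le_mul_left _ (by omega))
  have k5 : (1 + C) * t ≤ (1 + C) * (6 * ((2 * R + 3) * (516 * p))) :=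
    Nat.mul_le_mul_left _ (k3.trans (Nat.mul_le_mul_left _ k4))
  have k6 : (2 + (1 + C) * (6 * ((2 * R + 3) * 516))) * p =
      2 * p + (1 + C) * (6 * ((2 * R + 3) * (516 * p))) := by ring
  have k7 : (1 + C) * t = t + C * t := by ring
  omega

end LSLx

theorem p_LSL (hTCB : S_TCB) (hTD : S_TD) (hFRE : S_FRE) (hF1 : S_F1) (hALP : S_ALP) (hGE : S_GE) (hF2b : S_F2b) (hMN0 : S_MN0) (hMIN1 : S_MIN1) (hMIN2 : S_MIN2) (hMIN3 : S_MIN3) (hMIN4 : S_MIN4) :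
    S_LSL := by
  obtain ⟨C, hC⟩ := hALP
  obtain ⟨R, hR⟩ := hF1 (12 * C + 11)
  refine ⟨2 + (1 + C) * (6 * ((2 * R + 3) * 516)), by omega, ?_⟩
  intro V _ _ G S Γ g3 hT hs h1 h2 hne hK
  obtain ⟨Γ₀, hM, e⟩ := hMN0 G S Γ g3 hT hs h1 h2 hne
  suffices H : Res (EG G) (Fi G S) Γ₀ by
    obtain ⟨Γ', c, k1, k2⟩ := H
    exact ⟨Γ', c, k1.trans e, k2⟩
  obtain ⟨v, n, pos, td⟩ := hTD Γ₀ hM.tc.nl fun Z hZ hc => by
    obtain ⟨a, ha, b, hb, k1, k2, k3⟩ := (hTCB id Γ₀ hM.tc).2.2.2.1 Z hZ hc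
    exact ⟨a, ha, b, hb, k1, by omega, by omega⟩
  have hB : ∀ u, u ∈ S.filter (fun u => dgr id Γ₀ u = 3) ↔ u ∈ S ∧ dgr id Γ₀ u = 3 :=
    fun u => mem_filter
  obtain ⟨c0, ⟨E, e1, e2, e3⟩, m3, m4, m5, m6⟩ := hMIN2 hM td hB
    (T := S.filter fun u => dgr id Γ₀ u = 2) (O := S.filter fun u => dgr id Γ₀ u = 0)
    (fun u => mem_filter) (fun u => mem_filter)
  rcases hC G _ g3 m3 m5 with ⟨s, t, hs', ht', ⟨a, ha, as⟩, ⟨b, hb, bt⟩, hd⟩ | ho
  · have f6 := (hFRE g3 c0.sk).2.2.2.2.2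
    exact hGE s t c0 ((f6 a ha s as).resolve_right hs') ((f6 b hb t bt).resolve_right ht') hd
  obtain ⟨P, hP, p1, p2⟩ := hR g3 c0.sk td
  rcases hF2b R P E ⟨c0, hMIN3 hM c0, hMIN4 hM c0⟩ e1 e2 hP p1 with h | h
  · exact h
  exact (LSLx.arith (card_pos.2 hne) (hMIN1 hM hB) e3 m4 m6 ho p2 h hK).elim

end Pool.Agent.P.MP_bb4f54_co.T3

end sLSL

section sW3B
/-! Step W3B. -/

set_option autoImplicit false
set_option linter.unusedSectionVars false

namespace Pool.Agent.P.MP_bb4f54_co.T3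

open Finset

theorem p_W3B (hODA : S_ODA) (hFRE : S_FRE) (hCXB : S_CXB) :
    S_W3B := by
  intro V _ _ G S T O Γ v n pos r m P k Λ Ys c w
  obtain ⟨-, -, x3, -, -, x6⟩ := hCXB c
  obtain ⟨-, -, f3, f4, f5, -⟩ := hFRE c.g3 c.sk
  have hT : ∀ ρ i, i < 7 → r ρ (P ρ i) ∈ T := fun ρ i hi =>
    (w.rl ρ).int _ (w.pp ρ i hi).1 (w.pp ρ i hi).2
  refine ⟨fun ρ ρ' i j h1 h2 h3 e => ?_, fun ρ i hi hO => ?_, fun i hi ρ => ?_, fun ρ => ?_⟩
  · by_cases h : ρ = ρ'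
    · subst h
      exact ⟨rfl, (w.rl ρ).th.sg.inj i j h2.le h3 e⟩
    · exact absurd e (x6 _ _ _ _ (w.rl ρ) (w.rl ρ') (w.dj ρ ρ' h) i j h1 h2 h3)
  · have m0 : 0 < m ρ := (w.pp ρ 0 (by omega)).1.trans (w.pp ρ 0 (by omega)).2
    refine f5 _ hO ?_
    rcases hi.eq_or_lt with h | h
    · obtain ⟨j, hj⟩ : ∃ j, i = j + 1 := ⟨i - 1, by omega⟩
      exact ⟨_, (w.rl ρ).th.sg.ed j (by omega), by simp [hj]⟩
    · exact ⟨_, (w.rl ρ).th.sg.ed i h, by simp⟩
  · obtain ⟨l1, l2, l3⟩ := w.lg i hi ρ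
    have ne : k i ≠ r ρ (P ρ i) := fun e => f3 _ (hT ρ i hi) (e ▸ w.kO i hi)
    obtain ⟨s1, s2⟩ := (hODA (id : Sym2 V → Sym2 V)).2.2.2.2.2.2.2 _ _ _ l1.1 ne
    refine ⟨s1, s2, disjoint_left.2 fun e h1 h2 => ?_, fun e he => mem_ins.2 ⟨l2 he, ?_⟩⟩
    · induction e using Sym2.ind with
      | _ a b =>
        have ab : a ≠ b := (mk_mem_EG.1 (l2 h2)).ne
        rcases l3 a ⟨_, h2, by simp⟩ with h | h
        · exact (f4 a h b).1 h1
        · rcases l3 b ⟨_, h2, by simp⟩ with h' | h'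
          · exact (f4 b h' a).2 h1
          · exact ab (h.trans h'.symm)
    · intro u hu
      rcases l3 u ⟨e, he, hu⟩ with h | h
      · exact c.oS h
      · exact c.tS (h ▸ hT ρ i hi)
  · have lt := w.mo ρ 0 6 (by omega) (by omega)
    exact ⟨(x3 _ _ _ _ (w.rl ρ) (w.pp ρ 0 (by omega)).1 lt (w.pp ρ 6 (by omega)).2).1,
      _, mem_ES.2 ⟨_, le_rfl, lt, rfl⟩⟩

end Pool.Agent.P.MP_bb4f54_co.T3

end sW3B

section sGS
/-! Step GS. -/

set_option autoImplicit false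
set_option linter.unusedSectionVars false

namespace Pool.Agent.P.MP_bb4f54_co.T3

open Finset

theorem p_GS (hARC : S_ARC) (hSEG : S_SEG) (hFRE : S_FRE) (hKA : S_KA) (hCXB : S_CXB) :
    S_GS := by
  intro V _ _ G S T O Γ v n pos w m a b U h0 hR ha hab hb hD hU
  obtain ⟨-, c2, c3, -⟩ := hCXB h0
  obtain ⟨c3a, c3b⟩ := c3 w m a b hR ha hab hb
  obtain ⟨s1, s2, -⟩ := hSEG Γ w m hR.th.1
  obtain ⟨p1, p2, -, -⟩ := s1 a b hab.le hb.le
  obtain ⟨q1, q2⟩ := s2 a b hab hb.le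
  obtain ⟨r1, r2, -⟩ := hARC id Γ (ES w a b) (w a) (w b) h0.tc.nl q1
  have hc : s(w a, w (a + 1)) ∈ ES w a b := mem_ES.2 ⟨a, le_rfl, hab, rfl⟩
  have hS : ∀ i, a ≤ i → i ≤ b → w i ∈ S := fun i h1 h2 =>
    h0.tS (hR.int i (by omega) (by omega))
  refine ⟨Γ, s(w a, w (a + 1)), rfl, h0.tc, p2 hc, Or.inl (hKA G S Γ _ fun Z hZ hy hcZ => ?_)⟩
  have hM : ES w a b ⊆ Z := (r2 Z hZ fun u _ _ _ => hy.2.1 u).resolve_right
    fun h => disjoint_left.1 h hc hcZ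
  refine ⟨w a, w b, U, ES w a b, hS a le_rfl hab.le, hS b hab.le le_rfl, fun u hu => ?_, hD,
    subset_inter hM c3a, p1.1, fun u hu h1 h2 => ?_⟩
  · rcases hU u hu with h | ⟨i, h1, h2, rfl⟩
    · exact h0.oS h
    · exact hS i h1 h2
  · rcases hU u hu with h | ⟨i, i1, i2, rfl⟩
    · refine ⟨by rw [c2 u h]; exact Nat.zero_le _, fun hs => ?_⟩
      exact (hFRE h0.g3 h0.sk).2.2.2.2.1 u h
        (spt_mono (sdiff_subset.trans (inter_subset_left.trans hZ)) hs)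
    · refine ⟨c3b i i1 i2, fun ⟨e, he, hv⟩ => ?_⟩
      exact (mem_sdiff.1 he).2
        (r1 e (hZ (mem_inter.1 (mem_sdiff.1 he).1).1) _ hv (q2 i i1 i2) h1 h2)

end Pool.Agent.P.MP_bb4f54_co.T3

end sGS
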