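import Pool.Agent.P.MP_bb4f54_co.T3.B1
import Pool.Agent.P.MP_bb4f54_co.T3.B2
import Pool.Agent.P.MP_bb4f54_co.T3.B3
import Pool.Agent.P.MP_bb4f54_co.T3.B4
import Pool.Agent.P.MP_bb4f54_co.T3.B5
import Pool.Agent.P.MP_bb4f54_co.T3.B6
import Pool.Agent.P.MP_bb4f54_co.T3.B7
import Pool.Agent.P.MP_bb4f54_co.T3.B8
import Pool.Agent.P.MP_bb4f54_co.T3.B9
import Pool.Agent.P.MP_bb4f54_co.T3.B10
import Pool.Agent.P.MP_bb4f54_co.T3.B11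
import Pool.Agent.P.MP_bb4f54_co.T3.B12
import Pool.Agent.P.MP_bb4f54_co.T3.B13
import Pool.Agent.P.MP_bb4f54_co.T3.B14
import Pool.Agent.P.MP_bb4f54_co.T3.B15
import Pool.Agent.P.MP_bb4f54_co.T3.B16

/-! All steps put together. -/

set_option autoImplicit false

namespace Pool.Agent.P.MP_bb4f54_co.T3

theorem q_BRG : S_BRG := p_BRG

theorem q_OT : S_OT := p_OT

theorem q_POT : S_POT := p_POT q_OT

theorem q_DICH : S_DICH := p_DICH q_OT q_POT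

theorem q_CONN : S_CONN := p_CONN

theorem q_SML : S_SML := p_SML q_OT

theorem q_GROW : S_GROW := p_GROW

theorem q_EDGE : S_EDGE := p_EDGE q_OT

theorem q_ABS : S_ABS := p_ABS

theorem q_NOCL : S_NOCL := p_NOCL q_ABS

theorem q_SM : S_SM := p_SM

theorem q_LNK : S_LNK := p_LNK q_SM

theorem q_FAR : S_FAR := p_FAR q_OT

theorem q_HZ : S_HZ := p_HZ

theorem q_HOC : S_HOC := p_HOC q_EDGE q_NOCL q_LNK q_FAR q_HZ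

theorem q_NUM : S_NUM := p_NUM

theorem q_WIN : S_WIN := p_WIN

theorem q_SEC1 : S_SEC1 := p_SEC1 q_BRG q_DICH q_CONN q_SML q_GROW q_HOC q_NUM q_WIN

theorem q_G3V : S_G3V := p_G3V

theorem q_PAR : S_PAR := p_PAR

theorem q_ODA : S_ODA := p_ODA

theorem q_RCP : S_RCP := p_RCP q_PAR q_ODA

theorem q_SPP : S_SPP := p_SPP q_PAR q_ODA q_RCP

theorem q_CAT : S_CAT := p_CAT q_PAR q_ODA

theorem q_PD1 : S_PD1 := p_PD1 q_PAR q_ODA q_RCP q_SPP q_CAT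

theorem q_TCB : S_TCB := p_TCB q_PAR q_PD1

theorem q_SEG : S_SEG := p_SEG q_ODA q_CAT

theorem q_TD0 : S_TD0 := p_TD0 q_ODA q_CAT q_SEG

theorem q_TD : S_TD := p_TD q_SEG q_TD0

theorem q_FRE : S_FRE := p_FRE

theorem q_TDF : S_TDF := p_TDF q_SEG

theorem q_F1a1 : S_F1a1 := p_F1a1 q_FRE

theorem q_F1a2 : S_F1a2 := p_F1a2

theorem q_F1a : S_F1a := p_F1a q_FRE q_F1a1 q_F1a2

theorem q_WLK : S_WLK := p_WLK q_ODA q_RCP q_CAT q_PD1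

theorem q_F1b : S_F1b := p_F1b q_SM q_WLK q_ODA q_CAT q_FRE

theorem q_F1c : S_F1c := p_F1c q_ODA q_SPP q_CAT q_WLK

theorem q_F1d : S_F1d := p_F1d q_WLK

theorem q_F1e : S_F1e := p_F1e q_FRE q_F1d

theorem q_F1 : S_F1 := p_F1 q_TDF q_FRE q_F1a q_F1b q_F1c q_F1e

theorem q_TDC : S_TDC := p_TDC q_PAR q_SEG q_TDF

theorem q_RG0 : S_RG0 := p_RG0 q_ODA q_CAT q_FRE

theorem q_CY1 : S_CY1 := p_CY1 q_PAR q_ODA q_RCP q_CAT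

theorem q_A1a : S_A1a := p_A1a q_ODA q_RCP q_CY1

theorem q_VIA : S_VIA := p_VIA q_RCP q_SEG q_WLK

theorem q_A1b : S_A1b := p_A1b q_A1a

theorem q_DIA : S_DIA := p_DIA q_ODA q_CAT q_WLK

theorem q_A9 : S_A9 := p_A9 q_VIA q_DIA

theorem q_A4 : S_A4 := p_A4 q_RCP q_SPP q_PD1 q_CY1 q_VIA q_A1a q_A1b q_A9

theorem q_FOR : S_FOR := p_FOR q_ODA

theorem q_A5 : S_A5 := p_A5 q_PAR q_FOR q_A1a q_A1b

theorem q_ARC : S_ARC := p_ARC q_PAR q_RCP q_PD1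

theorem q_SWP : S_SWP := p_SWP q_ARC

theorem q_A7 : S_A7 := p_A7 q_ODA q_RCP q_PD1 q_ARC q_SEG q_SWP q_A1a q_A1b

theorem q_A8 : S_A8 := p_A8 q_ODA q_CY1 q_SEG q_TDF q_VIA q_A1a q_A9

theorem q_ALP : S_ALP := p_ALP q_SEG q_TD q_TDF q_TDC q_RG0 q_F1 q_A1a q_A4 q_A5 q_A7 q_A8

theorem q_ADD : S_ADD := p_ADD q_PAR q_RCP q_PD1 q_TCB

theorem q_DIF : S_DIF := p_DIF q_PAR q_SEG q_TDF

theorem q_KA : S_KA := p_KA q_CAT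

theorem q_CXB : S_CXB := p_CXB q_SEG q_DIF q_FRE

theorem q_GS : S_GS := p_GS q_ARC q_SEG q_FRE q_KA q_CXB

theorem q_GE : S_GE := p_GE q_ODA q_ARC q_TDF q_ADD q_DIF q_FRE q_KA q_CXB q_GS

theorem q_SUB : S_SUB := p_SUB

theorem q_NCR : S_NCR := p_NCR q_SUB

theorem q_LAM0 : S_LAM0 := p_LAM0

theorem q_LAM : S_LAM := p_LAM q_NCR q_TDF q_TDC q_LAM0

theorem q_SPC : S_SPC := p_SPC

theorem q_GL : S_GL := p_GL q_TDF q_VIA q_FRE q_DIA q_CXB q_GS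

theorem q_RG : S_RG := p_RG q_ODA q_RCP q_SPP q_PD1 q_TDF q_FRE q_RG0

theorem q_SPT : S_SPT := p_SPT q_PAR q_RCP q_ARC

theorem q_SGC : S_SGC := p_SGC q_SEG q_SPT

theorem q_UNQ : S_UNQ := p_UNQ q_ODA q_ARC

theorem q_NEST : S_NEST := p_NEST q_SEG q_NCR q_SGC q_UNQ

theorem q_K2S : S_K2S := p_K2S q_RG0 q_RG

theorem q_LVL : S_LVL := p_LVL q_TDF q_TDC q_NEST q_CXB q_K2S

theorem q_MON : S_MON := p_MON q_NCR q_SGC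

theorem q_ORI : S_ORI := p_ORI q_SEG q_TDF q_CXB

theorem q_W1 : S_W1 := p_W1 q_SGC q_MON q_TDF q_CXB q_K2S q_ORI

theorem q_THR3 : S_THR3 := p_THR3 q_SEG q_NCR q_SGC q_UNQ

theorem q_CLS : S_CLS := p_CLS q_MON q_THR3 q_CXB q_RG q_K2S

theorem q_G2c : S_G2c := p_G2c q_ODA q_VIA q_FRE q_DIA q_CXB

theorem q_G2a : S_G2a := p_G2a q_VIA q_FRE q_CXB q_G2c

theorem q_G2b : S_G2b := p_G2b q_PAR q_ARC q_SEG q_SGC q_FRE q_KA q_CXB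

theorem q_G2 : S_G2 := p_G2 q_RG0 q_RG q_G2a q_G2b

theorem q_W3a : S_W3a := p_W3a q_MON q_TDF q_TDC q_CXB q_K2S q_ORI

theorem q_W3E : S_W3E := p_W3E q_ODA q_FRE q_CXB q_RG q_W3a

theorem q_WAR : S_WAR := p_WAR q_PAR q_ODA q_PD1

theorem q_WAC : S_WAC := p_WAC q_PAR q_WAR

theorem q_RM3a : S_RM3a := p_RM3a q_TCB q_WAR q_WAC

theorem q_RM3 : S_RM3 := p_RM3 q_RCP q_TCB q_WAR q_WAC q_RM3a

theorem q_W3B : S_W3B := p_W3B q_ODA q_FRE q_CXB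

theorem q_ADC : S_ADC := p_ADC q_PAR q_ODA q_RCP q_CAT q_PD1 q_TCB q_ADD

theorem q_G3t : S_G3t := p_G3t q_TCB q_ADC q_DIF q_FRE q_W3B

theorem q_G3w : S_G3w := p_G3w q_PAR q_SEG q_FRE q_W3B

theorem q_LHC : S_LHC := p_LHC q_CAT

theorem q_STG : S_STG := p_STG q_CAT

theorem q_G3u : S_G3u := p_G3u q_SEG q_STG q_W3B

theorem q_G3s : S_G3s := p_G3s q_LHC q_W3B q_G3u

theorem q_THRU : S_THRU := p_THRU q_PAR q_ARC q_WAR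

theorem q_TWO : S_TWO := p_TWO q_ODA q_CAT q_WAR

theorem q_G3g : S_G3g := p_G3g q_THRU q_TWO

theorem q_G3r : S_G3r := p_G3r q_RM3 q_W3B q_G3t q_G3w q_G3s q_G3g

theorem q_WN9 : S_WN9 := p_WN9 q_W1 q_CLS q_G2 q_W3E q_G3r

theorem q_F2a : S_F2a := p_F2a q_TDF q_SPC q_RG0 q_GL q_RG q_LVL q_WN9

theorem q_F2b : S_F2b := p_F2b q_TDF q_TDC q_LAM q_F2a

theorem q_MN0 : S_MN0 := p_MN0

theorem q_MAT : S_MAT := p_MAT q_ODA q_ARC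

theorem q_DEL : S_DEL := p_DEL q_PD1 q_ARC q_TCB

theorem q_THA : S_THA := p_THA q_ODA q_SEG q_TCB q_TD0

theorem q_FST : S_FST := p_FST q_ODA q_PD1 q_CY1 q_ARC q_TCB q_NCR q_MAT q_DEL q_THA

theorem q_MIN1 : S_MIN1 := p_MIN1 q_PAR q_FOR q_FST

theorem q_MIN2 : S_MIN2 := p_MIN2 q_DIF q_FRE

theorem q_RER : S_RER := p_RER q_PAR q_ODA q_RCP q_PD1 q_ARC

theorem q_MIN3 : S_MIN3 := p_MIN3 q_SEG q_RER q_TDF q_CXB

theorem q_SAC : S_SAC := p_SAC q_ODA q_SEG q_TCB q_MAT q_ADD q_DEL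

theorem q_MIN4 : S_MIN4 := p_MIN4 q_SEG q_TDF q_DIF q_SAC q_CXB

theorem q_LSL : S_LSL := p_LSL q_TCB q_TD q_FRE q_F1 q_ALP q_GE q_F2b q_MN0 q_MIN1 q_MIN2 q_MIN3 q_MIN4

theorem q_INT : S_INT := p_INT q_LSL

theorem q_ITER : S_ITER := p_ITER

theorem q_MAJ : S_MAJ := p_MAJ

theorem q_UNC : S_UNC := p_UNC q_PAR

theorem q_SUP : S_SUP := p_SUP q_PAR q_UNC

theorem q_SPL : S_SPL := p_SPL q_PAR q_ODA q_RCP q_CY1

theorem q_CY2 : S_CY2 := p_CY2 q_CY1 q_SPL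

theorem q_GIR : S_GIR := p_GIR q_PAR q_CY2

theorem q_TR0 : S_TR0 := p_TR0 q_CY1

theorem q_NRM : S_NRM := p_NRM

theorem q_E0 : S_E0 := p_E0 q_NRM

theorem q_CON : S_CON := p_CON

theorem q_MET : S_MET := p_MET q_SPL q_GIR

theorem q_GLU : S_GLU := p_GLU q_PAR

theorem q_LFT : S_LFT := p_LFT q_PAR q_CON q_GLU

theorem q_E1 : S_E1 := p_E1 q_NRM q_CON q_MET q_LFT

theorem q_THE : S_THE := p_THE q_PAR q_TR0

theorem q_K4 : S_K4 := p_K4 q_CY1 q_GIR q_NRM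

theorem q_DL1 : S_DL1 := p_DL1 q_GIR

theorem q_DL2 : S_DL2 := p_DL2 q_GIR q_UNC q_DL1

theorem q_DL3 : S_DL3 := p_DL3 q_NRM q_GIR q_DL1 q_DL2

theorem q_E3 : S_E3 := p_E3 q_NRM q_GIR q_DL1 q_DL3

theorem q_MAS : S_MAS := p_MAS q_GIR q_NRM

theorem q_B1 : S_B1 := p_B1 q_CY1 q_GIR

theorem q_O1c : S_O1c := p_O1c q_PAR q_CY1 q_CY2 q_GIR

theorem q_O1d : S_O1d := p_O1d q_PAR q_CY1 q_GIR

theorem q_O1 : S_O1 := p_O1 q_GIR q_O1c q_O1d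

theorem q_LDc : S_LDc := p_LDc q_PAR q_CY1 q_GIR

theorem q_LD1 : S_LD1 := p_LD1 q_CY1 q_GIR q_LDc

theorem q_LAD : S_LAD := p_LAD q_GIR q_LD1

theorem q_K33 : S_K33 := p_K33 q_PAR q_CY1 q_GIR q_NRM

theorem q_KK : S_KK := p_KK q_PAR q_GIR q_K33

theorem q_E4b : S_E4b := p_E4b q_MAS q_O1 q_LAD q_KK

theorem q_E4c : S_E4c := p_E4c q_MAS q_LAD q_KK

theorem q_E4 : S_E4 := p_E4 q_MAS q_B1 q_E4b q_E4c

theorem q_EE : S_EE := p_EE q_GIR q_TR0 q_E0 q_E1 q_THE q_K4 q_E3 q_E4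

theorem q_EW0 : S_EW0 := p_EW0 q_EE

theorem q_EW : S_EW := p_EW q_UNC q_SUP q_EW0

theorem q_MULT : S_MULT := p_MULT

theorem q_ARI0 : S_ARI0 := p_ARI0

theorem q_ARI1 : S_ARI1 := p_ARI1

theorem q_PRG : S_PRG := p_PRG q_EW q_WLK q_MULT q_ARI0 q_ARI1

theorem q_SQ : S_SQ := p_SQ

theorem q_MAIN : S_MAIN := p_MAIN q_SEC1 q_G3V q_INT q_ITER q_MAJ q_PRG q_SQ

end Pool.Agent.P.MP_bb4f54_co.T3
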