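import Pool.Agent.P.MP_bb4f54_co.T3.Iface2
import Pool.Agent.P.MP_bb4f54_co.T3.Iface1
import Pool.Agent.P.MP_bb4f54_co.T3.Iface7
import Pool.Agent.P.MP_bb4f54_co.T3.Iface3
import Pool.Agent.P.MP_bb4f54_co.T3.Iface6

section sLDc
/-! Step LDc. -/

set_option autoImplicit false
set_option linter.unusedSectionVars false

namespace Pool.Agent.P.MP_bb4f54_co.T3

open Finset

namespace LDcx

variable {V ι : Type} [Fintype V] [DecidableEq V] [DecidableEq ι] {en : ι → Sym2 V}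
  {Γ D Z : Finset ι} {W : Finset V}

/-- Everything about the three edges at a vertex. -/
structure St (en : ι → Sym2 V) (Γ : Finset ι) (W : Finset V) (u : V) (e g k : ι) (x y z : V) :
    Prop where
  m1 : e ∈ Γ
  m2 : g ∈ Γ
  m3 : k ∈ Γ
  n12 : e ≠ g
  n13 : e ≠ k
  n23 : g ≠ k
  l1 : x ≠ u
  l2 : y ≠ u
  l3 : z ≠ u
  v12 : x ≠ y
  v13 : x ≠ z
  v23 : y ≠ z
  w1 : x ∈ W
  w2 : y ∈ W
  w3 : z ∈ W
  nb : ∀ i ∈ Γ, ∀ t, en i = s(u, t) → (i = e ∧ t = x) ∨ (i = g ∧ t = y) ∨ (i = k ∧ t = z)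

lemma st (hc : Cub en Γ W) (hs : ∀ i ∈ Γ, ∀ j ∈ Γ, en i = en j → i = j) {u x y z : V} {e g k : ι}
    (hu : u ∈ W) (h : cut en Γ {u} = {e, g, k}) (e1 : en e = s(u, x)) (e2 : en g = s(u, y))
    (e3 : en k = s(u, z)) : St en Γ W u e g k x y z := by
  obtain ⟨n12, n13, n23⟩ := ne_of_card_three (a := e) (b := g) (c := k) (h ▸ hc.dg u hu)
  have m1 : e ∈ Γ := cut_subset (h ▸ by simp : e ∈ cut en Γ {u})
  have m2 : g ∈ Γ := cut_subset (h ▸ by simp : g ∈ cut en Γ {u})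
  have m3 : k ∈ Γ := cut_subset (h ▸ by simp : k ∈ cut en Γ {u})
  have l : ∀ i ∈ Γ, ∀ t, en i = s(u, t) → t ≠ u := fun i hi t e h =>
    hc.nl i hi (by rw [e, h]; simp)
  have w : ∀ i ∈ Γ, ∀ t, en i = s(u, t) → t ∈ W := fun i hi t e =>
    hc.sp i hi t (by rw [e]; simp)
  refine ⟨m1, m2, m3, n12, n13, n23, l _ m1 _ e1, l _ m2 _ e2, l _ m3 _ e3,
    fun h => n12 (hs _ m1 _ m2 (by rw [e1, e2, h])),
    fun h => n13 (hs _ m1 _ m3 (by rw [e1, e3, h])),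
    fun h => n23 (hs _ m2 _ m3 (by rw [e2, e3, h])), w _ m1 _ e1, w _ m2 _ e2, w _ m3 _ e3,
    fun i hi t e => ?_⟩
  have : i ∈ cut en Γ {u} := mem_cut_single.2 ⟨hi, by rw [e]; simp, hc.nl i hi⟩
  rw [h] at this
  simp only [mem_insert, mem_singleton] at this
  rcases this with rfl | rfl | rfl
  · exact Or.inl ⟨rfl, Sym2.congr_right.1 (e.symm.trans e1)⟩
  · exact Or.inr (Or.inl ⟨rfl, Sym2.congr_right.1 (e.symm.trans e2)⟩)
  · exact Or.inr (Or.inr ⟨rfl, Sym2.congr_right.1 (e.symm.trans e3)⟩)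

lemma cyc (hCY1 : S_CY1) {i : ι} {x y : V} (hi : i ∈ Γ) (hD : i ∉ D) (e : en i = s(x, y))
    (h : Rc en (Γ \ insert i D) x y) : ∃ Z ⊆ Γ, Cy en Z ∧ i ∈ Z ∧ ∀ d ∈ D, d ∉ Z := by
  obtain ⟨Z, h1, h2, h3⟩ := (hCY1 en).2.1 (Γ \ D) i x y (mem_sdiff.2 ⟨hi, hD⟩) e
    (h.mono' fun j hj => by
      simp only [mem_sdiff, mem_insert, mem_erase, not_or] at hj ⊢
      tauto)
  exact ⟨Z, h1.trans sdiff_subset, h2, h3, fun d hd hz => (mem_sdiff.1 (h1 hz)).2 hd⟩

/-- Forcing at a vertex. -/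
lemma frc (hCY1 : S_CY1) (hZ : Cy en Z) (hs : Z ⊆ Γ) {u : V} {e g k : ι}
    (h : cut en Γ {u} = {e, g, k}) :
    (e ∈ Z → k ∉ Z → g ∈ Z) ∧ (e ∈ Z → g ∉ Z → k ∈ Z) ∧ (g ∈ Z → k ∉ Z → e ∈ Z) ∧
      (g ∈ Z → e ∉ Z → k ∈ Z) ∧ (k ∈ Z → e ∉ Z → g ∈ Z) := by
  have f := fun i j l => (hCY1 en).2.2.2.2.1 Γ Z i j l u hZ.2.1 hs
  rw [h] at f
  refine ⟨fun h1 h2 => f e g k h1 (by simp) ?_ h2, fun h1 h2 => f e k g h1 (by simp) ?_ h2,
    fun h1 h2 => f g e k h1 (by simp) ?_ h2, fun h1 h2 => f g k e h1 (by simp) ?_ h2,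
    fun h1 h2 => f k g e h1 (by simp) ?_ h2⟩ <;> simp [insert_subset_iff]

lemma ins_sub {U : Set V} (h : ∀ d ∈ D, ∃ v ∈ en d, v ∉ U) : ins en Γ U ⊆ Γ \ D := by
  intro i hi
  refine mem_sdiff.2 ⟨ins_subset hi, fun hd => ?_⟩
  obtain ⟨v, h1, h2⟩ := h i hd
  exact h2 ((mem_ins.1 hi).2 v h1)

lemma stp {i : ι} {x y : V} (hi : i ∈ Γ) (e : en i = s(x, y)) (h : i ∉ D) :
    Rc en (Γ \ D) x y ∧ Rc en (Γ \ D) y x :=
  ⟨Rc.step (mem_sdiff.2 ⟨hi, h⟩) e, (Rc.step (mem_sdiff.2 ⟨hi, h⟩) e).symm'⟩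

lemma nin {a b c ga ga' gb gb' gc gc' r₁ r₂ : ι}
    (h : [a, b, c, ga, ga', gb, gb', gc, gc', r₁, r₂].Nodup) :
    (a ∉ ({c, ga', gb, gc} : Finset ι) ∧
      ∀ i ∈ [b, ga, gb', r₁, r₂], i ∉ ({a, c, ga', gb, gc} : Finset ι)) ∧
    (a ∉ ({b, ga, r₂, gc'} : Finset ι) ∧
      ∀ i ∈ [c, ga', gb, gb', gc, r₁], i ∉ ({a, b, ga, r₂, gc'} : Finset ι)) ∧
    (b ∉ ({a, gb', r₁, gc'} : Finset ι) ∧
      ∀ i ∈ [c, ga, ga', gb, gc, r₂], i ∉ ({b, a, gb', r₁, gc'} : Finset ι)) := by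
  simp only [List.nodup_cons, List.mem_cons, List.not_mem_nil, or_false, not_or, mem_insert,
    mem_singleton, forall_eq_or_imp, forall_eq] at h ⊢
  grind

end LDcx

open LDcx in
theorem p_LDc (hPAR : S_PAR) (hCY1 : S_CY1) (hGIR : S_GIR) :
    S_LDc := by
  intro V ι _ _ _ en Γ W ρ ua ub uc w₁ w₂ A C R₁ R₂ H H' p a b c ga ga' gb gb' gc gc' r₁ r₂ h h'
    L Fa Fb Fc F1 F2 FA hA2 hC1
  have hc := L.rz.rt.cub
  obtain ⟨-, -, con, hs, hn⟩ := hGIR en Γ W hc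
  replace hs := hs (by have := L.five; omega)
  have tri := (hn L.nt).1 L.five
  have ea := L.rz.ea
  have eb := L.rz.eb
  have ec := L.rz.ec
  have sw : ∀ {i : ι} {x y : V}, en i = s(x, y) → en i = s(y, x) := fun e => e.trans Sym2.eq_swap
  have S0 := st hc hs L.rz.rt.hρ L.rz.rt.st ea eb ec
  have Sa := st hc hs S0.w1 Fa.st (sw ea) Fa.e1 Fa.e2
  have Sb := st hc hs S0.w2 Fb.st (sw eb) Fb.e1 Fb.e2
  have Sc := st hc hs S0.w3 Fc.st (sw ec) Fc.e1 Fc.e2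
  have S1 := st hc hs Sa.w2 F1.st (sw Fa.e1) F1.e1 F1.e2
  have S2 := st hc hs Sb.w3 F2.st (sw Fc.e1) F2.e1 F2.e2
  have SA := st hc hs Sa.w3 FA.st (sw Fa.e2) FA.e1 FA.e2
  have da : Ad en Γ ρ ua := ⟨_, S0.m1, ea⟩
  have db : Ad en Γ ρ ub := ⟨_, S0.m2, eb⟩
  have dc : Ad en Γ ρ uc := ⟨_, S0.m3, ec⟩
  have da1 : Ad en Γ ua w₁ := ⟨_, Sa.m2, Fa.e1⟩
  have daA : Ad en Γ ua A := ⟨_, Sa.m3, Fa.e2⟩
  have db1 : Ad en Γ ub w₁ := ⟨_, Sb.m2, Fb.e1⟩
  have db2 : Ad en Γ ub w₂ := ⟨_, Sb.m3, Fb.e2⟩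
  have dcC : Ad en Γ uc C := ⟨_, Sc.m3, Fc.e2⟩
  have d1R : Ad en Γ w₁ R₁ := ⟨_, S1.m3, F1.e2⟩
  have d2R : Ad en Γ w₂ R₂ := ⟨_, S2.m3, F2.e2⟩
  have dAH : Ad en Γ A H := ⟨_, SA.m2, FA.e1⟩
  have n0a := S0.l1.symm
  have n0b := S0.l2.symm
  have n0c := S0.l3.symm
  have n01 := Sa.v12
  have n02 := Sb.v13
  have nab := S0.v12
  have nac := S0.v13
  have na1 := Sa.l2.symm
  have na2 : ua ≠ w₂ := fun e => tri _ _ _ db (e ▸ db2) da.symm
  have nbc := S0.v23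
  have nb1 := Sb.l2.symm
  have nb2 := Sb.l3.symm
  have nc1 : uc ≠ w₁ := fun e => tri _ _ _ da (e ▸ da1) dc.symm
  have nc2 := Sc.l2.symm
  have n12 := Sb.v23
  have A0 := Sa.v13.symm
  have Aa := Sa.l3
  have Ab : A ≠ ub := fun e => tri _ _ _ da (e ▸ daA) db.symm
  have Ac : A ≠ uc := fun e => tri _ _ _ da (e ▸ daA) dc.symm
  have A1 := Sa.v23.symm
  have P0 : R₁ ≠ ρ := fun e => tri _ _ _ da da1 (e ▸ d1R)
  have Pa := S1.v13.symm
  have Pb := S1.v23.symm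
  have Pc : R₁ ≠ uc := fun e => by
    rcases Sc.nb _ S1.m3 w₁ (e ▸ sw F1.e2) with h | h | h
    · exact n01 h.2.symm
    · exact n12 h.2
    · exact hC1 h.2.symm
  have P1 := S1.l3
  have P2 : R₁ ≠ w₂ := fun e => tri _ _ _ db1 (e ▸ d1R) db2.symm
  have Q0 : R₂ ≠ ρ := fun e => tri _ _ _ db db2 (e ▸ d2R)
  have Qa : R₂ ≠ ua := fun e => by
    rcases Sa.nb _ S2.m3 w₂ (e ▸ sw F2.e2) with h | h | h
    · exact n02 h.2.symm
    · exact n12 h.2.symm
    · exact hA2 h.2.symm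
  have Qb := S2.v23.symm
  have Qc := S2.v13.symm
  have Q1 : R₂ ≠ w₁ := fun e => tri _ _ _ db2 (e ▸ d2R) db1.symm
  have Q2 := S2.l3
  let O : Set V := {v | v ≠ ρ ∧ v ≠ ua ∧ v ≠ ub ∧ v ≠ uc ∧ v ≠ w₁ ∧ v ≠ w₂}
  have port : ∀ i ∈ Γ, ∀ v t, en i = s(v, t) → v ∉ O → t ∈ O →
      (i = ga' ∧ t = A) ∨ i = gc' ∨ i = r₁ ∨ i = r₂ := by
    intro i hi v t e hv ⟨t0, ta, tb, tc, t1, t2⟩
    simp only [O, Set.mem_ofPred_eq, not_and_or, not_not] at hv
    rcases hv with rfl | rfl | rfl | rfl | rfl | rfl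
    · rcases S0.nb i hi t e with h | h | h
      exacts [absurd h.2 ta, absurd h.2 tb, absurd h.2 tc]
    · rcases Sa.nb i hi t e with h | h | h
      exacts [absurd h.2 t0, absurd h.2 t1, .inl h]
    · rcases Sb.nb i hi t e with h | h | h
      exacts [absurd h.2 t0, absurd h.2 t1, absurd h.2 t2]
    · rcases Sc.nb i hi t e with h | h | h
      exacts [absurd h.2 t0, absurd h.2 t2, .inr (.inl h.1)]
    · rcases S1.nb i hi t e with h | h | h
      exacts [absurd h.2 ta, absurd h.2 tb, .inr (.inr (.inl h.1))]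
    · rcases S2.nb i hi t e with h | h | h
      exacts [absurd h.2 tc, absurd h.2 tb, .inr (.inr (.inr h.1))]
  have cO : ∀ x ∈ W, ∀ y ∈ W, x ∈ O → y ∈ O → Rc en (ins en Γ O) x y := by
    refine con O ⟨ρ, L.rz.rt.hρ, fun h => h.1 rfl⟩
      ((card_le_card (t := {ga', gc', r₁, r₂}) fun i hi => ?_).trans (card_le_four.trans (by omega)))
    obtain ⟨hi, x, y, e, hx, hy⟩ := mem_cut.1 hi
    simp only [mem_insert, mem_singleton]
    exact (port i hi y x (sw e) hy hx).imp_left And.left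
  have oA : A ∈ O := ⟨A0, Aa, Ab, Ac, A1, hA2⟩
  have oP : R₁ ∈ O := ⟨P0, Pa, Pb, Pc, P1, P2⟩
  have oQ : R₂ ∈ O := ⟨Q0, Qa, Qb, Qc, Q1, Q2⟩
  have ega := Fa.e1
  have ega' := Fa.e2
  have egb := Fb.e1
  have egb' := Fb.e2
  have egc := Fc.e1
  have egc' := Fc.e2
  have er1 := F1.e2
  have er2 := F2.e2
  have out : ∀ d ∈ ({a, b, c, ga, ga', gb, gb', gc, gc', r₁, r₂} : Finset ι),
      ∃ v ∈ en d, v ∉ O := by
    intro d hd
    simp only [mem_insert, mem_singleton] at hd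
    rcases hd with rfl | rfl | rfl | rfl | rfl | rfl | rfl | rfl | rfl | rfl | rfl <;>
      simp only [ea, eb, ec, ega, ega', egb, egb', egc, egc', er1, er2] <;> simp [O]
  have C0 := Sc.v13.symm
  have C2 := Sc.v23.symm
  have Cc := Sc.l3
  have Ca : C ≠ ua := fun e => tri _ _ _ dc (e ▸ dcC) da.symm
  have Cb : C ≠ ub := fun e => tri _ _ _ dc (e ▸ dcC) db.symm
  have nd : [a, b, c, ga, ga', gb, gb', gc, gc', r₁, r₂].Nodup := by
    refine List.Nodup.of_map en ?_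
    simp only [List.map, ea, eb, ec, ega, ega', egb, egb', egc, egc', er1, er2]
    simp only [List.nodup_cons, List.mem_cons, List.not_mem_nil, or_false, not_or, Sym2.eq_iff]
    clear * - n0a n0b n0c n01 n02 nab nac na1 na2 nbc nb1 nb2 nc1 nc2 n12 A0 Aa Ab Ac A1 hA2 C0 Ca
      Cb Cc hC1 C2 P0 Pa Pb Pc P1 P2 Q0 Qa Qb Qc Q1 Q2
    grind
  obtain ⟨⟨u1, u2⟩, ⟨v1, v2⟩, t1, t2⟩ := nin nd
  simp only [List.mem_cons, List.not_mem_nil, or_false, forall_eq_or_imp, forall_eq] at u2 v2 t2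
  refine ⟨?_, ?_, ?_, fun hAC hAR => ?_⟩
  · obtain ⟨Z, hZ, cy, m, no⟩ := cyc hCY1 S0.m1 u1 ea (((stp S0.m2 eb u2.1).1.trans'
      ((stp Sb.m3 egb' u2.2.2.1).1.trans' ((stp S2.m3 er2 u2.2.2.2.2).1.trans'
      (((cO _ S2.w3 _ S1.w3 oQ oP).mono' (ins_sub fun d hd => out d (by
        simp only [mem_insert, mem_singleton] at hd ⊢; clear * - hd; tauto))).trans'
      ((stp S1.m3 er1 u2.2.2.2.1).2.trans' (stp Sa.m2 ega u2.2.1).2))))))
    simp only [mem_insert, mem_singleton, forall_eq_or_imp, forall_eq] at no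
    have f := fun {u : V} {e g k : ι} => frc hCY1 cy hZ (u := u) (e := e) (g := g) (k := k)
    have z1 := (f L.rz.rt.st).1 m no.1
    have z2 := (f Fa.st).1 m no.2.1
    have z3 := (f Fb.st).2.1 z1 no.2.2.1
    exact ⟨Z, hZ, cy, m, z1, z2, (f F1.st).2.1 z2 no.2.2.1, (f F2.st).2.2.2.1 z3 no.2.2.2, z3⟩
  · obtain ⟨Z, hZ, cy, m, no⟩ := cyc hCY1 S0.m1 v1 ea (((stp S0.m3 ec v2.1).1.trans'
      ((stp Sc.m2 egc v2.2.2.2.2.1).1.trans' ((stp Sb.m3 egb' v2.2.2.2.1).2.trans'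
      ((stp Sb.m2 egb v2.2.2.1).1.trans' ((stp S1.m3 er1 v2.2.2.2.2.2).1.trans'
      (((cO _ S1.w3 _ Sa.w3 oP oA).mono' (ins_sub fun d hd => out d (by
        simp only [mem_insert, mem_singleton] at hd ⊢; clear * - hd; tauto))).trans'
      (stp Sa.m3 ega' v2.2.1).2)))))))
    simp only [mem_insert, mem_singleton, forall_eq_or_imp, forall_eq] at no
    have f := fun {u : V} {e g k : ι} => frc hCY1 cy hZ (u := u) (e := e) (g := g) (k := k)
    have z1 := (f L.rz.rt.st).2.1 m no.1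
    have z2 := (f Fc.st).1 z1 no.2.2.2
    have z3 := (f F2.st).1 z2 no.2.2.1
    have z4 := (f Fb.st).2.2.2.2 z3 no.1
    exact ⟨Z, hZ, cy, m, z1, (f Fa.st).2.1 m no.2.1, (f F1.st).2.2.2.1 z4 no.2.1, z4, z3, z2⟩
  · obtain ⟨Z, hZ, cy, m, no⟩ := cyc hCY1 S0.m2 t1 eb (((stp S0.m3 ec t2.1).1.trans'
      ((stp Sc.m2 egc t2.2.2.2.2.1).1.trans' ((stp S2.m3 er2 t2.2.2.2.2.2).1.trans'
      (((cO _ S2.w3 _ Sa.w3 oQ oA).mono' (ins_sub fun d hd => out d (by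
        simp only [mem_insert, mem_singleton] at hd ⊢; clear * - hd; tauto))).trans'
      ((stp Sa.m3 ega' t2.2.2.1).2.trans' ((stp Sa.m2 ega t2.2.1).1.trans'
      (stp Sb.m2 egb t2.2.2.2.1).2)))))))
    simp only [mem_insert, mem_singleton, forall_eq_or_imp, forall_eq] at no
    have f := fun {u : V} {e g k : ι} => frc hCY1 cy hZ (u := u) (e := e) (g := g) (k := k)
    have z1 := (f L.rz.rt.st).2.2.2.1 m no.1
    have z2 := (f Fb.st).1 m no.2.1
    have z3 := (f F1.st).2.2.1 z2 no.2.2.1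
    have z4 := (f Fc.st).1 z1 no.2.2.2
    exact ⟨Z, hZ, cy, m, z1, z2, z3, (f Fa.st).2.2.2.1 z3 no.1, (f F2.st).2.1 z4 no.2.1, z4⟩
  · have AP : A ≠ R₁ := fun e => tri _ _ _ da1 (e ▸ d1R) daA.symm
    have nA : ∀ {i : ι} {x y : V}, en i = s(x, y) → A ≠ x → A ≠ y → i ≠ h ∧ i ≠ h' := by
      intro i x y e hx hy
      have : A ∉ en i := by rw [e]; simp [hx, hy]
      constructor <;> rintro rfl
      · exact this (by rw [FA.e1]; simp)
      · exact this (by rw [FA.e2]; simp)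
    have oH : H ∈ O := by
      refine ⟨fun e => tri _ _ _ da daA (e ▸ dAH), SA.v12.symm, fun e => ?_, fun e => ?_,
        fun e => tri _ _ _ da1 (e ▸ dAH.symm) daA.symm, fun e => ?_⟩
      · rcases Sb.nb _ SA.m2 A (e ▸ sw FA.e1) with h | h | h
        exacts [A0 h.2, A1 h.2, hA2 h.2]
      · rcases Sc.nb _ SA.m2 A (e ▸ sw FA.e1) with h | h | h
        exacts [A0 h.2, hA2 h.2, hAC h.2]
      · rcases S2.nb _ SA.m2 A (e ▸ sw FA.e1) with h | h | h
        exacts [Ac h.2, Ab h.2, hAR h.2]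
    have cU : Rc en (ins en Γ (O \ {A})) R₂ H := by
      refine con _ ⟨ρ, L.rz.rt.hρ, fun h => h.1.1 rfl⟩
        ((card_le_card (t := {gc', r₁, r₂, h, h'}) fun i hi => ?_).trans card_le_five) _ S2.w3 _
        SA.w2 ⟨oQ, hAR.symm⟩ ⟨oH, SA.l2⟩
      obtain ⟨hi, x, y, e, hx, hy⟩ := mem_cut.1 hi
      simp only [mem_insert, mem_singleton]
      by_cases hO : y ∈ O
      · have hA : y = A := by
          by_contra hA
          exact hy ⟨hO, hA⟩
        rcases SA.nb i hi x (hA ▸ sw e) with h | h | h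
        exacts [absurd h.2 hx.1.2.1, by simp [h.1], by simp [h.1]]
      · rcases port i hi y x (sw e) hO hx.1 with h | h | h | h
        exacts [absurd h.2 hx.2, by simp [h], by simp [h], by simp [h]]
    have key : ∀ {i : ι}, i ∉ ({b, a, gb', r₁, gc'} : Finset ι) → i ≠ h' →
        i ∉ ({b, h', a, gb', r₁, gc'} : Finset ι) := by
      intro i h1 h2
      simp only [mem_insert, mem_singleton] at h1 ⊢
      clear * - h1 h2
      tauto
    have hh : h ∉ ({b, a, gb', r₁, gc'} : Finset ι) := by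
      simp only [mem_insert, mem_singleton, not_or]
      exact ⟨(nA eb A0 Ab).1.symm, (nA ea A0 Aa).1.symm, (nA egb' Ab hA2).1.symm,
        (nA er1 A1 AP).1.symm, (nA egc' Ac hAC).1.symm⟩
    have hsub : ins en Γ (O \ {A}) ⊆ Γ \ {b, h', a, gb', r₁, gc'} := ins_sub fun d hd => by
      by_cases e : d = h'
      · exact ⟨A, by rw [e, FA.e2]; simp, fun h => h.2 rfl⟩
      · obtain ⟨v, h1, h2⟩ := out d (by
          simp only [mem_insert, mem_singleton] at hd ⊢; clear * - hd e; tauto)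
        exact ⟨v, h1, fun h => h2 h.1⟩
    obtain ⟨Z, hZ, cy, m, no⟩ := cyc (D := {h', a, gb', r₁, gc'}) hCY1 S0.m2
      (fun hb => (mem_insert.1 hb).elim (nA eb A0 Ab).2 t1) eb
      (((stp S0.m3 ec (key t2.1 (nA ec A0 Ac).2)).1.trans'
      ((stp Sc.m2 egc (key t2.2.2.2.2.1 (nA egc Ac hA2).2)).1.trans'
      ((stp S2.m3 er2 (key t2.2.2.2.2.2 (nA er2 hA2 hAR).2)).1.trans'
      ((cU.mono' hsub).trans'
      ((stp SA.m2 FA.e1 (key hh SA.n23)).2.trans'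
      ((stp Sa.m3 ega' (key t2.2.2.1 SA.n13)).2.trans'
      ((stp Sa.m2 ega (key t2.2.1 (nA ega Aa A1).2)).1.trans'
      (stp Sb.m2 egb (key t2.2.2.2.1 (nA egb Ab A1).2)).2))))))))
    simp only [mem_insert, mem_singleton, forall_eq_or_imp, forall_eq] at no
    have f := fun {u : V} {e g k : ι} => frc hCY1 cy hZ (u := u) (e := e) (g := g) (k := k)
    have z1 := (f L.rz.rt.st).2.2.2.1 m no.2.1
    have z2 := (f Fb.st).1 m no.2.2.1
    have z3 := (f F1.st).2.2.1 z2 no.2.2.2.1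
    have z4 := (f Fc.st).1 z1 no.2.2.2.2
    have z5 := (f Fa.st).2.2.2.1 z3 no.2.1
    exact ⟨Z, hZ, cy, m, z1, z2, z3, z5, (f F2.st).2.1 z4 no.2.2.1, z4, (f FA.st).1 z5 no.1⟩

end Pool.Agent.P.MP_bb4f54_co.T3

end sLDc

section sMIN2
/-! Step MIN2. -/

set_option autoImplicit false
set_option linter.unusedSectionVars false

namespace Pool.Agent.P.MP_bb4f54_co.T3

open Finset

namespace MIN2x

lemma spread {P : ℕ → Prop} {n p : ℕ} (h : ∀ i, 0 < i → i + 1 < n → (P i ↔ P (i + 1)))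
    (h0 : 0 < p) (h1 : p < n) (hp : P p) : ∀ i, 0 < i → i < n → P i := by
  have key : ∀ i, i + 1 < n → (P (i + 1) ↔ P 1) := by
    intro i
    induction i with
    | zero => exact fun _ => Iff.rfl
    | succ i ih => exact fun hi => (h (i + 1) (by omega) hi).symm.trans (ih (by omega))
  intro i hi hn
  obtain ⟨i, rfl⟩ : ∃ j, i = j + 1 := ⟨i - 1, by omega⟩
  obtain ⟨p, rfl⟩ : ∃ j, p = j + 1 := ⟨p - 1, by omega⟩
  exact (key i hn).2 ((key p h1).1 hp)

end MIN2x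

theorem p_MIN2 (hDIF : S_DIF) (hFRE : S_FRE) :
    S_MIN2 := by
  classical
  intro V _ _ G S B T O Γ v n pos h td hB hT hO
  have hcut : ∀ (Y : Finset V) a b, G.Adj a b → a ∈ Y → b ∉ Y → s(a, b) ∈ cut id (EG G) ↑Y :=
    fun Y a b h1 h2 h3 => mem_cut.2 ⟨mk_mem_EG.2 h1, a, b, rfl, h2, h3⟩
  have sk : Sk G Γ T O := by
    refine ⟨h.sub, fun x hx => ((hT x).1 hx).2, fun x hx => ((hO x).1 hx).2, fun x hx y h1 h2 => ?_⟩
    have h3 : x ∈ S := hx.elim (fun h => ((hT x).1 h).1) fun h => ((hO x).1 h).1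
    have h4 : y ∈ S := by
      by_contra h4
      exact h2 (h.out (hcut S x y h1 h3 h4))
    have h5 : dgr id Γ y < dgr id (EG G) y := by
      refine card_lt_card ⟨cut_mono h.sub, fun h5 => h2 (cut_subset (h5 ?_))⟩
      exact mem_cut.2 ⟨mk_mem_EG.2 h1, y, x, Sym2.eq_swap, rfl, h1.ne⟩
    rw [h.g3.dg] at h5
    rcases h.tc.dg y with h6 | h6 | h6
    · exact Or.inr ((hO y).2 ⟨h4, h6⟩)
    · exact Or.inl ((hT y).2 ⟨h4, h6⟩)
    · omega
  have adj : ∀ x, dgr id Γ x = 2 → ∀ i, i < n x → G.Adj (v x i) (v x (i + 1)) :=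
    fun x hx i hi => mk_mem_EG.1 (h.sub ((td.sg x hx).ed i hi))
  have int : ∀ x ∈ T, ∀ i, 0 < i → i < n x → v x i ∈ T := by
    intro x hx i h0 h1
    obtain ⟨h2, h3⟩ := (hT x).1 hx
    refine (hT _).2 ⟨MIN2x.spread (P := fun i => v x i ∈ S) (fun j j0 j1 => ?_) (td.p0 x h3)
      (td.pn x h3) (by rw [td.vx x h3]; exact h2) i h0 h1, (td.sg x h3).dg i h0 h1⟩
    have a1 := adj x h3 j (by omega)
    have a2 := (td.sg x h3).dg j j0 (by omega)
    have a3 := (td.sg x h3).dg (j + 1) (by omega) j1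
    constructor
    · intro h4
      by_contra h5
      have := h.nb _ h4 _ h5 a1
      omega
    · intro h4
      by_contra h5
      have := h.nb _ h4 _ h5 a1.symm
      omega
  have tS : T ⊆ S := fun x hx => ((hT x).1 hx).1
  have oS : O ⊆ S := fun x hx => ((hO x).1 hx).1
  obtain ⟨-, f2, f3, f4, -, f6⟩ := hFRE h.g3 sk
  have hOut : ∀ e ∈ cut id (EG G) ↑O, ∃ a ∈ O, ∃ t ∈ T, G.Adj t a ∧ e = s(t, a) := by
    intro e he
    obtain ⟨h1, a, b, h2, h3, h4⟩ := mem_cut.1 he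
    have h5 : e = s(a, b) := h2
    have h6 : G.Adj a b := mk_mem_EG.1 (h5 ▸ h1)
    exact ⟨a, h3, b, (f6 a h3 b h6).resolve_right h4, h6.symm, h5.trans Sym2.eq_swap⟩
  have hUn : ∀ t, t ∉ O → ∀ e ∈ cut id (EG G) ↑O, t ∈ e → ∀ e' ∈ cut id (EG G) ↑O, t ∈ e' →
      e = e' := by
    intro t ht e he h1 e' he' h1'
    obtain ⟨a, ha, b, hb, h2, rfl⟩ := hOut e he
    obtain ⟨a', ha', b', hb', h2', rfl⟩ := hOut e' he'
    obtain rfl : t = b := (Sym2.mem_iff.1 h1).resolve_right fun e => ht (e ▸ ha)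
    obtain rfl : t = b' := (Sym2.mem_iff.1 h1').resolve_right fun e => ht (e ▸ ha')
    rw [f2 t hb a a' h2 (f4 a ha t).2 h2' (f4 a' ha' t).2]
  refine ⟨⟨h.g3, h.tc, sk, td, tS, oS, int⟩,
    ⟨B ∪ univ.filter fun w => w ∉ S ∧ ∃ u ∈ S, G.Adj u w, fun a ha => ?_, fun x hx => ?_, ?_⟩,
    fun t ht => card_le_one.2 fun e he e' he' => ?_, ?_, ?_, ?_⟩
  · rcases mem_union.1 ha with ha | ha
    · exact ((hB a).1 ha).2
    · obtain ⟨-, h1, u, h2, h3⟩ := mem_filter.1 ha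
      exact h.nb u h2 a h1 h3
  · have h3 := ((hT x).1 hx).2
    have th := ((hDIF Γ h.tc).2 v n pos td x h3).1
    have p0 := td.p0 x h3
    have pn := td.pn x h3
    have key : ∀ a b, dgr id Γ a = 3 → b ∈ T → G.Adj b a →
        a ∈ B ∪ univ.filter fun w => w ∉ S ∧ ∃ u ∈ S, G.Adj u w := by
      intro a b h1 h2 h4
      by_cases ha : a ∈ S
      · exact mem_union_left _ ((hB a).2 ⟨ha, h1⟩)
      · exact mem_union_right _ (mem_filter.2 ⟨mem_univ _, ha, b, tS h2, h4⟩)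
    refine ⟨key _ _ th.d0 (int x hx 1 one_pos (by omega)) (adj x h3 0 th.pos).symm,
      key _ _ th.d1 (int x hx (n x - 1) (by omega) (by omega)) ?_⟩
    have := adj x h3 (n x - 1) (by omega)
    rwa [show n x - 1 + 1 = n x by omega] at this
  · refine (card_union_le _ _).trans (Nat.add_le_add_left ?_ _)
    refine card_le_card_of_forall_subsingleton (fun w e => w ∈ e) (fun w hw => ?_) fun e he => ?_
    · obtain ⟨-, h1, u, h2, h3⟩ := mem_filter.1 hw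
      exact ⟨_, hcut S u w h3 h2 h1, Sym2.mem_mk_right _ _⟩
    · obtain ⟨-, a, b, h2, h3, -⟩ := mem_cut.1 he
      obtain rfl : e = s(a, b) := h2
      have key : ∀ w ∈ univ.filter fun w => w ∉ S ∧ ∃ u ∈ S, G.Adj u w, w ∈ s(a, b) → w = b :=
        fun w hw h5 => (Sym2.mem_iff.1 h5).resolve_left fun e => (mem_filter.1 hw).2.1 (e ▸ h3)
      exact fun w hw w' hw' => (key w hw.1 hw.2).trans (key w' hw'.1 hw'.2).symm
  · exact hUn t ht e (mem_cut_single.1 he).1 (mem_cut_single.1 he).2.1 e'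
      (mem_cut_single.1 he').1 (mem_cut_single.1 he').2.1
  · refine card_le_card_of_forall_subsingleton' (fun t e => t ∈ e) (fun e he => ?_) fun t ht => ?_
    · obtain ⟨a, -, b, hb, -, rfl⟩ := hOut e he
      exact ⟨b, hb, Sym2.mem_mk_left _ _⟩
    · exact fun e he e' he' => hUn t (f3 t ht) e he.1 he.2 e' he'.1 he'.2
  · obtain ⟨e, he⟩ := h.ne
    obtain ⟨-, a, b, -, -, h4⟩ := mem_cut.1 he
    exact ⟨b, fun h5 => h4 (oS h5)⟩
  · refine le_trans (card_le_card (t := B ∪ T ∪ O) fun u hu => ?_)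
      ((card_union_le _ _).trans (Nat.add_le_add_right (card_union_le _ _) _))
    rcases h.tc.dg u with h6 | h6 | h6
    · exact mem_union_right _ ((hO u).2 ⟨hu, h6⟩)
    · exact mem_union_left _ (mem_union_right _ ((hT u).2 ⟨hu, h6⟩))
    · exact mem_union_left _ (mem_union_left _ ((hB u).2 ⟨hu, h6⟩))

end Pool.Agent.P.MP_bb4f54_co.T3

end sMIN2

section sSTG
/-! Step STG. -/

set_option autoImplicit false
set_option linter.unusedSectionVars false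

namespace Pool.Agent.P.MP_bb4f54_co.T3

open Finset

namespace STGx

lemma disj {V : Type} {P P' : Finset (Sym2 V)} (h : ∀ w ∈ spt id P, w ∉ spt id P') :
    Disjoint P P' :=
  disjoint_left.2 fun e h1 h2 => h e.out.1 ⟨e, h1, e.out_fst_mem⟩ ⟨e, h2, e.out_fst_mem⟩

lemma sum3 (a b c : Fin 3) (h1 : a ≠ b) (h2 : c ≠ a) (h3 : c ≠ b) (f : Fin 3 → ℕ) :
    ∑ ρ, f ρ = f a + f b + f c := by
  have : (univ : Finset (Fin 3)) = {a, b, c} := by
    revert a b c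
    decide
  rw [this, sum_insert (by simp [h1, h2.symm]), sum_insert (by simp [h3.symm]), sum_singleton,
    add_assoc]

lemma third : ∀ a b : Fin 3, ∃ c, c ≠ a ∧ c ≠ b := by decide

lemma two : ∀ c : Fin 3, ∃ a b, a ≠ b ∧ c ≠ a ∧ c ≠ b := by decide

end STGx

open STGx in
theorem p_STG (hCAT : S_CAT) :
    S_STG := by
  intro V _ _ l t r A B Λ U O D k hk hO hU hOU H hΛ h h'
  have cat := (hCAT (V := V) (ι := Sym2 V) id).1
  have nU : ∀ a b w, a ≠ b → w ∈ U a → w ∈ U b → False := fun a b w hab h1 h2 =>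
    Set.disjoint_left.1 (hU a b hab) h1 h2
  have nO : ∀ a w, w ∈ O → w ∈ U a → False := fun a w h1 h2 => Set.disjoint_left.1 (hOU a) h1 h2
  have st : ∀ ρ, Pth id (A ρ ∪ B ρ) (l ρ) (r ρ) ∧ (A ρ ∪ B ρ).card = (A ρ).card + (B ρ).card ∧
      (∀ w ∈ spt id (A ρ ∪ B ρ), w ∈ U ρ) ∧
      ∀ w ∈ spt id (A ρ ∪ B ρ), w ∈ D ∨ w = l ρ ∨ w = r ρ := by
    intro ρ
    obtain ⟨-, -, a3, a4, -, a6, a7, a8, -⟩ := H ρ
    obtain ⟨c1, c2⟩ := cat _ _ _ _ _ a3 a4 a8
    refine ⟨c2, card_union_of_disjoint c1, fun w hw => ?_, fun w hw => ?_⟩ <;>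
      rw [spt_union] at hw
    · exact hw.elim (fun x => (a6 w x).1) fun x => (a7 w x).1
    · exact hw.elim (fun x => (a6 w x).2.imp id Or.inl) fun x => (a7 w x).2.imp id Or.inr
  by_cases hh : h = h'
  · subst hh
    obtain ⟨a, b, hab, ha, hb⟩ := two h
    obtain ⟨a1, a2, a3, a4⟩ := st a
    obtain ⟨b1, b2, b3, b4⟩ := st b
    have hd : ∀ w ∈ spt id (A a ∪ B a), w ∉ spt id (A b ∪ B b) := fun w h1 h2 =>
      nU a b w hab (a3 w h1) (b3 w h2)
    refine ⟨_, ⟨a, b, a, b, _, _, hab, ha.symm, hb.symm, hab, ha.symm, hb.symm, a1, b1, rfl, a4,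
      b4, hd⟩, fun e he => ?_, ?_⟩
    · simp only [mem_union] at he
      rcases he with (x | x) | x | x
      exacts [⟨a, Or.inl x⟩, ⟨a, Or.inr (Or.inl x)⟩, ⟨b, Or.inl x⟩, ⟨b, Or.inr (Or.inl x)⟩]
    · rw [card_union_of_disjoint (disj hd), a2, b2, if_pos rfl, sum3 a b h hab ha hb,
        sum3 a b h hab ha hb]
      omega
  · obtain ⟨c, hc, hc'⟩ := third h h'
    obtain ⟨c1, c2, c3, c4⟩ := st c
    obtain ⟨a1, a2, a3, -, a5, a6, -, -, a9⟩ := H h'
    obtain ⟨b1, b2, -, b4, b5, -, b7, -, b9⟩ := H h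
    obtain ⟨d1, p1⟩ := cat _ _ _ _ _ b5 b4 fun w x y =>
      (b9 w x).resolve_left fun z => nO h w z (b7 w y).1
    obtain ⟨d2, p2⟩ := cat _ _ _ _ _ a5.symm p1 fun w x y => by
      rw [spt_union] at y
      rcases y with y | y
      · exact hΛ h h' hh w y x
      · rcases a9 w x with z | rfl
        · exact (nO h w z (b7 w y).1).elim
        · exact (nU h h' _ hh (b7 _ y).1 a1).elim
    obtain ⟨d3, p3⟩ := cat _ _ _ _ _ a3 p2 fun w x y => by
      rw [spt_union, spt_union] at y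
      have u := (a6 w x).1
      rcases y with y | y | y
      · exact (a9 w y).resolve_left fun z => nO h' w z u
      · rcases b9 w y with z | rfl
        · exact (nO h' w z u).elim
        · exact (nU h h' _ hh b1 u).elim
      · exact (nU h h' _ hh (b7 w y).1 u).elim
    have hd : ∀ w ∈ spt id (A h' ∪ (Λ h' ∪ (Λ h ∪ B h))), w ∉ spt id (A c ∪ B c) := by
      intro w x y
      have u := c3 w y
      rw [spt_union, spt_union, spt_union] at x
      rcases x with x | x | x | x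
      · exact nU c h' w hc' u (a6 w x).1
      · rcases a9 w x with z | rfl
        · exact nO c w z u
        · exact nU c h' _ hc' u a1
      · rcases b9 w x with z | rfl
        · exact nO c w z u
        · exact nU c h _ hc u b1
      · exact nU c h w hc u (b7 w x).1
    refine ⟨_, ⟨h', c, h, c, _, _, hc'.symm, Ne.symm hh, hc, hc.symm, hh, hc', p3, c1, rfl,
      fun w x => ?_, c4, hd⟩, fun e he => ?_, ?_⟩
    · rw [spt_union, spt_union, spt_union] at x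
      rcases x with x | x | x | x
      · exact (a6 w x).2.imp id Or.inl
      · exact Or.inl ((a9 w x).elim (fun z => hO z) fun z => z ▸ a2)
      · exact Or.inl ((b9 w x).elim (fun z => hO z) fun z => z ▸ b2)
      · exact (b7 w x).2.imp id Or.inr
    · simp only [mem_union] at he
      rcases he with (x | x | x | x) | x | x
      exacts [⟨h', Or.inl x⟩, ⟨h', Or.inr (Or.inr x)⟩, ⟨h, Or.inr (Or.inr x)⟩,
        ⟨h, Or.inr (Or.inl x)⟩, ⟨c, Or.inl x⟩, ⟨c, Or.inr (Or.inl x)⟩]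
    · rw [card_union_of_disjoint (disj hd), card_union_of_disjoint d3, card_union_of_disjoint d2,
        card_union_of_disjoint d1, c2, if_neg hh, sum3 h h' c hh hc hc', sum3 h h' c hh hc hc']
      omega

end Pool.Agent.P.MP_bb4f54_co.T3

end sSTG

section sDEL
/-! Step DEL. -/

set_option autoImplicit false
set_option linter.unusedSectionVars false

namespace Pool.Agent.P.MP_bb4f54_co.T3

open Finset

theorem p_DEL (hPD1 : S_PD1) (hARC : S_ARC) (hTCB : S_TCB) :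
    S_DEL := by
  intro V ι _ _ _ en Γ B x y w hT hB hx hy hw hwx hwy
  obtain ⟨hP, hBΓ, hxy, hin⟩ := id hB
  obtain ⟨dx, dy⟩ := (hPD1 en).1 B x y hP hxy
  have hk : ∀ v, (v ∉ spt en B ∧ v ≠ x ∧ v ≠ y ∧ dgr en (Γ \ B) v = dgr en Γ v) ∨
      ((v = x ∨ v = y) ∧ dgr en (Γ \ B) v = 2) ∨
      (dgr en (Γ \ B) v = 0 ∧ dgr en Γ v = 2) := by
    intro v
    have h0 := dgr_sdiff (en := en) hBΓ v
    by_cases h1 : v = x
    · subst h1; exact Or.inr (Or.inl ⟨Or.inl rfl, by omega⟩)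
    by_cases h2 : v = y
    · subst h2; exact Or.inr (Or.inl ⟨Or.inr rfl, by omega⟩)
    by_cases h3 : v ∈ spt en B
    · have h4 := hin v h3 h1 h2
      have h5 := (hPD1 en).2.1 B x y v hP h3 h1 h2
      exact Or.inr (Or.inr ⟨by omega, h4⟩)
    · have h4 := dgr_eq_zero h3
      exact Or.inl ⟨h3, h1, h2, by omega⟩
  have h3 : ∀ v, dgr en (Γ \ B) v = 3 → v ∉ spt en B ∧ v ≠ x ∧ v ≠ y ∧ dgr en Γ v = 3 := by
    intro v hv
    rcases hk v with ⟨a, b, c, d⟩ | ⟨-, d⟩ | ⟨d, -⟩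
    · exact ⟨a, b, c, by omega⟩
    · omega
    · omega
  have h0 : ∀ v, dgr en (Γ \ B) v ≠ 0 → (v ∉ spt en B ∨ v = x ∨ v = y) ∧ dgr en Γ v ≠ 0 := by
    intro v hv
    have := dgr_mono (en := en) (sdiff_subset : Γ \ B ⊆ Γ) v
    refine ⟨?_, by omega⟩
    rcases hk v with ⟨a, -⟩ | ⟨a, -⟩ | ⟨d, -⟩
    · exact Or.inl a
    · exact Or.inr a
    · exact absurd d hv
  by_contra hc
  rw [not_or] at hc
  obtain ⟨hc1, hc2⟩ := hc
  apply hc1
  refine ⟨hT.nl.mono sdiff_subset, fun v => ?_, ⟨w, ?_⟩, ?_, ?_⟩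
  · have := hT.dg v
    rcases hk v with ⟨-, -, -, d⟩ | ⟨-, d⟩ | ⟨d, -⟩ <;> omega
  · rcases hk w with ⟨-, -, -, d⟩ | ⟨a | a, -⟩ | ⟨-, d⟩
    · omega
    · exact absurd a hwx
    · exact absurd a hwy
    · omega
  · rintro Y ⟨u, hu, du⟩ ⟨u', hu', du'⟩
    obtain ⟨a1, a2, a3, a4⟩ := h3 u du
    obtain ⟨b1, b2, b3, b4⟩ := h3 u' du'
    obtain ⟨Y', e1, -, e3, e4, e5, -⟩ := (hARC en Γ B x y hT.nl hB).2.2 Y
    have k1 : u ∈ Y' := (e1 u (Or.inl a1)).2 hu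
    have k2 : u' ∉ Y' := fun h => hu' ((e1 u' (Or.inl b1)).1 h)
    have kx := e1 x (Or.inr (Or.inl rfl))
    have ky := e1 y (Or.inr (Or.inr rfl))
    have k3 := card_cut_sdiff (en := en) (Y := Y') hBΓ
    rw [e3] at k3
    have k4 := hT.c3 Y' ⟨u, k1, a4⟩ ⟨u', k2, b4⟩
    by_contra hlt
    by_cases hs : (x ∈ Y ↔ y ∈ Y)
    · rw [e4 hs, card_empty] at k3
      omega
    · have k5 := (e5 hs).2
      apply hc2
      by_cases hxY : x ∈ Y
      · refine ⟨Y', kx.2 hxY, fun h => hs ⟨fun _ => ky.1 h, fun _ => hxY⟩, by omega,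
          ⟨u, k1, a2, a4⟩, ⟨u', k2, b3, b4⟩⟩
      · have hyY : y ∈ Y := by
          by_contra h
          exact hs ⟨fun h' => absurd h' hxY, fun h' => absurd h' h⟩
        refine ⟨Y'ᶜ, fun h => hxY (kx.1 h), fun h => h (ky.2 hyY), by rw [cut_compl]; omega,
          ⟨u', k2, b2, b4⟩, ⟨u, fun h => h k1, a3, a4⟩⟩
  · rintro Y ⟨u, hu, du⟩ ⟨u', hu', du'⟩
    obtain ⟨a1, a2⟩ := h0 u du
    obtain ⟨b1, b2⟩ := h0 u' du'
    obtain ⟨Y', e1, -, e3, e4, e5, -⟩ := (hARC en Γ B x y hT.nl hB).2.2 Y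
    have k1 : u ∈ Y' := (e1 u a1).2 hu
    have k2 : u' ∉ Y' := fun h => hu' ((e1 u' b1).1 h)
    have k3 := card_cut_sdiff (en := en) (Y := Y') hBΓ
    rw [e3] at k3
    have k4 := (hTCB en Γ hT).2.1 Y' ⟨u, k1, a2⟩ ⟨u', k2, b2⟩
    rw [← card_pos]
    by_cases hs : (x ∈ Y ↔ y ∈ Y)
    · rw [e4 hs, card_empty] at k3
      omega
    · have k5 := (e5 hs).2
      omega

end Pool.Agent.P.MP_bb4f54_co.T3

end sDEL

section sRCP
/-! Step RCP. -/

set_option autoImplicit false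
set_option linter.unusedSectionVars false

namespace Pool.Agent.P.MP_bb4f54_co.T3

open Finset

namespace RCPx

variable {V ι : Type} {en : ι → Sym2 V} {A : Finset ι} {v : V}

theorem mem_reach {i : ι} (hi : i ∈ A) {w : V} (hw : w ∈ en i) (h : Rc en A v w) :
    i ∈ ins en A {u | Rc en A v u} := by
  refine mem_ins.2 ⟨hi, fun u hu => ?_⟩
  by_cases e : w = u
  · exact e ▸ h
  · exact h.trans' (Rc.step hi ((Sym2.mem_and_mem_iff e).1 ⟨hw, hu⟩))

theorem ev_reach (h : ∀ w, Rc en A v w → Even (dgr en A w)) :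
    Ev en (ins en A {u | Rc en A v u}) := by
  intro w
  by_cases hw : Rc en A v w
  · have : cut en (ins en A {u | Rc en A v u}) {w} = cut en A {w} := by
      refine (cut_mono ins_subset).antisymm fun i hi => ?_
      obtain ⟨h1, h2, h3⟩ := mem_cut_single.1 hi
      exact mem_cut_single.2 ⟨mem_reach h1 h2 hw, h2, h3⟩
    rw [dgr, this]
    exact h w hw
  · rw [dgr_eq_zero fun ⟨i, hi, hv⟩ => hw ((mem_ins.1 hi).2 w hv)]
    exact Even.zero

end RCPx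

open RCPx in
theorem p_RCP (hPAR : S_PAR) (hODA : S_ODA) :
    S_RCP := by
  intro V ι _ _ _ en
  obtain ⟨-, -, o3, o4, -, o6, -, -⟩ := hODA en
  have h1 : ∀ A x y, Od en A x y → ∃ B ⊆ A, Pth en B x y := by
    intro A x y
    induction A using Finset.strongInduction with
    | H A ih =>
      intro h
      by_cases ha : Acy en A
      · exact ⟨A, subset_rfl, h, ha⟩
      · simp only [Acy, not_forall] at ha
        obtain ⟨D, hD, hev, hne⟩ := ha
        obtain ⟨B, hB, hp⟩ := ih (A \ D) (sdiff_ssubset hD (nonempty_iff_ne_empty.2 hne))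
          (o4 A D x y hD h hev)
        exact ⟨B, hB.trans sdiff_subset, hp⟩
  have h3 : ∀ A x y, Od en A x y → Rc en A x y := by
    intro A x y h
    have := (hPAR en A).2.2.1 x y h {v | Rc en A x v}
    rw [cut_rc] at this
    by_contra hc
    exact absurd (this.2 fun e => hc (e.1 Rc.refl')) (by simp)
  refine ⟨h1, fun Γ x y h => ?_, h3, fun A x y v hp ⟨i, hi, hv⟩ => ?_,
    fun Z u v hZ ⟨i, hi, hu⟩ ⟨j, hj, hv⟩ => ?_⟩
  · have : ∃ A ⊆ Γ, Od en A x y := by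
      induction h with
      | refl => exact ⟨∅, empty_subset _, pth_self.1⟩
      | tail _ h ih =>
        obtain ⟨i, hi, e⟩ := h
        obtain ⟨A, hA, ho⟩ := ih
        exact ⟨_, symmDiff_le_sup.trans (union_subset hA (singleton_subset_iff.2 hi)),
          o3 _ _ _ _ _ ho (o6 i _ _ e)⟩
    obtain ⟨A, hA, ho⟩ := this
    obtain ⟨B, hB, hp⟩ := h1 A x y ho
    exact ⟨B, hB.trans hA, hp⟩
  · by_contra hc
    have hev : Ev en (ins en A {u | Rc en A v u}) := ev_reach fun w hw => by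
      rw [← Nat.not_odd_iff_even, hp.1 w, not_not]
      exact iff_of_false (fun e => hc (e ▸ hw.symm'))
        fun e => hc ((h3 A x y hp.1).trans' (e ▸ hw.symm'))
    have := mem_reach hi hv (Rc.refl' (en := en) (Γ := A))
    rw [hp.2 _ ins_subset hev] at this
    exact notMem_empty _ this
  · have := mem_reach hi hu (Rc.refl' (en := en) (Γ := Z))
    rcases hZ.2.2 _ ins_subset (ev_reach (v := u) fun w _ => hZ.2.1 w) with e | e
    · rw [e] at this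
      exact absurd this (notMem_empty _)
    · rw [← e] at hj
      exact (mem_ins.1 hj).2 v hv

end Pool.Agent.P.MP_bb4f54_co.T3

end sRCP

section sTHE
/-! Step THE. -/

set_option autoImplicit false
set_option linter.unusedSectionVars false

namespace Pool.Agent.P.MP_bb4f54_co.T3

open Finset

theorem p_THE (hPAR : S_PAR) (hTR0 : S_TR0) :
    S_THE := by
  intro V ι _ _ _ en Γ W ρ ua ub uc p a b c h hab
  subst hab
  have hc := h.rt.cub
  have h3 : dgr en Γ ρ = 3 := hc.dg ρ h.rt.hρ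
  have hcard : ({a, b, c} : Finset ι).card = 3 := by rw [← h.rt.st]; exact h3
  obtain ⟨nab, nac, nbc⟩ := ne_of_card_three hcard
  have ha : a ∈ cut en Γ {ρ} := by rw [h.rt.st]; simp
  have hb : b ∈ cut en Γ {ρ} := by rw [h.rt.st]; simp
  have hcc : c ∈ cut en Γ {ρ} := by rw [h.rt.st]; simp
  have haΓ := (mem_cut_single.1 ha).1
  have hbΓ := (mem_cut_single.1 hb).1
  have hcΓ := (mem_cut_single.1 hcc).1
  have hρa : ρ ≠ ua := by
    intro e
    have := (mem_cut_single.1 ha).2.2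
    rw [h.ea] at this
    exact this (Sym2.mk_isDiag_iff.2 e)
  have hρc : ρ ≠ uc := by
    intro e
    have := (mem_cut_single.1 hcc).2.2
    rw [h.ec] at this
    exact this (Sym2.mk_isDiag_iff.2 e)
  have huaW : ua ∈ W := hc.sp a haΓ ua (by rw [h.ea]; simp)
  have hucW : uc ∈ W := hc.sp c hcΓ uc (by rw [h.ec]; simp)
  have hs := (hPAR en Γ).2.2.2.2.2.2 hc.nl {ρ, ua}
  rw [sum_pair hρa, h3, hc.dg ua huaW] at hs
  have hin : ({a, b} : Finset ι) ⊆ ins en Γ ↑({ρ, ua} : Finset V) := by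
    intro i hi
    rcases mem_insert.1 hi with rfl | hi
    · exact mem_ins.2 ⟨haΓ, by rw [h.ea]; simp⟩
    · rw [mem_singleton.1 hi]
      exact mem_ins.2 ⟨hbΓ, by rw [h.eb]; simp⟩
  have h2 := card_le_card hin
  rw [card_pair nab] at h2
  have hW : ∀ v ∈ W, v = ρ ∨ v = ua := by
    intro v hv
    by_contra hn
    have := hc.c3 ↑({ρ, ua} : Finset V) ⟨ρ, h.rt.hρ, by simp⟩ ⟨v, hv, by simpa using hn⟩
    omega
  have hcu : uc = ua := (hW uc hucW).resolve_left hρc.symm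
  subst hcu
  have hsub : ({a, b, c} : Finset ι) ⊆ cut en Γ {uc} := by
    intro i hi
    simp only [mem_insert, mem_singleton] at hi
    rcases hi with rfl | rfl | rfl
    · exact mem_cut_single.2 ⟨haΓ, by rw [h.ea]; simp, hc.nl _ haΓ⟩
    · exact mem_cut_single.2 ⟨hbΓ, by rw [h.eb]; simp, hc.nl _ hbΓ⟩
    · exact mem_cut_single.2 ⟨hcΓ, by rw [h.ec]; simp, hc.nl _ hcΓ⟩
  have hdu : dgr en Γ uc = 3 := hc.dg uc hucW
  have heq : cut en Γ {uc} = {a, b, c} :=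
    (eq_of_subset_of_card_le hsub (by rw [hcard]; exact hdu.le)).symm
  have hP : PP en Γ p uc = 0 := by
    rw [pp_three heq hdu, h.za, h.zb, h.zc]; simp
  have hbt : bt ≠ 0 := by unfold bt; norm_num
  have hN : NN en Γ W ρ p = 0 := by
    unfold NN
    rw [sum_eq_zero, Real.zero_rpow (one_div_ne_zero hbt)]
    intro v hv
    obtain ⟨h1, h2⟩ := mem_erase.1 hv
    rw [(hW v h2).resolve_left h1, hP, Real.zero_rpow hbt]
  rw [hN, mul_zero]
  exact hTR0 h.rt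

end Pool.Agent.P.MP_bb4f54_co.T3

end sTHE

section sEW0
/-! Step EW0. -/

set_option autoImplicit false
set_option linter.unusedSectionVars false

namespace Pool.Agent.P.MP_bb4f54_co.T3

open Finset

theorem p_EW0 (hEE : S_EE) :
    S_EW0 := by
  intro V ι _ _ _ en Γ W ω hC ⟨ρ, hρ⟩
  obtain ⟨a, b, c, -, -, -, habc⟩ := card_eq_three.1 (hC.dg ρ hρ)
  have h1 : ∀ i, ∃ v, i ∈ Γ → v ∈ en i ∧ v ≠ ρ := fun i => by
    by_cases hi : i ∈ Γ
    · have h2 := hC.nl i hi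
      induction h : en i using Sym2.ind with
      | _ x y =>
        rw [h, Sym2.mk_isDiag_iff] at h2
        by_cases hx : x = ρ
        · exact ⟨y, fun _ => ⟨Sym2.mem_mk_right _ _, fun e => h2 (hx.trans e.symm)⟩⟩
        · exact ⟨x, fun _ => ⟨Sym2.mem_mk_left _ _, hx⟩⟩
    · exact ⟨ρ, fun h => absurd h hi⟩
  choose e he using h1
  set q : V → ι → ℕ := fun v i => if v = e i then ω i else 0 with hq
  have h2 : ∀ Z v, PP en Z (fun v i => (q v i : ℝ)) v = (∑ i ∈ cut en Z {v}, q v i : ℕ) :=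
    fun Z v => by rw [PP, Nat.cast_sum]
  have h3 : ∀ Z ⊆ Γ, val en W ρ (fun v i => (q v i : ℝ)) Z = (∑ i ∈ Z, ω i : ℕ) := fun Z hZ => by
    rw [val]
    simp only [h2]
    rw [← Nat.cast_sum]
    congr 1
    rw [sum_congr rfl fun v _ => sum_subset (cut_subset (Γ := Z) (Y := {v})) fun i hi h => ?_,
      sum_comm]
    · refine sum_congr rfl fun i hi => ?_
      have h4 := he i (hZ hi)
      rw [hq, sum_ite_eq', if_pos (mem_erase.2 ⟨h4.2, hC.sp i (hZ hi) _ h4.1⟩)]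
    · exact if_neg fun e' : v = e i =>
        h (mem_cut_single.2 ⟨hi, e' ▸ (he i (hZ hi)).1, hC.nl i (hZ hi)⟩)
  have h4 : ((∑ i ∈ Γ, ω i : ℕ) : ℝ) ^ (1 / bt) ≤ NN en Γ W ρ fun v i => (q v i : ℝ) := by
    refine Real.rpow_le_rpow (Nat.cast_nonneg _) ?_ (by norm_num [bt])
    rw [← h3 Γ subset_rfl]
    refine sum_le_sum fun v _ => ?_
    rw [h2]
    rcases Nat.eq_zero_or_pos (∑ i ∈ cut en Γ {v}, q v i) with h | h
    · rw [h, Nat.cast_zero]; positivity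
    · exact Real.self_le_rpow_of_one_le (mod_cast h) (by norm_num [bt])
  obtain ⟨Za, z1, Zb, z2, Zc, z3, c1, c2, c3, -, -, -, -, -, -, hv⟩ :=
    hEE V ι (W.card + 1) en Γ W ρ (fun v i => (q v i : ℝ)) a b c (Nat.lt_succ_self _)
      ⟨hC, hρ, habc, fun _ _ => Nat.cast_nonneg _⟩
  rw [h3 _ z1, h3 _ z2, h3 _ z3] at hv
  by_contra hn
  push Not at hn
  linarith [hn _ z1 c1, hn _ z2 c2, hn _ z3 c3]

end Pool.Agent.P.MP_bb4f54_co.T3

end sEW0

section sTDF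
/-! Step TDF. -/

set_option autoImplicit false
set_option linter.unusedSectionVars false

namespace Pool.Agent.P.MP_bb4f54_co.T3

open Finset

theorem p_TDF (hSEG : S_SEG) :
    S_TDF := by
  intro V _ _ Γ v n pos h x y hx hy
  have nx : 1 < n x := lt_of_le_of_lt (h.p0 x hx) (h.pn x hx)
  have ny : 1 < n y := lt_of_le_of_lt (h.p0 y hy) (h.pn y hy)
  have cx := h.co x hx 1 Nat.one_pos nx
  have cy := h.co y hy 1 Nat.one_pos ny
  refine ⟨fun e => ⟨?_, fun e2 => ?_⟩, fun e => ?_, fun hne => ?_⟩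
  · rw [← cy.2.1, ← cx.2.1, e]
  · have a := h.vx y hy
    rw [e, e2, h.vx x hx] at a
    exact a.symm
  · rw [← cy.1, ← cx.1, e]
  · have key : ∀ i j, 0 < i → i < n x → j ≤ n y → v x i ≠ v y j := by
      intro i j hi0 hin hj e
      have d2 : dgr id Γ (v y j) = 2 := e ▸ (h.sg x hx).dg i hi0 hin
      rcases Nat.eq_zero_or_pos j with rfl | hj0
      · exact h.e0 y hy d2
      rcases hj.eq_or_lt with rfl | hjn
      · exact h.e1 y hy d2
      apply hne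
      rw [← (h.co y hy j hj0 hjn).1, ← (h.co x hx i hi0 hin).1, e]
    refine ⟨?_, key⟩
    rw [Finset.disjoint_left]
    intro e he1 he2
    obtain ⟨i, -, hi, rfl⟩ := mem_ES.1 he1
    obtain ⟨j, -, hj, e⟩ := mem_ES.1 he2
    rcases Nat.eq_zero_or_pos i with rfl | hi0
    · rcases Sym2.eq_iff.1 e with ⟨-, e2⟩ | ⟨-, e2⟩
      · exact key 1 (j + 1) Nat.one_pos nx hj e2
      · exact key 1 j Nat.one_pos nx hj.le e2
    · rcases Sym2.eq_iff.1 e with ⟨e2, -⟩ | ⟨e2, -⟩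
      · exact key i j hi0 hi hj.le e2
      · exact key i (j + 1) hi0 hi hj e2

end Pool.Agent.P.MP_bb4f54_co.T3

end sTDF

section sMIN1
/-! Step MIN1. -/

set_option autoImplicit false
set_option linter.unusedSectionVars false

namespace Pool.Agent.P.MP_bb4f54_co.T3

open Finset

theorem p_MIN1 (hPAR : S_PAR) (hFOR : S_FOR) (hFST : S_FST) :
    S_MIN1 := by
  intro V _ _ G S B Γ h hB
  obtain ⟨e, he⟩ := h.ne
  obtain ⟨he, x, y, e1, hx, hy⟩ := mem_cut.1 he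
  obtain rfl : e = s(x, y) := e1
  have hA := hFST Γ ↑S y h.tc hy (h.nb x hx y hy (mk_mem_EG.1 he)) fun A a b hA hs _ _ ht => by
    have h1 := h.mn _ ht (by
      ext i
      simp only [mem_sdiff]
      exact ⟨fun t => ⟨t.1.1, t.2⟩, fun t => ⟨⟨t.1, fun u =>
        t.2 (mem_ins.2 ⟨h.sub t.1, (mem_ins.1 (hs u)).2⟩)⟩, t.2⟩⟩)
    have h2 := card_sdiff_add_card_eq_card hA.2.1
    obtain rfl : A = ∅ := card_eq_zero.1 (by omega)
    have h3 := (hA.1.1 a).2 (by simpa using hA.2.2.1)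
    simp at h3
  have h1 := hFOR id _ (S.filter fun v => dgr id Γ v ≠ 0) hA (by
    rintro v ⟨i, hi, hv⟩
    exact mem_coe.2 (mem_filter.2
      ⟨(mem_ins.1 hi).2 v hv, h.tc.nl.dgr_ne ⟨i, ins_subset hi, hv⟩⟩))
  have h2 := (hPAR id Γ).2.2.2.2.2.2 h.tc.nl S
  have h3 := card_le_card (cut_mono (en := id) (Y := ↑S) h.sub)
  obtain rfl : B = S.filter fun v => dgr id Γ v = 3 := by ext u; rw [hB, mem_filter]
  have h4 : 2 * (S.filter fun v => dgr id Γ v ≠ 0).card +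
      (S.filter fun v => dgr id Γ v = 3).card ≤ ∑ v ∈ S, dgr id Γ v := by
    rw [card_filter, card_filter, mul_sum, ← sum_add_distrib]
    refine sum_le_sum fun v _ => ?_
    rcases h.tc.dg v with t | t | t <;> simp [t]
  omega

end Pool.Agent.P.MP_bb4f54_co.T3

end sMIN1
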