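import Pool.Agent.P.MP_bb4f54_co.T3.Iface7
import Pool.Agent.P.MP_bb4f54_co.T3.Iface1
import Pool.Agent.P.MP_bb4f54_co.T3.Iface3
import Pool.Agent.P.MP_bb4f54_co.T3.Iface2
import Pool.Agent.P.MP_bb4f54_co.T3.Iface6

section sTWO
/-! Step TWO. -/

set_option autoImplicit false
set_option linter.unusedSectionVars false

namespace Pool.Agent.P.MP_bb4f54_co.T3

open Finset

namespace TWOx

variable {V : Type} [DecidableEq V] {A B Z M₁ M₂ : Finset (Sym2 V)} {S : Set V}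

lemma dj {x : V} (hA : spt id A ⊆ S) (hB : NL id B) (h : ∀ w ∈ spt id B, w ∈ S → w = x) :
    Disjoint A B := by
  rw [disjoint_left]
  intro e h1 h2
  refine hB e h2 ?_
  induction e using Sym2.ind with
  | _ a b =>
    have g1 := h a ⟨_, h2, by simp⟩ (hA ⟨_, h1, by simp⟩)
    have g2 := h b ⟨_, h2, by simp⟩ (hA ⟨_, h1, by simp⟩)
    simp [g1, g2]

lemma dj0 (h : ∀ w ∈ spt id A, w ∉ spt id B) : Disjoint A B := by
  rw [disjoint_left]
  intro e h1 h2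
  induction e using Sym2.ind with
  | _ a b => exact h a ⟨_, h1, by simp⟩ ⟨_, h2, by simp⟩

lemma side {a₁ a₂ b₁ b₂ : V} (hZ : Ev id Z)
    (hd : ∀ v, dgr id Z v = dgr id A v + dgr id B v + dgr id M₁ v + dgr id M₂ v)
    (hA : spt id A ⊆ S) (hB : ∀ w ∈ spt id B, w ∉ S) (h1 : Od id M₁ a₁ b₁) (h2 : Od id M₂ a₂ b₂)
    (g1 : a₁ ∈ S) (g2 : a₂ ∈ S) (g3 : b₁ ∉ S) (g4 : b₂ ∉ S) : Od id A a₁ a₂ := by
  intro v
  by_cases hv : v ∈ S
  · have k0 : dgr id B v = 0 := dgr_eq_zero fun h => hB v h hv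
    have k1 : Odd (dgr id M₁ v) ↔ v = a₁ := by
      have : v ≠ b₁ := fun h => g3 (h ▸ hv)
      rw [h1 v]; tauto
    have k2 : Odd (dgr id M₂ v) ↔ v = a₂ := by
      have : v ≠ b₂ := fun h => g4 (h ▸ hv)
      rw [h2 v]; tauto
    have k3 := hZ v
    rw [hd v, k0, Nat.even_iff] at k3
    rw [← k1, ← k2]
    simp only [Nat.odd_iff]
    omega
  · have k1 : v ≠ a₁ := fun h => hv (h ▸ g1)
    have k2 : v ≠ a₂ := fun h => hv (h ▸ g2)
    rw [dgr_eq_zero fun h => hv (hA h)]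
    simp [k1, k2]

end TWOx

open TWOx in
theorem p_TWO (hODA : S_ODA) (hCAT : S_CAT) (hWAR : S_WAR) :
    S_TWO := by
  intro V _ _ Γ X L D l r M Z Q h hW hZ hC hM hh hLH
  obtain ⟨ρ₁, ρ₂, π₁, π₂, P₁, P₂, n1, n2, n3, n4, n5, n6, p1, p2, rfl, s1, s2, s3⟩ := hLH
  have hMd := (hWAR hW).2.2.1
  obtain ⟨ZL, hZL⟩ : ∃ A, A = ins id Z L := ⟨_, rfl⟩
  obtain ⟨ZN, hZN⟩ : ∃ A, A = ins id Z (L ∪ D)ᶜ := ⟨_, rfl⟩
  have sL : spt id ZL ⊆ L := fun w ⟨e, he, hw⟩ => (mem_ins.1 (hZL ▸ he)).2 w hw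
  have sN : spt id ZN ⊆ (L ∪ D)ᶜ := fun w ⟨e, he, hw⟩ => (mem_ins.1 (hZN ▸ he)).2 w hw
  have LD : ∀ w ∈ L, w ∉ D := fun w h1 h2 => Set.disjoint_left.1 hW.dLD h1 h2
  have rN : ∀ ρ, r ρ ∈ (L ∪ D)ᶜ := fun ρ g => g.elim (hW.hr ρ).1 (hW.hr ρ).2
  have lN : ∀ ρ, l ρ ∉ (L ∪ D)ᶜ := fun ρ g => g (Or.inl (hW.hl ρ))
  have tL : ∀ {w ρ π}, w ∈ D ∨ w = l ρ ∨ w = r π → w ∈ L → w = l ρ := by
    rintro w ρ π (g | g | g) hw
    · exact absurd g (LD w hw)
    · exact g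
    · exact absurd (g ▸ hw) (hW.hr π).1
  have tN : ∀ {w ρ π}, w ∈ D ∨ w = l ρ ∨ w = r π → w ∈ (L ∪ D)ᶜ → w = r π := by
    rintro w ρ π (g | g | g) hw
    · exact absurd (Or.inr g) hw
    · exact absurd (g ▸ hw) (lN ρ)
    · exact g
  have dLM : ∀ ρ, Disjoint ZL (M ρ) := fun ρ =>
    dj sL (hW.pth ρ).2.nl fun w hw => tL (hW.sp ρ w hw)
  have dNM : ∀ ρ, Disjoint ZN (M ρ) := fun ρ =>
    dj sN (hW.pth ρ).2.nl fun w hw => tN (hW.sp ρ w hw)
  have dLN : Disjoint ZL ZN := dj0 fun w g1 g2 => sN g2 (Or.inl (sL g1))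
  have LZ : ZL ⊆ Z := hZL ▸ ins_subset
  have NZ : ZN ⊆ Z := hZN ▸ ins_subset
  have cov : ∀ e ∈ Z, e ∈ ZL ∨ e ∈ ZN ∨ ∃ ρ, e ∈ M ρ := by
    intro e he
    obtain ⟨g1, g2⟩ := mem_sdiff.1 (hZ he)
    rcases hW.cov e g1 with g | g | g | g
    · exact Or.inl (hZL ▸ mem_ins.2 ⟨he, g⟩)
    · exact Or.inr (Or.inl (hZN ▸ mem_ins.2 ⟨he, fun w hw k => k.elim (g w hw).1 (g w hw).2⟩))
    · exact absurd g g2
    · exact Or.inr (Or.inr g)
  have e1 : Z \ (M 0 ∪ M 1 ∪ M 2) = ZL ∪ ZN := by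
    ext e
    simp only [mem_sdiff, mem_union]
    constructor
    · rintro ⟨g1, g2⟩
      rcases cov e g1 with g | g | ⟨ρ, g⟩
      · exact Or.inl g
      · exact Or.inr g
      · refine absurd ?_ g2
        fin_cases ρ
        · exact Or.inl (Or.inl g)
        · exact Or.inl (Or.inr g)
        · exact Or.inr g
    · rintro (g | g)
      · have := fun ρ => disjoint_left.1 (dLM ρ) g
        exact ⟨LZ g, by simp [this]⟩
      · have := fun ρ => disjoint_left.1 (dNM ρ) g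
        exact ⟨NZ g, by simp [this]⟩
  have hd : ∀ a b : Fin 3, a ≠ b → a ≠ h → b ≠ h → ∀ v,
      dgr id Z v = dgr id ZL v + dgr id ZN v + dgr id (M a) v + dgr id (M b) v := by
    intro a b g1 g2 g3 v
    have e2 : Z = ZL ∪ ZN ∪ M a ∪ M b := by
      refine Subset.antisymm (fun e he => ?_)
        (union_subset (union_subset (union_subset LZ NZ) (hM a g2)) (hM b g3))
      simp only [mem_union]
      rcases cov e he with g | g | ⟨ρ, g⟩
      · tauto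
      · tauto
      · have : ρ = h ∨ ρ = a ∨ ρ = b := by omega
        rcases this with rfl | rfl | rfl
        · exact absurd he (disjoint_left.1 hh g)
        · tauto
        · tauto
    conv_lhs => rw [e2]
    rw [dgr_union (by simp [disjoint_union_left, dLM, dNM, hMd a b g1]),
      dgr_union (by simp [disjoint_union_left, dLM, dNM]), dgr_union dLN]
  have acy : ∀ A ⊆ Z, Disjoint A (M ρ₁) → Acy id A := by
    intro A g1 g2 E g3 g4
    refine (hC.2.2 E (g3.trans g1) g4).resolve_right fun g => ?_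
    obtain ⟨e, he, -⟩ := ((hODA id).2.2.2.2.2.2.2 _ _ _ (hW.pth ρ₁).1
      fun k => (hW.hr ρ₁).1 (k ▸ hW.hl ρ₁)).1
    exact disjoint_left.1 g2 (g3 (g ▸ hM ρ₁ n2 he)) he
  have pL : Pth id ZL (l ρ₂) (l ρ₁) := ⟨(side hC.2.1 (hd _ _ n1 n2 n3) sL
    (fun w g1 g2 => sN g1 (Or.inl g2)) (hW.pth _).1 (hW.pth _).1 (hW.hl _) (hW.hl _)
    (hW.hr _).1 (hW.hr _).1).symm, acy _ LZ (dLM _)⟩
  have pN : Pth id ZN (r π₁) (r π₂) := ⟨side hC.2.1 (B := ZL)
    (fun v => by rw [hd _ _ n4 n5 n6 v, add_comm (dgr id ZL v)]) sN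
    (fun w g1 g2 => g2 (Or.inl (sL g1))) (hW.pth _).1.symm (hW.pth _).1.symm (rN _) (rN _)
    (lN _) (lN _), acy _ NZ (dNM _)⟩
  obtain ⟨c1, c2, -⟩ := hCAT (V := V) id
  have q1 := (c1 _ _ _ _ _ pL p1 fun w g1 g2 => tL (s1 w g2) (sL g1)).2
  have q2 := (c1 _ _ _ _ _ q1 pN fun w g1 g2 => by
    rw [spt_union] at g1
    rcases g1 with g1 | g1
    · exact absurd (Or.inl (sL g1)) (sN g2)
    · exact tN (s1 w g1) (sN g2)).2
  have q3 := c2 _ _ _ _ q2 p2 (fun k => (hW.hr π₂).1 (k ▸ hW.hl ρ₂))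
    (by
      rw [disjoint_union_left, disjoint_union_left]
      exact ⟨⟨dj sL p2.2.nl fun w hw => tL (s2 w hw), dj0 s3⟩,
        dj sN p2.2.nl fun w hw => tN (s2 w hw)⟩)
    fun w g1 g2 => by
      rw [spt_union, spt_union] at g1
      rcases g1 with (g1 | g1) | g1
      · exact Or.inl (tL (s2 w g2) (sL g1))
      · exact absurd g2 (s3 w g1)
      · exact Or.inr (tN (s2 w g2) (sN g1))
  rw [e1]
  convert q3 using 1
  ext e
  simp only [mem_union]
  tauto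

end Pool.Agent.P.MP_bb4f54_co.T3

end sTWO

section sLVL
/-! Step LVL. -/

set_option autoImplicit false
set_option linter.unusedSectionVars false

namespace Pool.Agent.P.MP_bb4f54_co.T3

open Finset

namespace LVLx

variable {V : Type}

/-- The cuts increase along the sequence. -/
lemma chain {Y : ℕ → Set V} {B : V → Prop} {M : ℕ}
    (h : ∀ i, i + 1 < M → ∀ u, B u → u ∈ Y i → u ∈ Y (i + 1)) (i j : ℕ) (hij : i ≤ j) :
    j < M → ∀ u, B u → u ∈ Y i → u ∈ Y j := by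
  induction j, hij using Nat.le_induction with
  | base => exact fun _ _ _ h => h
  | succ j _ ih => exact fun hj u hu h1 => h j hj u hu (ih (by omega) u hu h1)

/-- Inside a fibre all cuts agree on the branch vertices. -/
lemma same {Y : ℕ → Set V} {B : V → Prop} {M : ℕ} {E : Finset V} {a b : ℕ → V}
    (hE : ∀ u ∈ E, B u) (ha : ∀ i, i < M → a i ∈ E ∧ b i ∈ E)
    (h : ∀ i, i + 1 < M → (∀ u, B u → u ∈ Y i → u ∈ Y (i + 1)) ∧
      (((∀ u, B u → (u ∈ Y i ↔ u ∈ Y (i + 1))) ∧ ¬ (a (i + 1) ∈ Y i ↔ b (i + 1) ∈ Y i)) ∨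
        (a (i + 1) ∈ Y (i + 1) ∧ a (i + 1) ∉ Y i) ∨ (b (i + 1) ∈ Y (i + 1) ∧ b (i + 1) ∉ Y i)))
    (i j : ℕ) (hij : i ≤ j) : j < M → (∀ u ∈ E, u ∈ Y j → u ∈ Y i) →
      (∀ u, B u → (u ∈ Y j ↔ u ∈ Y i)) ∧ (i < j → ¬ (a j ∈ Y i ↔ b j ∈ Y i)) := by
  induction j, hij using Nat.le_induction with
  | base => exact fun _ _ => ⟨fun _ _ => Iff.rfl, fun h => absurd h (lt_irrefl _)⟩
  | succ j _ ih =>
    intro hj hs
    obtain ⟨h1, h2⟩ := h j hj
    obtain ⟨h3, -⟩ := ih (by omega) fun u hu h4 => hs u hu (h1 u (hE u hu) h4)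
    obtain ⟨ea, eb⟩ := ha (j + 1) hj
    rcases h2 with ⟨h4, h5⟩ | ⟨h4, h5⟩ | ⟨h4, h5⟩
    · refine ⟨fun u hu => (h4 u hu).symm.trans (h3 u hu), fun _ h6 => h5 ?_⟩
      rw [h3 _ (hE _ ea), h3 _ (hE _ eb)]
      exact h6
    · exact absurd ((h3 _ (hE _ ea)).2 (hs _ ea h4)) h5
    · exact absurd ((h3 _ (hE _ eb)).2 (hs _ eb h4)) h5

end LVLx

theorem p_LVL (hTDF : S_TDF) (hTDC : S_TDC) (hNEST : S_NEST) (hCXB : S_CXB) (hK2S : S_K2S) :
    S_LVL := by
  intro V _ _ G S T O Γ v n pos R N m σ e E hC hS hE hET h8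
  classical
  obtain ⟨M, rfl⟩ | rfl : (∃ M, N = M + 1) ∨ N = 0 := by
    cases N with
    | zero => exact Or.inr rfl
    | succ M => exact Or.inl ⟨M, rfl⟩
  swap
  · exact Nat.zero_le _
  have td := hC.c0.td
  have dT := hC.c0.sk.dT
  have rail := (hCXB hC.c0).1
  have hx : (σ 0).x ∈ T := (hS.uc 0 (by omega)).hx
  have hy : ∀ i, i < M + 1 → (σ i).y ∈ T := fun i hi => (hS.uc i hi).hy
  have e0 : v (σ 0).x = e := hS.on 0 (by omega)
  have n0 : n (σ 0).x = m := hS.nn 0 (by omega)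
  have hY : ∀ i, ∃ Y : Set V, i < M → (cut id Γ Y).card ≤ 3 ∧ e 0 ∈ Y ∧ (σ i).y ∈ Y ∧ e m ∉ Y ∧
      (σ (i + 1)).y ∉ Y := by
    intro i
    by_cases hi : i < M
    · obtain ⟨Y, hY⟩ := hK2S i (i + 1) (σ i).y (σ (i + 1)).y hC hS (by omega) (by omega)
        (Or.inl rfl) (hS.off i (by omega)) (Or.inl rfl) (hS.off (i + 1) (by omega))
      exact ⟨Y, fun _ => hY⟩
    · exact ⟨∅, fun h => absurd h hi⟩
  choose Y hY using hY
  have the : Thr Γ e m := by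
    have := (rail _ hx).th
    rwa [e0, n0] at this
  have hN : ∀ i, i + 1 < M → (∀ u, dgr id Γ u = 3 → u ∈ Y i → u ∈ Y (i + 1)) ∧
      (((∀ u, dgr id Γ u = 3 → (u ∈ Y i ↔ u ∈ Y (i + 1))) ∧
        ¬ (v (σ (i + 1)).y 0 ∈ Y i ↔ v (σ (i + 1)).y (n (σ (i + 1)).y) ∈ Y i)) ∨
        (v (σ (i + 1)).y 0 ∈ Y (i + 1) ∧ v (σ (i + 1)).y 0 ∉ Y i) ∨
        (v (σ (i + 1)).y (n (σ (i + 1)).y) ∈ Y (i + 1) ∧
          v (σ (i + 1)).y (n (σ (i + 1)).y) ∉ Y i)) := by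
    intro i hi
    have h1 := hy (i + 1) (by omega)
    obtain ⟨a1, a2, a3, a4, a5⟩ := hY i (by omega)
    obtain ⟨b1, b2, b3, b4, b5⟩ := hY (i + 1) hi
    have hd := ((hTDF Γ v n pos td (σ 0).x (σ (i + 1)).y (dT _ hx) (dT _ h1)).2.2
      (by rw [e0]; exact hS.off (i + 1) (by omega))).1
    rw [e0, n0] at hd
    have hv := td.vx _ (dT _ h1)
    exact hNEST Γ e (v (σ (i + 1)).y) m (n (σ (i + 1)).y) (pos (σ (i + 1)).y) (Y i) (Y (i + 1))
      hC.c0.tc the (rail _ h1).th hd a1 b1 a2 b2 a4 b4 (td.pn _ (dT _ h1)).le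
      (by rw [hv]; exact a5) (by rw [hv]; exact b3)
  have hsame := LVLx.same (a := fun i => v (σ i).y 0) (b := fun i => v (σ i).y (n (σ i).y)) hE
    (fun i hi => hET _ (hy i (by omega))) hN
  have key : (range M).card ≤ 17 * ((range M).image fun i => E.filter (· ∈ Y i)).card := by
    refine card_le_mul_card_image _ 17 fun τ hτ => ?_
    set F := (range M).filter fun i => E.filter (· ∈ Y i) = τ with hF
    have hne : F.Nonempty := by
      obtain ⟨i, hi, h⟩ := mem_image.1 hτ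
      exact ⟨i, mem_filter.2 ⟨hi, h⟩⟩
    have m0 := F.min'_mem hne
    have l0 : ∀ i ∈ F, F.min' hne ≤ i := fun i hi => F.min'_le i hi
    generalize F.min' hne = i0 at m0 l0
    have hM : ∀ i ∈ F, i < M := fun i hi => mem_range.1 (mem_filter.1 hi).1
    have hsp : ∀ i ∈ F.erase i0, ¬ (v (σ i).y 0 ∈ Y i0 ↔ v (σ i).y (n (σ i).y) ∈ Y i0) := by
      intro i hi
      obtain ⟨h1, h2⟩ := mem_erase.1 hi
      refine (hsame i0 i (l0 i h2) (hM i h2) fun u hu h3 => ?_).2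
        (lt_of_le_of_ne (l0 i h2) (Ne.symm h1))
      have h4 : u ∈ E.filter (· ∈ Y i) := mem_filter.2 ⟨hu, h3⟩
      rw [(mem_filter.1 h2).2, ← (mem_filter.1 m0).2] at h4
      exact (mem_filter.1 h4).2
    obtain ⟨a1, a2, -, a4, -⟩ := hY i0 (hM i0 m0)
    have hyF : ∀ i ∈ F.erase i0, (σ i).y ∈ T := fun i hi =>
      hy i (by have := hM i (mem_of_mem_erase hi); omega)
    have c1 := (hTDC Γ v n pos (insert (σ 0).x ((F.erase i0).image fun i => (σ i).y)) td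
      (fun x hx' => by
        rcases mem_insert.1 hx' with rfl | hx'
        · exact dT _ hx
        · obtain ⟨i, hi, rfl⟩ := mem_image.1 hx'
          exact dT _ (hyF i hi))).2.1 (Y i0) (fun x hx' => by
        rcases mem_insert.1 hx' with rfl | hx'
        · rw [n0, e0]
          exact fun h => a4 (h.1 a2)
        · obtain ⟨i, hi, rfl⟩ := mem_image.1 hx'
          exact hsp i hi)
    rw [image_insert, image_image, card_insert_of_notMem (by
      intro h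
      obtain ⟨i, hi, h⟩ := mem_image.1 h
      have := (hTDF Γ v n pos td (σ 0).x (σ i).y (dT _ hx) (dT _ (hyF i hi))).2.1 h
      exact hS.off i (by have := hM i (mem_of_mem_erase hi); omega) (this.trans e0))] at c1
    have c2 : (F.erase i0).card ≤
        8 * ((F.erase i0).image ((fun x => v x 1) ∘ fun i => (σ i).y)).card := by
      refine card_le_mul_card_image _ 8 fun b _ => h8 _ (fun i hi => ?_) fun i hi j hj => ?_
      · have := hM i (mem_of_mem_erase (mem_filter.1 hi).1)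
        omega
      · obtain ⟨h1, h2⟩ := mem_filter.1 hi
        obtain ⟨h3, h4⟩ := mem_filter.1 hj
        exact (hTDF Γ v n pos td (σ j).y (σ i).y (dT _ (hyF j h3)) (dT _ (hyF i h1))).2.1
          (h2.trans h4.symm)
    have c3 := card_erase_add_one m0
    omega
  have sub : ((range M).image fun i => E.filter (· ∈ Y i)) ⊆ Trc Γ E (e 0) (e m) := by
    intro τ hτ
    obtain ⟨i, hi, rfl⟩ := mem_image.1 hτ
    obtain ⟨a1, a2, -, a4, -⟩ := hY i (mem_range.1 hi)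
    simp only [Trc, mem_filter, mem_powerset]
    exact ⟨filter_subset _ _, Y i, a1, a2, a4, fun u hu => by simp [hu]⟩
  have := card_le_card sub
  rw [card_range] at key
  omega

end Pool.Agent.P.MP_bb4f54_co.T3

end sLVL

section sLFT
/-! Step LFT. -/

set_option autoImplicit false
set_option linter.unusedSectionVars false

namespace Pool.Agent.P.MP_bb4f54_co.T3

open Finset

namespace LFTx

variable {V ι : Type} {en : ι → Sym2 V} {Y : Set V} {y₀ v : V} {Z : Finset ι}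

lemma cut_y (hy : y₀ ∈ Y) : cut (ctr en Y y₀) Z {y₀} = cut en Z Y := by
  have : pj Y y₀ ⁻¹' {y₀} = Y := by
    ext w
    by_cases h : w ∈ Y
    · simp [pj, h]
    · simp only [pj, Set.mem_preimage, if_neg h, Set.mem_singleton_iff]
      exact ⟨fun e => e ▸ hy, fun e => absurd e h⟩
  exact (cut_map (pj Y y₀)).trans (by rw [this])

lemma cut_v (hy : y₀ ∈ Y) (hv : v ∉ Y) : cut (ctr en Y y₀) Z {v} = cut en Z {v} := by
  have : pj Y y₀ ⁻¹' {v} = {v} := by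
    ext w
    by_cases h : w ∈ Y
    · simp only [pj, Set.mem_preimage, if_pos h, Set.mem_singleton_iff]
      constructor <;> rintro rfl
      · exact absurd hy hv
      · exact absurd h hv
    · simp [pj, h]
  exact (cut_map (pj Y y₀)).trans (by rw [this])

lemma pp_mono {p : V → ι → ℝ} (hp : ∀ v i, 0 ≤ p v i) {Z' : Finset ι} (h : Z ⊆ Z') :
    PP en Z p v ≤ PP en Z' p v :=
  sum_le_sum_of_subset_of_nonneg (cut_mono h) fun i _ _ => hp v i

lemma core [DecidableEq V] {W W₁ W₂ : Finset V} {ρ : V} {p p₂ : V → ι → ℝ} {Z₁ Z₂ : Finset ι}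
    (hρ : ρ ∉ Y) (hy : y₀ ∈ Y) (h1 : ∀ v, v ∈ W₁ ↔ v = ρ ∨ (v ∈ W ∧ v ∈ Y))
    (h2 : ∀ v, v ∈ W₂ ↔ v = y₀ ∨ (v ∈ W ∧ v ∉ Y)) (he : ∀ v, v ≠ y₀ → p₂ v = p v)
    (hp : ∀ v i, 0 ≤ p v i) (s1 : Z₁ ⊆ Z) (s2 : Z₂ ⊆ Z)
    (hs : ∑ i ∈ cut en Z₂ Y, p₂ y₀ i ≤ val (ctr en Yᶜ ρ) W₁ ρ p Z₁) :
    val (ctr en Y y₀) W₂ ρ p₂ Z₂ ≤ val en W ρ p Z := by
  classical
  have e1 : W₁.erase ρ = (W.erase ρ).filter (· ∈ Y) := by
    ext w
    simp only [mem_erase, h1, mem_filter]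
    tauto
  have e2 : W₂.erase ρ = insert y₀ ((W.erase ρ).filter (· ∉ Y)) := by
    ext w
    simp only [mem_erase, h2, mem_filter, mem_insert]
    constructor
    · tauto
    · rintro (rfl | h)
      · exact ⟨fun e => hρ (e ▸ hy), Or.inl rfl⟩
      · tauto
  rw [val, e1] at hs
  rw [val, val, e2, sum_insert (by simp [hy]), ← sum_filter_add_sum_filter_not (W.erase ρ) (· ∈ Y)]
  refine add_le_add ?_ (sum_le_sum fun w hw => ?_)
  · rw [PP, cut_y hy]
    refine hs.trans (sum_le_sum fun w hw => ?_)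
    rw [PP, cut_v (Y := Yᶜ) hρ (not_not.2 (mem_filter.1 hw).2)]
    exact pp_mono hp s1
  · have hw' := (mem_filter.1 hw).2
    rw [PP, cut_v hy hw', he w (fun e => hw' (e ▸ hy))]
    exact pp_mono hp s2

lemma sub3 [DecidableEq ι] {k l m : ι} {S : Finset ι} (h : S ⊆ {k, l, m})
    (h3 : ({k, l, m} : Finset ι).card = 3) (he : Even S.card) :
    S = ∅ ∨ S = {l, m} ∨ S = {k, m} ∨ S = {k, l} := by
  obtain ⟨a, b, c⟩ := ne_of_card_three h3
  have key : ∀ T : Finset ι, T ⊆ {k, l, m} → (k ∈ S ↔ k ∈ T) → (l ∈ S ↔ l ∈ T) →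
      (m ∈ S ↔ m ∈ T) → S = T := fun T hT x y z => by
    ext i
    constructor
    · intro hi
      have := h hi
      simp only [mem_insert, mem_singleton] at this
      rcases this with rfl | rfl | rfl <;> tauto
    · intro hi
      have := hT hi
      simp only [mem_insert, mem_singleton] at this
      rcases this with rfl | rfl | rfl <;> tauto
  have a' := a.symm
  have b' := b.symm
  have c' := c.symm
  by_cases hk : k ∈ S <;> by_cases hl : l ∈ S <;> by_cases hm : m ∈ S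
  · rw [key {k, l, m} subset_rfl (by simp [*]) (by simp [*]) (by simp [*]), h3] at he
    exact absurd he (by decide)
  · exact Or.inr (Or.inr (Or.inr (key _ (by simp [insert_subset_iff]) (by simp [*]) (by simp [*])
      (by simp [*]))))
  · exact Or.inr (Or.inr (Or.inl (key _ (by simp [insert_subset_iff]) (by simp [*]) (by simp [*])
      (by simp [*]))))
  · rw [key {k} (by simp) (by simp [*]) (by simp [*]) (by simp [*]), card_singleton] at he
    exact absurd he (by decide)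
  · exact Or.inr (Or.inl (key _ (by simp) (by simp [*]) (by simp [*])
      (by simp [*])))
  · rw [key {l} (by simp) (by simp [*]) (by simp [*]) (by simp [*]), card_singleton] at he
    exact absurd he (by decide)
  · rw [key {m} (by simp) (by simp [*]) (by simp [*]) (by simp [*]), card_singleton] at he
    exact absurd he (by decide)
  · exact Or.inl (key _ (by simp) (by simp [*]) (by simp [*]) (by simp [*]))

end LFTx

open LFTx in
theorem p_LFT (hPAR : S_PAR) (hCON : S_CON) (hGLU : S_GLU) :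
    S_LFT := by
  intro V ι _ _ _ en Γ W W₁ W₂ ρ y₀ Y p p₂ k l m Zk Zl Zm _ _ hρ _ hy hc h3 h1 h2 sk sl sm ck cl
    cm uk ul um he vk vl vm hp Z₂ s2 c2
  obtain ⟨g1, g2⟩ := hGLU en Γ Z₂ Y ρ y₀ hy hρ s2 c2
  have s2' : Z₂ ⊆ Γ := s2.trans tch_subset
  rw [hc] at h3
  obtain ⟨a, b, c⟩ := ne_of_card_three h3
  have pr : ∀ (Z₁ : Finset ι) (i j : ι), i ≠ j → Z₁ ⊆ tch en Γ Y → Cy (ctr en Yᶜ ρ) Z₁ →
      cut en Z₁ Y = {i, j} → p₂ y₀ i + p₂ y₀ j = val (ctr en Yᶜ ρ) W₁ ρ p Z₁ →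
      cut en Z₂ Y = {i, j} →
      ∃ Z ⊆ Γ, Cy en Z ∧ Z₂ ⊆ Z ∧ val (ctr en Y y₀) W₂ ρ p₂ Z₂ ≤ val en W ρ p Z :=
    fun Z₁ i j hij s1 c1 u1 v1 u2 =>
      ⟨Z₁ ∪ Z₂, union_subset (s1.trans tch_subset) s2',
        g2 Z₁ s1 c1 (u1.trans u2.symm) (u2 ▸ insert_nonempty _ _), subset_union_right,
        core hρ hy h1 h2 he hp subset_union_left subset_union_right
          (by rw [u2, sum_pair hij, v1])⟩
  have hev : Even (cut en Z₂ Y).card := by
    have := c2.2.1 y₀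
    rwa [dgr, cut_y hy] at this
  rcases sub3 (hc ▸ cut_mono s2') h3 hev with e | e | e | e
  · exact ⟨Z₂, s2', g1 e, subset_rfl, core (Z₁ := ∅) hρ hy h1 h2 he hp (empty_subset _) subset_rfl
      (by rw [e, sum_empty]; exact val_nonneg hp)⟩
  · exact pr Zk l m c sk ck uk vk e
  · exact pr Zl k m b sl cl ul vl e
  · exact pr Zm k l a sm cm um vm e

end Pool.Agent.P.MP_bb4f54_co.T3

end sLFT

section sF1c
/-! Step F1c. -/

set_option autoImplicit false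
set_option linter.unusedSectionVars false

namespace Pool.Agent.P.MP_bb4f54_co.T3

open Finset

namespace F1cx

/-- The part of a walk after its last vertex in `M`. -/
lemma last {V : Type} {G : SimpleGraph V} (M : Set V) {a b : V} (w : G.Walk a b) :
    (∀ u ∈ w.support, u ∉ M) ∨ ∃ c ∈ M, ∃ w' : G.Walk c b, w'.length ≤ w.length ∧
      (∀ u ∈ w'.support, u ∈ w.support) ∧ ∀ u ∈ w'.support, u ∈ M → u = c := by
  induction w with
  | @nil a =>
    by_cases h : a ∈ M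
    · exact Or.inr ⟨a, h, SimpleGraph.Walk.nil, le_rfl, fun u hu => hu, fun u hu _ => by
        simpa using hu⟩
    · exact Or.inl fun u hu => by
        have : u = a := by simpa using hu
        rwa [this]
  | @cons a c b h p ih =>
    rcases ih with ih | ⟨d, hd, w', h1, h2, h3⟩
    · by_cases ha : a ∈ M
      · refine Or.inr ⟨a, ha, SimpleGraph.Walk.cons h p, le_rfl, fun u hu => hu, fun u hu hM => ?_⟩
        rw [SimpleGraph.Walk.support_cons, List.mem_cons] at hu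
        exact hu.resolve_right fun hu => ih u hu hM
      · refine Or.inl fun u hu => ?_
        rw [SimpleGraph.Walk.support_cons, List.mem_cons] at hu
        rcases hu with rfl | hu
        · exact ha
        · exact ih u hu
    · refine Or.inr ⟨d, hd, w', ?_, fun u hu => ?_, h3⟩
      · rw [SimpleGraph.Walk.length_cons]; omega
      · rw [SimpleGraph.Walk.support_cons]; exact List.mem_cons_of_mem _ (h2 u hu)

lemma side (hODA : S_ODA) (hSPP : S_SPP) (hCAT : S_CAT) {V : Type} [Fintype V] [DecidableEq V]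
    {G : SimpleGraph V} {Γ P : Finset (Sym2 V)} {T O : Finset V} {R L : ℕ} {σ : St V} {t a : V}
    (hTO : ∀ u ∈ T, u ∉ O) (hU : Ucl G Γ T O R σ) (hk : σ.k ∈ O) (ht : t ∈ T) (htx : t ≠ σ.x)
    (htz : t ≠ σ.z) (haO : a ∈ O) (ha : a = σ.k ∨ a ∈ spt id σ.A) (hP : P ⊆ EG G)
    (hp : Pth id P a t) (hc : P.card ≤ L) (hO : ∀ v ∈ spt id P, v ∈ O ∨ v = t)
    (hM : ∀ v ∈ spt id P, v ∈ spt id σ.A ∨ v ∈ spt id σ.B → v = a) :
    ∃ σ' : St V, Ucl G Γ T O (R + L) σ' ∧ σ'.x = σ.x ∧ σ'.k = σ.k ∧ σ'.y = t ∧ σ'.z = σ.z := by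
  have hkind : ∀ w ∈ spt id σ.A, w ∈ spt id σ.B → w = σ.k := by
    rcases hU.kind with h | h
    · exact h.2.2
    · exact absurd (h.1 ▸ hk) (hTO _ hU.hy)
  obtain ⟨A₁, h1, h2, h3⟩ : ∃ A₁ ⊆ σ.A, Pth id A₁ σ.k a ∧ ∀ w ∈ spt id A₁, w ∈ O := by
    rcases ha with ha | ha
    · exact ⟨∅, empty_subset _, ha ▸ pth_self, by simp⟩
    · obtain ⟨A₁, A₂, e, -, p1, p2, hm⟩ := (hSPP id σ.A σ.k σ.y hU.pA).1 a ha
      have hs : A₁ ⊆ σ.A := e ▸ subset_union_left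
      refine ⟨A₁, hs, p1, fun w hw => (hU.iA w (spt_mono hs hw)).resolve_right fun e => ?_⟩
      have hay : a ≠ σ.y := fun e => hTO _ hU.hy (e ▸ haO)
      have := ((hODA id).2.2.2.2.2.2.2 A₂ a σ.y p2.1 hay).2
      exact hay (hm σ.y (e ▸ hw) this).symm
  obtain ⟨-, hq⟩ := (hCAT id).1 A₁ P σ.k a t h2 hp fun w hw hw' =>
    hM w hw' (Or.inl (spt_mono h1 hw))
  refine ⟨⟨σ.x, σ.k, t, σ.z, A₁ ∪ P, σ.B⟩, ⟨hU.hx, ht, hU.hz, htx, hU.zx, hU.adj, hU.fr, hq, hU.pB,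
    union_subset (h1.trans hU.sA) hP, hU.sB, ?_, hU.cB.trans (Nat.le_add_right _ _), ?_, hU.iB,
    Or.inl ⟨hk, htz, ?_⟩⟩, rfl, rfl, rfl, rfl⟩
  · exact (card_union_le _ _).trans (Nat.add_le_add ((card_le_card h1).trans hU.cA) hc)
  · intro w hw
    change w ∈ spt id (A₁ ∪ P) at hw
    rw [spt_union] at hw
    rcases hw with hw | hw
    · exact Or.inl (h3 w hw)
    · exact hO w hw
  · intro w hw hw'
    change w ∈ spt id (A₁ ∪ P) at hw
    rw [spt_union] at hw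
    rcases hw with hw | hw
    · exact hkind w (spt_mono h1 hw) hw'
    · have e := hM w hw (Or.inr hw')
      rcases ha with ha | ha
      · exact e.trans ha
      · exact hkind w (e ▸ ha) hw'

end F1cx

open F1cx in
theorem p_F1c (hODA : S_ODA) (hSPP : S_SPP) (hCAT : S_CAT) (hWLK : S_WLK) :
    S_F1c := by
  intro V _ _ G Γ T O R L σ t hTO hU hk ht htx ⟨w, hl, hw⟩
  by_cases hty : t = σ.y
  · exact Or.inl hty
  by_cases htz : t = σ.z
  · exact Or.inr (Or.inl htz)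
  refine Or.inr (Or.inr ?_)
  rcases last {v | v = σ.k ∨ v ∈ spt id σ.A ∨ v ∈ spt id σ.B} w with h | ⟨a, ha, w', h1, h2, h3⟩
  · exact absurd (Or.inl rfl) (h σ.k w.start_mem_support)
  have haO : a ∈ O := by
    refine (hw a (h2 a w'.start_mem_support)).resolve_right fun e => ?_
    subst e
    rcases ha with ha | ha | ha
    · exact hTO _ ht (ha ▸ hk)
    · exact (hU.iA _ ha).elim (hTO _ ht) hty
    · exact (hU.iB _ ha).elim (hTO _ ht) htz
  obtain ⟨P, hP, hp, hc, -, hs⟩ := (hWLK G).2.1 a t w'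
  have hO : ∀ v ∈ spt id P, v ∈ O ∨ v = t := fun v hv => hw v (h2 v (hs v hv))
  have hM : ∀ v ∈ spt id P, v ∈ spt id σ.A ∨ v ∈ spt id σ.B → v = a :=
    fun v hv h => h3 v (hs v hv) (Or.inr h)
  have hc' : P.card ≤ L := hc.trans (h1.trans hl)
  by_cases hB : a ∈ spt id σ.B
  · obtain ⟨σ', u, e1, e2, e3, e4⟩ := side hODA hSPP hCAT (σ := σ.sw) hTO hU.sw hk ht htx hty haO
      (Or.inr hB) hP hp hc' hO fun v hv h => hM v hv h.symm
    exact ⟨σ'.sw, u.sw, e1, e2, Or.inr ⟨e4, e3⟩⟩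
  · obtain ⟨σ', u, e1, e2, e3, e4⟩ := side hODA hSPP hCAT hTO hU hk ht htx htz haO
      (ha.imp id fun h => h.resolve_right hB) hP hp hc' hO hM
    exact ⟨σ', u, e1, e2, Or.inl ⟨e3, e4⟩⟩

end Pool.Agent.P.MP_bb4f54_co.T3

end sF1c

section sW3E
/-! Step W3E. -/

set_option autoImplicit false
set_option linter.unusedSectionVars false

namespace Pool.Agent.P.MP_bb4f54_co.T3

open Finset

namespace W3Ex

lemma spt1 {V : Type} {a b w : V} : w ∈ spt id ({s(a, b)} : Finset (Sym2 V)) ↔ w = a ∨ w = b := by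
  simp [mem_spt]

/-- The three legs of a structure. -/
def lg {V : Type} (σ : St V) : Fin 3 → Finset (Sym2 V) := ![{s(σ.x, σ.k)}, σ.A, σ.B]

lemma lg_zn {V : Type} (σ : St V) (ρ : Fin 3) {w : V} (h : w ∈ spt id (lg σ ρ)) : w ∈ σ.zn := by
  fin_cases ρ
  · exact (spt1.1 h).imp id Or.inl
  · exact .inr (.inr (.inr (.inr (.inl h))))
  · exact .inr (.inr (.inr (.inr (.inr h))))

end W3Ex

open W3Ex in
theorem p_W3E (hODA : S_ODA) (hFRE : S_FRE) (hCXB : S_CXB) (hRG : S_RG) (hW3a : S_W3a) :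
    S_W3E := by
  intro V _ _ G S T O Γ v n pos R m mw σ e w Ys q hC Q W hz
  obtain ⟨u, mu, c, ru, u0, u1, d1, d2, hc, mc⟩ := hW3a hC Q W hz
  have U : ∀ i, i < 7 → Ucl G Γ T O R (σ (i + 1)) := fun i hi => Q.uc _ (by omega)
  have dx : ∀ i, i < 7 → dgr id Γ (σ (i + 1)).x = 2 := fun i hi => hC.c0.sk.dT _ (U i hi).hx
  have ex : ∀ i, i < 7 → e (pos (σ (i + 1)).x) = (σ (i + 1)).x := fun i hi => by
    rw [← Q.on (i + 1) (by omega)]; exact hC.c0.td.vx _ (dx i hi)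
  have hq := fun i (hi : i < 7) => W.hq (i + 1) (by omega)
  have hc' := fun i (hi : i < 7) => hc (i + 1) (by omega) (by omega)
  have kd : ∀ i, i < 7 → (σ (i + 1)).k ∈ O ∧
      ∀ t ∈ spt id (σ (i + 1)).A, t ∈ spt id (σ (i + 1)).B → t = (σ (i + 1)).k := by
    intro i hi
    rcases (U i hi).kind with h | h
    · exact ⟨h.1, h.2.2⟩
    · refine absurd ?_ ((hCXB hC.c0).2.2.2.2.2 w mw u mu W.rw ru d2 _ _ (hq i hi).1
        (hq i hi).2.1 (hc' i hi).2.1.le)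
      rw [(hq i hi).2.2, (hc' i hi).2.2, ← h.1, h.2]
  have xO : ∀ i, i < 7 → (σ (i + 1)).x ∉ O := fun i hi =>
    (hFRE hC.c0.g3 hC.c0.sk).2.2.1 _ (U i hi).hx
  have zn : ∀ i j, i < j → j < 7 → ∀ t ∈ (σ (i + 1)).zn, t ∉ (σ (j + 1)).zn := fun i j hij hj =>
    (hRG _ hC (U i (by omega))).2 _ (U j hj)
      ((Q.on _ (by omega)).trans (Q.on _ (by omega)).symm) (Q.gap _ _ (by omega) (by omega))
  have lA : ∀ i, i < 7 → ∀ t ∈ spt id (lg (σ (i + 1)) 0), t ∈ spt id (σ (i + 1)).A →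
      t = (σ (i + 1)).k := fun i hi t h1 h2 => (spt1.1 h1).resolve_left fun e =>
    ((U i hi).iA t h2).elim (fun h => xO i hi (e ▸ h)) fun h => (U i hi).yx (h.symm.trans e)
  have lB : ∀ i, i < 7 → ∀ t ∈ spt id (lg (σ (i + 1)) 0), t ∈ spt id (σ (i + 1)).B →
      t = (σ (i + 1)).k := fun i hi t h1 h2 => (spt1.1 h1).resolve_left fun e =>
    ((U i hi).iB t h2).elim (fun h => xO i hi (e ▸ h)) fun h => (U i hi).zx (h.symm.trans e)
  refine ⟨![e, w, u], ![m, mw, mu],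
    ![fun i => pos (σ (i + 1)).x, fun i => q (i + 1), fun i => c (i + 1)],
    fun i => (σ (i + 1)).k, fun i => lg (σ (i + 1)), fun ρ => ?_, fun ρ ρ' h => ?_, W.c3,
    fun ρ => ?_, fun ρ => ?_, fun ρ i hi => ?_, fun ρ i j hij hj => ?_, fun i hi => (kd i hi).1,
    fun i hi ρ => ?_, fun i hi => ?_, fun i hi ρ ρ' h t h1 h2 => ?_,
    fun i j hi hj h ρ ρ' t h1 h2 => ?_⟩
  · fin_cases ρ
    exacts [W.re, W.rw, ru]
  · fin_cases ρ <;> fin_cases ρ' <;> first | exact absurd rfl h | skip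
    exacts [W.dj, d1, W.dj.symm, d2, d1.symm, d2.symm]
  · fin_cases ρ
    exacts [W.e0, W.w0, u0]
  · fin_cases ρ
    exacts [W.em, W.wm, u1]
  · fin_cases ρ
    exacts [⟨hC.c0.td.p0 _ (dx i hi), (hC.c0.td.pn _ (dx i hi)).trans_eq (Q.nn _ (by omega))⟩,
      ⟨(hq i hi).1, (hq i hi).2.1⟩, ⟨(hc' i hi).1, (hc' i hi).2.1⟩]
  · fin_cases ρ
    exacts [(Nat.le_add_right _ _).trans_lt (Q.gap (i + 1) (j + 1) (by omega) (by omega)),
      W.mo _ _ (by omega) (by omega), mc _ _ (by omega) (by omega) (by omega)]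
  · fin_cases ρ
    · change Pth id _ _ (e (pos _)) ∧ _ ∧ ∀ t ∈ _, _ ∨ t = e (pos _)
      rw [ex i hi]
      exact ⟨((hODA id).2.2.2.2.2.2.1 _ _ _ rfl (U i hi).adj.ne).symm,
        singleton_subset_iff.2 (mk_mem_EG.2 (U i hi).adj),
        fun t ht => (spt1.1 ht).elim .inr fun h => .inl (by rw [h]; exact (kd i hi).1)⟩
    · change Pth id _ _ (w (q _)) ∧ _ ∧ ∀ t ∈ _, _ ∨ t = w (q _)
      rw [(hq i hi).2.2]
      exact ⟨(U i hi).pA, (U i hi).sA, (U i hi).iA⟩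
    · change Pth id _ _ (u (c _)) ∧ _ ∧ ∀ t ∈ _, _ ∨ t = u (c _)
      rw [(hc' i hi).2.2]
      exact ⟨(U i hi).pB, (U i hi).sB, (U i hi).iB⟩
  · change _ = {s(e (pos _), _)}
    rw [ex i hi]
    rfl
  · fin_cases ρ <;> fin_cases ρ' <;> first | exact absurd rfl h | skip
    exacts [lA i hi t h1 h2, lB i hi t h1 h2, lA i hi t h2 h1, (kd i hi).2 t h1 h2,
      lB i hi t h2 h1, (kd i hi).2 t h2 h1]
  · rcases Nat.lt_or_gt_of_ne h with h | h
    · exact zn i j h hj t (lg_zn _ _ h1) (lg_zn _ _ h2)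
    · exact zn j i h hi t (lg_zn _ _ h2) (lg_zn _ _ h1)

end Pool.Agent.P.MP_bb4f54_co.T3

end sW3E

section sNRM
/-! Step NRM. -/

set_option autoImplicit false
set_option linter.unusedSectionVars false

namespace Pool.Agent.P.MP_bb4f54_co.T3

open Finset

namespace NRMx

theorem b1 : 1 ≤ bt := by unfold bt; norm_num

theorem b0 : 0 < bt := one_pos.trans_le b1

theorem sum_le {V : Type} (s : Finset V) (x : V → ℝ) (hx : ∀ v ∈ s, 0 ≤ x v) :
    ∑ v ∈ s, x v ^ bt ≤ (∑ v ∈ s, x v) ^ bt := by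
  classical
  induction s using Finset.induction_on with
  | empty => simp [Real.zero_rpow b0.ne']
  | insert a s ha ih =>
    have h1 : ∀ v ∈ s, 0 ≤ x v := fun v hv => hx v (mem_insert_of_mem hv)
    rw [sum_insert ha, sum_insert ha]
    exact (add_le_add le_rfl (ih h1)).trans
      (Real.add_rpow_le_rpow_add (hx a (mem_insert_self a s)) (sum_nonneg h1) b1)

theorem l1 {V : Type} (s : Finset V) (x : V → ℝ) (hx : ∀ v ∈ s, 0 ≤ x v) :
    (∑ v ∈ s, x v ^ bt) ^ (1 / bt) ≤ ∑ v ∈ s, x v := by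
  refine (Real.rpow_le_rpow (sum_nonneg fun v hv => Real.rpow_nonneg (hx v hv) _) (sum_le s x hx)
    (one_div_pos.2 b0).le).trans_eq ?_
  rw [one_div, Real.rpow_rpow_inv (sum_nonneg hx) b0.ne']

end NRMx

theorem p_NRM :
    S_NRM := by
  refine ⟨fun x y hx hy => Real.add_rpow_le_rpow_add hx hy NRMx.b1, fun {V} s x hx =>
    ⟨fun d hd => (Real.Lp_add_le_of_nonneg s NRMx.b1 hx hd).trans
      (add_le_add le_rfl (NRMx.l1 s d hd)), NRMx.l1 s x hx, fun N hN N0 => ?_⟩⟩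
  have h0 : ∀ v ∈ s, 0 ≤ x v / N := fun v hv => div_nonneg (hx v hv) N0.le
  have h1 : N ^ bt = ∑ v ∈ s, x v ^ bt := by
    rw [hN, one_div, Real.rpow_inv_rpow (sum_nonneg fun v hv => Real.rpow_nonneg (hx v hv) _)
      NRMx.b0.ne']
  have h2 : ∑ v ∈ s, (x v / N) ^ bt = 1 := by
    rw [sum_congr rfl fun v hv => Real.div_rpow (hx v hv) N0.le bt, ← sum_div, ← h1,
      div_self (Real.rpow_pos_of_pos N0 _).ne']
  have h3 : ∀ v ∈ s, x v / N ≤ 1 := fun v hv => by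
    by_contra hc
    have a := Real.one_lt_rpow (not_le.1 hc) NRMx.b0
    have b := single_le_sum (f := fun v => (x v / N) ^ bt)
      (fun v hv => Real.rpow_nonneg (h0 v hv) _) hv
    linarith
  refine ⟨h2 ▸ sum_le_sum fun v hv => ?_, fun d hd => ?_⟩
  · rw [← Real.rpow_two]
    exact Real.rpow_le_rpow_of_exponent_ge' (h0 v hv) (h3 v hv) NRMx.b0.le
      (by unfold bt; norm_num)
  · have hc : (99 / 49 : ℝ).HolderConjugate bt := by
      rw [Real.holderConjugate_iff]; unfold bt; norm_num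
    have a := Real.inner_le_Lp_mul_Lq_of_nonneg s hc (f := fun v => (x v / N) ^ (49 / 50 : ℝ))
      (g := fun v => x v - d v) (fun v hv => Real.rpow_nonneg (h0 v hv) _)
      fun v hv => sub_nonneg.2 (hd v hv).2
    have b : ∑ v ∈ s, ((x v / N) ^ (49 / 50 : ℝ)) ^ (99 / 49 : ℝ) = 1 := by
      rw [← h2]
      refine sum_congr rfl fun v hv => ?_
      rw [← Real.rpow_mul (h0 v hv)]
      congr 1
      unfold bt; norm_num
    rw [b, Real.one_rpow, one_mul] at a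
    refine le_trans ?_ a
    have c : N = ∑ v ∈ s, N * (x v / N) ^ bt := by rw [← mul_sum, h2, mul_one]
    conv_lhs => congr; rw [c]
    rw [← sum_sub_distrib]
    refine sum_le_sum fun v hv => ?_
    have e1 : (x v / N) ^ bt = (x v / N) ^ (49 / 50 : ℝ) * (x v / N) := by
      rw [← Real.rpow_add_one' (h0 v hv) (by norm_num)]
      congr 1
      unfold bt; norm_num
    have e2 : N * ((x v / N) ^ (49 / 50 : ℝ) * (x v / N)) = (x v / N) ^ (49 / 50 : ℝ) * x v := by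
      field_simp
    have e3 := Real.geom_mean_le_arith_mean2_weighted (w₁ := 49 / 50) (w₂ := 1 / 50)
      (by norm_num) (by norm_num) (h0 v hv) zero_le_one (by norm_num)
    rw [Real.one_rpow, mul_one] at e3
    have e4 : (x v / N) ^ (49 / 50 : ℝ) ≤ x v / N + 1 / 50 := by linarith [h0 v hv]
    have e5 := mul_le_mul_of_nonneg_right e4 (hd v hv).1
    rw [e1, e2, mul_sub]
    linarith

end Pool.Agent.P.MP_bb4f54_co.T3

end sNRM

section sGE
/-! Step GE. -/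

set_option autoImplicit false
set_option linter.unusedSectionVars false

namespace Pool.Agent.P.MP_bb4f54_co.T3

open Finset

theorem p_GE (hODA : S_ODA) (hARC : S_ARC) (hTDF : S_TDF) (hADD : S_ADD) (hDIF : S_DIF) (hFRE : S_FRE) (hKA : S_KA) (hCXB : S_CXB) (hGS : S_GS) :
    S_GE := by
  intro V _ _ G S T O Γ v n pos s t h hs ht hD
  have hs2 := h.sk.dT s hs
  have ht2 := h.sk.dT t ht
  obtain ⟨c1, c2, -, c4, -⟩ := hCXB h
  obtain ⟨-, -, -, f4, f5, -⟩ := hFRE h.g3 h.sk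
  by_cases e : v t = v s
  · obtain ⟨en, ep⟩ := (hTDF Γ v n pos h.td s t hs2 ht2).1 e
    have a1 : v s (pos s) = s := h.td.vx s hs2
    have a2 : v s (pos t) = t := by rw [← e]; exact h.td.vx t ht2
    have b1 := h.td.pn s hs2
    have b2 : pos t < n s := en ▸ h.td.pn t ht2
    rcases lt_trichotomy (pos s) (pos t) with l | l | l
    · exact hGS (v s) (n s) (pos s) (pos t) ↑O h (c1 s hs) (h.td.p0 s hs2) l b2
        (by rw [a1, a2]; exact hD) (fun u hu => Or.inl hu)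
    · exact absurd (ep l.symm).symm hD.1
    · exact hGS (v s) (n s) (pos t) (pos s) ↑O h (c1 s hs) (h.td.p0 t ht2) l b1
        (by rw [a1, a2]; exact hD.symm) (fun u hu => Or.inl hu)
  · obtain ⟨hst, R, hR, hc⟩ := hD
    obtain ⟨r1, r2, r3, r4⟩ := hR 0
    have rg : Rung G Γ O (R 0) s t := by
      refine ⟨r1, hst, r2, ?_, r4⟩
      rw [Finset.disjoint_left]
      intro i hi hiΓ
      have nd := r1.2.nl i hi
      induction i using Sym2.ind with
      | _ a b =>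
        have ha := r4 a ⟨_, hi, Sym2.mem_mk_left a b⟩
        have hb := r4 b ⟨_, hi, Sym2.mem_mk_right a b⟩
        have hab : a ≠ b := fun x => nd (Sym2.mk_isDiag_iff.2 x)
        rcases ha with ha | ha | ha
        · exact (f4 a ha b).1 hiΓ
        · rcases hb with hb | hb | hb
          · exact (f4 b hb a).2 hiΓ
          · exact hab (ha.trans hb.symm)
          · exact r3 (ha ▸ hb ▸ hi)
        · rcases hb with hb | hb | hb
          · exact (f4 b hb a).2 hiΓ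
          · refine r3 ?_
            rw [Sym2.eq_swap]
            exact ha ▸ hb ▸ hi
          · exact hab (ha.trans hb.symm)
    obtain ⟨sF, ear⟩ := c4 (R 0) s hs t ht rg
    have dif : Dif id Γ s t := ((hDIF Γ h.tc).2 v n pos h.td s hs2).2 t ht2 e
    obtain ⟨tc', arc, -⟩ := hADD id Γ (R 0) s t h.tc ear hs2 ht2 dif
    obtain ⟨c, hcR, -⟩ := ((hODA (id : Sym2 V → Sym2 V)).2.2.2.2.2.2.2 (R 0) s t r1.1 hst).1
    refine ⟨Γ ∪ R 0, c, ?_, tc', mem_union_right _ hcR, Or.inl (hKA G S _ c ?_)⟩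
    · ext i
      simp only [mem_sdiff, mem_union]
      exact ⟨fun x => ⟨x.1.resolve_right (fun y => x.2 (sF y)), x.2⟩, fun x => ⟨Or.inl x.1, x.2⟩⟩
    · intro Z hZ cy hcZ
      have sZ : R 0 ⊆ Z :=
        ((hARC id (Γ ∪ R 0) (R 0) s t tc'.nl arc).2.1 Z hZ (fun w _ _ _ => cy.2.1 w)).resolve_right
          (fun d => Finset.disjoint_left.1 d hcR hcZ)
      refine ⟨s, t, ↑O, R 0, h.tS hs, h.tS ht, coe_subset.2 h.oS, ⟨hst, R, hR, hc⟩,
        subset_inter sZ sF, r1.1, fun u hu _ _ => ⟨(c2 u hu).le.trans (Nat.zero_le 1), ?_⟩⟩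
      rintro ⟨i, hi, hui⟩
      rw [mem_sdiff, mem_inter] at hi
      exact f5 u hu ⟨i, (mem_union.1 (hZ hi.1.1)).resolve_right hi.2, hui⟩

end Pool.Agent.P.MP_bb4f54_co.T3

end sGE

section sW1
/-! Step W1. -/

set_option autoImplicit false
set_option linter.unusedSectionVars false

namespace Pool.Agent.P.MP_bb4f54_co.T3

open Finset

theorem p_W1 (hSGC : S_SGC) (hMON : S_MON) (hTDF : S_TDF) (hCXB : S_CXB) (hK2S : S_K2S) (hORI : S_ORI) :
    S_W1 := by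
  intro V _ _ G S T O Γ v n pos R m σ e hC hS hy
  have h0 := hC.c0
  have hx0 : (σ 0).x ∈ T := (hS.uc 0 (by norm_num)).hx
  have hyT : ∀ i, i < 9 → (σ i).y ∈ T := fun i hi => (hS.uc i hi).hy
  have hy0 : (σ 0).y ∈ T := hyT 0 (by norm_num)
  have hre : Rail Γ T e m := by
    have := (hCXB h0).1 _ hx0
    rwa [hS.on 0 (by norm_num), hS.nn 0 (by norm_num)] at this
  obtain ⟨Ys, c3, e0, y0, em, y8⟩ := hK2S 0 8 (σ 0).y (σ 8).y hC hS (by norm_num) (by norm_num)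
    (Or.inl rfl) (hS.off 0 (by norm_num)) (Or.inl rfl) (hS.off 8 (by norm_num))
  have d0 := h0.sk.dT _ hy0
  have d8 := h0.sk.dT _ (hyT 8 (by norm_num))
  have dx := h0.sk.dT _ hx0
  have sp : ¬ (v (σ 0).y 0 ∈ Ys ↔ v (σ 0).y (n (σ 0).y) ∈ Ys) := by
    intro hh
    have k := (hSGC Γ (v (σ 0).y) (n (σ 0).y) Ys h0.tc c3 ⟨_, e0, hre.th.d0⟩ ⟨_, em, hre.th.d1⟩
      (h0.td.sg _ d0)).1 hh
    have k0 := k (pos (σ 0).y) (h0.td.pn _ d0).le
    rw [h0.td.vx _ d0] at k0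
    have hn := ((hTDF Γ v n pos h0.td _ _ d0 d8).1 (hy 8 (by norm_num))).1
    have k8 := k (pos (σ 8).y) (by rw [← hn]; exact (h0.td.pn _ d8).le)
    rw [← hy 8 (by norm_num), h0.td.vx _ d8, hy 8 (by norm_num)] at k8
    exact y8 (k8.2 (k0.1 y0))
  obtain ⟨w, mw, rw', w0, wm, es, on⟩ := hORI (σ 0).y Ys h0 hy0 sp
  have hq : ∀ i, ∃ a, i < 9 → 0 < a ∧ a < mw ∧ w a = (σ i).y := by
    intro i
    by_cases hi : i < 9
    · obtain ⟨a, h⟩ := on _ (hyT i hi) (hy i hi)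
      exact ⟨a, fun _ => h⟩
    · exact ⟨0, fun h => absurd h hi⟩
  choose q hq using hq
  refine ⟨w, mw, Ys, q, c3, e0, em, w0, wm, hre, rw', ?_, es, sp, hq, ?_, on⟩
  · rw [es]
    have := ((hTDF Γ v n pos h0.td _ _ dx d0).2.2
      (by rw [hS.on 0 (by norm_num)]; exact hS.off 0 (by norm_num))).1
    rwa [hS.on 0 (by norm_num), hS.nn 0 (by norm_num)] at this
  · intro i j hij hj
    have hi : i < 9 := hij.trans hj
    obtain ⟨Y, c3', e0', yi, em', yj⟩ := hK2S i j (σ i).y (σ j).y hC hS hij hj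
      (Or.inl rfl) (hS.off i hi) (Or.inl rfl) (hS.off j hj)
    exact (hMON Γ w mw (q i) (q j) (e 0) (e m) Ys Y h0.tc rw'.th hre.th.d0 hre.th.d1 c3 c3' e0 e0'
      em em' w0 wm (hq i hi).2.1.le (hq j hj).2.1.le (by rw [(hq i hi).2.2]; exact yi)
      (by rw [(hq j hj).2.2]; exact yj)).1

end Pool.Agent.P.MP_bb4f54_co.T3

end sW1

section sTHR3
/-! Step THR3. -/

set_option autoImplicit false
set_option linter.unusedSectionVars false

namespace Pool.Agent.P.MP_bb4f54_co.T3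

open Finset

theorem p_THR3 (hSEG : S_SEG) (hNCR : S_NCR) (hSGC : S_SGC) (hUNQ : S_UNQ) :
    S_THR3 := by
  intro V _ _ Γ v w u n m r a b c Ys Y Y' hT hv hw hu hd c0 c1 c2 s1 s2 s3 s4 y1 y2 z1 z2 ha hb hc
    wa wb uc uc' h
  have av := ((hSEG Γ v n hv.sg).2.1 0 n hv.pos le_rfl).1
  have aw := ((hSEG Γ w m hw.sg).2.1 0 m hw.pos le_rfl).1
  have g1 := fun (x : ℕ → V) (k : ℕ) (hx : Seg Γ x k) =>
    (hSGC Γ x k Y hT c1 ⟨_, y1, hv.d0⟩ ⟨_, y2, hv.d1⟩ hx).1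
  have g2 := fun (x : ℕ → V) (k : ℕ) (hx : Seg Γ x k) =>
    (hSGC Γ x k Y' hT c2 ⟨_, z1, hv.d0⟩ ⟨_, z2, hv.d1⟩ hx).1
  have k1 : ∀ z, dgr id Γ z = 3 → z ∈ Ys → z ∈ Y := by
    intro z hz h1
    by_contra h2
    have h3 : w m ∉ Y := fun h3 =>
      hNCR id Γ Ys Y (v 0) z (w m) (v n) hT c0 c1 hv.d0 hz hw.d1 hv.d1 s1 y1 h1 h2 s4 h3 s3 y2
    have h4 : w 0 ∈ Y := by
      by_contra h4
      exact h4 ((g1 w m hw.sg (iff_of_false h4 h3) a ha).1 wa)
    exact h2 ((hUNQ id Γ _ _ Ys Y _ _ _ _ (v 0) hT c0 c1 av aw hd s1 y1 s2 h4 s3 y2 s4 h3 hv.d0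
      (iff_of_true s1 y1) z hz).1 h1)
  have k2 : ∀ z, dgr id Γ z = 3 → z ∈ Y' → z ∈ Ys := by
    intro z hz h1
    by_contra h2
    have h3 : w 0 ∈ Y' := by
      by_contra h3
      exact hNCR id Γ Ys Y' (v 0) (w 0) z (v n) hT c0 c2 hv.d0 hw.d0 hz hv.d1 s1 z1 s2 h3 h2 h1
        s3 z2
    have h4 : w m ∉ Y' := fun h4 => wb ((g2 w m hw.sg (iff_of_true h3 h4) b hb).2 h3)
    exact h2 ((hUNQ id Γ _ _ Ys Y' _ _ _ _ (v 0) hT c0 c2 av aw hd s1 z1 s2 h3 s3 z2 s4 h4 hv.d0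
      (iff_of_true s1 z1) z hz).2 h1)
  by_cases h0 : u 0 ∈ Ys
  · have h1 := k1 _ hu.d0 h0
    exact uc ((g1 u r hu.sg (iff_of_true h1 (k1 _ hu.d1 (h.1 h0))) c hc).2 h1)
  · have h1 : u 0 ∉ Y' := fun h1 => h0 (k2 _ hu.d0 h1)
    have h2 : u r ∉ Y' := fun h2 => h0 (h.2 (k2 _ hu.d1 h2))
    exact h1 ((g2 u r hu.sg (iff_of_false h1 h2) c hc).1 uc')

end Pool.Agent.P.MP_bb4f54_co.T3

end sTHR3

section sK2S
/-! Step K2S. -/

set_option autoImplicit false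
set_option linter.unusedSectionVars false

namespace Pool.Agent.P.MP_bb4f54_co.T3

open Finset

namespace K2Sx

theorem rung (hRG0 : S_RG0) {V : Type} [Fintype V] [DecidableEq V] {G : SimpleGraph V}
    {Γ : Finset (Sym2 V)} {T O : Finset V} {R : ℕ} {σ : St V} (h3 : G3 G) (hS : Sk G Γ T O)
    (hU : Ucl G Γ T O R σ) {t : V} (ht : t = σ.y ∨ t = σ.z) :
    t ∈ T ∧ ∃ A, Rung G Γ O A σ.x t ∧ A.card ≤ R + 1 ∧ ∀ w ∈ spt id A, w ∈ σ.zn := by
  rcases ht with rfl | rfl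
  · obtain ⟨h1, h2, h4, -⟩ := hRG0 h3 hS hU
    exact ⟨hU.hy, _, h1, h2, h4⟩
  · obtain ⟨h1, h2, h4, -⟩ := hRG0 h3 hS hU.sw
    refine ⟨hU.hz, _, h1, h2, fun w hw => ?_⟩
    have := h4 w hw
    simp only [St.zn, St.sw, Set.mem_ofPred_eq] at this ⊢
    tauto

end K2Sx

theorem p_K2S (hRG0 : S_RG0) (hRG : S_RG) :
    S_K2S := by
  intro V _ _ G S T O Γ v n pos R N m σ e i j t t' hC hQ hij hj ht he ht' he'
  have hi := hij.trans hj
  obtain ⟨t1, A, a1, a2, a3⟩ := K2Sx.rung hRG0 hC.c0.g3 hC.c0.sk (hQ.uc i hi) ht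
  obtain ⟨t2, A', b1, b2, b3⟩ := K2Sx.rung hRG0 hC.c0.g3 hC.c0.sk (hQ.uc j hj) ht'
  have hv : v (σ j).x = v (σ i).x := (hQ.on j hj).trans (hQ.on i hi).symm
  have hg := hQ.gap i j hij hj
  have hd := (hRG (σ i) hC (hQ.uc i hi)).2 (σ j) (hQ.uc j hj) hv hg
  have := hC.k2 _ (hQ.uc i hi).hx _ (hQ.uc j hj).hx hv t t1 (by rwa [hQ.on i hi]) t' t2
    (by rwa [hQ.on i hi]) A A' a1 b1 (fun w hw hw' => hd w (a3 w hw) (b3 w hw')) (by omega)
  rwa [hQ.on i hi, hQ.nn i hi] at this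

end Pool.Agent.P.MP_bb4f54_co.T3

end sK2S
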