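import Mathlib

/-! Edge sets of multigraphs: cuts, even sets, cycles, paths, subdivisions. -/

set_option autoImplicit false
set_option linter.unusedSectionVars false

namespace Pool.Agent.P.MP_bb4f54_co.T3

open Finset

section gen

variable {V ι : Type}

/-- The edge `e` has exactly one end in `Y`. -/
def Cr (e : Sym2 V) (Y : Set V) : Prop := ∃ x y, e = s(x, y) ∧ x ∈ Y ∧ y ∉ Y

open Classical in
/-- Edges of `Γ` leaving `Y`. -/
noncomputable def cut (en : ι → Sym2 V) (Γ : Finset ι) (Y : Set V) : Finset ι :=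
  Γ.filter (fun i => Cr (en i) Y)

/-- Degree (loops are ignored). -/
noncomputable def dgr (en : ι → Sym2 V) (Γ : Finset ι) (v : V) : ℕ := (cut en Γ {v}).card

open Classical in
/-- Edges with all ends in `U`. -/
noncomputable def ins (en : ι → Sym2 V) (Γ : Finset ι) (U : Set V) : Finset ι :=
  Γ.filter (fun i => ∀ v ∈ en i, v ∈ U)

open Classical in
/-- Edges with an end in `U`. -/
noncomputable def tch (en : ι → Sym2 V) (Γ : Finset ι) (U : Set V) : Finset ι :=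
  Γ.filter (fun i => ∃ v ∈ en i, v ∈ U)

/-- Vertices on the edges of `A`. -/
def spt (en : ι → Sym2 V) (A : Finset ι) : Set V := {v | ∃ i ∈ A, v ∈ en i}

/-- No loops. -/
def NL (en : ι → Sym2 V) (Γ : Finset ι) : Prop := ∀ i ∈ Γ, ¬ (en i).IsDiag

/-- All degrees are even. -/
def Ev (en : ι → Sym2 V) (Z : Finset ι) : Prop := ∀ v, Even (dgr en Z v)

/-- The vertices of odd degree are `x` and `y` (none if `x = y`). -/
def Od (en : ι → Sym2 V) (A : Finset ι) (x y : V) : Prop :=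
  ∀ v, Odd (dgr en A v) ↔ ¬ (v = x ↔ v = y)

/-- No nonempty even subset. -/
def Acy (en : ι → Sym2 V) (A : Finset ι) : Prop := ∀ D ⊆ A, Ev en D → D = ∅

/-- A cycle: a minimal nonempty even set. -/
def Cy (en : ι → Sym2 V) (Z : Finset ι) : Prop :=
  Z.Nonempty ∧ Ev en Z ∧ ∀ D ⊆ Z, Ev en D → D = ∅ ∨ D = Z

/-- A path from `x` to `y` (empty if `x = y`). -/
def Pth (en : ι → Sym2 V) (A : Finset ι) (x y : V) : Prop := Od en A x y ∧ Acy en A

/-- Reachability along edges of `Γ`. -/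
def Rc (en : ι → Sym2 V) (Γ : Finset ι) : V → V → Prop :=
  Relation.ReflTransGen (fun x y => ∃ i ∈ Γ, en i = s(x, y))

/-- A path in `Γ` whose inner vertices have degree two in `Γ`. -/
def Arc (en : ι → Sym2 V) (Γ B : Finset ι) (x y : V) : Prop :=
  Pth en B x y ∧ B ⊆ Γ ∧ x ≠ y ∧ ∀ v ∈ spt en B, v ≠ x → v ≠ y → dgr en Γ v = 2

/-- A 3-edge-connected cubic multigraph with vertex set `W`. -/
structure Cub (en : ι → Sym2 V) (Γ : Finset ι) (W : Finset V) : Prop where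
  nl : NL en Γ
  sp : ∀ i ∈ Γ, ∀ v ∈ en i, v ∈ W
  dg : ∀ v ∈ W, dgr en Γ v = 3
  c3 : ∀ Y : Set V, (∃ v ∈ W, v ∈ Y) → (∃ v ∈ W, v ∉ Y) → 3 ≤ (cut en Γ Y).card

/-- A subdivision of a 3-edge-connected cubic multigraph. -/
structure TC (en : ι → Sym2 V) (Γ : Finset ι) : Prop where
  nl : NL en Γ
  dg : ∀ v, dgr en Γ v = 0 ∨ dgr en Γ v = 2 ∨ dgr en Γ v = 3
  br : ∃ v, dgr en Γ v = 3
  c3 : ∀ Y : Set V, (∃ v ∈ Y, dgr en Γ v = 3) → (∃ v ∉ Y, dgr en Γ v = 3) →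
    3 ≤ (cut en Γ Y).card
  c1 : ∀ Y : Set V, (∃ v ∈ Y, dgr en Γ v ≠ 0) → (∃ v ∉ Y, dgr en Γ v ≠ 0) →
    (cut en Γ Y).Nonempty

variable {en : ι → Sym2 V} {Γ Γ' A B Z : Finset ι} {Y U : Set V} {i : ι} {x y v : V}

lemma cr_mk {Y : Set V} {x y : V} : Cr s(x, y) Y ↔ (x ∈ Y ∧ y ∉ Y) ∨ (y ∈ Y ∧ x ∉ Y) := by
  constructor
  · rintro ⟨a, b, h, ha, hb⟩
    rcases Sym2.eq_iff.1 h with ⟨rfl, rfl⟩ | ⟨rfl, rfl⟩
    · exact Or.inl ⟨ha, hb⟩
    · exact Or.inr ⟨ha, hb⟩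
  · rintro (⟨h1, h2⟩ | ⟨h1, h2⟩)
    · exact ⟨x, y, rfl, h1, h2⟩
    · exact ⟨y, x, Sym2.eq_swap, h1, h2⟩

lemma cr_iff {e : Sym2 V} : Cr e Y ↔ (∃ x ∈ e, x ∈ Y) ∧ ∃ y ∈ e, y ∉ Y := by
  induction e using Sym2.ind with
  | _ a b =>
    rw [cr_mk]
    simp only [Sym2.mem_iff, exists_eq_or_imp, exists_eq_left]
    tauto

lemma cr_compl {e : Sym2 V} : Cr e Yᶜ ↔ Cr e Y := by
  simp only [cr_iff, Set.mem_compl_iff, not_not]; exact and_comm

lemma cr_single {e : Sym2 V} : Cr e {v} ↔ v ∈ e ∧ ¬ e.IsDiag := by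
  induction e using Sym2.ind with
  | _ a b =>
    rw [cr_mk]
    simp only [Set.mem_singleton_iff, Sym2.mem_iff, Sym2.mk_isDiag_iff]
    constructor
    · rintro (⟨rfl, h⟩ | ⟨rfl, h⟩)
      · exact ⟨Or.inl rfl, fun e => h e.symm⟩
      · exact ⟨Or.inr rfl, h⟩
    · rintro ⟨rfl | rfl, h⟩
      · exact Or.inl ⟨rfl, fun e => h e.symm⟩
      · exact Or.inr ⟨rfl, h⟩

lemma cr_map {V' : Type} (f : V → V') {e : Sym2 V} {Y : Set V'} :
    Cr (e.map f) Y ↔ Cr e (f ⁻¹' Y) := by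
  induction e using Sym2.ind with
  | _ a b => simp only [Sym2.map_mk, cr_mk, Set.mem_preimage]

lemma mem_cut : i ∈ cut en Γ Y ↔ i ∈ Γ ∧ Cr (en i) Y := by simp [cut]

lemma mem_cut_single : i ∈ cut en Γ {v} ↔ i ∈ Γ ∧ v ∈ en i ∧ ¬ (en i).IsDiag := by
  rw [mem_cut, cr_single]

lemma mem_cut_mk (h : en i = s(x, y)) :
    i ∈ cut en Γ Y ↔ i ∈ Γ ∧ ((x ∈ Y ∧ y ∉ Y) ∨ (y ∈ Y ∧ x ∉ Y)) := by
  rw [mem_cut, h, cr_mk]

lemma mem_ins : i ∈ ins en Γ U ↔ i ∈ Γ ∧ ∀ v ∈ en i, v ∈ U := by simp [ins]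

lemma mem_tch : i ∈ tch en Γ U ↔ i ∈ Γ ∧ ∃ v ∈ en i, v ∈ U := by simp [tch]

lemma mem_spt : v ∈ spt en A ↔ ∃ i ∈ A, v ∈ en i := Iff.rfl

lemma cut_subset : cut en Γ Y ⊆ Γ := fun _ h => (mem_cut.1 h).1

lemma ins_subset : ins en Γ U ⊆ Γ := fun _ h => (mem_ins.1 h).1

lemma tch_subset : tch en Γ U ⊆ Γ := fun _ h => (mem_tch.1 h).1

lemma cut_mono (h : Γ ⊆ Γ') : cut en Γ Y ⊆ cut en Γ' Y :=
  fun _ hi => mem_cut.2 ⟨h (mem_cut.1 hi).1, (mem_cut.1 hi).2⟩

lemma dgr_mono (h : Γ ⊆ Γ') (v : V) : dgr en Γ v ≤ dgr en Γ' v := card_le_card (cut_mono h)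

lemma spt_mono (h : A ⊆ B) : spt en A ⊆ spt en B := fun _ ⟨i, hi, hv⟩ => ⟨i, h hi, hv⟩

lemma cut_compl : cut en Γ Yᶜ = cut en Γ Y := by
  ext i; simp only [mem_cut, cr_compl]

lemma cut_map {V' : Type} (f : V → V') {Y : Set V'} :
    cut (fun i => (en i).map f) Γ Y = cut en Γ (f ⁻¹' Y) := by
  ext i; simp only [mem_cut, cr_map]

@[simp] lemma cut_empty : cut en ∅ Y = ∅ := by ext i; simp [mem_cut]

@[simp] lemma dgr_empty : dgr en ∅ v = 0 := by simp [dgr]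

@[simp] lemma spt_empty : spt en ∅ = ∅ := by ext v; simp [spt]

lemma ev_empty : Ev en ∅ := fun v => by simp

lemma NL.mono (h : NL en Γ) (h' : Γ' ⊆ Γ) : NL en Γ' := fun i hi => h i (h' hi)

lemma Acy.mono (h : Acy en A) (h' : B ⊆ A) : Acy en B := fun D hD => h D (hD.trans h')

lemma Acy.nl (h : Acy en A) : NL en A := by
  intro i hi hd
  have := h {i} (by simpa using hi) (fun v => by
    have : cut en {i} {v} = ∅ := by
      ext j
      simp only [mem_cut_single, mem_singleton, notMem_empty, iff_false]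
      rintro ⟨rfl, -, h2⟩
      exact h2 hd
    simp [dgr, this])
  simp at this

lemma Od.symm (h : Od en A x y) : Od en A y x := fun v => (h v).trans (by tauto)

lemma Pth.symm (h : Pth en A x y) : Pth en A y x := ⟨h.1.symm, h.2⟩

lemma Arc.symm (h : Arc en Γ B x y) : Arc en Γ B y x :=
  ⟨h.1.symm, h.2.1, h.2.2.1.symm, fun v hv h1 h2 => h.2.2.2 v hv h2 h1⟩

lemma od_self : Od en A x x ↔ Ev en A := by
  simp only [Od, Ev, not_true, iff_false, Nat.not_odd_iff_even]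

lemma pth_self : Pth en ∅ x x := ⟨od_self.2 ev_empty, fun _ h _ => subset_empty.1 h⟩

lemma Pth.eq_empty (h : Pth en A x x) : A = ∅ := h.2 A subset_rfl (od_self.1 h.1)

lemma dgr_eq_zero (h : v ∉ spt en A) : dgr en A v = 0 := by
  rw [dgr, card_eq_zero]
  ext i
  simp only [mem_cut_single, notMem_empty, iff_false]
  exact fun h' => h ⟨i, h'.1, h'.2.1⟩

lemma mem_spt_of_dgr (h : dgr en A v ≠ 0) : v ∈ spt en A := by
  by_contra h'; exact h (dgr_eq_zero h')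

lemma NL.dgr_ne (h : NL en A) (hv : v ∈ spt en A) : dgr en A v ≠ 0 := by
  obtain ⟨i, hi, hv⟩ := hv
  exact (card_pos.2 ⟨i, mem_cut_single.2 ⟨hi, hv, h i hi⟩⟩).ne'

lemma Rc.refl' : Rc en Γ x x := Relation.ReflTransGen.refl

lemma Rc.step (hi : i ∈ Γ) (h : en i = s(x, y)) : Rc en Γ x y :=
  Relation.ReflTransGen.single ⟨i, hi, h⟩

lemma Rc.trans' {z : V} (h : Rc en Γ x y) (h' : Rc en Γ y z) : Rc en Γ x z :=
  Relation.ReflTransGen.trans h h'

lemma Rc.symm' (h : Rc en Γ x y) : Rc en Γ y x := by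
  induction h with
  | refl => exact Rc.refl'
  | tail _ h ih =>
    obtain ⟨i, hi, e⟩ := h
    exact (Rc.step hi (e.trans Sym2.eq_swap)).trans' ih

lemma Rc.mono' (h : Rc en Γ x y) (h' : Γ ⊆ Γ') : Rc en Γ' x y := by
  induction h with
  | refl => exact Rc.refl'
  | tail _ h ih =>
    obtain ⟨i, hi, e⟩ := h
    exact ih.trans' (Rc.step (h' hi) e)

/-- No edge leaves the set of vertices reachable from `x`. -/
lemma cut_rc (x : V) : cut en Γ {v | Rc en Γ x v} = ∅ := by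
  ext i
  simp only [mem_cut, notMem_empty, iff_false]
  rintro ⟨hi, a, b, e, ha, hb⟩
  exact hb (Rc.trans' ha (Rc.step hi e))

/-- A set that no edge leaves is closed under reachability. -/
lemma Rc.mem_of_cut (h : Rc en Γ x y) (hY : cut en Γ Y = ∅) (hx : x ∈ Y) : y ∈ Y := by
  induction h with
  | refl => exact hx
  | tail _ h ih =>
    obtain ⟨i, hi, e⟩ := h
    by_contra hc
    have : i ∈ cut en Γ Y := mem_cut.2 ⟨hi, _, _, e, ih, hc⟩
    simp [hY] at this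

variable [DecidableEq ι]

lemma cut_union : cut en (A ∪ B) Y = cut en A Y ∪ cut en B Y := by
  ext i; simp only [mem_cut, mem_union]; tauto

lemma cut_sdiff : cut en (A \ B) Y = cut en A Y \ B := by
  ext i; simp only [mem_cut, mem_sdiff]; tauto

lemma cut_inter : cut en (A ∩ B) Y = cut en A Y ∩ B := by
  ext i; simp only [mem_cut, mem_inter]; tauto

lemma cut_eq_inter (h : Z ⊆ Γ) : cut en Z Y = Z ∩ cut en Γ Y := by
  ext i; simp only [mem_cut, mem_inter]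
  exact ⟨fun h' => ⟨h'.1, h h'.1, h'.2⟩, fun h' => ⟨h'.1, h'.2.2⟩⟩

lemma card_cut_union (h : Disjoint A B) :
    (cut en (A ∪ B) Y).card = (cut en A Y).card + (cut en B Y).card := by
  rw [cut_union, card_union_of_disjoint (h.mono cut_subset cut_subset)]

lemma dgr_union (h : Disjoint A B) (v : V) : dgr en (A ∪ B) v = dgr en A v + dgr en B v :=
  card_cut_union h

lemma card_cut_sdiff (h : B ⊆ A) :
    (cut en (A \ B) Y).card + (cut en B Y).card = (cut en A Y).card := by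
  rw [← card_cut_union sdiff_disjoint, sdiff_union_of_subset h]

lemma dgr_sdiff (h : B ⊆ A) (v : V) : dgr en (A \ B) v + dgr en B v = dgr en A v :=
  card_cut_sdiff h

lemma spt_union : spt en (A ∪ B) = spt en A ∪ spt en B := by
  ext v; simp only [spt, mem_union, Set.mem_ofPred_eq, Set.mem_union, or_and_right, exists_or]

lemma Ev.sdiff (h : Ev en A) (h' : Ev en B) (hs : B ⊆ A) : Ev en (A \ B) := fun v => by
  have h1 := dgr_sdiff (en := en) hs v
  have h2 := h v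
  have h3 := h' v
  rw [Nat.even_iff] at *
  omega

lemma Ev.union (h : Ev en A) (h' : Ev en B) (hd : Disjoint A B) : Ev en (A ∪ B) := fun v => by
  rw [dgr_union hd]; exact (h v).add (h' v)

end gen

section graph

variable {V : Type}

open Classical in
/-- The edge set of `G`. -/
noncomputable def EG [Fintype V] [DecidableEq V] (G : SimpleGraph V) : Finset (Sym2 V) :=
  univ.filter (fun e => e ∈ G.edgeSet)

lemma mem_EG [Fintype V] [DecidableEq V] {G : SimpleGraph V} {e : Sym2 V} :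
    e ∈ EG G ↔ e ∈ G.edgeSet := by simp [EG]

lemma mk_mem_EG [Fintype V] [DecidableEq V] {G : SimpleGraph V} {x y : V} :
    s(x, y) ∈ EG G ↔ G.Adj x y := by simp [EG]

lemma nl_EG [Fintype V] [DecidableEq V] {G : SimpleGraph V} : NL id (EG G) :=
  fun _ hi => G.not_isDiag_of_mem_edgeSet (mem_EG.1 hi)

/-- `G` is cubic and 3-edge-connected. -/
structure G3 [Fintype V] [DecidableEq V] (G : SimpleGraph V) : Prop where
  dg : ∀ v, dgr id (EG G) v = 3
  c3 : ∀ Y : Set V, Y.Nonempty → Yᶜ.Nonempty → 3 ≤ (cut id (EG G) Y).card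

/-- `v 0, …, v n` is a path in `Γ` whose inner vertices have degree two in `Γ`. -/
structure Seg (Γ : Finset (Sym2 V)) (v : ℕ → V) (n : ℕ) : Prop where
  ed : ∀ i, i < n → s(v i, v (i + 1)) ∈ Γ
  inj : ∀ i j, i ≤ n → j ≤ n → v i = v j → i = j
  dg : ∀ i, 0 < i → i < n → dgr id Γ (v i) = 2

/-- The edges of the path `v` between the positions `a` and `b`. -/
def ES [DecidableEq V] (v : ℕ → V) (a b : ℕ) : Finset (Sym2 V) :=
  (Ico a b).image (fun i => s(v i, v (i + 1)))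

lemma mem_ES [DecidableEq V] {v : ℕ → V} {a b : ℕ} {e : Sym2 V} :
    e ∈ ES v a b ↔ ∃ i, a ≤ i ∧ i < b ∧ e = s(v i, v (i + 1)) := by
  simp only [ES, mem_image, mem_Ico]
  exact ⟨fun ⟨i, ⟨h1, h2⟩, h3⟩ => ⟨i, h1, h2, h3.symm⟩,
    fun ⟨i, h1, h2, h3⟩ => ⟨i, ⟨h1, h2⟩, h3.symm⟩⟩

/-- A walk from `a` to `b` whose other vertices lie in `X`. -/
def Via (G : SimpleGraph V) (X : Set V) (a b : V) : Prop :=
  ∃ w : G.Walk a b, ∀ v ∈ w.support, v = a ∨ v = b ∨ v ∈ X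

/-- The graph has a cycle of length `t`. -/
def HasC (G : SimpleGraph V) (t : ℕ) : Prop :=
  ∃ (v : V) (c : G.Walk v v), c.IsCycle ∧ c.length = t

end graph

end Pool.Agent.P.MP_bb4f54_co.T3
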