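import Pool.Agent.P.MP_bb4f54_co.T3.All

/-! The window of cycle lengths starting at a square. -/

set_option autoImplicit false

namespace Pool.Agent.P.MP_bb4f54_co.T3

lemma sq_window (P : ℕ → Prop) (C L : ℕ) (hL : 3 ≤ L)
    (h : ∀ j, j ≤ (2 * C + 3) * (Nat.sqrt L + 1) → P (L + 2 * j)) :
    ∃ a, 2 ≤ a ∧ ∀ j, j ≤ C * a → P (a ^ 2 + 2 * j) := by
  have h1 := Nat.sqrt_le' L
  have h2 := Nat.lt_succ_sqrt' L
  have h3 : 1 ≤ Nat.sqrt L := Nat.le_sqrt.2 (by omega)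
  generalize Nat.sqrt L = s at *
  have key : ∀ a, s + 1 ≤ a → a ≤ s + 2 → a % 2 = L % 2 →
      ∃ a, 2 ≤ a ∧ ∀ j, j ≤ C * a → P (a ^ 2 + 2 * j) := by
    intro a ha hb hp
    have e1 : L ≤ a ^ 2 := by
      have := Nat.pow_le_pow_left ha 2
      simp only [Nat.succ_eq_add_one] at h2
      omega
    have e2 : a ^ 2 ≤ L + 4 * s + 4 := by
      have := Nat.pow_le_pow_left hb 2
      nlinarith
    have e3 : a ^ 2 % 2 = L % 2 := by
      rw [← hp, Nat.pow_mod]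
      rcases Nat.mod_two_eq_zero_or_one a with e | e <;> simp [e]
    obtain ⟨d, hd⟩ : ∃ d, a ^ 2 = L + 2 * d := ⟨(a ^ 2 - L) / 2, by omega⟩
    refine ⟨a, by omega, fun j hj => ?_⟩
    have e4 : C * a ≤ C * (2 * (s + 1)) := Nat.mul_le_mul_left _ (by omega)
    have := h (d + j) (by nlinarith)
    rwa [hd, add_assoc, ← mul_add]
  by_cases hp : (s + 1) % 2 = L % 2
  · exact key _ le_rfl (by omega) hp
  · exact key (s + 2) (by omega) le_rfl (by omega)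

theorem final (C : ℕ) : ∃ N : ℕ, ∀ (V : Type) [Fintype V] [DecidableEq V] (G : SimpleGraph V)
    [DecidableRel G.Adj], N ≤ Fintype.card V → (∀ v, G.degree v = 3) →
    (∀ S : Finset V, S.card ≤ 2 → (G.induce (↑S : Set V)ᶜ).Connected) →
      ∃ a : ℕ, 2 ≤ a ∧ ∀ j : ℕ, j ≤ C * a →
        ∃ (v : V) (c : G.Walk v v), c.IsCycle ∧ c.length = a ^ 2 + 2 * j := by
  obtain ⟨N, hN⟩ := q_MAIN (2 * C + 3)
  refine ⟨N, fun V _ _ G _ h1 h2 h3 => ?_⟩
  obtain ⟨⟨L, hL, h⟩, -⟩ := hN V G h1 h2 h3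
  exact sq_window (fun t => ∃ (v : V) (c : G.Walk v v), c.IsCycle ∧ c.length = t) C L hL h

end Pool.Agent.P.MP_bb4f54_co.T3
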