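import Pool.Agent.P.MP_bb4f54_co.T3.Iface2
import Pool.Agent.P.MP_bb4f54_co.T3.Iface5
import Pool.Agent.P.MP_bb4f54_co.T3.Iface7

/-! Statements: the assembly. -/

set_option autoImplicit false
set_option linter.unusedSectionVars false

namespace Pool.Agent.P.MP_bb4f54_co.T3

open Finset

section defs

variable {V : Type} [DecidableEq V]

lemma Gad.mono {Ω Ω' Γ Γ' F : Finset (Sym2 V)} {c : Sym2 V} (h : Gad Ω Γ F c) (h1 : Γ' ⊆ Γ)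
    (h2 : Ω' ⊆ Ω) (h3 : F ∩ Ω ⊆ Ω') : Gad Ω' Γ' F c := by
  intro Z hZ hc hm
  obtain ⟨R, r1, r2, r3⟩ := h Z (hZ.trans h1) hc hm
  exact ⟨R, fun j => subset_inter ((r1 j).trans inter_subset_left) ((r1 j).trans h3), r2,
    fun Z' hZ' => r3 Z' (hZ'.trans h2)⟩

lemma KB.mono {Γ Γ' F X : Finset (Sym2 V)} {c : Sym2 V} (h : KB Γ F X c) (h1 : Γ' ⊆ Γ)
    (h2 : F ∩ Γ ⊆ Γ') : KB Γ' F X c :=
  ⟨subset_inter (h.sub.trans inter_subset_left) (h.sub.trans h2), h.cF, h.cX,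
    fun Γ'' a b d => h.rm Γ'' (a.trans h1) b (fun _ he => d (mem_inter.2
      ⟨h2 (mem_inter.2 (mem_inter.1 he).symm), (mem_inter.1 he).2⟩)),
    h.gd.mono (sdiff_subset_sdiff h1 subset_rfl) h1 h2⟩

end defs

-- deps:
/-- From vertex connectivity to edge connectivity. -/
def S_G3V : Prop := ∀ {V : Type} [Fintype V] [DecidableEq V] (G : SimpleGraph V)
  [DecidableRel G.Adj], 5 ≤ Fintype.card V → (∀ v, G.degree v = 3) →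
    (∀ S : Finset V, S.card ≤ 2 → (G.induce (↑S : Set V)ᶜ).Connected) → G3 G ∧ TC id (EG G)

-- deps: LSL
/-- The surgery in the interior of a sparse region. -/
def S_INT : Prop := ∃ K : ℕ, ∀ {V : Type} [Fintype V] [DecidableEq V] (G : SimpleGraph V)
  (S : Finset V), G3 G → S.Nonempty → S ≠ univ → K * (cut id (EG G) ↑S).card ≤ S.card →
    ∃ S₀ ⊆ S, ∀ Γ ⊆ EG G, TC id Γ → (∀ e ∈ EG G, (∃ u ∈ e, u ∈ S) → e ∈ Γ) →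
      Res (EG G) (Fi G S₀) Γ

-- deps:
/-- The surgery in many regions. -/
def S_ITER : Prop := ∀ {V κ : Type} [DecidableEq V] [DecidableEq κ] (Ω : Finset (Sym2 V))
  (I : Finset κ) (F : κ → Finset (Sym2 V)), TC id Ω → (∀ i ∈ I, F i ⊆ Ω) →
    (∀ i ∈ I, ∀ j ∈ I, i ≠ j → Disjoint (F i) (F j)) →
    (∀ i ∈ I, ∀ Γ ⊆ Ω, TC id Γ → (∀ e ∈ Ω, (∀ j ∈ I, j ≠ i → e ∉ F j) → e ∈ Γ) → Res Ω (F i) Γ) →
      ∀ t, 2 * t ≤ I.card + 1 → ∃ J ⊆ I, ∃ Γ ⊆ Ω, ∃ c : κ → Sym2 V, J.card = t ∧ TC id Γ ∧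
        (∀ e ∈ Ω, (∀ j ∈ J, e ∉ F j) → e ∈ Γ) ∧
        ∀ i ∈ J, c i ∈ Γ ∧ (Gad Ω Γ (F i) (c i) ∨ ∃ X, KB Γ (F i) X (c i))

-- deps:
/-- One kind of gadget. -/
def S_MAJ : Prop := ∀ {V κ : Type} [DecidableEq V] [DecidableEq κ] (Ω Γ : Finset (Sym2 V))
  (J : Finset κ) (F : κ → Finset (Sym2 V)) (c : κ → Sym2 V), Γ ⊆ Ω → TC id Γ →
    (∀ i ∈ J, ∀ j ∈ J, i ≠ j → Disjoint (F i) (F j)) →
    (∀ i ∈ J, c i ∈ Γ ∧ (Gad Ω Γ (F i) (c i) ∨ ∃ X, KB Γ (F i) X (c i))) →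
      ∃ J' ⊆ J, ∃ Ω' ⊆ Ω, ∃ Γ' ⊆ Ω', J.card ≤ 2 * J'.card ∧ TC id Γ' ∧
        ∀ i ∈ J', c i ∈ Γ' ∧ Gad Ω' Γ' (F i) (c i)

-- deps:
/-- Simultaneous replacement. -/
def S_MULT : Prop := ∀ {V κ : Type} [DecidableEq V] [DecidableEq κ] (Ω Z : Finset (Sym2 V))
  (J : Finset κ) (F R : κ → Finset (Sym2 V)), Z ⊆ Ω → Cy id Z →
    (∀ i ∈ J, ∀ j ∈ J, i ≠ j → Disjoint (F i) (F j)) →
    (∀ i ∈ J, R i ⊆ F i ∩ Ω ∧ ∀ Z' ⊆ Ω, Cy id Z' → Z' ∩ F i = Z ∩ F i → Cy id ((Z' \ F i) ∪ R i)) →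
      ∃ Z' ⊆ Ω, Cy id Z' ∧ Z'.card = (Z \ J.biUnion F).card + ∑ i ∈ J, (R i).card

-- deps:
/-- A progression of sums. -/
def S_ARI0 : Prop := ∀ {κ : Type} [DecidableEq κ] (J : Finset κ) (r : κ → Fin 4 → ℕ) (s m : ℕ),
    (∀ i ∈ J, (∀ j, r i j ≤ s) ∧ r i 0 + r i 1 = r i 2 + r i 3 + 2) →
    (2 * s + 1) * (2 * m) ≤ J.card →
      ∃ L, ∀ j, j ≤ m → ∃ σ : κ → Fin 4, ∑ i ∈ J, r i (σ i) = L + 2 * j

-- deps: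
/-- The exponent beats the square root. -/
def S_ARI1 : Prop := ∀ q D : ℕ, ∃ N : ℕ, ∀ n a b : ℕ, N ≤ n → n ≤ q * a →
    2 / 3 * (a : ℝ) ^ (1 / bt) ≤ b → D * (Nat.sqrt n + 1) ≤ b

-- deps:
/-- A square in the progression. -/
def S_SQ : Prop := ∀ (P : ℕ → Prop) (C L : ℕ), 3 ≤ L →
    (∀ j, j ≤ (C + 2) * (Nat.sqrt L + 1) → P (L + 2 * j)) →
      (∀ j, j ≤ C * (Nat.sqrt L + 1) → P (L + 2 * j)) ∧ ∃ a, 2 ≤ a ∧ P (a ^ 2)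

-- deps: EW WLK MULT ARI0 ARI1
/-- Many gadgets give a progression. -/
def S_PRG : Prop := ∀ C s q : ℕ, ∃ N : ℕ, ∀ {V κ : Type} [Fintype V] [DecidableEq V]
  [DecidableEq κ] (G : SimpleGraph V) (Ω Γ : Finset (Sym2 V)) (J : Finset κ)
  (F : κ → Finset (Sym2 V)) (c : κ → Sym2 V), N ≤ Fintype.card V → Ω ⊆ EG G → Γ ⊆ Ω → TC id Γ →
    Fintype.card V ≤ q * J.card → (∀ i ∈ J, ∀ j ∈ J, i ≠ j → Disjoint (F i) (F j)) →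
    (∀ i ∈ J, (F i).card ≤ s ∧ c i ∈ Γ ∧ Gad Ω Γ (F i) (c i)) →
      ∃ L, 3 ≤ L ∧ ∀ j, j ≤ C * (Nat.sqrt L + 1) → HasC G (L + 2 * j)

-- deps: SEC1 G3V INT ITER MAJ PRG SQ
/-- The main theorem. -/
def S_MAIN : Prop := ∀ C : ℕ, ∃ N : ℕ, ∀ (V : Type) [Fintype V] [DecidableEq V] (G : SimpleGraph V) [DecidableRel G.Adj], N ≤ Fintype.card V → (∀ v, G.degree v = 3) → (∀ S : Finset V, S.card ≤ 2 → (G.induce (↑S : Set V)ᶜ).Connected) → (∃ L, 3 ≤ L ∧ ∀ j, j ≤ C * (Nat.sqrt L + 1) → ∃ (v : V) (c : G.Walk v v), c.IsCycle ∧ c.length = L + 2 * j) ∧ ∃ a, 2 ≤ a ∧ ∃ (v : V) (c : G.Walk v v), c.IsCycle ∧ c.length = a ^ 2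

end Pool.Agent.P.MP_bb4f54_co.T3
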